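import Mathlib

set_option autoImplicit false

namespace Pool.Agent.Lib.H26AbCx

open Classical

def o (j : ℕ) : ℕ := (if j % 2 = 0 then 1 else 3) * 10 ^ (j / 2)

theorem o_even (i : ℕ) : o (2 * i) = 10 ^ i := by simp [o]
theorem o_odd (i : ℕ) : o (2 * i + 1) = 3 * 10 ^ i := by
  have h1 : (2 * i + 1) % 2 = 1 := by omega
  have h2 : (2 * i + 1) / 2 = i := by omega
  simp [o, h1, h2]

theorem o_succ (j : ℕ) : 3 * o j ≤ o (j + 1) := by
  rcases Nat.even_or_odd' j with ⟨i, rfl | rfl⟩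
  · rw [o_even, o_odd]
  · rw [o_odd, show 2 * i + 1 + 1 = 2 * (i + 1) by ring, o_even, pow_succ]; omega

theorem o_pos (j : ℕ) : 1 ≤ o j := by
  induction j with
  | zero => simp [o]
  | succ j ih => have := o_succ j; omega

theorem o_mono : StrictMono o := strictMono_nat_of_lt_succ fun j => by
  have := o_succ j; have := o_pos j; omega

theorem o_three {i j : ℕ} (h : i < j) : 3 * o i ≤ o j :=
  (o_succ i).trans (o_mono.monotone h)

theorem p_mono : StrictMono fun j : ℕ => 10 ^ j := fun _ _ h => Nat.pow_lt_pow_right (by norm_num) h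

theorem p_ten {i j : ℕ} (h : i < j) : 10 * 10 ^ i ≤ 10 ^ j := by
  rw [← pow_succ']; exact Nat.pow_le_pow_right (by norm_num) h

theorem p_pos (j : ℕ) : 1 ≤ 10 ^ j := Nat.one_le_pow _ _ (by norm_num)

def SA (m : ℕ) : Prop :=
  ∃ E j, (j < 2 * E ∧ m = 6 * 10 ^ E + o j) ∨ (j < E ∧ m = 3 * 10 ^ E + 10 ^ j)

def SB (m : ℕ) : Prop :=
  ∃ E, m = 5 * 10 ^ E ∨ m = 6 * 10 ^ E ∨ m = 3 * 10 ^ E ∨ (1 ≤ E ∧ m = 3 * 10 ^ E + 2)

theorem scale {E E' m : ℕ} (h1 : 10 ^ E ≤ m) (h2 : m < 30 * 10 ^ E) (h3 : 3 * 10 ^ E' ≤ m)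
    (h4 : m < 7 * 10 ^ E') : E' = E := by
  rcases lt_trichotomy E' E with h | h | h
  · have := p_ten h; omega
  · exact h
  · have := p_ten h; omega

theorem o_lt {j E : ℕ} (h : j < 2 * E) : 3 * o j ≤ 10 ^ E := by
  have := o_three h; rwa [o_even] at this

theorem SA_loc {E m : ℕ} (h1 : 10 ^ E ≤ m) (h2 : m < 30 * 10 ^ E) (h : SA m) :
    ∃ j, (j < 2 * E ∧ m = 6 * 10 ^ E + o j) ∨ (j < E ∧ m = 3 * 10 ^ E + 10 ^ j) := by
  obtain ⟨E', j, h⟩ := h
  have : E' = E := by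
    have := p_pos E'
    rcases h with ⟨a, b⟩ | ⟨a, b⟩
    · have := o_lt a; exact scale h1 h2 (by omega) (by omega)
    · have := p_ten a; exact scale h1 h2 (by omega) (by omega)
  subst this
  exact ⟨j, h⟩

theorem SB_loc {E m : ℕ} (h1 : 10 ^ E ≤ m) (h2 : m < 30 * 10 ^ E) (h : SB m) :
    m = 5 * 10 ^ E ∨ m = 6 * 10 ^ E ∨ m = 3 * 10 ^ E ∨ (1 ≤ E ∧ m = 3 * 10 ^ E + 2) := by
  obtain ⟨E', h⟩ := h
  have : E' = E := by
    have := p_pos E'
    exact scale h1 h2 (by omega) (by omega)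
  subst this
  exact h

theorem disj {m : ℕ} (ha : SA m) (hb : SB m) : False := by
  obtain ⟨E, j, h⟩ := ha
  have := p_pos E
  rcases h with ⟨a, b⟩ | ⟨a, b⟩
  · have := o_lt a
    have := o_pos j
    have := SB_loc (E := E) (by omega) (by omega) hb
    omega
  · have := p_ten a
    have := p_pos j
    have := SB_loc (E := E) (by omega) (by omega) hb
    rcases Nat.eq_zero_or_pos j with rfl | hj
    · omega
    · have := p_ten hj; omega

/-! ### automaticity -/

def M (c m : ℕ) : Prop := ∃ E, m = c * 10 ^ E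
def N (c c' m : ℕ) : Prop := ∃ E i, i < E ∧ m = c * 10 ^ E + c' * 10 ^ i
def O (m : ℕ) : Prop := ∃ E, 1 ≤ E ∧ m = 3 * 10 ^ E + 2

theorem M_step {c : ℕ} (hc : c < 10) (m r : ℕ) (hr : r < 10) :
    M c (10 * m + r) ↔ (m = 0 ∧ r = c) ∨ (M c m ∧ r = 0) := by
  constructor
  · rintro ⟨E, h⟩
    rcases E with _ | E
    · left; omega
    · right
      rw [pow_succ, ← mul_assoc] at h
      exact ⟨⟨E, by omega⟩, by omega⟩
  · rintro (⟨rfl, rfl⟩ | ⟨⟨E, rfl⟩, rfl⟩)
    · exact ⟨0, by simp⟩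
    · exact ⟨E + 1, by ring⟩

theorem N_step {c c' : ℕ} (hc : c' < 10) (m r : ℕ) (hr : r < 10) :
    N c c' (10 * m + r) ↔ (M c m ∧ r = c') ∨ (N c c' m ∧ r = 0) := by
  constructor
  · rintro ⟨E, i, hi, h⟩
    obtain ⟨E, rfl⟩ : ∃ F, E = F + 1 := ⟨E - 1, by omega⟩
    rw [pow_succ, ← mul_assoc] at h
    rcases i with _ | i
    · left; exact ⟨⟨E, by omega⟩, by omega⟩
    · right
      rw [pow_succ, ← mul_assoc] at h
      exact ⟨⟨E, i, by omega, by omega⟩, by omega⟩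
  · rintro (⟨⟨E, rfl⟩, rfl⟩ | ⟨⟨E, i, hi, rfl⟩, rfl⟩)
    · exact ⟨E + 1, 0, by omega, by ring⟩
    · exact ⟨E + 1, i + 1, by omega, by ring⟩

theorem O_step (m r : ℕ) (hr : r < 10) : O (10 * m + r) ↔ M 3 m ∧ r = 2 := by
  constructor
  · rintro ⟨E, hi, h⟩
    obtain ⟨E, rfl⟩ : ∃ F, E = F + 1 := ⟨E - 1, by omega⟩
    rw [pow_succ] at h
    exact ⟨⟨E, by omega⟩, by omega⟩
  · rintro ⟨⟨E, rfl⟩, rfl⟩
    exact ⟨E + 1, by omega, by ring⟩

theorem SA_iff (m : ℕ) : SA m ↔ N 6 1 m ∨ N 6 3 m ∨ N 3 1 m := by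
  constructor
  · rintro ⟨E, j, ⟨h, rfl⟩ | ⟨h, rfl⟩⟩
    · rcases Nat.even_or_odd' j with ⟨i, rfl | rfl⟩
      · exact Or.inl ⟨E, i, by omega, by rw [o_even, one_mul]⟩
      · exact Or.inr (Or.inl ⟨E, i, by omega, by rw [o_odd]⟩)
    · exact Or.inr (Or.inr ⟨E, j, h, by rw [one_mul]⟩)
  · rintro (⟨E, i, h, rfl⟩ | ⟨E, i, h, rfl⟩ | ⟨E, i, h, rfl⟩)
    · exact ⟨E, 2 * i, Or.inl ⟨by omega, by rw [o_even, one_mul]⟩⟩
    · exact ⟨E, 2 * i + 1, Or.inl ⟨by omega, by rw [o_odd]⟩⟩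
    · exact ⟨E, i, Or.inr ⟨h, by rw [one_mul]⟩⟩

theorem SB_iff (m : ℕ) : SB m ↔ M 5 m ∨ M 6 m ∨ M 3 m ∨ O m := by
  simp only [SB, M, O, exists_or]

def τ (m : ℕ) : Prop × Prop × Prop × Prop × Prop × Prop × Prop × Prop :=
  (m = 0, M 5 m, M 6 m, M 3 m, N 6 1 m, N 6 3 m, N 3 1 m, O m)

theorem τ_step {m m' : ℕ} (h : τ m = τ m') (r : ℕ) (hr : r < 10) :
    τ (10 * m + r) = τ (10 * m' + r) := by
  simp only [τ, Prod.mk.injEq, eq_iff_iff] at h ⊢
  obtain ⟨h0, h1, h2, h3, h4, h5, h6, h7⟩ := h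
  simp only [M_step (c := 5) (by norm_num) _ r hr, M_step (c := 6) (by norm_num) _ r hr,
    M_step (c := 3) (by norm_num) _ r hr, N_step (c' := 1) (by norm_num) _ r hr,
    N_step (c' := 3) (by norm_num) _ r hr, O_step _ r hr, h0, h1, h2, h3, h4, h5, h6,
    and_true]
  omega

theorem τ_pow (e : ℕ) : ∀ r, r < 10 ^ e → ∀ m m', τ m = τ m' →
    τ (10 ^ e * m + r) = τ (10 ^ e * m' + r) := by
  induction e with
  | zero => intro r hr m m' h; have : r = 0 := by omega
            simpa [this] using h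
  | succ e ih =>
    intro r hr m m' h
    have e1 : ∀ m, 10 ^ (e + 1) * m + r = 10 * (10 ^ e * m + r / 10) + r % 10 := fun m => by
      rw [pow_succ', mul_assoc]; omega
    rw [e1, e1]
    exact τ_step (ih _ (by rw [pow_succ] at hr; omega) _ _ h) _ (by omega)

noncomputable def x (m : ℕ) : Fin 3 := if SA m then 1 else if SB m then 2 else 0

theorem x_τ {m m' : ℕ} (h : τ m = τ m') : x m = x m' := by
  simp only [τ, Prod.mk.injEq, eq_iff_iff] at h
  obtain ⟨h0, h1, h2, h3, h4, h5, h6, h7⟩ := h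
  simp only [x, SA_iff, SB_iff, h1, h2, h3, h4, h5, h6, h7]

theorem kernel_finite :
    {f : ℕ → Fin 3 | ∃ e r : ℕ, r < 10 ^ e ∧ f = fun n => x (10 ^ e * n + r)}.Finite := by
  refine (Set.finite_range fun g : _ → Fin 3 => g ∘ τ).subset ?_
  rintro _ ⟨e, r, hr, rfl⟩
  refine ⟨fun s => if h : ∃ m, τ m = s then x (10 ^ e * h.choose + r) else 0, funext fun n => ?_⟩
  have h : ∃ m, τ m = τ n := ⟨n, rfl⟩
  simp only [Function.comp, dif_pos h]
  exact x_τ (τ_pow e r hr _ _ h.choose_spec)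

theorem x_one (m : ℕ) : x m = 1 ↔ SA m := by
  unfold x; split_ifs with h1 h2 <;> simp [h1]

theorem x_two (m : ℕ) : x m = 2 ↔ SB m := by
  unfold x; split_ifs with h1 h2
  · simp; exact fun h => disj h1 h
  · simp [h2]
  · simp [h2]

/-! ### counting in windows -/

noncomputable def cnt (S : ℕ → Prop) (s t : ℕ) : ℕ := ((Finset.Ico s t).filter S).card

theorem cnt_eq (S : ℕ → Prop) (s t : ℕ) (F : Finset ℕ) (h : ∀ m, (s ≤ m ∧ m < t ∧ S m) ↔ m ∈ F) :
    cnt S s t = F.card := by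
  unfold cnt
  congr 1
  ext m
  rw [← h, Finset.mem_filter, Finset.mem_Ico, and_assoc]

theorem cnt_le (S : ℕ → Prop) (s t : ℕ) (F : Finset ℕ) (h : ∀ m, s ≤ m → m < t → S m → m ∈ F) :
    cnt S s t ≤ F.card :=
  Finset.card_le_card fun m hm => by
    rw [Finset.mem_filter, Finset.mem_Ico] at hm
    exact h m hm.1.1 hm.1.2 hm.2

theorem cnt_ge (S : ℕ → Prop) (s t : ℕ) (F : Finset ℕ) (h : ∀ m ∈ F, s ≤ m ∧ m < t ∧ S m) :
    F.card ≤ cnt S s t :=
  Finset.card_le_card fun m hm => by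
    rw [Finset.mem_filter, Finset.mem_Ico]
    exact ⟨⟨(h m hm).1, (h m hm).2.1⟩, (h m hm).2.2⟩

def cl (p : ℕ) (f : ℕ → ℕ) (a b : ℕ) : Finset ℕ := (Finset.Ico a b).image fun j => p + f j

theorem cl_card (p : ℕ) {f : ℕ → ℕ} (hf : StrictMono f) (a b : ℕ) : (cl p f a b).card = b - a := by
  rw [cl, Finset.card_image_of_injective _ fun i j h => hf.injective (by simpa using h),
    Nat.card_Ico]

theorem mem_cl {p : ℕ} {f : ℕ → ℕ} {a b m : ℕ} :
    m ∈ cl p f a b ↔ ∃ j, a ≤ j ∧ j < b ∧ m = p + f j := by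
  simp only [cl, Finset.mem_image, Finset.mem_Ico]
  exact ⟨fun ⟨j, h, e⟩ => ⟨j, h.1, h.2, e.symm⟩, fun ⟨j, a, b, e⟩ => ⟨j, ⟨a, b⟩, e.symm⟩⟩

/-- a window of length at most `2 Q` meets a cluster with ratio three in at most `J + 1` points -/
theorem cluster_le (S : ℕ → Prop) (s n p J : ℕ) (f : ℕ → ℕ) (hf : StrictMono f)
    (h3 : ∀ i j, i < j → 3 * f i ≤ f j) (hJ : 3 * n ≤ 2 * f (J + 1))
    (h : ∀ m, s ≤ m → m < s + n → S m → ∃ j, m = p + f j) : cnt S s (s + n) ≤ J + 1 := by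
  by_cases hc : ∃ j, J < j ∧ s ≤ p + f j ∧ p + f j < s + n
  · obtain ⟨j, h1, h2, h4⟩ := hc
    refine (cnt_le S _ _ {p + f j} fun m a b c => ?_).trans (by simp)
    obtain ⟨i, rfl⟩ := h m a b c
    have := hf.monotone (show J + 1 ≤ j from h1)
    rcases lt_trichotomy i j with l | l | l
    · have := h3 _ _ l; omega
    · simp [l]
    · have := h3 _ _ l; omega
  · push Not at hc
    refine (cnt_le S _ _ (cl p f 0 (J + 1)) fun m a b c => ?_).trans (by rw [cl_card _ hf]; simp)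
    obtain ⟨i, rfl⟩ := h m a b c
    refine mem_cl.2 ⟨i, Nat.zero_le _, ?_, rfl⟩
    by_contra hi
    have := hc i (by omega) a
    omega

noncomputable def vec (s n : ℕ) : ℕ × ℕ := (cnt SA s (s + n), cnt SB s (s + n))

def T (n : ℕ) : Set (ℕ × ℕ) := Set.range fun s => vec s n

theorem low (e n s : ℕ) (h1 : 10 ^ e ≤ n) (h2 : n ≤ 2 * 10 ^ e) (hs : s < 10 ^ e) :
    vec s n = vec s (10 ^ e) := by
  have key : ∀ S : ℕ → Prop, (∀ m, 10 ^ e ≤ m → m < 3 * 10 ^ e → ¬ S m) →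
      cnt S s (s + n) = cnt S s (s + 10 ^ e) := by
    intro S hS
    unfold cnt
    congr 1
    ext m
    simp only [Finset.mem_filter, Finset.mem_Ico]
    constructor
    · rintro ⟨⟨a, b⟩, c⟩
      refine ⟨⟨a, ?_⟩, c⟩
      by_contra hm
      exact hS m (by omega) (by omega) c
    · rintro ⟨⟨a, b⟩, c⟩
      exact ⟨⟨a, by omega⟩, c⟩
  unfold vec
  rw [key SA, key SB]
  · intro m a b c
    have := SB_loc a (by omega) c
    omega
  · intro m a b c
    obtain ⟨j, h⟩ := SA_loc a (by omega) c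
    have := p_pos j
    omega

theorem low2 (e s : ℕ) (hs : s < 10 ^ (e + 1)) (hb : (vec s (10 ^ (e + 1))).2 = 2) :
    2 * e ≤ (vec s (10 ^ (e + 1))).1 := by
  have hp := p_pos e
  have hq : 10 ^ (e + 1) = 10 * 10 ^ e := pow_succ' _ _
  by_cases h : s ≤ 5 * 10 ^ e
  · refine le_trans (by rw [cl_card _ o_mono]; simp) (cnt_ge SA _ _ (cl (6 * 10 ^ e) o 0 (2 * e)) ?_)
    intro m hm
    obtain ⟨j, -, hj, rfl⟩ := mem_cl.1 hm
    have := o_lt hj
    exact ⟨by omega, by omega, e, j, Or.inl ⟨hj, rfl⟩⟩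
  · exfalso
    have := cnt_le SB s (s + 10 ^ (e + 1)) {6 * 10 ^ e} fun m a b c => by
      have := SB_loc (E := e) (by omega) (by omega) c
      simp only [Finset.mem_singleton]
      rcases Nat.eq_zero_or_pos e with rfl | he
      · omega
      · have := p_ten he; omega
    simp only [vec] at hb
    rw [hb] at this
    simp at this

theorem far (e d s : ℕ) (hd : d < e) (hs : 10 ^ e ≤ s) :
    (vec s (10 ^ e + 10 ^ d)).1 ≤ 2 * e + 1 ∧ (vec s (10 ^ e + 10 ^ d)).2 ≤ 2 ∧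
      ((vec s (10 ^ e + 10 ^ d)).2 = 2 → (vec s (10 ^ e + 10 ^ d)).1 ≤ max (2 * d) (e + 1)) := by
  have h0 := p_pos e
  have hd1 := p_ten hd
  have hd0 := p_pos d
  obtain ⟨E, hE1, hE2⟩ : ∃ E, 10 ^ E ≤ s ∧ s < 10 * 10 ^ E :=
    ⟨Nat.log 10 s, Nat.pow_log_le_self 10 (by omega), by
      have := Nat.lt_pow_succ_log_self (b := 10) (by norm_num) s
      rwa [pow_succ'] at this⟩
  have hE : e ≤ E := by
    by_contra h
    have := p_ten (show E < e by omega)
    omega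
  have hP : 10 ^ e ≤ 10 ^ E := Nat.pow_le_pow_right (by norm_num) hE
  have hP10 := p_ten (show 0 < E by omega)
  simp only [vec]
  by_cases hc : 2 * s ≤ 7 * 10 ^ E
  · have a1 : cnt SA s (s + (10 ^ e + 10 ^ d)) ≤ e + 1 := by
      refine cluster_le SA s _ (3 * 10 ^ E) e (fun j => 10 ^ j) p_mono
        (fun i j h => by have := p_ten h; omega) (by rw [pow_succ]; omega) fun m a b c => ?_
      obtain ⟨j, h⟩ := SA_loc (E := E) (by omega) (by omega) c
      exact ⟨j, by omega⟩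
    refine ⟨by omega, ?_, fun _ => a1.trans (le_max_right _ _)⟩
    refine (cnt_le SB _ _ {3 * 10 ^ E, 3 * 10 ^ E + 2} fun m a b c => ?_).trans Finset.card_le_two
    have := SB_loc (E := E) (by omega) (by omega) c
    simp only [Finset.mem_insert, Finset.mem_singleton]
    omega
  · have hA : ∀ m, s ≤ m → m < s + (10 ^ e + 10 ^ d) → SA m → ∃ j, m = 6 * 10 ^ E + o j := by
      intro m a b c
      obtain ⟨j, h | h⟩ := SA_loc (E := E) (by omega) (by omega) c
      · exact ⟨j, h.2⟩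
      · have := p_ten h.1; omega
    have hB : ∀ m, s ≤ m → m < s + (10 ^ e + 10 ^ d) → SB m → m = 5 * 10 ^ E ∨ m = 6 * 10 ^ E := by
      intro m a b c
      have := SB_loc (E := E) (by omega) (by omega) c
      omega
    refine ⟨cluster_le SA s _ (6 * 10 ^ E) (2 * e) o o_mono (fun i j h => o_three h)
      (by rw [o_odd]; omega) hA, ?_, fun hb => ?_⟩
    · refine (cnt_le SB _ _ {5 * 10 ^ E, 6 * 10 ^ E} fun m a b c => ?_).trans Finset.card_le_two
      simpa using hB m a b c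
    · have b1 : s ≤ 5 * 10 ^ E := by
        by_contra h
        have := cnt_le SB _ _ {6 * 10 ^ E} fun m a b c => by
          have := hB m a b c
          simp only [Finset.mem_singleton]; omega
        rw [hb] at this; simp at this
      have b2 : 6 * 10 ^ E < s + (10 ^ e + 10 ^ d) := by
        by_contra h
        have := cnt_le SB _ _ {5 * 10 ^ E} fun m a b c => by
          have := hB m a b c
          simp only [Finset.mem_singleton]; omega
        rw [hb] at this; simp at this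
      refine le_trans ?_ (le_max_left _ _)
      refine (cnt_le SA _ _ (cl (6 * 10 ^ E) o 0 (2 * d)) fun m a b c => ?_).trans
        (by rw [cl_card _ o_mono]; simp)
      obtain ⟨j, rfl⟩ := hA m a b c
      refine mem_cl.2 ⟨j, Nat.zero_le _, ?_, rfl⟩
      by_contra hj
      have := o_mono.monotone (show 2 * d ≤ j by omega)
      rw [o_even] at this
      omega

def u (j : ℕ) : ℕ := if j = 0 then 1 else o (j - 1) + 1

theorem lt_u (i j : ℕ) : o i < u j ↔ i < j := by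
  unfold u
  split_ifs with h
  · have := o_pos i; omega
  · rw [Nat.lt_succ_iff, o_mono.le_iff_le]; omega

theorem u_pos (j : ℕ) : 1 ≤ u j := by unfold u; split_ifs <;> omega

theorem u_le {j k : ℕ} (h : j ≤ k) : u j ≤ o k := by
  by_contra hc
  have := (lt_u k j).1 (by omega)
  omega

theorem u_le' {j e : ℕ} (h : j ≤ 2 * e + 1) : u j ≤ 10 ^ e + 1 := by
  unfold u
  split_ifs
  · have := p_pos e; omega
  · have := o_mono.monotone (show j - 1 ≤ 2 * e by omega)
    rw [o_even] at this; omega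

theorem real1 (e d j : ℕ) (hd : d < e) (hj : j ≤ 2 * e + 1) : (j, 1) ∈ T (10 ^ e + 10 ^ d) := by
  have h0 := p_pos e
  have hd1 := p_ten hd
  have hd0 := p_pos d
  have hq : 10 ^ (e + 1) = 10 * 10 ^ e := pow_succ' _ _
  have hu := u_le' hj
  have hu1 := u_pos j
  refine ⟨6 * 10 ^ (e + 1) + u j - (10 ^ e + 10 ^ d), Prod.ext ?_ ?_⟩
  · refine (cnt_eq SA _ _ (cl (6 * 10 ^ (e + 1)) o 0 j) fun m => ?_).trans
      (by rw [cl_card _ o_mono]; simp)
    rw [mem_cl]
    constructor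
    · rintro ⟨a, b, c⟩
      obtain ⟨i, h | h⟩ := SA_loc (E := e + 1) (by omega) (by omega) c
      · exact ⟨i, Nat.zero_le _, (lt_u i j).1 (by omega), h.2⟩
      · have := p_ten h.1; omega
    · rintro ⟨i, -, hi, rfl⟩
      have := (lt_u i j).2 hi
      exact ⟨by omega, by omega, e + 1, i, Or.inl ⟨by omega, rfl⟩⟩
  · refine (cnt_eq SB _ _ {6 * 10 ^ (e + 1)} fun m => ?_).trans (by simp)
    rw [Finset.mem_singleton]
    constructor
    · rintro ⟨a, b, c⟩
      have := SB_loc (E := e + 1) (by omega) (by omega) c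
      omega
    · rintro rfl
      exact ⟨by omega, by omega, e + 1, Or.inr (Or.inl rfl)⟩

theorem real0 (e d j : ℕ) (hd : d < e) (hj : j ≤ 2 * e + 1) : (j, 0) ∈ T (10 ^ e + 10 ^ d) := by
  have h0 := p_pos e
  have hd1 := p_ten hd
  have hd0 := p_pos d
  have hq : 10 ^ (e + 1) = 10 * 10 ^ e := pow_succ' _ _
  have hu := u_le' (show 2 * e + 1 - j ≤ 2 * e + 1 by omega)
  have hu1 := u_pos (2 * e + 1 - j)
  refine ⟨6 * 10 ^ (e + 1) + u (2 * e + 1 - j), Prod.ext ?_ ?_⟩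
  · refine (cnt_eq SA _ _ (cl (6 * 10 ^ (e + 1)) o (2 * e + 1 - j) (2 * e + 1)) fun m => ?_).trans
      (by rw [cl_card _ o_mono]; simp; omega)
    rw [mem_cl]
    constructor
    · rintro ⟨a, b, c⟩
      obtain ⟨i, h | h⟩ := SA_loc (E := e + 1) (by omega) (by omega) c
      · refine ⟨i, ?_, ?_, h.2⟩
        · by_contra hi
          have := (lt_u i (2 * e + 1 - j)).2 (by omega)
          omega
        · by_contra hi
          have := o_mono.monotone (show 2 * e + 1 ≤ i by omega)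
          rw [o_odd] at this
          omega
      · have := p_ten h.1; omega
    · rintro ⟨i, hi, hi', rfl⟩
      have := u_le hi
      have := o_mono.monotone (show i ≤ 2 * e by omega)
      rw [o_even] at this
      exact ⟨by omega, by omega, e + 1, i, Or.inl ⟨by omega, rfl⟩⟩
  · refine (cnt_eq SB _ _ ∅ fun m => ?_).trans (by simp)
    simp only [Finset.notMem_empty, iff_false]
    rintro ⟨a, b, c⟩
    have := SB_loc (E := e + 1) (by omega) (by omega) c
    omega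

theorem real2b (e d j : ℕ) (hd : d < e) (hj : j ≤ 2 * d) : (j, 2) ∈ T (10 ^ e + 10 ^ d) := by
  have h0 := p_pos e
  have hd1 := p_ten hd
  have hd0 := p_pos d
  have hu := u_le hj
  rw [o_even] at hu
  have hu1 := u_pos j
  refine ⟨5 * 10 ^ e + u j - 10 ^ d, Prod.ext ?_ ?_⟩
  · refine (cnt_eq SA _ _ (cl (6 * 10 ^ e) o 0 j) fun m => ?_).trans
      (by rw [cl_card _ o_mono]; simp)
    rw [mem_cl]
    constructor
    · rintro ⟨a, b, c⟩
      obtain ⟨i, h | h⟩ := SA_loc (E := e) (by omega) (by omega) c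
      · exact ⟨i, Nat.zero_le _, (lt_u i j).1 (by omega), h.2⟩
      · have := p_ten h.1; omega
    · rintro ⟨i, -, hi, rfl⟩
      have := (lt_u i j).2 hi
      exact ⟨by omega, by omega, e, i, Or.inl ⟨by omega, rfl⟩⟩
  · refine (cnt_eq SB _ _ {5 * 10 ^ e, 6 * 10 ^ e} fun m => ?_).trans
      (Finset.card_pair (by omega))
    rw [Finset.mem_insert, Finset.mem_singleton]
    constructor
    · rintro ⟨a, b, c⟩
      have := SB_loc (E := e) (by omega) (by omega) c
      omega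
    · rintro (rfl | rfl)
      · exact ⟨by omega, by omega, e, Or.inl rfl⟩
      · exact ⟨by omega, by omega, e, Or.inr (Or.inl rfl)⟩

theorem real2a (e d j : ℕ) (hd : d < e) (hj : j ≤ e) : (j + 1, 2) ∈ T (10 ^ e + 10 ^ d) := by
  have h0 := p_ten (show 0 < e by omega)
  have hd1 := p_ten hd
  have hd0 := p_pos d
  have hq : 10 ^ (e + 1) = 10 * 10 ^ e := pow_succ' _ _
  have hj1 : 10 ^ j ≤ 10 ^ e := Nat.pow_le_pow_right (by norm_num) hj
  obtain ⟨w, hw1, hw2, hw3, hw4⟩ : ∃ w, 3 ≤ w ∧ w ≤ 10 ^ e + 1 ∧ 10 ^ j < w ∧ w ≤ 10 * 10 ^ j := by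
    rcases Nat.eq_zero_or_pos j with rfl | h
    · exact ⟨3, by omega, by omega, by omega, by omega⟩
    · have := p_ten h
      exact ⟨10 ^ j + 1, by omega, by omega, by omega, by omega⟩
  refine ⟨3 * 10 ^ (e + 1) + w - (10 ^ e + 10 ^ d), Prod.ext ?_ ?_⟩
  · refine (cnt_eq SA _ _ (cl (3 * 10 ^ (e + 1)) (fun j => 10 ^ j) 0 (j + 1)) fun m => ?_).trans
      (by rw [cl_card _ p_mono]; simp)
    rw [mem_cl]
    constructor
    · rintro ⟨a, b, c⟩
      obtain ⟨i, h | h⟩ := SA_loc (E := e + 1) (by omega) (by omega) c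
      · omega
      · refine ⟨i, Nat.zero_le _, ?_, h.2⟩
        by_contra hi
        have := p_ten (show j < i by omega)
        omega
    · rintro ⟨i, -, hi, rfl⟩
      have : 10 ^ i ≤ 10 ^ j := Nat.pow_le_pow_right (by norm_num) (by omega)
      have := p_pos i
      exact ⟨by omega, by omega, e + 1, i, Or.inr ⟨by omega, rfl⟩⟩
  · refine (cnt_eq SB _ _ {3 * 10 ^ (e + 1), 3 * 10 ^ (e + 1) + 2} fun m => ?_).trans
      (Finset.card_pair (by omega))
    rw [Finset.mem_insert, Finset.mem_singleton]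
    constructor
    · rintro ⟨a, b, c⟩
      have := SB_loc (E := e + 1) (by omega) (by omega) c
      omega
    · rintro (rfl | rfl)
      · exact ⟨by omega, by omega, e + 1, Or.inr (Or.inr (Or.inl rfl))⟩
      · exact ⟨by omega, by omega, e + 1, Or.inr (Or.inr (Or.inr ⟨by omega, rfl⟩))⟩

theorem T_iff (e d : ℕ) (hd : d < e) (v : ℕ × ℕ) : v ∈ T (10 ^ e + 10 ^ d) ↔
    (∃ s, s < 10 ^ e ∧ vec s (10 ^ e) = v) ∨ (v.1 ≤ 2 * e + 1 ∧ v.2 ≤ 1) ∨
      (v.1 ≤ max (2 * d) (e + 1) ∧ v.2 = 2) := by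
  have hd1 := p_ten hd
  constructor
  · rintro ⟨s, rfl⟩
    by_cases hs : s < 10 ^ e
    · exact Or.inl ⟨s, hs, (low e _ s (by omega) (by omega) hs).symm⟩
    · obtain ⟨h1, h2, h3⟩ := far e d s hd (by omega)
      right
      by_cases h : (vec s (10 ^ e + 10 ^ d)).2 = 2
      · exact Or.inr ⟨h3 h, h⟩
      · exact Or.inl ⟨h1, by show (vec s (10 ^ e + 10 ^ d)).2 ≤ 1; omega⟩
  · obtain ⟨a, b⟩ := v
    rintro (⟨s, hs, h⟩ | ⟨h1, h2⟩ | ⟨h1, h2⟩)
    · exact ⟨s, (low e _ s (by omega) (by omega) hs).trans h⟩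
    · have : b = 0 ∨ b = 1 := by omega
      rcases this with rfl | rfl
      · exact real0 e d a hd h1
      · exact real1 e d a hd h1
    · simp only at h1 h2
      subst h2
      by_cases h : a ≤ 2 * d
      · exact real2b e d a hd h
      · obtain ⟨j, rfl⟩ : ∃ j, a = j + 1 := ⟨a - 1, by omega⟩
        exact real2a e d j hd (by omega)

theorem T_finite (n : ℕ) : (T n).Finite := by
  refine ((Set.finite_Iic n).prod (Set.finite_Iic n)).subset ?_
  rintro _ ⟨s, rfl⟩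
  have : ∀ S, cnt S s (s + n) ≤ n := fun S =>
    (Finset.card_filter_le _ _).trans (by simp)
  exact ⟨this _, this _⟩

theorem T_same (e d : ℕ) (h : 2 * d + 2 ≤ e + 1) (hd : d + 1 < e) :
    (T (10 ^ e + 10 ^ (d + 1))).ncard = (T (10 ^ e + 10 ^ d)).ncard := by
  congr 1
  ext v
  rw [T_iff e d (by omega), T_iff e (d + 1) hd, max_eq_right (by omega), max_eq_right (by omega)]

theorem T_diff (e d : ℕ) (h : e + 2 ≤ 2 * d) (h' : d + 1 < e) :
    (T (10 ^ (e + 1) + 10 ^ (d + 1))).ncard = (T (10 ^ (e + 1) + 10 ^ d)).ncard + 2 := by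
  have hn : ∀ j, 2 * d < j → j < 2 * e → (j, 2) ∉ T (10 ^ (e + 1) + 10 ^ d) := by
    intro j h1 h2
    rw [T_iff _ d (by omega), max_eq_left (by omega)]
    rintro (⟨s, hs, e1⟩ | h3 | h3)
    · have := low2 e s hs (by rw [e1])
      rw [e1] at this
      omega
    · omega
    · omega
  have : T (10 ^ (e + 1) + 10 ^ (d + 1)) =
      insert (2 * d + 1, 2) (insert (2 * d + 2, 2) (T (10 ^ (e + 1) + 10 ^ d))) := by
    ext ⟨a, b⟩
    rw [Set.mem_insert_iff, Set.mem_insert_iff, T_iff _ d (by omega), T_iff _ (d + 1) (by omega),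
      max_eq_left (by omega), max_eq_left (by omega)]
    simp only [Prod.mk.injEq]
    by_cases hL : ∃ s, s < 10 ^ (e + 1) ∧ vec s (10 ^ (e + 1)) = (a, b)
    · simp [hL]
    · simp only [hL, false_or]; omega
  rw [this, Set.ncard_insert_of_notMem _ ((T_finite _).insert _),
    Set.ncard_insert_of_notMem (hn _ (by omega) (by omega)) (T_finite _)]
  simp only [Set.mem_insert_iff, Prod.mk.injEq, not_or]
  exact ⟨by omega, hn _ (by omega) (by omega)⟩

theorem parikh (n : ℕ) : Set.ncard {v : Fin 3 → ℕ | ∃ i : ℕ,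
    v = fun c => ((Finset.range n).filter (fun j => x (i + j) = c)).card} = (T n).ncard := by
  have key : ∀ (i : ℕ) (c : Fin 3) (S : ℕ → Prop), (∀ m, x m = c ↔ S m) →
      ((Finset.range n).filter (fun j => x (i + j) = c)).card = cnt S i (i + n) := by
    intro i c S hS
    unfold cnt
    refine Finset.card_nbij (fun j => i + j) ?_ (fun a _ b _ h => by simpa using h) ?_
    · intro j hj
      simp only [Finset.coe_filter, Finset.mem_range, Set.mem_ofPred_eq, Finset.mem_Ico] at hj ⊢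
      exact ⟨⟨by omega, by omega⟩, (hS _).1 hj.2⟩
    · intro m hm
      simp only [Finset.coe_filter, Finset.mem_range, Set.mem_ofPred_eq, Finset.mem_Ico,
        Set.mem_image] at hm ⊢
      refine ⟨m - i, ⟨by omega, ?_⟩, by omega⟩
      rw [show i + (m - i) = m by omega]
      exact (hS _).2 hm.2
  rw [← Set.InjOn.ncard_image (f := fun v : Fin 3 → ℕ => (v 1, v 2))]
  · congr 1
    ext w
    simp only [Set.mem_image, Set.mem_ofPred_eq, T, Set.mem_range, vec]
    constructor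
    · rintro ⟨_, ⟨i, rfl⟩, rfl⟩
      exact ⟨i, by simp only [key i 1 SA x_one, key i 2 SB x_two]⟩
    · rintro ⟨i, rfl⟩
      exact ⟨_, ⟨i, rfl⟩, by simp only [key i 1 SA x_one, key i 2 SB x_two]⟩
  · rintro _ ⟨i, rfl⟩ _ ⟨i', rfl⟩ h
    have hs : ∀ i : ℕ, n = ∑ c : Fin 3, ((Finset.range n).filter (fun j => x (i + j) = c)).card :=
      fun i => by
        rw [← Finset.card_eq_sum_card_fiberwise (f := fun j => x (i + j)) (fun _ _ => by simp),
          Finset.card_range]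
    have h1 := hs i
    have h2 := hs i'
    rw [Fin.sum_univ_three] at h1 h2
    simp only [Prod.mk.injEq] at h
    funext c
    fin_cases c
    · simp only [Fin.zero_eta]; omega
    · exact h.1
    · exact h.2

end Pool.Agent.Lib.H26AbCx
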