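import Mathlib

namespace Pool.Agent.Lib.helper26.Alt
open MeasureTheory

/-- the `n`-alternation inequality of `v` for the sets `A 0, …, A (n-1)` -/
def AltIneq {E : Type} (v : Set E → ℝ) {n : ℕ} (A : Fin n → Set E) : Prop :=
  v (⋂ i, A i) ≤ ∑ I ∈ (Finset.univ : Finset (Fin n)).powerset.erase ∅,
    (-1 : ℝ) ^ (I.card + 1) * v (⋃ i ∈ I, A i)

variable {ι : Type} [DecidableEq ι]

def CM : List ι → (Finset ι → ℝ) → Prop
  | [], φ => 0 ≤ φ ∅
  | i :: l, φ => CM l (fun I => φ (insert i I)) ∧ CM l fun I => φ I - φ (insert i I)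

lemma CM.add {l : List ι} {f g : Finset ι → ℝ} (hf : CM l f) (hg : CM l g) :
    CM l fun I => f I + g I := by
  induction l generalizing f g with
  | nil => exact add_nonneg hf hg
  | cons i l ih =>
    refine ⟨ih hf.1 hg.1, ?_⟩
    convert ih hf.2 hg.2 using 2
    ring

lemma CM.mul {l : List ι} {f g : Finset ι → ℝ} (hf : CM l f) (hg : CM l g) :
    CM l fun I => f I * g I := by
  induction l generalizing f g with
  | nil => exact mul_nonneg hf hg
  | cons i l ih =>
    refine ⟨ih hf.1 hg.1, ?_⟩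
    convert (ih hf.2 (hg.1.add hg.2)).add (ih hf.1 hg.2) using 2
    ring

lemma CM.const (l : List ι) {c : ℝ} (hc : 0 ≤ c) : CM l fun _ => c := by
  induction l generalizing c with
  | nil => exact hc
  | cons i l ih => exact ⟨ih hc, by simpa using ih le_rfl⟩

lemma CM.pow {l : List ι} {f : Finset ι → ℝ} (hf : CM l f) (k : ℕ) : CM l fun I => f I ^ k := by
  induction k with
  | zero => simpa using CM.const l zero_le_one
  | succ k ih => simpa [pow_succ] using ih.mul hf

lemma CM.hasSum {l : List ι} {f : ℕ → Finset ι → ℝ} {g : Finset ι → ℝ} (hf : ∀ k, CM l (f k))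
    (h : ∀ I, HasSum (fun k => f k I) (g I)) : CM l g := by
  induction l generalizing f g with
  | nil => exact (h ∅).nonneg hf
  | cons i l ih =>
    exact ⟨ih (fun k => (hf k).1) fun I => h _, ih (fun k => (hf k).2) fun I => (h _).sub (h _)⟩

lemma CM.integral {Ω : Type} [MeasurableSpace Ω] {P : Measure Ω} {l : List ι}
    {f : Ω → Finset ι → ℝ} (hf : ∀ ω, CM l (f ω)) (h : ∀ I, Integrable (fun ω => f ω I) P) :
    CM l fun I => ∫ ω, f ω I ∂P := by
  induction l generalizing f with
  | nil => exact integral_nonneg hf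
  | cons i l ih =>
    refine ⟨ih (fun ω => (hf ω).1) fun I => h _, ?_⟩
    convert ih (fun ω => (hf ω).2) fun I => (h _).sub (h _) using 2
    rw [integral_sub (h _) (h _)]

lemma CM.max (l : List ι) {h : Finset ι → ℝ} (hm : ∀ I J, h (I ∪ J) = max (h I) (h J)) {K : ℝ}
    (hK : ∀ I, h I ≤ K) : CM l fun I => K - h I := by
  induction l generalizing h K with
  | nil => exact sub_nonneg.2 (hK _)
  | cons i l ih =>
    refine ⟨ih (h := fun I => h (insert i I)) (fun I J => ?_) fun I => hK _, ?_⟩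
    · rw [← hm, Finset.insert_union_distrib]
    · convert ih (h := fun I => min (h I) (h {i})) (K := h {i}) (fun I J => ?_)
        fun I => min_le_right _ _ using 2 with I
      · simp only [Finset.insert_eq, hm]
        rcases le_total (h {i}) (h I) with h1 | h1 <;> simp [h1]
      · rw [hm, min_max_distrib_right]

lemma CM.div {l : List ι} {t d : Finset ι → ℝ} {K : ℝ} (ht : CM l t)
    (hd : CM l fun I => K - d I) (h0 : ∀ I, 0 < d I) (hK : ∀ I, d I ≤ K) :
    CM l fun I => t I / d I := by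
  have hK0 : 0 < K := (h0 ∅).trans_le (hK ∅)
  refine CM.hasSum (f := fun k I => t I * (K⁻¹ * (K⁻¹ * (K - d I)) ^ k))
    (fun k => ht.mul ((CM.const l (by positivity)).mul
      (((CM.const l (by positivity)).mul hd).pow k))) fun I => ?_
  have h1 : 0 ≤ K⁻¹ * (K - d I) := mul_nonneg (by positivity) (sub_nonneg.2 (hK I))
  have h2 : K⁻¹ * (K - d I) < 1 := by
    rw [inv_mul_lt_iff₀ hK0]; linarith [h0 I]
  have := (h0 I).ne'
  have e : 1 - K⁻¹ * (K - d I) = d I / K := by field_simp; ring
  have e2 : t I / d I = t I * (K⁻¹ * (1 - K⁻¹ * (K - d I))⁻¹) := by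
    rw [e]
    field_simp
  rw [e2]
  exact ((hasSum_geometric_of_lt_one h1 h2).mul_left K⁻¹).mul_left (t I)

lemma CM.alt {l : List ι} (hl : l.Nodup) {f : Finset ι → ℝ} (hf : CM l f) :
    0 ≤ ∑ I ∈ l.toFinset.powerset, (-1 : ℝ) ^ I.card * f I := by
  induction l generalizing f with
  | nil => simpa [CM] using hf
  | cons i l ih =>
    have hi : i ∉ l.toFinset := by simpa using (List.nodup_cons.1 hl).1
    rw [List.toFinset_cons, Finset.sum_powerset_insert hi, ← Finset.sum_add_distrib]
    convert ih (List.nodup_cons.1 hl).2 hf.2 using 2 with I hI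
    rw [Finset.card_insert_of_notMem fun h => hi (Finset.mem_powerset.1 hI h)]
    ring

/-- the sets indexed by subfamilies -/
def U {E : Type} {n : ℕ} (A : Fin n → Set E) (I : Finset (Fin n)) : Set E :=
  (⋂ i, A i) ∪ ⋃ i ∈ I, A i

lemma U_union {E : Type} {n : ℕ} (A : Fin n → Set E) (I J : Finset (Fin n)) :
    U A (I ∪ J) = U A I ∪ U A J := by
  ext x
  simp only [U, Set.mem_union, Set.mem_iUnion, Finset.mem_union]
  grind

lemma U_meas {E : Type} [MeasurableSpace E] {n : ℕ} {A : Fin n → Set E}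
    (hA : ∀ i, MeasurableSet (A i)) (I : Finset (Fin n)) : MeasurableSet (U A I) :=
  (MeasurableSet.iInter hA).union (Finset.measurableSet_biUnion I fun i _ => hA i)

lemma altIneq_of_CM {E : Type} (v : Set E → ℝ) {n : ℕ} (hn : 0 < n) (A : Fin n → Set E)
    (h : CM (List.finRange n) fun I => 1 - v (U A I)) : AltIneq v A := by
  have h1 := h.alt (List.nodup_finRange n)
  have h2 : ∑ I ∈ (Finset.univ : Finset (Fin n)).powerset, (-1 : ℝ) ^ I.card = 0 := by
    have : Nonempty (Fin n) := ⟨⟨0, hn⟩⟩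
    exact_mod_cast Finset.sum_powerset_neg_one_pow_card_of_nonempty
      (Finset.univ_nonempty (α := Fin n))
  rw [List.toFinset_finRange] at h1
  simp only [mul_sub, mul_one, Finset.sum_sub_distrib, h2] at h1
  rw [← Finset.add_sum_erase _ _ (Finset.empty_mem_powerset _)] at h1
  have h3 : ∑ I ∈ (Finset.univ : Finset (Fin n)).powerset.erase ∅,
      (-1 : ℝ) ^ (I.card + 1) * v (⋃ i ∈ I, A i) =
      -∑ I ∈ (Finset.univ : Finset (Fin n)).powerset.erase ∅, (-1 : ℝ) ^ I.card * v (U A I) := by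
    rw [← Finset.sum_neg_distrib]
    refine Finset.sum_congr rfl fun I hI => ?_
    obtain ⟨i, hi⟩ := Finset.nonempty_iff_ne_empty.2 (Finset.mem_erase.1 hI).1
    have : U A I = ⋃ i ∈ I, A i := Set.union_eq_right.2
      ((Set.iInter_subset A i).trans (Set.subset_biUnion_of_mem (u := A) (Finset.mem_coe.2 hi)))
    rw [this]
    ring
  have h4 : U A ∅ = ⋂ i, A i := by simp [U]
  rw [AltIneq, h3, ← h4]
  simp only [Finset.card_empty, pow_zero, one_mul] at h1
  linarith

lemma sSup_union {E : Type} {L : E → ℝ} (hL : ∀ x, 0 ≤ L x) {S T : Set E} (hS : BddAbove (L '' S))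
    (hT : BddAbove (L '' T)) : sSup (L '' (S ∪ T)) = max (sSup (L '' S)) (sSup (L '' T)) := by
  have h0 : ∀ W : Set E, 0 ≤ sSup (L '' W) := fun W =>
    Real.sSup_nonneg (by rintro _ ⟨x, -, rfl⟩; exact hL x)
  rcases S.eq_empty_or_nonempty with rfl | h1
  · simp [h0]
  rcases T.eq_empty_or_nonempty with rfl | h2
  · simp [h0]
  rw [Set.image_union, csSup_union hS (h1.image _) hT (h2.image _)]

/-- the degenerate case: `v = s / s` with `s` monotone and subadditive -/
lemma CM.sign (l : List ι) {s : Finset ι → ℝ} (h0 : ∀ I, 0 ≤ s I)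
    (h1 : ∀ I J, s I ≤ s (I ∪ J)) (h2 : ∀ I J, s (I ∪ J) ≤ s I + s J) :
    CM l fun I => 1 - s I / s I := by
  refine CM.max l (fun I J => ?_) fun I => div_self_le_one _
  have a1 := h1 I J
  have a2 := h1 J I
  rw [Finset.union_comm] at a2
  have a3 := h2 I J
  rcases (h0 I).eq_or_lt with b1 | b1 <;> rcases (h0 J).eq_or_lt with b2 | b2
  · have : s (I ∪ J) = 0 := by linarith [h0 (I ∪ J)]
    simp [this, ← b1, ← b2]
  · simp [← b1, div_self b2.ne', div_self (b2.trans_le a2).ne']
  · simp [← b2, div_self b1.ne', div_self (b1.trans_le a1).ne']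
  · simp [div_self b2.ne', div_self b1.ne', div_self (b1.trans_le a1).ne']

end Pool.Agent.Lib.helper26.Alt
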