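import Mathlib

/-! Central hyperplane arrangements: basic definitions and tools. -/

namespace Pool.Agent.H26Arr

open MvPolynomial

variable {K : Type*} [Field K] {l : ℕ}

/-- The linear form `a 0 * x 0 + ... + a (l-1) * x (l-1)` as a polynomial. -/
noncomputable def linForm (a : Fin l → K) : MvPolynomial (Fin l) K := ∑ i, C (a i) * X i

/-- The kernel in `K^l` of the linear form with coefficient vector `a`. -/
def hyp (a : Fin l → K) : Submodule K (Fin l → K) where
  carrier := {v | ∑ i, a i * v i = 0}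
  add_mem' := by
    intro u v hu hv
    simp only [Set.mem_ofPred_eq, Pi.add_apply, mul_add, Finset.sum_add_distrib] at *
    rw [hu, hv, add_zero]
  zero_mem' := by simp
  smul_mem' := by
    intro c v hv
    simp only [Set.mem_ofPred_eq, Pi.smul_apply, smul_eq_mul] at *
    have : ∑ i, a i * (c * v i) = c * ∑ i, a i * v i := by
      rw [Finset.mul_sum]; exact Finset.sum_congr rfl fun i _ => by ring
    rw [this, hv, mul_zero]

/-- A central arrangement: a finite set of linear hyperplanes of `K^l`. -/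
def IsArr (A : Finset (Submodule K (Fin l → K))) : Prop :=
  ∀ H ∈ A, ∃ a : Fin l → K, a ≠ 0 ∧ H = hyp a

/-- An essential arrangement: the hyperplanes meet in the origin only. -/
def IsEssArr (A : Finset (Submodule K (Fin l → K))) : Prop :=
  IsArr A ∧ A.inf id = ⊥

/-- The module `D(A)` of logarithmic derivations; the derivation `∑ θ i ∂ i` is the tuple `θ`. -/
noncomputable def logDer (A : Finset (Submodule K (Fin l → K))) :
    Submodule (MvPolynomial (Fin l) K) (Fin l → MvPolynomial (Fin l) K) where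
  carrier := {θ | ∀ a : Fin l → K, a ≠ 0 → hyp a ∈ A → linForm a ∣ ∑ i, C (a i) * θ i}
  add_mem' := by
    intro u v hu hv a ha hA
    simp only [Pi.add_apply, mul_add, Finset.sum_add_distrib]
    exact dvd_add (hu a ha hA) (hv a ha hA)
  zero_mem' := by intro a _ _; simp
  smul_mem' := by
    intro c v hv a ha hA
    simp only [Pi.smul_apply, smul_eq_mul]
    have : ∑ i, C (a i) * (c * v i) = c * ∑ i, C (a i) * v i := by
      rw [Finset.mul_sum]; exact Finset.sum_congr rfl fun i _ => by ring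
    rw [this]
    exact Dvd.dvd.mul_left (hv a ha hA) c

/-- The intersection lattice as a set of subspaces: all intersections of subfamilies. -/
def interLattice (A : Finset (Submodule K (Fin l → K))) : Set (Submodule K (Fin l → K)) :=
  {X | ∃ B ⊆ A, X = B.inf id}

theorem mem_hyp {a v : Fin l → K} : v ∈ hyp a ↔ ∑ i, a i * v i = 0 := Iff.rfl

theorem eval_linForm (a v : Fin l → K) : eval v (linForm a) = ∑ i, a i * v i := by
  simp [linForm]

theorem linForm_hom (a : Fin l → K) : (linForm a).IsHomogeneous 1 :=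
  IsHomogeneous.sum _ _ _ fun _ _ => isHomogeneous_C_mul_X _ _

theorem linForm_ne_zero {a : Fin l → K} (ha : a ≠ 0) : linForm a ≠ 0 := by
  obtain ⟨i, hi⟩ := Function.ne_iff.mp ha
  intro h
  have := eval_linForm a (Pi.single i 1)
  rw [h, map_zero, Finset.sum_eq_single i] at this
  · simp at this; exact hi this.symm
  · intro j _ hj; simp [Pi.single_eq_of_ne hj]
  · simp

theorem dvd_sub_aeval {σ : Type*} (p : MvPolynomial σ K) (g : σ → MvPolynomial σ K)
    (hg : ∀ i, p ∣ X i - g i) (f : MvPolynomial σ K) : p ∣ f - aeval g f := by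
  induction f using MvPolynomial.induction_on with
  | C c => simp
  | add f₁ f₂ h₁ h₂ =>
    have : f₁ + f₂ - aeval g (f₁ + f₂) = (f₁ - aeval g f₁) + (f₂ - aeval g f₂) := by
      rw [map_add]; ring
    rw [this]; exact dvd_add h₁ h₂
  | mul_X f i h =>
    have : f * X i - aeval g (f * X i) = (f - aeval g f) * X i + aeval g f * (X i - g i) := by
      rw [map_mul, aeval_X]; ring
    rw [this]; exact dvd_add (Dvd.dvd.mul_right h _) (Dvd.dvd.mul_left (hg i) _)

theorem dvd_iff_aeval {σ : Type*} (p : MvPolynomial σ K) (g : σ → MvPolynomial σ K)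
    (hg : ∀ i, p ∣ X i - g i) (hp : aeval g p = 0) (f : MvPolynomial σ K) :
    p ∣ f ↔ aeval g f = 0 := by
  constructor
  · rintro ⟨q, rfl⟩; rw [map_mul, hp, zero_mul]
  · intro h; have := dvd_sub_aeval p g hg f; rwa [h, sub_zero] at this

theorem prime_of_aeval {σ : Type*} (p : MvPolynomial σ K) (g : σ → MvPolynomial σ K)
    (hg : ∀ i, p ∣ X i - g i) (hp : aeval g p = 0) (h0 : p ≠ 0) : Prime p := by
  refine ⟨h0, ?_, ?_⟩
  · intro hu
    have := hu.map (aeval g)
    rw [hp] at this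
    exact not_isUnit_zero this
  · intro a b hab
    rw [dvd_iff_aeval p g hg hp] at hab ⊢
    rw [dvd_iff_aeval p g hg hp]
    rw [map_mul] at hab
    exact mul_eq_zero.mp hab

theorem linForm_prime {a : Fin l → K} (ha : a ≠ 0) : Prime (linForm a) := by
  classical
  obtain ⟨i, hi⟩ := Function.ne_iff.mp ha
  have hi' : a i ≠ 0 := hi
  refine prime_of_aeval _ (fun j => X j - if j = i then C (a i)⁻¹ * linForm a else 0) ?_ ?_
    (linForm_ne_zero ha)
  · intro j
    by_cases h : j = i
    · simp [h]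
    · simp [h]
  · have : aeval (fun j => X j - if j = i then C (a i)⁻¹ * linForm a else 0) (linForm a)
        = ∑ j, (C (a j) * X j - if j = i then C (a j) * (C (a i)⁻¹ * linForm a) else 0) := by
      conv_lhs => rw [linForm, map_sum]
      refine Finset.sum_congr rfl fun j _ => ?_
      rw [map_mul, aeval_C, aeval_X, algebraMap_eq]
      split_ifs <;> simp [mul_sub, linForm]
    rw [this, Finset.sum_sub_distrib, Finset.sum_ite_eq' Finset.univ i]
    simp only [Finset.mem_univ, if_true]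
    rw [← mul_assoc, ← map_mul, mul_inv_cancel₀ hi', map_one, one_mul]
    exact sub_self _

theorem not_dvd_of_eval {σ : Type*} {p q : MvPolynomial σ K} (v : σ → K) (hp : eval v p = 0)
    (hq : eval v q ≠ 0) : ¬ p ∣ q := by
  rintro ⟨r, rfl⟩
  exact hq (by rw [map_mul, hp, zero_mul])

theorem hyp_eq_smul {a b : Fin l → K} (ha : a ≠ 0) (h : hyp a ≤ hyp b) : ∃ c : K, b = c • a := by
  classical
  obtain ⟨i, hi⟩ := Function.ne_iff.mp ha
  have hi' : a i ≠ 0 := hi
  refine ⟨b i / a i, funext fun j => ?_⟩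
  have hv : (Pi.single j (a i) - Pi.single i (a j) : Fin l → K) ∈ hyp a := by
    rw [mem_hyp]
    simp only [Pi.sub_apply, mul_sub, Finset.sum_sub_distrib, Pi.single_apply, mul_ite, mul_zero,
      Finset.sum_ite_eq', Finset.mem_univ, if_true]
    ring
  have := h hv
  rw [mem_hyp] at this
  simp only [Pi.sub_apply, mul_sub, Finset.sum_sub_distrib, Pi.single_apply, mul_ite, mul_zero,
      Finset.sum_ite_eq', Finset.mem_univ, if_true] at this
  simp only [Pi.smul_apply, smul_eq_mul]
  field_simp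
  linear_combination this

open Classical in
/-- The arrangement of the kernels of a finite family of linear forms. -/
noncomputable def arr {ι : Type*} [Fintype ι] (a : ι → Fin l → K) :
    Finset (Submodule K (Fin l → K)) := Finset.univ.image fun i => hyp (a i)

theorem isArr_arr {ι : Type*} [Fintype ι] (a : ι → Fin l → K) (ha : ∀ i, a i ≠ 0) :
    IsArr (arr a) := by
  classical
  intro H hH
  simp only [arr, Finset.mem_image, Finset.mem_univ, true_and] at hH
  obtain ⟨i, rfl⟩ := hH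
  exact ⟨a i, ha i, rfl⟩

theorem mem_logDer_arr {ι : Type*} [Fintype ι] (a : ι → Fin l → K) (ha : ∀ i, a i ≠ 0)
    (θ : Fin l → MvPolynomial (Fin l) K) :
    θ ∈ logDer (arr a) ↔ ∀ i, linForm (a i) ∣ ∑ j, C (a i j) * θ j := by
  classical
  constructor
  · intro h i
    exact h (a i) (ha i) (by simp only [arr, Finset.mem_image]; exact ⟨i, Finset.mem_univ _, rfl⟩)
  · intro h b hb hA
    simp only [arr, Finset.mem_image, Finset.mem_univ, true_and] at hA
    obtain ⟨i, hi⟩ := hA
    obtain ⟨c, rfl⟩ := hyp_eq_smul (ha i) hi.le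
    have h1 : linForm (c • a i) = C c * linForm (a i) := by
      simp only [linForm, Finset.mul_sum, Pi.smul_apply, smul_eq_mul, map_mul, mul_assoc]
    have h2 : ∑ j, C ((c • a i) j) * θ j = C c * ∑ j, C (a i j) * θ j := by
      simp only [Finset.mul_sum, Pi.smul_apply, smul_eq_mul, map_mul, mul_assoc]
    rw [h1, h2]
    exact mul_dvd_mul_left _ (h i)

theorem mem_interLattice_arr {ι : Type*} [Fintype ι] (a : ι → Fin l → K)
    (X : Submodule K (Fin l → K)) :
    X ∈ interLattice (arr a) ↔ ∃ T : Finset ι, X = T.inf fun i => hyp (a i) := by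
  classical
  constructor
  · rintro ⟨B, hB, rfl⟩
    obtain ⟨T, -, rfl⟩ := Finset.subset_image_iff.mp hB
    exact ⟨T, by rw [Finset.inf_image]; rfl⟩
  · rintro ⟨T, rfl⟩
    refine ⟨T.image fun i => hyp (a i), Finset.image_subset_image (Finset.subset_univ _), ?_⟩
    rw [Finset.inf_image]; rfl

theorem lattice_iso {ι : Type*} [Fintype ι] (a b : ι → Fin l → K)
    (h : ∀ (T : Finset ι) (i : ι),
      (T.inf fun i => hyp (a i)) ≤ hyp (a i) ↔ (T.inf fun i => hyp (b i)) ≤ hyp (b i)) :
    Nonempty ((interLattice (arr a))ᵒᵈ ≃o (interLattice (arr b))ᵒᵈ) := by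
  have h2 : ∀ T T' : Finset ι, (T.inf fun i => hyp (a i)) ≤ (T'.inf fun i => hyp (a i)) ↔
      (T.inf fun i => hyp (b i)) ≤ (T'.inf fun i => hyp (b i)) := by
    intro T T'
    simp only [Finset.le_inf_iff, h]
  choose τ hτ using fun X : interLattice (arr a) => (mem_interLattice_arr a X.1).mp X.2
  let f : interLattice (arr a) → interLattice (arr b) := fun X =>
    ⟨(τ X).inf fun i => hyp (b i), (mem_interLattice_arr b _).mpr ⟨τ X, rfl⟩⟩
  have hf : ∀ X Y, f X ≤ f Y ↔ X ≤ Y := by
    intro X Y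
    change ((τ X).inf fun i => hyp (b i)) ≤ ((τ Y).inf fun i => hyp (b i)) ↔ X.1 ≤ Y.1
    rw [← h2, ← hτ, ← hτ]
  have hs : Function.Surjective f := by
    rintro ⟨Y, hY⟩
    obtain ⟨T, rfl⟩ := (mem_interLattice_arr b Y).mp hY
    let X : interLattice (arr a) := ⟨_, (mem_interLattice_arr a _).mpr ⟨T, rfl⟩⟩
    refine ⟨X, Subtype.ext (le_antisymm ?_ ?_)⟩
    · exact (h2 _ _).mp (hτ X).ge
    · exact (h2 _ _).mp (hτ X).le
  exact ⟨OrderIso.dual (RelIso.ofSurjective (OrderEmbedding.ofMapLEIff f hf) hs)⟩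

/-- The determinant of three integer vectors. -/
def det3 (a b c : Fin 3 → ℤ) : ℤ :=
  a 0 * (b 1 * c 2 - b 2 * c 1) - a 1 * (b 0 * c 2 - b 2 * c 0) + a 2 * (b 0 * c 1 - b 1 * c 0)

theorem closure3 [CharZero K] {ι : Type*} (a : ι → Fin 3 → ℤ)
    (hnp : ∀ i j, i ≠ j → ∃ k, det3 (a i) (a k) (a j) ≠ 0)
    (hne : ∀ j : ι, ∃ i, i ≠ j) (T : Finset ι) (h : ι) :
    (T.inf fun i => hyp (fun t => ((a i t : ℤ) : K))) ≤ hyp (fun t => ((a h t : ℤ) : K)) ↔
      h ∈ T ∨ (∃ i ∈ T, ∃ j ∈ T, i ≠ j ∧ det3 (a i) (a j) (a h) = 0) ∨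
        (∃ i ∈ T, ∃ j ∈ T, ∃ k ∈ T, det3 (a i) (a j) (a k) ≠ 0) := by
  have cross : ∀ i j k, (![((a i 1 * a j 2 - a i 2 * a j 1 : ℤ) : K),
      ((a i 2 * a j 0 - a i 0 * a j 2 : ℤ) : K), ((a i 0 * a j 1 - a i 1 * a j 0 : ℤ) : K)] :
        Fin 3 → K) ∈ hyp (fun t => ((a k t : ℤ) : K)) ↔ det3 (a i) (a j) (a k) = 0 := by
    intro i j k
    rw [mem_hyp, Fin.sum_univ_three, ← Int.cast_eq_zero (α := K) (n := det3 _ _ _)]
    simp only [det3, Matrix.cons_val_zero, Matrix.cons_val_one, Matrix.cons_val]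
    push_cast
    constructor <;> intro h <;> linear_combination h
  have d1 : ∀ i k, det3 (a i) (a k) (a i) = 0 := by intro i k; simp only [det3]; ring
  constructor
  · intro hle
    by_contra hcon
    push Not at hcon
    obtain ⟨h1, h2, h3⟩ := hcon
    by_cases hT : ∃ i ∈ T, ∃ j ∈ T, i ≠ j
    · obtain ⟨i, hi, j, hj, hij⟩ := hT
      apply h2 i hi j hj hij
      rw [← cross]
      apply hle
      rw [Submodule.mem_finsetInf]
      intro k hk
      exact (cross i j k).mpr (h3 i hi j hj k hk)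
    · push Not at hT
      obtain ⟨i, hi, hiT⟩ : ∃ i, i ≠ h ∧ ∀ k ∈ T, k = i := by
        by_cases hne' : T.Nonempty
        · obtain ⟨i, hi⟩ := hne'
          exact ⟨i, fun e => h1 (e ▸ hi), fun k hk => hT k hk i hi⟩
        · obtain ⟨i, hi⟩ := hne h
          exact ⟨i, hi, fun k hk => absurd ⟨k, hk⟩ hne'⟩
      obtain ⟨k, hk⟩ := hnp i h hi
      apply hk
      rw [← cross]
      apply hle
      rw [Submodule.mem_finsetInf]
      intro m hm
      rw [hiT m hm]
      exact (cross i k i).mpr (d1 i k)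
  · rintro (h1 | ⟨i, hi, j, hj, hij, hd⟩ | ⟨i, hi, j, hj, k, hk, hd⟩)
    · exact Finset.inf_le h1
    · intro v hv
      rw [Submodule.mem_finsetInf] at hv
      have e1 := hv i hi
      have e2 := hv j hj
      obtain ⟨k, hk⟩ := hnp i j hij
      have hk' : ((det3 (a i) (a k) (a j) : ℤ) : K) ≠ 0 := Int.cast_ne_zero.mpr hk
      have hd' : ((det3 (a i) (a j) (a h) : ℤ) : K) = 0 := Int.cast_eq_zero.mpr hd
      rw [mem_hyp, Fin.sum_univ_three] at *
      apply mul_left_cancel₀ hk'
      simp only [det3] at *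
      push_cast at *
      linear_combination
        (((a h 0 : ℤ) : K) * (a k 1 * a j 2 - a k 2 * a j 1) - a h 1 * (a k 0 * a j 2 - a k 2 * a j 0)
          + a h 2 * (a k 0 * a j 1 - a k 1 * a j 0)) * e1
        + (((a i 0 : ℤ) : K) * (a k 1 * a h 2 - a k 2 * a h 1) - a i 1 * (a k 0 * a h 2 - a k 2 * a h 0)
          + a i 2 * (a k 0 * a h 1 - a k 1 * a h 0)) * e2
        - (((a k 0 : ℤ) : K) * v 0 + a k 1 * v 1 + a k 2 * v 2) * hd'
    · intro v hv
      rw [Submodule.mem_finsetInf] at hv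
      have e1 := hv i hi
      have e2 := hv j hj
      have e3 := hv k hk
      have hd' : ((det3 (a i) (a j) (a k) : ℤ) : K) ≠ 0 := Int.cast_ne_zero.mpr hd
      rw [mem_hyp, Fin.sum_univ_three] at *
      apply mul_left_cancel₀ hd'
      simp only [det3] at *
      push_cast at *
      linear_combination
        (((a h 0 : ℤ) : K) * (a j 1 * a k 2 - a j 2 * a k 1) - a h 1 * (a j 0 * a k 2 - a j 2 * a k 0)
          + a h 2 * (a j 0 * a k 1 - a j 1 * a k 0)) * e1
        + (((a i 0 : ℤ) : K) * (a h 1 * a k 2 - a h 2 * a k 1) - a i 1 * (a h 0 * a k 2 - a h 2 * a k 0)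
          + a i 2 * (a h 0 * a k 1 - a h 1 * a k 0)) * e2
        + (((a i 0 : ℤ) : K) * (a j 1 * a h 2 - a j 2 * a h 1) - a i 1 * (a j 0 * a h 2 - a j 2 * a h 0)
          + a i 2 * (a j 0 * a h 1 - a j 1 * a h 0)) * e3

theorem lattice_iso3 [CharZero K] {ι : Type*} [Fintype ι] (a b : ι → Fin 3 → ℤ)
    (ha : ∀ i j, i ≠ j → ∃ k, det3 (a i) (a k) (a j) ≠ 0)
    (hb : ∀ i j, i ≠ j → ∃ k, det3 (b i) (b k) (b j) ≠ 0)
    (hne : ∀ j : ι, ∃ i, i ≠ j)
    (hab : ∀ i j k, det3 (a i) (a j) (a k) = 0 ↔ det3 (b i) (b j) (b k) = 0) :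
    Nonempty ((interLattice (arr fun i t => ((a i t : ℤ) : K)))ᵒᵈ ≃o
      (interLattice (arr fun i t => ((b i t : ℤ) : K)))ᵒᵈ) := by
  apply lattice_iso
  intro T i
  rw [closure3 a ha hne, closure3 b hb hne]
  simp only [ne_eq, hab]

section Graded

attribute [local instance] MvPolynomial.gradedAlgebra

theorem hc_mul_right {σ : Type*} {c p : MvPolynomial σ K} {e : ℕ} (hp : p.IsHomogeneous e)
    (n : ℕ) : homogeneousComponent n (c * p) =
      if e ≤ n then homogeneousComponent (n - e) c * p else 0 := by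
  have := DirectSum.coe_decompose_mul_of_right_mem (homogeneousSubmodule σ K) (a := c) n
    ((mem_homogeneousSubmodule e p).mpr hp)
  rw [← decomposition.decompose'_apply, ← decomposition.decompose'_apply]
  exact this

theorem eq_zero_of_dvd_of_lt {σ : Type*} {p q : MvPolynomial σ K} {m n : ℕ}
    (hp : p.IsHomogeneous m) (hq : q.IsHomogeneous n) (h : n < m) (hd : p ∣ q) : q = 0 := by
  obtain ⟨r, rfl⟩ := hd
  rw [← homogeneousComponent_eq_self hq, mul_comm, hc_mul_right hp, if_neg (by omega)]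

theorem exists_hom_of_dvd {σ : Type*} {p q : MvPolynomial σ K} {m n : ℕ}
    (hp : p.IsHomogeneous m) (hq : q.IsHomogeneous (m + n)) (hd : p ∣ q) :
    ∃ r : MvPolynomial σ K, r.IsHomogeneous n ∧ q = p * r := by
  obtain ⟨r, rfl⟩ := hd
  refine ⟨homogeneousComponent n r, homogeneousComponent_isHomogeneous _ _, ?_⟩
  conv_lhs => rw [← homogeneousComponent_eq_self hq, mul_comm, hc_mul_right hp, if_pos (by omega)]
  rw [mul_comm, Nat.add_sub_cancel_left]

end Graded

theorem prime_mul_dvd {R : Type*} [CommRing R] {p q n : R} (hp : Prime p) (hpq : ¬ p ∣ q)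
    (h1 : p ∣ n) (h2 : q ∣ n) : q * p ∣ n := by
  obtain ⟨m, rfl⟩ := h2
  exact mul_dvd_mul_left q ((hp.dvd_or_dvd h1).resolve_left hpq)

theorem prime_pow_mul_dvd {R : Type*} [CommRing R] [IsDomain R] {p q n : R} {k : ℕ} (hp : Prime p)
    (hpq : ¬ p ∣ q) (h1 : p ^ k ∣ n) (h2 : q ∣ n) : q * p ^ k ∣ n := by
  obtain ⟨m, rfl⟩ := h2
  exact mul_dvd_mul_left q (hp.pow_dvd_of_dvd_mul_left k hpq h1)

end Pool.Agent.H26Arr
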