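import Pool.Agent.Lib.helper26.Arr

/-! Tools for explicit arrangements in dimension three. -/

namespace Pool.Agent.H26Arr

open MvPolynomial

variable {K : Type*} [Field K]

/-- Integer linear form in three variables. -/
noncomputable def lin (K : Type*) [Field K] (u : Fin 3 → ℤ) : MvPolynomial (Fin 3) K :=
  (u 0 : MvPolynomial (Fin 3) K) * X 0 + (u 1 : MvPolynomial (Fin 3) K) * X 1
    + (u 2 : MvPolynomial (Fin 3) K) * X 2

theorem linForm_cast (u : Fin 3 → ℤ) : linForm (fun t => ((u t : ℤ) : K)) = lin K u := by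
  simp [linForm, lin, Fin.sum_univ_three]

theorem cast_ne_zero3 [CharZero K] {u : Fin 3 → ℤ} (hu : u ≠ 0) :
    (fun t => ((u t : ℤ) : K)) ≠ 0 := by
  intro h
  apply hu
  funext t
  have := congrFun h t
  simpa using this

theorem lin_prime [CharZero K] {u : Fin 3 → ℤ} (hu : u ≠ 0) : Prime (lin K u) := by
  rw [← linForm_cast]; exact linForm_prime (cast_ne_zero3 hu)

theorem lin_hom (u : Fin 3 → ℤ) : (lin K u).IsHomogeneous 1 := by
  rw [← linForm_cast]; exact linForm_hom _

/-- Two integer vectors are not proportional. -/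
def NP (u v : Fin 3 → ℤ) : Prop :=
  u 1 * v 2 - u 2 * v 1 ≠ 0 ∨ u 2 * v 0 - u 0 * v 2 ≠ 0 ∨ u 0 * v 1 - u 1 * v 0 ≠ 0

instance (u v : Fin 3 → ℤ) : Decidable (NP u v) := by unfold NP; infer_instance

theorem lin_not_dvd [CharZero K] {u v : Fin 3 → ℤ} (h : NP u v) : ¬ lin K u ∣ lin K v := by
  rcases h with h | h | h
  · refine not_dvd_of_eval ![0, -(u 2 : K), (u 1 : K)] ?_ ?_
    · simp [lin]; ring
    · have : ((u 1 * v 2 - u 2 * v 1 : ℤ) : K) ≠ 0 := Int.cast_ne_zero.mpr h
      intro e; apply this; simp [lin] at e; push_cast; linear_combination e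
  · refine not_dvd_of_eval ![(u 2 : K), 0, -(u 0 : K)] ?_ ?_
    · simp [lin]; ring
    · have : ((u 2 * v 0 - u 0 * v 2 : ℤ) : K) ≠ 0 := Int.cast_ne_zero.mpr h
      intro e; apply this; simp [lin] at e; push_cast; linear_combination e
  · refine not_dvd_of_eval ![-(u 1 : K), (u 0 : K), 0] ?_ ?_
    · simp [lin]; ring
    · have : ((u 0 * v 1 - u 1 * v 0 : ℤ) : K) ≠ 0 := Int.cast_ne_zero.mpr h
      intro e; apply this; simp [lin] at e; push_cast; linear_combination e

theorem lin_not_dvd_prod [CharZero K] {u : Fin 3 → ℤ} (hu : u ≠ 0) (l : List (Fin 3 → ℤ))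
    (h : ∀ v ∈ l, NP u v) : ¬ lin K u ∣ (l.map (lin K)).prod := by
  rw [(lin_prime hu).dvd_prod_iff]
  rintro ⟨a, ha, hd⟩
  obtain ⟨v, hv, rfl⟩ := List.mem_map.mp ha
  exact lin_not_dvd (h v hv) hd

theorem prod_lin_dvd [CharZero K] (l : List (Fin 3 → ℤ)) (h0 : ∀ u ∈ l, u ≠ 0)
    (hp : l.Pairwise NP) (n : MvPolynomial (Fin 3) K) (h : ∀ u ∈ l, lin K u ∣ n) :
    (l.map (lin K)).prod ∣ n := by
  induction l with
  | nil => simp
  | cons u l ih =>
    rw [List.pairwise_cons] at hp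
    rw [List.map_cons, List.prod_cons, mul_comm]
    refine prime_mul_dvd (lin_prime (h0 u List.mem_cons_self))
      (lin_not_dvd_prod (h0 u List.mem_cons_self) l hp.1) (h u List.mem_cons_self) ?_
    exact ih (fun v hv => h0 v (List.mem_cons_of_mem _ hv)) hp.2
      (fun v hv => h v (List.mem_cons_of_mem _ hv))

theorem prod_lin_ne_zero [CharZero K] (l : List (Fin 3 → ℤ)) (h0 : ∀ u ∈ l, u ≠ 0) :
    (l.map (lin K)).prod ≠ 0 := by
  apply List.prod_ne_zero
  intro h
  obtain ⟨v, hv, e⟩ := List.mem_map.mp h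
  exact (lin_prime (h0 v hv)).ne_zero e

theorem prod_lin_hom (l : List (Fin 3 → ℤ)) : ((l.map (lin K)).prod).IsHomogeneous l.length := by
  induction l with
  | nil => simpa using isHomogeneous_one (Fin 3) K
  | cons u l ih =>
    rw [List.map_cons, List.prod_cons, List.length_cons, add_comm]
    exact (lin_hom u).mul ih

/-- A polynomial given by a list of terms (coefficient, exponents). -/
noncomputable def mpoly (K : Type*) [Field K] (l : List (ℤ × ℕ × ℕ × ℕ)) : MvPolynomial (Fin 3) K :=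
  (l.map fun t => (t.1 : MvPolynomial (Fin 3) K) * X 0 ^ t.2.1 * X 1 ^ t.2.2.1 * X 2 ^ t.2.2.2).sum

theorem mpoly_hom (l : List (ℤ × ℕ × ℕ × ℕ)) (n : ℕ)
    (h : ∀ t ∈ l, t.2.1 + t.2.2.1 + t.2.2.2 = n) : (mpoly K l).IsHomogeneous n := by
  induction l with
  | nil => simpa [mpoly] using isHomogeneous_zero (Fin 3) K n
  | cons t l ih =>
    have e : mpoly K (t :: l) = (t.1 : MvPolynomial (Fin 3) K) * X 0 ^ t.2.1 * X 1 ^ t.2.2.1
        * X 2 ^ t.2.2.2 + mpoly K l := by simp [mpoly]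
    rw [e]
    refine IsHomogeneous.add ?_ (ih fun s hs => h s (List.mem_cons_of_mem _ hs))
    have h0 : ((t.1 : MvPolynomial (Fin 3) K)).IsHomogeneous 0 := by
      simpa using isHomogeneous_C (Fin 3) ((t.1 : ℤ) : K)
    have := ((h0.mul (isHomogeneous_X_pow (0 : Fin 3) t.2.1)).mul
      (isHomogeneous_X_pow (1 : Fin 3) t.2.2.1)).mul (isHomogeneous_X_pow (2 : Fin 3) t.2.2.2)
    rwa [zero_add, h t List.mem_cons_self] at this

theorem mem_logDer_int [CharZero K] {ι : Type*} [Fintype ι] (a : ι → Fin 3 → ℤ)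
    (ha : ∀ i, a i ≠ 0) (θ : Fin 3 → MvPolynomial (Fin 3) K) :
    θ ∈ logDer (arr fun i t => ((a i t : ℤ) : K)) ↔
      ∀ i, lin K (a i) ∣ (a i 0 : MvPolynomial (Fin 3) K) * θ 0 + (a i 1 : MvPolynomial (Fin 3) K) * θ 1
        + (a i 2 : MvPolynomial (Fin 3) K) * θ 2 := by
  rw [mem_logDer_arr _ (fun i => cast_ne_zero3 (ha i))]
  simp only [linForm_cast, Fin.sum_univ_three, map_intCast]

theorem essArr_int [CharZero K] {ι : Type*} [Fintype ι] (a : ι → Fin 3 → ℤ)
    (ha : ∀ i, a i ≠ 0) (i j k : ι) (hd : det3 (a i) (a j) (a k) ≠ 0) :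
    IsEssArr (arr fun i t => ((a i t : ℤ) : K)) := by
  classical
  refine ⟨isArr_arr _ fun i => cast_ne_zero3 (ha i), ?_⟩
  rw [eq_bot_iff]
  intro v hv
  rw [Submodule.mem_finsetInf] at hv
  have hm : ∀ m, v ∈ hyp (fun t => ((a m t : ℤ) : K)) := fun m =>
    hv _ (by simp only [arr, Finset.mem_image]; exact ⟨m, Finset.mem_univ _, rfl⟩)
  have e1 := hm i
  have e2 := hm j
  have e3 := hm k
  have hd' : ((det3 (a i) (a j) (a k) : ℤ) : K) ≠ 0 := Int.cast_ne_zero.mpr hd
  rw [mem_hyp, Fin.sum_univ_three] at e1 e2 e3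
  simp only [det3] at hd'
  push_cast at hd'
  rw [Submodule.mem_bot]
  funext t
  apply mul_left_cancel₀ hd'
  fin_cases t
  · simp only [Fin.zero_eta, Pi.zero_apply, mul_zero]
    linear_combination ((a j 1 : K) * a k 2 - a j 2 * a k 1) * e1
      - ((a i 1 : K) * a k 2 - a i 2 * a k 1) * e2 + ((a i 1 : K) * a j 2 - a i 2 * a j 1) * e3
  · simp only [Fin.mk_one, Pi.zero_apply, mul_zero]
    linear_combination -((a j 0 : K) * a k 2 - a j 2 * a k 0) * e1
      + ((a i 0 : K) * a k 2 - a i 2 * a k 0) * e2 - ((a i 0 : K) * a j 2 - a i 2 * a j 0) * e3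
  · simp only [Fin.reduceFinMk, Pi.zero_apply, mul_zero]
    linear_combination ((a j 0 : K) * a k 1 - a j 1 * a k 0) * e1
      - ((a i 0 : K) * a k 1 - a i 1 * a k 0) * e2 + ((a i 0 : K) * a j 1 - a i 1 * a j 0) * e3

/-- Setting the variable `i` to zero. -/
noncomputable def killVar (K : Type*) [Field K] (i : Fin 3) :
    MvPolynomial (Fin 3) K →ₐ[K] MvPolynomial (Fin 3) K :=
  aeval fun j => if j = i then 0 else X j

theorem killVar_X (i j : Fin 3) : killVar K i (X j) = if j = i then 0 else X j := by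
  simp [killVar]

theorem X_dvd_iff (i : Fin 3) (f : MvPolynomial (Fin 3) K) : X i ∣ f ↔ killVar K i f = 0 := by
  refine dvd_iff_aeval _ _ ?_ (by simp) f
  intro j
  by_cases h : j = i <;> simp [h]

theorem killVar_hom (i : Fin 3) {f : MvPolynomial (Fin 3) K} {n : ℕ} (hf : f.IsHomogeneous n) :
    (killVar K i f).IsHomogeneous n := by
  have := hf.aeval (fun j => if j = i then (0 : MvPolynomial (Fin 3) K) else X j) (n := 1) (by
    intro j
    split_ifs
    · exact isHomogeneous_zero _ _ _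
    · exact isHomogeneous_X _ _)
  rwa [one_mul] at this

theorem killVar_idem (i : Fin 3) (f : MvPolynomial (Fin 3) K) :
    killVar K i (killVar K i f) = killVar K i f := by
  have : (killVar K i).comp (killVar K i) = killVar K i := by
    ext1 j
    by_cases h : j = i <;> simp [killVar_X, h]
  exact AlgHom.congr_fun this f

end Pool.Agent.H26Arr
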