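import Mathlib

namespace Pool.Agent.Lib.helper26.BGW
open scoped ENNReal

/-- finite plane trees with types in `Fin K`: root type, number of children, ordered subtrees -/
inductive T (K : ℕ) where
  | mk (i : Fin K) (n : ℕ) (cs : Fin n → T K) : T K

variable {K : ℕ}

def root : T K → Fin K
  | .mk i _ _ => i

/-- number of vertices of type `k` -/
def N (k : Fin K) : T K → ℕ
  | .mk i _ cs => (if i = k then 1 else 0) + ∑ j, N k (cs j)

/-- probability that the `ζ`-BGW tree with root type `root t` equals `t` -/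
noncomputable def W (ζ : Fin K → PMF (List (Fin K))) : T K → ℝ≥0∞
  | .mk i _ cs => ζ i (List.ofFn fun j => root (cs j)) * ∏ j, W ζ (cs j)

/-- `Γ (N_1, …, N_K)ᵀ` -/
def gw (Γ : Fin K → ℕ) (t : T K) : ℕ := ∑ k, Γ k * N k t

/-- condition (i) -/
def CondI (ζ ζ' : Fin K → PMF (List (Fin K))) : Prop := ∀ i x, ζ i x = 0 ↔ ζ' i x = 0

/-- condition (ii): on each event of positive `ζ`-probability the two laws are proportional -/
def CondII (Γ : Fin K → ℕ) (ζ ζ' : Fin K → PMF (List (Fin K))) : Prop :=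
  ∀ i g, (∃ t, root t = i ∧ gw Γ t = g ∧ W ζ t ≠ 0) →
    ∃ c : ℝ≥0∞, c ≠ 0 ∧ c ≠ ∞ ∧ ∀ t, root t = i → gw Γ t = g → W ζ' t = c * W ζ t

def T.node (i : Fin K) (cs : List (T K)) : T K := .mk i cs.length cs.get

lemma cases' (t : T K) : ∃ i cs, t = .node i cs := by
  obtain ⟨i, n, cs⟩ := t
  obtain ⟨l, rfl, h⟩ : ∃ l : List (T K), ∃ h : n = l.length, cs = fun j => l.get (j.cast h) :=
    ⟨List.ofFn cs, by simp, by ext j; simp⟩
  exact ⟨i, l, by rw [h]; rfl⟩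

lemma root_node (i : Fin K) (cs : List (T K)) : root (.node i cs) = i := rfl

lemma gw_node (Γ : Fin K → ℕ) (i : Fin K) (cs : List (T K)) :
    gw Γ (.node i cs) = Γ i + (cs.map (gw Γ)).sum := by
  simp only [gw, T.node, N, mul_add, Finset.sum_add_distrib, Finset.mul_sum]
  rw [Finset.sum_comm (s := Finset.univ) (t := Finset.univ)]
  simp [← Fin.sum_univ_fun_getElem, gw]

lemma W_eq (ζ : Fin K → PMF (List (Fin K))) (i : Fin K) (cs : List (T K)) :
    W ζ (.node i cs) = ζ i (cs.map root) * (cs.map (W ζ)).prod := by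
  simp [T.node, W]

lemma W_node (ζ : Fin K → PMF (List (Fin K))) (i : Fin K) (cs : List (T K)) :
    W ζ (.node i cs) ≠ 0 ↔ ζ i (cs.map root) ≠ 0 ∧ ∀ c ∈ cs, W ζ c ≠ 0 := by
  simp [W_eq, List.prod_eq_zero_iff]

section
variable {Γ : Fin K → ℕ} {ζ ζ' : Fin K → PMF (List (Fin K))} (h : CondII Γ ζ ζ')
  {τ : Fin K → T K} (hτ : ∀ i, root (τ i) = i ∧ W ζ (τ i) ≠ 0)
include h

lemma pos {t : T K} (ht : W ζ t ≠ 0) : W ζ' t ≠ 0 := by
  obtain ⟨c, h0, -, hc⟩ := h _ _ ⟨t, rfl, rfl, ht⟩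
  rw [hc t rfl rfl]; exact mul_ne_zero h0 ht

include hτ

omit h in
lemma map_root (x : List (Fin K)) : (x.map τ).map root = x := by
  rw [List.map_map, show root ∘ τ = id from funext fun i => (hτ i).1, List.map_id]

omit h in
lemma fill {i : Fin K} {x : List (Fin K)} (hx : ζ i x ≠ 0) : W ζ (.node i (x.map τ)) ≠ 0 :=
  (W_node _ _ _).2 ⟨by rwa [map_root hτ], fun c hc => by
    obtain ⟨j, -, rfl⟩ := List.mem_map.1 hc; exact (hτ j).2⟩

lemma sub {i : Fin K} {x : List (Fin K)} (hx : ζ i x ≠ 0) : ζ' i x ≠ 0 := by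
  have := ((W_node _ _ _).1 (pos h (fill hτ hx))).1
  rwa [map_root hτ] at this

/-- one-hole contexts -/
lemma ctx {i j : Fin K} (hij : Relation.ReflTransGen (fun a b => ∃ x, ζ a x ≠ 0 ∧ b ∈ x) i j) :
    ∃ (f : T K → T K) (c : ℕ), ∀ t, root t = j → root (f t) = i ∧ gw Γ (f t) = c + gw Γ t ∧
      (W ζ (f t) ≠ 0 ↔ W ζ t ≠ 0) ∧ (W ζ' t ≠ 0 → W ζ' (f t) ≠ 0) := by
  induction hij with
  | refl => exact ⟨id, 0, fun t ht => by simp [ht]⟩
  | @tail a b _ hab ih =>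
    obtain ⟨f, c, hf⟩ := ih
    obtain ⟨x, hx, hb⟩ := hab
    obtain ⟨u, v, rfl⟩ := List.append_of_mem hb
    refine ⟨fun t => f (.node a (u.map τ ++ t :: v.map τ)),
      c + (Γ a + ((u.map τ).map (gw Γ)).sum + ((v.map τ).map (gw Γ)).sum), fun t ht => ?_⟩
    obtain ⟨h1, h2, h3, h4⟩ := hf (.node a (u.map τ ++ t :: v.map τ)) rfl
    have e : (u.map τ ++ t :: v.map τ).map root = u ++ b :: v := by
      rw [List.map_append, List.map_cons, map_root hτ, map_root hτ, ht]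
    refine ⟨h1, by rw [h2, gw_node]; simp; ring, ?_, fun h5 => h4 ?_⟩
    · rw [h3, W_node, e]
      simp +contextual [hx, or_imp, forall_and, (hτ _).2]
    · rw [W_node, e]
      simp +contextual [sub h hτ hx, or_imp, forall_and, pos h (hτ _).2, h5]

lemma main (irr : ∀ i j, Relation.ReflTransGen (fun a b => ∃ x, ζ a x ≠ 0 ∧ b ∈ x) i j)
    (nd : ∃ i x, ζ i x ≠ 0 ∧ 2 ≤ x.length) : CondI ζ ζ' := by
  intro i x
  refine ⟨fun h0 => ?_, fun h0 => by_contra fun hx => sub h hτ hx h0⟩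
  by_contra hx
  have a1 : W ζ' (.node i (x.map τ)) ≠ 0 := (W_node _ _ _).2 ⟨by rwa [map_root hτ], fun c hc => by
    obtain ⟨j, -, rfl⟩ := List.mem_map.1 hc; exact pos h (hτ j).2⟩
  have a2 : ¬ W ζ (.node i (x.map τ)) ≠ 0 := by rw [W_node, map_root hτ]; simp [h0]
  set s := T.node i (x.map τ)
  have fin : ∀ t t', root t = i → root t' = i → gw Γ t = gw Γ t' → W ζ t ≠ 0 → W ζ' t' ≠ 0 →
      W ζ t' ≠ 0 := fun t t' h1 h2 h3 h4 h5 h6 => by
    obtain ⟨c, -, -, hc⟩ := h i _ ⟨t, h1, h3, h4⟩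
    rw [hc t' h2 rfl, h6, mul_zero] at h5
    exact h5 rfl
  by_cases hΓ : ∀ k, Γ k = 0
  · exact a2 (fin (τ i) s (hτ i).1 rfl (by simp [gw, hΓ]) (hτ i).2 a1)
  obtain ⟨b, hb0, hb1, hb2⟩ : ∃ b, root b = i ∧ W ζ b ≠ 0 ∧ 0 < gw Γ b := by
    obtain ⟨k, hk⟩ := not_forall.1 hΓ
    obtain ⟨f, c, hf⟩ := ctx h hτ (irr i k)
    obtain ⟨h1, h2, h3, -⟩ := hf _ (hτ k).1
    refine ⟨_, h1, h3.2 (hτ k).2, ?_⟩
    have := (hτ k).1
    rw [h2]
    obtain ⟨k', cs, hτk⟩ := cases' (τ k)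
    rw [hτk] at this ⊢
    rw [gw_node, show k' = k from this]; omega
  obtain ⟨C, c, hC⟩ : ∃ (C : T K → T K → T K) (c : ℕ), ∀ t t', root t = i → root t' = i →
      root (C t t') = i ∧ gw Γ (C t t') = c + gw Γ t + gw Γ t' ∧
      (W ζ (C t t') ≠ 0 ↔ W ζ t ≠ 0 ∧ W ζ t' ≠ 0) ∧
      (W ζ' t ≠ 0 → W ζ' t' ≠ 0 → W ζ' (C t t') ≠ 0) := by
    obtain ⟨k, _ | ⟨j, _ | ⟨j', v⟩⟩, hx, hl⟩ := nd
    · simp at hl
    · simp at hl
    obtain ⟨f, c, hf⟩ := ctx h hτ (irr i k)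
    obtain ⟨f1, c1, hf1⟩ := ctx h hτ (irr j i)
    obtain ⟨f2, c2, hf2⟩ := ctx h hτ (irr j' i)
    refine ⟨fun t t' => f (.node k (f1 t :: f2 t' :: v.map τ)),
      c + (Γ k + c1 + c2 + ((v.map τ).map (gw Γ)).sum), fun t t' ht ht' => ?_⟩
    obtain ⟨h1, h2, h3, h4⟩ := hf (.node k (f1 t :: f2 t' :: v.map τ)) rfl
    obtain ⟨p1, p2, p3, p4⟩ := hf1 t ht
    obtain ⟨q1, q2, q3, q4⟩ := hf2 t' ht'
    have e : (f1 t :: f2 t' :: v.map τ).map root = j :: j' :: v := by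
      rw [List.map_cons, List.map_cons, map_root hτ, p1, q1]
    refine ⟨h1, by rw [h2, gw_node]; simp [p2, q2]; ring, ?_, fun h5 h6 => h4 ?_⟩
    · rw [h3, W_node, e, ← p3, ← q3]
      simp +contextual [hx, (hτ _).2]
    · rw [W_node, e]
      simp +contextual [sub h hτ hx, pos h (hτ _).2, p4 h5, q4 h6]
  have A : ∀ n, ∃ t, root t = i ∧ gw Γ t = gw Γ b + n * (c + gw Γ b) ∧ W ζ t ≠ 0 := fun n => by
    induction n with
    | zero => exact ⟨b, hb0, by simp, hb1⟩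
    | succ n ih =>
      obtain ⟨t, h1, h2, h3⟩ := ih
      obtain ⟨p1, p2, p3, -⟩ := hC t b h1 hb0
      exact ⟨_, p1, by rw [p2, h2]; ring, p3.2 ⟨h3, hb1⟩⟩
  have B : ∀ n, ∃ t, root t = i ∧ gw Γ t = gw Γ s + n * (c + gw Γ s) ∧ W ζ' t ≠ 0 ∧
      ¬ W ζ t ≠ 0 := fun n => by
    induction n with
    | zero => exact ⟨s, rfl, by simp, a1, a2⟩
    | succ n ih =>
      obtain ⟨t, h1, h2, h3, h4⟩ := ih
      obtain ⟨p1, p2, p3, p4⟩ := hC t s h1 rfl
      exact ⟨_, p1, by rw [p2, h2]; ring, p4 h3 a1, fun h5 => h4 (p3.1 h5).1⟩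
  obtain ⟨m, hm⟩ : ∃ m, c + gw Γ b = m + 1 := ⟨c + gw Γ b - 1, by omega⟩
  obtain ⟨t, h1, h2, h3⟩ := A (c + gw Γ s)
  obtain ⟨t', h4, h5, h6, h7⟩ := B m
  obtain ⟨p1, p2, p3, p4⟩ := hC t' b h4 hb0
  refine h7 (p3.1 (fin t _ h1 p1 ?_ h3 (p4 h6 (pos h hb1)))).1
  rw [p2, h2, h5, hm]; ring
end

noncomputable def z (i : Fin 2) : PMF (List (Fin 2)) :=
  if i = 0 then PMF.pure [1] else (PMF.uniformOfFintype Bool).map fun b => if b then [0] else []
noncomputable def z' (i : Fin 2) : PMF (List (Fin 2)) :=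
  (PMF.uniformOfFintype Bool).map fun b => if b then [i + 1] else []

lemma key : ∀ (g : ℕ) (i : Fin 2), ((i : ℕ) + g) % 2 = 0 → ∀ t, root t = i → gw 1 t = g →
    W z' t = 2⁻¹ ^ (g / 2) * W z t := by
  intro g
  induction g with
  | zero => rintro i - t - h; obtain ⟨j, cs, rfl⟩ := cases' t; simp [gw_node] at h
  | succ g ih =>
    rintro i hi t rfl hg
    obtain ⟨j, cs, rfl⟩ := cases' t
    simp only [root_node] at hi
    rw [gw_node] at hg
    rcases cs with _ | ⟨c, _ | ⟨c', cs⟩⟩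
    · obtain rfl : g = 0 := by simpa using hg.symm
      obtain rfl : j = 1 := by omega
      simp [W_eq, z, z']
    · obtain rfl : g = gw 1 c := by simp at hg; omega
      by_cases hc : root c = j + 1
      · simp only [W_eq, List.map, List.prod_cons, List.prod_nil, mul_one, hc]
        rw [ih (j + 1) (by fin_cases j <;> simp at hi ⊢ <;> omega) c hc rfl]
        fin_cases j <;> simp [z, z'] at hi ⊢
        · rw [show (gw 1 c + 1) / 2 = gw 1 c / 2 + 1 by omega]; ring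
        · rw [show (gw 1 c + 1) / 2 = gw 1 c / 2 by omega]; ring
      · fin_cases j <;> simp_all [W_eq, z, z']
    · fin_cases j <;> simp [W_eq, z, z']

lemma par : ∀ (g : ℕ) (t : T 2), gw 1 t = g → W z t ≠ 0 → ((root t : ℕ) + g) % 2 = 0 := by
  intro g
  induction g with
  | zero => rintro t h; obtain ⟨j, cs, rfl⟩ := cases' t; simp [gw_node] at h
  | succ g ih =>
    rintro t hg hW
    obtain ⟨j, cs, rfl⟩ := cases' t
    rw [gw_node] at hg
    rw [W_node] at hW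
    rcases cs with _ | ⟨c, _ | ⟨c', cs⟩⟩
    · obtain rfl : g = 0 := by simpa using hg.symm
      fin_cases j <;> simp_all [z, root_node]
    · have := ih c (by simp at hg; omega) (hW.2 c (by simp))
      fin_cases j <;> simp_all [z, root_node] <;> omega
    · fin_cases j <;> simp [z] at hW

end Pool.Agent.Lib.helper26.BGW
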