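import Mathlib

set_option autoImplicit false

namespace Pool.Agent.Lib.helper26.BetaZ

open Filter Topology

attribute [local instance] Ultrafilter.add Ultrafilter.addSemigroup

abbrev B := Ultrafilter ℤ

def sc (c : ℤ) (p : B) : B := p.map (c * ·)

lemma mem_add (p q : B) (s : Set ℤ) : s ∈ p + q ↔ {a | {b | a + b ∈ s} ∈ q} ∈ p := Iff.rfl

lemma cont_map (f : ℤ → ℤ) : Continuous fun p : B => p.map f :=
  ultrafilterBasis_is_basis.continuous_iff.2 <| Set.forall_mem_range.mpr fun s ↦
    ultrafilter_isOpen_basic (f ⁻¹' s)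

lemma cont_add (q : B) : Continuous fun p : B => p + q := Ultrafilter.continuous_add_left q

lemma pure_add (a : ℤ) (p : B) : (pure a : B) + p = p.map (a + ·) := by
  ext s; rfl

lemma cont_pure_add (a : ℤ) : Continuous fun p : B => (pure a : B) + p := by
  simp only [pure_add]; exact cont_map _

lemma pure_comm (a : ℤ) (p : B) : (pure a : B) + p = p + pure a := by
  ext s
  rw [mem_add, mem_add]
  simp [add_comm]

lemma pure_pure (a b : ℤ) : (pure a : B) + pure b = pure (a + b) := by
  ext s; rfl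

lemma zero_add' (p : B) : (pure 0 : B) + p = p := by
  ext s; rw [mem_add]; simp

lemma add_zero' (p : B) : p + (pure 0 : B) = p := by rw [← pure_comm, zero_add']

lemma sc_add (c : ℤ) (p q : B) : sc c (p + q) = sc c p + sc c q := by
  ext s
  simp only [sc, Ultrafilter.mem_map, mem_add, Set.preimage, Set.mem_ofPred_eq, mul_add]

lemma sc_one (p : B) : sc 1 p = p := by
  ext s; simp [sc]

lemma sc_zero (p : B) : sc 0 p = pure 0 := by
  ext s
  by_cases h : (0 : ℤ) ∈ s
  · simp only [sc, Ultrafilter.mem_map, Set.preimage, zero_mul, h, Ultrafilter.mem_pure, iff_true]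
    exact Filter.univ_mem
  · simp [sc, Set.preimage, h]

lemma sc_pure (c a : ℤ) : sc c (pure a) = pure (c * a) := rfl

def Min (p : B) : Prop := ∀ q : B, ∃ t : B, t + q + p = p

lemma Min.absorb {v e : B} (hv : Min v) (he : e + e = e) (hev : e + v = e) : v + e = v := by
  obtain ⟨t, ht⟩ := hv e
  rw [add_assoc, hev] at ht
  rw [← ht, add_assoc, he]

lemma Min.of_eq {v p : B} (hv : Min v) (hp : p + v = p) : Min p := by
  intro q
  obtain ⟨t, ht⟩ := hv (q + p)
  rw [add_assoc, add_assoc, hp] at ht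
  refine ⟨p + t, ?_⟩
  rw [add_assoc, add_assoc, ht, hp]

lemma Min.sc {u : B} (hu : Min u) {c : ℤ} (hc : c ≠ 0) : Min (sc c u) := by
  intro q
  have hfin : (Set.range fun n : ℤ => n % c).Finite := by
    refine (Set.finite_Icc 0 |c|).subset ?_
    rintro _ ⟨n, rfl⟩
    exact ⟨Int.emod_nonneg _ hc, (Int.emod_lt_abs _ hc).le⟩
  obtain ⟨r, -, hr⟩ := Ultrafilter.eq_pure_of_finite_mem (f := q.map fun n => n % c) hfin
    (Filter.range_mem_map (f := (q : Filter ℤ)))
  have hr' : {n | n % c = r} ∈ q := by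
    have : {r} ∈ q.map fun n => n % c := by rw [hr]; simp
    exact this
  have hq : q = pure r + BetaZ.sc c (q.map fun n => n / c) := by
    rw [pure_add]
    unfold BetaZ.sc
    rw [Ultrafilter.map_map, Ultrafilter.map_map]
    apply Ultrafilter.coe_injective
    simp only [Ultrafilter.coe_map]
    rw [Filter.map_congr (m₂ := id), Filter.map_id]
    filter_upwards [hr'] with n hn
    simp only [Function.comp, id]
    rw [← hn]
    exact Int.emod_add_mul_ediv n c
  obtain ⟨t, ht⟩ := hu (q.map fun n => n / c)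
  refine ⟨BetaZ.sc c t + pure (-r), ?_⟩
  rw [hq, add_assoc (BetaZ.sc c t), ← add_assoc (pure (-r)), pure_pure, neg_add_cancel, zero_add',
    ← sc_add, ← sc_add, ht]

theorem exists_min : ∃ u : B, u + u = u ∧ Min u ∧ ∀ n : ℤ, {m | n < m} ∈ u := by
  let S : Set (Set B) := {N | IsClosed N ∧ N.Nonempty ∧ (∀ q : B, ∀ p ∈ N, q + p ∈ N) ∧
    ∀ p ∈ N, ∀ n : ℤ, {m | n < m} ∈ p}
  have h0 : {p : B | ∀ n : ℤ, {m | n < m} ∈ p} ∈ S := by
    refine ⟨?_, ⟨Ultrafilter.of atTop, fun n => Ultrafilter.of_le atTop (Ioi_mem_atTop n)⟩, ?_,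
      fun p hp => hp⟩
    · simp only [Set.ofPred_forall]
      exact isClosed_iInter fun n => ultrafilter_isClosed_basic _
    · intro q p hp n
      rw [mem_add]
      refine Filter.univ_mem' fun a => Filter.mem_of_superset (hp (n - a)) fun b hb => ?_
      simp only [Set.mem_ofPred_eq] at hb ⊢
      omega
  obtain ⟨N, -, hN⟩ := zorn_superset_nonempty S (fun c hcs hc hne => by
    refine ⟨⋂₀ c, ⟨isClosed_sInter fun t ht => (hcs ht).1, ?_, ?_, ?_⟩,
      fun s hs => Set.sInter_subset_of_mem hs⟩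
    · have := hne.to_subtype
      exact IsCompact.nonempty_sInter_of_directed_nonempty_isCompact_isClosed
        (fun a ha b hb => by
          rcases hc.total ha hb with h | h
          · exact ⟨a, ha, subset_rfl, h⟩
          · exact ⟨b, hb, h, subset_rfl⟩) (fun t ht => (hcs ht).2.1)
        (fun t ht => (hcs ht).1.isCompact) (fun t ht => (hcs ht).1)
    · exact fun q p hp t ht => (hcs ht).2.2.1 q p (hp t ht)
    · obtain ⟨t, ht⟩ := hne
      exact fun p hp => (hcs ht).2.2.2 p (hp t ht)) _ h0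
  obtain ⟨h1, h2, h3, h4⟩ := hN.prop
  obtain ⟨u, hu, huu⟩ := exists_idempotent_in_compact_add_subsemigroup cont_add N h2 h1.isCompact
    (fun x _ y hy => h3 x y hy)
  refine ⟨u, huu, fun q => ?_, h4 u hu⟩
  have hsub : (Set.range fun t : B => t + (q + u)) ⊆ N := by
    rintro _ ⟨t, rfl⟩
    exact h3 _ _ (h3 _ _ hu)
  have hmem : (Set.range fun t : B => t + (q + u)) ∈ S := by
    refine ⟨(isCompact_range (cont_add _)).isClosed, Set.range_nonempty _, ?_,
      fun p hp => h4 p (hsub hp)⟩
    rintro s _ ⟨t, rfl⟩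
    exact ⟨s + t, add_assoc _ _ _⟩
  obtain ⟨t, ht⟩ := hN.le_of_le hmem hsub hu
  exact ⟨t, by rw [add_assoc]; exact ht⟩

end Pool.Agent.Lib.helper26.BetaZ
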