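import Mathlib

namespace Pool.Agent.Lib.helper26.Bkr

variable {ι S : Type}

/-- the cylinder `[x]_K` -/
def cyl (x : ι → S) (K : Set ι) : Set (ι → S) := {y | ∀ i ∈ K, y i = x i}

/-- the binary BKR product -/
def box (A B : Set (ι → S)) : Set (ι → S) :=
  {x | ∃ K L : Set ι, Disjoint K L ∧ cyl x K ⊆ A ∧ cyl x L ⊆ B}

/-- bracketings: full binary trees -/
inductive Br : Type
  | leaf : Br
  | node : Br → Br → Br

/-- number of leaves -/
def Br.size : Br → ℕ
  | leaf => 1
  | node l r => l.size + r.size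

/-- value of the bracketing on the word `A a, A (a+1), …, A (a + size - 1)` -/
def Br.eval (A : ℕ → Set (ι → S)) : Br → ℕ → Set (ι → S)
  | leaf, a => A a
  | node l r, a => box (l.eval A a) (r.eval A (a + l.size))

/-- value of the bracketing with every leaf labelled `A` -/
def Br.val (A : Set (ι → S)) : Br → Set (ι → S)
  | leaf => A
  | node l r => box (l.val A) (r.val A)

/-- equivalence of bracketings: swap the two subtrees at some internal nodes -/
inductive Eqv : Br → Br → Prop
  | leaf : Eqv .leaf .leaf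
  | keep {l r l' r' : Br} : Eqv l l' → Eqv r r' → Eqv (.node l r) (.node l' r')
  | swap {l r l' r' : Br} : Eqv l r' → Eqv r l' → Eqv (.node l r) (.node l' r')

/-- the simultaneous product of `A 0, …, A (r-1)` -/
def simul (r : ℕ) (A : ℕ → Set (ι → S)) : Set (ι → S) :=
  {x | ∃ K : ℕ → Set ι, (∀ i < r, ∀ j < r, i ≠ j → Disjoint (K i) (K j)) ∧
    ∀ i < r, cyl x (K i) ⊆ A i}

lemma Br.size_pos (T : Br) : 0 < T.size := by
  induction T with
  | leaf => simp [Br.size]
  | node l r ihl _ => simp only [Br.size]; omega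

lemma self_mem_cyl (x : ι → S) (K : Set ι) : x ∈ cyl x K := fun _ _ => rfl

lemma box_comm (A B : Set (ι → S)) : box A B = box B A := by
  ext x
  constructor <;> rintro ⟨K, L, h, h1, h2⟩ <;> exact ⟨L, K, h.symm, h2, h1⟩

@[simp] lemma box_univ (A : Set (ι → S)) : box A Set.univ = A := by
  ext x
  constructor
  · rintro ⟨K, L, -, h1, -⟩
    exact h1 (self_mem_cyl x K)
  · intro hx
    refine ⟨Set.univ, ∅, by simp, fun y hy => ?_, Set.subset_univ _⟩
    have : y = x := funext fun i => hy i trivial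
    rwa [this]

@[simp] lemma univ_box (A : Set (ι → S)) : box Set.univ A = A := by rw [box_comm, box_univ]

lemma box_mono {A A' B B' : Set (ι → S)} (h1 : A ⊆ A') (h2 : B ⊆ B') : box A B ⊆ box A' B' := by
  rintro x ⟨K, L, h, h3, h4⟩
  exact ⟨K, L, h, h3.trans h1, h4.trans h2⟩

lemma box_subset_left (A B : Set (ι → S)) : box A B ⊆ A := by
  simpa using box_mono (A := A) (A' := A) (B := B) subset_rfl (Set.subset_univ B)

lemma box_subset_right (A B : Set (ι → S)) : box A B ⊆ B := by
  rw [box_comm]; exact box_subset_left _ _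

lemma mem_box_iff {A B : Set (ι → S)} {x : ι → S} : x ∈ box A B ↔ ∃ K : ι → Bool,
    (∀ y : ι → S, (∀ i, K i = true → y i = x i) → y ∈ A) ∧
    (∀ y : ι → S, (∀ i, K i = false → y i = x i) → y ∈ B) := by
  classical
  constructor
  · rintro ⟨K, L, h, h1, h2⟩
    refine ⟨fun i => decide (i ∈ K), fun y hy => h1 fun i hi => hy i (by simpa using hi),
      fun y hy => h2 fun i hi => hy i ?_⟩
    simpa using fun hK => Set.disjoint_left.1 h hK hi
  · rintro ⟨K, h1, h2⟩
    refine ⟨{i | K i = true}, {i | K i = false}, ?_, fun y hy => h1 y hy, fun y hy => h2 y hy⟩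
    rw [Set.disjoint_left]
    intro i hi hi'
    simp_all

lemma eval0 (σ : ℕ → Set (ι → S)) (T : Br) (a : ℕ)
    (h : ∀ m, a ≤ m → m < a + T.size → σ m = Set.univ) : T.eval σ a = Set.univ := by
  induction T generalizing a with
  | leaf => exact h a le_rfl (by simp [Br.size])
  | node l r ihl ihr =>
    simp only [Br.size] at h
    rw [Br.eval, ihl a fun m h1 h2 => h m h1 (by omega),
      ihr _ fun m h1 h2 => h m (by omega) (by omega), box_univ]

lemma eval1 (σ : ℕ → Set (ι → S)) (T : Br) (a i : ℕ) (h1 : a ≤ i) (h2 : i < a + T.size)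
    (h : ∀ m, a ≤ m → m < a + T.size → m ≠ i → σ m = Set.univ) : T.eval σ a = σ i := by
  induction T generalizing a with
  | leaf =>
    simp only [Br.size] at h2
    rw [Br.eval, show a = i by omega]
  | node l r ihl ihr =>
    simp only [Br.size] at h h2
    rw [Br.eval]
    by_cases hi : i < a + l.size
    · rw [ihl a h1 hi fun m h3 h4 => h m h3 (by omega),
        eval0 σ r _ fun m h3 h4 => h m (by omega) (by omega) (by omega), box_univ]
    · rw [ihr _ (by omega) (by omega) fun m h3 h4 => h m (by omega) (by omega),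
        eval0 σ l _ fun m h3 h4 => h m (by omega) (by omega) (by omega), univ_box]

lemma eval2 (σ : ℕ → Set (ι → S)) (T : Br) (a i j : ℕ) (hij : i ≠ j) (h1 : a ≤ i)
    (h2 : i < a + T.size) (h3 : a ≤ j) (h4 : j < a + T.size)
    (h : ∀ m, a ≤ m → m < a + T.size → m ≠ i → m ≠ j → σ m = Set.univ) :
    T.eval σ a = box (σ i) (σ j) := by
  induction T generalizing a with
  | leaf => simp only [Br.size] at h2 h4; omega
  | node l r ihl ihr =>
    simp only [Br.size] at h h2 h4
    rw [Br.eval]
    by_cases hi : i < a + l.size <;> by_cases hj : j < a + l.size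
    · rw [ihl a h1 hi h3 hj fun m h3 h4 => h m h3 (by omega),
        eval0 σ r _ fun m h3 h4 => h m (by omega) (by omega) (by omega) (by omega), box_univ]
    · rw [eval1 σ l a i h1 hi fun m h3 h4 h5 => h m h3 (by omega) h5 (by omega),
        eval1 σ r _ j (by omega) (by omega) fun m h3 h4 h5 =>
          h m (by omega) (by omega) (by omega) h5]
    · rw [eval1 σ l a j h3 hj fun m h3 h4 h5 => h m h3 (by omega) (by omega) h5,
        eval1 σ r _ i (by omega) (by omega) fun m h3 h4 h5 =>
          h m (by omega) (by omega) h5 (by omega), box_comm]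
    · rw [ihr _ (by omega) (by omega) (by omega) (by omega) fun m h3 h4 =>
          h m (by omega) (by omega),
        eval0 σ l _ fun m h3 h4 => h m (by omega) (by omega) (by omega) (by omega), univ_box]

lemma cyl_subset_eval (A : ℕ → Set (ι → S)) (x : ι → S) (K : ℕ → Set ι) (T : Br) (a : ℕ)
    (hd : ∀ i j, a ≤ i → i < j → j < a + T.size → Disjoint (K i) (K j))
    (hK : ∀ i, a ≤ i → i < a + T.size → cyl x (K i) ⊆ A i) :
    cyl x {c | ∃ i, a ≤ i ∧ i < a + T.size ∧ c ∈ K i} ⊆ T.eval A a := by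
  induction T generalizing a with
  | leaf =>
    exact fun y hy => hK a le_rfl (by simp [Br.size]) fun u hu =>
      hy u ⟨a, le_rfl, by simp [Br.size], hu⟩
  | node l r ihl ihr =>
    simp only [Br.size] at hd hK ⊢
    intro y hy
    refine ⟨{c | ∃ i, a ≤ i ∧ i < a + l.size ∧ c ∈ K i},
      {c | ∃ i, a + l.size ≤ i ∧ i < a + l.size + r.size ∧ c ∈ K i}, ?_, fun v hv => ?_,
      fun v hv => ?_⟩
    · rw [Set.disjoint_left]
      rintro c ⟨i, h1, h2, h3⟩ ⟨j, h4, h5, h6⟩
      exact Set.disjoint_left.1 (hd i j h1 (by omega) (by omega)) h3 h6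
    · refine ihl a (fun i j h1 h2 h3 => hd i j h1 h2 (by omega))
        (fun i h1 h2 => hK i h1 (by omega)) ?_
      rintro c ⟨i, h1, h2, h3⟩
      rw [hv c ⟨i, h1, h2, h3⟩, hy c ⟨i, h1, by omega, h3⟩]
    · refine ihr _ (fun i j h1 h2 h3 => hd i j (by omega) h2 (by omega))
        (fun i h1 h2 => hK i (by omega) (by omega)) ?_
      rintro c ⟨i, h1, h2, h3⟩
      rw [hv c ⟨i, h1, h2, h3⟩, hy c ⟨i, by omega, by omega, h3⟩]

lemma simul_subset_eval (A : ℕ → Set (ι → S)) (T : Br) : simul T.size A ⊆ T.eval A 0 := by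
  rintro x ⟨K, h1, h2⟩
  exact cyl_subset_eval A x K T 0 (fun i j _ h3 h4 => h1 i (by omega) j (by omega) h3.ne)
    (fun i _ h3 => h2 i (by omega)) (self_mem_cyl _ _)

lemma eval_subset_val (A : ℕ → Set (ι → S)) (B : Set (ι → S)) (T : Br) (a : ℕ)
    (h : ∀ i, a ≤ i → i < a + T.size → A i ⊆ B) : T.eval A a ⊆ T.val B := by
  induction T generalizing a with
  | leaf => exact h a le_rfl (by simp [Br.size])
  | node l r ihl ihr =>
    simp only [Br.size] at h
    exact box_mono (ihl a fun i h1 h2 => h i h1 (by omega))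
      (ihr _ fun i h1 h2 => h i (by omega) (by omega))

/-! products over blocks -/

def blk {τ : Type} (p : τ × ι → S) (t : τ) : ι → S := fun i => p (t, i)

def Pw {τ : Type} (A : τ → Set (ι → S)) : Set (τ × ι → S) := {p | ∀ t, blk p t ∈ A t}

open Classical in
noncomputable def upd {τ : Type} (p : τ × ι → S) (t : τ) (v : ι → S) : τ × ι → S :=
  fun c => if c.1 = t then v c.2 else p c

lemma blk_upd {τ : Type} (p : τ × ι → S) (t : τ) (v : ι → S) : blk (upd p t v) t = v := by
  funext i; simp [blk, upd]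

lemma upd_mem {τ : Type} {p : τ × ι → S} {t : τ} {v : ι → S} {K : Set (τ × ι)}
    (hv : v ∈ cyl (blk p t) {i | (t, i) ∈ K}) : upd p t v ∈ cyl p K := by
  rintro ⟨s, i⟩ hc
  simp only [upd]
  split_ifs with hs
  · subst hs
    exact hv i hc
  · rfl

lemma box_Pw {τ : Type} (A B : τ → Set (ι → S)) :
    box (Pw A) (Pw B) = Pw fun t => box (A t) (B t) := by
  ext p
  constructor
  · rintro ⟨K, L, h, h1, h2⟩ t
    refine ⟨{i | (t, i) ∈ K}, {i | (t, i) ∈ L}, ?_, fun v hv => ?_, fun v hv => ?_⟩
    · rw [Set.disjoint_left]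
      exact fun i hi hi' => Set.disjoint_left.1 h hi hi'
    · simpa [blk_upd] using h1 (upd_mem hv) t
    · simpa [blk_upd] using h2 (upd_mem hv) t
  · intro h
    choose K L hd h1 h2 using h
    refine ⟨{c | c.2 ∈ K c.1}, {c | c.2 ∈ L c.1}, ?_, fun q hq t => h1 t fun i hi => hq (t, i) hi,
      fun q hq t => h2 t fun i hi => hq (t, i) hi⟩
    rw [Set.disjoint_left]
    exact fun c hc hc' => Set.disjoint_left.1 (hd c.1) hc hc'

lemma eval_Pw {τ : Type} (σ : τ → ℕ → Set (ι → S)) (T : Br) (a : ℕ) :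
    T.eval (fun m => Pw fun t => σ t m) a = Pw fun t => T.eval (σ t) a := by
  induction T generalizing a with
  | leaf => rfl
  | node l r ihl ihr => rw [Br.eval, ihl, ihr, box_Pw]; rfl

/-! transfer along a bijection of coordinates -/

def pull {κ : Type} (e : ι ≃ κ) (A : Set (ι → S)) : Set (κ → S) := {x | x ∘ e ∈ A}

lemma pull_inj {κ : Type} (e : ι ≃ κ) {A B : Set (ι → S)} (h : pull e A = pull e B) : A = B := by
  ext x
  have : (x ∘ e.symm) ∈ pull e A ↔ (x ∘ e.symm) ∈ pull e B := by rw [h]
  simpa [pull, Function.comp_assoc] using this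

lemma box_pull {κ : Type} (e : ι ≃ κ) (A B : Set (ι → S)) :
    box (pull e A) (pull e B) = pull e (box A B) := by
  ext x
  constructor
  · rintro ⟨K, L, h, h1, h2⟩
    refine ⟨e ⁻¹' K, e ⁻¹' L, h.preimage e, fun y hy => ?_, fun y hy => ?_⟩
    · have := h1 (a := y ∘ e.symm) fun c hc => by
        simpa using hy (e.symm c) (by simpa using hc)
      simpa [pull, Function.comp_assoc] using this
    · have := h2 (a := y ∘ e.symm) fun c hc => by
        simpa using hy (e.symm c) (by simpa using hc)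
      simpa [pull, Function.comp_assoc] using this
  · rintro ⟨K, L, h, h1, h2⟩
    exact ⟨e.symm ⁻¹' K, e.symm ⁻¹' L, h.preimage _,
      fun y hy => h1 fun i hi => hy (e i) (by simpa using hi),
      fun y hy => h2 fun i hi => hy (e i) (by simpa using hi)⟩

lemma eval_pull {κ : Type} (e : ι ≃ κ) (A : ℕ → Set (ι → S)) (T : Br) (a : ℕ) :
    T.eval (fun m => pull e (A m)) a = pull e (T.eval A a) := by
  induction T generalizing a with
  | leaf => rfl
  | node l r ihl ihr => rw [Br.eval, ihl, ihr, box_pull]; rfl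

lemma val_pull {κ : Type} (e : ι ≃ κ) (A : Set (ι → S)) (T : Br) :
    T.val (pull e A) = pull e (T.val A) := by
  induction T with
  | leaf => rfl
  | node l r ihl ihr => rw [Br.val, ihl, ihr, box_pull]; rfl

end Pool.Agent.Lib.helper26.Bkr
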