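import Mathlib
import Pool.Agent.Lib.helper26.BkrA

namespace Pool.Agent.Lib.helper26.Bkr

abbrev G := Fin 4 → Bool

def gA : Set G := {y | ((y 0 && y 2) || (y 1 && !y 2) || !y 3) = true}
def gB : Set G := {y | (y 0 || y 1) = true}
def gC : Set G := {y | y 2 = true}
def gE : Set G := {y | y 0 = true}
def gx : G := fun _ => true
def gz : G := ![true, true, true, false]

lemma g1 : gx ∈ box (box gA gB) gC := by
  simp only [mem_box_iff, gA, gB, gC, Set.mem_ofPred_eq]
  decide +kernel

lemma g2 : gx ∉ box gA (box gB gC) := by
  simp only [mem_box_iff, gA, gB, gC, Set.mem_ofPred_eq]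
  decide +kernel

lemma g3 : gx ∉ box (box gA gC) gB := by
  simp only [mem_box_iff, gA, gB, gC, Set.mem_ofPred_eq]
  decide +kernel

def sg (i j k m : ℕ) : Set G :=
  if m = i then gA else if m = j then gB else if m = k then gC else Set.univ

lemma sg_out {i j k m : ℕ} (h1 : m ≠ i) (h2 : m ≠ j) (h3 : m ≠ k) : sg i j k m = Set.univ := by
  simp [sg, h1, h2, h3]

lemma sg_i (i j k : ℕ) : sg i j k i = gA := by simp [sg]
lemma sg_j {i j : ℕ} (k : ℕ) (h : j ≠ i) : sg i j k j = gB := by simp [sg, h]
lemma sg_k {i j k : ℕ} (h : k ≠ i) (h' : k ≠ j) : sg i j k k = gC := by simp [sg, h, h']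

lemma gz_mem (i j k : ℕ) (T : Br) (a : ℕ) : gz ∈ T.eval (sg i j k) a := by
  refine cyl_subset_eval (sg i j k) gz
    (fun m => if m = i then {3} else if m = j then {0} else if m = k then {2} else ∅) T a
    ?_ ?_ (self_mem_cyl _ _)
  · intro u v _ huv _
    split_ifs <;> first | omega | simp
  · intro m _ _ y hy
    simp only [sg]
    split_ifs with h1 h2 h3
    · have : y 3 = false := hy 3 (by simp [h1])
      simp [gA, this]
    · have : y 0 = true := hy 0 (by rw [if_neg h1, if_pos h2]; rfl)
      simp [gB, this]
    · have : y 2 = true := hy 2 (by rw [if_neg h1, if_neg h2, if_pos h3]; rfl)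
      simp [gC, this]
    · trivial

/-- `i, j` on the left, `k` on the right -/
lemma gx_left (l r : Br) (a i j k : ℕ) (hij : i ≠ j) (h1 : a ≤ i) (h2 : i < a + l.size)
    (h3 : a ≤ j) (h4 : j < a + l.size) (h5 : a + l.size ≤ k) (h6 : k < a + l.size + r.size) :
    gx ∈ (Br.node l r).eval (sg i j k) a := by
  rw [Br.eval, eval2 _ l a i j hij h1 h2 h3 h4 fun m _ _ u v => sg_out u v (by omega),
    eval1 _ r _ k h5 h6 fun m _ _ u => sg_out (by omega) (by omega) u,
    sg_i, sg_j k hij.symm, sg_k (by omega) (by omega)]
  exact g1

/-- `i, j` on the right, `k` on the left -/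
lemma gx_right (l r : Br) (a i j k : ℕ) (hij : i ≠ j) (h1 : a + l.size ≤ i)
    (h2 : i < a + l.size + r.size) (h3 : a + l.size ≤ j) (h4 : j < a + l.size + r.size)
    (h5 : a ≤ k) (h6 : k < a + l.size) :
    gx ∈ (Br.node l r).eval (sg i j k) a := by
  rw [Br.eval, eval2 _ r _ i j hij h1 h2 h3 h4 fun m _ _ u v => sg_out u v (by omega),
    eval1 _ l _ k h5 h6 fun m _ _ u => sg_out (by omega) (by omega) u,
    sg_i, sg_j k hij.symm, sg_k (by omega) (by omega), box_comm]
  exact g1

/-- the word `w` of blocks follows the tree `U` on the interval starting at `a` -/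
def Fol (w : ℕ → ℕ → ℕ → G) (U : Br) (a : ℕ) : Prop :=
  ∀ i j k, a ≤ i → i < a + U.size → a ≤ j → j < a + U.size → a ≤ k → k < a + U.size →
    gx ∈ U.eval (sg i j k) a → w i j k = gx

lemma Fol.left {w : ℕ → ℕ → ℕ → G} {l r : Br} {a : ℕ} (h : Fol w (.node l r) a) : Fol w l a := by
  intro i j k h1 h2 h3 h4 h5 h6 h7
  refine h i j k h1 (by simp only [Br.size]; omega) h3 (by simp only [Br.size]; omega) h5
    (by simp only [Br.size]; omega) ?_
  rw [Br.eval, eval0 _ r _ fun m _ _ => sg_out (by omega) (by omega) (by omega), box_univ]
  exact h7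

lemma Fol.right {w : ℕ → ℕ → ℕ → G} {l r : Br} {a : ℕ} (h : Fol w (.node l r) a) :
    Fol w r (a + l.size) := by
  intro i j k h1 h2 h3 h4 h5 h6 h7
  refine h i j k (by omega) (by simp only [Br.size]; omega) (by omega)
    (by simp only [Br.size]; omega) (by omega) (by simp only [Br.size]; omega) ?_
  rw [Br.eval, eval0 _ l _ fun m _ _ => sg_out (by omega) (by omega) (by omega), univ_box]
  exact h7

open Classical in
/-- the test word of a tree -/
noncomputable def tw (T : Br) (i j k : ℕ) : G := if gx ∈ T.eval (sg i j k) 0 then gx else gz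

lemma tw_fol (T : Br) : Fol (tw T) T 0 := fun i j k _ _ _ _ _ _ h => by simp [tw, h]

lemma tw_mem (T : Br) (i j k : ℕ) : tw T i j k ∈ T.eval (sg i j k) 0 := by
  simp only [tw]
  split_ifs with h
  · exact h
  · exact gz_mem i j k T 0

theorem eq_of_fol (w : ℕ → ℕ → ℕ → G) (U U' : Br) (a : ℕ) (hs : U.size = U'.size)
    (h : Fol w U a)
    (h' : ∀ i j k, a ≤ i → i < a + U.size → a ≤ j → j < a + U.size → a ≤ k → k < a + U.size →
      w i j k ∈ U'.eval (sg i j k) a) : U = U' := by
  induction U generalizing U' a with
  | leaf =>
    cases U' with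
    | leaf => rfl
    | node l' r' =>
      have := l'.size_pos
      have := r'.size_pos
      simp only [Br.size] at hs
      omega
  | node l r ihl ihr =>
    have hl := l.size_pos
    have hr := r.size_pos
    cases U' with
    | leaf => simp only [Br.size] at hs; omega
    | node l' r' =>
      have hl' := l'.size_pos
      have hr' := r'.size_pos
      simp only [Br.size] at hs h'
      have hsz : l.size = l'.size := by
        rcases lt_trichotomy l.size l'.size with hlt | heq | hgt
        · exfalso
          have e1 := h (a + l.size) (a + l'.size) a (by omega) (by simp only [Br.size]; omega)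
            (by omega) (by simp only [Br.size]; omega) le_rfl (by simp only [Br.size]; omega)
            (gx_right l r a _ _ _ (by omega) (by omega) (by omega) (by omega) (by omega)
              le_rfl (by omega))
          have e2 := h' (a + l.size) (a + l'.size) a (by omega) (by omega) (by omega) (by omega)
            le_rfl (by omega)
          rw [e1, Br.eval, eval2 _ l' a (a + l.size) a (by omega) (by omega) (by omega) le_rfl
              (by omega) fun m _ _ u v => sg_out u (by omega) v,
            eval1 _ r' _ (a + l'.size) le_rfl (by omega)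
              fun m _ _ u => sg_out (by omega) u (by omega),
            sg_i, sg_j _ (by omega), sg_k (by omega) (by omega)] at e2
          exact g3 e2
        · exact heq
        · exfalso
          have e1 := h a (a + l'.size) (a + l.size) le_rfl (by simp only [Br.size]; omega)
            (by omega) (by simp only [Br.size]; omega) (by omega) (by simp only [Br.size]; omega)
            (gx_left l r a _ _ _ (by omega) le_rfl (by omega) (by omega) (by omega)
              le_rfl (by omega))
          have e2 := h' a (a + l'.size) (a + l.size) le_rfl (by omega) (by omega) (by omega)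
            (by omega) (by omega)
          rw [e1, Br.eval, eval1 _ l' a a le_rfl (by omega)
              fun m _ _ u => sg_out u (by omega) (by omega),
            eval2 _ r' _ (a + l'.size) (a + l.size) (by omega) le_rfl (by omega) (by omega)
              (by omega) fun m _ _ u v => sg_out (by omega) u v,
            sg_i, sg_j _ (by omega), sg_k (by omega) (by omega)] at e2
          exact g2 e2
      rw [ihl l' a hsz h.left fun i j k h1 h2 h3 h4 h5 h6 =>
          box_subset_left _ _ (h' i j k h1 (by omega) h3 (by omega) h5 (by omega)),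
        ihr r' _ (by omega) h.right fun i j k h1 h2 h3 h4 h5 h6 => by
          have := box_subset_right _ _
            (h' i j k (by omega) (by omega) (by omega) (by omega) (by omega) (by omega))
          rwa [← hsz] at this]

end Pool.Agent.Lib.helper26.Bkr
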