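import Mathlib
import Pool.Agent.Lib.helper26.BkrB

namespace Pool.Agent.Lib.helper26.Bkr

abbrev Blk (r : ℕ) := (Fin r × Fin r × Fin r) ⊕ Fin r

variable {r : ℕ}

def sg' : Blk r → ℕ → Set G
  | .inl t => sg t.1 t.2.1 t.2.2
  | .inr n => fun m => if m = n then gE else Set.univ

def big (r : ℕ) : Set (Blk r × Fin 4 → Bool) := {p | ∃ m < r, p ∈ Pw fun t => sg' t m}

open Classical in
noncomputable def Y (p : Blk r × Fin 4 → Bool) : Finset ℕ :=
  (Finset.range r).filter fun m => ∃ h : m < r, p (.inr ⟨m, h⟩, 0) = true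

lemma mem_Y {p : Blk r × Fin 4 → Bool} {m : ℕ} :
    m ∈ Y p ↔ ∃ h : m < r, p (.inr ⟨m, h⟩, 0) = true := by
  simp only [Y, Finset.mem_filter, Finset.mem_range]
  exact ⟨fun h => h.2, fun h => ⟨h.1, h⟩⟩

def H (Z : Finset ℕ) (i j k : ℕ) : Set G :=
  if i ∈ Z ∧ j ∈ Z ∧ k ∈ Z then Set.univ else
    box (if i ∈ Z then gA else Set.univ)
      (box (if j ∈ Z then gB else Set.univ) (if k ∈ Z then gC else Set.univ))

lemma H_box (Z W : Finset ℕ) (hd : Disjoint Z W) (i j k : ℕ) :
    box (H Z i j k) (H W i j k) ⊆ H (Z ∪ W) i j k := by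
  have hd' : ∀ m, m ∈ Z → m ∉ W := fun m hm => Finset.disjoint_left.1 hd hm
  have hi := hd' i
  have hj := hd' j
  have hk := hd' k
  by_cases h1 : i ∈ Z <;> by_cases h2 : j ∈ Z <;> by_cases h3 : k ∈ Z <;>
    by_cases h4 : i ∈ W <;> by_cases h5 : j ∈ W <;> by_cases h6 : k ∈ W <;>
    simp_all [H, box_comm gB gA, box_comm gC gA, box_comm gC gB]

open Classical in
noncomputable def cut (p : Blk r × Fin 4 → Bool) (K : Set (Blk r × Fin 4)) :
    Blk r × Fin 4 → Bool :=
  fun c => if c ∈ K ∨ c.1.isLeft = true then p c else false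

lemma cut_mem (p : Blk r × Fin 4 → Bool) (K : Set (Blk r × Fin 4)) : cut p K ∈ cyl p K :=
  fun c hc => by simp [cut, hc]

lemma blk_cut (p : Blk r × Fin 4 → Bool) (K : Set (Blk r × Fin 4)) (t : Fin r × Fin r × Fin r) :
    blk (cut p K) (.inl t) = blk p (.inl t) := by
  funext i; simp [blk, cut]

lemma mem_Y_cut {p : Blk r × Fin 4 → Bool} {K : Set (Blk r × Fin 4)} {m : ℕ} :
    m ∈ Y (cut p K) ↔ ∃ h : m < r, (.inr ⟨m, h⟩, 0) ∈ K ∧ p (.inr ⟨m, h⟩, 0) = true := by
  simp [mem_Y, cut]

lemma Y_upd (p : Blk r × Fin 4 → Bool) (t : Fin r × Fin r × Fin r) (v : G) :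
    Y (upd p (.inl t) v) = Y p := by
  ext m; simp [mem_Y, upd]

lemma side {p : Blk r × Fin 4 → Bool} {K : Set (Blk r × Fin 4)} {P : Set (Blk r × Fin 4 → Bool)}
    (h : cyl p K ⊆ P) (t : Fin r × Fin r × Fin r) (R : Set G)
    (hR : ∀ q ∈ P, Y q = Y (cut p K) → blk q (.inl t) ∈ R) :
    cyl (blk p (.inl t)) {i | (.inl t, i) ∈ K} ⊆ R := by
  intro v hv
  have h1 : upd (cut p K) (.inl t) v ∈ cyl (cut p K) K := upd_mem (by rwa [blk_cut])
  have h2 : upd (cut p K) (.inl t) v ∈ cyl p K := fun c hc => by rw [h1 c hc, cut_mem p K c hc]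
  simpa [blk_upd] using hR _ (h h2) (Y_upd _ _ _)

def UB (r : ℕ) (U : Br) : Prop := ∀ p ∈ U.val (big r), U.size ≤ (Y p).card ∧
  ((Y p).card = U.size → ∀ i j k : Fin r, i ≠ j → i ≠ k → j ≠ k →
    blk p (.inl (i, j, k)) ∈ H (Y p) i j k)

lemma node_split {l s : Br} (hl : UB r l) (hs : UB r s) {p : Blk r × Fin 4 → Bool}
    (hp : p ∈ (Br.node l s).val (big r)) :
    ∃ p1 ∈ l.val (big r), ∃ p2 ∈ s.val (big r), (∀ t, blk p1 (.inl t) = blk p (.inl t)) ∧
      (∀ t, blk p2 (.inl t) = blk p (.inl t)) ∧ Disjoint (Y p1) (Y p2) ∧ Y p1 ∪ Y p2 ⊆ Y p ∧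
      ((Y p1).card = l.size → (Y p2).card = s.size → ∀ i j k : Fin r, i ≠ j → i ≠ k → j ≠ k →
        blk p (.inl (i, j, k)) ∈ box (H (Y p1) i j k) (H (Y p2) i j k)) := by
  obtain ⟨K, L, hd, h1, h2⟩ := hp
  refine ⟨cut p K, h1 (cut_mem p K), cut p L, h2 (cut_mem p L), blk_cut p K, blk_cut p L,
    ?_, ?_, ?_⟩
  · rw [Finset.disjoint_left]
    intro m hm hm'
    obtain ⟨h, h3, -⟩ := mem_Y_cut.1 hm
    obtain ⟨h', h4, -⟩ := mem_Y_cut.1 hm'
    exact Set.disjoint_left.1 hd h3 h4
  · intro m hm
    rcases Finset.mem_union.1 hm with hm | hm <;> obtain ⟨h, -, h3⟩ := mem_Y_cut.1 hm <;>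
      exact mem_Y.2 ⟨h, h3⟩
  · intro c1 c2 i j k hij hik hjk
    refine ⟨_, _, ?_, side h1 (i, j, k) _ fun q hq hY => ?_, side h2 (i, j, k) _ fun q hq hY => ?_⟩
    · rw [Set.disjoint_left]
      exact fun u hu hu' => Set.disjoint_left.1 hd hu hu'
    · rw [← hY]
      exact (hl q hq).2 (by rw [hY, c1]) i j k hij hik hjk
    · rw [← hY]
      exact (hs q hq).2 (by rw [hY, c2]) i j k hij hik hjk

lemma ub (U : Br) : UB r U := by
  induction U with
  | leaf =>
    rintro p ⟨m, hm, hp⟩
    have h1 : m ∈ Y p := mem_Y.2 ⟨hm, by simpa [sg', gE, blk] using hp (.inr ⟨m, hm⟩)⟩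
    refine ⟨Finset.card_pos.2 ⟨m, h1⟩, fun hc i j k hij hik hjk => ?_⟩
    obtain ⟨u, hu⟩ := Finset.card_eq_one.1 hc
    have hum : m = u := by simpa [hu] using h1
    subst hum
    have h2 : blk p (.inl (i, j, k)) ∈ sg i j k m := hp (.inl (i, j, k))
    have hij' : (i : ℕ) ≠ j := fun h => hij (Fin.ext h)
    have hik' : (i : ℕ) ≠ k := fun h => hik (Fin.ext h)
    have hjk' : (j : ℕ) ≠ k := fun h => hjk (Fin.ext h)
    rw [hu]
    simp only [sg] at h2
    split_ifs at h2 with h3 h4 h5
    · subst h3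
      simpa [H, hij'.symm, hik'.symm] using h2
    · subst h4
      simpa [H, hij', hjk'.symm] using h2
    · subst h5
      simpa [H, hik', hjk'] using h2
    · simp [H, Ne.symm h3, Ne.symm h4, Ne.symm h5]
  | node l s ihl ihs =>
    intro p hp
    obtain ⟨p1, h1, p2, h2, -, -, hd, hsub, hb⟩ := node_split ihl ihs hp
    have c1 := (ihl p1 h1).1
    have c2 := (ihs p2 h2).1
    have c3 := Finset.card_le_card hsub
    rw [Finset.card_union_of_disjoint hd] at c3
    refine ⟨by simp only [Br.size]; omega, fun hc i j k hij hik hjk => ?_⟩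
    simp only [Br.size] at hc
    have hu : Y p1 ∪ Y p2 = Y p := Finset.eq_of_subset_of_card_le hsub
      (by rw [Finset.card_union_of_disjoint hd]; omega)
    rw [← hu]
    exact H_box _ _ hd _ _ _ (hb (by omega) (by omega) i j k hij hik hjk)

lemma not_sep {Z W : Finset ℕ} (hd : Disjoint Z W) {i j k : ℕ} (hi : i ∈ Z) (hj : j ∈ W)
    (hk : k ∈ Z ∪ W) : gx ∉ box (H Z i j k) (H W i j k) := by
  have hd' : ∀ m, m ∈ Z → m ∉ W := fun m hm => Finset.disjoint_left.1 hd hm
  have h1 := hd' i hi
  have h2 : j ∉ Z := fun h => hd' j h hj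
  rcases Finset.mem_union.1 hk with h | h
  · have h3 := hd' k h
    simpa [H, hi, hj, h1, h2, h, h3] using g3
  · have h3 : k ∉ Z := fun h' => hd' k h' h
    simpa [H, hi, hj, h1, h2, h, h3] using g2

theorem eqv_of_fol (w : ℕ → ℕ → ℕ → G) (U U' : Br) (a : ℕ) (ha : a + U.size ≤ r)
    (hs : U.size = U'.size) (h : Fol w U a) (p : Blk r × Fin 4 → Bool) (hp : p ∈ U'.val (big r))
    (hw : ∀ i j k : Fin r, blk p (.inl (i, j, k)) = w i j k)
    (hY : Y p = Finset.Ico a (a + U.size)) : Eqv U U' := by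
  induction U generalizing U' a p with
  | leaf =>
    cases U' with
    | leaf => exact .leaf
    | node l' s' =>
      have := l'.size_pos
      have := s'.size_pos
      simp only [Br.size] at hs
      omega
  | node l s ihl ihs =>
    have hl := l.size_pos
    have hr := s.size_pos
    cases U' with
    | leaf => simp only [Br.size] at hs; omega
    | node l' s' =>
      have hl' := l'.size_pos
      have hr' := s'.size_pos
      simp only [Br.size] at hs hY ha
      obtain ⟨p1, h1, p2, h2, b1, b2, hd, hsub, hb⟩ := node_split (ub l') (ub s') hp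
      have c1 := (ub l' p1 h1).1
      have c2 := (ub s' p2 h2).1
      have c3 := Finset.card_le_card hsub
      have c4 : (Y p).card = l.size + s.size := by rw [hY]; simp
      rw [Finset.card_union_of_disjoint hd] at c3
      have hu : Y p1 ∪ Y p2 = Finset.Ico a (a + (l.size + s.size)) := by
        rw [← hY]
        exact Finset.eq_of_subset_of_card_le hsub
          (by rw [Finset.card_union_of_disjoint hd]; omega)
      have hmem : ∀ m, (m ∈ Y p1 ∨ m ∈ Y p2) ↔ a ≤ m ∧ m < a + (l.size + s.size) := by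
        intro m
        rw [← Finset.mem_union, hu, Finset.mem_Ico]
      have key : ∀ i ∈ Y p1, ∀ j ∈ Y p2, (i < a + l.size ↔ ¬ j < a + l.size) := by
        intro i hi j hj
        have hi' := (hmem i).1 (Or.inl hi)
        have hj' := (hmem j).1 (Or.inr hj)
        have hij : i ≠ j := fun e => Finset.disjoint_left.1 hd hi (e ▸ hj)
        have aux : ∀ k, a ≤ k → k < a + (l.size + s.size) → i ≠ k → j ≠ k →
            gx ∉ (Br.node l s).eval (sg i j k) a := by
          intro k hk1 hk2 hik hjk hx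
          have e1 := h i j k hi'.1 hi'.2 hj'.1 hj'.2 hk1 hk2 hx
          have e2 := hb (by omega) (by omega) ⟨i, by omega⟩ ⟨j, by omega⟩ ⟨k, by omega⟩
            (by simpa using hij) (by simpa using hik) (by simpa using hjk)
          rw [hw, e1] at e2
          exact not_sep hd hi hj (Finset.mem_union.2 ((hmem k).2 ⟨hk1, hk2⟩)) e2
        constructor
        · intro h3 h4
          exact aux (a + l.size) (by omega) (by omega) (by omega) (by omega)
            (gx_left l s a i j _ hij hi'.1 h3 hj'.1 h4 le_rfl (by omega))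
        · intro h4
          by_contra h3
          exact aux a le_rfl (by omega) (by omega) (by omega)
            (gx_right l s a i j _ hij (by omega) (by omega) (by omega) (by omega) le_rfl (by omega))
      obtain ⟨u, hu1⟩ := Finset.card_pos.1 (show 0 < (Y p1).card by omega)
      obtain ⟨v, hv2⟩ := Finset.card_pos.1 (show 0 < (Y p2).card by omega)
      have hdj : ∀ m, m ∈ Y p1 → m ∉ Y p2 := fun m hm => Finset.disjoint_left.1 hd hm
      have hw1 : ∀ i j k : Fin r, blk p1 (.inl (i, j, k)) = w i j k := fun i j k => by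
        rw [b1, hw]
      have hw2 : ∀ i j k : Fin r, blk p2 (.inl (i, j, k)) = w i j k := fun i j k => by
        rw [b2, hw]
      by_cases hc : u < a + l.size
      · have k1 : ∀ j ∈ Y p2, ¬ j < a + l.size := fun j hj => (key u hu1 j hj).1 hc
        have k2 : ∀ i ∈ Y p1, i < a + l.size := fun i hi => (key i hi v hv2).2 (k1 v hv2)
        have e1 : Y p1 = Finset.Ico a (a + l.size) := by
          ext m
          have := hmem m
          have := k1 m
          have := k2 m
          rw [Finset.mem_Ico]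
          grind
        have e2 : Y p2 = Finset.Ico (a + l.size) (a + l.size + s.size) := by
          ext m
          have := hmem m
          have := k1 m
          have := k2 m
          rw [Finset.mem_Ico]
          grind
        have d1 : (Y p1).card = l.size := by rw [e1]; simp
        exact .keep (ihl l' a (by omega) (by omega) h.left p1 h1 hw1 e1)
          (ihs s' _ (by omega) (by omega) h.right p2 h2 hw2 e2)
      · have k1 : ∀ j ∈ Y p2, j < a + l.size := fun j hj => by
          by_contra hn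
          exact hc ((key u hu1 j hj).2 hn)
        have k2 : ∀ i ∈ Y p1, ¬ i < a + l.size := fun i hi hn => (key i hi v hv2).1 hn (k1 v hv2)
        have e1 : Y p2 = Finset.Ico a (a + l.size) := by
          ext m
          have := hmem m
          have := k1 m
          have := k2 m
          rw [Finset.mem_Ico]
          grind
        have e2 : Y p1 = Finset.Ico (a + l.size) (a + l.size + s.size) := by
          ext m
          have := hmem m
          have := k1 m
          have := k2 m
          rw [Finset.mem_Ico]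
          grind
        have d1 : (Y p2).card = l.size := by rw [e1]; simp
        exact .swap (ihl s' a (by omega) (by omega) h.left p2 h2 hw2 e1)
          (ihs l' _ (by omega) (by omega) h.right p1 h1 hw1 e2)

theorem eqv_of_val (T T' : Br) (hT : T.size = r) (hT' : T'.size = r)
    (h : T.val (big r) = T'.val (big r)) : Eqv T T' := by
  let p : Blk r × Fin 4 → Bool := fun c =>
    match c.1 with
    | .inl t => tw T t.1 t.2.1 t.2.2 c.2
    | .inr _ => true
  have h1 : p ∈ T.eval (fun m => Pw fun t : Blk r => sg' t m) 0 := by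
    rw [eval_Pw]
    rintro (t | n)
    · exact tw_mem T _ _ _
    · change _ ∈ T.eval (sg' (.inr n)) 0
      rw [eval1 _ T 0 n (Nat.zero_le _) (by omega) fun m _ _ hm => by simp [sg', hm]]
      simp [sg', gE, blk, p]
  have h2 : p ∈ T.val (big r) :=
    eval_subset_val _ (big r) T 0 (fun i _ hi q hq => ⟨i, by omega, hq⟩) h1
  rw [h] at h2
  refine eqv_of_fol (tw T) T T' 0 (by omega) (by omega) (tw_fol T) p h2 (fun i j k => rfl) ?_
  ext m
  simp [mem_Y, p, hT]

end Pool.Agent.Lib.helper26.Bkr
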