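import Pool.Agent.Lib.helper26.GMix

namespace Pool.Agent.Lib.helper26.BnG
open MeasureTheory ProbabilityTheory Finset Filter Topology
open scoped Classical

/-- the unit vector `± e_i` -/
def vec {d : ℕ} (a : Fin d × Bool) : Fin d → ℤ := Pi.single a.1 (if a.2 then 1 else -1)

/-- bidirectional graph: `ω x` is the set of directions chosen at `x`; `x` and `x + a` are joined
when `x` chose `a` and `x + a` chose `-a` -/
def G {d : ℕ} (ω : (Fin d → ℤ) → Finset (Fin d × Bool)) : SimpleGraph (Fin d → ℤ) where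
  Adj x y := ∃ a, y = x + vec a ∧ a ∈ ω x ∧ (a.1, !a.2) ∈ ω y
  symm := ⟨fun x y ⟨⟨i, b⟩, h1, h2, h3⟩ => ⟨(i, !b), by
    rw [h1, add_assoc, vec, vec, ← Pi.single_add]; cases b <;> simp, h3, by simpa using h2⟩⟩
  loopless := ⟨fun x ⟨⟨i, b⟩, h, _⟩ => by cases b <;> simpa [vec] using congrFun h i⟩

/-- independent uniform `k`-subsets of the `2d` directions -/
noncomputable def P (k d : ℕ) : Measure ((Fin d → ℤ) → Finset (Fin d × Bool)) :=
  Measure.infinitePi fun _ => uniformOn {s | s.card = k}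

/-- probability that the cluster of the origin is infinite -/
noncomputable def θ (k d : ℕ) : ENNReal := P k d {ω | {y | (G ω).Reachable 0 y}.Infinite}

lemma mul_ind {ι X : Type} [MeasurableSpace X] (μ : ι → Measure X) [∀ i, IsProbabilityMeasure (μ i)]
    {S T : Set ι} (h : Disjoint S T) {f g : (ι → X) → ℝ} (hf : Measurable[cylinderEvents S] f)
    (hg : Measurable[cylinderEvents T] g) : ∫ ω, f ω * g ω ∂Measure.infinitePi μ =
      (∫ ω, f ω ∂Measure.infinitePi μ) * ∫ ω, g ω ∂Measure.infinitePi μ :=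
  IndepFun.integral_fun_mul_eq_mul_integral ((IndepFun_iff_Indep _ _ _).2 (indep_of_indep_of_le
    (indep_iSup_of_disjoint (fun i => (measurable_pi_apply i).comap_le)
      (iIndepFun_infinitePi (X := fun _ x => x) fun _ => measurable_id).iIndep h)
    hf.comap_le hg.comap_le)) (hf.mono cylinderEvents_le_pi le_rfl).aestronglyMeasurable
    (hg.mono cylinderEvents_le_pi le_rfl).aestronglyMeasurable

variable {k d : ℕ}
abbrev Ω (d : ℕ) := (Fin d → ℤ) → Finset (Fin d × Bool)

noncomputable def I (T s : Finset (Fin d × Bool)) : ℝ := if T ⊆ s then 1 else 0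
lemma I0 (T s : Finset (Fin d × Bool)) : 0 ≤ I T s := by unfold I; split_ifs <;> simp
lemma I1 (T s : Finset (Fin d × Bool)) : I T s ≤ 1 := by unfold I; split_ifs <;> simp
lemma mI (T : Finset (Fin d × Bool)) {S : Set (Fin d → ℤ)} {x : Fin d → ℤ} (hx : x ∈ S) :
    Measurable[cylinderEvents S] fun ω : Ω d => I T (ω x) :=
  (measurable_of_finite (I T)).comp (measurable_cylinderEvent_apply (X := fun _ => _) hx)

noncomputable def p (k d m : ℕ) : ℝ := (2 * d - m).choose (k - m) / (2 * d).choose k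

lemma prob (hk : k ≤ 2 * d) :
    IsProbabilityMeasure (uniformOn {s : Finset (Fin d × Bool) | s.card = k}) :=
  isProbabilityMeasure_uniformOn (Set.toFinite _) (by
    obtain ⟨s, -, h⟩ := exists_subset_card_eq (s := (univ : Finset (Fin d × Bool))) (n := k)
      (by simpa [mul_comm] using hk)
    exact ⟨s, h⟩)

lemma intI (hk : k ≤ 2 * d) (T : Finset (Fin d × Bool)) (x : Fin d → ℤ) :
    ∫ ω, I T (ω x) ∂P k d = if T.card ≤ k then p k d T.card else 0 := by
  have := prob hk
  have m := measurePreserving_eval_infinitePi (fun _ : Fin d → ℤ =>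
    uniformOn {s : Finset (Fin d × Bool) | s.card = k}) x
  refine (integral_map m.aemeasurable (measurable_of_finite _).aestronglyMeasurable).symm.trans ?_
  have e : {s : Finset (Fin d × Bool) | s.card = k} =
      (powersetCard k univ : Finset (Finset (Fin d × Bool))) := by ext; simp
  have : I T = Set.indicator ↑(univ.filter (T ⊆ ·)) 1 := by ext; simp [I, Set.indicator]
  rw [m.map_eq, this, integral_indicator_one (Set.toFinite _).measurableSet, measureReal_def, e,
    uniformOn_apply_finset, inter_filter, inter_univ]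
  split_ifs with h
  · rw [card_filter_powersetCard_subset _ _ _ (subset_univ _) h]
    simp [p, mul_comm]
  · rw [filter_false_of_mem fun s hs a => h ((card_le_card a).trans_eq (mem_powersetCard.1 hs).2)]
    simp

lemma p_succ (hk : k ≤ 2 * d) {m : ℕ} (hm : m < k) :
    p k d (m + 1) = p k d m * ((k - m) / (2 * d - m)) := by
  have := Nat.add_one_mul_choose_eq (2 * d - (m + 1)) (k - (m + 1))
  rw [show 2 * d - (m + 1) + 1 = 2 * d - m by omega, show k - (m + 1) + 1 = k - m by omega] at this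
  have h : (m : ℝ) < 2 * d := by exact_mod_cast hm.trans_le hk
  have h2 := congrArg (Nat.cast : ℕ → ℝ) this
  rw [Nat.cast_mul, Nat.cast_mul, Nat.cast_sub hm.le, Nat.cast_sub (by omega)] at h2
  push_cast at h2
  rw [p, p, div_mul_div_comm, ← h2, mul_comm _ (2 * d - m : ℝ), mul_div_mul_left _ _ (by linarith)]

lemma p2 (hk : k ≤ 2 * d) (h2 : 2 ≤ k) : p k d 2 = k / (2 * d) * ((k - 1) / (2 * d - 1)) := by
  rw [p_succ hk h2, p_succ hk (by omega), p, Nat.sub_zero, Nat.sub_zero,
    div_self (Nat.cast_ne_zero.2 (Nat.choose_pos hk).ne')]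
  simp

lemma bdI {f : Ω d → ℝ} (hk : k ≤ 2 * d) {S : Set (Fin d → ℤ)} (hf : Measurable[cylinderEvents S] f)
    {C : ℝ} (h : ∀ ω, 0 ≤ f ω ∧ f ω ≤ C) : Integrable f (P k d) := by
  have := prob hk
  unfold P
  exact .of_bound (hf.mono cylinderEvents_le_pi le_rfl).aestronglyMeasurable C
    (.of_forall fun ω => (Real.norm_of_nonneg (h ω).1).trans_le (h ω).2)

/-! lower bound -/

noncomputable def W : ℕ → (Fin d → ℤ) → Fin d × Bool → Finset (Fin d → ℤ) → Ω d → ℝ
  | 0, _, _, _, _ => 1
  | n + 1, x, a, S, ω => ∑ b, if b = a ∨ x + vec b ∈ insert x S then 0 else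
      I {a, b} (ω x) * W n (x + vec b) (b.1, !b.2) (insert x S) ω

lemma Wb (n : ℕ) (x a S) (ω : Ω d) : 0 ≤ W n x a S ω ∧ W n x a S ω ≤ (2 * d) ^ n := by
  induction n generalizing x a S with
  | zero => simp [W]
  | succ n ih =>
    simp only [W]
    refine ⟨sum_nonneg fun b _ => ?_, (sum_le_card_nsmul univ _ ((2 * d : ℝ) ^ n)
      fun b _ => ?_).trans_eq (by simp; ring)⟩ <;> split_ifs
    exacts [le_rfl, mul_nonneg (I0 _ _) (ih ..).1, by positivity,
      (mul_le_of_le_one_left (ih ..).1 (I1 _ _)).trans (ih ..).2]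

lemma mW (n : ℕ) (x a) (S : Finset (Fin d → ℤ)) (hx : x ∉ S) :
    Measurable[cylinderEvents (↑S)ᶜ] (W (d := d) n x a S) := by
  induction n generalizing x a S with
  | zero => exact measurable_const
  | succ n ih =>
    refine Finset.measurable_fun_sum _ fun b _ => ?_
    split_ifs with h
    · exact measurable_const
    · exact (mI _ hx).mul ((ih _ _ _ (not_or.1 h).2).mono (cylinderEvents_mono
        (Set.compl_subset_compl.2 (coe_subset.2 (subset_insert _ _)))) le_rfl)

lemma EW (hk : k ≤ 2 * d) (h : k ^ 2 ≤ d) (n : ℕ) (x a) (S : Finset (Fin d → ℤ)) (hx : x ∉ S) :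
    ∫ ω, W n x a S ω ∂P k d ≤ (1 / 2) ^ n := by
  have := prob hk
  induction n generalizing x a S with
  | zero => simp [W, P]
  | succ n ih =>
    have d0 : (1 : ℝ) ≤ d := by exact_mod_cast a.1.pos
    simp only [W]
    rw [integral_finsetSum]
    · refine (sum_le_card_nsmul univ _ (1 / (4 * d) * (1 / 2 : ℝ) ^ n) fun b _ => ?_).trans_eq
        (by simp; field_simp; ring)
      split_ifs with hb
      · simp
      rw [P, mul_ind _ (by simp) (mI _ (Set.mem_singleton x)) (mW n _ _ _ (not_or.1 hb).2), ← P,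
        intI hk, card_pair (Ne.symm (not_or.1 hb).1)]
      refine mul_le_mul ?_ (ih _ _ _ (not_or.1 hb).2) (integral_nonneg fun ω => (Wb ..).1)
        (by positivity)
      split_ifs with h2
      · have : (k : ℝ) ^ 2 ≤ d := by exact_mod_cast h
        have : (2 : ℝ) ≤ k := by exact_mod_cast h2
        rw [p2 hk h2, div_mul_div_comm, div_le_div_iff₀ (by nlinarith) (by positivity)]
        nlinarith
      · positivity
    · intro b _
      split_ifs with hb
      · simp
      · exact bdI hk ((mI _ hx).mul ((mW n _ _ _ (not_or.1 hb).2).mono (cylinderEvents_mono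
          (Set.compl_subset_compl.2 (coe_subset.2 (subset_insert _ _)))) le_rfl)) fun ω =>
          ⟨mul_nonneg (I0 _ _) (Wb ..).1, (mul_le_of_le_one_left (Wb ..).1 (I1 _ _)).trans (Wb ..).2⟩

lemma vec_opp (x : Fin d → ℤ) (b : Fin d × Bool) : x + vec b + vec (b.1, !b.2) = x := by
  rw [add_assoc, vec, vec, ← Pi.single_add]; cases b.2 <;> simp

lemma Wpath {ω : Ω d} (n : ℕ) {x y} (a) (S : Finset (Fin d → ℤ)) (q : (G ω).Walk x y)
    (h1 : q.IsPath) (h2 : n ≤ q.length) (h3 : ∀ v ∈ q.support, v ∉ S) (h4 : a ∈ ω x)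
    (h5 : x + vec a ∈ S) : 1 ≤ W n x a S ω := by
  induction n generalizing x a S with
  | zero => exact le_rfl
  | succ n ih =>
    rcases q with _ | ⟨⟨b, rfl, b1, b2⟩, q⟩
    · simp at h2
    rw [SimpleGraph.Walk.cons_isPath_iff] at h1
    have h6 : ∀ v ∈ q.support, v ∉ insert x S := fun v hv h => (mem_insert.1 h).elim
      (fun e => h1.2 (e ▸ hv)) (h3 v (by simp [hv]))
    refine le_trans ?_ (single_le_sum (fun b _ => ?_) (mem_univ b))
    · rw [if_neg (not_or.2 ⟨fun e : b = a => h6 _ q.start_mem_support (mem_insert_of_mem (e ▸ h5)),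
        h6 _ q.start_mem_support⟩), I, if_pos (by simp [insert_subset_iff, h4, b1]), one_mul]
      exact ih _ _ q h1.1 (by simpa using h2) h6 b2 (by rw [vec_opp]; simp)
    · split_ifs
      exacts [le_rfl, mul_nonneg (I0 _ _) (Wb ..).1]

lemma box {ω : Ω d} {x y} (q : (G ω).Walk x y) (i : Fin d) : |y i - x i| ≤ q.length := by
  induction q with
  | nil => simp
  | cons h q ih =>
    obtain ⟨b, rfl, -⟩ := h
    have : |vec b i| ≤ 1 := by simp only [vec, Pi.single_apply]; split_ifs <;> simp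
    simp only [Pi.add_apply, abs_le, SimpleGraph.Walk.length_cons] at *
    push_cast; omega

theorem lower (hk : k ≤ 2 * d) (h : k ^ 2 ≤ d) : θ k d = 0 := by
  have := prob hk
  have : IsProbabilityMeasure (P k d) := by unfold P; infer_instance
  rw [θ, ← measureReal_eq_zero_iff]
  refine le_antisymm (ge_of_tendsto' (by simpa using (tendsto_pow_atTop_nhds_zero_of_lt_one
    (r := (1 / 2 : ℝ)) (by norm_num) (by norm_num)).const_mul (2 * d : ℝ)) fun n => ?_)
    measureReal_nonneg
  have v0 : ∀ b : Fin d × Bool, 0 + vec b ∉ ({0} : Finset (Fin d → ℤ)) := fun b h => by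
    have := congrFun (mem_singleton.1 h) b.1
    cases hb : b.2 <;> simp [vec, hb] at this
  refine (measureReal_mono (s₂ := ⋃ b, {ω | 1 ≤ W n (0 + vec b) (b.1, !b.2) {0} ω})
    fun ω hω => ?_).trans ((measureReal_iUnion_fintype_le _).trans
    ((sum_le_card_nsmul _ _ ((1 / 2) ^ n) fun b _ => ?_).trans_eq (by simp; ring)))
  · obtain ⟨y, ⟨q⟩, hy⟩ := hω.exists_notMem_finite
      (Set.finite_Icc (fun _ => -(n : ℤ)) fun _ => (n : ℤ))
    obtain ⟨q, hq⟩ := q.toPath
    have : n < q.length := not_le.1 fun h => hy ⟨fun i => by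
      have := abs_le.1 (box q i); simp at this ⊢; omega, fun i => by
      have := abs_le.1 (box q i); simp at this ⊢; omega⟩
    rcases q with _ | ⟨⟨b, rfl, b1, b2⟩, q⟩
    · simp at this
    rw [SimpleGraph.Walk.cons_isPath_iff] at hq
    exact Set.mem_iUnion.2 ⟨b, Wpath n _ _ q hq.1 (by simpa [Nat.lt_succ_iff] using this)
      (fun v hv h => hq.2 (mem_singleton.1 h ▸ hv)) b2 (by rw [vec_opp]; simp)⟩
  · simpa using (mul_meas_ge_le_integral_of_nonneg (.of_forall fun ω => (Wb ..).1)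
      (bdI hk (mW n _ _ _ (v0 b)) (Wb n _ _ _)) 1).trans (EW hk h n _ _ _ (v0 b))

/-! upper bound -/

def bit (c : Bool) : ℤ := if c then 1 else 0
noncomputable def w : ℕ → ℤ → ℝ
  | 0, y => if y = 0 then 1 else 0
  | t + 1, y => (∑ c, ∑ c', w t (y + bit c - bit c')) / 4
noncomputable def bin (n : ℕ) (j : ℤ) : ℝ := if 0 ≤ j then n.choose j.toNat else 0

lemma bin_succ (n : ℕ) (j : ℤ) : bin (n + 1) j = bin n (j - 1) + bin n j := by
  unfold bin
  rcases lt_trichotomy j 0 with h | rfl | h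
  · rw [if_neg (by omega), if_neg (by omega), if_neg (by omega), add_zero]
  · simp
  · obtain ⟨j, rfl⟩ : ∃ i : ℕ, j = i + 1 := ⟨(j - 1).toNat, by omega⟩
    rw [if_pos h.le, if_pos (by omega), if_pos h.le]
    simp [Nat.choose_succ_succ']

lemma w_eq (t : ℕ) (y : ℤ) : w t y = bin (2 * t) (t + y) / 4 ^ t := by
  induction t generalizing y with
  | zero =>
    rcases lt_trichotomy y 0 with h | rfl | h
    · simp [w, bin, h.ne, h]
    · simp [w, bin]
    · simp [w, bin, h.ne', h.le, Nat.choose_eq_zero_of_lt (show 0 < y.toNat by omega)]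
  | succ t ih =>
    simp only [w, ih, Fintype.sum_bool, bit, mul_add_one, ← add_assoc, ← one_add_one_eq_two,
      bin_succ]
    push_cast
    ring_nf

lemma w0 (t : ℕ) (y : ℤ) : 0 ≤ w t y := by
  rw [w_eq, bin]; split_ifs <;> positivity

lemma w_zero (t : ℕ) : w t 0 ^ 2 ≤ 1 / (2 * t + 1) := by
  have : w t 0 = t.centralBinom / 4 ^ t := by simp [w_eq, bin, Nat.centralBinom_eq_two_mul_choose]
  rw [this, div_pow, div_le_div_iff₀ (by positivity) (by positivity), one_mul]
  clear this
  induction t with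
  | zero => simp
  | succ t ih =>
    have h : (t + 1 : ℝ) * (t + 1).centralBinom = 2 * (2 * t + 1) * t.centralBinom := by
      exact_mod_cast t.succ_mul_centralBinom_succ
    refine le_of_mul_le_mul_left ?_ (show (0 : ℝ) < (t + 1) ^ 2 by positivity)
    rw [← mul_assoc, ← mul_pow, h]
    push_cast
    calc _ = 4 * (2 * t + 1) * (2 * t + 3) * ((t.centralBinom : ℝ) ^ 2 * (2 * t + 1)) := by ring
      _ ≤ 16 * (t + 1) ^ 2 * (4 ^ t) ^ 2 :=
        mul_le_mul (by nlinarith) ih (by positivity) (by positivity)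
      _ = _ := by ring

noncomputable def H (n : ℕ) (y : Fin 4 → ℤ) : ℝ := ∑ t ∈ range (n + 1), ∏ b, w t (y b)
lemma H0 (n : ℕ) (y : Fin 4 → ℤ) : 0 ≤ H n y := sum_nonneg fun _ _ => prod_nonneg fun _ _ => w0 _ _

lemma H_zero (n : ℕ) : H n 0 ≤ 5 / 4 - 1 / (4 * (n + 1)) := by
  induction n with
  | zero => norm_num [H, w]
  | succ n ih =>
    rw [H, sum_range_succ, ← H]
    have := pow_le_pow_left₀ (sq_nonneg _) (w_zero (n + 1)) 2
    have e : (1 / (2 * (n + 1 : ℕ) + 1) : ℝ) ^ 2 ≤ 1 / (4 * (n + 1)) - 1 / (4 * ((n + 1 : ℕ) + 1)) := by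
      push_cast
      rw [div_pow, div_sub_div _ _ (by positivity) (by positivity),
        div_le_div_iff₀ (by positivity) (by positivity)]
      nlinarith [sq_nonneg (n : ℝ), n.cast_nonneg (α := ℝ)]
    simp only [Pi.zero_apply, prod_const, card_univ, Fintype.card_fin]
    linarith [show w (n + 1) 0 ^ 4 = (w (n + 1) 0 ^ 2) ^ 2 by ring]

abbrev J (m : ℕ) := (Fin 4 → Bool) × Fin m
variable {m : ℕ}

lemma H_succ (n : ℕ) (y : Fin 4 → ℤ) :
    ∑ j : J m, ∑ j' : J m, H n (fun b => y b + bit (j.1 b) - bit (j'.1 b)) =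
      (16 * m) ^ 2 * (H (n + 1) y - if y = 0 then 1 else 0) := by
  have : ∏ b, w 0 (y b) = if y = 0 then 1 else 0 := by
    simp only [w, prod_ite_zero, prod_const_one, funext_iff]; simp
  rw [H, sum_range_succ', this, add_sub_cancel_right, mul_sum]
  simp only [H, sum_comm (t := range (n + 1))]
  refine sum_congr rfl fun t _ => ?_
  simp only [w, prod_div_distrib, prod_univ_sum, Fintype.piFinset_univ, Fintype.sum_prod_type,
    sum_const, card_univ, Fintype.card_fin, nsmul_eq_mul, ← mul_sum, prod_const]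
  ring

variable (e : J m ↪ Fin d)

noncomputable def Z : ℕ → (Fin d → ℤ) → J m → Ω d → ℝ
  | 0, _, _, _ => 1
  | n + 1, x, i, ω => ∑ j, I {(e i, false), (e j, true)} (ω x) * Z n (x + vec (e j, true)) j ω

lemma Zb (n : ℕ) (x i) (ω : Ω d) : 0 ≤ Z e n x i ω ∧ Z e n x i ω ≤ (16 * m) ^ n := by
  induction n generalizing x i with
  | zero => simp [Z]
  | succ n ih =>
    simp only [Z]
    exact ⟨sum_nonneg fun b _ => mul_nonneg (I0 _ _) (ih ..).1,
      (sum_le_card_nsmul univ _ ((16 * m : ℝ) ^ n) fun b _ => (mul_le_of_le_one_left (ih ..).1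
        (I1 _ _)).trans (ih ..).2).trans_eq (by simp; ring)⟩

lemma lev (x : Fin d → ℤ) (i : Fin d) : ∑ l, (x + vec (i, true)) l = ∑ l, x l + 1 := by
  simp [vec, sum_add_distrib]

lemma mZ (n : ℕ) (x i) {L : ℤ} (h : L ≤ ∑ l, x l) :
    Measurable[cylinderEvents {v | L ≤ ∑ l, v l}] (Z e n x i) := by
  induction n generalizing x i with
  | zero => exact measurable_const
  | succ n ih =>
    exact Finset.measurable_fun_sum _ fun j _ => (mI _ h).mul (ih _ _ (by rw [lev]; omega))

lemma EZ (hk : k ≤ 2 * d) (h2 : 2 ≤ k) (n : ℕ) (x i) :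
    ∫ ω, Z e n x i ω ∂P k d = (16 * m * p k d 2) ^ n := by
  have := prob hk
  induction n generalizing x i with
  | zero => simp [Z, P]
  | succ n ih =>
    simp only [Z]
    rw [integral_finsetSum, sum_congr rfl (g := fun _ => p k d 2 * (16 * m * p k d 2) ^ n)]
    · simp; ring
    · intro j _
      rw [P, mul_ind _ (by simp) (mI _ (Set.mem_singleton x)) (mZ e n _ _ (lev x _).ge), ← P,
        intI hk, card_pair (by simp), if_pos h2, ih]
    · exact fun j _ => bdI hk ((mI _ (show x ∈ {v | ∑ l, x l ≤ ∑ l, v l} by simp)).mul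
        (mZ e n _ _ (by rw [lev]; omega))) fun ω => ⟨mul_nonneg (I0 _ _) (Zb ..).1,
          (mul_le_of_le_one_left (Zb ..).1 (I1 _ _)).trans (Zb ..).2⟩

def ψ (x : Fin d → ℤ) (b : Fin 4) : ℤ := ∑ j, bit (j.1 b) * x (e j)

lemma ψ_add (x : Fin d → ℤ) (j : J m) (b : Fin 4) :
    ψ e (x + vec (e j, true)) b = ψ e x b + bit (j.1 b) := by
  simp [ψ, vec, mul_add, sum_add_distrib, Pi.single_apply]

lemma EII (hk : k ≤ 2 * d) (h4 : 4 ≤ k) {ρ : ℝ} (hρ : ρ = (2 * d - 1) / (k - 1)) (x x' i i' j j') :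
    ∫ ω, I {(e i, false), (e j, true)} (ω x) * I {(e i', false), (e j', true)} (ω x') ∂P k d ≤
      p k d 2 ^ 2 * (if x = x' ∧ i = i' then ρ else 1) * if x = x' ∧ j = j' then ρ else 1 := by
  have := prob hk
  by_cases h : x = x'
  swap
  · rw [P, mul_ind _ (Set.disjoint_singleton.2 h) (mI _ (Set.mem_singleton x))
      (mI _ (Set.mem_singleton x')), ← P, intI hk, intI hk, card_pair (by simp),
      card_pair (by simp), if_pos (by omega)]
    simp [h, sq]
  subst h
  have k4 : (4 : ℝ) ≤ k := by exact_mod_cast h4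
  have kd : (k : ℝ) ≤ 2 * d := by exact_mod_cast hk
  set r : ℝ := (k - 1) / (2 * d - 1) with hr
  have r0 : 0 < r := div_pos (by linarith) (by linarith)
  have r1 : ρ * r = 1 := by
    rw [hρ, hr, div_mul_div_cancel₀' (by linarith), div_self (by linarith)]
  have a2 : r * r ≤ p k d 2 := by
    rw [p2 hk (by omega)]; gcongr
    rw [hr, div_le_div_iff₀ (by linarith) (by linarith)]; nlinarith
  have a0 : 0 < p k d 2 := (mul_pos r0 r0).trans_le a2
  have a3 : p k d 3 ≤ p k d 2 * r := by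
    rw [p_succ hk (by omega)]; gcongr
    rw [hr, div_le_div_iff₀ (by push_cast; linarith) (by linarith)]; push_cast; nlinarith
  have a4 : p k d 4 ≤ p k d 2 * r * r := by
    rw [p_succ hk (by omega)]
    refine mul_le_mul a3 ?_ (div_nonneg (by push_cast; linarith) (by push_cast; linarith))
      (by positivity)
    rw [hr, div_le_div_iff₀ (by push_cast; linarith) (by linarith)]; push_cast; nlinarith
  have ρ0 : 0 < ρ := hρ ▸ div_pos (by linarith) (by linarith)
  have b3 : p k d 3 ≤ p k d 2 ^ 2 * ρ := a3.trans (by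
    rw [sq, mul_assoc]; gcongr; nlinarith)
  have u : ∀ T T' s : Finset (Fin d × Bool), I T s * I T' s = I (T ∪ T') s := fun T T' s => by
    simp only [I, union_subset_iff]; split_ifs <;> simp_all
  simp only [u, intI hk, true_and]
  by_cases hi : i = i' <;> by_cases hj : j = j'
  · subst hi hj
    rw [union_self, card_pair (by simp), if_pos (by omega), if_pos rfl, if_pos rfl]
    calc _ = p k d 2 * (ρ * r) * (ρ * r) := by rw [r1]; ring
      _ = p k d 2 * ρ * ρ * (r * r) := by ring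
      _ ≤ p k d 2 * ρ * ρ * p k d 2 := by gcongr
      _ = _ := by ring
  · subst hi
    rw [show #_ = 3 by simp [card_insert_of_notMem, hj], if_pos (by omega)]
    simpa [hj] using b3
  · subst hj
    rw [show #_ = 3 by simp [card_insert_of_notMem, Ne.symm hi], if_pos (by omega)]
    simpa [hi] using b3
  · rw [show #_ = 4 by simp [card_insert_of_notMem, hj, Ne.symm hi], if_pos h4]
    simp only [hi, hj, if_false]
    nlinarith

lemma EZZ (hk : k ≤ 2 * d) (h4 : 4 ≤ k) {ρ : ℝ} (hρ : ρ = (2 * d - 1) / (k - 1))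
    (h1 : 1 ≤ ρ) (hm : ρ ^ 2 ≤ 8 * m) (n : ℕ) (x x' i i') (hx : ∑ l, x l = ∑ l, x' l) :
    ∫ ω, Z e n x i ω * Z e n x' i' ω ∂P k d ≤ (16 * m * p k d 2) ^ (2 * n) *
      (if x = x' ∧ i = i' then ρ else 1) * (1 + 2 * H n fun b => ψ e x b - ψ e x' b) := by
  have := prob hk
  induction n generalizing x x' i i' with
  | zero =>
    have := H0 0 fun b => ψ e x b - ψ e x' b
    simp only [Z, P, mul_one, integral_const, probReal_univ, smul_eq_mul, mul_zero, pow_zero]
    split_ifs <;> nlinarith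
  | succ n ih =>
    have m1 := fun j j' : J m => (mI {(e i, false), (e j, true)} (S := {x, x'}) (.inl rfl)).fun_mul
      (mI {(e i', false), (e j', true)} (.inr rfl))
    have m2 := fun j j' : J m => (mZ e n _ j (lev x (e j)).ge).fun_mul
      (mZ e n _ j' ((lev x' (e j')).trans (by rw [hx])).ge)
    have it : ∀ j j' : J m, Integrable (fun ω => I {(e i, false), (e j, true)} (ω x) *
        I {(e i', false), (e j', true)} (ω x') * (Z e n (x + vec (e j, true)) j ω *
        Z e n (x' + vec (e j', true)) j' ω)) (P k d) := fun j j' =>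
      bdI hk (((m1 j j').mono (cylinderEvents_mono (Set.subset_univ _)) le_rfl).mul
        ((m2 j j').mono (cylinderEvents_mono (Set.subset_univ _)) le_rfl))
        (C := 1 * 1 * ((16 * m) ^ n * (16 * m) ^ n)) fun ω => ⟨mul_nonneg (mul_nonneg (I0 _ _)
          (I0 _ _)) (mul_nonneg (Zb ..).1 (Zb ..).1), by
          gcongr
          exacts [mul_nonneg (Zb ..).1 (Zb ..).1, I0 _ _, I1 _ _, I1 _ _, (Zb ..).1, (Zb ..).2,
            (Zb ..).2]⟩
    simp only [Z, sum_mul_sum, mul_mul_mul_comm (I _ _) (Z _ _ _ _ _)]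
    rw [integral_finsetSum _ fun j _ => integrable_finsetSum _ fun j' _ => it j j']
    simp only [integral_finsetSum _ fun j' _ => it _ j']
    set y : Fin 4 → ℤ := fun b => ψ e x b - ψ e x' b with hy
    obtain ⟨c, hc⟩ : ∃ c, (if x = x' ∧ i = i' then ρ else 1) = c := ⟨_, rfl⟩
    have c0 : 0 ≤ c := by rw [← hc]; split_ifs <;> linarith
    rw [hc]
    set A := (16 * m * p k d 2) ^ (2 * n)
    have A0 : 0 ≤ A := by simp only [A, pow_mul]; positivity
    have key : ∀ j j' : J m, ∫ ω, I {(e i, false), (e j, true)} (ω x) *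
        I {(e i', false), (e j', true)} (ω x') * (Z e n (x + vec (e j, true)) j ω *
        Z e n (x' + vec (e j', true)) j' ω) ∂P k d ≤ p k d 2 ^ 2 * c * A * (1 + 2 * H n (fun b =>
          y b + bit (j.1 b) - bit (j'.1 b)) + if x = x' ∧ j = j' then ρ ^ 2 * (7 / 2) else 0) :=
      fun j j' => by
      rw [P, mul_ind _ (by simp [hx]) (m1 j j') (m2 j j'), ← P]
      refine (mul_le_mul (EII e hk h4 hρ ..) (ih _ _ _ _ (by rw [lev, lev, hx])) (integral_nonneg
        fun ω => mul_nonneg (Zb ..).1 (Zb ..).1) (by split_ifs <;> positivity)).trans ?_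
      rw [hc]
      simp only [ψ_add, show ∀ a b c d : ℤ, a + b - (c + d) = a - c + b - d from fun _ _ _ _ => by
        ring]
      by_cases h : x = x' ∧ j = j'
      · obtain ⟨rfl, rfl⟩ := h
        have := H_zero n
        have h0 := H0 n 0
        have h1 : (0 : ℝ) ≤ 1 / (4 * (n + 1)) := by positivity
        simp only [y, and_self, if_true, sub_self, zero_add]
        change _ * (_ * (1 + 2 * H n 0)) ≤ _ * (1 + 2 * H n 0 + _)
        calc _ = p k d 2 ^ 2 * c * A * (ρ ^ 2 * (1 + 2 * H n 0)) := by ring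
          _ ≤ _ := by gcongr; nlinarith [sq_nonneg ρ]
      · rw [if_neg h, if_neg h, if_neg fun ⟨a, b⟩ => h ⟨by subst b; simpa using a, b⟩]
        exact le_of_eq (by ring)
    refine (sum_le_sum fun j _ => sum_le_sum fun j' _ => key j j').trans ?_
    simp only [← mul_sum, sum_add_distrib, H_succ]
    rw [show (16 * m * p k d 2) ^ (2 * (n + 1)) * c * (1 + 2 * H (n + 1) y) = p k d 2 ^ 2 * c * A *
      ((16 * m) ^ 2 * (1 + 2 * H (n + 1) y)) by simp only [A]; ring]
    gcongr
    by_cases h : x = x'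
    · have : y = 0 := by ext; simp [y, h]
      simp [h, this]
      nlinarith [m.cast_nonneg (α := ℝ)]
    · simp [h]
      split_ifs <;> nlinarith [m.cast_nonneg (α := ℝ)]

lemma Zpath {ω : Ω d} (n : ℕ) (x i) (h : Z e (n + 1) x i ω ≠ 0) : (e i, false) ∈ ω x ∧
    ∃ y, (G ω).Reachable x y ∧ ∑ l, y l = ∑ l, x l + n := by
  induction n generalizing x i with
  | zero =>
    obtain ⟨j, -, hj⟩ := exists_ne_zero_of_sum_ne_zero h
    exact ⟨of_not_not fun a => hj (by simp [I, insert_subset_iff, a]), x, .refl _, by simp⟩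
  | succ n ih =>
    obtain ⟨j, -, hj⟩ := exists_ne_zero_of_sum_ne_zero h
    obtain ⟨a, y, b, c⟩ := ih _ _ (right_ne_zero_of_mul hj)
    refine ⟨of_not_not fun a => hj (by simp [I, insert_subset_iff, a]), y,
      (SimpleGraph.Adj.reachable (G := G ω) ⟨_, rfl, of_not_not fun a => hj
        (by simp [I, insert_subset_iff, a]), a⟩).trans b, by rw [c, lev]; push_cast; ring⟩

lemma Zanti {ω : Ω d} (n : ℕ) (x i) (h : Z e (n + 1) x i ω ≠ 0) : Z e n x i ω ≠ 0 := by
  induction n generalizing x i with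
  | zero => exact one_ne_zero
  | succ n ih =>
    obtain ⟨j, -, hj⟩ := exists_ne_zero_of_sum_ne_zero h
    exact fun a => mul_ne_zero (left_ne_zero_of_mul hj) (ih _ _ (right_ne_zero_of_mul hj))
      ((sum_eq_zero_iff_of_nonneg fun _ _ => mul_nonneg (I0 _ _) (Zb ..).1).1 a j (mem_univ _))

theorem upper (hd : 16 ≤ d) (hk : k ≤ 2 * d) (h : 16 * d ≤ (k - 1) ^ 2) : 0 < θ k d := by
  have := prob hk
  have : IsProbabilityMeasure (P k d) := by unfold P; infer_instance
  have h4 : 4 ≤ k := by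
    by_contra! hc
    interval_cases k <;> omega
  obtain ⟨e⟩ : Nonempty (J (d / 16) ↪ Fin d) :=
    Function.Embedding.nonempty_of_card_le (by simp; omega)
  have k4 : (4 : ℝ) ≤ k := by exact_mod_cast h4
  have kd : (k : ℝ) ≤ 2 * d := by exact_mod_cast hk
  obtain ⟨ρ, hρ⟩ : ∃ ρ : ℝ, ρ = (2 * d - 1) / (k - 1) := ⟨_, rfl⟩
  have h1 : 1 ≤ ρ := by rw [hρ, one_le_div (by linarith)]; linarith
  have hm : ρ ^ 2 ≤ 8 * (d / 16 : ℕ) := by
    have a : (d : ℝ) ≤ 32 * (d / 16 : ℕ) := by norm_cast; omega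
    have b : (16 * d : ℝ) ≤ (k - 1) ^ 2 := by
      rw [← Nat.cast_pred (by omega)]; exact_mod_cast h
    rw [hρ, div_pow, div_le_iff₀ (by nlinarith)]
    nlinarith
  let i : J (d / 16) := (fun _ => true, ⟨0, by omega⟩)
  have mz := fun n => (mZ e n 0 i le_rfl).mono cylinderEvents_le_pi le_rfl
  have ms : ∀ n, MeasurableSet {ω | Z e n 0 i ω ≠ 0} := fun n => (mz n (.singleton 0)).compl
  have lo : ∀ n, ENNReal.ofReal (1 / (4 * ρ)) ≤ P k d {ω | Z e (n + 1) 0 i ω ≠ 0} := fun n => by
    refine ENNReal.ofReal_le_of_le_toReal ?_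
    have e1 : ∀ ω, Set.indicator {ω | Z e (n + 1) 0 i ω ≠ 0} 1 ω * Z e (n + 1) 0 i ω =
      Z e (n + 1) 0 i ω := fun ω => by by_cases h : Z e (n + 1) 0 i ω = 0 <;> simp [h]
    have e2 : ∀ ω, Set.indicator {ω | Z e (n + 1) 0 i ω ≠ 0} (1 : Ω d → ℝ) ω *
      Set.indicator {ω | Z e (n + 1) 0 i ω ≠ 0} 1 ω = Set.indicator {ω | Z e (n + 1) 0 i ω ≠ 0} 1 ω :=
      fun ω => by by_cases h : Z e (n + 1) 0 i ω = 0 <;> simp [h]
    have := (GMix.cs (P := P k d) (a := Set.indicator {ω | Z e (n + 1) 0 i ω ≠ 0} 1)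
      (b := Z e (n + 1) 0 i) (by simp only [e2]; exact (integrable_const 1).indicator (ms _))
      (bdI hk ((mZ e (n + 1) 0 i le_rfl).mul (mZ e (n + 1) 0 i le_rfl)) fun ω =>
        ⟨mul_self_nonneg _, mul_self_le_mul_self (Zb ..).1 (Zb ..).2⟩)
      (by simp only [e1]; exact (mz _).aestronglyMeasurable)).2
    simp only [e1, e2, integral_indicator_one (ms _), EZ e hk (by omega : 2 ≤ k)] at this
    have b := EZZ e hk h4 hρ h1 hm (n + 1) 0 0 i i rfl
    have a0 : 0 < (16 * (d / 16 : ℕ) * p k d 2) ^ (2 * (n + 1)) := by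
      have : (0 : ℝ) < (d / 16 : ℕ) := by norm_cast; omega
      rw [p2 hk (by omega)]
      exact pow_pos (mul_pos (by positivity) (mul_pos (div_pos (by linarith) (by linarith))
        (div_pos (by linarith) (by linarith)))) _
    have c := H_zero (n + 1)
    have c' : (0 : ℝ) ≤ 1 / (4 * ((n + 1 : ℕ) + 1)) := by positivity
    simp only [and_self, if_true, sub_self] at b
    rw [← pow_mul, mul_comm (n + 1)] at this
    rw [div_le_iff₀ (by positivity), ← measureReal_def]
    refine le_of_mul_le_mul_left (((mul_one _).trans_le this).trans ((mul_le_mul_of_nonneg_left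
      (b.trans (mul_le_mul_of_nonneg_left (show _ ≤ (4 : ℝ) by
        change 1 + 2 * H (n + 1) 0 ≤ 4; linarith) (by positivity))) measureReal_nonneg).trans_eq
      (by ring))) a0
  refine (ENNReal.ofReal_pos.2 (by positivity)).trans_le ((le_iInf lo).trans ?_)
  rw [← (antitone_nat_of_succ_le (f := fun n => {ω | Z e (n + 1) 0 i ω ≠ 0}) fun n ω =>
    Zanti e _ _ _).measure_iInter (fun n => (ms _).nullMeasurableSet) ⟨0, measure_ne_top _ _⟩]
  refine measure_mono fun ω hω hf => ?_
  obtain ⟨B, hB⟩ := (hf.image fun y => ∑ l, y l).bddAbove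
  obtain ⟨y, y1, y2⟩ := (Zpath e _ _ _ (Set.mem_iInter.1 hω (B.toNat + 1))).2
  have := hB ⟨y, y1, rfl⟩
  simp at this y2; omega

end Pool.Agent.Lib.helper26.BnG
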