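import Mathlib

namespace Pool.Agent.Lib.helper26.CRate
open scoped ENNReal

variable {ι : Type*} [DecidableEq ι]

lemma step (f : Finset ι → ℝ≥0∞) (α : ℝ≥0∞)
    (h : ∀ x, f x = α * ∑' y, if x ⊆ y then f y else 0) (g G : Finset ι → ℝ≥0∞)
    (hg : ∀ y, ∑ x ∈ y.powerset, g x = G y) :
    ∑' x, f x * g x = α * ∑' y, f y * G y := by
  calc ∑' x, f x * g x = ∑' x : Finset ι, α * ∑' y : Finset ι, (if x ⊆ y then f y * g x else 0) := by
        refine tsum_congr fun x => ?_
        rw [h x, mul_assoc, ← ENNReal.tsum_mul_right]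
        congr 1
        refine tsum_congr fun y => ?_
        split_ifs <;> simp
    _ = α * ∑' y : Finset ι, ∑' x : Finset ι, (if x ⊆ y then f y * g x else 0) := by
        rw [ENNReal.tsum_mul_left, ENNReal.tsum_comm]
    _ = _ := by
        congr 1
        refine tsum_congr fun y => ?_
        rw [← hg y, Finset.mul_sum, tsum_eq_sum (s := y.powerset)]
        · refine Finset.sum_congr rfl fun x hx => ?_
          rw [if_pos (Finset.mem_powerset.1 hx)]
        · intro x hx
          rw [if_neg (fun hh => hx (Finset.mem_powerset.2 hh))]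

omit [DecidableEq ι] in
lemma sumA (y : Finset ι) (n : ℝ≥0∞) : ∑ x ∈ y.powerset, n ^ x.card = (n + 1) ^ y.card := by
  rw [← Finset.sum_pow_mul_eq_add_pow]
  simp

lemma sumB (i : ι) (y : Finset ι) (n : ℝ≥0∞) :
    ∑ x ∈ y.powerset, (if i ∈ x then n ^ (x.erase i).card else 0) =
      if i ∈ y then (n + 1) ^ (y.erase i).card else 0 := by
  split_ifs with hi
  · have hy : y = insert i (y.erase i) := (Finset.insert_erase hi).symm
    have hn : i ∉ y.erase i := Finset.notMem_erase i y
    conv_lhs => rw [hy]
    rw [Finset.sum_powerset_insert hn, ← sumA]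
    rw [Finset.sum_eq_zero, zero_add]
    · refine Finset.sum_congr rfl fun x hx => ?_
      have : i ∉ x := fun hh => hn (Finset.mem_powerset.1 hx hh)
      simp [Finset.erase_insert this]
    · intro x hx
      have : i ∉ x := fun hh => hn (Finset.mem_powerset.1 hx hh)
      simp [this]
  · refine Finset.sum_eq_zero fun x hx => ?_
    have : i ∉ x := fun hh => hi (Finset.mem_powerset.1 hx hh)
    simp [this]

theorem key (f : Finset ι → ℝ≥0∞) (α : ℝ≥0∞)
    (h : ∀ x, f x = α * ∑' y, if x ⊆ y then f y else 0) (i : ι) (n : ℕ) :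
    n * f {i} ≤ f ∅ := by
  have hA : ∀ m : ℕ, f ∅ = α ^ m * ∑' x, f x * (m : ℝ≥0∞) ^ x.card := by
    intro m
    induction m with
    | zero =>
      rw [tsum_eq_single ∅]
      · simp
      · intro x hx
        have : x.card ≠ 0 := by simpa using hx
        simp [this]
    | succ m ih =>
      rw [ih, step f α h _ _ (fun y => sumA y m), pow_succ, mul_assoc]
      push_cast
      rfl
  have hB : ∀ m : ℕ, f {i} =
      α ^ m * ∑' x, f x * (if i ∈ x then (m : ℝ≥0∞) ^ (x.erase i).card else 0) := by
    intro m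
    induction m with
    | zero =>
      rw [tsum_eq_single {i}]
      · simp
      · intro x hx
        split_ifs with hi
        · have : (x.erase i).card ≠ 0 := by
            intro h0
            apply hx
            rw [← Finset.insert_erase hi, Finset.card_eq_zero.1 h0]
            rfl
          simp only [Nat.cast_zero, zero_pow this, mul_zero]
        · simp
    | succ m ih =>
      rw [ih, step f α h _ _ (fun y => sumB i y m), pow_succ, mul_assoc]
      push_cast
      rfl
  rw [hA n, hB n, mul_left_comm, ← ENNReal.tsum_mul_left]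
  refine mul_le_mul_right (ENNReal.tsum_le_tsum fun x => ?_) _
  split_ifs with hi
  · rw [mul_left_comm, ← pow_succ', Finset.card_erase_add_one hi]
  · simp

/-- real-valued form -/
theorem no_rate (f : Finset ι → ℝ) (α : ℝ) (hf : ∀ x, 0 ≤ f x) (hs : Summable f) (hα : 0 ≤ α)
    (h : ∀ x, f x = α * ∑' y : {y : Finset ι // x ⊆ y}, f y) (i : ι) : f {i} = 0 := by
  have h' : ∀ x, ENNReal.ofReal (f x) =
      ENNReal.ofReal α * ∑' y, if x ⊆ y then ENNReal.ofReal (f y) else 0 := by
    intro x
    have hsx : Summable (fun y : {y : Finset ι // x ⊆ y} => f y) := hs.subtype {y | x ⊆ y}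
    rw [h x, ENNReal.ofReal_mul hα, ENNReal.ofReal_tsum_of_nonneg (fun y => hf _) hsx]
    congr 1
    have := tsum_subtype {y : Finset ι | x ⊆ y} (fun y => ENNReal.ofReal (f y))
    refine this.trans (tsum_congr fun y => ?_)
    simp [Set.indicator_apply]
  by_contra hne
  have hpos : 0 < f {i} := lt_of_le_of_ne (hf _) (Ne.symm hne)
  obtain ⟨n, hn⟩ := exists_nat_gt (f ∅ / f {i})
  have hk := key (fun x => ENNReal.ofReal (f x)) _ h' i n
  rw [← ENNReal.ofReal_natCast, ← ENNReal.ofReal_mul (Nat.cast_nonneg n),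
    ENNReal.ofReal_le_ofReal_iff (hf _)] at hk
  rw [div_lt_iff₀ hpos] at hn
  linarith

end Pool.Agent.Lib.helper26.CRate
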