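import Mathlib

namespace Pool.Agent.H26Car
open Finset

abbrev R : Type := Module.End ℚ (Finset ℕ → ℚ)

/-- matrix units of level `N` -/
def E (N : ℕ) (S T : Finset ℕ) : R where
  toFun f := fun U => if U ∩ range N = S then f ((U \ range N) ∪ T) else 0
  map_add' f g := by ext U; by_cases h : U ∩ range N = S <;> simp [h]
  map_smul' c f := by ext U; by_cases h : U ∩ range N = S <;> simp [h]

lemma E_apply (N : ℕ) (S T : Finset ℕ) (f : Finset ℕ → ℚ) (U : Finset ℕ) :
    E N S T f U = if U ∩ range N = S then f ((U \ range N) ∪ T) else 0 := rfl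

lemma E_mul (N : ℕ) (S T S' T' : Finset ℕ) (hT : T ⊆ range N) :
    E N S T * E N S' T' = if T = S' then E N S T' else 0 := by
  have h1 : ∀ U : Finset ℕ, ((U \ range N) ∪ T) ∩ range N = T := by
    intro U; ext x
    have := @hT x
    simp only [mem_inter, mem_union, mem_sdiff]
    tauto
  have h2 : ∀ U : Finset ℕ, ((U \ range N) ∪ T) \ range N = U \ range N := by
    intro U; ext x
    have := @hT x
    simp only [mem_union, mem_sdiff]
    tauto
  apply LinearMap.ext; intro f; funext U
  rw [Module.End.mul_apply, E_apply, E_apply, h1, h2]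
  by_cases h : T = S'
  · simp [h, E_apply]
  · simp [h]

lemma E_mul_eq (N : ℕ) (S T T' : Finset ℕ) (hT : T ⊆ range N) :
    E N S T * E N T T' = E N S T' := by rw [E_mul _ _ _ _ _ hT, if_pos rfl]

lemma E_mul_ne (N : ℕ) (S T S' T' : Finset ℕ) (hT : T ⊆ range N) (h : T ≠ S') :
    E N S T * E N S' T' = 0 := by rw [E_mul _ _ _ _ _ hT, if_neg h]

lemma E_ne_zero (N : ℕ) (S T : Finset ℕ) (hS : S ⊆ range N) : E N S T ≠ 0 := by
  intro h
  have := congrFun (LinearMap.congr_fun h (fun _ => 1)) S
  rw [E_apply, if_pos (inter_eq_left.2 hS)] at this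
  simp at this

lemma E_refine (N : ℕ) (S T : Finset ℕ) (hS : S ⊆ range N) :
    E N S T = E (N + 1) S T + E (N + 1) (insert N S) (insert N T) := by
  have hN : N ∉ S := fun h => by simpa using hS h
  apply LinearMap.ext; intro f; funext U
  simp only [LinearMap.add_apply, Pi.add_apply, E_apply]
  by_cases hU : N ∈ U
  · have e1 : U ∩ range (N + 1) = insert N (U ∩ range N) := by
      rw [range_add_one, inter_insert_of_mem hU]
    have e2 : (U \ range (N + 1)) ∪ insert N T = (U \ range N) ∪ T := by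
      ext x
      simp only [mem_union, mem_sdiff, mem_range, mem_insert]
      by_cases hx : x = N
      · subst hx; simp [hU]
      · have : x < N + 1 ↔ x < N := by omega
        simp [hx, this]
    have e3 : ¬ insert N (U ∩ range N) = S := fun h => hN (h ▸ mem_insert_self _ _)
    have e4 : insert N (U ∩ range N) = insert N S ↔ U ∩ range N = S := by
      constructor
      · intro h
        rw [← erase_insert hN, ← h, erase_insert (by simp)]
      · intro h; rw [h]
    rw [e1, e2, if_neg e3, zero_add]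
    simp only [e4]
  · have e1 : U ∩ range (N + 1) = U ∩ range N := by
      rw [range_add_one, inter_insert_of_notMem hU]
    have e2 : U \ range (N + 1) = U \ range N := by
      ext x
      simp only [mem_sdiff, mem_range]
      by_cases hx : x = N
      · subst hx; simp [hU]
      · have : x < N + 1 ↔ x < N := by omega
        simp [this]
    have e3 : ¬ U ∩ range N = insert N S := fun h => by
      have : N ∈ U ∩ range N := h ▸ mem_insert_self _ _
      simp at this
    rw [e1, e2, if_neg e3, add_zero]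

lemma sum_E (N : ℕ) : ∑ S ∈ (range N).powerset, E N S S = 1 := by
  apply LinearMap.ext; intro f; funext U
  simp only [LinearMap.sum_apply, Finset.sum_apply, E_apply, Module.End.one_apply]
  rw [sum_ite_eq, if_pos (mem_powerset.2 inter_subset_right), sdiff_union_inter]

/-- level `N`, degree at least `d` -/
def B (d N : ℕ) : Submodule ℚ R := Submodule.span ℚ
  {x | ∃ S T, S ⊆ range N ∧ T ⊆ range N ∧ T.card + d ≤ S.card ∧ x = E N S T}

lemma E_mem {d N : ℕ} {S T : Finset ℕ} (hS : S ⊆ range N) (hT : T ⊆ range N)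
    (h : T.card + d ≤ S.card) : E N S T ∈ B d N :=
  Submodule.subset_span ⟨S, T, hS, hT, h, rfl⟩

lemma B_mul {d d' N : ℕ} {x y : R} (hx : x ∈ B d N) (hy : y ∈ B d' N) : x * y ∈ B (d + d') N := by
  induction hx using Submodule.span_induction with
  | mem x hx =>
    obtain ⟨S, T, hS, hT, h, rfl⟩ := hx
    induction hy using Submodule.span_induction with
    | mem y hy =>
      obtain ⟨S', T', hS', hT', h', rfl⟩ := hy
      rw [E_mul _ _ _ _ _ hT]
      split_ifs with e
      · subst e; exact E_mem hS hT' (by omega)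
      · exact zero_mem _
    | zero => simp
    | add y z _ _ h1 h2 => rw [mul_add]; exact add_mem h1 h2
    | smul c y _ h1 => rw [mul_smul_comm]; exact Submodule.smul_mem _ _ h1
  | zero => simp
  | add y z _ _ h1 h2 => rw [add_mul]; exact add_mem h1 h2
  | smul c y _ h1 => rw [smul_mul_assoc]; exact Submodule.smul_mem _ _ h1

lemma sub_succ {N : ℕ} {S : Finset ℕ} (hS : S ⊆ range N) : S ⊆ range (N + 1) :=
  hS.trans (range_subset_range.2 (by omega))

lemma ins_succ {N : ℕ} {S : Finset ℕ} (hS : S ⊆ range N) : insert N S ⊆ range (N + 1) := by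
  rw [range_add_one]; exact insert_subset_insert _ hS

lemma card_ins {N : ℕ} {S : Finset ℕ} (hS : S ⊆ range N) : (insert N S).card = S.card + 1 :=
  card_insert_of_notMem fun h => by simpa using hS h

lemma B_mono (d : ℕ) : Monotone (B d) := by
  apply monotone_nat_of_le_succ
  intro N
  apply Submodule.span_le.2
  rintro x ⟨S, T, hS, hT, h, rfl⟩
  rw [E_refine N S T hS]
  exact add_mem (E_mem (sub_succ hS) (sub_succ hT) h)
    (E_mem (ins_succ hS) (ins_succ hT) (by rw [card_ins hS, card_ins hT]; omega))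

lemma B_anti {d d' : ℕ} (h : d ≤ d') (N : ℕ) : B d' N ≤ B d N := by
  apply Submodule.span_mono
  rintro x ⟨S, T, hS, hT, h, rfl⟩
  exact ⟨S, T, hS, hT, by omega, rfl⟩

lemma B_bot (N : ℕ) {x : R} (hx : x ∈ B (N + 1) N) : x = 0 := by
  have : B (N + 1) N ≤ ⊥ := by
    apply Submodule.span_le.2
    rintro x ⟨S, T, hS, hT, h, rfl⟩
    have := card_le_card hS
    rw [card_range] at this
    omega
  simpa using this hx

lemma peirce {N : ℕ} {x : R} (hx : x ∈ B 0 N) (S T : Finset ℕ) (hS : S ⊆ range N) :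
    ∃ c : ℚ, E N S S * x * E N T T = c • E N S T ∧ (c ≠ 0 → T.card ≤ S.card) := by
  induction hx using Submodule.span_induction with
  | mem x hx =>
    obtain ⟨S', T', hS', hT', h, rfl⟩ := hx
    by_cases e1 : S = S'
    · subst e1
      by_cases e2 : T' = T
      · subst e2
        exact ⟨1, by rw [E_mul_eq _ _ _ _ hS, E_mul_eq _ _ _ _ hT', one_smul], fun _ => by omega⟩
      · exact ⟨0, by rw [E_mul_eq _ _ _ _ hS, E_mul_ne _ _ _ _ _ hT' e2, zero_smul], by simp⟩
    · exact ⟨0, by rw [E_mul_ne _ _ _ _ _ hS e1, zero_mul, zero_smul], by simp⟩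
  | zero => exact ⟨0, by simp, by simp⟩
  | add y z _ _ h1 h2 =>
    obtain ⟨c, hc, hc'⟩ := h1
    obtain ⟨e, he, he'⟩ := h2
    refine ⟨c + e, by rw [mul_add, add_mul, hc, he, add_smul], fun h => ?_⟩
    by_cases h0 : c = 0
    · exact he' (by simpa [h0] using h)
    · exact hc' h0
  | smul c y _ h1 =>
    obtain ⟨e, he, he'⟩ := h1
    exact ⟨c * e, by rw [mul_smul_comm, smul_mul_assoc, he, mul_smul],
      fun h => he' (right_ne_zero_of_mul h)⟩

lemma decomp (N : ℕ) (x : R) : x = ∑ S ∈ (range N).powerset, ∑ T ∈ (range N).powerset,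
    E N S S * x * E N T T := by
  simp only [← mul_sum, ← sum_mul, sum_E, one_mul, mul_one]

/-- closed under the symmetrized product with the algebra -/
def JC (J : Submodule ℚ R) : Prop := ∀ x ∈ J, ∀ N, ∀ a ∈ B 0 N, x * a + a * x ∈ J

lemma of_smul {J : Submodule ℚ R} {c : ℚ} {x : R} (hc : c ≠ 0) (h : c • x ∈ J) : x ∈ J := by
  have := J.smul_mem c⁻¹ h
  rwa [smul_smul, inv_mul_cancel₀ hc, one_smul] at this

lemma JC.diag {J : Submodule ℚ R} (hJ : JC J) {N : ℕ} {S T : Finset ℕ} (hS : S ⊆ range N)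
    (hT : T ⊆ range N) (hne : S ≠ T) (h : E N S S + E N T T ∈ J) : E N S S ∈ J := by
  have := hJ _ h N _ (E_mem hS hS le_rfl)
  rw [add_mul, mul_add, E_mul_eq _ _ _ _ hS, E_mul_ne _ _ _ _ _ hT hne.symm,
    E_mul_ne _ _ _ _ _ hS hne, add_zero, ← two_smul ℚ] at this
  exact of_smul two_ne_zero this

lemma JC.unit {J : Submodule ℚ R} (hJ : JC J) {N : ℕ} {x : R} (hxJ : x ∈ J) (hx : x ∈ B 0 N)
    {S T : Finset ℕ} (hS : S ⊆ range N) (hT : T ⊆ range N) {c : ℚ} (hc : c ≠ 0)
    (hcard : T.card ≤ S.card) (h : E N S S * x * E N T T = c • E N S T) : E N S T ∈ J := by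
  have h1 := hJ _ hxJ N _ (E_mem hS hS le_rfl)
  have h2 := hJ _ h1 N _ (E_mem hT hT le_rfl)
  by_cases e : S = T
  · subst e
    have h3 := sub_mem h2 h1
    have : (x * E N S S + E N S S * x) * E N S S + E N S S * (x * E N S S + E N S S * x) -
        (x * E N S S + E N S S * x) = (2 * c) • E N S S := by
      rw [add_mul, mul_add, mul_assoc x, E_mul_eq _ _ _ _ hS, ← mul_assoc, ← mul_assoc,
        E_mul_eq _ _ _ _ hS, h, mul_smul, two_smul]
      abel
    rw [this] at h3
    exact of_smul (mul_ne_zero two_ne_zero hc) h3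
  · obtain ⟨c', hc', hcard'⟩ := peirce hx T S hT
    rw [add_mul, mul_add, mul_assoc x, E_mul_ne _ _ _ _ _ hS e, ← mul_assoc, ← mul_assoc,
      E_mul_ne _ _ _ _ _ hT (Ne.symm e), h, hc', mul_zero, zero_mul, zero_add, add_zero] at h2
    by_cases h0 : c' = 0
    · rw [h0, zero_smul, add_zero] at h2
      exact of_smul hc h2
    · have h3 := hJ _ h2 N _ (E_mem hS hT (d := 0) hcard)
      rw [add_mul, mul_add, smul_mul_assoc, smul_mul_assoc, mul_smul_comm, mul_smul_comm,
        E_mul_ne _ _ _ _ _ hT (Ne.symm e), E_mul_eq _ _ _ _ hS, E_mul_eq _ _ _ _ hT, smul_zero,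
        zero_add, zero_add, ← smul_add, add_comm] at h3
      have h4 := hJ.diag hS hT e (of_smul h0 h3)
      have h5 := hJ _ h4 N _ (E_mem hS hT (d := 0) hcard)
      rwa [E_mul_eq _ _ _ _ hS, E_mul_ne _ _ _ _ _ hT (Ne.symm e), add_zero] at h5

lemma JC.move {J : Submodule ℚ R} (hJ : JC J) {N : ℕ} {S T S' T' : Finset ℕ} (hS : S ⊆ range N)
    (hT : T ⊆ range N) (hS' : S' ⊆ range N) (hT' : T' ⊆ range N) (h1 : S.card ≤ S'.card)
    (h2 : T'.card ≤ T.card) (h : E N S T ∈ J) : E N S' T' ∈ J := by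
  have a1 : E N S T' ∈ J := by
    have := hJ _ h N _ (E_mem hT hT' (d := 0) h2)
    rw [E_mul_eq _ _ _ _ hT] at this
    by_cases e : T' = S
    · subst e
      rw [E_mul_eq _ _ _ _ hS] at this
      by_cases e' : T' = T
      · subst e'; exact h
      · exact hJ.diag hS hT e' this
    · rwa [E_mul_ne _ _ _ _ _ hT' e, add_zero] at this
  have := hJ _ a1 N _ (E_mem hS' hS (d := 0) h1)
  rw [E_mul_eq _ _ _ _ hS] at this
  by_cases e : T' = S'
  · subst e
    rw [E_mul_eq _ _ _ _ hT'] at this
    by_cases e' : T' = S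
    · subst e'; exact a1
    · exact hJ.diag hT' hS e' (by rwa [add_comm] at this)
  · rwa [E_mul_ne _ _ _ _ _ hT' e, zero_add] at this

lemma JC.succ {J : Submodule ℚ R} (hJ : JC J) {N : ℕ} {S T : Finset ℕ} (hS : S ⊆ range N)
    (hT : T ⊆ range N) (hc : T.card ≤ S.card) (h : E N S T ∈ J) :
    E (N + 1) S T ∈ J ∧ E (N + 1) (insert N S) (insert N T) ∈ J := by
  have hm : E N S T ∈ B 0 (N + 1) := B_mono 0 (Nat.le_succ N) (E_mem hS hT hc)
  have a : E (N + 1) S T ∈ J := by
    apply hJ.unit h hm (sub_succ hS) (sub_succ hT) one_ne_zero hc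
    have : S ≠ insert N S := fun e => by
      have := card_ins hS
      rw [← e] at this
      omega
    rw [E_refine N S T hS, mul_add, E_mul_eq _ _ _ _ (sub_succ hS),
      E_mul_ne _ _ _ _ _ (sub_succ hS) this, add_zero, E_mul_eq _ _ _ _ (sub_succ hT), one_smul]
  refine ⟨a, ?_⟩
  have := sub_mem h a
  rwa [E_refine N S T hS, add_sub_cancel_left] at this

/-- the units of type `(a, b, d)` -/
def P (J : Submodule ℚ R) (v : ℕ × ℕ × ℕ) : Prop :=
  E (v.1 + v.2.1 + v.2.2) (range (v.1 + v.2.2)) (range v.1) ∈ J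

lemma JC.P_mono {J : Submodule ℚ R} (hJ : JC J) {v w : ℕ × ℕ × ℕ} (hvw : v ≤ w) (h : P J v) :
    P J w := by
  obtain ⟨a, b, d⟩ := v
  obtain ⟨a', b', d'⟩ := w
  obtain ⟨h1, h2, h3⟩ : a ≤ a' ∧ b ≤ b' ∧ d ≤ d' := hvw
  have rs : ∀ {m n : ℕ}, m ≤ n → range m ⊆ range n := fun h => range_subset_range.2 h
  have step : ∀ a b d, P J (a, b, d) → P J (a + 1, b, d) ∧ P J (a, b + 1, d) ∧ P J (a, b, d + 1) := by
    intro a b d h
    obtain ⟨k1, k2⟩ := hJ.succ (rs (by simp)) (rs (by simp [add_assoc])) (by simp) h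
    simp only at k1 k2
    refine ⟨?_, ?_, ?_⟩
    · simp only [P]
      rw [show a + 1 + b + d = a + b + d + 1 by ring]
      refine hJ.move (ins_succ (rs (by omega))) (ins_succ (rs (by omega))) (rs (by omega))
        (rs (by omega)) ?_ ?_ k2
      · rw [card_ins (rs (by omega))]; simp
      · rw [card_ins (rs (by omega))]; simp
    · simp only [P]
      rw [show a + (b + 1) + d = a + b + d + 1 by ring]
      exact k1
    · simp only [P]
      rw [show a + b + (d + 1) = a + b + d + 1 by ring]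
      exact hJ.move (rs (by omega)) (rs (by omega)) (rs (by omega)) (rs (by omega)) (by simp)
        le_rfl k1
  have s1 : P J (a', b, d) := by
    induction a', h1 using Nat.le_induction with
    | base => exact h
    | succ n _ ih => exact (step _ _ _ ih).1
  have s2 : P J (a', b', d) := by
    induction b', h2 using Nat.le_induction with
    | base => exact s1
    | succ n _ ih => exact (step _ _ _ ih).2.1
  induction d', h3 using Nat.le_induction with
  | base => exact s2
  | succ n _ ih => exact (step _ _ _ ih).2.2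

lemma JC.P_iff {J : Submodule ℚ R} (hJ : JC J) {N : ℕ} {S T : Finset ℕ} (hS : S ⊆ range N)
    (hT : T ⊆ range N) (hc : T.card ≤ S.card) :
    E N S T ∈ J ↔ P J (T.card, N - S.card, S.card - T.card) := by
  have h1 := card_le_card hS
  rw [card_range] at h1
  simp only [P]
  rw [show T.card + (N - S.card) + (S.card - T.card) = N by omega,
    show T.card + (S.card - T.card) = S.card by omega]
  have r1 : range S.card ⊆ range N := range_subset_range.2 h1
  have r2 : range T.card ⊆ range N := range_subset_range.2 (by omega)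
  exact ⟨hJ.move hS hT r1 r2 (by simp) (by simp), hJ.move r1 r2 hS hT (by simp) (by simp)⟩

/-- an element lies in `K` as soon as the units of `J` do -/
lemma JC.mem_of_units {J K : Submodule ℚ R} (hJ : JC J) {N : ℕ} {x : R} (hxJ : x ∈ J)
    (hx : x ∈ B 0 N) (h : ∀ S T, S ⊆ range N → T ⊆ range N → T.card ≤ S.card → E N S T ∈ J →
      E N S T ∈ K) : x ∈ K := by
  rw [decomp N x]
  refine sum_mem fun S hS => sum_mem fun T hT => ?_
  rw [mem_powerset] at hS hT
  obtain ⟨c, hc, hc'⟩ := peirce hx S T hS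
  rw [hc]
  by_cases h0 : c = 0
  · simp [h0]
  · exact K.smul_mem _ (h S T hS hT (hc' h0) (hJ.unit hxJ hx hS hT h0 (hc' h0) hc))

theorem acc (f : ℕ → Submodule ℚ R) (hf : ∀ n, JC (f n)) (hA : ∀ n, ∀ x ∈ f n, ∃ N, x ∈ B 0 N)
    (hm : Monotone f) : ∃ N, ∀ n ≥ N, f n = f N := by
  by_contra hcon
  push Not at hcon
  have key : ∀ N, ∃ n v, N ≤ n ∧ P (f n) v ∧ ¬ P (f N) v := by
    intro N
    obtain ⟨n, hn, hne⟩ := hcon N
    by_contra h2
    push Not at h2
    apply hne
    refine le_antisymm (fun x hx => ?_) (hm hn)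
    obtain ⟨M, hM⟩ := hA n x hx
    refine (hf n).mem_of_units hx hM fun S T hS hT hc h => ?_
    rw [(hf N).P_iff hS hT hc]
    rw [(hf n).P_iff hS hT hc] at h
    exact h2 n _ hn h
  choose g v h1 h2 h3 using key
  let s : ℕ → ℕ := fun k => g^[k] 0
  have hs : ∀ k, s (k + 1) = g (s k) := fun k => Function.iterate_succ_apply' _ _ _
  have hsm : Monotone s := monotone_nat_of_le_succ fun k => by rw [hs]; exact h1 _
  obtain ⟨i, j, hij, hle⟩ := wellQuasiOrdered_le (fun k => v (s k))
  apply h3 (s j)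
  apply (hf _).P_mono hle
  have := h2 (s i)
  rw [← hs] at this
  exact hm (hsm hij) this

end Pool.Agent.H26Car
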