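import Mathlib

set_option autoImplicit false

namespace Pool.Agent.Lib.H26Dens

open Filter

/-- natural upper density: limsup of |A ∩ {1,...,N}| / N -/
noncomputable def upperDensity (A : Set ℕ) : ℝ :=
  limsup (fun N : ℕ => ((A ∩ Set.Icc 1 N).ncard : ℝ) / N) atTop

theorem ncard_le (A : Set ℕ) (N : ℕ) : (A ∩ Set.Icc 1 N).ncard ≤ N := by
  have := Set.ncard_le_ncard (Set.inter_subset_right (s := A) (t := Set.Icc 1 N))
    (Set.finite_Icc 1 N)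
  simpa using this

theorem dens_ge (S : Set ℕ) (c : ℝ)
    (h : ∀ n : ℕ, ∃ N : ℕ, n ≤ N ∧ 1 ≤ N ∧ ((S ∩ Set.Icc 1 N).ncard : ℝ) ≤ c * N) :
    1 - c ≤ upperDensity {x | x ≠ 0 ∧ x ∉ S} := by
  unfold upperDensity
  refine le_limsup_of_frequently_le ?_ ?_
  · rw [frequently_atTop]
    intro n
    obtain ⟨N, h1, h2, h3⟩ := h n
    refine ⟨N, h1, ?_⟩
    have hN : (0 : ℝ) < N := by exact_mod_cast h2
    rw [le_div_iff₀ hN]
    have e : Set.Icc 1 N ⊆ ({x | x ≠ 0 ∧ x ∉ S} ∩ Set.Icc 1 N) ∪ (S ∩ Set.Icc 1 N) := by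
      intro x hx
      by_cases hs : x ∈ S
      · exact Or.inr ⟨hs, hx⟩
      · exact Or.inl ⟨⟨by have := hx.1; omega, hs⟩, hx⟩
    have f1 : ({x | x ≠ 0 ∧ x ∉ S} ∩ Set.Icc 1 N).Finite :=
      (Set.finite_Icc 1 N).subset Set.inter_subset_right
    have f2 : (S ∩ Set.Icc 1 N).Finite := (Set.finite_Icc 1 N).subset Set.inter_subset_right
    have e2 := (Set.ncard_le_ncard e (f1.union f2)).trans (Set.ncard_union_le _ _)
    have e3 : (Set.Icc 1 N).ncard = N := by simp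
    rw [e3] at e2
    have e4 : (N : ℝ) ≤ (({x | x ≠ 0 ∧ x ∉ S} ∩ Set.Icc 1 N).ncard : ℝ) +
        ((S ∩ Set.Icc 1 N).ncard : ℝ) := by exact_mod_cast e2
    linarith
  · refine ⟨1, ?_⟩
    rw [eventually_map]
    refine Eventually.of_forall fun N => ?_
    refine div_le_one_of_le₀ ?_ (Nat.cast_nonneg _)
    exact_mod_cast ncard_le _ N

def U (a b n : ℕ) : Finset ℕ :=
  insert (a * 6 ^ n) ((Finset.range n).biUnion fun j => Finset.Ico (a * 6 ^ j) ((a + b) * 6 ^ j))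

theorem card_U (a b n : ℕ) (hb : 5 ≤ b) : 5 * (U a b n).card ≤ b * 6 ^ n := by
  have h1 : ∀ n : ℕ, 5 * (∑ j ∈ Finset.range n, b * 6 ^ j) + b = b * 6 ^ n := by
    intro n
    induction n with
    | zero => simp
    | succ n ih => rw [Finset.sum_range_succ, pow_succ]; nlinarith
  have h2 : ((Finset.range n).biUnion fun j =>
      Finset.Ico (a * 6 ^ j) ((a + b) * 6 ^ j)).card ≤ ∑ j ∈ Finset.range n, b * 6 ^ j := by
    refine Finset.card_biUnion_le.trans (le_of_eq (Finset.sum_congr rfl fun j _ => ?_))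
    rw [Nat.card_Ico, add_mul]; omega
  have h3 := Finset.card_insert_le (a * 6 ^ n) ((Finset.range n).biUnion fun j =>
      Finset.Ico (a * 6 ^ j) ((a + b) * 6 ^ j))
  have := h1 n
  unfold U
  omega

def S : Set ℕ := {x | ∃ j : ℕ, 36 * 6 ^ j ≤ x ∧ x < 78 * 6 ^ j}

theorem idx {x j n a : ℕ} (_ha : 1 ≤ a) (h1 : a * 6 ^ j ≤ x) (h2 : x ≤ a * 6 ^ n) :
    x = a * 6 ^ n ∨ j < n := by
  by_contra h
  push Not at h
  have : 6 ^ n ≤ 6 ^ j := Nat.pow_le_pow_right (by norm_num) h.2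
  have : a * 6 ^ n ≤ a * 6 ^ j := Nat.mul_le_mul_left _ this
  omega

theorem big (n : ℕ) : n ≤ 36 * 6 ^ n ∧ 1 ≤ 36 * 6 ^ n := by
  have : n < 6 ^ n := Nat.lt_pow_self (by norm_num)
  omega

theorem dens_S : 1 - 7 / 30 ≤ upperDensity {x | x ≠ 0 ∧ x ∉ S} := by
  refine dens_ge S _ fun n => ⟨36 * 6 ^ n, (big n).1, (big n).2, ?_⟩
  have hs : S ∩ Set.Icc 1 (36 * 6 ^ n) ⊆ (U 36 42 n : Set ℕ) := by
    rintro x ⟨⟨j, h1, h2⟩, -, h3⟩
    simp only [U, Finset.coe_insert, Set.mem_insert_iff, Finset.coe_biUnion, Set.mem_iUnion,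
      Finset.mem_coe, Finset.mem_range, Finset.mem_Ico]
    rcases idx (by norm_num) h1 h3 with h | h
    · exact Or.inl h
    · exact Or.inr ⟨j, h, h1, h2⟩
  have h1 := Set.ncard_le_ncard hs (Finset.finite_toSet _)
  rw [Set.ncard_coe_finset] at h1
  have h2 := card_U 36 42 n (by norm_num)
  have h3 : 5 * (S ∩ Set.Icc 1 (36 * 6 ^ n)).ncard ≤ 42 * 6 ^ n := by omega
  have h4 : (5 : ℝ) * ((S ∩ Set.Icc 1 (36 * 6 ^ n)).ncard : ℝ) ≤ 42 * 6 ^ n := by exact_mod_cast h3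
  push_cast
  linarith

theorem dens_S3 : 1 - 7 / 90 ≤ upperDensity {x | x ≠ 0 ∧ x ∉ {y | 3 ∣ y ∧ y ∈ S}} := by
  refine dens_ge _ _ fun n => ⟨36 * 6 ^ n, (big n).1, (big n).2, ?_⟩
  have hs : {y | 3 ∣ y ∧ y ∈ S} ∩ Set.Icc 1 (36 * 6 ^ n) ⊆
      (((U 12 14 n).image (fun y => 3 * y) : Finset ℕ) : Set ℕ) := by
    rintro x ⟨⟨⟨y, rfl⟩, j, h1, h2⟩, -, h3⟩
    simp only [Finset.coe_image, Set.mem_image]
    refine ⟨y, ?_, rfl⟩
    simp only [U, Finset.coe_insert, Set.mem_insert_iff, Finset.coe_biUnion, Set.mem_iUnion,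
      Finset.mem_coe, Finset.mem_range, Finset.mem_Ico]
    rcases idx (a := 12) (x := y) (j := j) (n := n) (by norm_num) (by omega) (by omega) with h | h
    · exact Or.inl h
    · exact Or.inr ⟨j, h, by omega, by omega⟩
  have h1 := Set.ncard_le_ncard hs (Finset.finite_toSet _)
  rw [Set.ncard_coe_finset] at h1
  have h2 := card_U 12 14 n (by norm_num)
  have h5 := Finset.card_image_le (s := U 12 14 n) (f := fun y => 3 * y)
  have h3 : 5 * ({y | 3 ∣ y ∧ y ∈ S} ∩ Set.Icc 1 (36 * 6 ^ n)).ncard ≤ 14 * 6 ^ n := by omega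
  have h4 : (5 : ℝ) * (({y | 3 ∣ y ∧ y ∈ S} ∩ Set.Icc 1 (36 * 6 ^ n)).ncard : ℝ) ≤ 14 * 6 ^ n := by
    exact_mod_cast h3
  push_cast
  linarith

theorem locate (b : ℕ) (hb : 36 ≤ b) : ∃ j, 36 * 6 ^ j ≤ b ∧ b < 36 * 6 ^ (j + 1) := by
  refine ⟨Nat.log 6 (b / 36), ?_, ?_⟩
  · have := Nat.pow_log_le_self 6 (x := b / 36) (by omega)
    omega
  · have := Nat.lt_pow_succ_log_self (b := 6) (by norm_num) (b / 36)
    rw [Nat.succ_eq_add_one] at this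
    omega

/-- every infinite B and shift t give a point of 2B + B + t inside S -/
theorem hit (B : Set ℕ) (hB : B.Infinite) (t : ℕ) :
    ∃ b1 ∈ B, ∃ b2 ∈ B, 2 * b1 + b2 + t ∈ S := by
  obtain ⟨c, hc⟩ := hB.nonempty
  obtain ⟨b, hb, hlt⟩ := hB.exists_gt (36 + 36 * (2 * c + t))
  obtain ⟨j, h1, h2⟩ := locate b (by omega)
  rw [pow_succ] at h2
  by_cases c1 : b < 72 * 6 ^ j
  · exact ⟨c, hc, b, hb, j, by omega, by omega⟩
  by_cases c2 : b < 108 * 6 ^ j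
  · exact ⟨b, hb, b, hb, j + 1, by rw [pow_succ]; omega, by rw [pow_succ]; omega⟩
  · exact ⟨b, hb, c, hc, j + 1, by rw [pow_succ]; omega, by rw [pow_succ]; omega⟩

theorem hit3 (B : Set ℕ) (hB : B.Infinite) :
    ∃ b1 ∈ B, ∃ b2 ∈ B, 3 ∣ 2 * b1 + b2 ∧ 2 * b1 + b2 ∈ S := by
  have : ∃ r, (B ∩ {x | x % 3 = r}).Infinite := by
    by_contra h
    push Not at h
    apply hB
    refine (((h 0).union (h 1)).union (h 2)).subset fun x hx => ?_
    have : x % 3 = 0 ∨ x % 3 = 1 ∨ x % 3 = 2 := by omega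
    rcases this with e | e | e
    · exact Or.inl (Or.inl ⟨hx, e⟩)
    · exact Or.inl (Or.inr ⟨hx, e⟩)
    · exact Or.inr ⟨hx, e⟩
  obtain ⟨r, hr⟩ := this
  obtain ⟨b1, ⟨h1, e1⟩, b2, ⟨h2, e2⟩, h⟩ := hit _ hr 0
  refine ⟨b1, h1, b2, h2, ?_, h⟩
  simp only [Set.mem_ofPred_eq] at e1 e2
  omega

end Pool.Agent.Lib.H26Dens
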