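import Mathlib

namespace Pool.Agent.Lib.helper26.Dih
open Finset Filter Topology Real
open scoped Classical Nat ENNReal

noncomputable section

/-- Poisson weights -/
def poi (s : ℝ) (j : ℕ) : ℝ := exp (-s) * s ^ j / j !

/-- entropy of the Poisson law with mean `s` -/
def H (s : ℝ) : ℝ≥0∞ := ∑' j, ENNReal.ofReal (negMulLog (poi s j))

/-- entropic time -/
def t0 (k N : ℕ) : ℝ := sInf {t | 0 ≤ t ∧ ENNReal.ofReal (log N) ≤ k * H (t / k)}

variable {G : Type} [Group G] [Fintype G] {k : ℕ}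

/-- law at time `t` of the rate-1 walk `g → g Z_i` started at the identity -/
def law (Z : Fin k → G) (t : ℝ) (g : G) : ℝ :=
  ∑' j, poi t j * (#{w : Fin j → Fin k | (List.ofFn fun i => Z (w i)).prod = g} / k ^ j)

/-- total variation distance to the uniform law -/
def d (Z : Fin k → G) (t : ℝ) : ℝ := ⨆ A : Finset G, |∑ g ∈ A, law Z t g - #A / Fintype.card G|

/-- probability of an event for independent uniform generators -/
def pr (E : (Fin k → G) → Prop) : ℝ := #{Z | E Z} / Fintype.card (Fin k → G)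

variable (G k) in
def tstar : ℝ := max (t0 k (Nat.card (Abelianization G))) (log (Fintype.card G) / log k)

/-- cutoff whp at times `t` -/
def Cutoff (G : ℕ → Type) [∀ a, Group (G a)] [∀ a, Fintype (G a)] (k : ℕ → ℕ) (t : ℕ → ℝ) : Prop :=
  ∀ ε, 0 < ε → ε < 1 → ∀ δ > 0,
    Tendsto (fun a => pr fun Z : Fin (k a) → G a => δ ≤ |d Z ((1 - ε) * t a) - 1|) atTop (𝓝 0) ∧
    Tendsto (fun a => pr fun Z : Fin (k a) → G a => δ ≤ |d Z ((1 + ε) * t a)|) atTop (𝓝 0)

lemma hs (t : ℝ) : HasSum (poi t) 1 := by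
  convert! (NormedSpace.expSeries_div_hasSum_exp t).mul_left (exp (-t)) using 1
  · ext j; simp [poi, mul_div_assoc]
  · rw [← exp_eq_exp_ℝ, ← exp_add]; simp

lemma hs' (t : ℝ) : HasSum (fun j => j * poi t j) t := by
  rw [← hasSum_nat_add_iff' 1]
  have e : ∀ j : ℕ, ((j + 1 : ℕ) : ℝ) * poi t (j + 1) = t * poi t j := fun j => by
    simp only [poi, Nat.factorial_succ]; push_cast; field_simp; ring
  simpa [-Nat.cast_add, e] using (hs t).mul_left t

lemma lower (Z : Fin k → G) (hk : 0 < k) {t : ℝ} (ht : 0 ≤ t) {T : ℕ} (hT : 0 < T) (B : Finset G)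
    (hB : ∀ j ≤ T, ∀ w : Fin j → Fin k, (List.ofFn fun i => Z (w i)).prod ∈ B) :
    1 - t / T - #B / Fintype.card G ≤ d Z t := by
  have p0 : ∀ j, 0 ≤ poi t j := fun j => by unfold poi; positivity
  have kj : ∀ j, (0 : ℝ) < k ^ j := fun j => by positivity
  have sm : ∀ g, Summable fun j => poi t j *
      ((#{w : Fin j → Fin k | (List.ofFn fun i => Z (w i)).prod = g} : ℝ) / k ^ j) := fun g =>
    .of_nonneg_of_le (fun j => by have := p0 j; positivity) (fun j => mul_le_of_le_one_right (p0 j)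
      ((div_le_one (kj j)).2 (by exact_mod_cast (card_le_univ _).trans_eq (by simp)))) (hs t).summable
  refine le_trans ?_ (le_ciSup (f := fun A : Finset G => |∑ g ∈ A, law Z t g - #A / Fintype.card G|)
    (Finite.bddAbove_range _) B)
  refine le_trans (sub_le_sub_right ?_ _) (le_abs_self _)
  refine hasSum_le (fun j => ?_) ((hs t).sub ((hs' t).div_const T))
    (hasSum_sum fun g _ => (sm g).hasSum)
  rw [← mul_sum, ← sum_div, ← Nat.cast_sum, sum_card_fiberwise_eq_card_filter univ B
    fun w : Fin j → Fin k => (List.ofFn fun i => Z (w i)).prod]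
  have T0 : (0 : ℝ) < T := by positivity
  rcases le_total j T with h | h
  · rw [filter_true_of_mem fun w _ => hB j h w]
    simp only [card_univ, Fintype.card_pi, Fintype.card_fin, prod_const, Nat.cast_pow,
      div_self (kj j).ne', mul_one, sub_le_self_iff]
    have := p0 j; positivity
  · refine le_trans (sub_nonpos.2 ?_) (by have := p0 j; positivity)
    rw [le_div_iff₀ T0, mul_comm]; gcongr; exact p0 j

open DihedralGroup

def X {n : ℕ} : DihedralGroup n → ZMod n
  | r i => i
  | sr i => i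

def val {n : ℕ} (Z : Fin k → DihedralGroup n) : Option (Fin k × Bool) → ZMod n
  | none => 0
  | some (i, b) => if b then X (Z i) else -X (Z i)

lemma reach {n : ℕ} (Z : Fin k → DihedralGroup n) (T : ℕ) : ∀ j ≤ T, ∀ w : Fin j → Fin k,
    ∃ M : Multiset (Option (Fin k × Bool)), M.card = T ∧
      X (List.ofFn fun i => Z (w i)).prod = (M.map (val Z)).sum := by
  induction T with
  | zero => intro j hj w; obtain rfl := Nat.le_zero.1 hj; exact ⟨0, rfl, rfl⟩
  | succ T ih =>
    intro j hj w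
    rcases Nat.of_le_succ hj with h | rfl
    · obtain ⟨M, h1, h2⟩ := ih j h w
      exact ⟨none ::ₘ M, by simp [h1], by simp [h2, val]⟩
    obtain ⟨M, h1, h2⟩ := ih T le_rfl fun i => w i.castSucc
    have hn : ((M.map (Option.map (Prod.map id not))).map (val Z)).sum = -(M.map (val Z)).sum := by
      rw [Multiset.map_map, ← Multiset.sum_map_neg]
      congr 2; ext x; rcases x with _ | ⟨i, _ | _⟩ <;> simp [val]
    rw [List.ofFn_succ', List.prod_concat]
    rcases e : Z (w (Fin.last T)) with x | x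
    · refine ⟨some (w (Fin.last T), true) ::ₘ M, by simp [h1], ?_⟩
      rw [Multiset.map_cons, Multiset.sum_cons, ← h2]
      rcases (List.ofFn fun i : Fin T => Z (w i.castSucc)).prod with y | y <;>
        simp [val, e, X, add_comm]
    · refine ⟨some (w (Fin.last T), true) ::ₘ M.map (Option.map (Prod.map id not)), by simp [h1], ?_⟩
      rw [Multiset.map_cons, Multiset.sum_cons, hn, ← h2]
      rcases (List.ofFn fun i : Fin T => Z (w i.castSucc)).prod with y | y <;>
        simp [val, e, X, sub_eq_add_neg]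

lemma small {n : ℕ} [NeZero n] (Z : Fin k → DihedralGroup n) (T : ℕ) : ∃ B : Finset (DihedralGroup n),
    #B ≤ 2 * (2 * k + T).choose T ∧
    ∀ j ≤ T, ∀ w : Fin j → Fin k, (List.ofFn fun i => Z (w i)).prod ∈ B := by
  refine ⟨univ.image fun p : Bool × Sym (Option (Fin k × Bool)) T =>
    (if p.1 then r else sr) (p.2.1.map (val Z)).sum, card_image_le.trans_eq ?_, fun j hj w => ?_⟩
  · rw [card_univ, Fintype.card_prod, Sym.card_sym_eq_choose]
    simp [mul_comm, add_right_comm]
  · obtain ⟨M, h1, h2⟩ := reach Z T j hj w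
    generalize (List.ofFn fun i => Z (w i)).prod = g at h2
    rcases g with x | x
    exacts [mem_image.2 ⟨(true, ⟨M, h1⟩), mem_univ _, by simp [← h2, X]⟩,
      mem_image.2 ⟨(false, ⟨M, h1⟩), mem_univ _, by simp [← h2, X]⟩]

lemma ab (n : ℕ) [NeZero n] : Nat.card (Abelianization (DihedralGroup n)) ≤ 4 := by
  have h : ∀ y : ZMod n, Abelianization.of (r (y + y)) = 1 := fun y => by
    rw [show r (y + y) = r y * sr 0 * (r y)⁻¹ * (sr 0)⁻¹ by simp]
    simp only [map_mul, map_inv]; rw [mul_inv_cancel_comm, mul_inv_cancel]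
  have e : ∀ x : ZMod n, ∃ (y : ZMod n) (b : Fin 2), x = (b : ℕ) + (y + y) := fun x =>
    ⟨(x.val / 2 : ℕ), ⟨x.val % 2, Nat.mod_lt _ two_pos⟩, by
      rw [← two_mul]; exact_mod_cast by rw [Nat.mod_add_div, ZMod.natCast_zmod_val]⟩
  refine (Nat.card_le_card_of_surjective (fun p : Bool × Fin 2 => Abelianization.of
    ((if p.1 then r else sr) ((p.2 : ℕ) : ZMod n) : DihedralGroup n)) fun a => ?_).trans_eq (by simp)
  obtain ⟨x | x, rfl⟩ := Quotient.exists_rep a <;> obtain ⟨y, b, rfl⟩ := e x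
  · exact ⟨(true, b), by
      change _ = Abelianization.of _; rw [← r_mul_r, map_mul, h, mul_one]; rfl⟩
  · exact ⟨(false, b), by
      change _ = Abelianization.of _; rw [← sr_mul_r, map_mul, h, mul_one]; rfl⟩

lemma t0_le {N : ℕ} (hN : N ≤ 4) (hk : 16 ≤ k) : t0 k N ≤ 8 := by
  refine csInf_le ⟨0, fun _ h => h.1⟩ ⟨by norm_num, ?_⟩
  have k0 : (16 : ℝ) ≤ k := by exact_mod_cast hk
  refine le_trans ?_ (mul_le_mul_right (ENNReal.le_tsum 0) _)
  rw [← ENNReal.ofReal_natCast, ← ENNReal.ofReal_mul (by positivity)]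
  refine ENNReal.ofReal_le_ofReal ?_
  have h1 : log N ≤ 4 := (log_le_self (by positivity)).trans (by exact_mod_cast hN)
  have h2 := add_one_le_exp (-(8 / k : ℝ))
  have h3 : (8 / k : ℝ) ≤ 1 / 2 := by rw [div_le_iff₀ (by positivity)]; linarith
  have h4 : k * negMulLog (poi (8 / k) 0) = 8 * exp (-(8 / k)) := by
    simp [poi, negMulLog]; field_simp
  linarith

/-- dihedral groups of order `2 ^ (5 a 16 ^ a)`, `a ≥ 1` -/
abbrev D (a : ℕ) := DihedralGroup (2 ^ (5 * (a + 1) * 16 ^ (a + 1) - 1))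
def K (a : ℕ) : ℕ := 32 ^ (a + 1)

lemma cardD (a : ℕ) : Fintype.card (D a) = 2 ^ (5 * (a + 1) * 16 ^ (a + 1)) := by
  rw [DihedralGroup.card, ← pow_succ', Nat.sub_add_cancel (Nat.succ_le_of_lt (by positivity))]

lemma logD (a : ℕ) : log (Fintype.card (D a)) = 16 ^ (a + 1) * log (K a) := by
  rw [cardD, K, show 32 = 2 ^ 5 from rfl, ← pow_mul]; push_cast; simp only [log_pow]; push_cast; ring

lemma logK (a : ℕ) : log (K a) = (a + 1) * log 32 := by simp [K]

lemma far {a : ℕ} (ha : 4 ≤ a) (Z : Fin (K a) → D a) :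
    1 / 4 ≤ d Z ((1 + 1 / 2) * tstar (D a) (K a)) := by
  have l0 : 0 < log (K a) := by rw [logK]; have := log_pos (show (1 : ℝ) < 32 by norm_num); positivity
  have L16 : 16 ≤ 16 ^ (a + 1) := Nat.le_self_pow (by omega) _
  have e : tstar (D a) (K a) = (16 ^ (a + 1) : ℕ) := by
    rw [tstar, logD, mul_div_cancel_right₀ _ l0.ne', max_eq_right ((t0_le (k := K a) (ab _)
      (le_trans (by norm_num) (Nat.le_self_pow (n := a + 1) (by omega) 32))).trans ?_)]
    · simp
    · exact_mod_cast le_trans (by norm_num) L16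
  have eK : K a = 2 ^ (a + 1) * 16 ^ (a + 1) := by rw [K, ← mul_pow]; rfl
  obtain ⟨B, h1, h2⟩ := small Z (3 * 16 ^ (a + 1))
  refine le_trans ?_ (lower Z (by rw [eK]; positivity) (by rw [e]; positivity) (by positivity) B h2)
  rw [e, cardD]
  clear h2 e
  generalize #B = b at *
  generalize 16 ^ (a + 1) = L at *
  have L0 : (0 : ℝ) < L := by exact_mod_cast lt_of_lt_of_le (by norm_num) L16
  have c1 : ((2 * K a + 3 * L).choose (3 * L) : ℝ) ≤ (2 ^ (a + 3)) ^ (3 * L) := by
    have b1 := pow_div_factorial_le_exp (x := (3 * L : ℕ)) (by positivity) (3 * L)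
    have b2 : exp (3 * L : ℕ) ≤ 4 ^ (3 * L) := by
      rw [← exp_one_pow]; gcongr; linarith [exp_one_lt_d9]
    have b3 : ((2 * K a + 3 * L : ℕ) : ℝ) ≤ 2 ^ (a + 1) * (3 * L : ℕ) := by
      have : (2 : ℝ) ^ 2 ≤ 2 ^ (a + 1) := by gcongr <;> [norm_num; omega]
      rw [eK]; push_cast; nlinarith
    refine (Nat.choose_le_pow_div _ _).trans ?_
    calc _ ≤ (2 ^ (a + 1) * (3 * L : ℕ) : ℝ) ^ (3 * L) / (3 * L)! := by
          gcongr
      _ ≤ (2 ^ (a + 1)) ^ (3 * L) * 4 ^ (3 * L) := by
          rw [mul_pow, mul_div_assoc]; gcongr; exact b1.trans b2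
      _ = _ := by rw [← mul_pow]; congr 1; ring
  have c2 : (b : ℝ) / (2 ^ (5 * (a + 1) * L) : ℕ) ≤ 1 / 4 := by
    rw [div_le_iff₀ (by positivity)]
    have : (2 : ℝ) ^ (3 + (a + 3) * (3 * L)) ≤ 2 ^ (5 * (a + 1) * L) := by
      gcongr <;> [norm_num; nlinarith]
    have h1 : (b : ℝ) ≤ 2 * (2 * K a + 3 * L).choose (3 * L) := by exact_mod_cast h1
    rw [pow_add, pow_mul] at this; push_cast; linarith
  have c3 : (1 + 1 / 2) * (L : ℝ) / (3 * L : ℕ) = 1 / 2 := by push_cast; field_simp; norm_num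
  linarith

lemma nil (a : ℕ) : Group.IsNilpotent (D a) :=
  (IsPGroup.of_card (p := 2) (Nat.card_eq_fintype_card.trans (cardD a))).isNilpotent

lemma not_cutoff : ¬ Cutoff D K fun a => tstar (D a) (K a) := fun h => by
  have := ge_of_tendsto (h (1 / 2) (by norm_num) (by norm_num) (1 / 4) (by norm_num)).2 (b := 1)
    ((eventually_ge_atTop 4).mono fun a ha => by
      rw [pr, filter_true_of_mem fun Z _ => (far ha Z).trans (le_abs_self _), card_univ,
        div_self (by positivity)])
  norm_num at this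

lemma tK : Tendsto (fun a => log (K a)) atTop atTop := by
  simp only [logK]
  exact (tendsto_atTop_add_const_right _ _ tendsto_natCast_atTop_atTop).atTop_mul_const
    (log_pos (by norm_num))

lemma tcard : Tendsto (fun a => Fintype.card (D a)) atTop atTop :=
  tendsto_atTop_mono (fun a => by
    rw [cardD]
    exact Nat.lt_two_pow_self.le.trans (Nat.pow_le_pow_right two_pos
      (by have := Nat.one_le_pow (a + 1) 16 (by norm_num); change a ≤ _; nlinarith))) tendsto_id

lemma tKD : Tendsto (fun a => log (K a) / log (Fintype.card (D a))) atTop (𝓝 0) := by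
  refine (((tendsto_add_atTop_iff_nat 1).2 (tendsto_pow_atTop_atTop_of_one_lt
    (r := (16 : ℝ)) (by norm_num))).inv_tendsto_atTop).congr' ?_
  filter_upwards [tK.eventually_gt_atTop 0] with a ha
  rw [logD]; simp only [Pi.inv_apply]; field_simp

lemma tDK : Tendsto (fun a => log (Fintype.card (D a)) / K a) atTop (𝓝 0) := by
  have := ((tendsto_add_atTop_iff_nat 1).2 (tendsto_pow_const_div_const_pow_of_one_lt 1
    (r := (2 : ℝ)) (by norm_num))).mul_const (log 32)
  rw [zero_mul] at this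
  refine this.congr fun a => ?_
  rw [logD, logK, K, show 32 = 2 * 16 from rfl, mul_pow]; push_cast; field_simp

end

end Pool.Agent.Lib.helper26.Dih
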