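import Mathlib

namespace Pool.Agent.H26Div
open Finset

abbrev Γ : Type := Lex (ℕ →₀ ℤ)
abbrev G : Type := ℕ →₀ ZMod 2
abbrev R0 : Type := Module.End ℚ (G → ℚ)
def R : Type := R0
noncomputable instance : Ring R := inferInstanceAs (Ring R0)
noncomputable instance : Algebra ℚ R := inferInstanceAs (Algebra ℚ R0)
abbrev H : Type := HahnSeries Γ R
abbrev F : Type := HahnSeries Γ ℚ

def sg (x : ZMod 2) : ℚ := if x = 0 then 1 else -1

lemma sg_add (x y : ZMod 2) : sg (x + y) = sg x * sg y := by
  revert x y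
  have : ∀ x : ZMod 2, x = 0 ∨ x = 1 := by decide
  intro x y
  have h11 : (1 + 1 : ZMod 2) = 0 := by decide
  rcases this x with rfl | rfl <;> rcases this y with rfl | rfl <;> simp [sg, h11]

lemma sg_ne (x : ZMod 2) : sg x ≠ 0 := by unfold sg; split_ifs <;> norm_num

lemma sg_zero : sg 0 = 1 := by simp [sg]
lemma sg_one : sg 1 = -1 := by simp [sg]

noncomputable def B (p q : G) : ZMod 2 := q.sum fun j y => y * ∑ i ∈ range j, p i

lemma B_add_right (p q r : G) : B p (q + r) = B p q + B p r := by
  unfold B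
  rw [Finsupp.sum_add_index'] <;> simp [add_mul]

lemma B_add_left (p q r : G) : B (p + q) r = B p r + B q r := by
  unfold B
  simp only [Finsupp.add_apply, sum_add_distrib, mul_add]
  exact Finsupp.sum_add

lemma B_zero_left (q : G) : B 0 q = 0 := by simp [B]

lemma B_single (p : G) (j : ℕ) (y : ZMod 2) :
    B p (Finsupp.single j y) = y * ∑ i ∈ range j, p i := by
  unfold B
  rw [Finsupp.sum_single_index]
  simp

noncomputable def U0 (p : G) : R0 where
  toFun f := fun q => sg (B p q) * f (q + p)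
  map_add' f g := by ext q; simp [mul_add]
  map_smul' c f := by ext q; simp; ring

lemma U_apply (p : G) (f : G → ℚ) (q : G) : U0 p f q = sg (B p q) * f (q + p) := rfl

noncomputable def U (p : G) : R := U0 p

lemma U_mul (p q : G) : U p * U q = sg (B q p) • U (p + q) := by
  change U0 p * U0 q = sg (B q p) • U0 (p + q)
  apply LinearMap.ext; intro f; funext r
  simp only [Module.End.mul_apply, U_apply, LinearMap.smul_apply, Pi.smul_apply, smul_eq_mul,
    B_add_left, B_add_right, sg_add, add_assoc]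
  ring

lemma U_zero : U 0 = 1 := by
  change U0 0 = 1
  apply LinearMap.ext; intro f; funext r
  simp [U_apply, B_zero_left, sg_zero]

lemma U_ne (p : G) : U p ≠ 0 := by
  intro h
  change U0 p = 0 at h
  have := congrFun (LinearMap.congr_fun h (fun _ => 1)) 0
  simp [U_apply, sg_ne] at this

noncomputable def par : Γ →+ G :=
  AddMonoidHom.mk' (fun a => (ofLex a).mapRange (fun x : ℤ => (x : ZMod 2)) (by simp))
    (fun a b => by ext i; simp)

lemma par_apply (a : Γ) (i : ℕ) : par a i = ((ofLex a) i : ZMod 2) := rfl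

noncomputable def dbl : Γ →+ Γ := AddMonoidHom.mk' (fun a => a + a) (fun a b => by abel)

lemma dbl_apply (a : Γ) : dbl a = a + a := rfl

lemma dbl_le (a b : Γ) : dbl a ≤ dbl b ↔ a ≤ b := by
  rw [dbl_apply, dbl_apply]
  constructor
  · intro h
    by_contra hc
    push Not at hc
    exact absurd (add_lt_add hc hc) (not_lt.2 h)
  · intro h; exact add_le_add h h

lemma dbl_inj : Function.Injective dbl := fun a b h =>
  le_antisymm ((dbl_le a b).1 h.le) ((dbl_le b a).1 h.ge)

lemma par_dbl (a : Γ) : par (dbl a) = 0 := by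
  rw [dbl_apply, map_add]
  ext i
  simp [CharTwo.add_self_eq_zero]

/-- coefficientwise ring homomorphism -/
noncomputable def mapH {S T : Type} [Ring S] [Ring T] (f : S →+* T) :
    HahnSeries Γ S →+* HahnSeries Γ T where
  toFun x := x.map f
  map_one' := HahnSeries.map_one f.toMonoidWithZeroHom
  map_mul' _ _ := HahnSeries.map_mul f.toNonUnitalRingHom
  map_zero' := by ext; simp
  map_add' _ _ := HahnSeries.map_add f.toAddMonoidHom

lemma mapH_coeff {S T : Type} [Ring S] [Ring T] (f : S →+* T) (x : HahnSeries Γ S) (a : Γ) :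
    (mapH f x).coeff a = f (x.coeff a) := rfl

noncomputable def iota : F →+* H :=
  (HahnSeries.embDomainRingHom dbl dbl_inj dbl_le).comp (mapH (algebraMap ℚ R))

lemma iota_dbl (c : F) (a : Γ) : (iota c).coeff (dbl a) = c.coeff a • (1 : R) := by
  have : (iota c).coeff (dbl a) = (mapH (algebraMap ℚ R) c).coeff a :=
    HahnSeries.embDomain_mk_coeff dbl_inj dbl_le
  rw [this, mapH_coeff, Algebra.algebraMap_eq_smul_one]

lemma iota_not (c : F) (a : Γ) (h : ∀ b, dbl b ≠ a) : (iota c).coeff a = 0 :=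
  HahnSeries.embDomain_of_notMem_range (fun ⟨b, hb⟩ => h b hb)

lemma iota_scalar (c : F) (a : Γ) : ∃ r : ℚ, (iota c).coeff a = r • (1 : R) ∧
    (iota c).coeff a = r • U (par a) := by
  by_cases h : ∃ b, dbl b = a
  · obtain ⟨b, rfl⟩ := h
    exact ⟨_, iota_dbl c b, by rw [iota_dbl, par_dbl, U_zero]⟩
  · push Not at h
    exact ⟨0, by rw [iota_not c a h, zero_smul], by rw [iota_not c a h, zero_smul]⟩

lemma iota_comm (c : F) (x : H) : iota c * x = x * iota c := by
  ext1
  funext a
  simp_rw [HahnSeries.coeff_mul]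
  refine Finset.sum_equiv (Equiv.prodComm _ _) (fun _ => swap_mem_antidiagonal.symm) ?_
  intro ij _
  obtain ⟨r, hr, -⟩ := iota_scalar c ij.1
  simp [hr]

noncomputable instance algFH : Algebra F H := iota.toAlgebra' iota_comm

lemma smul_H (c : F) (x : H) : c • x = iota c * x := rfl

noncomputable def mon (a : Γ) : H := HahnSeries.single a (U (par a))

lemma iota_single (a : Γ) (r : ℚ) :
    iota (HahnSeries.single a r) = HahnSeries.single (dbl a) (r • (1 : R)) := by
  ext1
  funext b
  by_cases h : ∃ c, dbl c = b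
  · obtain ⟨c, rfl⟩ := h
    rw [iota_dbl]
    by_cases e : c = a
    · subst e; simp
    · rw [HahnSeries.coeff_single_of_ne e, HahnSeries.coeff_single_of_ne (dbl_inj.ne e), zero_smul]
  · push Not at h
    rw [iota_not _ _ h, HahnSeries.coeff_single_of_ne (h a).symm]

lemma smul_mon (c : Γ) (r : ℚ) (a : Γ) : (HahnSeries.single c r : F) • mon a =
    HahnSeries.single (dbl c + a) (r • U (par a)) := by
  rw [smul_H, iota_single, mon, HahnSeries.single_mul_single, smul_mul_assoc, one_mul]

lemma mon_mul (a b : Γ) :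
    mon a * mon b = (HahnSeries.single 0 (sg (B (par b) (par a))) : F) • mon (a + b) := by
  rw [smul_mon, mon, mon, HahnSeries.single_mul_single, U_mul, map_zero, zero_add, map_add]

lemma mon_zero : mon 0 = 1 := by rw [mon, map_zero, U_zero]; rfl

lemma mon_dbl (c a : Γ) : mon (dbl c + a) = (HahnSeries.single c 1 : F) • mon a := by
  rw [smul_mon, mon, map_add, par_dbl, zero_add, one_smul]

def Gr (x : H) : Prop := ∀ a, ∃ c : ℚ, x.coeff a = c • U (par a)

lemma Gr.add {x y : H} (hx : Gr x) (hy : Gr y) : Gr (x + y) := fun a => by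
  obtain ⟨c, hc⟩ := hx a
  obtain ⟨d, hd⟩ := hy a
  exact ⟨c + d, by rw [HahnSeries.coeff_add, hc, hd, add_smul]⟩

lemma Gr.mul {x y : H} (hx : Gr x) (hy : Gr y) : Gr (x * y) := fun a => by
  have : (x * y).coeff a ∈ Submodule.span ℚ {U (par a)} := by
    rw [HahnSeries.coeff_mul]
    refine Submodule.sum_mem _ fun ij hij => ?_
    obtain ⟨c, hc⟩ := hx ij.1
    obtain ⟨d, hd⟩ := hy ij.2
    rw [hc, hd, smul_mul_assoc, mul_smul_comm, U_mul, ← map_add, add_comm,
      add_comm ij.2, (mem_antidiagonal.1 hij).2.2]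
    exact Submodule.smul_mem _ _ (Submodule.smul_mem _ _ (Submodule.smul_mem _ _
      (Submodule.mem_span_singleton_self _)))
  obtain ⟨c, hc⟩ := Submodule.mem_span_singleton.1 this
  exact ⟨c, hc.symm⟩

lemma Gr_iota (c : F) : Gr (iota c) := fun a => by
  obtain ⟨r, -, hr⟩ := iota_scalar c a
  exact ⟨r, hr⟩

lemma Gr_mon (a : Γ) : Gr (mon a) := fun b => by
  by_cases e : b = a
  · subst e; exact ⟨1, by simp [mon]⟩
  · exact ⟨0, by rw [mon, HahnSeries.coeff_single_of_ne e, zero_smul]⟩

lemma Gr.mul_ne {x y : H} (hx : Gr x) (hy : Gr y) (h1 : x ≠ 0) (h2 : y ≠ 0) : x * y ≠ 0 := by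
  have k1 := HahnSeries.leadingCoeff_ne_zero.2 h1
  have k2 := HahnSeries.leadingCoeff_ne_zero.2 h2
  have : x.leadingCoeff * y.leadingCoeff ≠ 0 := by
    rw [HahnSeries.leadingCoeff_eq] at k1 k2 ⊢
    rw [HahnSeries.leadingCoeff_eq]
    obtain ⟨c, hc⟩ := hx x.order
    obtain ⟨d, hd⟩ := hy y.order
    rw [hc] at k1
    rw [hd] at k2
    rw [hc, hd, smul_mul_assoc, mul_smul_comm, U_mul]
    exact smul_ne_zero (left_ne_zero_of_smul k1)
      (smul_ne_zero (left_ne_zero_of_smul k2) (smul_ne_zero (sg_ne _) (U_ne _)))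
  rw [← HahnSeries.leadingCoeff_ne_zero, HahnSeries.leadingCoeff_mul_of_ne_zero this]
  exact this

def Low (n : ℕ) (a : Γ) : Prop := ∀ i, n ≤ i → ofLex a i = 0

noncomputable def W (n : ℕ) : Submodule F H := Submodule.span F (mon '' {a | Low n a})

lemma mon_mem {n : ℕ} {a : Γ} (h : Low n a) : mon a ∈ W n := Submodule.subset_span ⟨a, h, rfl⟩

lemma W_one (n : ℕ) : (1 : H) ∈ W n := mon_zero ▸ mon_mem (fun _ _ => rfl)

lemma W_mul {n : ℕ} {x y : H} (hx : x ∈ W n) (hy : y ∈ W n) : x * y ∈ W n := by
  induction hx using Submodule.span_induction with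
  | mem x hx =>
    obtain ⟨a, ha, rfl⟩ := hx
    induction hy using Submodule.span_induction with
    | mem y hy =>
      obtain ⟨b, hb, rfl⟩ := hy
      rw [mon_mul]
      exact Submodule.smul_mem _ _ (mon_mem fun i hi => by simp [ha i hi, hb i hi])
    | zero => simp
    | add y z _ _ h1 h2 => rw [mul_add]; exact add_mem h1 h2
    | smul c y _ h1 => rw [mul_smul_comm]; exact Submodule.smul_mem _ _ h1
  | zero => simp
  | add y z _ _ h1 h2 => rw [add_mul]; exact add_mem h1 h2
  | smul c y _ h1 => rw [smul_mul_assoc]; exact Submodule.smul_mem _ _ h1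

lemma W_mono : Monotone W := fun _ _ h =>
  Submodule.span_mono (Set.image_mono fun _ ha i hi => ha i (h.trans hi))

lemma W_Gr {n : ℕ} {x : H} (hx : x ∈ W n) : Gr x := by
  induction hx using Submodule.span_induction with
  | mem x hx => obtain ⟨a, -, rfl⟩ := hx; exact Gr_mon a
  | zero => exact fun a => ⟨0, by simp⟩
  | add y z _ _ h1 h2 => exact h1.add h2
  | smul c y _ h1 => exact (Gr_iota c).mul h1

lemma W_fg (n : ℕ) : (W n).FG := by
  have hfin : {a : Γ | Low n a ∧ ∀ i, ofLex a i = 0 ∨ ofLex a i = 1}.Finite := by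
    apply Set.Finite.of_finite_image (f := fun (a : Γ) (i : Fin n) => decide (ofLex a i = 0))
      (Set.toFinite _)
    intro a ha b hb hab
    apply ofLex.injective
    ext i
    by_cases hi : i < n
    · have := congrFun hab ⟨i, hi⟩
      simp only [decide_eq_decide] at this
      rcases ha.2 i with h1 | h1 <;> rcases hb.2 i with h2 | h2 <;> simp_all
    · rw [ha.1 i (by omega), hb.1 i (by omega)]
  refine Submodule.fg_def.2 ⟨_, hfin.image mon, le_antisymm
    (Submodule.span_mono (Set.image_mono fun _ h => h.1)) (Submodule.span_le.2 ?_)⟩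
  rintro _ ⟨a, ha, rfl⟩
  have e : a = dbl (toLex ((ofLex a).mapRange (· / 2) (by simp))) +
      toLex ((ofLex a).mapRange (· % 2) (by simp)) := by
    apply ofLex.injective
    ext i
    simp [dbl_apply]
    omega
  rw [e, mon_dbl]
  refine Submodule.smul_mem _ _ (Submodule.subset_span ⟨_, ⟨fun i hi => ?_, fun i => ?_⟩, rfl⟩)
  · simp [ha i hi]
  · simp; omega

/-- the division algebra -/
noncomputable def D : Subalgebra F H where
  carrier := {x | ∃ n, x ∈ W n}
  mul_mem' := by
    rintro x y ⟨n, hn⟩ ⟨m, hm⟩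
    exact ⟨max n m, W_mul (W_mono (le_max_left n m) hn) (W_mono (le_max_right n m) hm)⟩
  add_mem' := by
    rintro x y ⟨n, hn⟩ ⟨m, hm⟩
    exact ⟨max n m, add_mem (W_mono (le_max_left n m) hn) (W_mono (le_max_right n m) hm)⟩
  algebraMap_mem' := fun c =>
    ⟨0, by rw [Algebra.algebraMap_eq_smul_one]; exact Submodule.smul_mem _ _ (W_one 0)⟩

instance : Nontrivial R := ⟨⟨U 0, 0, U_ne 0⟩⟩

instance : NoZeroDivisors D := ⟨fun {x y} h => by
  by_contra hc
  push Not at hc
  obtain ⟨n, hn⟩ := x.2
  obtain ⟨m, hm⟩ := y.2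
  exact (W_Gr hn).mul_ne (W_Gr hm) (fun e => hc.1 (Subtype.ext e)) (fun e => hc.2 (Subtype.ext e))
    (congrArg Subtype.val h)⟩

instance : IsDomain D := NoZeroDivisors.to_isDomain _

lemma D_integral (x : D) : IsIntegral F x := by
  obtain ⟨n, hn⟩ := x.2
  have := IsIntegral.of_mem_of_fg ((W n).toSubalgebra (W_one n) (fun _ _ => W_mul)) (W_fg n) x hn
  exact (isIntegral_algHom_iff D.val Subtype.val_injective).1 this

lemma D_unit (x : D) : IsUnit x ∨ x = 0 := by
  by_cases h : x = 0
  · exact Or.inr h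
  · exact Or.inl ((D_integral x).isUnit h)

lemma mon_mem_D (a : Γ) : mon a ∈ D := by
  refine ⟨(ofLex a).support.sup id + 1, mon_mem fun i hi => ?_⟩
  by_contra h
  have := Finset.le_sup (f := id) (Finsupp.mem_support_iff.2 h)
  simp only [id] at this
  omega

/-- basis vector -/
noncomputable def del (i : ℕ) : Γ := toLex (Finsupp.single i 1)

lemma par_del (i : ℕ) : par (del i) = Finsupp.single i 1 := by
  ext j
  rw [par_apply, del, ofLex_toLex]
  by_cases h : i = j <;> simp [h]

lemma mon_comm {a b : Γ} (h : B (par a) (par b) = B (par b) (par a)) :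
    mon a * mon b = mon b * mon a := by rw [mon_mul, mon_mul, h, add_comm]

lemma mon_anti {i j : ℕ} (h : i ≠ j) : mon (del i) * mon (del j) = - (mon (del j) * mon (del i)) := by
  wlog hij : i < j generalizing i j
  · rw [this h.symm (by omega), neg_neg]
  have e1 : ∑ k ∈ range i, (Finsupp.single j (1 : ZMod 2)) k = 0 :=
    sum_eq_zero fun k hk => Finsupp.single_eq_of_ne (by have := mem_range.1 hk; omega)
  have e2 : ∑ k ∈ range j, (Finsupp.single i (1 : ZMod 2)) k = 1 := by
    rw [sum_eq_single i (fun k _ hk => Finsupp.single_eq_of_ne hk) (by simp [hij])]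
    simp
  rw [mon_mul, mon_mul, par_del, par_del, B_single, B_single, e1, e2, mul_zero, mul_one, sg_zero,
    sg_one, add_comm, ← neg_smul, ← HahnSeries.single_neg, neg_neg]

lemma mon_sq (i : ℕ) : mon (del i) * mon (del i) = algebraMap F H (HahnSeries.single (del i) 1) := by
  have e1 : ∑ k ∈ range i, (Finsupp.single i (1 : ZMod 2)) k = 0 :=
    sum_eq_zero fun k hk => Finsupp.single_eq_of_ne (by have := mem_range.1 hk; omega)
  rw [mon_mul, par_del, B_single, e1, mul_zero, sg_zero, ← dbl_apply, ← add_zero (dbl _), mon_dbl,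
    mon_zero, HahnSeries.single_zero_one, one_smul, Algebra.algebraMap_eq_smul_one]

lemma B_low {n : ℕ} {a : Γ} (ha : Low n a) (q : G) (hq : ∀ i < n, q i = 0) : B q (par a) = 0 := by
  unfold B
  apply Finset.sum_eq_zero
  intro j hj
  have hjn : j < n := by
    by_contra hc
    rw [Finsupp.mem_support_iff, par_apply, ha j (by omega)] at hj
    simp at hj
  change _ * ∑ i ∈ range j, q i = 0
  rw [sum_eq_zero fun i hi => hq i (by have := mem_range.1 hi; omega), mul_zero]

/-- elements of level `n` commute with `e_n e_(n+1)` -/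
lemma W_comm {n : ℕ} {x : H} (hx : x ∈ W n) :
    x * mon (del n + del (n + 1)) = mon (del n + del (n + 1)) * x := by
  induction hx using Submodule.span_induction with
  | mem x hx =>
    obtain ⟨a, ha, rfl⟩ := hx
    apply mon_comm
    rw [B_low ha, map_add, par_del, par_del, B_add_right, B_single, B_single, sum_range_succ,
      par_apply a n, ha n le_rfl]
    · simp [CharTwo.add_self_eq_zero]
    · intro i hi
      rw [map_add, par_del, par_del, Finsupp.add_apply, Finsupp.single_eq_of_ne (by omega),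
        Finsupp.single_eq_of_ne (by omega), add_zero]
  | zero => simp
  | add y z _ _ h1 h2 => rw [add_mul, mul_add, h1, h2]
  | smul c y _ h1 => rw [smul_mul_assoc, mul_smul_comm, h1]

lemma mon_pair (n : ℕ) : mon (del n + del (n + 1)) = mon (del n) * mon (del (n + 1)) := by
  have e1 : ∑ k ∈ range n, (Finsupp.single (n + 1) (1 : ZMod 2)) k = 0 :=
    sum_eq_zero fun k hk => Finsupp.single_eq_of_ne (by have := mem_range.1 hk; omega)
  rw [mon_mul, par_del, par_del, B_single, e1, mul_zero, sg_zero, HahnSeries.single_zero_one,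
    one_smul]

end Pool.Agent.H26Div
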