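import Mathlib
import Pool.Agent.Lib.helper26.DivA

namespace Pool.Agent.H26Div

section gen
variable {K A : Type} [Field K] [DivisionRing A] [Algebra K A]

theorem genC (V : ℕ → Submodule K A) (hm : Monotone V) (hex : ∀ x, ∃ n, x ∈ V n) (e : ℕ → A)
    (t : ℕ → K) (hsq : ∀ i, e i * e i = algebraMap K A (t i)) (ht : ∀ i, t i ≠ 0)
    (hs : ∀ i, 1 + t i * t (i + 1) ≠ 0) (hanti : ∀ i, e (i + 1) * e i = -(e i * e (i + 1)))
    (he : ∀ i, e i ∈ V (i + 1)) (hc : ∀ n, ∀ x ∈ V n, x * (e n * e (n + 1)) = e n * e (n + 1) * x)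
    (h2 : (2 : K) ≠ 0) : ∃ σ : A →ₐ[K] A, ∀ d, σ d ≠ e 0 := by
  classical
  have ea : ∀ n, e n * (e n * e (n + 1)) = t n • e (n + 1) := fun n => by
    rw [← mul_assoc, hsq, Algebra.smul_def]
  have ae : ∀ n, e n * e (n + 1) * e n = -(t n • e (n + 1)) := fun n => by
    rw [mul_assoc, hanti, mul_neg, ea]
  have ae' : ∀ n, e n * e (n + 1) * e (n + 1) = t (n + 1) • e n := fun n => by
    rw [mul_assoc, hsq, ← Algebra.commutes, Algebra.smul_def]
  have e0 : ∀ n, e n ≠ 0 := fun n h => by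
    have := hsq n
    rw [h, zero_mul] at this
    exact ht n ((map_eq_zero _).1 this.symm)
  let v : ℕ → A := fun n => 1 + e n * e (n + 1)
  have hv : ∀ n, v n ≠ 0 := fun n h => by
    have h1 : v n * (1 - e n * e (n + 1)) = (1 + t n * t (n + 1)) • (1 : A) := by
      have : e n * e (n + 1) * (e n * e (n + 1)) = -((t n * t (n + 1)) • (1 : A)) := by
        rw [← mul_assoc, ae, neg_mul, smul_mul_assoc, hsq, Algebra.algebraMap_eq_smul_one,
          smul_smul]
      simp only [v]
      rw [add_mul, mul_sub, mul_sub, this, add_smul]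
      simp only [one_mul, mul_one, one_smul]
      abel
    rw [h, zero_mul] at h1
    exact smul_ne_zero (hs n) one_ne_zero h1.symm
  let u : ℕ → A := fun n => Nat.rec 1 (fun k x => x * v k) n
  have us : ∀ n, u (n + 1) = u n * v n := fun n => rfl
  have hu : ∀ n, u n ≠ 0 := fun n => by
    induction n with
    | zero => exact one_ne_zero
    | succ n ih => rw [us]; exact mul_ne_zero ih (hv n)
  have hcv : ∀ n, ∀ x ∈ V n, v n * x = x * v n := fun n x hx => by
    simp only [v]; rw [add_mul, mul_add, hc n x hx, one_mul, mul_one]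
  have stab : ∀ n m x, x ∈ V n → n ≤ m → u m * x * (u m)⁻¹ = u n * x * (u n)⁻¹ := by
    intro n m x hx h
    induction m, h using Nat.le_induction with
    | base => rfl
    | succ m h ih =>
      rw [us, mul_assoc (u m), hcv m x (hm h hx), mul_inv_rev, ← ih]
      simp only [mul_assoc]
      rw [mul_inv_cancel_left₀ (hv m)]
  choose N hN using hex
  let s : A → A := fun x => u (N x) * x * (u (N x))⁻¹
  have hsn : ∀ n x, x ∈ V n → s x = u n * x * (u n)⁻¹ := fun n x hx =>
    (stab _ _ x (hN x) (le_max_left (N x) n)).symm.trans (stab _ _ x hx (le_max_right _ _))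
  have hsn' : ∀ n x, N x ≤ n → s x = u n * x * (u n)⁻¹ := fun n x h => hsn n x (hm h (hN x))
  let σ : A →ₐ[K] A :=
    { toFun := s
      map_one' := by simp [s, hu]
      map_zero' := by simp [s]
      map_mul' := fun x y => by
        rw [hsn' (N x + N y + N (x * y)) x (by omega), hsn' (N x + N y + N (x * y)) y (by omega),
          hsn' (N x + N y + N (x * y)) (x * y) (by omega)]
        simp only [mul_assoc]
        rw [inv_mul_cancel_left₀ (hu _)]
      map_add' := fun x y => by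
        rw [hsn' (N x + N y + N (x + y)) x (by omega), hsn' (N x + N y + N (x + y)) y (by omega),
          hsn' (N x + N y + N (x + y)) (x + y) (by omega), mul_add, add_mul]
      commutes' := fun c => by
        simp only [s]
        rw [← Algebra.commutes, mul_assoc, mul_inv_cancel₀ (hu _), mul_one] }
  refine ⟨σ, fun d hd => ?_⟩
  have key : ∀ n, ∃ w ∈ V n, ∃ β : K, β ≠ 0 ∧ e 0 * u n = u n * (w + β • e n) := by
    intro n
    induction n with
    | zero => exact ⟨0, zero_mem _, 1, one_ne_zero, by simp [u]⟩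
    | succ n ih =>
      obtain ⟨w, hw, β, hβ, h⟩ := ih
      have hsn := hs n
      refine ⟨w + (β * ((1 - t n * t (n + 1)) / (1 + t n * t (n + 1)))) • e n,
        add_mem (hm (Nat.le_succ n) hw) (Submodule.smul_mem _ _ (he n)),
        β * (2 * t n / (1 + t n * t (n + 1))),
        mul_ne_zero hβ (div_ne_zero (mul_ne_zero h2 (ht n)) hsn), ?_⟩
      rw [us, ← mul_assoc, h, mul_assoc, mul_assoc]
      congr 1
      rw [add_mul, ← hcv n w hw, add_assoc, mul_add (v n) w]
      congr 1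
      simp only [v]
      simp only [mul_add, add_mul, smul_mul_assoc, mul_smul_comm, ea, ae, ae', one_mul, mul_one]
      match_scalars <;> field_simp <;> ring
  obtain ⟨w, hw, β, hβ, h⟩ := key (N d)
  have h3 : d = w + β • e (N d) := by
    change u (N d) * d * (u (N d))⁻¹ = e 0 at hd
    rw [← hd, mul_assoc, inv_mul_cancel₀ (hu _), mul_one] at h
    exact mul_left_cancel₀ (hu _) h
  have h4 : e (N d) ∈ V (N d) := by
    have : β • e (N d) ∈ V (N d) := by
      have := sub_mem (hN d) hw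
      rwa [h3, add_sub_cancel_left, ← h3] at this
    exact (Submodule.smul_mem_iff _ hβ).1 this
  have h5 := hc _ _ h4
  rw [ea, ae, eq_neg_iff_add_eq_zero, ← two_smul K, smul_smul] at h5
  exact smul_ne_zero (mul_ne_zero h2 (ht _)) (e0 _) h5

/-- the triangular ring -/
def Tri (σ : A →ₐ[K] A) : Subalgebra K (Matrix (Fin 2) (Fin 2) A) where
  carrier := {M | M 1 0 = 0 ∧ M 0 0 = σ (M 1 1)}
  mul_mem' := by
    rintro x y ⟨h1, h2⟩ ⟨h3, h4⟩
    simp [Matrix.mul_apply, Fin.sum_univ_two, h1, h2, h3, h4]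
  add_mem' := by
    rintro x y ⟨h1, h2⟩ ⟨h3, h4⟩
    simp [h1, h2, h3, h4]
  algebraMap_mem' := fun c => by simp [Matrix.algebraMap_matrix_apply]

def mk (σ : A →ₐ[K] A) (d m : A) : Tri σ := ⟨!![σ d, m; 0, d], by simp [Tri]⟩

lemma mk_mul (σ : A →ₐ[K] A) (d m d' m' : A) :
    mk σ d m * mk σ d' m' = mk σ (d * d') (σ d * m' + m * d') := by
  apply Subtype.ext
  simp [mk]

lemma mk_add (σ : A →ₐ[K] A) (d m d' m' : A) :
    mk σ d m + mk σ d' m' = mk σ (d + d') (m + m') := by
  apply Subtype.ext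
  simp [mk]

lemma mk_zero (σ : A →ₐ[K] A) : mk σ 0 0 = 0 := by
  apply Subtype.ext
  ext i j
  fin_cases i <;> fin_cases j <;> simp [mk]

lemma mk_surj (σ : A →ₐ[K] A) (x : Tri σ) : x = mk σ (x.1 1 1) (x.1 0 1) := by
  apply Subtype.ext
  obtain ⟨h1, h2⟩ := x.2
  ext i j
  fin_cases i <;> fin_cases j <;> simp [mk, h1, h2]

lemma mk_inj (σ : A →ₐ[K] A) {d m d' m' : A} (h : mk σ d m = mk σ d' m') : m = m' := by
  have := congrFun (congrFun (congrArg Subtype.val h) 0) 1
  simpa [mk] using this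

def piD (σ : A →ₐ[K] A) : Tri σ →ₐ[K] A where
  toFun x := x.1 1 1
  map_one' := by simp
  map_mul' x y := by simp [Matrix.mul_apply, Fin.sum_univ_two, x.2.1]
  map_zero' := by simp
  map_add' x y := by simp
  commutes' c := by simp [Matrix.algebraMap_matrix_apply]

theorem genA (hint : ∀ x : A, IsIntegral K x) (σ : A →ₐ[K] A) (y : A) (hy : ∀ d, σ d ≠ y) :
    ¬ (∀ (R : Type) [Ring R],
      (∀ a b c : Submodule Rᵐᵒᵖ R, a ⊓ (b ⊔ c) = (a ⊓ b) ⊔ (a ⊓ c)) →
      (∀ x : R, ∃ p : Polynomial (Subring.center R),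
          p.Monic ∧ Polynomial.eval₂ (Subring.center R).subtype x p = 0) →
      ∀ a b c : Submodule R R, a ⊓ (b ⊔ c) = (a ⊓ b) ⊔ (a ⊓ c)) := by
  intro h
  have hdiv : ∀ x z : Tri σ, (∃ r, x = z * r) ∨ ∃ r, z = x * r := by
    have k1 : ∀ d m d' m' : A, d' ≠ 0 → ∃ r, mk σ d m = mk σ d' m' * r := by
      intro d m d' m' hd
      have : σ d' ≠ 0 := (map_ne_zero σ).2 hd
      refine ⟨mk σ (d'⁻¹ * d) ((σ d')⁻¹ * (m - m' * (d'⁻¹ * d))), ?_⟩
      rw [mk_mul, mul_inv_cancel_left₀ hd, mul_inv_cancel_left₀ this, sub_add_cancel]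
    intro x z
    rw [mk_surj σ x, mk_surj σ z]
    generalize x.1 1 1 = d, x.1 0 1 = m, z.1 1 1 = d', z.1 0 1 = m'
    by_cases h1 : d' = 0
    · by_cases h2 : d = 0
      · subst h1 h2
        by_cases h3 : m' = 0
        · right; exact ⟨0, by rw [h3, mk_zero, mul_zero]⟩
        · left
          refine ⟨mk σ (m'⁻¹ * m) 0, ?_⟩
          rw [mk_mul, zero_mul, mul_zero, zero_add, mul_inv_cancel_left₀ h3]
      · right; exact k1 _ _ _ _ h2
    · left; exact k1 _ _ _ _ h1
  have htot : ∀ a b : Submodule (Tri σ)ᵐᵒᵖ (Tri σ), a ≤ b ∨ b ≤ a := by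
    intro a b
    by_contra hc
    rw [not_or, SetLike.not_le_iff_exists, SetLike.not_le_iff_exists] at hc
    obtain ⟨⟨x, hx, hx'⟩, ⟨z, hz, hz'⟩⟩ := hc
    rcases hdiv x z with ⟨r, rfl⟩ | ⟨r, rfl⟩
    · exact hx' (b.smul_mem (MulOpposite.op r) hz)
    · exact hz' (a.smul_mem (MulOpposite.op r) hx)
  have := h (Tri σ) (fun a b c => by
    rcases htot b c with h | h
    · rw [sup_eq_right.2 h, sup_eq_right.2 (inf_le_inf_left a h)]
    · rw [sup_eq_left.2 h, sup_eq_left.2 (inf_le_inf_left a h)]) (fun x => by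
    obtain ⟨p, hp, hp0⟩ := hint (piD σ x)
    let φ : K →+* Subring.center (Tri σ) := (algebraMap K (Tri σ)).codRestrict _
      (fun c => Subring.mem_center_iff.2 fun g => (Algebra.commutes c g).symm)
    refine ⟨(p * p).map φ, (hp.mul hp).map φ, ?_⟩
    rw [Polynomial.eval₂_map]
    change Polynomial.aeval x (p * p) = 0
    have h1 : piD σ (Polynomial.aeval x p) = 0 := by
      rw [← Polynomial.aeval_algHom_apply]; exact hp0
    rw [map_mul, mk_surj σ (Polynomial.aeval x p)]
    change (Polynomial.aeval x p).1 1 1 = 0 at h1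
    rw [h1, mk_mul]
    simp [mk_zero])
    (Submodule.span _ {mk σ 0 (1 + y)}) (Submodule.span _ {mk σ 0 1}) (Submodule.span _ {mk σ 0 y})
  have hsp : ∀ (m : A) (x : Tri σ), x ∈ Submodule.span (Tri σ) {mk σ 0 m} →
      ∃ d, x = mk σ 0 (σ d * m) := by
    intro m x hx
    obtain ⟨r, rfl⟩ := Submodule.mem_span_singleton.1 hx
    refine ⟨r.1 1 1, ?_⟩
    rw [smul_eq_mul]
    conv_lhs => rw [mk_surj σ r, mk_mul]
    simp
  have hb : Submodule.span (Tri σ) {mk σ 0 (1 + y)} ⊓ Submodule.span _ {mk σ 0 1} = ⊥ := by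
    rw [eq_bot_iff]
    rintro x ⟨h1, h2⟩
    obtain ⟨d, rfl⟩ := hsp _ _ h1
    obtain ⟨d', h3⟩ := hsp _ _ h2
    have h4 := mk_inj σ h3
    by_cases hd : d = 0
    · simp [hd, mk_zero]
    · exfalso
      have : σ d ≠ 0 := (map_ne_zero σ).2 hd
      apply hy (d⁻¹ * d' - 1)
      rw [map_sub, map_mul, map_inv₀, map_one, ← mul_one (σ d'), ← h4, inv_mul_cancel_left₀ this,
        add_sub_cancel_left]
  have hc : Submodule.span (Tri σ) {mk σ 0 (1 + y)} ⊓ Submodule.span _ {mk σ 0 y} = ⊥ := by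
    rw [eq_bot_iff]
    rintro x ⟨h1, h2⟩
    obtain ⟨d, rfl⟩ := hsp _ _ h1
    obtain ⟨d', h3⟩ := hsp _ _ h2
    have h4 := mk_inj σ h3
    have h5 : σ d = σ (d' - d) * y := by
      rw [map_sub, sub_mul, ← h4, mul_add, mul_one, add_sub_cancel_right]
    by_cases hd : d' - d = 0
    · rw [hd, map_zero, zero_mul] at h5
      simp [h5, mk_zero]
    · exfalso
      have : σ (d' - d) ≠ 0 := (map_ne_zero σ).2 hd
      apply hy ((d' - d)⁻¹ * d)
      rw [map_mul, map_inv₀, h5, inv_mul_cancel_left₀ this]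
  rw [hb, hc, sup_bot_eq] at this
  have h6 : mk σ 0 (1 + y) ∈ (⊥ : Submodule (Tri σ) (Tri σ)) := by
    rw [← this]
    refine ⟨Submodule.mem_span_singleton_self _, ?_⟩
    have : mk σ 0 (1 + y) = mk σ 0 1 + mk σ 0 y := by rw [mk_add, add_zero]
    rw [this]
    exact Submodule.add_mem_sup (Submodule.mem_span_singleton_self _)
      (Submodule.mem_span_singleton_self _)
  rw [Submodule.mem_bot, ← mk_zero] at h6
  apply hy (-1)
  rw [map_neg, map_one]
  exact (eq_neg_of_add_eq_zero_right (mk_inj σ h6)).symm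

end gen

noncomputable instance divD : DivisionRing D := DivisionRing.ofIsUnitOrEqZero D_unit

noncomputable def ee (i : ℕ) : D := ⟨mon (del i), mon_mem_D _⟩

lemma del_ne (i : ℕ) : del i + del (i + 1) ≠ 0 := by
  intro h
  have := congrArg (fun a : Γ => ofLex a i) h
  simp [del] at this

lemma two_ne_F : (2 : F) ≠ 0 := by
  rw [← map_ofNat (algebraMap ℚ F) 2]
  exact (map_ne_zero _).2 two_ne_zero

theorem exists_sigma : ∃ σ : D →ₐ[F] D, ∀ d, σ d ≠ ee 0 := by
  refine genC (fun n => (W n).comap D.val.toLinearMap) (fun _ _ h => Submodule.comap_mono (W_mono h))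
    (fun x => x.2) ee (fun i => HahnSeries.single (del i) 1) (fun i => Subtype.ext (mon_sq i))
    (fun i => HahnSeries.single_ne_zero one_ne_zero) (fun i h => ?_)
    (fun i => Subtype.ext (mon_anti (by omega))) (fun i => mon_mem fun j hj => ?_)
    (fun n x hx => Subtype.ext ?_) two_ne_F
  · have := congrArg (fun x : F => x.coeff 0) h
    simp [HahnSeries.single_mul_single, HahnSeries.coeff_single_of_ne (del_ne i).symm] at this
  · rw [del, ofLex_toLex, Finsupp.single_eq_of_ne (by omega)]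
  · have := W_comm hx
    rw [mon_pair] at this
    exact this

end Pool.Agent.H26Div
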