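import Mathlib
import Pool.Agent.Lib.helper26.DivB

namespace Pool.Agent.H26Div
open Finset

lemma inj2 : Function.Injective (fun i : ℕ => i + 2) := add_left_injective 2

noncomputable def sh (M : Type) [AddCommMonoid M] : (ℕ →₀ M) →+ (ℕ →₀ M) :=
  Finsupp.mapDomain.addMonoidHom (fun i : ℕ => i + 2)

lemma sh_add2 {M : Type} [AddCommMonoid M] (p : ℕ →₀ M) (i : ℕ) : sh M p (i + 2) = p i :=
  Finsupp.mapDomain_apply inj2 p i

lemma sh_low {M : Type} [AddCommMonoid M] (p : ℕ →₀ M) (i : ℕ) (hi : i < 2) : sh M p i = 0 :=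
  Finsupp.mapDomain_of_notMem_range p i (by rintro ⟨j, hj⟩; simp only at hj; omega)

noncomputable def un : G →+ G := Finsupp.comapDomain.addMonoidHom inj2

lemma un_apply (p : G) (i : ℕ) : un p i = p (i + 2) := rfl

lemma un_sh (p : G) : un (sh _ p) = p := by ext i; rw [un_apply, sh_add2]

noncomputable def low (q : G) : G := q - sh _ (un q)

lemma un_low (q : G) : un (low q) = 0 := by rw [low, map_sub, un_sh, sub_self]

lemma un_mix (r q : G) : un (sh _ r + low q) = r := by rw [map_add, un_sh, un_low, add_zero]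

lemma low_mix (r q : G) : low (sh _ r + low q) = low q := by
  rw [low, un_mix, add_sub_cancel_left]

noncomputable def Phi0 (T : R0) : R0 where
  toFun f := fun q => T (fun r => f (sh _ r + low q)) (un q)
  map_add' f g := by
    funext q
    exact congrFun (T.map_add (fun r => f (sh _ r + low q)) (fun r => g (sh _ r + low q))) (un q)
  map_smul' c f := by
    funext q
    exact congrFun (T.map_smul c (fun r => f (sh _ r + low q))) (un q)

lemma Phi0_apply (T : R0) (f : G → ℚ) (q : G) :
    Phi0 T f q = T (fun r => f (sh _ r + low q)) (un q) := rfl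

noncomputable def Phi1 : R0 →+* R0 where
  toFun := Phi0
  map_one' := by
    apply LinearMap.ext; intro f; funext q
    simp [Phi0_apply, low]
  map_mul' T T' := by
    apply LinearMap.ext; intro f; funext q
    simp only [Phi0_apply, Module.End.mul_apply, low_mix, un_mix]
  map_zero' := rfl
  map_add' _ _ := rfl

noncomputable def Phi : R →+* R := Phi1

lemma B_sh (p q : G) : B (sh _ p) q = B p (un q) := by
  induction q using Finsupp.induction_linear with
  | zero => simp [B]
  | add f g hf hg => rw [map_add, B_add_right, B_add_right, hf, hg]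
  | single j y =>
    rw [B_single]
    by_cases hj : j < 2
    · have : un (Finsupp.single j y) = 0 := by
        ext i; rw [un_apply, Finsupp.single_eq_of_ne (by omega)]; rfl
      rw [this, sum_eq_zero fun i hi => sh_low p i (by have := mem_range.1 hi; omega)]
      simp [B]
    · obtain ⟨j, rfl⟩ : ∃ k, j = k + 2 := ⟨j - 2, by omega⟩
      have : un (Finsupp.single (j + 2) y) = Finsupp.single j y := by
        ext i; rw [un_apply]; simp [Finsupp.single_apply]
      rw [this, B_single, sum_range_succ', sum_range_succ', sh_low p 0 (by omega),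
        sh_low p (0 + 1) (by omega), add_zero, add_zero]
      congr 1
      exact sum_congr rfl fun i _ => sh_add2 p i

lemma Phi_U (p : G) : Phi (U p) = U (sh _ p) := by
  change Phi0 (U0 p) = U0 (sh _ p)
  apply LinearMap.ext; intro f; funext q
  rw [Phi0_apply, U_apply, U_apply, B_sh, map_add, low]
  congr 2
  abel

lemma Phi_smul (c : ℚ) : Phi (c • (1 : R)) = c • (1 : R) := map_rat_smul Phi c 1 ▸ by rw [map_one]

noncomputable def sG : Γ →+ Γ :=
  AddMonoidHom.mk' (fun a => toLex (sh ℤ (ofLex a))) (fun a b => by simp)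

lemma sG_apply (a : Γ) : ofLex (sG a) = sh ℤ (ofLex a) := rfl

lemma sG_mono : StrictMono sG := by
  intro a b h
  obtain ⟨i, h1, h2⟩ := Finsupp.Lex.lt_iff.1 h
  refine Finsupp.Lex.lt_iff.2 ⟨i + 2, fun j hj => ?_, ?_⟩
  · change sh ℤ (ofLex a) j = sh ℤ (ofLex b) j
    by_cases h : j < 2
    · rw [sh_low _ _ h, sh_low _ _ h]
    · obtain ⟨j, rfl⟩ : ∃ k, j = k + 2 := ⟨j - 2, by omega⟩
      rw [sh_add2, sh_add2]
      exact h1 j (by omega)
  · change sh ℤ (ofLex a) (i + 2) < sh ℤ (ofLex b) (i + 2)
    rw [sh_add2, sh_add2]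
    exact h2

lemma par_sG (a : Γ) : par (sG a) = sh _ (par a) := by
  ext i
  rw [par_apply, sG_apply]
  by_cases h : i < 2
  · rw [sh_low _ _ h, sh_low _ _ h]; simp
  · obtain ⟨j, rfl⟩ : ∃ k, i = k + 2 := ⟨i - 2, by omega⟩
    rw [sh_add2, sh_add2, par_apply]

noncomputable def emb (S : Type) [Ring S] : HahnSeries Γ S →+* HahnSeries Γ S :=
  HahnSeries.embDomainRingHom sG sG_mono.injective (fun _ _ => sG_mono.le_iff_le)

lemma emb_in {S : Type} [Ring S] (x : HahnSeries Γ S) (a : Γ) :
    (emb S x).coeff (sG a) = x.coeff a :=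
  HahnSeries.embDomain_mk_coeff sG_mono.injective (fun _ _ => sG_mono.le_iff_le)

lemma emb_out {S : Type} [Ring S] (x : HahnSeries Γ S) (a : Γ) (h : ∀ b, sG b ≠ a) :
    (emb S x).coeff a = 0 :=
  HahnSeries.embDomain_of_notMem_range (fun ⟨b, hb⟩ => h b hb)

noncomputable def sig : H →+* H := (emb R).comp (mapH Phi)

lemma sig_in (x : H) (a : Γ) : (sig x).coeff (sG a) = Phi (x.coeff a) := emb_in _ _

lemma sig_out (x : H) (a : Γ) (h : ∀ b, sG b ≠ a) : (sig x).coeff a = 0 := emb_out _ _ h

lemma sig_mon (a : Γ) : sig (mon a) = mon (sG a) := by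
  ext1
  funext b
  by_cases h : ∃ c, sG c = b
  · obtain ⟨c, rfl⟩ := h
    rw [sig_in]
    by_cases e : c = a
    · subst e; simp [mon, Phi_U, par_sG]
    · rw [mon, mon, HahnSeries.coeff_single_of_ne e,
        HahnSeries.coeff_single_of_ne (sG_mono.injective.ne e), map_zero]
  · push Not at h
    rw [sig_out _ _ h, mon, HahnSeries.coeff_single_of_ne (h a).symm]

lemma dbl_sG (a : Γ) : dbl (sG a) = sG (dbl a) := by rw [dbl_apply, dbl_apply, map_add]

lemma sig_iota (c : F) : sig (iota c) = iota (emb ℚ c) := by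
  ext1
  funext a
  by_cases h : ∃ b, sG (dbl b) = a
  · obtain ⟨b, rfl⟩ := h
    rw [sig_in, iota_dbl, ← dbl_sG, iota_dbl, emb_in, Phi_smul]
  · push Not at h
    have l : (sig (iota c)).coeff a = 0 := by
      by_cases h1 : ∃ b, sG b = a
      · obtain ⟨b, rfl⟩ := h1
        rw [sig_in, iota_not _ _ (fun b' hb => h b' (by rw [hb])), map_zero]
      · push Not at h1
        exact sig_out _ _ h1
    have r : (iota (emb ℚ c)).coeff a = 0 := by
      by_cases h1 : ∃ b, dbl b = a
      · obtain ⟨b, rfl⟩ := h1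
        rw [iota_dbl, emb_out _ _ (fun b' hb => h b' (by rw [← dbl_sG, hb])), zero_smul]
      · push Not at h1
        exact iota_not _ _ h1
    rw [l, r]

lemma sig_prop {n : ℕ} {x : H} (hx : x ∈ W n) : sig x ∈ D ∧
    sig x * mon (del 0 + del (0 + 1)) = mon (del 0 + del (0 + 1)) * sig x := by
  induction hx using Submodule.span_induction with
  | mem x hx =>
    obtain ⟨a, -, rfl⟩ := hx
    rw [sig_mon]
    refine ⟨mon_mem_D _, mon_comm ?_⟩
    rw [par_sG, B_sh, map_add, par_del, par_del]
    have e1 : un (Finsupp.single 0 1 + Finsupp.single (0 + 1) 1) = 0 := by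
      ext i; simp [un_apply]
    rw [e1]
    symm
    refine (Finset.sum_eq_zero fun j hj => ?_).trans (by simp [B])
    have hj2 : ¬ j < 2 := fun h => (Finsupp.mem_support_iff.1 hj) (sh_low _ _ h)
    obtain ⟨j, rfl⟩ : ∃ k, j = k + 2 := ⟨j - 2, by omega⟩
    change _ * ∑ i ∈ range (j + 2), _ = 0
    rw [sum_range_succ', sum_range_succ', sum_eq_zero (fun i _ => by simp)]
    simp [CharTwo.add_self_eq_zero]
  | zero => simp
  | add y z _ _ h1 h2 =>
    rw [map_add]
    exact ⟨add_mem h1.1 h2.1, by rw [add_mul, mul_add, h1.2, h2.2]⟩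
  | smul c y _ h1 =>
    rw [smul_H, map_mul, sig_iota, ← smul_H]
    exact ⟨D.smul_mem h1.1 _, by rw [smul_mul_assoc, mul_smul_comm, h1.2]⟩

noncomputable def sigD : D →+* D :=
  (sig.comp D.val.toRingHom).codRestrict D (fun x => (sig_prop x.2.choose_spec).1)

noncomputable def tt : D := algebraMap F D (HahnSeries.single (del 0) 1)

noncomputable def tau : Polynomial D →+* D :=
  Polynomial.eval₂RingHom' sigD tt (fun a => (Algebra.commutes _ (sigD a)).symm)

lemma tt_pow (k : ℕ) : ((tt ^ k : D) : H) = HahnSeries.single (k • dbl (del 0)) 1 := by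
  have : (tt : H) = HahnSeries.single (dbl (del 0)) 1 := by
    change iota _ = _
    rw [iota_single, one_smul]
  rw [SubmonoidClass.coe_pow, this, HahnSeries.single_pow, one_pow]

lemma tau_apply (p : Polynomial D) :
    tau p = ∑ k ∈ p.support, sigD (p.coeff k) * tt ^ k :=
  Polynomial.eval₂_eq_sum

lemma tau_inj : Function.Injective tau := by
  rw [injective_iff_map_eq_zero]
  intro p hp
  ext1 k
  by_contra hk
  have hk' : k ∈ p.support := Polynomial.mem_support_iff.2 hk
  apply hk
  apply sigD.injective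
  rw [Polynomial.coeff_zero, map_zero]
  apply Subtype.ext
  change sig _ = 0
  ext1
  funext a
  by_cases h : ∃ b, sG b = a
  · obtain ⟨b, rfl⟩ := h
    have h1 := congrArg (fun x : D => (x : H).coeff (sG b + k • dbl (del 0))) hp
    simp only [tau_apply, AddSubmonoidClass.coe_finsetSum, HahnSeries.coeff_sum,
      MulMemClass.coe_mul, tt_pow, HahnSeries.coeff_mul_single, mul_one] at h1
    rw [sum_eq_single k _ (fun h => absurd hk' h), add_sub_cancel_right] at h1
    · exact h1
    · intro j _ hj
      apply sig_out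
      intro c hc
      have := congrArg (fun a : Γ => ofLex a 0) hc
      have e : ∀ n : ℕ, ofLex (n • dbl (del 0)) 0 = 2 * n := by
        intro n
        induction n with
        | zero => simp
        | succ n ih =>
          rw [succ_nsmul, ofLex_add, Finsupp.add_apply, ih]
          simp [dbl_apply, del]
          ring
      simp only [ofLex_sub, ofLex_add, Finsupp.sub_apply, Finsupp.add_apply, e, sG_apply,
        sh_low _ 0 (by omega)] at this
      omega
  · push Not at h
    exact sig_out _ _ h

theorem exists_tau : ∃ (τ : Polynomial D →+* D) (i j : D), Function.Injective τ ∧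
    i * j ≠ j * i ∧ ∀ p, τ p * i = i * τ p := by
  refine ⟨tau, ee 0 * ee 1, ee 0, tau_inj, ?_, fun p => ?_⟩
  · intro h
    have h1 : ee 1 * ee 0 = -(ee 0 * ee 1) := Subtype.ext (mon_anti (by omega))
    have h0 : ∀ i, ee i ≠ 0 := fun i e =>
      HahnSeries.single_ne_zero (U_ne _) (congrArg Subtype.val e)
    rw [mul_assoc, h1, mul_neg, neg_eq_iff_add_eq_zero, ← two_smul F] at h
    exact smul_ne_zero two_ne_F (mul_ne_zero (h0 0) (mul_ne_zero (h0 0) (h0 1))) h
  · have : Commute (tau p) (ee 0 * ee 1) := by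
      rw [tau_apply]
      refine Commute.sum_left _ _ _ fun k _ => Commute.mul_left ?_ (Commute.pow_left ?_ _)
      · apply Subtype.ext
        have := (sig_prop (p.coeff k).2.choose_spec).2
        rw [mon_pair] at this
        exact this
      · exact Algebra.commutes _ _
    exact this

end Pool.Agent.H26Div
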