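import Mathlib

set_option autoImplicit false

namespace Pool.Agent.Lib.helper26.ExpII

def PWS (B : Set ℕ) : Prop := ∃ L : ℕ, ∀ M : ℕ, ∃ p : ℕ, ∀ i ≤ M, ∃ l ≤ L, p + i + l ∈ B

lemma PWS.union {B C : Set ℕ} (h : PWS (B ∪ C)) : PWS B ∨ PWS C := by
  obtain ⟨L, hL⟩ := h
  by_contra hn
  push Not at hn
  obtain ⟨hB, hC⟩ := hn
  unfold PWS at hB hC
  push Not at hB hC
  obtain ⟨M', hM'⟩ := hC L
  obtain ⟨M, hM⟩ := hB (M' + L)
  obtain ⟨p, hp⟩ := hL (M + M')
  obtain ⟨i, hi, hiB⟩ := hM p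
  obtain ⟨j, hj, hjC⟩ := hM' (p + i)
  obtain ⟨l, hl, h | h⟩ := hp (i + j) (by omega)
  · exact hiB (j + l) (by omega) (by convert h using 1; ring)
  · exact hjC l hl (by convert h using 1; ring)

lemma PWS.shift {B C : Set ℕ} (h : PWS B) (a : ℕ) (hBC : ∀ p ∈ B, p + a ∈ C) : PWS C := by
  obtain ⟨L, hL⟩ := h
  refine ⟨L, fun M => ?_⟩
  obtain ⟨p, hp⟩ := hL M
  refine ⟨p + a, fun i hi => ?_⟩
  obtain ⟨l, hl, h⟩ := hp i hi
  exact ⟨l, hl, by convert hBC _ h using 1; ring⟩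

lemma PWS.large {B : Set ℕ} (h : PWS B) (N : ℕ) : ∃ m ∈ B, N ≤ m := by
  obtain ⟨L, hL⟩ := h
  obtain ⟨p, hp⟩ := hL N
  obtain ⟨l, -, h⟩ := hp N le_rfl
  exact ⟨_, h, by omega⟩

lemma PWS.fin {κ : Type*} [Finite κ] {B : Set ℕ} (h : PWS B) (C : κ → Set ℕ)
    (hC : ∀ p ∈ B, ∃ k, p ∈ C k) : ∃ k, PWS (C k) := by
  classical
  have key : ∀ s : Finset κ, PWS {p | ∃ k ∈ s, p ∈ C k} → ∃ k, PWS (C k) := by
    intro s
    induction s using Finset.induction_on with
    | empty =>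
      intro h
      obtain ⟨m, hm, -⟩ := h.large 0
      simp at hm
    | insert a s _ ih =>
      intro h
      have : PWS (C a ∪ {p | ∃ k ∈ s, p ∈ C k}) := h.shift 0 (by
        rintro p ⟨k, hk, hp⟩
        rcases Finset.mem_insert.1 hk with rfl | hk
        · exact Or.inl hp
        · exact Or.inr ⟨k, hk, hp⟩)
      rcases this.union with h | h
      · exact ⟨a, h⟩
      · exact ih h
  cases nonempty_fintype κ
  exact key Finset.univ (h.shift 0 fun p hp => by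
    obtain ⟨k, hk⟩ := hC p hp
    exact ⟨k, Finset.mem_univ _, hk⟩)

lemma ipvdw {B : Set ℕ} (h : PWS B) (a : Stream' ℕ) (ts : Finset ℕ) :
    ∃ n ∈ Hindman.FS a, PWS {m | m ∈ B ∧ ∀ t ∈ ts, m + n * t ∈ B} := by
  classical
  obtain ⟨L, hL⟩ := h
  let val : Option ts → ℕ := fun o => o.elim 0 fun t => t.1
  obtain ⟨ι, _, hι⟩ := Combinatorics.Line.exists_mono_in_high_dimension (Option ts) (Fin (L + 1))
  obtain ⟨e, he⟩ := exists_injective_nat ι
  let φ : (ι → Option ts) → ℕ := fun w => ∑ j, val (w j) * a.get (e j)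
  let M0 := Finset.univ.sup φ
  have hP : PWS {p | ∀ i ≤ M0, ∃ l ≤ L, p + i + l ∈ B} := by
    refine ⟨0, fun M => ?_⟩
    obtain ⟨p, hp⟩ := hL (M + M0)
    refine ⟨p, fun i hi => ⟨0, le_rfl, fun j hj => ?_⟩⟩
    obtain ⟨l, hl, h⟩ := hp (i + j) (by omega)
    exact ⟨l, hl, by convert h using 1; ring⟩
  obtain ⟨⟨g, l⟩, hk⟩ := hP.fin (κ := (ι → Option (Option ts)) × Fin (L + 1))
    (fun k => {p | (∃ j, k.1 j = none) ∧ ∀ x, p + φ (fun j => (k.1 j).getD x) + k.2 ∈ B}) (by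
      intro p hp
      have : ∀ w, ∃ l : Fin (L + 1), p + φ w + l ∈ B := fun w => by
        obtain ⟨l, hl, h⟩ := hp (φ w) (Finset.le_sup (f := φ) (Finset.mem_univ w))
        exact ⟨⟨l, by omega⟩, h⟩
      choose C hC using this
      obtain ⟨ln, c, hc⟩ := hι C
      refine ⟨(ln.idxFun, c), ln.proper, fun x => ?_⟩
      have := hC (ln x)
      rw [hc x] at this
      exact this)
  obtain ⟨p0, ⟨⟨j0, hj0⟩, -⟩, -⟩ := hk.large 0
  let s := Finset.univ.filter fun j => g j = none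
  let n := ∑ j ∈ s, a.get (e j)
  let c0 := φ (fun j => (g j).getD none)
  have hφ : ∀ x, φ (fun j => (g j).getD x) = c0 + n * val x := by
    intro x
    simp only [c0, φ, n, s, Finset.sum_filter, Finset.sum_mul, ← Finset.sum_add_distrib]
    refine Finset.sum_congr rfl fun j _ => ?_
    cases hg : g j with
    | none => simp [val, mul_comm]
    | some y => simp
  refine ⟨n, ?_, hk.shift (c0 + l) ?_⟩
  · have := Hindman.FS.finsetSum a (s.image e) ⟨e j0, Finset.mem_image_of_mem _ (by simpa [s] using hj0)⟩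
    rwa [Finset.sum_image (fun x _ y _ h => he h)] at this
  · rintro p ⟨-, hp⟩
    constructor
    · have := hp none
      simp only [hφ, val, Option.elim] at this
      convert this using 1; ring
    · intro t ht
      have := hp (some ⟨t, ht⟩)
      simp only [hφ, val, Option.elim] at this
      convert this using 1; ring

attribute [local instance] Ultrafilter.add

lemma exists_V : ∃ V : Ultrafilter ℕ, (∀ S ∈ V, ∃ a : Stream' ℕ, Hindman.FS a ⊆ S) ∧
    {n | 0 < n} ∈ V := by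
  obtain ⟨V, hV, hV1⟩ := Hindman.exists_idempotent_ultrafilter_le_FS (Stream'.const (1 : ℕ))
  refine ⟨V, fun S hS => Hindman.exists_FS_of_large V hV S hS, ?_⟩
  have key : ∀ (a : Stream' ℕ) (m : ℕ), m ∈ Hindman.FS a → (∀ i, 0 < a.get i) → 0 < m := by
    intro a m hm
    induction hm with
    | head' a => exact fun h => h 0
    | tail' a m _ ih => exact fun h => ih fun i => h (i + 1)
    | cons' a m _ _ => exact fun h => Nat.add_pos_left (h 0) _
  exact Filter.mem_of_superset hV1 fun m hm => key _ m hm fun _ => Nat.one_pos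

theorem towers {κ : Type*} [Finite κ] (c : ℕ → κ) : ∃ (i : κ) (b : ℕ → ℕ) (G : ℕ → Finset ℕ),
    StrictMono b ∧ (∀ k, ∀ z ∈ G k, c z = i) ∧ (∀ k, b k ∈ G k) ∧ (∀ k, G k ⊆ G (k + 1)) ∧
    ∀ k, ∀ z ∈ G k, b (k + 1) * 2 ^ z ∈ G (k + 1) := by
  classical
  obtain ⟨V, hV, hV0⟩ := exists_V
  have hχ : ∀ m : ℕ, ∃ i, {n | c (n * 2 ^ m) = i} ∈ V := fun m => by
    obtain ⟨i, hi⟩ := Ultrafilter.eq_pure_of_finite (V.map fun n => c (n * 2 ^ m))
    refine ⟨i, ?_⟩
    have : {i} ∈ V.map fun n => c (n * 2 ^ m) := by rw [hi]; simp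
    exact this
  choose χ hχ using hχ
  have hu : PWS Set.univ := ⟨0, fun _ => ⟨0, fun _ _ => ⟨0, le_rfl, trivial⟩⟩⟩
  obtain ⟨i, hi⟩ := hu.fin (fun k => {m | χ m = k}) fun p _ => ⟨χ p, rfl⟩
  let Inv : Finset ℕ × Set ℕ → Prop := fun p => PWS p.2 ∧
    (∀ m ∈ p.2, ∀ z ∈ insert 0 p.1, χ (m + z) = i) ∧ ∀ z ∈ p.1, c z = i
  have step : ∀ p : {p // Inv p}, ∃ q : {p // Inv p}, ∃ b ∈ q.1.1, p.1.1 ⊆ q.1.1 ∧
      (∀ z ∈ p.1.1, b * 2 ^ z ∈ q.1.1) ∧ ∀ z ∈ p.1.1, z < b := by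
    rintro ⟨⟨G, B⟩, h1, h2, h3⟩
    obtain ⟨m, hm, hmG⟩ := h1.large (G.sup id)
    have hS : ({n | 0 < n} ∩ ⋂ z ∈ insert 0 G, {n | c (n * 2 ^ (m + z)) = i}) ∈ V := by
      refine Filter.inter_mem hV0 ((Filter.biInter_finset_mem _).2 fun z hz => ?_)
      have := hχ (m + z)
      rwa [h2 m hm z hz] at this
    obtain ⟨a, ha⟩ := hV _ hS
    obtain ⟨n, hn, hB⟩ := ipvdw h1 a ((insert 0 G).image fun z => 2 ^ (m + z))
    obtain ⟨hn0, hn1⟩ := ha hn
    simp only [Set.mem_iInter, Set.mem_ofPred_eq] at hn0 hn1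
    refine ⟨⟨(G ∪ (insert 0 G).image fun z => n * 2 ^ (m + z), _), hB, ?_, ?_⟩, n * 2 ^ m, ?_,
      Finset.subset_union_left, fun z hz => ?_, fun z hz => ?_⟩
    · rintro m' ⟨hm1, hm2⟩ z hz
      rcases Finset.mem_insert.1 hz with rfl | hz
      · exact h2 m' hm1 0 (Finset.mem_insert_self _ _)
      rcases Finset.mem_union.1 hz with hz | hz
      · exact h2 m' hm1 z (Finset.mem_insert_of_mem hz)
      · obtain ⟨w, hw, rfl⟩ := Finset.mem_image.1 hz
        exact h2 _ (hm2 _ (Finset.mem_image_of_mem _ hw)) 0 (Finset.mem_insert_self _ _)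
    · intro z hz
      rcases Finset.mem_union.1 hz with hz | hz
      · exact h3 z hz
      · obtain ⟨w, hw, rfl⟩ := Finset.mem_image.1 hz
        exact hn1 w hw
    · exact Finset.mem_union_right _ (Finset.mem_image.2 ⟨0, Finset.mem_insert_self _ _, rfl⟩)
    · exact Finset.mem_union_right _
        (Finset.mem_image.2 ⟨z, Finset.mem_insert_of_mem hz, by ring⟩)
    · have h4 : z ≤ m := le_trans (Finset.le_sup (f := id) hz) hmG
      have h5 : m < 2 ^ m := Nat.lt_two_pow_self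
      nlinarith
  choose nx bb hb1 hb2 hb3 hb4 using step
  let p0 : {p // Inv p} := ⟨(∅, {m | χ m = i}), hi, by
    intro m hm z hz
    have : z = 0 := by simpa using hz
    subst this
    exact hm, by simp⟩
  let sq : ℕ → {p // Inv p} := fun k => nx^[k] p0
  have hs : ∀ k, sq (k + 1) = nx (sq k) := fun k => Function.iterate_succ_apply' _ _ _
  refine ⟨i, fun k => bb (sq k), fun k => (sq (k + 1)).1.1, ?_, fun k => (sq (k + 1)).2.2.2,
    fun k => ?_, fun k => ?_, fun k z hz => ?_⟩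
  · refine strictMono_nat_of_lt_succ fun k => hb4 _ _ ?_
    rw [hs]; exact hb1 _
  · simp only [hs k]; exact hb1 _
  · simp only [hs (k + 1)]; exact hb2 _
  · simp only [hs (k + 1)]; exact hb3 _ z hz

end Pool.Agent.Lib.helper26.ExpII
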