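import Mathlib
import Pool.Agent.Lib.helper26.BetaZ

set_option autoImplicit false

namespace Pool.Agent.Lib.helper26.Forms

open Filter Topology BetaZ

attribute [local instance] Ultrafilter.add Ultrafilter.addSemigroup

variable {ι : Type} (α β : ι → ℤ)

def φ (a b : ℤ) : ι → B := fun i => pure (α i * a + β i * b)
def dir (a b : ℤ) (p : B) : ι → B := fun i => sc (α i * a + β i * b) p
def E : Set (ι → B) := closure (Set.range fun x : ℤ × ℤ => φ α β x.1 x.2)

lemma contW (r : ι → B) : Continuous fun e : ι → B => e + r :=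
  continuous_pi fun i => (cont_add (r i)).comp (continuous_apply i)

lemma contφ (a b : ℤ) : Continuous fun e : ι → B => φ α β a b + e :=
  continuous_pi fun i => (cont_pure_add _).comp (continuous_apply i)

lemma left_ideal {G : Set (ι → B)} (hG : ∀ a b, ∀ g ∈ G, φ α β a b + g ∈ G) :
    ∀ e ∈ E α β, ∀ j ∈ closure G, e + j ∈ closure G := by
  intro e he j hj
  refine closure_minimal (t := {e | e + j ∈ closure G}) ?_
    (isClosed_closure.preimage (contW j)) he
  rintro _ ⟨x, rfl⟩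
  exact map_mem_closure (contφ α β _ _) hj (hG _ _)

lemma E_add : ∀ e ∈ E α β, ∀ j ∈ E α β, e + j ∈ E α β := by
  refine left_ideal α β ?_
  rintro a b _ ⟨x, rfl⟩
  refine ⟨(a + x.1, b + x.2), funext fun i => ?_⟩
  simp only [φ, Pi.add_apply, pure_pure]
  congr 1; ring

lemma dir_mem (a b : ℤ) (p : B) : dir α β a b p ∈ E α β := by
  refine denseRange_pure.induction_on p
    (isClosed_closure.preimage (continuous_pi fun i => cont_map _)) fun t => ?_
  refine subset_closure ⟨(a * t, b * t), funext fun i => ?_⟩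
  simp only [φ]
  change pure _ = pure _
  congr 1; ring

lemma dir_add (a b : ℤ) (p q : B) : dir α β a b (p + q) = dir α β a b p + dir α β a b q :=
  funext fun _ => sc_add _ _ _

def gen (u : B) : Set (ι → B) :=
  {w | ∃ a : ℤ, ∃ V : B, V + u = V ∧ w = φ α β a 0 + dir α β 0 1 V}

lemma J_ideal (u : B) :
    ∀ e ∈ E α β, ∀ j ∈ closure (gen α β u), e + j ∈ closure (gen α β u) := by
  refine left_ideal α β ?_
  rintro a b _ ⟨a', V, hV, rfl⟩
  refine ⟨a + a', pure b + V, by rw [add_assoc, hV], funext fun i => ?_⟩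
  simp only [φ, dir, Pi.add_apply, sc_add, sc_pure, ← add_assoc, pure_pure]
  congr 2; ring

lemma J_sub (u : B) : closure (gen α β u) ⊆ E α β := by
  refine closure_minimal ?_ isClosed_closure
  rintro _ ⟨a, V, -, rfl⟩
  exact E_add α β _ (subset_closure ⟨(a, 0), rfl⟩) _ (dir_mem α β _ _ _)

lemma J_coord (u : B) {j : ι → B} (hj : j ∈ closure (gen α β u)) (i : ι) :
    j i + sc (β i) u = j i := by
  refine closure_minimal (t := {j : ι → B | j i + sc (β i) u = j i}) ?_
    (isClosed_eq ((cont_add _).comp (continuous_apply i)) (continuous_apply i)) hj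
  rintro _ ⟨a, V, hV, rfl⟩
  simp only [Set.mem_ofPred_eq, Pi.add_apply, dir, mul_zero, mul_one, zero_add, add_assoc,
    ← sc_add, hV]

lemma mem_ideal {L : Set (ι → B)} (hLc : IsClosed L) (hLn : L.Nonempty) (hLE : L ⊆ E α β)
    (hL : ∀ e ∈ E α β, ∀ j ∈ L, e + j ∈ L) {η : ι → B} (hη : η ∈ E α β) (hηη : η + η = η)
    (hmin : ∀ i, Min (η i)) : ∃ l ∈ L, l + η = η := by
  obtain ⟨f, ⟨l, hl, rfl⟩, hf⟩ := exists_idempotent_in_compact_add_subsemigroup contW
    ((fun e => e + η) '' L) (hLn.image _) (hLc.isCompact.image (contW η)) (by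
      rintro _ ⟨x, hx, rfl⟩ _ ⟨y, hy, rfl⟩
      exact ⟨x + η + y, hL _ (E_add α β _ (hLE hx) _ hη) _ hy, by simp only [add_assoc]⟩)
  refine ⟨η + l, hL _ hη _ hl, funext fun i => ?_⟩
  have h1 : (l + η) i + η i = (l + η) i := by
    rw [← Pi.add_apply (l + η), add_assoc, hηη]
  have := (hmin i).absorb (congrFun hf i) h1
  rw [add_assoc]; exact this

lemma exists_theta {L : Set (ι → B)} (hLc : IsClosed L) (hLn : L.Nonempty) (hLE : L ⊆ E α β)
    (hL : ∀ e ∈ E α β, ∀ j ∈ L, e + j ∈ L) {η : ι → B} (hη : η ∈ E α β) (hηη : η + η = η)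
    (hmin : ∀ i, Min (η i)) : ∃ θ ∈ L, θ + η = η ∧ θ + θ = θ := by
  obtain ⟨l, hl, hlη⟩ := mem_ideal α β hLc hLn hLE hL hη hηη hmin
  obtain ⟨θ, ⟨h1, h2⟩, h3⟩ := exists_idempotent_in_compact_add_subsemigroup contW
    (L ∩ {e | e + η = η}) ⟨l, hl, hlη⟩
    (hLc.inter (isClosed_eq (contW _) continuous_const)).isCompact (by
      rintro x ⟨hx, hx'⟩ y ⟨hy, hy'⟩
      refine ⟨hL _ (hLE hx) _ hy, ?_⟩
      simp only [Set.mem_ofPred_eq] at hx' hy' ⊢
      rw [add_assoc, hy', hx'])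
  exact ⟨θ, h1, h2, h3⟩

/-- an idempotent of `E` below `ζ` with prescribed `i`-th coordinate -/
lemma exists_eps {ζ e0 : ι → B} (hζ : ζ ∈ E α β) (hζζ : ζ + ζ = ζ) (i : ι) (hζi : ζ i = pure 0)
    (he0 : e0 ∈ E α β) (hw : e0 i + e0 i = e0 i) :
    ∃ ε ∈ E α β, ε + ζ = ε ∧ ε i = e0 i ∧ ε + ε = ε := by
  obtain ⟨ε, ⟨h1, h2, h3⟩, h4⟩ := exists_idempotent_in_compact_add_subsemigroup contW
    (E α β ∩ ({e | e + ζ = e} ∩ {e | e i = e0 i}))
    ⟨e0 + ζ, E_add α β _ he0 _ hζ, by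
      simp only [Set.mem_ofPred_eq]; rw [add_assoc, hζζ], by
      simp only [Set.mem_ofPred_eq, Pi.add_apply, hζi, add_zero']⟩
    (isClosed_closure.inter ((isClosed_eq (contW _) continuous_id).inter
      (isClosed_eq (continuous_apply i) continuous_const))).isCompact (by
      rintro x ⟨hx, -, hx2⟩ y ⟨hy, hy1, hy2⟩
      refine ⟨E_add α β _ hx _ hy, ?_, ?_⟩
      · simp only [Set.mem_ofPred_eq] at hy1 ⊢
        rw [add_assoc, hy1]
      · simp only [Set.mem_ofPred_eq] at hx2 hy2 ⊢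
        rw [Pi.add_apply, hx2, hy2, hw])
  exact ⟨ε, h1, h2, h3, h4⟩

lemma exists_w {u v : B} (huu : u + u = u) (hu : Min u) (hv : v + v = v) :
    ∃ w : B, w + v = w ∧ w + u = u ∧ w + w = w := by
  obtain ⟨f, ⟨t, rfl⟩, hf⟩ := exists_idempotent_in_compact_add_subsemigroup cont_add
    (Set.range fun t : B => t + (v + u)) (Set.range_nonempty _) (isCompact_range (cont_add _)) (by
      rintro _ ⟨x, rfl⟩ _ ⟨y, rfl⟩
      exact ⟨x + (v + u) + y, by simp only [add_assoc]⟩)
  have h1 := hu.absorb hf (by simp only [add_assoc, huu])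
  obtain ⟨w, ⟨h2, h3⟩, h4⟩ := exists_idempotent_in_compact_add_subsemigroup cont_add
    ({p : B | p + v = p} ∩ {p | p + u = u})
    ⟨u + t + v, by simp only [Set.mem_ofPred_eq, add_assoc, hv], by
      simpa only [Set.mem_ofPred_eq, add_assoc] using h1⟩
    ((isClosed_eq (cont_add _) continuous_id).inter
      (isClosed_eq (cont_add _) continuous_const)).isCompact (by
      rintro x ⟨-, hx⟩ y ⟨hy, hy'⟩
      simp only [Set.mem_ofPred_eq, Set.mem_inter_iff] at *
      exact ⟨by rw [add_assoc, hy], by rw [add_assoc, hy', hx]⟩)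
  exact ⟨w, h2, h3, h4⟩

/-- correcting one coordinate -/
lemma fix {u : B} (huu : u + u = u) (hu : Min u) {η θ : ι → B} (hη : η ∈ E α β)
    (hηη : η + η = η) (hθ : θ ∈ E α β) (hθη : θ + η = η) (hθθ : θ + θ = θ)
    (hmin : ∀ i, Min (θ i)) (i : ι) (p q : ℤ) (hi : α i * p + β i * q = 0)
    (hl : ∀ l, l ≠ i → α l * p + β l * q ≠ 0) (p' q' : ℤ) (hi' : α i * p' + β i * q' = 1)
    {j : ι → B} (hj : j ∈ E α β) (hjθ : j + θ = j) (hji : j i = θ i) :
    ∃ e ∈ E α β, (∀ l, l ≠ i → (e + j) l = j l) ∧ (e + j) i + u = η i + u := by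
  obtain ⟨w, hw1, hw2, hw3⟩ := exists_w huu hu (congrFun hθθ i : θ i + θ i = θ i)
  have hζi : dir α β p q u i = pure 0 := by simp only [dir, hi, sc_zero]
  have hw : dir α β p' q' w i = w := by simp only [dir, hi', sc_one]
  obtain ⟨ε, hεE, hεζ, hεi, hε⟩ := exists_eps α β (dir_mem α β p q u)
    (by rw [← dir_add, huu]) i hζi (dir_mem α β p' q' w) (by rw [hw, hw3])
  rw [hw] at hεi
  have hζε : ∀ l, l ≠ i → dir α β p q u l + ε l = dir α β p q u l := fun l h =>
    Min.absorb (hu.sc (hl l h)) (congrFun hε l) (congrFun hεζ l)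
  have he1 : η + dir α β p q u ∈ E α β := E_add α β _ hη _ (dir_mem α β _ _ _)
  have he2 := E_add α β _ he1 _ hj
  obtain ⟨_, ⟨e', he', rfl⟩, hl'⟩ := mem_ideal α β
    (L := (fun e => e + (η + dir α β p q u + j)) '' E α β)
    (isClosed_closure.isCompact.image (contW _)).isClosed ⟨_, _, hη, rfl⟩
    (by rintro _ ⟨x, hx, rfl⟩; exact E_add α β _ hx _ he2)
    (by rintro e he _ ⟨x, hx, rfl⟩; exact ⟨e + x, E_add α β _ he _ hx, add_assoc _ _ _⟩)
    hθ hθθ hmin
  simp only [add_assoc, hjθ] at hl'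
  have hjj : j + (e' + (η + (dir α β p q u + j))) = j := by rw [hl', hjθ]
  refine ⟨j + e' + (η + dir α β p q u) + ε,
    E_add α β _ (E_add α β _ (E_add α β _ hj _ he') _ he1) _ hεE, fun l h => ?_, ?_⟩
  · have := congrFun hjj l
    simp only [Pi.add_apply, add_assoc] at this ⊢
    rw [← add_assoc (dir α β p q u l), hζε l h, this]
  · have h1 := congrFun hjj i
    have h2 : θ i + η i = η i := congrFun hθη i
    have h3 : η i + η i = η i := congrFun hηη i
    simp only [Pi.add_apply, add_assoc, hζi, zero_add', hji, hεi] at h1 ⊢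
    have h4 : θ i + (e' i + (η i + θ i)) + η i = θ i + η i := by rw [h1]
    simp only [add_assoc, h2, h3] at h4
    rw [← add_assoc w, hw1, hw2, ← add_assoc (e' i), ← add_assoc (θ i), h4]

end Pool.Agent.Lib.helper26.Forms
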