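import Mathlib

namespace Pool.Agent.H26Freq
open Finset

/-- sum over all binary words of length `n` -/
noncomputable def F (n : ℕ) (g : List Bool → ℝ) : ℝ := ∑ u : Fin n → Bool, g (List.ofFn u)

lemma F_zero (g : List Bool → ℝ) : F 0 g = g [] := by simp [F]

lemma F_succ (n : ℕ) (g : List Bool → ℝ) :
    F (n + 1) g = F n (fun l => g (false :: l) + g (true :: l)) := by
  unfold F
  rw [← (Fin.consEquiv (fun _ : Fin (n + 1) => Bool)).sum_comp, Fintype.sum_prod_type,
    Fintype.sum_bool, sum_add_distrib, add_comm]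
  simp [Fin.consEquiv, List.ofFn_succ]

lemma F_mono (n : ℕ) {g h : List Bool → ℝ} (H : ∀ l, g l ≤ h l) : F n g ≤ F n h :=
  sum_le_sum fun _ _ => H _

lemma F_mul (n : ℕ) (c : ℝ) (g : List Bool → ℝ) : F n (fun l => c * g l) = c * F n g := by
  unfold F; rw [mul_sum]

/-- one step of the matching automaton; `r` is the reversed pattern -/
def step (r : List Bool) (a : Bool) (M : List ℕ) : List ℕ :=
  0 :: (M.filter (fun l => r[l]? == some a)).map (· + 1)

def Mf (r : List Bool) : List Bool → List ℕ
  | [] => [0]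
  | a :: u => step r a (Mf r u)

lemma mem_Mf (r : List Bool) (u : List Bool) : ∀ l, l ∈ Mf r u ↔
    l ≤ r.length ∧ (r.take l).reverse <+: u := by
  induction u with
  | nil =>
    intro l
    simp only [Mf, List.mem_singleton, List.prefix_nil, List.reverse_eq_nil_iff,
      List.take_eq_nil_iff]
    constructor
    · rintro rfl; simp
    · rintro ⟨h1, h2 | h2⟩
      · exact h2
      · subst h2; simpa using h1
  | cons a u ih =>
    intro l
    rcases l with _ | l
    · simp [Mf, step]
    · simp only [Mf, step, List.mem_cons, List.mem_map, List.mem_filter, ih, beq_iff_eq,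
        Nat.add_right_cancel_iff, exists_eq_right, Nat.add_eq_zero_iff, one_ne_zero, and_false,
        false_or]
      constructor
      · rintro ⟨⟨-, h2⟩, h3⟩
        obtain ⟨h4, h5⟩ := List.getElem?_eq_some_iff.1 h3
        refine ⟨h4, ?_⟩
        rw [List.take_add_one, h3]
        simpa using h2
      · rintro ⟨h1, h2⟩
        have h3 : r[l]? = some r[l] := List.getElem?_eq_getElem h1
        rw [List.take_add_one, h3] at h2
        simp only [Option.toList_some, List.reverse_append, List.reverse_cons, List.reverse_nil,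
          List.nil_append, List.cons_append, List.cons_prefix_cons] at h2
        exact ⟨⟨by omega, h2.2⟩, by rw [h3, h2.1]⟩

lemma full_mem (w u : List Bool) : w.length ∈ Mf w.reverse u ↔ w <+: u := by
  rw [mem_Mf]
  simp [List.take_of_length_le]

/-- table lookup -/
def pot (p : List ℕ) (M : List ℕ) : ℕ := p.getD (M.getLastD 0) 0

def q (w : List Bool) (p : List ℕ) (M : List ℕ) : ℕ := if w.length ∈ M then 0 else pot p M

def val (w : List Bool) (p : List ℕ) (a0 a1 : ℕ) (M : List ℕ) : ℕ :=
  a0 * q w p (step w.reverse false M) + a1 * q w p (step w.reverse true M)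

def Closed (w : List Bool) (st : List (List ℕ)) : Prop :=
  [0] ∈ st ∧ ∀ M ∈ st, ∀ a : Bool, w.length ∈ step w.reverse a M ∨ step w.reverse a M ∈ st

instance (w : List Bool) (st : List (List ℕ)) : Decidable (Closed w st) := by
  unfold Closed; infer_instance

lemma inv {w : List Bool} {st : List (List ℕ)} (h : Closed w st) (u : List Bool)
    (hu : ¬ w <:+: u) : Mf w.reverse u ∈ st := by
  induction u with
  | nil => exact h.1
  | cons a u ih =>
    rw [List.infix_cons_iff, not_or] at hu
    rcases h.2 _ (ih hu.2) a with h1 | h1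
    · exact absurd ((full_mem w (a :: u)).1 h1) hu.1
    · exact h1

noncomputable def wt (a0 a1 : ℕ) (l : List Bool) : ℝ :=
  (a0 : ℝ) ^ l.count false * (a1 : ℝ) ^ l.count true

open Classical in
noncomputable def W (w : List Bool) (p : List ℕ) (a0 a1 n : ℕ) : ℝ :=
  F n (fun l => if w <:+: l then 0 else wt a0 a1 l * pot p (Mf w.reverse l))

open Classical in
lemma W_succ (w : List Bool) (p : List ℕ) (a0 a1 n : ℕ) : W w p a0 a1 (n + 1) =
    F n (fun l => if w <:+: l then 0 else wt a0 a1 l * val w p a0 a1 (Mf w.reverse l)) := by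
  unfold W
  rw [F_succ]
  congr 1
  funext l
  by_cases h : w <:+: l
  · simp [List.infix_cons_iff, h]
  · simp only [List.infix_cons_iff, h, or_false, if_false, ← full_mem, Mf, val, q, wt]
    split_ifs <;> simp <;> ring

lemma wt_nonneg (a0 a1 : ℕ) (l : List Bool) : 0 ≤ wt a0 a1 l := by unfold wt; positivity

lemma W_le {w : List Bool} {st : List (List ℕ)} (h : Closed w st) (hw : w ≠ []) (p : List ℕ)
    (a0 a1 L : ℕ) (hL : ∀ M ∈ st, val w p a0 a1 M ≤ L * pot p M) (n : ℕ) :
    W w p a0 a1 n ≤ (L : ℝ) ^ n * pot p [0] := by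
  induction n with
  | zero => simp [W, F_zero, hw, wt, Mf]
  | succ n ih =>
    rw [W_succ]
    calc _ ≤ L * W w p a0 a1 n := by
          unfold W
          rw [← F_mul]
          apply F_mono
          intro l
          split_ifs with hl
          · simp
          · have : (val w p a0 a1 (Mf w.reverse l) : ℝ) ≤ L * pot p (Mf w.reverse l) := by
              exact_mod_cast hL _ (inv h l hl)
            have := mul_le_mul_of_nonneg_left this (wt_nonneg a0 a1 l)
            linarith
      _ ≤ L * ((L : ℝ) ^ n * pot p [0]) := by gcongr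
      _ = _ := by ring

lemma W_ge {w : List Bool} {st : List (List ℕ)} (h : Closed w st) (hw : w ≠ []) (p : List ℕ)
    (a0 a1 L : ℕ) (hL : ∀ M ∈ st, L * pot p M ≤ val w p a0 a1 M) (n : ℕ) :
    (L : ℝ) ^ n * pot p [0] ≤ W w p a0 a1 n := by
  induction n with
  | zero => simp [W, F_zero, hw, wt, Mf]
  | succ n ih =>
    rw [W_succ]
    calc _ = L * ((L : ℝ) ^ n * pot p [0]) := by ring
      _ ≤ L * W w p a0 a1 n := by gcongr
      _ ≤ _ := by
          unfold W
          rw [← F_mul]
          apply F_mono
          intro l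
          split_ifs with hl
          · simp
          · have : (L : ℝ) * pot p (Mf w.reverse l) ≤ val w p a0 a1 (Mf w.reverse l) := by
              exact_mod_cast hL _ (inv h l hl)
            have := mul_le_mul_of_nonneg_left this (wt_nonneg a0 a1 l)
            linarith

open Classical in
/-- words of length `n` avoiding `w` -/
noncomputable def Om (w : List Bool) (n : ℕ) : Finset (Fin n → Bool) :=
  univ.filter (fun u => ¬ w <:+: List.ofFn u)

open Classical in
lemma W_eq (w : List Bool) (p : List ℕ) (a0 a1 n : ℕ) : W w p a0 a1 n =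
    ∑ u ∈ Om w n, wt a0 a1 (List.ofFn u) * pot p (Mf w.reverse (List.ofFn u)) := by
  unfold W F Om
  rw [sum_filter]
  exact sum_congr rfl fun u _ => by by_cases hh : w <:+: List.ofFn u <;> simp [hh]

lemma cnt (l : List Bool) : l.count false + l.count true = l.length := by
  induction l with
  | nil => simp
  | cons a l ih => cases a <;> simp <;> omega

theorem main {w : List Bool} {st : List (List ℕ)} (h : Closed w st) (hw : w ≠ [])
    (p p' : List ℕ) (a0 a1 L D L' P : ℕ) (h0 : 0 < a0) (h1 : 0 < a1) (hD : 0 < D) (hL' : 0 < L')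
    (hL0 : 0 < L)
    (hL : ∀ M ∈ st, val w p a0 a1 M ≤ L * pot p M ∧ 1 ≤ pot p M)
    (hL2 : ∀ M ∈ st, L' * pot p' M ≤ val w p' D D M ∧ pot p' M ≤ P ∧ 1 ≤ pot p' M) :
    ∃ K : ℝ, ∀ n : ℕ, n * Real.log a0 +
      (∑ u ∈ Om w n, ((List.ofFn u).count true : ℝ)) / (Om w n).card * (Real.log a1 - Real.log a0)
      ≤ K + n * (Real.log L + Real.log D - Real.log L') := by
  have hP : (1 : ℝ) ≤ P := by exact_mod_cast (hL2 _ h.1).2.2.trans (hL2 _ h.1).2.1
  have hp0 : (1 : ℝ) ≤ pot p [0] := by exact_mod_cast (hL _ h.1).2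
  have hp0' : (1 : ℝ) ≤ pot p' [0] := by exact_mod_cast (hL2 _ h.1).2.2
  refine ⟨Real.log (pot p [0]) + Real.log P, fun n => ?_⟩
  have hin : ∀ u ∈ Om w n, Mf w.reverse (List.ofFn u) ∈ st := fun u hu =>
    inv h _ (by simpa [Om] using hu)
  have a0p : (0 : ℝ) < a0 := by exact_mod_cast h0
  have a1p : (0 : ℝ) < a1 := by exact_mod_cast h1
  have Dp : (0 : ℝ) < D := by exact_mod_cast hD
  have Lp : (0 : ℝ) < L := by exact_mod_cast hL0
  have L'p : (0 : ℝ) < L' := by exact_mod_cast hL'
  have u1 : ∑ u ∈ Om w n, wt a0 a1 (List.ofFn u) ≤ (L : ℝ) ^ n * pot p [0] := by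
    refine le_trans ?_ (W_le h hw p a0 a1 L (fun M hM => (hL M hM).1) n)
    rw [W_eq]
    refine sum_le_sum fun u hu => le_mul_of_one_le_right (wt_nonneg _ _ _) ?_
    exact_mod_cast (hL _ (hin u hu)).2
  have u2 : (L' : ℝ) ^ n ≤ (Om w n).card * ((D : ℝ) ^ n * P) := by
    have := W_ge h hw p' D D L' (fun M hM => (hL2 M hM).1) n
    rw [W_eq] at this
    refine le_trans (le_mul_of_one_le_right (by positivity) hp0') (this.trans ?_)
    rw [← nsmul_eq_mul]
    apply sum_le_card_nsmul
    intro u hu
    have e : wt D D (List.ofFn u) = (D : ℝ) ^ n := by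
      rw [wt, ← pow_add, cnt, List.length_ofFn]
    rw [e]
    gcongr
    exact_mod_cast (hL2 _ (hin u hu)).2.1
  have hN : (0 : ℝ) < (Om w n).card := by
    by_contra hc
    have : ((Om w n).card : ℝ) = 0 := le_antisymm (not_lt.1 hc) (by positivity)
    rw [this, zero_mul] at u2
    have : (0 : ℝ) < (L' : ℝ) ^ n := by positivity
    linarith
  set c := n * Real.log a0 +
    (∑ u ∈ Om w n, ((List.ofFn u).count true : ℝ)) / (Om w n).card * (Real.log a1 - Real.log a0)
    with hc
  have u3 : (Om w n).card * Real.exp c ≤ ∑ u ∈ Om w n, wt a0 a1 (List.ofFn u) := by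
    have e : ∀ u : Fin n → Bool, Real.exp c * ((n * Real.log a0 +
        ((List.ofFn u).count true : ℝ) * (Real.log a1 - Real.log a0) - c) + 1) ≤
        wt a0 a1 (List.ofFn u) := by
      intro u
      have e1 : wt a0 a1 (List.ofFn u) = Real.exp c * Real.exp (n * Real.log a0 +
          ((List.ofFn u).count true : ℝ) * (Real.log a1 - Real.log a0) - c) := by
        have e2 : (n : ℝ) = (List.ofFn u).count false + (List.ofFn u).count true := by
          have := cnt (List.ofFn u)
          rw [List.length_ofFn] at this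
          exact_mod_cast this.symm
        rw [← Real.exp_add, add_sub_cancel, wt, ← Real.exp_log (pow_pos a0p _),
          ← Real.exp_log (pow_pos a1p _), ← Real.exp_add, Real.log_pow, Real.log_pow]
        congr 1
        rw [e2]; ring
      rw [e1]
      exact mul_le_mul_of_nonneg_left (Real.add_one_le_exp _) (Real.exp_pos c).le
    refine le_trans (le_of_eq ?_) (sum_le_sum fun u _ => e u)
    rw [← mul_sum]
    simp only [sum_add_distrib, sum_sub_distrib, ← sum_mul, sum_const, nsmul_eq_mul, mul_one]
    generalize (∑ u ∈ Om w n, ((List.ofFn u).count true : ℝ)) = S at hc ⊢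
    have : ((Om w n).card : ℝ) * c = (Om w n).card * (n * Real.log a0) +
        S * (Real.log a1 - Real.log a0) := by
      rw [hc]
      field_simp
    rw [this]
    ring
  have u4 : Real.exp c * (L' : ℝ) ^ n ≤ (L : ℝ) ^ n * pot p [0] * ((D : ℝ) ^ n * P) := by
    calc _ ≤ Real.exp c * ((Om w n).card * ((D : ℝ) ^ n * P)) := by gcongr
      _ = (Om w n).card * Real.exp c * ((D : ℝ) ^ n * P) := by ring
      _ ≤ _ := mul_le_mul_of_nonneg_right (u3.trans u1) (by positivity)
  have u5 := Real.log_le_log (by positivity) u4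
  rw [Real.log_mul (by positivity) (by positivity), Real.log_mul (by positivity) (by positivity),
    Real.log_mul (by positivity) (by positivity), Real.log_mul (by positivity) (by positivity),
    Real.log_exp, Real.log_pow, Real.log_pow, Real.log_pow] at u5
  linarith

end Pool.Agent.H26Freq
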