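import Mathlib

namespace Pool.Agent.Lib.helper26.GMix
open MeasureTheory Real Function
open scoped RealInnerProductSpace

section
variable {Ω Θ Θ' : Type} [MeasurableSpace Ω] [MeasurableSpace Θ] [MeasurableSpace Θ']
  {P : Measure Ω}

lemma cs {a b : Ω → ℝ} (ha : Integrable (fun x => a x * a x) P)
    (hb : Integrable (fun x => b x * b x) P) (h : AEStronglyMeasurable (fun x => a x * b x) P) :
    Integrable (fun x => a x * b x) P ∧
      (∫ x, a x * b x ∂P) ^ 2 ≤ (∫ x, a x * a x ∂P) * ∫ x, b x * b x ∂P := by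
  have hi : Integrable (fun x => a x * b x) P := (ha.add hb).mono' h (.of_forall fun x => by
    rw [Real.norm_eq_abs, abs_le]
    constructor <;> simp only [Pi.add_apply] <;>
      nlinarith [sq_nonneg (a x + b x), sq_nonneg (a x - b x)])
  refine ⟨hi, ?_⟩
  have := discrim_le_zero (a := ∫ x, a x * a x ∂P) (b := 2 * ∫ x, a x * b x ∂P)
    (c := ∫ x, b x * b x ∂P) fun t => by
      have : 0 ≤ ∫ x, a x * a x * (t * t) + 2 * t * (a x * b x) + b x * b x ∂P :=
        integral_nonneg fun x => by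
          simp only [Pi.zero_apply]; nlinarith [sq_nonneg (t * a x + b x)]
      rw [integral_add ((ha.mul_const _).fun_add (hi.const_mul _)) hb,
        integral_add (ha.mul_const _) (hi.const_mul _), integral_mul_const,
        integral_const_mul] at this
      linarith
  rw [discrim] at this
  linarith

def Dens (P : Measure Ω) (b : Ω → ℝ) : Prop :=
  Integrable (fun ω => exp (b ω)) P ∧ ∫ ω, exp (b ω) ∂P = 1

lemma Dens.prod [SFinite P] {a b : Ω → ℝ} (ha : Dens P a) (hb : Dens P b) :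
    Dens (P.prod P) fun z => a z.1 + b z.2 := by
  simp only [Dens, exp_add]
  exact ⟨ha.1.mul_prod hb.1, by
    rw [integral_prod_mul (fun x => exp (a x)) fun x => exp (b x), ha.2, hb.2, one_mul]⟩

noncomputable def G (m : Measure Θ) (c : Θ → ℝ) (a : Θ → Ω → ℝ) (ω : Ω) : ℝ :=
  ∫ θ, c θ * exp (a θ ω) ∂m

lemma bd (m : Measure Θ) [IsFiniteMeasure m] {c k : Θ → ℝ} (hc : Measurable c) (hk : Measurable k)
    (h1 : ∀ t, |c t| ≤ 1) {C : ℝ} (h2 : ∀ t, k t ≤ C) : Integrable (fun t => c t * exp (k t)) m ∧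
      ∫ t, c t * exp (k t) ∂m ≤ m.real Set.univ * exp C := by
  have b : ∀ t, ‖c t * exp (k t)‖ ≤ exp C := fun t => by
    rw [norm_mul, Real.norm_eq_abs, Real.norm_eq_abs, abs_exp, ← one_mul (exp C)]
    gcongr
    exacts [h1 t, h2 t]
  refine ⟨.of_bound (by fun_prop) _ (.of_forall b), (le_abs_self _).trans ?_⟩
  rw [mul_comm]
  exact norm_integral_le_of_norm_le_const (.of_forall b)

lemma mix [SFinite P] (m : Measure Θ) [IsFiniteMeasure m] {c k : Θ → ℝ} {a : Θ → Ω → ℝ}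
    (hc : Measurable c) (hk : Measurable k) (ha : Measurable (uncurry a)) (h1 : ∀ t, |c t| ≤ 1)
    {C : ℝ} (h2 : ∀ t, k t ≤ C) (h : ∀ t, ∃ b, Dens P b ∧ ∀ ω, a t ω = k t + b ω) :
    Integrable (G m c a) P ∧ ∫ ω, G m c a ω ∂P = ∫ t, c t * exp (k t) ∂m := by
  choose b hb e using h
  have hi : Integrable (uncurry fun t ω => c t * exp (a t ω)) (m.prod P) := by
    have : Measurable (uncurry fun t ω => c t * exp (a t ω)) := (hc.comp measurable_fst).mul ha.exp
    refine (integrable_prod_iff this.aestronglyMeasurable).2 ⟨.of_forall fun t => ?_, ?_⟩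
    · simp only [uncurry, e, exp_add, ← mul_assoc]
      exact (hb t).1.const_mul _
    · simp only [uncurry, e, exp_add, ← mul_assoc, norm_mul _ (exp (b _ _)), Real.norm_eq_abs
        (exp _), abs_exp, integral_const_mul, (hb _).2, mul_one]
      exact (bd m hc hk h1 h2).1.norm
  refine ⟨hi.integral_prod_right, (integral_integral_swap hi).symm.trans ?_⟩
  simp only [e, exp_add, ← mul_assoc, integral_const_mul, (hb _).2, mul_one]

omit [MeasurableSpace Ω] in
lemma Gmul (m : Measure Θ) [SFinite m] (m' : Measure Θ') [SFinite m'] (c : Θ → ℝ) (c' : Θ' → ℝ)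
    (a : Θ → Ω → ℝ) (a' : Θ' → Ω → ℝ) (ω : Ω) : G m c a ω * G m' c' a' ω =
      G (m.prod m') (fun t => c t.1 * c' t.2) (fun t ω => a t.1 ω + a' t.2 ω) ω := by
  rw [G, G, ← integral_prod_mul, G]
  simp only [exp_add, mul_mul_mul_comm]

lemma two [SFinite P] (m : Measure Θ) [IsFiniteMeasure m] {c c' : Θ → ℝ} {k : Θ × Θ → ℝ}
    {a a' : Θ → Ω → ℝ} (hc : Measurable c) (hc' : Measurable c') (hk : Measurable k)
    (ha : Measurable (uncurry a)) (ha' : Measurable (uncurry a')) (h1 : ∀ t, |c t| ≤ 1)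
    (h1' : ∀ t, |c' t| ≤ 1) {C : ℝ} (h2 : ∀ t, k t ≤ C)
    (h : ∀ t, ∃ b, Dens P b ∧ ∀ ω, a t.1 ω + a' t.2 ω = k t + b ω) :
    Integrable (fun ω => G m c a ω * G m c' a' ω) P ∧
      ∫ ω, G m c a ω * G m c' a' ω ∂P = ∫ t, c t.1 * c' t.2 * exp (k t) ∂m.prod m := by
  simp only [Gmul]
  exact mix _ (by fun_prop) hk ((ha.comp (f := fun z : (Θ × Θ) × Ω => (z.1.1, z.2))
    (by fun_prop)).add (ha'.comp (f := fun z : (Θ × Θ) × Ω => (z.1.2, z.2)) (by fun_prop)))
    (fun t => by rw [abs_mul]; exact mul_le_one₀ (h1 _) (abs_nonneg _) (h1' _)) h2 h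
end

variable {E Θ : Type} [NormedAddCommGroup E] [InnerProductSpace ℝ E] [FiniteDimensional ℝ E]
  [MeasurableSpace E] [BorelSpace E] [MeasurableSpace Θ]

noncomputable def l (θ x : E) : ℝ := ⟪θ, x⟫ - ⟪θ, θ⟫ / 2

@[fun_prop] lemma ml {α : Type} [MeasurableSpace α] {f g : α → E} (hf : Measurable f)
    (hg : Measurable g) : Measurable fun a => l (f a) (g a) := by unfold l; fun_prop

omit [FiniteDimensional ℝ E] [MeasurableSpace E] [BorelSpace E] in
lemma l_le (θ x : E) : l θ x ≤ ⟪x, x⟫ / 2 := by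
  have := real_inner_self_nonneg (x := θ - x)
  simp only [inner_sub_left, inner_sub_right, real_inner_comm θ x] at this
  rw [l]; linarith

section
variable {γ : Measure E} [IsProbabilityMeasure γ] (hγ : ∀ θ, Dens γ (l θ))
  (m : Measure Θ) [IsFiniteMeasure m] {s : Θ → ℝ} {v : Θ → E} (hs : Measurable s)
  (hv : Measurable v) (h1 : ∀ t, |s t| ≤ 1) {L : ℝ} (hL : ∀ a b, |⟪v a, v b⟫| ≤ L)

noncomputable def n (m : Measure Θ) (s : Θ → ℝ) (v : Θ → E) (u : ℝ) : ℝ :=
  ∫ t, s t.1 * s t.2 * exp (u * ⟪v t.1, v t.2⟫) ∂m.prod m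

noncomputable def g (m : Measure Θ) (s : Θ → ℝ) (v : Θ → E) (u : ℝ) : E → ℝ :=
  G m s fun θ => l (u • v θ)

include hγ hs hv h1 hL

lemma gg (a b : ℝ) : Integrable (fun x => g m s v a x * g m s v b x) γ ∧
    ∫ x, g m s v a x * g m s v b x ∂γ = n m s v (a * b) :=
  two m hs hs (by fun_prop) (by unfold uncurry; fun_prop) (by unfold uncurry; fun_prop) h1 h1
    (C := |a * b| * L) (fun t => (le_abs_self _).trans (by rw [abs_mul]; gcongr; exact hL _ _))
    fun t => ⟨_, hγ (a • v t.1 + b • v t.2), fun x => by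
      simp only [l, inner_add_left, inner_add_right, real_inner_smul_left, real_inner_smul_right,
        real_inner_comm (v t.1) (v t.2)]
      ring⟩

lemma nn (a b : ℝ) : n m s v (a * b) ^ 2 ≤ n m s v (a * a) * n m s v (b * b) := by
  have := fun a b => gg hγ m hs hv h1 hL a b
  rw [← (this a b).2, ← (this a a).2, ← (this b b).2]
  exact (cs (this a a).1 (this b b).1 (this a b).1.1).2

lemma hyper : Integrable (fun x => g m s v 1 x ^ 2 * g m s v 1 x ^ 2) γ ∧
    ∫ x, g m s v 1 x ^ 2 * g m s v 1 x ^ 2 ∂γ ≤ n m s v 3 ^ 2 := by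
  obtain ⟨r, hr⟩ : ∃ r : ℝ, r * r = 2 := ⟨√2, mul_self_sqrt zero_le_two⟩
  let c : Θ × Θ → ℝ := fun t => s t.1 * s t.2
  have hc : Measurable c := by fun_prop
  have c1 : ∀ t, |c t| ≤ 1 := fun t => by
    rw [abs_mul]; exact mul_le_one₀ (h1 _) (abs_nonneg _) (h1 _)
  have hl := fun a b => (le_abs_self _).trans (hL a b)
  let A : Θ × Θ → E × E → ℝ := fun t z => l ((1 : ℝ) • v t.1) z.1 + l ((1 : ℝ) • v t.2) z.1
  let B : Θ × Θ → E × E → ℝ := fun t z => A t z + l (v t.1 - v t.2) z.2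
  let C : Θ × Θ → E × E → ℝ := fun t z => ⟪v t.1, v t.2⟫ + l (r • v t.1) z.1 + l (r • v t.2) z.2
  have mA : Measurable (uncurry A) := by unfold uncurry; fun_prop
  have mB : Measurable (uncurry B) := by unfold uncurry; fun_prop
  have mC : Measurable (uncurry C) := by unfold uncurry; fun_prop
  let k : (Θ × Θ) × Θ × Θ → ℝ := fun t => ⟪v t.1.1, v t.1.2⟫ + ⟪v t.2.1, v t.2.2⟫ +
    ⟪v t.1.1, v t.2.1⟫ + ⟪v t.1.2, v t.2.2⟫ + ⟪v t.1.1, v t.2.2⟫ + ⟪v t.1.2, v t.2.1⟫
  let k' : (Θ × Θ) × Θ × Θ → ℝ := fun t => ⟪v t.1.1, v t.1.2⟫ + ⟪v t.2.1, v t.2.2⟫ +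
    ⟪v t.1.1, v t.2.1⟫ + ⟪v t.1.2, v t.2.2⟫ + ⟪v t.1.1, v t.2.1⟫ + ⟪v t.1.2, v t.2.2⟫
  have bk : ∀ t, k t ≤ L + L + L + L + L + L := fun t => by
    simp only [k]; gcongr <;> exact hl _ _
  have bk' : ∀ t, k' t ≤ L + L + L + L + L + L := fun t => by
    simp only [k']; gcongr <;> exact hl _ _
  have AA := two (m.prod m) hc hc (by fun_prop) mA mA c1 c1 bk fun t =>
    ⟨_, (hγ (v t.1.1 + v t.1.2 + v t.2.1 + v t.2.2)).prod (hγ 0), fun z => by
      simp only [A, k, l, one_smul, inner_add_left, inner_add_right, inner_zero_left,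
        real_inner_comm (v _) (v _)]
      ring⟩
  have AB := two (m.prod m) hc hc (by fun_prop) mA mB c1 c1 bk fun t =>
    ⟨_, (hγ (v t.1.1 + v t.1.2 + v t.2.1 + v t.2.2)).prod (hγ (v t.2.1 - v t.2.2)), fun z => by
      simp only [A, B, k, l, one_smul, inner_add_left, inner_add_right,
        real_inner_comm (v _) (v _)]
      ring⟩
  have BB := two (m.prod m) hc hc (by fun_prop) mB mB c1 c1 bk' fun t =>
    ⟨_, (hγ (v t.1.1 + v t.1.2 + v t.2.1 + v t.2.2)).prod
      (hγ (v t.1.1 - v t.1.2 + (v t.2.1 - v t.2.2))), fun z => by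
      simp only [A, B, k', l, one_smul, inner_add_left, inner_add_right, inner_sub_left,
        inner_sub_right, real_inner_comm (v _) (v _)]
      ring⟩
  have CC := two (m.prod m) hc hc (by fun_prop) mC mC c1 c1 bk' fun t =>
    ⟨_, (hγ (r • v t.1.1 + r • v t.2.1)).prod (hγ (r • v t.1.2 + r • v t.2.2)), fun z => by
      simp only [C, k', l, inner_add_left, inner_add_right, real_inner_smul_left,
        real_inner_smul_right, ← mul_assoc, hr, real_inner_comm (v _) (v _)]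
      ring⟩
  have eA : ∀ z, G (m.prod m) c A z = g m s v 1 z.1 ^ 2 := fun z => by
    rw [sq, g, Gmul]; rfl
  -- diagonal
  have D := mix (P := γ) (m.prod m) (a := fun t x => C t (x, x)) hc
    (k := fun t => 3 * ⟪v t.1, v t.2⟫) (by fun_prop) (by unfold uncurry; fun_prop) c1
    (C := 3 * L) (fun t => by gcongr; exact hl _ _) fun t =>
      ⟨_, hγ (r • v t.1 + r • v t.2), fun z => by
      simp only [C, l, inner_add_left, inner_add_right, real_inner_smul_left,
        real_inner_smul_right, ← mul_assoc, hr, real_inner_comm (v _) (v _)]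
      ring⟩
  have W := fun x y : E => two (P := γ) m (a := fun θ w => l (r • v θ) x + l (v θ) w)
    (a' := fun θ w => l (r • v θ) y + l (v θ) w) (k := fun t => C t (x, y)) hs hs (by fun_prop)
    (by unfold uncurry; fun_prop) (by unfold uncurry; fun_prop) h1 h1
    (C := L + ⟪x, x⟫ / 2 + ⟪y, y⟫ / 2)
    (fun t => add_le_add (add_le_add (hl _ _) (l_le _ _)) (l_le _ _)) fun t =>
      ⟨_, hγ (v t.1 + v t.2), fun z => by
      simp only [C, l, inner_add_left, inner_add_right, real_inner_comm (v _) (v _)]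
      ring⟩
  have Q : ∫ z, G (m.prod m) c C z * G (m.prod m) c C z ∂γ.prod γ ≤ n m s v 3 ^ 2 := by
    refine (integral_mono CC.1 (D.1.mul_prod D.1) fun z => ?_).trans_eq ?_
    · have := (cs (W z.1 z.1).1 (W z.2 z.2).1 (W z.1 z.2).1.1).2
      rw [(W _ _).2, (W _ _).2, (W _ _).2, sq] at this
      exact this
    · rw [integral_prod_mul, D.2, sq]; rfl
  have H := (cs AA.1 BB.1 AB.1.1).2
  rw [AB.2, ← AA.2, BB.2, ← CC.2] at H
  simp only [eA] at H AA
  have e := integral_fun_fst (μ := γ) (ν := γ) fun x => g m s v 1 x ^ 2 * g m s v 1 x ^ 2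
  rw [probReal_univ, one_smul] at e
  rw [e] at H
  refine ⟨by simpa using AA.1.integral_prod_left, ?_⟩
  by_contra! hc
  nlinarith [sq_nonneg (n m s v 3)]
end


lemma arith {K N P H X Y T : ℝ} (hK : 1 ≤ K) (hN : 0 ≤ N) (hN' : N ≤ K) (hH : 0 ≤ H)
    (h1 : P ^ 4 ≤ N ^ 7 * K) (h2 : N ^ 2 ≤ H * X) (h3 : X ^ 2 ≤ K * P)
    (h4 : T ^ 2 ≤ P * Y) (h5 : Y ^ 2 ≤ P * K) : T ≤ K ^ 2 * H := by
  have a1 : N ^ 9 ≤ H ^ 8 * K ^ 5 := by
    rcases hN.eq_or_lt with rfl | hN
    · rw [zero_pow (by norm_num)]; positivity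
    refine le_of_mul_le_mul_right ?_ (pow_pos hN 7)
    calc N ^ 9 * N ^ 7 = (N ^ 2) ^ 8 := by ring
      _ ≤ (H * X) ^ 8 := by gcongr
      _ = H ^ 8 * (X ^ 2) ^ 4 := by ring
      _ ≤ H ^ 8 * (K * P) ^ 4 := by gcongr
      _ = H ^ 8 * K ^ 4 * P ^ 4 := by ring
      _ ≤ H ^ 8 * K ^ 4 * (N ^ 7 * K) := by gcongr
      _ = _ := by ring
  refine (le_abs_self T).trans (le_of_pow_le_pow_left₀ (n := 16) (by norm_num) (by positivity) ?_)
  calc |T| ^ 16 = (T ^ 2) ^ 8 := by rw [← sq_abs]; ring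
    _ ≤ (P * Y) ^ 8 := by gcongr
    _ = P ^ 8 * (Y ^ 2) ^ 4 := by ring
    _ ≤ P ^ 8 * (P * K) ^ 4 := by gcongr
    _ = (P ^ 4) ^ 3 * K ^ 4 := by ring
    _ ≤ (N ^ 7 * K) ^ 3 * K ^ 4 := by gcongr
    _ = (N ^ 9) ^ 2 * N ^ 3 * K ^ 7 := by ring
    _ ≤ (H ^ 8 * K ^ 5) ^ 2 * K ^ 3 * K ^ 7 := by gcongr
    _ = K ^ 20 * H ^ 16 := by ring
    _ ≤ K ^ 32 * H ^ 16 := by gcongr; norm_num
    _ = _ := by ring

lemma pt {p q : ℝ} (hp : 0 < p) (hq : 0 < q) :
    (p - q) ^ 2 / q ≤ 9 * (√p - √q) ^ 2 + (p - q) ^ 2 * (|p - q| * q⁻¹ ^ 2) := by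
  obtain ⟨a, ha, rfl⟩ : ∃ a, 0 < a ∧ p = a ^ 2 := ⟨√p, sqrt_pos.2 hp, (sq_sqrt hp.le).symm⟩
  obtain ⟨b, hb, rfl⟩ : ∃ a, 0 < a ∧ q = a ^ 2 := ⟨√q, sqrt_pos.2 hq, (sq_sqrt hq.le).symm⟩
  rw [sqrt_sq ha.le, sqrt_sq hb.le]
  rcases le_total a (2 * b) with h | h
  · refine le_add_of_le_of_nonneg ?_ (by positivity)
    rw [div_le_iff₀ hq, show (a ^ 2 - b ^ 2) ^ 2 = (a - b) ^ 2 * (a + b) ^ 2 by ring,
      show 9 * (a - b) ^ 2 * b ^ 2 = (a - b) ^ 2 * (3 * b) ^ 2 by ring]
    gcongr; linarith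
  · refine le_add_of_nonneg_of_le (by positivity) ?_
    rw [div_eq_mul_inv]
    gcongr
    rw [sq (b ^ 2)⁻¹, ← mul_assoc]
    refine le_mul_of_one_le_left (by positivity) ?_
    rw [← div_eq_mul_inv, one_le_div hq]
    exact le_trans (by nlinarith) (le_abs_self _)

lemma ana {Ω : Type} [MeasurableSpace Ω] {γ : Measure Ω} {p q : Ω → ℝ} {K : ℝ} (hK : 1 ≤ K)
    (hp : ∀ x, 0 < p x) (hq : ∀ x, 0 < q x) (mp : Measurable p) (mq : Measurable q)
    (ip : Integrable p γ) (iq : Integrable q γ) (e : ∫ x, p x ∂γ = ∫ x, q x ∂γ)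
    (i4 : Integrable (fun x => (p x - q x) ^ 2 * (p x - q x) ^ 2) γ)
    (ih : Integrable (fun x => (p x + q x) * (p x + q x)) γ)
    (i8 : Integrable (fun x => (q x)⁻¹ ^ 4 * (q x)⁻¹ ^ 4) γ)
    (b2 : ∫ x, (p x - q x) * (p x - q x) ∂γ ≤ K)
    (b4 : (∫ x, (p x - q x) ^ 2 * (p x - q x) ^ 2 ∂γ) ^ 4 ≤
      (∫ x, (p x - q x) * (p x - q x) ∂γ) ^ 7 * K)
    (bh : 4 * ∫ x, (p x + q x) * (p x + q x) ∂γ ≤ K)
    (b8 : ∫ x, (q x)⁻¹ ^ 4 * (q x)⁻¹ ^ 4 ∂γ ≤ K) :
    Integrable (fun x => p x * log (p x / q x)) γ ∧ Integrable (fun x => (p x - q x) ^ 2 / q x) γ ∧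
    Integrable (fun x => (√(p x) - √(q x)) ^ 2) γ ∧
    ∫ x, p x * log (p x / q x) ∂γ ≤ ∫ x, (p x - q x) ^ 2 / q x ∂γ ∧
    ∫ x, (p x - q x) ^ 2 / q x ∂γ ≤ (9 + K ^ 2) * ∫ x, (√(p x) - √(q x)) ^ 2 ∂γ := by
  have sp := fun x => sq_sqrt (hp x).le
  have sq' := fun x => sq_sqrt (hq x).le
  have iH : Integrable (fun x => (√(p x) - √(q x)) * (√(p x) - √(q x))) γ :=
    (ip.add iq).mono' (by fun_prop) (.of_forall fun x => by
      rw [Real.norm_of_nonneg (mul_self_nonneg _), Pi.add_apply]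
      nlinarith [sp x, sq' x, mul_nonneg (sqrt_nonneg (p x)) (sqrt_nonneg (q x))])
  have b1 : ∀ x, (√(p x) + √(q x)) ^ 2 * (√(p x) + √(q x)) ^ 2 ≤
      4 * ((p x + q x) * (p x + q x)) := fun x => by
    have : (√(p x) + √(q x)) ^ 2 ≤ 2 * (p x + q x) := by
      nlinarith [sp x, sq' x, sq_nonneg (√(p x) - √(q x))]
    nlinarith [sq_nonneg (√(p x) + √(q x))]
  have i1 : Integrable (fun x => (√(p x) + √(q x)) ^ 2 * (√(p x) + √(q x)) ^ 2) γ :=
    (ih.const_mul 4).mono' (by fun_prop) (.of_forall fun x =>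
      (Real.norm_of_nonneg (mul_self_nonneg _)).trans_le (b1 x))
  have X := cs i1 i4 (by fun_prop)
  have X' : ∀ x, (√(p x) + √(q x)) * (p x - q x) * ((√(p x) + √(q x)) * (p x - q x)) =
    (√(p x) + √(q x)) ^ 2 * (p x - q x) ^ 2 := fun x => by ring
  have N := (cs iH (X.1.congr (.of_forall fun x => (X' x).symm)) (by fun_prop)).2
  have N' : ∀ x, (√(p x) - √(q x)) * ((√(p x) + √(q x)) * (p x - q x)) =
    (p x - q x) * (p x - q x) := fun x => by rw [← mul_assoc]; congr 1; nlinarith [sp x, sq' x]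
  simp only [X', N'] at N
  have Y := cs i4 i8 (by fun_prop)
  have Y' : ∀ x, |p x - q x| * (q x)⁻¹ ^ 2 * (|p x - q x| * (q x)⁻¹ ^ 2) =
    (p x - q x) ^ 2 * (q x)⁻¹ ^ 4 := fun x => by rw [← sq_abs (p x - q x)]; ring
  have T := cs i4 (Y.1.congr (.of_forall fun x => (Y' x).symm)) (by fun_prop)
  simp only [Y'] at T
  have hP : 0 ≤ ∫ x, (p x - q x) ^ 2 * (p x - q x) ^ 2 ∂γ := integral_nonneg fun x => by positivity
  have A := arith hK (integral_nonneg fun x => mul_self_nonneg _) b2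
    (integral_nonneg fun x => mul_self_nonneg _) b4 N (X.2.trans (by
      gcongr
      exact (integral_mono i1 (ih.const_mul 4) b1).trans ((integral_const_mul _ _).trans_le bh)))
    T.2 (Y.2.trans (by gcongr))
  simp only [← sq (√(p _) - √(q _))] at iH A
  have iχ : Integrable (fun x => (p x - q x) ^ 2 / q x) γ :=
    ((iH.const_mul 9).add T.1).mono' (Measurable.aestronglyMeasurable (by fun_prop)) (.of_forall fun x =>
      (Real.norm_of_nonneg (div_nonneg (sq_nonneg _) (hq x).le)).trans_le (pt (hp x) (hq x)))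
  have k1 : ∀ x, p x * log (p x / q x) ≤ (p x - q x) ^ 2 / q x + (p x - q x) := fun x => by
    refine (mul_le_mul_of_nonneg_left (log_le_sub_one_of_pos (div_pos (hp x) (hq x)))
      (hp x).le).trans_eq ?_
    have := (hq x).ne'
    field_simp; ring
  have k2 : ∀ x, p x - q x ≤ p x * log (p x / q x) := fun x => by
    refine le_trans (le_of_eq ?_) (mul_le_mul_of_nonneg_left (one_sub_inv_le_log_of_pos
      (div_pos (hp x) (hq x))) (hp x).le)
    have := (hp x).ne'
    field_simp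
  have ik : Integrable (fun x => p x * log (p x / q x)) γ :=
    (iχ.add (ip.sub iq).norm).mono' (by fun_prop) (.of_forall fun x => by
      have := div_nonneg (sq_nonneg (p x - q x)) (hq x).le
      simp only [Pi.add_apply, Pi.sub_apply, Real.norm_eq_abs]
      exact abs_le.2 ⟨by linarith [k2 x, neg_abs_le (p x - q x)],
        by linarith [k1 x, le_abs_self (p x - q x)]⟩)
  refine ⟨ik, iχ, iH, (integral_mono ik (iχ.add (ip.sub iq)) k1).trans_eq ?_,
    (integral_mono iχ ((iH.const_mul 9).add T.1) fun x => pt (hp x) (hq x)).trans ?_⟩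
  · rw [integral_add' iχ (ip.sub iq), integral_sub' ip iq, e, sub_self, add_zero]
  · rw [integral_add' (iH.const_mul 9) T.1, integral_const_mul]
    linarith

lemma core {γ : Measure E} [IsProbabilityMeasure γ] (hγ : ∀ θ, Dens γ (l θ)) (μ ν : Measure E)
    [IsProbabilityMeasure μ] [IsProbabilityMeasure ν] {r : E → E} (hr : Measurable r) {L : ℝ}
    (hL : ∀ a b, |⟪r a, r b⟫| ≤ L) {p q : E → ℝ} (hp : ∀ x, p x = ∫ θ, exp (l (r θ) x) ∂μ)
    (hq : ∀ x, q x = ∫ θ, exp (l (r θ) x) ∂ν) :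
    Integrable (fun x => p x * log (p x / q x)) γ ∧ Integrable (fun x => (p x - q x) ^ 2 / q x) γ ∧
    Integrable (fun x => (√(p x) - √(q x)) ^ 2) γ ∧
    ∫ x, p x * log (p x / q x) ∂γ ≤ ∫ x, (p x - q x) ^ 2 / q x ∂γ ∧
    ∫ x, (p x - q x) ^ 2 / q x ∂γ ≤
      (9 + (16 * exp (6561 * L)) ^ 2) * ∫ x, (√(p x) - √(q x)) ^ 2 ∂γ := by
  have L0 : 0 ≤ L := (abs_nonneg _).trans (hL 0 0)
  have one : ∀ (κ : Measure E) [IsProbabilityMeasure κ] (f : E → ℝ),
      (∀ x, f x = ∫ θ, exp (l (r θ) x) ∂κ) → (∀ x, Integrable (fun θ => exp (l (r θ) x)) κ) ∧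
      (∀ x, 0 < f x) ∧ Measurable f ∧ Integrable f γ ∧ ∫ x, f x ∂γ = 1 := fun κ _ f hf => by
    have i : ∀ x, Integrable (fun θ => exp (l (r θ) x)) κ := fun x => by
      simpa using (bd κ (c := fun _ => 1) (k := fun θ => l (r θ) x) measurable_const (by fun_prop)
        (by simp) fun θ => l_le _ x).1
    have := mix κ (c := fun _ => 1) (k := fun _ => 0) (a := fun θ => l (r θ)) measurable_const
      measurable_const (by unfold uncurry; fun_prop) (by simp) (fun _ => le_rfl)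
      fun θ => ⟨_, hγ (r θ), by simp⟩
    obtain rfl : f = _ := funext hf
    refine ⟨i, fun x => integral_exp_pos (i x), (StronglyMeasurable.integral_prod_left
      (f := fun θ x => exp (l (r θ) x)) (Measurable.stronglyMeasurable
      (by unfold uncurry; fun_prop))).measurable, ?_⟩
    unfold G at this
    simpa using this
  obtain ⟨jp, p0, mp, ip, ep⟩ := one μ p hp
  obtain ⟨jq, q0, mq, iq, eq⟩ := one ν q hq
  let m : Measure (Bool × E) := μ.map (Prod.mk true) + ν.map (Prod.mk false)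
  have m4 : (m.prod m).real Set.univ = 4 := by
    rw [← Set.univ_prod_univ, measureReal_prod_prod]
    simp [m, measureReal_add_apply, map_measureReal_apply measurable_prodMk_left]; norm_num
  let v : Bool × E → E := fun t => r t.2
  have hv : Measurable v := by fun_prop
  have eg : ∀ c : Bool → ℝ, (∀ b, |c b| ≤ 1) → ∀ x,
      g m (fun t => c t.1) v 1 x = c true * p x + c false * q x := fun c hc x => by
    have := fun (κ : Measure (Bool × E)) [IsFiniteMeasure κ] => (bd κ (c := fun t => c t.1)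
      (k := fun t => l ((1 : ℝ) • v t) x) (by fun_prop) (by fun_prop) (fun t => hc _)
      fun θ => l_le _ x).1
    rw [g, G, integral_add_measure (this _) (this _),
      (measurableEmbedding_prodMk_left _).integral_map,
      (measurableEmbedding_prodMk_left _).integral_map, hp, hq]
    simp [v, integral_const_mul]
  have bn : ∀ c : Bool → ℝ, (∀ b, |c b| ≤ 1) → ∀ u, 0 ≤ u → u ≤ 6561 →
      n m (fun t => c t.1) v u ≤ 4 * exp (6561 * L) := fun c hc u h0 h1 => m4 ▸
    (bd (m.prod m) (by fun_prop) (by fun_prop) (fun t => by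
      rw [abs_mul]; exact mul_le_one₀ (hc _) (abs_nonneg _) (hc _)) fun t =>
      (mul_le_mul_of_nonneg_left ((le_abs_self _).trans (hL _ _)) h0).trans (by gcongr)).2
  let c : Bool → ℝ := fun b => if b then 1 else -1
  have hc : ∀ b, |c b| ≤ 1 := by simp [c]
  have hs : Measurable fun t : Bool × E => c t.1 := by fun_prop
  have hL' : ∀ a b, |⟪v a, v b⟫| ≤ L := fun a b => hL _ _
  have e1 : ∀ x, g m (fun t => c t.1) v 1 x = p x - q x := fun x => by
    rw [eg c hc]; simp [c, sub_eq_add_neg]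
  have e2 : ∀ x, g m (fun _ => 1) v 1 x = p x + q x := fun x => by
    rw [eg (fun _ => 1) (by simp)]; simp
  have g2 := gg hγ m hs hv (fun _ => hc _) hL' 1 1
  have g4 := hyper hγ m hs hv (fun _ => hc _) hL'
  have gh := gg hγ m (s := fun _ => 1) measurable_const hv (by simp) hL' 1 1
  have n3 := nn hγ m hs hv (fun _ => hc _) hL' 1 3
  have n9 := nn hγ m hs hv (fun _ => hc _) hL' 1 9
  have n81 := nn hγ m hs hv (fun _ => hc _) hL' 1 81
  have z : ∀ a, 0 ≤ n m (fun t => c t.1) v (a * a) := fun a =>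
    (gg hγ m hs hv (fun _ => hc _) hL' a a).2 ▸ integral_nonneg fun x => mul_self_nonneg _
  have z1 := z 1
  have z3 := z 3
  have z9 := z 9
  simp only [e1, e2] at g2 g4 gh
  norm_num only at g2 gh n3 n9 n81 z1 z3 z9
  have ex : 1 ≤ exp (6561 * L) := one_le_exp (by positivity)
  have D := mix (P := γ) ν (c := fun _ => 1) (k := fun θ => 36 * ⟪r θ, r θ⟫)
    (a := fun θ x => -8 * l (r θ) x) measurable_const (by fun_prop) (by unfold uncurry; fun_prop)
    (by simp) (C := 6561 * L) (fun θ => by nlinarith [(abs_le.1 (hL θ θ)).2]) fun θ =>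
      ⟨_, hγ ((-8 : ℝ) • r θ), fun x => by
        simp only [l, real_inner_smul_left, real_inner_smul_right]; ring⟩
  have D' := (bd ν (c := fun _ => 1) (k := fun θ => 36 * ⟪r θ, r θ⟫) measurable_const (by fun_prop)
    (by simp) (C := 6561 * L) (fun θ => by nlinarith [(abs_le.1 (hL θ θ)).2])).2
  have J : ∀ x, (q x)⁻¹ ^ 4 * (q x)⁻¹ ^ 4 ≤ G ν (fun _ => 1) (fun θ x => -8 * l (r θ) x) x :=
    fun x => by
    have b : ∀ θ, |l (r θ) x| ≤ L + ⟪x, x⟫ := fun θ => by
      have := l_le (r θ) x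
      have h := real_inner_self_nonneg (x := r θ + x)
      simp only [inner_add_left, inner_add_right, real_inner_comm (r θ) x] at h
      rw [l] at this ⊢
      exact abs_le.2 ⟨by linarith [(abs_le.1 (hL θ θ)).2, real_inner_self_nonneg (x := x)],
        by linarith [real_inner_self_nonneg (x := x)]⟩
    have il : Integrable (fun θ => l (r θ) x) ν :=
      .of_bound (Measurable.aestronglyMeasurable (by fun_prop)) _ (.of_forall b)
    have j1 := convexOn_exp.map_integral_le continuous_exp.continuousOn isClosed_univ (by simp)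
      il (jq x)
    have j2 := convexOn_exp.map_integral_le continuous_exp.continuousOn isClosed_univ (by simp)
      (il.const_mul (-8)) (by
        simpa [Function.comp_def] using (bd ν (c := fun _ => 1) (k := fun θ => -8 * l (r θ) x)
          measurable_const (by fun_prop) (by simp) (C := 8 * (L + ⟪x, x⟫))
          fun θ => by linarith [(abs_le.1 (b θ)).1]).1)
    simp only [G, one_mul]
    refine le_trans ?_ j2
    rw [← hq] at j1
    rw [integral_const_mul, ← pow_add, neg_mul, ← mul_neg, show (8 : ℝ) = (4 + 4 : ℕ) by norm_num,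
      exp_nat_mul, exp_neg]
    have := q0 x
    gcongr
  have i8 : Integrable (fun x => (q x)⁻¹ ^ 4 * (q x)⁻¹ ^ 4) γ := D.1.mono' (by fun_prop)
    (.of_forall fun x => (Real.norm_of_nonneg (mul_self_nonneg _)).trans_le (J x))
  have hP : 0 ≤ ∫ x, (p x - q x) ^ 2 * (p x - q x) ^ 2 ∂γ := integral_nonneg fun x => by positivity
  refine ana (by linarith) p0 q0 mp mq ip iq (ep.trans eq.symm) g4.1 gh.1 i8 ?_ ?_ ?_ ?_
  · linarith [g2.2, bn c hc 1 zero_le_one (by norm_num)]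
  · rw [g2.2]
    have := bn c hc 6561 (by norm_num) le_rfl
    generalize n m (fun t => c t.1) v = N at *
    calc _ ≤ (N 1 * N 9) ^ 4 := by gcongr; exact g4.2.trans n3
      _ = N 1 ^ 4 * (N 9 ^ 2) ^ 2 := by ring
      _ ≤ N 1 ^ 4 * (N 1 * N 81) ^ 2 := by gcongr
      _ = N 1 ^ 6 * N 81 ^ 2 := by ring
      _ ≤ N 1 ^ 6 * (N 1 * (16 * exp (6561 * L))) := by
        gcongr; exact n81.trans (by gcongr; linarith)
      _ = _ := by ring
  · linarith [gh.2, bn (fun _ => 1) (by simp) 1 zero_le_one (by norm_num)]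
  · rw [probReal_univ] at D'
    linarith [integral_mono i8 D.1 J, D.2]

end Pool.Agent.Lib.helper26.GMix
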