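import Mathlib

set_option autoImplicit false

namespace Pool.Agent.Lib.H26Good

open Matrix

universe u

variable {K : Type u} [Field K] {n : ℕ}

abbrev FA (K : Type u) [Field K] (n : ℕ) : Type u := FreeAlgebra K (Fin n)

abbrev x (K : Type u) [Field K] {n : ℕ} (i : Fin n) : FA K n := FreeAlgebra.ι K i

theorem left_induction {P : FA K n → Prop} (h0 : ∀ c : K, P (algebraMap K _ c))
    (hx : ∀ i p, P p → P (x K i * p)) (hs : ∀ (c : K) p, P p → P (c • p))
    (ha : ∀ p q, P p → P q → P (p + q)) (p : FA K n) : P p := by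
  have : ∀ a : FA K n, ∀ p, P p → P (a * p) := by
    intro a
    induction a using FreeAlgebra.induction with
    | grade0 r => intro p hp; rw [← Algebra.smul_def]; exact hs _ _ hp
    | grade1 i => exact hx i
    | mul a b iha ihb => intro p hp; rw [mul_assoc]; exact iha _ (ihb _ hp)
    | add a b iha ihb => intro p hp; rw [add_mul]; exact ha _ _ (iha _ hp) (ihb _ hp)
  simpa using this p _ (h0 1)

section Der

variable {R : Type*} [Ring R] [Algebra K R] {a b : Type} [Fintype a] [DecidableEq a]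
  [Fintype b] [DecidableEq b]

/-- twisted derivations -/
def IsDer (l : FA K n →ₐ[K] Matrix a a R) (r : FA K n →ₐ[K] Matrix b b R)
    (δ : FA K n →ₗ[K] Matrix a b R) : Prop :=
  ∀ p q, δ (p * q) = l p * δ q + δ p * r q

theorem IsDer.one {l : FA K n →ₐ[K] Matrix a a R} {r : FA K n →ₐ[K] Matrix b b R}
    {δ : FA K n →ₗ[K] Matrix a b R} (h : IsDer l r δ) : δ 1 = 0 := by
  have := h 1 1
  simpa using this

theorem IsDer.alg {l : FA K n →ₐ[K] Matrix a a R} {r : FA K n →ₐ[K] Matrix b b R}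
    {δ : FA K n →ₗ[K] Matrix a b R} (h : IsDer l r δ) (c : K) : δ (algebraMap K _ c) = 0 := by
  rw [Algebra.algebraMap_eq_smul_one, map_smul, h.one, smul_zero]

theorem IsDer.ext {l : FA K n →ₐ[K] Matrix a a R} {r : FA K n →ₐ[K] Matrix b b R}
    {δ δ' : FA K n →ₗ[K] Matrix a b R} (h : IsDer l r δ) (h' : IsDer l r δ')
    (e : ∀ i, δ (x K i) = δ' (x K i)) (p : FA K n) : δ p = δ' p := by
  induction p using FreeAlgebra.induction with
  | grade0 c => rw [h.alg, h'.alg]
  | grade1 i => exact e i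
  | mul p q ihp ihq => rw [h, h', ihp, ihq]
  | add p q ihp ihq => rw [map_add, map_add, ihp, ihq]

noncomputable def blk (l : FA K n →ₐ[K] Matrix a a R) (r : FA K n →ₐ[K] Matrix b b R)
    (v : Fin n → Matrix a b R) : FA K n →ₐ[K] Matrix (a ⊕ b) (a ⊕ b) R :=
  FreeAlgebra.lift K fun i => fromBlocks (l (x K i)) (v i) 0 (r (x K i))

noncomputable def der (l : FA K n →ₐ[K] Matrix a a R) (r : FA K n →ₐ[K] Matrix b b R)
    (v : Fin n → Matrix a b R) : FA K n →ₗ[K] Matrix a b R where
  toFun p := (blk l r v p).toBlocks₁₂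
  map_add' p q := by rw [map_add]; rfl
  map_smul' c p := by rw [map_smul]; rfl

theorem blk_eq (l : FA K n →ₐ[K] Matrix a a R) (r : FA K n →ₐ[K] Matrix b b R)
    (v : Fin n → Matrix a b R) (p : FA K n) :
    blk l r v p = fromBlocks (l p) (der l r v p) 0 (r p) := by
  suffices h : ∃ w, blk l r v p = fromBlocks (l p) w 0 (r p) by
    obtain ⟨w, hw⟩ := h
    have : der l r v p = w := by
      show (blk l r v p).toBlocks₁₂ = w
      rw [hw, toBlocks_fromBlocks₁₂]
    rw [this, hw]
  induction p using FreeAlgebra.induction with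
  | grade0 c =>
    refine ⟨0, ?_⟩
    rw [AlgHom.commutes, AlgHom.commutes, AlgHom.commutes, Algebra.algebraMap_eq_smul_one,
      Algebra.algebraMap_eq_smul_one, Algebra.algebraMap_eq_smul_one, ← fromBlocks_one,
      fromBlocks_smul]
    simp
  | grade1 i => exact ⟨v i, by simp [blk]⟩
  | mul p q ihp ihq =>
    obtain ⟨w, hw⟩ := ihp
    obtain ⟨w', hw'⟩ := ihq
    exact ⟨l p * w' + w * r q, by rw [map_mul, hw, hw', fromBlocks_multiply]; simp⟩
  | add p q ihp ihq =>
    obtain ⟨w, hw⟩ := ihp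
    obtain ⟨w', hw'⟩ := ihq
    exact ⟨w + w', by rw [map_add, hw, hw', fromBlocks_add]; simp⟩

theorem der_isDer (l : FA K n →ₐ[K] Matrix a a R) (r : FA K n →ₐ[K] Matrix b b R)
    (v : Fin n → Matrix a b R) : IsDer l r (der l r v) := by
  intro p q
  show (blk l r v (p * q)).toBlocks₁₂ = _
  rw [map_mul, blk_eq, blk_eq, fromBlocks_multiply, toBlocks_fromBlocks₁₂]

theorem der_x (l : FA K n →ₐ[K] Matrix a a R) (r : FA K n →ₐ[K] Matrix b b R)
    (v : Fin n → Matrix a b R) (i : Fin n) : der l r v (x K i) = v i := by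
  show (blk l r v (x K i)).toBlocks₁₂ = _
  simp [blk]

theorem IsDer.comp {l : FA K n →ₐ[K] Matrix a a R} {r : FA K n →ₐ[K] Matrix b b R}
    {δ : FA K n →ₗ[K] Matrix a b R} (h : IsDer l r δ) (ψ : FA K n →ₐ[K] FA K n) :
    IsDer (l.comp ψ) (r.comp ψ) (δ.comp ψ.toLinearMap) := fun p q => by
  simp [h (ψ p) (ψ q)]

end Der

section Jac

variable {R S : Type*} [CommRing R] [Algebra K R] [CommRing S] [Algebra K S]
  {a b : Type} [Fintype a] [DecidableEq a] [Fintype b] [DecidableEq b]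

def Eb (R : Type*) [CommRing R] (t : Fin n × a × b) : Fin n → Matrix a b R :=
  fun i p q => if t = (i, p, q) then 1 else 0

def flat (v : Fin n → Matrix a b R) : Fin n × a × b → R := fun s => v s.1 s.2.1 s.2.2

noncomputable def Jac (φ : FA K n →ₐ[K] FA K n) (l : FA K n →ₐ[K] Matrix a a R)
    (r : FA K n →ₐ[K] Matrix b b R) : Matrix (Fin n × a × b) (Fin n × a × b) R :=
  Matrix.of fun s t => der l r (Eb R t) (φ (x K s.1)) s.2.1 s.2.2

theorem der_expand {l : FA K n →ₐ[K] Matrix a a R} {r : FA K n →ₐ[K] Matrix b b R}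
    {δ : FA K n →ₗ[K] Matrix a b R} (h : IsDer l r δ) (p : FA K n) :
    δ p = ∑ t, flat (fun i => δ (x K i)) t • der l r (Eb R t) p := by
  let c := flat (fun i => δ (x K i))
  have h' : IsDer l r (∑ t, c t • der l r (Eb R t)) := by
    intro p q
    simp only [LinearMap.sum_apply, LinearMap.smul_apply, der_isDer l r _ p q, smul_add,
      Finset.sum_add_distrib, Matrix.mul_sum, Matrix.sum_mul, Matrix.mul_smul, Matrix.smul_mul]
  have := h.ext h' (fun i => by
    ext p q
    simp only [LinearMap.sum_apply, LinearMap.smul_apply, der_x, Matrix.sum_apply,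
      Matrix.smul_apply, Eb, smul_eq_mul, mul_ite, mul_one, mul_zero]
    rw [Finset.sum_ite_eq']
    simp [c, flat]) p
  rw [this, LinearMap.sum_apply]
  rfl

theorem Jac_mulVec (φ : FA K n →ₐ[K] FA K n) {l : FA K n →ₐ[K] Matrix a a R}
    {r : FA K n →ₐ[K] Matrix b b R} {δ : FA K n →ₗ[K] Matrix a b R} (h : IsDer l r δ) :
    Jac φ l r *ᵥ flat (fun i => δ (x K i)) = flat fun j => δ (φ (x K j)) := by
  funext s
  simp only [flat]
  rw [der_expand h (φ (x K s.1))]
  simp [Jac, mulVec, dotProduct, Matrix.sum_apply, flat, mul_comm]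

theorem Jac_comp (ψ θ : FA K n →ₐ[K] FA K n) (l : FA K n →ₐ[K] Matrix a a R)
    (r : FA K n →ₐ[K] Matrix b b R) :
    Jac (ψ.comp θ) l r = Jac θ (l.comp ψ) (r.comp ψ) * Jac ψ l r := by
  ext s t
  have := congrFun (Jac_mulVec θ ((der_isDer l r (Eb R t)).comp ψ)) s
  exact this.symm

theorem Jac_id (l : FA K n →ₐ[K] Matrix a a R) (r : FA K n →ₐ[K] Matrix b b R) :
    Jac (AlgHom.id K _) l r = 1 := by
  ext s t
  simp [Jac, der_x, Eb, Matrix.one_apply, eq_comm]

theorem Jac_unit (θ : FA K n ≃ₐ[K] FA K n) (l : FA K n →ₐ[K] Matrix a a R)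
    (r : FA K n →ₐ[K] Matrix b b R) : IsUnit (Jac (θ : FA K n →ₐ[K] FA K n) l r).det := by
  have h := Jac_comp (θ : FA K n →ₐ[K] FA K n) (θ.symm : FA K n →ₐ[K] FA K n) l r
  have e : (θ : FA K n →ₐ[K] FA K n).comp (θ.symm : FA K n →ₐ[K] FA K n) = AlgHom.id K _ := by
    ext i; simp
  rw [e, Jac_id] at h
  have := congrArg det h
  rw [det_one, det_mul] at this
  exact IsUnit.of_mul_eq_one_right _ this.symm

theorem der_map (f : R →ₐ[K] S) (l : FA K n →ₐ[K] Matrix a a R) (r : FA K n →ₐ[K] Matrix b b R)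
    (v : Fin n → Matrix a b R) (p : FA K n) :
    (der l r v p).map f = der (f.mapMatrix.comp l) (f.mapMatrix.comp r) (fun i => (v i).map f) p := by
  let δ : FA K n →ₗ[K] Matrix a b S :=
    { toFun := fun p => (der l r v p).map f
      map_add' := fun p q => by ext; simp
      map_smul' := fun c p => by ext; simp }
  have h : IsDer (f.mapMatrix.comp l) (f.mapMatrix.comp r) δ := by
    intro p q
    show (der l r v (p * q)).map f = (l p).map f * (der l r v q).map f +
      (der l r v p).map f * (r q).map f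
    rw [der_isDer l r v p q]
    ext i j
    simp [Matrix.mul_apply]
  exact h.ext (der_isDer _ _ _) (fun i => by simp [δ, der_x]) p

theorem Jac_map (f : R →ₐ[K] S) (φ : FA K n →ₐ[K] FA K n) (l : FA K n →ₐ[K] Matrix a a R)
    (r : FA K n →ₐ[K] Matrix b b R) :
    (Jac φ (f.mapMatrix.comp l) (f.mapMatrix.comp r)).det = f (Jac φ l r).det := by
  rw [AlgHom.map_det]
  congr 1
  ext s t
  have h := der_map f l r (Eb R t) (φ (x K s.1))
  have e : (fun i => (Eb R t i).map f) = Eb S t := by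
    funext i; ext p q; simp [Eb, apply_ite f]
  rw [e] at h
  exact (congrFun (congrFun h s.2.1) s.2.2).symm

/-- span of the monomials of degree at least `m` -/
def Ipow (K : Type u) [Field K] (n m : ℕ) : Submodule K (FA K n) :=
  Submodule.span K {w | ∃ l : List (Fin n), m ≤ l.length ∧ w = (l.map (FreeAlgebra.ι K)).prod}

theorem word_dvd (t : R) {l : FA K n →ₐ[K] Matrix a a R} (hl : ∀ i, ∃ M, l (x K i) = t • M)
    (w : List (Fin n)) : ∃ M, l (w.map (FreeAlgebra.ι K)).prod = t ^ w.length • M := by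
  induction w with
  | nil => exact ⟨1, by simp⟩
  | cons i w ih =>
    obtain ⟨M, hM⟩ := ih
    obtain ⟨N, hN⟩ := hl i
    refine ⟨N * M, ?_⟩
    rw [List.map_cons, List.prod_cons, map_mul, hM, hN, List.length_cons, pow_succ',
      Matrix.smul_mul, Matrix.mul_smul, smul_smul]

theorem der_dvd (t : R) {l : FA K n →ₐ[K] Matrix a a R} {r : FA K n →ₐ[K] Matrix b b R}
    {δ : FA K n →ₗ[K] Matrix a b R} (h : IsDer l r δ) (hl : ∀ i, ∃ M, l (x K i) = t • M)
    (hr : ∀ i, ∃ M, r (x K i) = t • M) (m : ℕ) (p : FA K n) (hp : p ∈ Ipow K n (m + 1)) :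
    ∃ M, δ p = t ^ m • M := by
  have hw : ∀ w : List (Fin n), ∃ M, δ (w.map (FreeAlgebra.ι K)).prod = t ^ (w.length - 1) • M := by
    intro w
    induction w with
    | nil => exact ⟨0, by simp [h.one]⟩
    | cons i w ih =>
      obtain ⟨M, hM⟩ := ih
      obtain ⟨N, hN⟩ := hl i
      obtain ⟨M', hM'⟩ := word_dvd t hr w
      rw [List.map_cons, List.prod_cons, h, hM', hN, List.length_cons, Nat.add_sub_cancel]
      rcases w with _ | ⟨j, w⟩
      · exact ⟨δ (x K i) * M', by simp [h.one]⟩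
      · refine ⟨N * M + δ (x K i) * M', ?_⟩
        rw [hM, List.length_cons, Nat.add_sub_cancel, Matrix.smul_mul, Matrix.mul_smul,
          Matrix.mul_smul, smul_smul, smul_add, pow_succ']
  induction hp using Submodule.span_induction with
  | mem p hp =>
    obtain ⟨w, hw1, rfl⟩ := hp
    obtain ⟨M, hM⟩ := hw w
    refine ⟨t ^ (w.length - 1 - m) • M, ?_⟩
    rw [hM, smul_smul, ← pow_add]
    congr 2; omega
  | zero => exact ⟨0, by simp⟩
  | add p q _ _ hp hq =>
    obtain ⟨M, hM⟩ := hp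
    obtain ⟨N, hN⟩ := hq
    exact ⟨M + N, by rw [map_add, hM, hN, smul_add]⟩
  | smul c p _ hp =>
    obtain ⟨M, hM⟩ := hp
    exact ⟨c • M, by rw [map_smul, hM, smul_comm]⟩

theorem Jac_near (t : R) {l : FA K n →ₐ[K] Matrix a a R} {r : FA K n →ₐ[K] Matrix b b R}
    (hl : ∀ i, ∃ M, l (x K i) = t • M) (hr : ∀ i, ∃ M, r (x K i) = t • M) (m : ℕ)
    (ψ : FA K n →ₐ[K] FA K n) (hψ : ∀ i, ψ (x K i) - x K i ∈ Ipow K n (m + 1)) :
    ∃ g, (Jac ψ l r).det = 1 + t ^ m * g := by
  have h := fun (i : Fin n) (s : Fin n × a × b) =>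
    der_dvd t (der_isDer l r (Eb R s)) hl hr m _ (hψ i)
  choose M hM using h
  have : Jac ψ l r = 1 + t ^ m • Matrix.of fun s s' => M s.1 s' s.2.1 s.2.2 := by
    rw [← Jac_id l r]
    ext s s'
    have := congrFun (congrFun (hM s.1 s') s.2.1) s.2.2
    rw [map_sub] at this
    simp only [Matrix.sub_apply, Matrix.smul_apply] at this
    simp only [Jac, Matrix.add_apply, Matrix.of_apply, Matrix.smul_apply, AlgHom.coe_id, id_eq]
    rw [← this]; ring
  rw [this, det_one_add_smul]
  have key : ∀ A B s : R, ∃ g, 1 + A * s + B * s ^ 2 = 1 + s * g := fun A B s =>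
    ⟨A + B * s, by ring⟩
  exact key _ _ _

end Jac

/-- good endomorphisms; both readings of the product of two endomorphisms are allowed -/
def Good (φ : FA K n →ₐ[K] FA K n) : Prop :=
  ∀ m : ℕ, 1 ≤ m → ∃ (ψ : FA K n →ₐ[K] FA K n) (θ : FA K n ≃ₐ[K] FA K n),
    (φ = ψ.comp (θ : FA K n →ₐ[K] FA K n) ∨ φ = (θ : FA K n →ₐ[K] FA K n).comp ψ) ∧
      ∀ i, ψ (FreeAlgebra.ι K i) - FreeAlgebra.ι K i ∈ Ipow K n m

noncomputable def eps (K : Type u) [Field K] (n : ℕ) : FA K n →ₐ[K] K :=
  FreeAlgebra.lift K fun _ => 0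

@[simp] theorem eps_x (i : Fin n) : eps K n (FreeAlgebra.ι K i) = 0 := by simp [eps]

section Main

open Polynomial

variable {L : Type*} [Field L] [Algebra K L] {a b : Type} [Fintype a] [DecidableEq a]
  [Fintype b] [DecidableEq b]

noncomputable def line {S : Type*} [CommRing S] [Algebra K S] [Algebra L S] (s : Fin n → S)
    (l : FA K n →ₐ[K] Matrix a a L) : FA K n →ₐ[K] Matrix a a S[X] :=
  FreeAlgebra.lift K fun i => (C (s i) : S[X]) • (1 : Matrix a a S[X]) +
    (X : S[X]) • ((l (x K i)).map (fun c => C (algebraMap L S c)) - (C (s i) : S[X]) • 1)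

theorem line_mod (σ : FA K n →ₐ[K] K) (l : FA K n →ₐ[K] Matrix a a L) (p : FA K n) :
    ∃ M, line (fun i => algebraMap K L (σ (x K i))) l p =
      (C (algebraMap K L (σ p)) : L[X]) • (1 : Matrix a a L[X]) + (X : L[X]) • M := by
  induction p using FreeAlgebra.induction with
  | grade0 c =>
    refine ⟨0, ?_⟩
    rw [AlgHom.commutes, AlgHom.commutes, smul_zero, add_zero, Algebra.algebraMap_eq_smul_one]
    ext i j
    simp [Algebra.smul_def]
  | grade1 i => exact ⟨_, by rw [line, FreeAlgebra.lift_ι_apply]⟩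
  | mul p q ihp ihq =>
    obtain ⟨M, hM⟩ := ihp
    obtain ⟨N, hN⟩ := ihq
    refine ⟨(C (algebraMap K L (σ p)) : L[X]) • N + (C (algebraMap K L (σ q)) : L[X]) • M +
      (X : L[X]) • (M * N), ?_⟩
    rw [map_mul, hM, hN]
    simp only [map_mul, add_mul, mul_add, Matrix.smul_mul, Matrix.mul_smul, one_mul, mul_one,
      smul_add, smul_smul]
    module
  | add p q ihp ihq =>
    obtain ⟨M, hM⟩ := ihp
    obtain ⟨N, hN⟩ := ihq
    refine ⟨M + N, ?_⟩
    rw [map_add, hM, hN]
    simp only [map_add]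
    module

theorem line_map (s : Fin n → L) (l : FA K n →ₐ[K] Matrix a a L) :
    ((Polynomial.mapAlgHom (MvPolynomial.aeval s : MvPolynomial (Fin n) L →ₐ[L] L)).restrictScalars
      K).mapMatrix.comp (line (S := MvPolynomial (Fin n) L) MvPolynomial.X l) = line s l := by
  ext i p q : 3
  by_cases h : p = q <;> simp [line, h]

theorem line_eval (s : Fin n → L) (l : FA K n →ₐ[K] Matrix a a L) :
    ((Polynomial.aeval (1 : L)).restrictScalars K).mapMatrix.comp (line s l) = l := by
  ext i p q : 3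
  by_cases h : p = q <;> simp [line, h]

theorem const_of (D : L[X]) (c g : L[X]) (m : ℕ) (hc : IsUnit c) (hD : D = c * (1 + X ^ m * g))
    (hm : D.natDegree < m) : D.eval 1 ≠ 0 := by
  obtain ⟨c0, hc0, rfl⟩ := Polynomial.isUnit_iff.1 hc
  have h1 : X ^ m ∣ D - C c0 := ⟨C c0 * g, by rw [hD]; ring⟩
  have h2 : D - C c0 = 0 := by
    refine Polynomial.eq_zero_of_dvd_of_natDegree_lt h1 ?_
    rw [natDegree_X_pow, natDegree_sub_C]
    exact hm
  rw [sub_eq_zero.1 h2, eval_C]
  exact hc0.ne_zero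

theorem jac_ne {φ : FA K n →ₐ[K] FA K n} (hφ : Good φ) (l : FA K n →ₐ[K] Matrix a a L)
    (r : FA K n →ₐ[K] Matrix b b L) : (Jac φ l r).det ≠ 0 := by
  let D := (Jac φ (line (S := MvPolynomial (Fin n) L) MvPolynomial.X l)
    (line (S := MvPolynomial (Fin n) L) MvPolynomial.X r)).det
  have hdeg : ∀ s : Fin n → L, (Jac φ (line s l) (line s r)).det.natDegree < D.natDegree + 1 := by
    intro s
    rw [← line_map s l, ← line_map s r, Jac_map]
    exact Nat.lt_succ_of_le natDegree_map_le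
  have hev : ∀ s : Fin n → L, (Jac φ l r).det = (Jac φ (line s l) (line s r)).det.eval 1 := by
    intro s
    conv_lhs => rw [← line_eval s l, ← line_eval s r, Jac_map]
    simp
  obtain ⟨ψ, θ, h | h, hψ⟩ := hφ (D.natDegree + 1 + 1) (by omega)
  · let s : Fin n → L := fun i => algebraMap K L (eps K n (x K i))
    rw [hev s]
    obtain ⟨g, hg⟩ := Jac_near (X : L[X]) (l := line s l) (r := line s r)
      (fun i => by simpa [s] using line_mod (eps K n) l (x K i))
      (fun i => by simpa [s] using line_mod (eps K n) r (x K i)) _ ψ hψ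
    refine const_of _ _ g _ (Jac_unit θ ((line s l).comp ψ) ((line s r).comp ψ)) ?_ (hdeg s)
    rw [← hg, ← det_mul, ← Jac_comp, ← h]
  · let σ := (eps K n).comp (θ.symm : FA K n →ₐ[K] FA K n)
    let s : Fin n → L := fun i => algebraMap K L (σ (x K i))
    rw [hev s]
    obtain ⟨g, hg⟩ := Jac_near (X : L[X]) (l := (line s l).comp (θ : FA K n →ₐ[K] FA K n))
      (r := (line s r).comp (θ : FA K n →ₐ[K] FA K n))
      (fun i => by simpa [σ, s] using line_mod σ l (θ (x K i)))
      (fun i => by simpa [σ, s] using line_mod σ r (θ (x K i))) _ ψ hψ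
    refine const_of _ _ g _ (Jac_unit θ (line s l) (line s r)) ?_ (hdeg s)
    rw [← hg, mul_comm, ← det_mul, ← Jac_comp, ← h]

theorem der_zero {φ : FA K n →ₐ[K] FA K n} (hφ : Good φ) {l : FA K n →ₐ[K] Matrix a a L}
    {r : FA K n →ₐ[K] Matrix b b L} {δ : FA K n →ₗ[K] Matrix a b L} (h : IsDer l r δ)
    (h0 : ∀ j, δ (φ (x K j)) = 0) (i : Fin n) : δ (x K i) = 0 := by
  have h1 := Jac_mulVec φ h
  have h2 : (flat fun j => δ (φ (x K j))) = 0 := by
    funext s; simp [flat, h0]
  rw [h2] at h1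
  have h3 := Matrix.eq_zero_of_mulVec_eq_zero (jac_ne hφ l r) h1
  ext p q
  exact congrFun h3 (i, p, q)

theorem rep_surj [IsAlgClosed L] {φ : FA K n →ₐ[K] FA K n} (hφ : Good φ)
    (G : Fin n → Matrix a a L) : ∃ l : FA K n →ₐ[K] Matrix a a L, ∀ j, l (φ (x K j)) = G j := by
  let gen : FA K n →ₐ[K] Matrix a a (MvPolynomial (Fin n × a × a) L) :=
    FreeAlgebra.lift K fun i => Matrix.of fun p q => MvPolynomial.X (i, p, q)
  let rep : (Fin n × a × a → L) → (FA K n →ₐ[K] Matrix a a L) := fun v =>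
    FreeAlgebra.lift K fun i => Matrix.of fun p q => v (i, p, q)
  have hrep : ∀ v, ((MvPolynomial.aeval v : MvPolynomial (Fin n × a × a) L →ₐ[L] L).restrictScalars
      K).mapMatrix.comp gen = rep v := by
    intro v
    ext i p q : 3
    simp [gen, rep]
  have hev : ∀ v (s : Fin n × a × a), MvPolynomial.eval v (gen (φ (x K s.1)) s.2.1 s.2.2) =
      rep v (φ (x K s.1)) s.2.1 s.2.2 := by
    intro v s
    rw [← hrep v]
    simp [MvPolynomial.aeval_eq_eval]
  have hinj : Function.Injective fun (v : Fin n × a × a → L) (s : Fin n × a × a) =>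
      MvPolynomial.eval v (gen (φ (x K s.1)) s.2.1 s.2.2) := by
    intro v w e
    have h : IsDer (rep v) (rep w) ((rep v).toLinearMap - (rep w).toLinearMap) := by
      intro p q
      simp only [LinearMap.sub_apply, AlgHom.toLinearMap_apply, map_mul]
      noncomm_ring
    have h2 := der_zero hφ h (fun j => by
      ext p q
      have := (hev v (j, p, q)).symm.trans ((congrFun e (j, p, q)).trans (hev w (j, p, q)))
      simpa [sub_eq_zero] using this)
    funext s
    have := congrFun (congrFun (h2 s.1) s.2.1) s.2.2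
    simpa [rep, sub_eq_zero] using this
  obtain ⟨v, hv⟩ := ax_grothendieck_univ _ hinj fun s => G s.1 s.2.1 s.2.2
  refine ⟨rep v, fun j => ?_⟩
  ext p q
  exact (hev v (j, p, q)).symm.trans (congrFun hv (j, p, q))

end Main

end Pool.Agent.Lib.H26Good
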