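import Mathlib
import Pool.Agent.Lib.helper26.GoodA

set_option autoImplicit false

namespace Pool.Agent.Lib.H26Good

open Matrix

universe u

variable {K : Type u} [Field K] {n : ℕ}

theorem partial_ext {P J : Type*} [AddCommGroup P] [Module K P] (N : Submodule K P)
    (f : J → Module.End K P) (hf : ∀ j, ∀ v ∈ N, f j v ∈ N) (S : Set P) (hS : S.Finite) :
    ∃ (a : ℕ) (π : P →ₗ[K] (Fin a → K)) (G : J → Matrix (Fin a) (Fin a) K),
      (∀ v ∈ N, π v = 0) ∧ (∀ v ∈ S, π v = 0 → v ∈ N) ∧
        ∀ j, ∀ v ∈ S, π (f j v) = G j *ᵥ π v := by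
  let E : Submodule K (P ⧸ N) := Submodule.span K (N.mkQ '' S)
  have : Module.Finite K E := Module.Finite.span_of_finite K (hS.image _)
  obtain ⟨g, hg⟩ := LinearMap.exists_leftInverse_of_injective E.subtype (by simp)
  let β := (Module.finBasis K E).equivFun
  let π' : (P ⧸ N) →ₗ[K] (Fin (Module.finrank K E) → K) := β.toLinearMap.comp g
  let ι : (Fin (Module.finrank K E) → K) →ₗ[K] (P ⧸ N) := E.subtype.comp β.symm.toLinearMap
  have h : ∀ v ∈ S, ι (π' (N.mkQ v)) = N.mkQ v := by
    intro v hv
    have := LinearMap.congr_fun hg ⟨N.mkQ v, Submodule.subset_span ⟨v, hv, rfl⟩⟩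
    simp only [LinearMap.comp_apply, Submodule.subtype_apply, LinearMap.id_apply] at this
    simp only [ι, π', LinearMap.comp_apply, LinearEquiv.coe_coe, LinearEquiv.symm_apply_apply,
      this, Submodule.subtype_apply]
  refine ⟨_, π'.comp N.mkQ,
    fun j => LinearMap.toMatrix' (π'.comp ((N.mapQ N (f j) (hf j)).comp ι)), ?_, ?_, ?_⟩
  · intro v hv
    have : N.mkQ v = 0 := (Submodule.Quotient.mk_eq_zero N).2 hv
    rw [LinearMap.comp_apply, this, map_zero]
  · intro v hv h0
    have := h v hv
    rw [LinearMap.comp_apply] at h0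
    rw [h0, map_zero] at this
    exact (Submodule.Quotient.mk_eq_zero N).1 this.symm
  · intro j v hv
    rw [LinearMap.toMatrix'_mulVec]
    simp only [LinearMap.comp_apply]
    rw [h v hv]
    rfl

theorem partial_mod {P : Type*} [AddCommGroup P] [Module K P]
    (lam : FA K n →ₐ[K] Module.End K P) (p : FA K n) (v : P) :
    ∃ S : Set P, S.Finite ∧ ∀ (a : ℕ) (π : P →ₗ[K] (Fin a → K))
      (G : Fin n → Matrix (Fin a) (Fin a) K),
      (∀ i, ∀ w ∈ S, π (lam (x K i) w) = G i *ᵥ π w) →
        π (lam p v) = FreeAlgebra.lift K G p *ᵥ π v := by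
  induction p using left_induction with
  | h0 c =>
    refine ⟨∅, Set.finite_empty, fun a π G _ => ?_⟩
    rw [AlgHom.commutes, AlgHom.commutes, Algebra.algebraMap_eq_smul_one,
      Algebra.algebraMap_eq_smul_one, smul_mulVec]
    simp
  | hx i p ih =>
    obtain ⟨S, hS, h⟩ := ih
    refine ⟨insert (lam p v) S, hS.insert _, fun a π G hG => ?_⟩
    rw [map_mul, map_mul, Module.End.mul_apply, hG i _ (Set.mem_insert _ _),
      h a π G fun i w hw => hG i w (Set.mem_insert_of_mem _ hw), mulVec_mulVec,
      FreeAlgebra.lift_ι_apply]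
  | hs c p ih =>
    obtain ⟨S, hS, h⟩ := ih
    refine ⟨S, hS, fun a π G hG => ?_⟩
    rw [map_smul, map_smul, LinearMap.smul_apply, map_smul, h a π G hG, smul_mulVec]
  | ha p q ihp ihq =>
    obtain ⟨S, hS, h⟩ := ihp
    obtain ⟨T, hT, h'⟩ := ihq
    refine ⟨S ∪ T, hS.union hT, fun a π G hG => ?_⟩
    rw [map_add, map_add, LinearMap.add_apply, map_add, h a π G fun i w hw => hG i w (Or.inl hw),
      h' a π G fun i w hw => hG i w (Or.inr hw), add_mulVec]

theorem res_fin (p : FA K n) (hp : p ≠ 0) :
    ∃ (a : ℕ) (G : Fin n → Matrix (Fin a) (Fin a) K), FreeAlgebra.lift K G p ≠ 0 := by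
  obtain ⟨S, hS, h⟩ := partial_mod (Algebra.lmul K (FA K n)) p 1
  obtain ⟨a, π, G, -, h2, h3⟩ := partial_ext (⊥ : Submodule K (FA K n))
    (fun i => Algebra.lmul K (FA K n) (x K i)) (by simp) (insert p S) (hS.insert _)
  refine ⟨a, G, fun h0 => hp ?_⟩
  have := h a π G fun i w hw => h3 i w (Set.mem_insert_of_mem _ hw)
  rw [h0] at this
  exact h2 p (Set.mem_insert _ _) (by simpa using this)

theorem good_inj {φ : FA K n →ₐ[K] FA K n} (hφ : Good φ) : Function.Injective φ := by
  rw [injective_iff_map_eq_zero]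
  intro p hp
  by_contra h0
  obtain ⟨a, G, hG⟩ := res_fin p h0
  let L := AlgebraicClosure K
  obtain ⟨l, hl⟩ := rep_surj hφ fun j => (G j).map (algebraMap K L)
  have e : l.comp φ = (Algebra.ofId K L).mapMatrix.comp (FreeAlgebra.lift K G) := by
    ext i : 2
    exact (hl i).trans (by simp; rfl)
  have := AlgHom.congr_fun e p
  rw [AlgHom.comp_apply, hp, map_zero] at this
  apply hG
  ext i j
  have h2 := congrFun (congrFun this i) j
  exact (algebraMap K L).injective (by simpa using h2.symm)

/-- removal of a last letter -/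
noncomputable def dd (i : Fin n) : FA K n →ₗ[K] FA K n :=
  (Matrix.entryLinearMap K (FA K n) () ()).comp
    (der (Matrix.scalarAlgHom Unit K) ((Algebra.ofId K _).comp (eps K n))
      fun k => Matrix.of fun _ _ => if k = i then 1 else 0)

theorem dd_mul (i : Fin n) (p q : FA K n) : dd i (p * q) = p * dd i q + eps K n q • dd i p := by
  simp only [dd, LinearMap.comp_apply]
  rw [der_isDer]
  simp [Matrix.mul_apply, Algebra.ofId_apply, Algebra.algebraMap_eq_smul_one]

theorem dd_x (i k : Fin n) : dd i (x K k) = if k = i then 1 else 0 := by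
  simp only [dd, LinearMap.comp_apply]
  rw [der_x]; rfl

theorem dd_one (i : Fin n) : dd i (1 : FA K n) = 0 := by
  simpa using dd_mul i (1 : FA K n) 1

theorem dd_expand (p : FA K n) : p = algebraMap K _ (eps K n p) + ∑ i, dd i p * x K i := by
  induction p using left_induction with
  | h0 c => simp [Algebra.algebraMap_eq_smul_one, dd_one]
  | hx k p ih =>
    simp only [dd_mul, dd_x, map_mul, eps_x, zero_mul, map_zero, zero_add, add_mul,
      Finset.sum_add_distrib, mul_assoc, ← Finset.mul_sum, smul_mul_assoc, ite_mul, one_mul,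
      smul_ite, smul_zero, Finset.sum_ite_eq, Finset.mem_univ, if_true]
    conv_lhs => rw [ih, mul_add, ← Algebra.commutes, ← Algebra.smul_def, add_comm]
  | hs c p ih =>
    conv_lhs => rw [ih]
    simp only [map_smul, smul_add, Finset.smul_sum, smul_mul_assoc, smul_eq_mul, map_mul,
      ← Algebra.smul_def]
  | ha p q ihp ihq =>
    conv_lhs => rw [ihp, ihq]
    simp only [map_add, add_mul, Finset.sum_add_distrib]
    abel

theorem exists_U {φ : FA K n →ₐ[K] FA K n} (hφ : Good φ) :
    ∃ U : Fin n → Fin n → FA K n, ∀ k i, ∑ j, U k j * dd i (φ (x K j)) = if k = i then 1 else 0 := by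
  let row : Fin n → Fin n → FA K n := fun j i => dd i (φ (x K j))
  let N := (Submodule.span (FA K n) (Set.range row)).restrictScalars K
  let lam : FA K n →ₐ[K] Module.End K (Fin n → FA K n) := Algebra.lsmul K K (Fin n → FA K n)
  let e : Fin n → Fin n → FA K n := fun i => Pi.single i 1
  choose S hS h using fun t : Fin n × Fin n => partial_mod lam (row t.1 t.2) (e t.2)
  obtain ⟨a, π, G, h1, h2, h3⟩ := partial_ext N (fun i => lam (x K i))
    (fun i v hv => Submodule.smul_mem (Submodule.span (FA K n) (Set.range row)) _ hv)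
    (Set.range e ∪ ⋃ t, S t) ((Set.finite_range e).union (Set.finite_iUnion hS))
  let l : FA K n →ₐ[K] Matrix (Fin a) (Fin a) K := FreeAlgebra.lift K G
  let v : Fin n → Matrix (Fin a) Unit K := fun i => Matrix.of fun p _ => π (e i) p
  let δ : FA K n →ₗ[K] Matrix (Fin a) Unit K :=
    { toFun := fun p => ∑ i, l (dd i p) * v i
      map_add' := fun p q => by simp [Matrix.add_mul, Finset.sum_add_distrib]
      map_smul' := fun c p => by simp [Finset.smul_sum] }
  have hδ : IsDer l ((Algebra.ofId K _).comp (eps K n)) δ := by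
    intro p q
    simp [δ, dd_mul, Matrix.add_mul, Finset.sum_add_distrib, Matrix.mul_sum, Matrix.mul_assoc,
      Algebra.ofId_apply, Algebra.algebraMap_eq_smul_one, Finset.smul_sum]
  have h0 := der_zero hφ hδ fun j => by
    have e1 : row j = ∑ i, lam (row j i) (e i) := by
      funext k
      simp [lam, e, Finset.sum_apply, Pi.single_apply]
    have e2 := h1 (row j) (Submodule.subset_span ⟨j, rfl⟩)
    rw [e1, map_sum, Finset.sum_congr rfl fun i _ => h (j, i) a π G
      fun i' w hw => h3 i' w (Or.inr (Set.mem_iUnion.2 ⟨_, hw⟩))] at e2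
    ext p q
    have := congrFun e2 p
    simpa [δ, Matrix.sum_apply, Matrix.mul_apply, v, mulVec, dotProduct, l, row] using this
  have h4 : ∀ k, e k ∈ Submodule.span (FA K n) (Set.range row) := by
    intro k
    refine h2 _ (Or.inl ⟨k, rfl⟩) ?_
    funext p
    have h5 : δ (x K k) = v k := by
      show ∑ i, l (dd i (x K k)) * v i = v k
      rw [Finset.sum_eq_single k (fun i _ hi => by simp [dd_x, hi.symm]) (by simp)]
      simp [dd_x]
    rw [h0 k] at h5
    exact (congrFun (congrFun h5 p) ()).symm
  choose U hU using fun k => (Submodule.mem_span_range_iff_exists_fun (FA K n)).1 (h4 k)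
  refine ⟨U, fun k i => ?_⟩
  have := congrFun (hU k) i
  simpa [row, e, Pi.single_apply, eq_comm] using this

/-- span of the words of length less than `d` -/
def Fil (K : Type u) [Field K] (n d : ℕ) : Submodule K (FA K n) :=
  Submodule.span K ((fun l : List (Fin n) => (l.map (x K)).prod) '' {l | l.length < d})

instance (d : ℕ) : Module.Finite K (Fil K n d) :=
  Module.Finite.span_of_finite K ((List.finite_length_lt (Fin n) d).image _)

theorem Fil_mono {d e : ℕ} (h : d ≤ e) : Fil K n d ≤ Fil K n e :=
  Submodule.span_mono (Set.image_mono fun _ hl => lt_of_lt_of_le hl h)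

theorem Fil_zero : Fil K n 0 = ⊥ := by simp [Fil]

theorem word_mem {d : ℕ} (l : List (Fin n)) (h : l.length < d) : (l.map (x K)).prod ∈ Fil K n d :=
  Submodule.subset_span ⟨l, h, rfl⟩

theorem dd_mem (i : Fin n) {d : ℕ} {p : FA K n} (hp : p ∈ Fil K n (d + 1)) : dd i p ∈ Fil K n d := by
  have : Fil K n (d + 1) ≤ (Fil K n d).comap (dd i) := by
    refine Submodule.span_le.2 ?_
    rintro _ ⟨l, hl, rfl⟩
    show dd i (l.map (x K)).prod ∈ Fil K n d
    induction l using List.reverseRecOn with
    | nil => simp [dd_one]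
    | append_singleton l k _ =>
      simp only [List.map_append, List.prod_append, List.map_cons, List.map_nil, List.prod_cons,
        List.prod_nil, mul_one, dd_mul, eps_x, zero_smul, add_zero, dd_x]
      split_ifs
      · rw [mul_one]
        exact word_mem l (by simpa using hl)
      · simp
  exact this hp

theorem exists_Fil (p : FA K n) : ∃ d, p ∈ Fil K n d := by
  induction p using left_induction with
  | h0 c =>
    refine ⟨1, ?_⟩
    rw [Algebra.algebraMap_eq_smul_one]
    exact Submodule.smul_mem _ _ (word_mem [] (by simp))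
  | hx i p ih =>
    obtain ⟨d, hd⟩ := ih
    refine ⟨d + 1, ?_⟩
    have : Fil K n d ≤ (Fil K n (d + 1)).comap (LinearMap.mulLeft K (x K i)) := by
      refine Submodule.span_le.2 ?_
      rintro _ ⟨l, hl, rfl⟩
      exact word_mem (i :: l) (by simpa using hl)
    exact this hd
  | hs c p ih => exact ih.imp fun d hd => Submodule.smul_mem _ _ hd
  | ha p q ihp ihq =>
    obtain ⟨d, hd⟩ := ihp
    obtain ⟨e, he⟩ := ihq
    exact ⟨d + e, add_mem (Fil_mono (by omega) hd) (Fil_mono (by omega) he)⟩

end Pool.Agent.Lib.H26Good
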