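import Mathlib
import Pool.Agent.Lib.helper26.GoodB

set_option autoImplicit false

namespace Pool.Agent.Lib.H26Good

open Matrix

universe u

variable {K : Type u} [Field K] {n : ℕ}

structure Dat (K : Type u) [Field K] (n : ℕ) where
  y : Fin n → FA K n
  U : Fin n → Fin n → FA K n
  d : ℕ
  hy : ∀ j, y j ∈ Fil K n (d + 1)
  hU : ∀ k i, ∑ j, U k j * dd i (y j) = if k = i then 1 else 0

namespace Dat

variable (D : Dat K n)

abbrev V : Submodule K (FA K n) := Fil K n D.d

noncomputable def ddV (i : Fin n) : D.V →ₗ[K] D.V :=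
  (dd i).restrict fun _ hp => dd_mem i (Fil_mono (Nat.le_succ _) hp)

noncomputable def yV (i j : Fin n) : D.V := ⟨dd i (D.y j), dd_mem i (D.hy j)⟩

noncomputable def Sj (j : Fin n) : FA K n →ₗ[K] FA K n :=
  ∑ k, (LinearMap.mulRight K (D.U k j)).comp (dd k)

theorem Sj_apply (j : Fin n) (p : FA K n) : D.Sj j p = ∑ k, dd k p * D.U k j := by
  simp [Sj, LinearMap.sum_apply]

section Bop

variable {S S' : Type*} [CommRing S] [Algebra K S] [CommRing S'] [Algebra K S']
  {M M' : Type*} [AddCommGroup M] [Module K M] [Module S M] [IsScalarTower K S M]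
  [AddCommGroup M'] [Module K M'] [Module S' M'] [IsScalarTower K S' M']

noncomputable def Bop (lam : FA K n →ₐ[K] Module.End S M) (i : Fin n) :
    Module.End S (D.V →ₗ[K] M) where
  toFun z :=
    { toFun := fun p => z (D.ddV i p) - ∑ j, lam (D.Sj j p.1) (z (D.yV i j))
      map_add' := fun p q => by
        simp only [map_add, Submodule.coe_add, LinearMap.add_apply, Finset.sum_add_distrib]
        abel
      map_smul' := fun c p => by
        simp only [map_smul, Submodule.coe_smul, LinearMap.smul_apply, RingHom.id_apply, smul_sub,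
          Finset.smul_sum] }
  map_add' z z' := by
    ext p
    simp only [LinearMap.add_apply, map_add, Finset.sum_add_distrib, LinearMap.coe_mk,
      AddHom.coe_mk]
    abel
  map_smul' c z := by
    ext p
    simp only [LinearMap.smul_apply, map_smul, LinearMap.coe_mk, AddHom.coe_mk, RingHom.id_apply,
      smul_sub, Finset.smul_sum]

theorem Bop_apply (lam : FA K n →ₐ[K] Module.End S M) (i : Fin n) (z : D.V →ₗ[K] M) (p : D.V) :
    D.Bop lam i z p = z (D.ddV i p) - ∑ j, lam (D.Sj j p.1) (z (D.yV i j)) := rfl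

noncomputable def Bw (lam : FA K n →ₐ[K] Module.End S M) (w : List (Fin n)) :
    Module.End S (D.V →ₗ[K] M) := (w.map (D.Bop lam)).prod

theorem Bw_append (lam : FA K n →ₐ[K] Module.End S M) (w w' : List (Fin n)) :
    D.Bw lam (w ++ w') = D.Bw lam w * D.Bw lam w' := by simp [Bw]

theorem Bw_cons (lam : FA K n →ₐ[K] Module.End S M) (i : Fin n) (w : List (Fin n)) :
    D.Bw lam (i :: w) = D.Bop lam i * D.Bw lam w := by simp [Bw]

theorem Bw_nat {lam : FA K n →ₐ[K] Module.End S M} {lam' : FA K n →ₐ[K] Module.End S' M'}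
    (f : M →ₗ[K] M') (hf : ∀ p m, f (lam p m) = lam' p (f m)) (w : List (Fin n))
    (z : D.V →ₗ[K] M) : D.Bw lam' w (f.comp z) = f.comp (D.Bw lam w z) := by
  induction w with
  | nil => simp [Bw]
  | cons i w ih =>
    rw [Bw_cons, Bw_cons, Module.End.mul_apply, Module.End.mul_apply, ih]
    ext p
    simp only [Bop_apply, LinearMap.comp_apply, map_sub, map_sum, hf]

theorem Bw_mono {lam : FA K n →ₐ[K] Module.End S M} {e : ℕ}
    (h : ∀ w : List (Fin n), w.length = e → D.Bw lam w = 0) (w : List (Fin n))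
    (hw : e ≤ w.length) : D.Bw lam w = 0 := by
  rw [← List.take_append_drop e w, Bw_append, h _ (by simpa using hw), zero_mul]

end Bop

section Nil

variable {L : Type*} [Field L] [Algebra K L] {a : Type} [Fintype a] [DecidableEq a]

noncomputable def toEnd (l : FA K n →ₐ[K] Matrix a a L) : FA K n →ₐ[K] Module.End L (a → L) :=
  ((Matrix.toLinAlgEquiv' : Matrix a a L ≃ₐ[L] _).toAlgHom.restrictScalars K).comp l

theorem toEnd_apply (l : FA K n →ₐ[K] Matrix a a L) (p : FA K n) (v : a → L) :
    toEnd l p v = l p *ᵥ v := by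
  simp [toEnd]

theorem right_inv (l : FA K n →ₐ[K] Matrix a a L) {b : Type} [Fintype b] [DecidableEq b]
    (ζ : Fin n → Matrix a b L) (h : ∀ k, ∑ j, l (D.U k j) * ζ j = 0) (j : Fin n) : ζ j = 0 := by
  let Φ : (Fin n → Matrix a b L) →ₗ[L] (Fin n → Matrix a b L) :=
    { toFun := fun v k => ∑ j, l (D.U k j) * v j
      map_add' := fun v w => by funext k; simp [Matrix.mul_add, Finset.sum_add_distrib]
      map_smul' := fun c v => by funext k; simp [Finset.smul_sum] }
  have hs : Function.Surjective Φ := by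
    intro v
    refine ⟨fun j => ∑ i, l (dd i (D.y j)) * v i, funext fun k => ?_⟩
    show ∑ j, l (D.U k j) * ∑ i, l (dd i (D.y j)) * v i = v k
    simp only [Matrix.mul_sum, ← Matrix.mul_assoc, ← map_mul]
    rw [Finset.sum_comm]
    simp only [← Matrix.sum_mul, ← map_sum, D.hU]
    rw [Finset.sum_eq_single k (fun i _ hi => by simp [hi.symm]) (by simp)]
    simp
  have hi := LinearMap.injective_iff_surjective.2 hs
  have : ζ = 0 := hi (by rw [map_zero]; funext k; exact h k)
  rw [this]; rfl

theorem der_rec {b : Type} [Fintype b] [DecidableEq b] {l : FA K n →ₐ[K] Matrix a a L}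
    {r : FA K n →ₐ[K] Matrix b b L} {δ : FA K n →ₗ[K] Matrix a b L} (h : IsDer l r δ)
    (p : FA K n) : δ p = ∑ k, l (dd k p) * δ (x K k) + ∑ i, δ (dd i p) * r (x K i) := by
  conv_lhs => rw [dd_expand p]
  rw [map_add, h.alg, zero_add, map_sum, ← Finset.sum_add_distrib]
  exact Finset.sum_congr rfl fun i _ => h _ _

theorem nil_fd {φ : FA K n →ₐ[K] FA K n} (hφ : Good φ) (hD : ∀ j, D.y j = φ (x K j))
    (l : FA K n →ₐ[K] Matrix a a L) :
    ∃ e, ∀ w : List (Fin n), w.length = e → D.Bw (toEnd l) w = 0 := by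
  let B := D.Bop (toEnd l)
  let Φ : (Fin n → (D.V →ₗ[K] (a → L))) →ₗ[L] (D.V →ₗ[K] (a → L)) :=
    ∑ i, (B i).comp (LinearMap.proj i)
  have hΦ : ∀ u, Φ u = ∑ i, B i (u i) := fun u => by simp [Φ, LinearMap.sum_apply]
  let H : ℕ → Submodule L (D.V →ₗ[K] (a → L)) := fun k =>
    Nat.rec ⊤ (fun _ W => (Submodule.pi Set.univ fun _ => W).map Φ) k
  have hH : ∀ k, H (k + 1) = (Submodule.pi Set.univ fun _ => H k).map Φ := fun _ => rfl
  have hanti : ∀ k, H (k + 1) ≤ H k := by
    intro k
    induction k with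
    | zero => exact le_top
    | succ k ih => exact Submodule.map_mono (Submodule.pi_mono fun _ _ => ih)
  obtain ⟨e, he⟩ := IsArtinian.monotone_stabilizes
    (⟨fun k => OrderDual.toDual (H k), monotone_nat_of_le_succ hanti⟩ : ℕ →o _)
  have he1 : H e = H (e + 1) := he (e + 1) (by omega)
  have hw : ∀ (w : List (Fin n)) z, D.Bw (toEnd l) w z ∈ H w.length := by
    intro w z
    induction w with
    | nil => trivial
    | cons i w ih =>
      rw [List.length_cons, hH, Bw_cons]
      refine ⟨Pi.single i (D.Bw (toEnd l) w z), fun k _ => ?_, ?_⟩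
      · by_cases hk : k = i
        · subst hk; simpa using ih
        · simp [hk]
      · rw [hΦ, Finset.sum_eq_single i (fun k _ hk => by simp [hk]) (by simp)]
        simp [B]
  suffices hz : ∀ z ∈ H e, z = 0 from
    ⟨e, fun w hl => LinearMap.ext fun z => hz _ (hl ▸ hw w z)⟩
  obtain ⟨m, β, hβs⟩ := Submodule.fg_iff_exists_fin_generating_family.1
    (IsNoetherian.noetherian (H e))
  have hβ : ∀ c, ∃ Y : Fin n → Fin m → L, β c = ∑ i, B i (∑ c', Y i c' • β c') := by
    intro c
    have : β c ∈ H (e + 1) := by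
      rw [← he1, ← hβs]; exact Submodule.subset_span ⟨c, rfl⟩
    obtain ⟨u, hu, e1⟩ := this
    have h2 : ∀ i, ∃ Y : Fin m → L, ∑ c', Y c' • β c' = u i := fun i =>
      (Submodule.mem_span_range_iff_exists_fun L).1 (hβs ▸ hu i trivial)
    choose Y hY using h2
    exact ⟨Y, by rw [← e1, hΦ]; simp only [hY]⟩
  choose Y0 hu using hβ
  let Y : Fin n → Matrix (Fin m) (Fin m) L := fun i => Matrix.of fun c' c => Y0 c i c'
  let h : D.V →ₗ[K] Matrix a (Fin m) L :=
    { toFun := fun p => Matrix.of fun ρ c => β c p ρ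
      map_add' := fun p q => by ext; simp
      map_smul' := fun c p => by ext; simp }
  have huY : ∀ c i p ρ, (∑ c', Y0 c i c' • β c') p ρ = (h p * Y i) ρ c := by
    intro c i p ρ
    simp [Matrix.mul_apply, h, Y, LinearMap.sum_apply, mul_comm]
  have hrec : ∀ p, h p = ∑ i, (h (D.ddV i p) - ∑ j, l (D.Sj j p.1) * h (D.yV i j)) * Y i := by
    intro p
    ext ρ c
    show β c p ρ = _
    rw [hu c, LinearMap.sum_apply, Finset.sum_apply, Matrix.sum_apply]
    refine Finset.sum_congr rfl fun i _ => ?_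
    simp only [B, Bop_apply, toEnd_apply, Pi.sub_apply, Finset.sum_apply, huY, Matrix.sub_mul,
      Matrix.sum_mul, Matrix.sub_apply, Matrix.sum_apply, Matrix.mul_assoc]
    congr 1
    refine Finset.sum_congr rfl fun j _ => ?_
    simp only [mulVec, dotProduct, huY]
    rfl
  let η : Fin n → Matrix a (Fin m) L := fun j => ∑ i, h (D.yV i j) * Y i
  let r : FA K n →ₐ[K] Matrix _ _ L := FreeAlgebra.lift K Y
  let δ := der l r fun k => -∑ j, l (D.U k j) * η j
  have hδ : IsDer l r δ := der_isDer _ _ _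
  have hδx : ∀ k, δ (x K k) = -∑ j, l (D.U k j) * η j := fun k => der_x _ _ _ k
  have hr : ∀ i, r (x K i) = Y i := fun i => FreeAlgebra.lift_ι_apply _ _
  have hrec2 : ∀ p : D.V, h p = ∑ k, l (dd k p.1) * δ (x K k) + ∑ i, h (D.ddV i p) * Y i := by
    intro p
    rw [hrec p]
    simp only [Matrix.sub_mul, Finset.sum_sub_distrib, hδx, Matrix.mul_neg, Finset.sum_neg_distrib,
      Sj_apply, map_sum, map_mul, Matrix.sum_mul, Matrix.mul_sum, η, Matrix.mul_assoc]
    rw [add_comm, ← sub_eq_add_neg]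
    congr 1
    rw [Finset.sum_comm]
    conv_rhs => rw [Finset.sum_comm]
    refine Finset.sum_congr rfl fun j _ => ?_
    rw [Finset.sum_comm]
  have hκ : ∀ t, ∀ p : D.V, p.1 ∈ Fil K n t → h p = δ p.1 := by
    intro t
    induction t with
    | zero =>
      intro p hp
      rw [Fil_zero, Submodule.mem_bot] at hp
      have : p = 0 := Subtype.ext hp
      simp [this]
    | succ t ih =>
      intro p hp
      rw [hrec2, der_rec hδ p.1]
      congr 1
      refine Finset.sum_congr rfl fun i _ => ?_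
      rw [ih (D.ddV i p) (dd_mem i hp), hr]; rfl
  have hζ : ∀ j, δ (D.y j) = 0 := by
    refine D.right_inv l _ fun k => ?_
    have e1 : ∀ j, δ (D.y j) = ∑ k, l (dd k (D.y j)) * δ (x K k) + η j := by
      intro j
      rw [der_rec hδ]
      congr 1
      refine Finset.sum_congr rfl fun i _ => ?_
      rw [hκ D.d (D.yV i j) (D.yV i j).2, hr]; rfl
    simp only [e1, Matrix.mul_add, Finset.sum_add_distrib, Matrix.mul_sum, ← Matrix.mul_assoc,
      ← map_mul]
    rw [Finset.sum_comm]
    simp only [← Matrix.sum_mul, ← map_sum, D.hU]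
    rw [Finset.sum_eq_single k (fun i _ hi => by simp [hi.symm]) (by simp), hδx]
    simp
  have h0 := der_zero hφ hδ fun j => hD j ▸ hζ j
  have h1 : ∀ p, δ p = 0 := fun p =>
    hδ.ext (δ' := 0) (fun p q => by simp) (fun i => by simpa using h0 i) p
  have h2 : ∀ c, β c = 0 := by
    intro c
    refine LinearMap.ext fun p => funext fun ρ => ?_
    have := (hκ D.d p p.2).trans (h1 _)
    exact congrFun (congrFun this ρ) c
  intro z hz
  obtain ⟨c, rfl⟩ := (Submodule.mem_span_range_iff_exists_fun L).1 (hβs ▸ hz)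
  simp [h2]

end Nil

end Dat

end Pool.Agent.Lib.H26Good
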