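import Mathlib
import Pool.Agent.Lib.helper26.GoodC

set_option autoImplicit false

namespace Pool.Agent.Lib.H26Good

open Matrix

universe u

variable {K : Type u} [Field K] {n : ℕ}

section Tmod

variable (K) (n) (r : ℕ)

abbrev PP : Type u := MvPolynomial (ZMod r) K
abbrev TT : Type u := ℕ →₀ PP K r

noncomputable def lamT : FA K n →ₐ[K] Module.End (PP K r) (TT K r) :=
  FreeAlgebra.lift K fun i => Finsupp.linearCombination (PP K r) fun k : ℕ =>
    Finsupp.single (k + 1) (MvPolynomial.X (k : ZMod r) ^ (i : ℕ))

noncomputable def sg : PP K r →ₐ[K] PP K r := MvPolynomial.rename fun k => k + 1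

noncomputable def Sh : Module.End K (TT K r) :=
  (Finsupp.lmapDomain (PP K r) K Nat.succ).comp (Finsupp.mapRange.linearMap (sg K r).toLinearMap)

variable {K n r}

theorem lamT_single (i : Fin n) (k : ℕ) (c : PP K r) : lamT K n r (x K i) (Finsupp.single k c) =
    Finsupp.single (k + 1) (c * MvPolynomial.X (k : ZMod r) ^ (i : ℕ)) := by
  simp [lamT]

theorem Sh_single (k : ℕ) (c : PP K r) :
    Sh K r (Finsupp.single k c) = Finsupp.single (k + 1) (sg K r c) := by
  simp [Sh]

theorem Sh_succ (τ : TT K r) (k : ℕ) : Sh K r τ (k + 1) = sg K r (τ k) := by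
  simp only [Sh, LinearMap.comp_apply, Finsupp.lmapDomain_apply]
  rw [Finsupp.mapDomain_apply Nat.succ_injective]
  simp

theorem Sh_zero (τ : TT K r) : Sh K r τ 0 = 0 := by
  simp only [Sh, LinearMap.comp_apply, Finsupp.lmapDomain_apply]
  exact Finsupp.mapDomain_of_notMem_range _ _ (by simp)

theorem Sh_pow_lt (t : ℕ) (τ : TT K r) (k : ℕ) (h : k < t) : (Sh K r ^ t) τ k = 0 := by
  induction t generalizing k with
  | zero => omega
  | succ t ih =>
    rw [pow_succ', Module.End.mul_apply]
    rcases k with _ | k
    · exact Sh_zero _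
    · rw [Sh_succ, ih k (by omega), map_zero]

theorem Sh_pow_add (t : ℕ) (τ : TT K r) (k : ℕ) :
    (Sh K r ^ t) τ (k + t) = (sg K r)^[t] (τ k) := by
  induction t with
  | zero => rfl
  | succ t ih =>
    rw [pow_succ', Module.End.mul_apply, ← add_assoc, Sh_succ, ih, Function.iterate_succ_apply']

theorem sg_inj : Function.Injective (sg K r) :=
  MvPolynomial.rename_injective _ (add_left_injective 1)

theorem Sh_comm (p : FA K n) (τ : TT K r) :
    Sh K r (lamT K n r p τ) = lamT K n r p (Sh K r τ) := by
  induction p using FreeAlgebra.induction generalizing τ with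
  | grade0 c => simp [Algebra.algebraMap_eq_smul_one]
  | grade1 i =>
    induction τ using Finsupp.induction_linear with
    | zero => simp
    | add a b ha hb => simp only [map_add, ha, hb]
    | single k c =>
      rw [lamT_single, Sh_single, Sh_single, lamT_single]
      simp [sg]
  | mul p q ihp ihq => simp only [map_mul, Module.End.mul_apply, ihp, ihq]
  | add p q ihp ihq => simp only [map_add, LinearMap.add_apply, ihp, ihq]

theorem Sh_pow_comm (t : ℕ) (p : FA K n) (τ : TT K r) :
    (Sh K r ^ t) (lamT K n r p τ) = lamT K n r p ((Sh K r ^ t) τ) := by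
  induction t with
  | zero => rfl
  | succ t ih => rw [pow_succ', Module.End.mul_apply, Module.End.mul_apply, ih, Sh_comm]

theorem Sh_indep {m : ℕ} (τ : TT K r) (hτ : τ ≠ 0) (c : Fin m → PP K r)
    (h : ∑ t, c t • (Sh K r ^ (t : ℕ)) τ = 0) (t : Fin m) : c t = 0 := by
  have hne : τ.support.Nonempty := Finsupp.support_nonempty_iff.2 hτ
  let k := τ.support.min' hne
  have hk : τ k ≠ 0 := Finsupp.mem_support_iff.1 (Finset.min'_mem _ _)
  have hk' : ∀ j < k, τ j = 0 := fun j hj => by
    by_contra h0
    exact absurd (Finset.min'_le _ j (Finsupp.mem_support_iff.2 h0)) (by omega)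
  induction t using WellFoundedLT.induction with
  | _ t ih =>
    have h1 := congrArg (fun σ : TT K r => σ (k + t)) h
    simp only [Finsupp.finsetSum_apply, Finsupp.smul_apply, Finsupp.coe_zero, Pi.zero_apply,
      smul_eq_mul] at h1
    rw [Finset.sum_eq_single t _ (by simp), Sh_pow_add] at h1
    · refine (mul_eq_zero.1 h1).resolve_right fun h2 => hk ?_
      exact (sg_inj.iterate t) (h2.trans (iterate_map_zero _ _).symm)
    · intro s _ hs
      rcases lt_or_gt_of_ne hs with l | l
      · rw [ih s l, zero_mul]
      · by_cases l2 : k + t < s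
        · rw [Sh_pow_lt _ _ _ l2, mul_zero]
        · have l3 : (t : ℕ) < s := l
          rw [show k + t = (k + t - s) + s by omega, Sh_pow_add, hk' _ (by omega),
            iterate_map_zero, mul_zero]

end Tmod

namespace Dat

variable (D : Dat K n) {r : ℕ}

theorem rank_step (e : ℕ) (he : Module.finrank K D.V ≤ e)
    (h : ∀ w : List (Fin n), w.length = e + 1 → D.Bw (lamT K n r) w = 0)
    (w : List (Fin n)) (hw : w.length = e) : D.Bw (lamT K n r) w = 0 := by
  by_contra h0
  obtain ⟨z, hz⟩ : ∃ z, D.Bw (lamT K n r) w z ≠ 0 := by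
    by_contra hc
    push Not at hc
    exact h0 (LinearMap.ext hc)
  obtain ⟨p, hp⟩ : ∃ p, D.Bw (lamT K n r) w z p ≠ 0 := by
    by_contra hc
    push Not at hc
    exact hz (LinearMap.ext hc)
  generalize hN : Module.finrank K D.V = N at he
  let β := Module.finBasisOfFinrankEq K D.V hN
  let v : Fin (N + 1) → (D.V →ₗ[K] TT K r) := fun j => D.Bw (lamT K n r) (w.drop j) z
  obtain ⟨c, hc⟩ : ∃ c, ∀ j b k, c ≤ k → v j (β b) k = 0 := by
    refine ⟨(Finset.univ.sup fun s : Fin (N + 1) × Fin N => (v s.1 (β s.2)).support.sup id) + 1,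
      fun j b k hk => ?_⟩
    by_contra hne
    have h1 : k ≤ (v j (β b)).support.sup id :=
      Finset.le_sup (f := id) (Finsupp.mem_support_iff.2 hne)
    have h2 : (v j (β b)).support.sup id ≤ _ :=
      Finset.le_sup (f := fun s : Fin (N + 1) × Fin N => (v s.1 (β s.2)).support.sup id)
        (Finset.mem_univ (j, b))
    omega
  let g : Fin (N + 1) × Fin (N * c + 1) → (Fin N × Fin (c + (N * c + 1)) → PP K r) :=
    fun s t => (Sh K r ^ (s.2 : ℕ)) (v s.1 (β t.1)) t.2
  have hg : LinearIndependent (PP K r) g := by
    rw [Fintype.linearIndependent_iff]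
    intro co hco
    have hZ : ∑ s, co s • ((Sh K r ^ (s.2 : ℕ)).comp (v s.1)) = 0 := by
      refine β.ext fun b => Finsupp.ext fun k => ?_
      simp only [LinearMap.sum_apply, LinearMap.smul_apply, LinearMap.comp_apply,
        Finsupp.finsetSum_apply, Finsupp.smul_apply, LinearMap.zero_apply, Finsupp.coe_zero,
        Pi.zero_apply]
      by_cases hk : k < c + (N * c + 1)
      · have := congrFun hco (b, ⟨k, hk⟩)
        simpa [g, Finset.sum_apply] using this
      · refine Finset.sum_eq_zero fun s _ => ?_
        have := s.2.2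
        rw [show k = (k - s.2) + s.2 by omega, Sh_pow_add, hc _ _ _ (by omega), iterate_map_zero,
          smul_zero]
    have key : ∀ j t, co (j, t) = 0 := by
      intro j
      induction j using WellFoundedGT.induction with
      | _ j ih =>
        have h1 := congrArg (fun Z => D.Bw (lamT K n r) (w.take j) Z p) hZ
        simp only [map_sum, map_smul, map_zero, LinearMap.sum_apply, LinearMap.smul_apply,
          LinearMap.zero_apply, D.Bw_nat _ (Sh_pow_comm _), LinearMap.comp_apply] at h1
        rw [Fintype.sum_prod_type, Finset.sum_eq_single j _ (by simp)] at h1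
        · simp only [v, ← Module.End.mul_apply, ← Bw_append, List.take_append_drop] at h1
          exact Sh_indep _ hp _ h1
        · intro j' _ hj
          refine Finset.sum_eq_zero fun t _ => ?_
          rcases lt_or_gt_of_ne hj with l | l
          · have l2 : (j' : ℕ) < j := l
            have := j.2
            simp only [v, ← Module.End.mul_apply, ← Bw_append]
            rw [D.Bw_mono h _ (by simp; omega)]
            simp
          · rw [ih j' l, zero_smul]
    exact fun s => key s.1 s.2
  have := hg.fintype_card_le_finrank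
  simp only [Fintype.card_prod, Fintype.card_fin, Module.finrank_fintype_fun_eq_card] at this
  nlinarith

theorem rank_bound (e : ℕ) (h : ∀ w : List (Fin n), w.length = e → D.Bw (lamT K n r) w = 0)
    (w : List (Fin n)) (hw : w.length = Module.finrank K D.V) : D.Bw (lamT K n r) w = 0 := by
  induction e with
  | zero => exact D.Bw_mono h w (by omega)
  | succ e ih =>
    by_cases he : Module.finrank K D.V ≤ e
    · exact ih (D.rank_step e he h)
    · exact D.Bw_mono h w (by omega)

end Dat

section Eta

variable (K) (n) (r : ℕ) [NeZero r]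

abbrev LL : Type u := FractionRing (Polynomial (PP K r))

noncomputable def mon (k : ℕ) : PP K r →ₗ[K] LL K r :=
  (IsScalarTower.toAlgHom K (Polynomial (PP K r)) (LL K r)).toLinearMap.comp
    ((Polynomial.monomial k).restrictScalars K)

noncomputable def eta : TT K r →ₗ[K] (ZMod r → LL K r) :=
  Finsupp.lsum K fun k => (LinearMap.single K (fun _ => LL K r) (k : ZMod r)).comp (mon K r k)

noncomputable def lL : FA K n →ₐ[K] Matrix (ZMod r) (ZMod r) (LL K r) :=
  FreeAlgebra.lift K fun i => Matrix.of fun ρ ρ' =>
    if ρ = ρ' + 1 then mon K r 1 (MvPolynomial.X ρ' ^ (i : ℕ)) else 0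

variable {K n r}

omit [NeZero r] in
theorem mon_mul (a b : ℕ) (c d : PP K r) : mon K r a c * mon K r b d = mon K r (a + b) (c * d) := by
  simp only [mon, LinearMap.comp_apply, AlgHom.toLinearMap_apply, LinearMap.restrictScalars_apply]
  rw [← map_mul, Polynomial.monomial_mul_monomial]

omit [NeZero r] in
theorem eta_single (k : ℕ) (c : PP K r) :
    eta K r (Finsupp.single k c) = Pi.single (k : ZMod r) (mon K r k c) := by
  simp [eta]

theorem eta_comm (p : FA K n) (τ : TT K r) :
    eta K r (lamT K n r p τ) = Dat.toEnd (lL K n r) p (eta K r τ) := by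
  induction p using FreeAlgebra.induction generalizing τ with
  | grade0 c => simp [Algebra.algebraMap_eq_smul_one]
  | grade1 i =>
    induction τ using Finsupp.induction_linear with
    | zero => simp
    | add a b ha hb => simp only [map_add, ha, hb]
    | single k c =>
      rw [lamT_single, eta_single, eta_single, Dat.toEnd_apply, mulVec_single]
      funext ρ
      simp only [lL, FreeAlgebra.lift_ι_apply, Pi.single_apply, Pi.smul_apply, Matrix.col,
        Matrix.transpose_apply, Matrix.of_apply, Nat.cast_add, Nat.cast_one]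
      split_ifs
      · rw [MulOpposite.smul_eq_mul_unop, MulOpposite.unop_op, mon_mul, add_comm, mul_comm]
      · simp
  | mul p q ihp ihq => simp only [map_mul, Module.End.mul_apply, ihp, ihq]
  | add p q ihp ihq => simp only [map_add, LinearMap.add_apply, ihp, ihq]

theorem eta_inj (τ : TT K r) (h : eta K r τ = 0) : τ = 0 := by
  let pol : TT K r →ₗ[K] Polynomial (PP K r) :=
    Finsupp.lsum K fun k => (Polynomial.monomial k).restrictScalars K
  have h1 : ∀ (τ : TT K r) k, (pol τ).coeff k = τ k := by
    intro τ k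
    induction τ using Finsupp.induction_linear with
    | zero => simp
    | add a b ha hb => simp only [map_add, Polynomial.coeff_add, ha, hb, Finsupp.add_apply]
    | single j c => simp [pol, Polynomial.coeff_monomial, Finsupp.single_apply]
  have h2 : ∀ τ : TT K r, ∑ ρ, eta K r τ ρ = algebraMap _ (LL K r) (pol τ) := by
    intro τ
    induction τ using Finsupp.induction_linear with
    | zero => simp
    | add a b ha hb => simp only [map_add, Pi.add_apply, Finset.sum_add_distrib, ha, hb]
    | single j c => simp [eta_single, pol, mon]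
  have h3 := h2 τ
  rw [h] at h3
  have h4 : pol τ = 0 :=
    IsFractionRing.injective (Polynomial (PP K r)) (LL K r) (by simpa using h3.symm)
  ext1 k
  rw [← h1, h4]; simp

noncomputable def xx (j : ℕ) : FA K n := if h : j < n then x K ⟨j, h⟩ else 0

noncomputable def wd (s : ZMod r →₀ ℕ) : ℕ → FA K n
  | 0 => 1
  | m + 1 => xx (s (m : ZMod r)) * wd s m

omit [NeZero r] in
theorem wd_congr (s s' : ZMod r →₀ ℕ) (m : ℕ) (h : ∀ k < m, s (k : ℕ) = s' (k : ℕ)) :
    (wd s m : FA K n) = wd s' m := by
  induction m with
  | zero => rfl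
  | succ m ih => rw [wd, wd, h m (by omega), ih fun k hk => h k (by omega)]

noncomputable def Gam : TT K r →ₗ[K] FA K n :=
  Finsupp.lsum K fun m => (MvPolynomial.basisMonomials (ZMod r) K).constr K fun s => wd s m

omit [NeZero r] in
theorem Gam_single (m : ℕ) (s : ZMod r →₀ ℕ) :
    Gam (Finsupp.single m (MvPolynomial.monomial s 1)) = (wd s m : FA K n) := by
  have := (MvPolynomial.basisMonomials (ZMod r) K).constr_basis K (fun s => (wd s m : FA K n)) s
  simpa [Gam] using this

omit [NeZero r] in
theorem word_T (l : List (Fin n)) (hl : l.length ≤ r) : ∃ s : ZMod r →₀ ℕ,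
    lamT K n r (l.map (x K)).prod (Finsupp.single 0 1) =
      Finsupp.single l.length (MvPolynomial.monomial s 1) ∧
    wd s l.length = (l.map (x K)).prod ∧ ∀ k, l.length ≤ k → k < r → s (k : ℕ) = 0 := by
  induction l with
  | nil => exact ⟨0, by simp, rfl, by simp⟩
  | cons i l ih =>
    rw [List.length_cons] at hl
    obtain ⟨s, h1, h2, h3⟩ := ih (by omega)
    have hne : ∀ k : ℕ, k < r → k ≠ l.length → ((l.length : ℕ) : ZMod r) ≠ (k : ℕ) := by
      intro k hk hk' e
      have := congrArg ZMod.val e
      rw [ZMod.val_cast_of_lt (by omega), ZMod.val_cast_of_lt hk] at this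
      omega
    refine ⟨s + Finsupp.single (l.length : ZMod r) (i : ℕ), ?_, ?_, fun k hk hk' => ?_⟩
    · rw [List.map_cons, List.prod_cons, map_mul, Module.End.mul_apply, h1, lamT_single,
        MvPolynomial.X_pow_eq_monomial, MvPolynomial.monomial_mul, mul_one, List.length_cons]
    · rw [List.length_cons, wd, List.map_cons, List.prod_cons, ← h2]
      congr 1
      · simp [h3 _ le_rfl (by omega), xx]
      · refine wd_congr _ _ _ fun k hk => ?_
        rw [Finsupp.add_apply, Finsupp.single_eq_of_ne (hne k (by omega) (by omega)).symm, add_zero]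
    · rw [List.length_cons] at hk
      rw [Finsupp.add_apply, Finsupp.single_eq_of_ne (hne k hk' (by omega)).symm, add_zero,
        h3 k (by omega) hk']

omit [NeZero r] in
theorem faithful (p : FA K n) (hp : p ∈ Fil K n r) :
    Gam (lamT K n r p (Finsupp.single 0 1)) = p := by
  induction hp using Submodule.span_induction with
  | mem p hp =>
    obtain ⟨l, hl, rfl⟩ := hp
    obtain ⟨s, h1, h2, -⟩ := word_T (K := K) l (le_of_lt hl)
    rw [h1, Gam_single, h2]
  | zero => simp
  | add p q _ _ hp hq => rw [map_add, LinearMap.add_apply, map_add, hp, hq]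
  | smul c p _ hp => rw [map_smul, LinearMap.smul_apply, map_smul, hp]

end Eta

namespace Dat

variable (D : Dat K n)

theorem nil_reg {φ : FA K n →ₐ[K] FA K n} (hφ : Good φ) (hD : ∀ j, D.y j = φ (x K j))
    (w : List (Fin n)) (hw : w.length = Module.finrank K D.V) :
    D.Bw (Algebra.lmul K (FA K n)) w = 0 := by
  refine LinearMap.ext fun z => LinearMap.ext fun p => ?_
  obtain ⟨d, hd⟩ := exists_Fil (D.Bw (Algebra.lmul K (FA K n)) w z p)
  obtain ⟨e, he⟩ := D.nil_fd hφ hD (lL K n (d + 1))
  have h1 := D.rank_bound (r := d + 1) e (fun w' hw' => LinearMap.ext fun z' =>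
    LinearMap.ext fun p' => eta_inj _ (by
      have := LinearMap.congr_fun (D.Bw_nat (eta K (d + 1)) eta_comm w' z') p'
      rw [he w' hw'] at this
      exact this.symm)) w hw
  let f : FA K n →ₗ[K] TT K (d + 1) :=
    { toFun := fun q => lamT K n (d + 1) q (Finsupp.single 0 1)
      map_add' := fun a b => by simp
      map_smul' := fun c a => by simp }
  have h2 := LinearMap.congr_fun (D.Bw_nat (lam := Algebra.lmul K (FA K n))
    (lam' := lamT K n (d + 1)) f (fun a b => by simp [f]) w z) p
  rw [h1] at h2
  have h3 := faithful _ (Fil_mono (Nat.le_succ d) hd)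
  have h4 : lamT K n (d + 1) (D.Bw (Algebra.lmul K (FA K n)) w z p) (Finsupp.single 0 1) = 0 :=
    h2.symm
  rw [h4, map_zero] at h3
  exact h3.symm

theorem nil_all {φ : FA K n →ₐ[K] FA K n} (hφ : Good φ) (hD : ∀ j, D.y j = φ (x K j))
    {S M : Type*} [CommRing S] [Algebra K S] [AddCommGroup M] [Module K M] [Module S M]
    [IsScalarTower K S M] (lam : FA K n →ₐ[K] Module.End S M)
    (w : List (Fin n)) (hw : Module.finrank K D.V ≤ w.length) : D.Bw lam w = 0 := by
  refine D.Bw_mono (fun w hw => LinearMap.ext fun z => ?_) w hw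
  let β := Module.finBasis K D.V
  let f : M → FA K n →ₗ[K] M := fun m =>
    { toFun := fun q => lam q m
      map_add' := fun a b => by simp
      map_smul' := fun c a => by simp }
  have hz : z = ∑ b, (f (z (β b))).comp ((Algebra.linearMap K (FA K n)).comp (β.coord b)) := by
    refine β.ext fun b => ?_
    rw [LinearMap.sum_apply, Finset.sum_eq_single b (fun b' _ hb => by simp [f, hb.symm]) (by simp)]
    simp [f]
  rw [hz, map_sum]
  refine Finset.sum_eq_zero fun b _ => ?_
  rw [D.Bw_nat (lam := Algebra.lmul K (FA K n)) _ (fun a b => by simp [f]), D.nil_reg hφ hD w hw]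
  simp

end Dat

theorem good_surj {φ : FA K n →ₐ[K] FA K n} (hφ : Good φ) : Function.Surjective φ := by
  obtain ⟨U, hU⟩ := exists_U hφ
  choose dg hdg using fun j => exists_Fil (φ (x K j))
  let D : Dat K n := ⟨fun j => φ (x K j), U, (∑ j, dg j) + 2, fun j => Fil_mono (by
    have := Finset.single_le_sum (f := dg) (fun _ _ => Nat.zero_le _) (Finset.mem_univ j)
    omega) (hdg j), hU⟩
  let N := Module.finrank K D.V
  let wp : List (Fin n) → FA K n := fun l => (l.map (x K)).prod
  obtain ⟨a, π, G, h1, h2, h3⟩ := partial_ext (Subalgebra.toSubmodule φ.range)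
    (fun j => Algebra.lmul K (FA K n) (φ (x K j)))
    (fun j v hv => φ.range.mul_mem ⟨x K j, rfl⟩ hv) (wp '' {l | l.length < N + 2})
    ((List.finite_length_lt (Fin n) _).image _)
  let L := AlgebraicClosure K
  obtain ⟨l, hl⟩ := rep_surj hφ fun j => (G j).map (algebraMap K L)
  let πL : FA K n →ₗ[K] (Fin a → L) := ((Algebra.linearMap K L).compLeft (Fin a)).comp π
  let lam := Dat.toEnd l
  have h4 : ∀ j (b : List (Fin n)), b.length < N + 2 →
      πL (φ (x K j) * wp b) = lam (φ (x K j)) (πL (wp b)) := by
    intro j b hb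
    have := h3 j _ ⟨b, hb, rfl⟩
    funext ρ
    have h5 := congrArg (algebraMap K L) (congrFun this ρ)
    rw [RingHom.map_mulVec] at h5
    rw [Dat.toEnd_apply, hl]
    exact h5
  let Gm : FA K n → FA K n →ₗ[K] (Fin a → L) := fun b =>
    { toFun := fun p => lam p (πL b) - πL (p * b)
      map_add' := fun p q => by simp only [map_add, LinearMap.add_apply, add_mul]; abel
      map_smul' := fun c p => by
        simp only [map_smul, LinearMap.smul_apply, smul_mul_assoc, RingHom.id_apply, smul_sub] }
  have hG : ∀ b p, Gm b p = ∑ i, lam (dd i p) (Gm b (x K i)) + ∑ i, Gm (x K i * b) (dd i p) := by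
    intro b p
    have h0 : Gm b 1 = 0 := by simp [Gm]
    conv_lhs => rw [dd_expand p, map_add, Algebra.algebraMap_eq_smul_one, map_smul, h0, smul_zero,
      zero_add, map_sum]
    rw [← Finset.sum_add_distrib]
    refine Finset.sum_congr rfl fun i _ => ?_
    simp only [Gm, LinearMap.coe_mk, AddHom.coe_mk, map_mul, map_sub, Module.End.mul_apply,
      mul_assoc]
    abel
  let z : FA K n → (D.V →ₗ[K] (Fin a → L)) := fun b => (Gm b).comp D.V.subtype
  have hrec : ∀ b : List (Fin n), b.length < N + 2 →
      z (wp b) = ∑ i, D.Bop lam i (z (wp (i :: b))) := by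
    intro b hb
    have e1 : ∀ j, ∑ i, Gm (x K i * wp b) (dd i (φ (x K j))) =
        -∑ i, lam (dd i (φ (x K j))) (Gm (wp b) (x K i)) := by
      intro j
      have := hG (wp b) (φ (x K j))
      have h0 : Gm (wp b) (φ (x K j)) = 0 := sub_eq_zero.2 (h4 j b hb).symm
      rw [h0] at this
      exact eq_neg_of_add_eq_zero_right this.symm
    have e2 : ∀ k, ∑ j, lam (U k j) (∑ i, Gm (x K i * wp b) (dd i (φ (x K j)))) =
        -Gm (wp b) (x K k) := by
      intro k
      simp only [e1, map_neg, Finset.sum_neg_distrib]
      simp only [map_sum, ← Module.End.mul_apply, ← map_mul]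
      rw [Finset.sum_comm]
      simp only [← LinearMap.sum_apply, ← map_sum, hU]
      rw [Finset.sum_eq_single k (fun i _ hi => by simp [hi.symm]) (by simp)]
      simp
    ext1 p
    rw [LinearMap.sum_apply]
    simp only [Dat.Bop_apply, Finset.sum_sub_distrib]
    show Gm (wp b) p.1 = ∑ i, Gm (x K i * wp b) (dd i p.1) -
      ∑ i, ∑ j, lam (D.Sj j p.1) (Gm (x K i * wp b) (dd i (φ (x K j))))
    have e3 : ∑ i, ∑ j, lam (D.Sj j p.1) (Gm (x K i * wp b) (dd i (φ (x K j)))) =
        ∑ k, lam (dd k p.1) (∑ j, lam (U k j) (∑ i, Gm (x K i * wp b) (dd i (φ (x K j))))) := by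
      simp only [Dat.Sj_apply, map_sum, map_mul, LinearMap.sum_apply, Module.End.mul_apply]
      rw [Finset.sum_comm]
      conv_rhs => rw [Finset.sum_comm]
      refine Finset.sum_congr rfl fun j _ => ?_
      rw [Finset.sum_comm]
    rw [e3, hG, add_comm, sub_eq_add_neg]
    congr 1
    rw [← Finset.sum_neg_distrib]
    refine Finset.sum_congr rfl fun k _ => ?_
    rw [e2, LinearMap.map_neg, neg_neg]
  have hkill : ∀ (m : ℕ) (w b : List (Fin n)), N ≤ w.length + m → b.length + m ≤ N →
      D.Bw lam w (z (wp b)) = 0 := by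
    intro m
    induction m with
    | zero => intro w b hw _; rw [D.nil_all hφ (fun _ => rfl) _ w hw]; rfl
    | succ m ih =>
      intro w b hw hb
      rw [hrec b (by omega), map_sum]
      refine Finset.sum_eq_zero fun i _ => ?_
      have := ih (w ++ [i]) (i :: b) (by simp; omega) (by simp; omega)
      rw [Dat.Bw_append] at this
      simpa [Dat.Bw] using this
  have hz := hkill N [] [] (by simp) (by simp)
  have hx : ∀ k, x K k ∈ φ.range := by
    intro k
    have e : wp [k] = x K k := by simp [wp]
    refine h2 _ ⟨[k], by simp, e⟩ ?_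
    have h5 := LinearMap.congr_fun hz ⟨x K k, e ▸ word_mem [k] (by simp [D])⟩
    have h6 : π 1 = 0 := h1 1 φ.range.one_mem
    have h7 : πL (x K k) = 0 := by simpa [Dat.Bw, z, Gm, wp, πL, h6] using h5
    funext ρ
    exact (algebraMap K L).injective (by simpa [πL] using congrFun h7 ρ)
  intro p
  show p ∈ φ.range
  induction p using FreeAlgebra.induction with
  | grade0 c => exact φ.range.algebraMap_mem c
  | grade1 i => exact hx i
  | mul p q hp hq => exact mul_mem hp hq
  | add p q hp hq => exact add_mem hp hq

end Pool.Agent.Lib.H26Good
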