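import Mathlib

set_option autoImplicit false

namespace Pool.Agent.Lib.helper26.Hyp

open Filter Topology Finset

noncomputable abbrev UU : Ultrafilter ℕ := hyperfilter ℕ

lemma ev {p : ℕ → Prop} (h : ∀ᶠ n in atTop, p n) : ∀ᶠ n in (UU : Filter ℕ), p n :=
  Nat.hyperfilter_le_atTop h

lemma exlim {I : Type} (f : ℕ → I → ℝ) (hf : ∀ n z, 0 ≤ f n z ∧ f n z ≤ 1) :
    ∃ g : I → ℝ, (∀ z, 0 ≤ g z ∧ g z ≤ 1) ∧ ∀ z, Tendsto (fun n => f n z) UU (𝓝 (g z)) := by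
  have : ∀ z, ∃ x, (0 ≤ x ∧ x ≤ 1) ∧ Tendsto (fun n => f n z) UU (𝓝 x) := fun z => by
    obtain ⟨x, h1, h2⟩ := (isCompact_Icc (a := (0 : ℝ)) (b := 1)).ultrafilter_le_nhds
      (UU.map fun n => f n z) (by
        rw [le_principal_iff, Ultrafilter.mem_coe, Ultrafilter.mem_map]
        exact univ_mem' fun n => hf n z)
    exact ⟨x, h1, h2⟩
  choose g h1 h2 using this
  exact ⟨g, h1, h2⟩

def Ineq {G : Type} [Sub G] (ε : ℝ) (F : G → ℝ) {ι : Type} [Fintype ι] (z : ι → G) (c : ι → ℝ) :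
    Prop := ε ^ 2 * (∑ i, c i) ^ 2 ≤ ∑ i, ∑ j, c i * c j * F (z i - z j)

def PD {G : Type} [Sub G] (ε : ℝ) (F : G → ℝ) : Prop :=
  ∀ (ι : Type) [Fintype ι] (z : ι → G) (c : ι → ℝ), Ineq ε F z c

def K (ε : ℝ) (Ψ : ℚ × ℚ → ℝ) : Prop :=
  (∀ z, 0 ≤ Ψ z ∧ Ψ z ≤ 1) ∧ PD ε Ψ ∧ ∀ z : ℚ × ℚ, z.1 * z.2 = 1 → Ψ z = 0

lemma limK {ε : ℝ} (f : ℕ → ℚ × ℚ → ℝ) (h1 : ∀ n z, 0 ≤ f n z ∧ f n z ≤ 1)
    (h2 : ∀ (ι : Type) [Fintype ι] (z : ι → ℚ × ℚ) (c : ι → ℝ),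
      ∀ᶠ n in atTop, Ineq ε (f n) z c)
    (h3 : ∀ z : ℚ × ℚ, z.1 * z.2 = 1 → ∀ᶠ n in atTop, f n z = 0) :
    ∃ Ψ, K ε Ψ ∧ ∀ z, Tendsto (fun n => f n z) UU (𝓝 (Ψ z)) := by
  obtain ⟨g, g1, g2⟩ := exlim f h1
  refine ⟨g, ⟨g1, fun ι _ z c => ?_, fun z hz => ?_⟩, g2⟩
  · exact ge_of_tendsto (tendsto_finsetSum _ fun i _ => tendsto_finsetSum _ fun j _ =>
      (g2 _).const_mul _) (ev (h2 ι z c))
  · exact tendsto_nhds_unique (g2 z)
      (tendsto_const_nhds.congr' ((ev (h3 z hz)).mono fun n hn => hn.symm))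

def D (u : ℚ) (z : ℚ × ℚ) : ℚ × ℚ := (u * z.1, u⁻¹ * z.2)

lemma D_mul (u v : ℚ) (z : ℚ × ℚ) : D u (D v z) = D (u * v) z := by
  simp only [D, mul_inv, mul_assoc]

lemma D_sub (u : ℚ) (z w : ℚ × ℚ) : D u (z - w) = D u z - D u w := by
  simp [D, mul_sub]

lemma one {ε : ℝ} {Ψ : ℚ × ℚ → ℝ} (h : K ε Ψ) {u : ℚ} (hu : u ≠ 0) :
    ∃ Ψ', K ε Ψ' ∧ (∀ z, Ψ' (D u z) = Ψ' z) ∧
      ∀ v, (∀ z, Ψ (D v z) = Ψ z) → ∀ z, Ψ' (D v z) = Ψ' z := by
  obtain ⟨h1, h2, h3⟩ := h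
  obtain ⟨Ψ', a1, a2⟩ := limK (ε := ε)
    (fun n z => (∑ k ∈ range (n + 1), Ψ (D (u ^ k) z)) / (n + 1))
    (fun n z => ⟨div_nonneg (sum_nonneg fun k _ => (h1 _).1) (by positivity), by
      rw [div_le_one (by positivity)]
      exact (sum_le_sum fun k _ => (h1 _).2).trans (by simp)⟩)
    (fun ι _ z c => Eventually.of_forall fun n => by
      have := sum_le_sum fun k (_ : k ∈ range (n + 1)) => h2 ι (fun i => D (u ^ k) (z i)) c
      simp only [← D_sub, sum_const, card_range, nsmul_eq_mul] at this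
      simp only [Ineq, ← mul_div_assoc, ← sum_div, mul_sum]
      rw [le_div_iff₀ (by positivity)]
      rw [sum_comm] at this
      exact le_trans (le_of_eq (by push_cast; ring))
        (this.trans (le_of_eq (sum_congr rfl fun i _ => sum_comm))))
    (fun z hz => Eventually.of_forall fun n => by
      rw [sum_eq_zero fun k _ => h3 _ (by
        simp only [D]
        field_simp
        exact hz), zero_div])
  refine ⟨Ψ', a1, fun z => ?_, fun v hv z => ?_⟩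
  · have t := (a2 (D u z)).sub (a2 z)
    have t0 : Tendsto (fun n : ℕ => (Ψ (D (u ^ (n + 1)) z) - Ψ z) / (n + 1)) atTop (𝓝 0) := by
      refine squeeze_zero_norm (fun n => ?_) tendsto_one_div_add_atTop_nhds_zero_nat
      rw [norm_div, Real.norm_eq_abs, Real.norm_eq_abs, abs_of_pos (by positivity : (0 : ℝ) < n + 1)]
      gcongr
      have := h1 (D (u ^ (n + 1)) z)
      have := h1 z
      rw [abs_le]
      constructor <;> linarith
    refine sub_eq_zero.1 (tendsto_nhds_unique t ((t0.mono_left Nat.hyperfilter_le_atTop).congr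
      fun n => ?_))
    simp only [D_mul, ← pow_succ]
    rw [← sub_div, ← sum_sub_distrib, sum_range_sub (fun k => Ψ (D (u ^ k) z))]
    simp [D]
  · refine tendsto_nhds_unique (a2 (D v z)) ((a2 z).congr fun n => ?_)
    simp only [D_mul, mul_comm _ v]
    simp only [← D_mul, hv]

lemma inv {ε : ℝ} {Ψ : ℚ × ℚ → ℝ} (h : K ε Ψ) :
    ∃ Ψ', K ε Ψ' ∧ ∀ u, u ≠ 0 → ∀ z, Ψ' (D u z) = Ψ' z := by
  have key : ∀ n : ℕ, ∃ Ψ', K ε Ψ' ∧ ∀ u : ℚ, u ≠ 0 → Encodable.encode u < n →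
      ∀ z, Ψ' (D u z) = Ψ' z := by
    intro n
    induction n with
    | zero => exact ⟨Ψ, h, fun u _ hu => by omega⟩
    | succ n ih =>
      obtain ⟨Φ, a1, a2⟩ := ih
      by_cases hc : ∃ u : ℚ, u ≠ 0 ∧ Encodable.encode u = n
      · obtain ⟨u, u0, u1⟩ := hc
        obtain ⟨Φ', b1, b2, b3⟩ := one a1 u0
        refine ⟨Φ', b1, fun v v0 hv => ?_⟩
        rcases Nat.lt_succ_iff_lt_or_eq.1 hv with hv | hv
        · exact b3 v (a2 v v0 hv)
        · rw [Encodable.encode_injective (hv.trans u1.symm)]; exact b2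
      · refine ⟨Φ, a1, fun v v0 hv => a2 v v0 ?_⟩
        rcases Nat.lt_succ_iff_lt_or_eq.1 hv with hv | hv
        · exact hv
        · exact absurd ⟨v, v0, hv⟩ hc
  choose f f1 f2 using key
  obtain ⟨Ψ', a1, a2⟩ := limK f (fun n => (f1 n).1)
    (fun ι _ z c => Eventually.of_forall fun n => (f1 n).2.1 ι z c)
    (fun z hz => Eventually.of_forall fun n => (f1 n).2.2 z hz)
  refine ⟨Ψ', a1, fun u hu z => tendsto_nhds_unique (a2 (D u z)) ((a2 z).congr' ?_)⟩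
  filter_upwards [ev (eventually_gt_atTop (Encodable.encode u))] with n hn
  exact (f2 n u hu hn z).symm

lemma dsum_le {n : ℕ} (f : Fin n → Fin n → ℝ) (γ : ℝ) (hγ : 0 ≤ γ) (h1 : ∀ i, f i i ≤ 1)
    (h2 : ∀ i j, i ≠ j → f i j ≤ γ) : ∑ i, ∑ j, f i j ≤ n ^ 2 * γ + n := by
  have : ∀ i j, f i j ≤ γ + if i = j then 1 else 0 := fun i j => by
    split_ifs with h
    · subst h; linarith [h1 i]
    · linarith [h2 i j h]
  refine (sum_le_sum fun i _ => sum_le_sum fun j _ => this i j).trans (le_of_eq ?_)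
  simp [sum_add_distrib]
  ring

lemma dsum_ge {n : ℕ} (f : Fin n → Fin n → ℝ) (γ : ℝ) (h : ∀ i j, γ ≤ f i j) :
    n ^ 2 * γ ≤ ∑ i, ∑ j, f i j := by
  refine (le_of_eq ?_).trans (sum_le_sum fun i _ => sum_le_sum fun j _ => h i j)
  simp
  ring

lemma main_ineq {ε : ℝ} {Ψ : ℚ × ℚ → ℝ} (h : K ε Ψ) {n : ℕ} (hn : 0 < n) (p q : Fin n → ℚ × ℚ)
    (b : ℚ × ℚ) (γ η e : ℝ) (hγ : 0 ≤ γ + η) (he : 0 ≤ e)
    (pp : ∀ i j, i ≠ j → Ψ (p i - p j) ≤ γ + η) (qq : ∀ i j, i ≠ j → Ψ (q i - q j) ≤ γ + η)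
    (pq : ∀ i j, γ - η ≤ Ψ (p i - q j)) (qp : ∀ i j, γ - η ≤ Ψ (q i - p j))
    (b1 : ∀ i, e ≤ Ψ (p i - b) - Ψ (q i - b)) (b2 : ∀ i, e ≤ Ψ (b - p i) - Ψ (b - q i)) :
    e ^ 2 ≤ 4 * η + 2 / n := by
  have a := h.2.1 (Unit ⊕ (Fin n ⊕ Fin n)) (Sum.elim (fun _ => b) (Sum.elim p q))
    (Sum.elim (fun _ => -(n * e)) (Sum.elim (fun _ => 1) (fun _ => -1)))
  have a0 := le_trans (by positivity) a
  simp only [Fintype.sum_sum_type, Sum.elim_inl, Sum.elim_inr, sum_add_distrib, univ_unique,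
    sum_singleton, one_mul, mul_one, mul_neg, neg_mul, sum_neg_distrib, ← mul_sum] at a0
  have c1 := dsum_le (fun i j => Ψ (p i - p j)) _ hγ (fun i => (h.1 _).2) pp
  have c2 := dsum_le (fun i j => Ψ (q i - q j)) _ hγ (fun i => (h.1 _).2) qq
  have c3 := dsum_ge (fun i j => Ψ (p i - q j)) _ pq
  have c4 := dsum_ge (fun i j => Ψ (q i - p j)) _ qp
  have c5 := sum_le_sum fun i (_ : i ∈ univ) => b1 i
  have c6 := sum_le_sum fun i (_ : i ∈ univ) => b2 i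
  simp only [sum_const, card_univ, Fintype.card_fin, nsmul_eq_mul, sum_sub_distrib] at c5 c6
  have c7 := (h.1 (b - b)).2
  have hn' : (0 : ℝ) < n := by exact_mod_cast hn
  have ne : 0 ≤ n * e := by positivity
  have d5 := mul_le_mul_of_nonneg_left c5 ne
  have d6 := mul_le_mul_of_nonneg_left c6 ne
  have d7 := mul_le_mul_of_nonneg_left c7 (mul_nonneg ne ne)
  have : n ^ 2 * e ^ 2 ≤ n ^ 2 * (4 * η + 2 / n) := by
    have : (n : ℝ) ^ 2 * (4 * η + 2 / n) = 4 * n ^ 2 * η + 2 * n := by field_simp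
    rw [this]
    nlinarith
  exact le_of_mul_le_mul_left this (by positivity)

lemma almost_const {ε : ℝ} {Ψ : ℚ × ℚ → ℝ} (h : K ε Ψ) (φ : ℚ → ℝ)
    (hφ : ∀ z : ℚ × ℚ, z.1 ≠ 0 → Ψ z = φ (z.1 * z.2)) (h0 : 0 ≤ φ 0) (X Y : Set ℚ)
    (hX : X.Infinite) (hY : Y.Infinite) (e : ℝ) (he : 0 < e)
    (hXY : ∀ x ∈ X, ∀ y ∈ Y, e ≤ φ x - φ y) : False := by
  obtain ⟨n, hn⟩ := exists_nat_gt (2 / e ^ 2)
  have hn0 : (0 : ℝ) < n := lt_trans (by positivity) hn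
  let x := (hX.sdiff (Set.finite_singleton 0)).natEmbedding
  let y := (hY.sdiff (Set.finite_singleton 0)).natEmbedding
  have ne : ∀ i j, (x i : ℚ) - y j ≠ 0 := fun i j hc => by
    have := hXY _ (x i).2.1 _ (y j).2.1
    rw [sub_eq_zero.1 hc] at this
    linarith
  have := main_ineq h (n := n) (by exact_mod_cast hn0) (fun i => (x i, 0)) (fun i => (y i, 0))
    (0, -1) (φ 0) 0 e (by linarith) he.le
    (fun i j hij => by
      rw [hφ _ (sub_ne_zero.2 fun hc => hij (Fin.ext (x.injective (Subtype.ext hc))))]; simp)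
    (fun i j hij => by
      rw [hφ _ (sub_ne_zero.2 fun hc => hij (Fin.ext (y.injective (Subtype.ext hc))))]; simp)
    (fun i j => by rw [hφ _ (ne i j)]; simp)
    (fun i j => by rw [hφ _ (sub_ne_zero.2 (sub_ne_zero.1 (ne j i)).symm)]; simp)
    (fun i => by
      rw [hφ _ (by simpa using (x i).2.2), hφ _ (by simpa using (y i).2.2)]
      simpa using hXY _ (x i).2.1 _ (y i).2.1)
    (fun i => by
      rw [hφ _ (by simpa using (x i).2.2), hφ _ (by simpa using (y i).2.2)]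
      simpa using hXY _ (x i).2.1 _ (y i).2.1)
  rw [div_lt_iff₀ (by positivity)] at hn
  rw [mul_zero, zero_add, le_div_iff₀ hn0] at this
  linarith

theorem noK {ε : ℝ} (hε : 0 < ε) {Ψ0 : ℚ × ℚ → ℝ} (h : K ε Ψ0) : False := by
  obtain ⟨Ψ, h, hinv⟩ := inv h
  let φ : ℚ → ℝ := fun t => Ψ (1, t)
  have hφ : ∀ z : ℚ × ℚ, z.1 ≠ 0 → Ψ z = φ (z.1 * z.2) := fun z hz => by
    rw [← hinv z.1⁻¹ (inv_ne_zero hz) z]
    simp [D, φ, hz]
  obtain ⟨κ', k1, k2⟩ := exlim (fun (n : ℕ) (_ : Unit) => φ n) fun n _ => h.1 _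
  set κ := κ' () with hκ
  have k0 : 0 ≤ κ := (k1 ()).1
  set η := ε ^ 4 / 100 with hη
  have η0 : 0 < η := by positivity
  have hY : {t : ℚ | |φ t - κ| < η / 2}.Infinite := by
    have a1 : ∀ᶠ n : ℕ in (UU : Filter ℕ), |φ n - κ| < η / 2 :=
      (Metric.tendsto_nhds.1 (k2 ())) _ (by positivity)
    have a2 : {n : ℕ | |φ n - κ| < η / 2}.Infinite := fun hf => hf.notMem_hyperfilter a1
    exact Set.infinite_of_injOn_mapsTo (f := fun n : ℕ => (n : ℚ))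
      Nat.cast_injective.injOn (fun n hn => hn) a2
  have fin : ({t : ℚ | κ + η ≤ φ t} ∪ {t | φ t ≤ κ - η}).Finite := by
    refine Set.Finite.union ?_ ?_ <;> by_contra hX
    · refine almost_const h φ hφ (h.1 _).1 _ _ hX hY (η / 2) (by positivity) fun x hx y hy => ?_
      simp only [Set.mem_ofPred_eq, abs_lt] at hx hy
      linarith
    · refine almost_const h φ hφ (h.1 _).1 _ _ hY hX (η / 2) (by positivity) fun x hx y hy => ?_
      simp only [Set.mem_ofPred_eq, abs_lt] at hx hy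
      linarith
  obtain ⟨R, hR⟩ := (fin.image fun t => |t|).bddAbove
  set L : ℚ := max R 0 + 3 with hL
  have L3 : 3 ≤ L := by have := le_max_right R 0; linarith
  have gen : ∀ z : ℚ × ℚ, L - 2 ≤ |z.1 * z.2| → κ - η ≤ Ψ z ∧ Ψ z ≤ κ + η := fun z hz => by
    have z1 : z.1 ≠ 0 := fun hc => by
      rw [hc, zero_mul, abs_zero] at hz
      linarith
    rw [hφ z z1]
    by_contra hc
    have : |z.1 * z.2| ≤ R := hR ⟨_, by
      simp only [Set.mem_union, Set.mem_ofPred_eq]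
      by_contra hc'
      push Not at hc'
      exact hc ⟨hc'.2.le, hc'.1.le⟩, rfl⟩
    have := le_max_left R 0
    linarith
  obtain ⟨n, hn⟩ := exists_nat_gt (100 / ε ^ 4)
  have hn0 : (0 : ℝ) < n := lt_trans (by positivity) hn
  have hn1 : 1 / (n : ℝ) < η := by
    rw [div_lt_iff₀ hn0]
    rw [div_lt_iff₀ (by positivity)] at hn
    rw [hη]
    linarith
  let p : Fin n → ℚ × ℚ := fun i => (-(L * ((i : ℕ) + 1)), -(L * ((i : ℕ) + 1)))
  let q : Fin n → ℚ × ℚ := fun i => (L ^ (i : ℕ), (L ^ (i : ℕ))⁻¹)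
  have Lp : ∀ i : Fin n, L ≤ L * ((i : ℕ) + 1) := fun i =>
    le_mul_of_one_le_right (by linarith) (by linarith [(Nat.cast_nonneg (i : ℕ) : (0 : ℚ) ≤ _)])
  have big : ∀ a b : ℚ, L ≤ a → L ≤ b → L - 2 ≤ |a * b| := fun a b ha hb =>
    le_trans (by nlinarith) (le_abs_self _)
  have pp : ∀ i j, i ≠ j → Ψ (p i - p j) ≤ κ + η := fun i j hij => by
    refine (gen _ ?_).2
    have a1 : (1 : ℚ) ≤ (((j : ℕ) : ℚ) - (i : ℕ)) ^ 2 := by
      have : ((j : ℕ) : ℤ) - (i : ℕ) ≠ 0 := by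
        have := Fin.val_injective.ne hij
        omega
      exact_mod_cast (by positivity : 0 < (((j : ℕ) : ℤ) - (i : ℕ)) ^ 2)
    refine le_trans ?_ (le_abs_self _)
    have : (p i - p j).1 * (p i - p j).2 = L ^ 2 * (((j : ℕ) : ℚ) - (i : ℕ)) ^ 2 := by
      simp only [p, Prod.fst_sub, Prod.snd_sub]; ring
    rw [this]
    nlinarith
  have qq' : ∀ i j : ℕ, i < j → L - 2 ≤ |(L ^ i - L ^ j) * ((L ^ i)⁻¹ - (L ^ j)⁻¹)| := by
    intro i j hij
    obtain ⟨d, rfl⟩ := Nat.exists_eq_add_of_lt hij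
    have a1 : (L ^ i - L ^ (i + d + 1)) * ((L ^ i)⁻¹ - (L ^ (i + d + 1))⁻¹) =
        -(L ^ (d + 1) + (L ^ (d + 1))⁻¹ - 2) := by
      field_simp
      ring
    have a2 : L ≤ L ^ (d + 1) := le_self_pow₀ (by linarith) (by omega)
    have a3 : 0 ≤ (L ^ (d + 1))⁻¹ := by positivity
    rw [a1, abs_neg]
    exact le_trans (by linarith) (le_abs_self _)
  have qq : ∀ i j, i ≠ j → Ψ (q i - q j) ≤ κ + η := fun i j hij => by
    refine (gen _ ?_).2
    rcases lt_or_gt_of_ne (Fin.val_injective.ne hij) with a | a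
    · exact qq' _ _ a
    · have := qq' _ _ a
      rw [← neg_mul_neg, neg_sub, neg_sub] at this
      exact this
  have qp' : ∀ i j, L - 2 ≤ |(q i - p j).1 * (q i - p j).2| := fun i j => by
    have a1 : 0 ≤ L ^ (i : ℕ) := by positivity
    have a2 : 0 ≤ (L ^ (i : ℕ))⁻¹ := by positivity
    have := Lp j
    exact big _ _ (by simp only [p, q, Prod.fst_sub]; linarith)
      (by simp only [p, q, Prod.snd_sub]; linarith)
  have p0 : ∀ i, κ - η ≤ Ψ (p i) ∧ κ - η ≤ Ψ (-p i) := fun i =>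
    ⟨(gen _ (by simpa [p] using big _ _ (Lp i) (Lp i))).1,
      (gen _ (by simpa [p] using big _ _ (Lp i) (Lp i))).1⟩
  have q0 : ∀ i, Ψ (q i) = 0 ∧ Ψ (-q i) = 0 := fun i => by
    have : L ^ (i : ℕ) ≠ 0 := by positivity
    exact ⟨h.2.2 _ (by simp [q, this]), h.2.2 _ (by simp [q, this])⟩
  have c1 := (h.2.1 (Fin n) p fun _ => 1).trans
    (dsum_le _ (κ + η) (by linarith) (fun i => by simpa using (h.1 _).2)
      (fun i j hij => by simpa using pp i j hij))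
  simp only [sum_const, card_univ, Fintype.card_fin, nsmul_eq_mul, mul_one] at c1
  have c2 : ε ^ 2 ≤ κ + η + 1 / n := by
    have : (n : ℝ) ^ 2 * (κ + η) + n = (κ + η + 1 / n) * n ^ 2 := by field_simp
    rw [this] at c1
    exact le_of_mul_le_mul_right c1 (by positivity)
  have c3 : ε ^ 2 ≤ 1 := by
    have := h.2.1 Unit (fun _ => 0) fun _ => 1
    simp only [Ineq, univ_unique, sum_singleton, one_pow, mul_one, one_mul] at this
    exact this.trans (h.1 _).2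
  have c4 : η ≤ ε ^ 2 / 100 := by
    rw [hη]
    have : ε ^ 4 = ε ^ 2 * ε ^ 2 := by ring
    nlinarith [sq_nonneg ε]
  have c5 := main_ineq h (n := n) (by exact_mod_cast hn0) p q 0 κ η (ε ^ 2 / 2) (by linarith)
    (by positivity) pp qq
    (fun i j => (gen _ (by
      have := qp' j i
      rw [← neg_mul_neg, ← Prod.fst_neg, ← Prod.snd_neg, neg_sub] at this
      exact this)).1)
    (fun i j => (gen _ (qp' i j)).1)
    (fun i => by rw [sub_zero, sub_zero, (q0 i).1]; linarith [(p0 i).1, sq_nonneg ε])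
    (fun i => by rw [zero_sub, zero_sub, (q0 i).2]; linarith [(p0 i).2, sq_nonneg ε])
  have c6 : (2 : ℝ) / n = 2 * (1 / n) := by ring
  have c7 : (ε ^ 2 / 2) ^ 2 = 25 * η := by rw [hη]; ring
  linarith

end Pool.Agent.Lib.helper26.Hyp
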