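import Mathlib

namespace Pool.Agent.H26Lamb
open Finset

/-- number of divisors -/
def tau (n : ℕ) : ℕ := n.divisors.card

lemma tau_le_self (n : ℕ) : tau n ≤ n := Nat.card_divisors_le_self n

lemma tau_pos {n : ℕ} (h : n ≠ 0) : 1 ≤ tau n := by
  unfold tau
  exact Finset.card_pos.2 ⟨1, Nat.one_mem_divisors.2 h⟩

lemma tau_le (n Y : ℕ) (h : n ≤ Y ^ 2) :
    tau n ≤ 2 * ((Icc 1 Y).filter (fun d => d ∣ n)).card := by
  classical
  rcases Nat.eq_zero_or_pos n with rfl | hn
  · simp [tau]
  have hsub : n.divisors ⊆ ((Icc 1 Y).filter (fun d => d ∣ n)) ∪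
      (((Icc 1 Y).filter (fun d => d ∣ n)).image (fun d => n / d)) := by
    intro d hd
    have hdn := Nat.dvd_of_mem_divisors hd
    have hd0 : 0 < d := Nat.pos_of_dvd_of_pos hdn hn
    by_cases hY : d ≤ Y
    · exact mem_union_left _ (by simp [hdn, hY]; omega)
    · apply mem_union_right
      obtain ⟨e, rfl⟩ := hdn
      have he : 0 < e := Nat.pos_of_mul_pos_left hn
      refine mem_image.2 ⟨e, ?_, ?_⟩
      · simp only [mem_filter, mem_Icc]
        refine ⟨⟨he, ?_⟩, Dvd.intro_left _ rfl⟩
        by_contra hc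
        push Not at hc hY
        nlinarith
      · exact Nat.mul_div_cancel d he
  calc tau n ≤ _ := card_le_card hsub
    _ ≤ _ := card_union_le _ _
    _ ≤ _ := by
      have := card_image_le (s := (Icc 1 Y).filter (fun d => d ∣ n)) (f := fun d => n / d)
      omega

lemma count_le (a M d S : ℕ) (h : Nat.Coprime a M) (hd : 0 < d) :
    ((range S).filter (fun s => d ∣ a + M * s)).card ≤ S / d + 1 := by
  classical
  have : ((range S).filter (fun s => d ∣ a + M * s)).card ≤ (range (S / d + 1)).card := by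
    apply card_le_card_of_injOn (fun s => s / d)
    · intro s hs
      simp only [coe_filter, mem_range, Set.mem_ofPred_eq] at hs
      simp only [coe_range, Set.mem_Iio]
      have := Nat.div_le_div_right (c := d) hs.1.le
      omega
    · intro s hs s' hs' hss
      simp only [coe_filter, mem_range, Set.mem_ofPred_eq] at hs hs'
      have hc : Nat.Coprime d M := by
        apply Nat.Coprime.coprime_dvd_left hs.2
        simpa using h
      have h1 : a + M * s ≡ a + M * s' [MOD d] :=
        ((Nat.modEq_zero_iff_dvd).2 hs.2).trans ((Nat.modEq_zero_iff_dvd).2 hs'.2).symm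
      have h2 : s ≡ s' [MOD d] :=
        Nat.ModEq.cancel_left_of_coprime hc (Nat.ModEq.add_left_cancel' a h1)
      have h3 := Nat.div_add_mod s d
      have h4 := Nat.div_add_mod s' d
      simp only at hss
      unfold Nat.ModEq at h2
      rw [← h3, ← h4, hss, h2]
  simpa using this

lemma sum_tau_le (a M y : ℕ) (h : Nat.Coprime a M)
    (hb : ∀ s < 2 ^ y, a + M * s ≤ (2 ^ y) ^ 2) :
    (∑ s ∈ range (2 ^ y), (tau (a + M * s) : ℝ)) ≤ 2 ^ y * (2 * (2 + y)) := by
  classical
  set Y := 2 ^ y with hY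
  have h1 : (∑ s ∈ range Y, tau (a + M * s)) ≤ 2 * ∑ d ∈ Icc 1 Y, (Y / d + 1) := by
    calc _ ≤ ∑ s ∈ range Y, 2 * ((Icc 1 Y).filter (fun d => d ∣ a + M * s)).card :=
          sum_le_sum fun s hs => tau_le _ _ (hb s (mem_range.1 hs))
      _ = 2 * ∑ d ∈ Icc 1 Y, ((range Y).filter (fun s => d ∣ a + M * s)).card := by
          rw [← mul_sum]
          congr 1
          simp only [card_filter]
          exact sum_comm
      _ ≤ _ := by
          apply Nat.mul_le_mul_left
          exact sum_le_sum fun d hd => count_le a M d Y h (mem_Icc.1 hd).1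
  have h2 : ((∑ d ∈ Icc 1 Y, (Y / d + 1) : ℕ) : ℝ) ≤ Y * (harmonic Y : ℝ) + Y := by
    rw [harmonic_eq_sum_Icc]
    push_cast
    rw [sum_add_distrib, mul_sum]
    simp only [sum_const, Nat.card_Icc, add_tsub_cancel_right, nsmul_eq_mul, mul_one]
    gcongr with d hd
    rw [← div_eq_mul_inv]
    exact Nat.cast_div_le
  have h3 := harmonic_le_one_add_log Y
  have h4 : Real.log Y ≤ y := by
    rw [hY]
    push_cast
    rw [Real.log_pow]
    have : Real.log 2 ≤ 1 := by
      have := Real.log_two_lt_d9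
      linarith
    have hy : (0 : ℝ) ≤ y := by positivity
    nlinarith
  have h5 : ((∑ s ∈ range Y, tau (a + M * s) : ℕ) : ℝ) ≤ 2 * (Y * (harmonic Y : ℝ) + Y) := by
    calc _ ≤ ((2 * ∑ d ∈ Icc 1 Y, (Y / d + 1) : ℕ) : ℝ) := by exact_mod_cast h1
      _ ≤ _ := by rw [Nat.cast_mul]; push_cast at h2 ⊢; linarith
  have hY0 : (0 : ℝ) ≤ Y := by positivity
  have hYe : (2 : ℝ) ^ y = Y := by rw [hY]; push_cast; rfl
  push_cast at h5
  rw [hYe]
  nlinarith

/-- a sequence of primes, by Bertrand -/
lemma exists_primes (L : ℕ) (hL : L ≠ 0) : ∃ q : ℕ → ℕ, StrictMono q ∧ (∀ n, (q n).Prime) ∧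
    (∀ n, L < q n) ∧ ∀ n, q n ≤ 2 ^ (n + 1) * L := by
  have hb : ∀ n : ℕ, ∃ p, n ≠ 0 → p.Prime ∧ n < p ∧ p ≤ 2 * n := by
    intro n
    by_cases hn : n = 0
    · exact ⟨0, fun h => absurd hn h⟩
    · obtain ⟨p, hp⟩ := Nat.exists_prime_lt_and_le_two_mul n hn
      exact ⟨p, fun _ => hp⟩
  choose f hf using hb
  let q : ℕ → ℕ := fun n => Nat.rec (f L) (fun _ x => f x) n
  have hq0 : q 0 = f L := rfl
  have hqs : ∀ n, q (n + 1) = f (q n) := fun n => rfl
  have hp : ∀ n, (q n).Prime := by
    intro n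
    induction n with
    | zero => exact (hf L hL).1
    | succ n ih => rw [hqs]; exact (hf _ ih.ne_zero).1
  have hm : StrictMono q := strictMono_nat_of_lt_succ fun n => by
    rw [hqs]; exact (hf _ (hp n).ne_zero).2.1
  refine ⟨q, hm, hp, fun n => lt_of_lt_of_le (hf L hL).2.1 (hm.monotone (Nat.zero_le n)), ?_⟩
  intro n
  induction n with
  | zero => simpa [hq0] using (hf L hL).2.2
  | succ n ih =>
    rw [hqs]
    have := (hf _ (hp n).ne_zero).2.2
    rw [pow_succ]
    nlinarith

lemma exists_crt (k j L : ℕ) (hk : 2 ≤ k) (hj : 1 ≤ j) (hL : j ≤ L) :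
    ∃ M r : ℕ, 0 < M ∧ M ≤ (2 ^ (j * j) * L) ^ (k * (j * j)) ∧
      (∀ m, m ≡ r [MOD M] → ∀ i, 1 ≤ i → i ≤ j → k ^ j ∣ tau (m + i)) ∧
      (∀ m, m ≡ r [MOD M] → ∀ i, j < i → i ≤ L → Nat.Coprime (m + i) M) := by
  classical
  obtain ⟨q, hm, hp, hL', hb⟩ := exists_primes L (by omega)
  have hcop : Set.Pairwise (↑(range (j * j)) : Set ℕ)
      (Function.onFun Nat.Coprime (fun n => q n ^ k)) := by
    intro a _ b _ hab
    exact Nat.Coprime.pow _ _ ((Nat.coprime_primes (hp a) (hp b)).2 (hm.injective.ne hab))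
  obtain ⟨r, hr⟩ := Nat.chineseRemainderOfFinset (fun n => q n ^ (k - 1) - (n / j + 1))
    (fun n => q n ^ k) (range (j * j)) (fun n _ => pow_ne_zero _ (hp n).ne_zero) hcop
  have hrow : ∀ n < j * j, n / j + 1 ≤ j := fun n hn => by
    have : n / j < j := Nat.div_lt_of_lt_mul hn
    omega
  have key : ∀ m, m ≡ r [MOD ∏ n ∈ range (j * j), q n ^ k] → ∀ n < j * j,
      m + (n / j + 1) ≡ q n ^ (k - 1) [MOD q n ^ k] := by
    intro m hmr n hn
    have h1 : m ≡ r [MOD q n ^ k] :=
      hmr.of_dvd (dvd_prod_of_mem (fun n => q n ^ k) (mem_range.2 hn))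
    have h2 := (h1.trans (hr n (mem_range.2 hn))).add_right (n / j + 1)
    have h3 : n / j + 1 ≤ q n ^ (k - 1) := by
      have := hrow n hn
      have := hL' n
      have := Nat.le_self_pow (n := k - 1) (by omega) (q n)
      omega
    rwa [Nat.sub_add_cancel h3] at h2
  refine ⟨∏ n ∈ range (j * j), q n ^ k, r, prod_pos fun n _ => pow_pos (hp n).pos _, ?_, ?_, ?_⟩
  · calc _ ≤ ∏ _n ∈ range (j * j), (2 ^ (j * j) * L) ^ k := by
          apply prod_le_prod' 
          intro n hn
          apply Nat.pow_le_pow_left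
          refine (hb n).trans (Nat.mul_le_mul_right _ ?_)
          exact Nat.pow_le_pow_right (by norm_num) (mem_range.1 hn)
      _ = _ := by rw [prod_const, card_range, ← pow_mul]
  · intro m hmr i hi1 hij
    have hne : m + i ≠ 0 := by omega
    have hfac : ∀ b < j, (m + i).factorization (q ((i - 1) * j + b)) = k - 1 := by
      intro b hbj
      have hn : (i - 1) * j + b < j * j := by
        have : (i - 1 + 1) * j ≤ j * j := Nat.mul_le_mul_right _ (by omega)
        nlinarith
      have hd : ((i - 1) * j + b) / j + 1 = i := by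
        rw [add_comm ((i - 1) * j), Nat.add_mul_div_right _ _ (by omega), Nat.div_eq_of_lt hbj]
        omega
      have h1 := key m hmr _ hn
      rw [hd] at h1
      set p := q ((i - 1) * j + b)
      have hpp : p.Prime := hp _
      have hk1 : k = (k - 1) + 1 := by omega
      have hd1 : p ^ (k - 1) ∣ m + i := by
        have := h1.of_dvd (pow_dvd_pow p (Nat.sub_le k 1))
        exact (Nat.modEq_zero_iff_dvd).1 (this.trans ((Nat.modEq_zero_iff_dvd).2 dvd_rfl))
      have hd2 : ¬ p ^ (k - 1 + 1) ∣ m + i := by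
        rw [← hk1]
        intro hc
        have := (Nat.modEq_zero_iff_dvd).1 (h1.symm.trans ((Nat.modEq_zero_iff_dvd).2 hc))
        have := (Nat.pow_dvd_pow_iff_le_right hpp.one_lt).1 this
        omega
      have e1 := (hpp.pow_dvd_iff_le_factorization hne).1 hd1
      have e2 := mt (hpp.pow_dvd_iff_le_factorization hne).2 hd2
      omega
    unfold tau
    rw [Nat.card_divisors hne]
    have hsub : (range j).image (fun b => q ((i - 1) * j + b)) ⊆ (m + i).primeFactors := by
      intro p hp'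
      obtain ⟨b, hb', rfl⟩ := mem_image.1 hp'
      have := hfac b (mem_range.1 hb')
      rw [← Nat.support_factorization, Finsupp.mem_support_iff]
      omega
    refine dvd_trans ?_ (prod_dvd_prod_of_subset _ _ _ hsub)
    rw [prod_image (fun a _ b _ hab => by have := hm.injective hab; omega)]
    rw [prod_congr rfl (g := fun _ => k) (fun b hb' => by rw [hfac b (mem_range.1 hb')]; omega)]
    simp
  · intro m hmr i hji hiL
    apply Nat.Coprime.prod_right
    intro n hn
    apply Nat.Coprime.pow_right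
    apply Nat.Coprime.symm
    rw [(hp n).coprime_iff_not_dvd]
    intro hc
    have h1 := (key m hmr n (mem_range.1 hn)).of_dvd (dvd_pow_self (q n) (by omega : k ≠ 0))
    have h2 : q n ∣ m + (n / j + 1) :=
      (Nat.modEq_zero_iff_dvd).1 (h1.trans ((Nat.modEq_zero_iff_dvd).2
        (dvd_pow_self (q n) (by omega))))
    have h3 := Nat.dvd_sub hc h2
    have h4 := hrow n (mem_range.1 hn)
    generalize n / j + 1 = e at h3 h4
    have e1 : m + i - (m + e) = i - e := by omega
    rw [e1] at h3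
    have h5 := Nat.le_of_dvd (by omega) h3
    have := hL' n
    omega

end Pool.Agent.H26Lamb
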