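import Mathlib
import Pool.Agent.Lib.helper26.LambA

namespace Pool.Agent.H26Lamb
open Finset

/-- tail of the Lambert series -/
noncomputable def T (k m : ℕ) : ℝ := ∑' i : ℕ, (tau (m + i + 1) : ℝ) / (k : ℝ) ^ (i + 1)

lemma hasSum_lin (m : ℕ) : HasSum (fun i : ℕ => ((m : ℝ) + i + 1) * (1 / 2) ^ (i + 1)) (m + 2) := by
  have h1 := hasSum_coe_mul_geometric_of_norm_lt_one (r := (1 / 2 : ℝ)) (by norm_num [abs_of_pos])
  have h2 := hasSum_geometric_two
  have := (h1.mul_left (1 / 2)).add (h2.mul_left (((m : ℝ) + 1) / 2))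
  have e1 : (fun i : ℕ => ((m : ℝ) + i + 1) * (1 / 2) ^ (i + 1)) = fun b : ℕ =>
      1 / 2 * ((b : ℝ) * (1 / 2) ^ b) + ((m : ℝ) + 1) / 2 * (1 / 2) ^ b := by
    ext i; ring
  have e2 : (m : ℝ) + 2 = 1 / 2 * (1 / 2 / (1 - 1 / 2) ^ 2) + ((m : ℝ) + 1) / 2 * 2 := by ring
  rw [e1, e2]
  exact this

lemma term_le (k m i : ℕ) (hk : 2 ≤ k) :
    (tau (m + i + 1) : ℝ) / (k : ℝ) ^ (i + 1) ≤ ((m : ℝ) + i + 1) * (1 / 2) ^ (i + 1) := by
  have h1 : (tau (m + i + 1) : ℝ) ≤ (m : ℝ) + i + 1 := by exact_mod_cast tau_le_self (m + i + 1)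
  have h2 : (2 : ℝ) ≤ k := by exact_mod_cast hk
  rw [one_div, inv_pow, ← div_eq_mul_inv]
  gcongr

lemma summable_T (k m : ℕ) (hk : 2 ≤ k) :
    Summable (fun i : ℕ => (tau (m + i + 1) : ℝ) / (k : ℝ) ^ (i + 1)) :=
  Summable.of_nonneg_of_le (fun _ => by positivity) (fun i => term_le k m i hk)
    (hasSum_lin m).summable

lemma T_nonneg (k m : ℕ) : 0 ≤ T k m := tsum_nonneg fun _ => by positivity

lemma T_le (k m : ℕ) (hk : 2 ≤ k) : T k m ≤ m + 2 := by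
  rw [← (hasSum_lin m).tsum_eq]
  exact Summable.tsum_le_tsum (fun i => term_le k m i hk) (summable_T k m hk)
    (hasSum_lin m).summable

lemma T_rec (k m : ℕ) (hk : 2 ≤ k) : T k m = (tau (m + 1) + T k (m + 1)) / k := by
  have hk0 : (k : ℝ) ≠ 0 := by positivity
  unfold T
  rw [(summable_T k m hk).tsum_eq_zero_add, add_div, ← tsum_div_const]
  congr 1
  · simp
  · congr 1
    ext i
    rw [show m + (i + 1) + 1 = m + 1 + i + 1 by ring]
    field_simp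
    ring

lemma T_split (k m j : ℕ) (hk : 2 ≤ k) :
    T k m = ∑ i ∈ range j, (tau (m + i + 1) : ℝ) / (k : ℝ) ^ (i + 1) + T k (m + j) / k ^ j := by
  have hk0 : (k : ℝ) ≠ 0 := by positivity
  induction j with
  | zero => simp
  | succ j ih =>
    rw [ih, sum_range_succ, T_rec k (m + j) hk, show m + (j + 1) = m + j + 1 by ring,
      div_div, ← pow_succ', add_div]
    ring

lemma pow_mul_T (k m : ℕ) (hk : 2 ≤ k) : ∃ I : ℕ, T k 0 * (k : ℝ) ^ m = I + T k m := by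
  have hk0 : (k : ℝ) ≠ 0 := by positivity
  induction m with
  | zero => exact ⟨0, by simp⟩
  | succ m ih =>
    obtain ⟨I, hI⟩ := ih
    refine ⟨I * k + tau (m + 1), ?_⟩
    rw [pow_succ, ← mul_assoc, hI, T_rec k m hk]
    push_cast
    field_simp
    ring

lemma poly_le (C : ℕ) : ∃ g0 : ℕ, ∀ g ≥ g0, C * g ^ 4 ≤ 2 ^ g := by
  have h := tendsto_pow_const_div_const_pow_of_one_lt 4 (r := (2 : ℝ)) (by norm_num)
  have hpos : (0 : ℝ) < 1 / (C + 1) := by positivity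
  obtain ⟨g0, hg0⟩ := Filter.eventually_atTop.1 (h.eventually (gt_mem_nhds hpos))
  refine ⟨g0, fun g hg => ?_⟩
  have h1 := hg0 g hg
  rw [div_lt_div_iff₀ (by positivity) (by positivity)] at h1
  have : ((C * g ^ 4 : ℕ) : ℝ) ≤ ((2 ^ g : ℕ) : ℝ) := by
    push_cast
    have : (0 : ℝ) ≤ (g : ℝ) ^ 4 := by positivity
    nlinarith
  exact_mod_cast this

lemma geom_le (k n : ℕ) (hk : 2 ≤ k) : ∑ i ∈ range n, 1 / (k : ℝ) ^ (i + 1) ≤ 1 := by
  have h2 : (2 : ℝ) ≤ k := by exact_mod_cast hk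
  have : ∑ i ∈ range n, 1 / (k : ℝ) ^ (i + 1) ≤ 1 - 1 / 2 ^ n := by
    induction n with
    | zero => simp
    | succ n ih =>
      rw [sum_range_succ]
      have : 1 / (k : ℝ) ^ (n + 1) ≤ 1 / 2 ^ (n + 1) := by gcongr
      have e : (1 : ℝ) / 2 ^ n = 2 * (1 / 2 ^ (n + 1)) := by field_simp; ring
      linarith
  have : (0 : ℝ) < 1 / 2 ^ n := by positivity
  linarith

/-- the small tail -/
lemma exists_small (k j y a M : ℕ) (hk : 2 ≤ k) (hy : 1 ≤ y)
    (hc : ∀ i, j < i → i ≤ j + (2 * y + 1) → Nat.Coprime (a + i) M)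
    (hb : a + M * 2 ^ y + (j + (2 * y + 1)) ≤ (2 ^ y) ^ 2) :
    ∃ s < 2 ^ y, T k (a + M * s + j) ≤ 2 * y + 5 := by
  have havg : ∑ s ∈ range (2 ^ y), ∑ i ∈ range (2 * y + 1),
      (tau (a + M * s + j + i + 1) : ℝ) / (k : ℝ) ^ (i + 1) ≤
      ∑ _s ∈ range (2 ^ y), (2 * (2 + y) : ℝ) := by
    rw [sum_comm]
    calc _ ≤ ∑ i ∈ range (2 * y + 1), 2 ^ y * (2 * (2 + y) : ℝ) * (1 / (k : ℝ) ^ (i + 1)) := by
          apply sum_le_sum
          intro i hi
          have hi' := mem_range.1 hi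
          rw [← sum_div, mul_one_div]
          gcongr
          have := sum_tau_le (a + (j + i + 1)) M y (hc _ (by omega) (by omega)) (fun s hs => by
            have : M * s ≤ M * 2 ^ y := Nat.mul_le_mul_left _ hs.le
            omega)
          refine le_of_eq_of_le ?_ this
          exact sum_congr rfl fun s _ => by congr 2; ring
      _ ≤ 2 ^ y * (2 * (2 + y) : ℝ) := by
          rw [← mul_sum]
          exact mul_le_of_le_one_right (by positivity) (geom_le k _ hk)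
      _ = _ := by simp
  obtain ⟨s, hs, hle⟩ := exists_le_of_sum_le (nonempty_range_iff.2 (by positivity)) havg
  have hs' := mem_range.1 hs
  refine ⟨s, hs', ?_⟩
  rw [T_split k _ (2 * y + 1) hk]
  have h1 := T_le k (a + M * s + j + (2 * y + 1)) hk
  have h2 : a + M * s + j + (2 * y + 1) + 2 ≤ k ^ (2 * y + 1) := by
    have : M * s ≤ M * 2 ^ y := Nat.mul_le_mul_left _ hs'.le
    have h3 : 2 ^ (2 * y + 1) ≤ k ^ (2 * y + 1) := Nat.pow_le_pow_left hk _
    have h4 : 2 ^ (2 * y + 1) = 2 * (2 ^ y) ^ 2 := by ring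
    have h5 : 2 ^ 1 ≤ 2 ^ y := Nat.pow_le_pow_right (by norm_num) hy
    nlinarith
  have h3 : T k (a + M * s + j + (2 * y + 1)) / (k : ℝ) ^ (2 * y + 1) ≤ 1 := by
    rw [div_le_one (by positivity)]
    refine h1.trans ?_
    exact_mod_cast h2
  linarith

theorem main_E (k J w : ℕ) (hk : 2 ≤ k) : ∃ y0 : ℕ, ∀ y ≥ y0, ∀ a N : ℕ, a + N ≤ 4 ^ y →
    4 ^ y ≤ 4 ^ w * N → ∃ m j : ℕ, a ≤ m ∧ m + j + 1 ≤ a + N ∧
      1 / (k : ℝ) ^ (j + 1) ≤ Int.fract (T k 0 * (k : ℝ) ^ m) ∧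
      Int.fract (T k 0 * (k : ℝ) ^ m) < 1 / (k : ℝ) ^ J := by
  obtain ⟨g0, hg0⟩ := poly_le (192 * k + 18 + 8 * w)
  refine ⟨2 ^ (g0 + J + 1), fun y hy a N haN hN => ?_⟩
  set g := Nat.log 2 (2 * y + 5) + 1 with hg
  have hg1 : 2 * y + 5 < 2 ^ g := Nat.lt_pow_succ_log_self (by norm_num) _
  have hg2 : 2 ^ g ≤ 2 * (2 * y + 5) := by
    rw [hg, pow_succ]
    have := Nat.pow_log_le_self 2 (x := 2 * y + 5) (by omega)
    omega
  have hg3 : g0 + J + 1 < g := by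
    have : 2 ^ (g0 + J + 1) < 2 ^ g := by omega
    exact (Nat.pow_lt_pow_iff_right (by norm_num)).1 this
  have hy1 : 1 ≤ y := le_trans Nat.one_le_two_pow hy
  set j := J + g with hj
  obtain ⟨M, r, hM0, hM, hdiv, hcop⟩ := exists_crt k j (j + (2 * y + 1)) hk (by omega) (by omega)
  have hL : j + (2 * y + 1) ≤ 2 ^ (j + 1) := by
    have h1 : j < 2 ^ j := Nat.lt_two_pow_self
    have h2 : 2 ^ g ≤ 2 ^ j := Nat.pow_le_pow_right (by norm_num) (by omega)
    rw [pow_succ]; omega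
  set E := (j * j + (j + 1)) * (k * (j * j)) with hE
  have hME : M ≤ 2 ^ E := by
    refine hM.trans ?_
    rw [hE, pow_mul 2 (j * j + (j + 1)), pow_add 2 (j * j)]
    exact Nat.pow_le_pow_left (Nat.mul_le_mul_left _ hL) _
  have hEy : E + 2 + 2 * w ≤ y := by
    have h1 := hg0 g (by omega)
    have h2 : j ≤ 2 * g := by omega
    have h3 : 1 ≤ g ^ 4 := Nat.one_le_pow _ _ (by omega)
    have h4 : j * j ≤ 4 * g ^ 2 := by nlinarith
    have h5 : j * j + (j + 1) ≤ 12 * g ^ 2 := by nlinarith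
    have h6 : E ≤ (12 * g ^ 2) * (k * (4 * g ^ 2)) :=
      Nat.mul_le_mul h5 (Nat.mul_le_mul_left _ h4)
    nlinarith
  have hjE : j + 1 ≤ E := by
    have : 1 ≤ k * (j * j) := Nat.mul_pos (by omega) (Nat.mul_pos (by omega) (by omega))
    nlinarith
  have hsize : M * (2 ^ y + 1) + (j + (2 * y + 1)) + 1 ≤ N := by
    have h1 : M * (2 ^ y + 1) ≤ 2 ^ E * 2 ^ (y + 1) := by
      apply Nat.mul_le_mul hME
      have : 1 ≤ 2 ^ y := Nat.one_le_two_pow
      rw [pow_succ]; omega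
    have h2 : 2 ^ (j + 1) ≤ 2 ^ E := Nat.pow_le_pow_right (by norm_num) hjE
    have h3 : 2 ^ E * 2 ≤ 2 ^ E * 2 ^ (y + 1) :=
      Nat.mul_le_mul_left _ (Nat.le_self_pow (by omega) 2)
    have h4 : 1 ≤ 2 ^ E := Nat.one_le_two_pow
    have h5 : 4 ^ w * (2 * (2 ^ E * 2 ^ (y + 1))) ≤ 4 ^ y := by
      rw [show (4 : ℕ) = 2 ^ 2 by norm_num, ← pow_mul, ← pow_mul, ← pow_add, ← pow_succ', ← pow_add]
      exact Nat.pow_le_pow_right (by norm_num) (by omega)
    have h6 : 2 * (2 ^ E * 2 ^ (y + 1)) ≤ N :=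
      Nat.le_of_mul_le_mul_left (h5.trans hN) (by positivity)
    omega
  obtain ⟨a', ha1, ha2, ha3⟩ : ∃ a', a ≤ a' ∧ a' ≤ a + M ∧ a' ≡ r [MOD M] := by
    refine ⟨a + (r + (M - 1) * a) % M, by omega, by
      have := Nat.mod_lt (r + (M - 1) * a) hM0; omega, ?_⟩
    have h1 : a + (r + (M - 1) * a) % M ≡ a + (r + (M - 1) * a) [MOD M] :=
      (Nat.mod_modEq _ _).add_left a
    refine h1.trans ?_
    obtain ⟨M', rfl⟩ : ∃ M', M = M' + 1 := ⟨M - 1, by omega⟩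
    rw [show a + (r + (M' + 1 - 1) * a) = r + (M' + 1) * a by simp; ring]
    simp [Nat.ModEq]
  have h4y : (2 ^ y) ^ 2 = 4 ^ y := by rw [← pow_mul, mul_comm, pow_mul]; norm_num
  obtain ⟨s, hs, hT⟩ := exists_small k j y a' M hk hy1 (hcop a' ha3) (by rw [h4y]; nlinarith)
  have hMs : M * s ≤ M * 2 ^ y := Nat.mul_le_mul_left _ hs.le
  set m := a' + M * s with hm
  have hmr : m ≡ r [MOD M] := by
    refine Nat.ModEq.trans ?_ ha3
    simp [hm, Nat.ModEq]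
  have hk0 : (0 : ℝ) < k := by positivity
  have hlt : T k (m + j) / (k : ℝ) ^ j < 1 / (k : ℝ) ^ J := by
    rw [div_lt_div_iff₀ (by positivity) (by positivity), hj, pow_add, one_mul, mul_comm]
    gcongr
    refine lt_of_le_of_lt hT ?_
    have : 2 * y + 5 < k ^ g := lt_of_lt_of_le hg1 (Nat.pow_le_pow_left hk _)
    exact_mod_cast this
  have hfr : Int.fract (T k 0 * (k : ℝ) ^ m) = T k (m + j) / (k : ℝ) ^ j := by
    obtain ⟨I, hI⟩ := pow_mul_T k m hk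
    obtain ⟨I', hI'⟩ : ∃ I' : ℕ,
        ∑ i ∈ range j, (tau (m + i + 1) : ℝ) / (k : ℝ) ^ (i + 1) = I' := by
      refine ⟨∑ i ∈ range j, tau (m + i + 1) / k ^ (i + 1), ?_⟩
      rw [Nat.cast_sum]
      apply sum_congr rfl
      intro i hi
      have hi' := mem_range.1 hi
      have := (pow_dvd_pow k (by omega : i + 1 ≤ j)).trans (hdiv m hmr (i + 1) (by omega) (by omega))
      rw [← add_assoc] at this
      rw [Nat.cast_div this (by positivity)]
      push_cast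
      rfl
    rw [hI, T_split k m j hk, hI', Int.fract_natCast_add, Int.fract_natCast_add,
      Int.fract_eq_self]
    refine ⟨div_nonneg (T_nonneg _ _) (by positivity), lt_of_lt_of_le hlt ?_⟩
    rw [div_le_one (by positivity)]
    exact one_le_pow₀ (by exact_mod_cast (by omega : 1 ≤ k))
  refine ⟨m, j, by omega, by nlinarith, ?_, hfr ▸ hlt⟩
  rw [hfr, T_rec k (m + j) hk, div_div, ← pow_succ']
  gcongr
  have h1 : (1 : ℝ) ≤ tau (m + j + 1) := by exact_mod_cast tau_pos (by omega)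
  have := T_nonneg k (m + j + 1)
  linarith

end Pool.Agent.H26Lamb
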