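import Mathlib

set_option autoImplicit false

namespace Pool.Agent.Lib.helper26.Lamp

open Finset

def q (n : ℕ) : ℕ := 2 ^ (2 * n)

lemma q_pos (n : ℕ) : 0 < q n := by unfold q; positivity

lemma q_succ (n : ℕ) : q (n + 1) = 4 * q n := by unfold q; ring

lemma q_mono {n m : ℕ} (h : n ≤ m) : q n ≤ q m :=
  Nat.pow_le_pow_right (by norm_num) (by omega)

lemma xor_lt {n a b : ℕ} (ha : a < q n) (hb : b < q n) : a ^^^ b < q n :=
  Nat.xor_lt_two_pow ha hb

lemma xor_ge' {k a b : ℕ} (ha : a < 2 ^ k) (hb : 2 ^ k ≤ b) : 2 ^ k ≤ a ^^^ b := by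
  by_contra h
  push Not at h
  have h2 := Nat.xor_lt_two_pow ha h
  rw [← Nat.xor_assoc, Nat.xor_self, Nat.zero_xor] at h2
  omega

lemma xor_ge {n a b : ℕ} (ha : a < q n) (hb : q n ≤ b) : q n ≤ a ^^^ b := xor_ge' ha hb

lemma xor_ge2 {n a b : ℕ} (ha : q n ≤ a) (hb : b < q n) : q n ≤ a ^^^ b := by
  rw [Nat.xor_comm]; exact xor_ge hb ha

lemma lt_q (t : ℕ) : t < q t := by
  unfold q
  calc t < 2 ^ t := Nat.lt_two_pow_self
    _ ≤ 2 ^ (2 * t) := Nat.pow_le_pow_right (by norm_num) (by omega)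

@[ext] structure W where
  f : ℕ → ZMod 2
  t : ℕ
  hf : ∃ N, ∀ x, q N ≤ x → f x = 0

def wmul (a b : W) : W where
  f := fun x => a.f x + b.f (x ^^^ a.t)
  t := a.t ^^^ b.t
  hf := by
    obtain ⟨N, hN⟩ := a.hf
    obtain ⟨M, hM⟩ := b.hf
    refine ⟨N + M + a.t, fun x hx => ?_⟩
    have h1 : q N ≤ x := (q_mono (by omega)).trans hx
    have h2 : a.t < q (N + M + a.t) := (lt_q a.t).trans_le (q_mono (by omega))
    have h3 : q M ≤ x ^^^ a.t := (q_mono (by omega)).trans (xor_ge2 hx h2)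
    rw [hN x h1, hM _ h3, add_zero]

def winv (a : W) : W where
  f := fun x => - a.f (x ^^^ a.t)
  t := a.t
  hf := by
    obtain ⟨N, hN⟩ := a.hf
    refine ⟨N + a.t, fun x hx => ?_⟩
    have h2 : a.t < q (N + a.t) := (lt_q a.t).trans_le (q_mono (by omega))
    have h3 : q N ≤ x ^^^ a.t := (q_mono (by omega)).trans (xor_ge2 hx h2)
    rw [hN _ h3, neg_zero]

def sh (t : ℕ) : W := ⟨fun _ => 0, t, ⟨0, fun _ _ => rfl⟩⟩

instance : Mul W := ⟨wmul⟩
instance : Inv W := ⟨winv⟩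
instance : One W := ⟨sh 0⟩

@[simp] lemma mul_f (a b : W) (x : ℕ) : (a * b).f x = a.f x + b.f (x ^^^ a.t) := rfl
@[simp] lemma mul_t (a b : W) : (a * b).t = a.t ^^^ b.t := rfl
@[simp] lemma inv_f (a : W) (x : ℕ) : (a⁻¹).f x = - a.f (x ^^^ a.t) := rfl
@[simp] lemma inv_t (a : W) : (a⁻¹).t = a.t := rfl
@[simp] lemma one_f (x : ℕ) : (1 : W).f x = 0 := rfl
@[simp] lemma one_t : (1 : W).t = 0 := rfl
@[simp] lemma sh_f (t x : ℕ) : (sh t).f x = 0 := rfl
@[simp] lemma sh_t (t : ℕ) : (sh t).t = t := rfl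

instance : Group W := Group.ofLeftAxioms
  (by
    intro a b c
    ext x
    · simp [Nat.xor_assoc, add_assoc]
    · simp [Nat.xor_assoc])
  (by
    intro a
    ext x
    · simp
    · simp)
  (by
    intro a
    ext x
    · rw [mul_f, inv_f, inv_t, neg_add_cancel, one_f]
    · simp)

def S (n : ℕ) : Set W := {g | (∀ x, q n ≤ x → g.f x = 0) ∧ g.t < q n}

lemma S_mono {n m : ℕ} (h : n ≤ m) : S n ⊆ S m := fun _ hg =>
  ⟨fun x hx => hg.1 x ((q_mono h).trans hx), hg.2.trans_le (q_mono h)⟩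

lemma exists_S (g : W) : ∃ n, g ∈ S n := by
  obtain ⟨N, hN⟩ := g.hf
  exact ⟨N + g.t, fun x hx => hN x ((q_mono (by omega)).trans hx),
    (lt_q g.t).trans_le (q_mono (by omega))⟩

lemma exists_S_fin (H : Finset W) : ∃ n, ∀ g ∈ H, g ∈ S n := by
  classical
  induction H using Finset.induction_on with
  | empty => exact ⟨0, by simp⟩
  | insert a s _ ih =>
    obtain ⟨n, hn⟩ := ih
    obtain ⟨m, hm⟩ := exists_S a
    refine ⟨n + m, fun g hg => ?_⟩
    rcases Finset.mem_insert.1 hg with rfl | hg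
    · exact S_mono (by omega) hm
    · exact S_mono (by omega) (hn g hg)

lemma mul_S {n : ℕ} {a b : W} (ha : a ∈ S n) (hb : b ∈ S n) : a * b ∈ S n :=
  ⟨fun x hx => by rw [mul_f, ha.1 x hx, hb.1 _ (xor_ge2 hx ha.2), add_zero], xor_lt ha.2 hb.2⟩

lemma inv_S {n : ℕ} {a : W} (ha : a ∈ S n) : a⁻¹ ∈ S n :=
  ⟨fun x hx => by rw [inv_f, ha.1 _ (xor_ge2 hx ha.2), neg_zero], ha.2⟩

lemma one_S (n : ℕ) : (1 : W) ∈ S n := ⟨fun _ _ => rfl, q_pos n⟩

lemma S_fin (n : ℕ) : (S n).Finite := by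
  let φ : W → (Fin (q n) → ZMod 2) × ℕ := fun g => (fun i => g.f i, g.t)
  have h1 : (φ '' S n).Finite := by
    refine ((Set.finite_univ (α := Fin (q n) → ZMod 2)).prod (Set.finite_Iio (q n))).subset ?_
    rintro _ ⟨g, hg, rfl⟩
    exact ⟨trivial, hg.2⟩
  refine Set.Finite.of_finite_image h1 ?_
  intro a ha b hb hab
  simp only [φ, Prod.mk.injEq] at hab
  ext x
  · by_cases hx : x < q n
    · exact congrFun hab.1 ⟨x, hx⟩
    · rw [ha.1 x (by omega), hb.1 x (by omega)]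
  · exact hab.2

instance : Countable W := by
  have : (Set.univ : Set W) = ⋃ n, S n := by
    ext g; simpa using exists_S g
  rw [← Set.countable_univ_iff, this]
  exact Set.countable_iUnion fun n => (S_fin n).countable

noncomputable def K (n : ℕ) : Finset W := (S_fin n).toFinset

lemma mem_K {n : ℕ} {g : W} : g ∈ K n ↔ g ∈ S n := by simp [K]

def Lit (n : ℕ) (k : W) : Prop := ∀ j < n, ∃ x, q j ≤ x ∧ x < q (j + 1) ∧ k.f x ≠ 0

def A : Set W := {g | ∃ n, ∃ k ∈ S n, Lit n k ∧ g = k * sh (q n)}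

def B : Set W := {g | ∃ m, ∃ k ∈ S m, g = k * sh (2 * q m)}

def Good (c : W) : Prop := ∃ n M, n ≤ M ∧ Lit n c ∧ (∀ x, q n ≤ x → x < q M → c.f x = 0) ∧
  ∀ x, q (M + 1) ≤ x → c.f x = 0

lemma good {a b : W} (ha : a ∈ A) (hb : b ∈ B) : Good (a * b⁻¹) := by
  obtain ⟨n, k, hk, hl, rfl⟩ := ha
  obtain ⟨m, k', hk', rfl⟩ := hb
  have hki := inv_S hk'
  have e : k * sh (q n) * (k' * sh (2 * q m))⁻¹ = k * sh (q n) * (sh (2 * q m))⁻¹ * k'⁻¹ := by
    group
  rw [e]
  generalize k'⁻¹ = l at hki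
  have hv : ∀ x, (k * sh (q n) * (sh (2 * q m))⁻¹ * l).f x =
      k.f x + l.f (x ^^^ (k.t ^^^ q n ^^^ 2 * q m)) := by
    intro x; simp
  have hq := q_pos n
  have hq' := q_pos m
  have hu1 : q (max n m) ≤ k.t ^^^ q n ^^^ 2 * q m := by
    rcases lt_trichotomy n m with h | h | h
    · rw [max_eq_right h.le]
      have h1 : q (n + 1) ≤ q m := q_mono h
      rw [q_succ] at h1
      exact xor_ge (xor_lt (by have := hk.2; omega) (by omega)) (by omega)
    · subst h
      rw [max_self, Nat.xor_assoc]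
      refine xor_ge hk.2 ?_
      have h1 : 2 * q n = 2 ^ (2 * n + 1) := by unfold q; ring
      have h2 : 2 ^ (2 * n + 1) ≤ q n ^^^ 2 * q n := xor_ge' (by omega) (by omega)
      omega
    · rw [max_eq_left h.le]
      have h1 : q (m + 1) ≤ q n := q_mono h
      rw [q_succ] at h1
      exact xor_ge2 (xor_ge hk.2 le_rfl) (by omega)
  have hn : q n ≤ q (max n m) := q_mono (le_max_left _ _)
  have hm : q m ≤ q (max n m) := q_mono (le_max_right _ _)
  have hs := q_succ (max n m)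
  have hu2 : k.t ^^^ q n ^^^ 2 * q m < q (max n m + 1) :=
    xor_lt (xor_lt (by have := hk.2; omega) (by omega)) (by omega)
  have hlow : ∀ x, x < q (max n m) → (k * sh (q n) * (sh (2 * q m))⁻¹ * l).f x = k.f x := by
    intro x hx
    rw [hv, hki.1 _ (hm.trans (xor_ge hx hu1)), add_zero]
  refine ⟨n, max n m, le_max_left _ _, ?_, ?_, ?_⟩
  · intro j hj
    obtain ⟨x, h1, h2, h3⟩ := hl j hj
    refine ⟨x, h1, h2, ?_⟩
    rw [hlow x (h2.trans_le ((q_mono (by omega)).trans hn))]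
    exact h3
  · intro x h1 h2
    rw [hlow x h2, hk.1 x h1]
  · intro x hx
    rw [hv, hk.1 x (by omega), hki.1 _ (le_trans (by omega) (xor_ge2 hx hu2)), add_zero]

lemma notThick (F : Finset W) : ∃ H : Finset W, ∀ x : W, ∃ h ∈ H, ∀ g ∈ F, ∀ c, Good c →
    h * x ≠ g * c := by
  obtain ⟨R, hR⟩ := exists_S_fin F
  refine ⟨K (R + 3), fun x => ?_⟩
  let h : W := ⟨fun y => if y < q (R + 3) then (if y < q (R + 1) then 0 else 1) - x.f y else 0, 0,
    ⟨R + 3, fun y hy => by simp [not_lt.2 hy]⟩⟩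
  refine ⟨h, mem_K.2 ⟨fun y hy => by simp [h, not_lt.2 hy], q_pos _⟩, ?_⟩
  intro g hg c hc e
  have e2 : c = g⁻¹ * (h * x) := by rw [e]; group
  have hg' := inv_S (hR g hg)
  generalize g⁻¹ = l at hg' e2
  have hv : ∀ y, y < q (R + 3) → (h * x).f y = if y < q (R + 1) then 0 else 1 := by
    intro y hy
    simp [h, hy]
  have s0 := q_succ R
  have s1 := q_succ (R + 1)
  have s2 := q_succ (R + 2)
  have p0 := q_pos R
  have hlt := hg'.2
  have h0 : ∀ y, q R ≤ y → y < q (R + 1) → c.f y = 0 := by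
    intro y h1 h2
    have h3 : y ^^^ l.t < q (R + 1) := xor_lt h2 (by omega)
    rw [e2, mul_f, hg'.1 y h1, hv _ (h3.trans_le (q_mono (by omega))), if_pos h3, add_zero]
  have h1 : ∀ y, q (R + 1) ≤ y → y < q (R + 3) → c.f y = 1 := by
    intro y h1 h2
    have h3 : y ^^^ l.t < q (R + 3) := xor_lt h2 (hlt.trans_le (q_mono (by omega)))
    have h4 : q (R + 1) ≤ y ^^^ l.t := xor_ge2 h1 (by omega)
    rw [e2, mul_f, hg'.1 y (by omega), hv _ h3, if_neg (by omega), zero_add]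
  obtain ⟨n, M, _, hl, hz, hz2⟩ := hc
  by_cases hn : R < n
  · obtain ⟨y, a1, a2, a3⟩ := hl R hn
    exact a3 (h0 y a1 a2)
  by_cases hM : R + 2 ≤ M
  · have a1 := hz (q (R + 1)) (q_mono (by omega)) (lt_of_lt_of_le (by
      show q (R + 1) < q (R + 1 + 1)
      omega) (q_mono hM))
    rw [h1 _ le_rfl (by
      show q (R + 1) < q (R + 2 + 1)
      have : q (R + 2) = q (R + 1 + 1) := rfl
      omega)] at a1
    exact absurd a1 (by decide)
  · have a1 := hz2 (q (R + 2)) (q_mono (by omega))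
    rw [h1 _ (q_mono (by omega)) (by
      show q (R + 2) < q (R + 2 + 1)
      have := q_pos (R + 2)
      omega)] at a1
    exact absurd a1 (by decide)

def dl (p : ℕ) : W := ⟨fun y => if y = p then 1 else 0, 0,
  ⟨p, fun y hy => by have := lt_q p; simp; omega⟩⟩

open Classical in
noncomputable def Z (n j : ℕ) : Finset W :=
  (K n).filter fun k => ∀ x, q j ≤ x → x < q (j + 1) → k.f x = 0

lemma Z_card {n j : ℕ} (hj : j < n) : (Z n j).card * (3 * q j) ≤ (K n).card := by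
  classical
  have hc : (Finset.Ico (q j) (q (j + 1))).card = 3 * q j := by
    rw [Nat.card_Ico, q_succ]; omega
  rw [← hc, ← Finset.card_product]
  refine Finset.card_le_card_of_injOn (fun z => dl z.2 * z.1) ?_ ?_
  · intro z hz
    simp only [Finset.coe_product, Set.mem_prod, Finset.mem_coe, Finset.mem_Ico, Z,
      Finset.mem_filter] at hz
    have h1 : z.2 < q n := hz.2.2.trans_le (q_mono hj)
    refine Finset.mem_coe.2 (mem_K.2 (mul_S ⟨fun y hy => ?_, q_pos n⟩ (mem_K.1 hz.1.1)))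
    simp [dl]; omega
  · intro z hz w hw e
    simp only [Finset.coe_product, Set.mem_prod, Finset.mem_coe, Finset.mem_Ico, Z,
      Finset.mem_filter] at hz hw
    have e1 : z.2 = w.2 := by
      have e2 := congrArg (fun g : W => g.f z.2) e
      simp only [mul_f, dl, Nat.xor_zero, if_true] at e2
      rw [hz.1.2 _ hz.2.1 hz.2.2, hw.1.2 _ hz.2.1 hz.2.2] at e2
      by_contra hne
      rw [if_neg hne] at e2
      exact absurd e2 (by decide)
    simp only [e1] at e
    exact Prod.ext (mul_left_cancel e) e1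

lemma sum_q (n : ℕ) : ∑ j ∈ Finset.range n, (1 : ℝ) / (3 * q j) = 4 / 9 - 4 / (9 * q n) := by
  induction n with
  | zero => simp [q]
  | succ n ih =>
    rw [Finset.sum_range_succ, ih, q_succ]
    have : (q n : ℝ) ≠ 0 := by exact_mod_cast (q_pos n).ne'
    push_cast
    field_simp
    ring

open Classical in
lemma lit_card (n : ℕ) : (1 / 2 : ℝ) * (K n).card ≤ ((K n).filter (Lit n)).card := by
  have h1 : (K n).filter (fun k => ¬ Lit n k) ⊆ (Finset.range n).biUnion (Z n) := by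
    intro k hk
    simp only [Finset.mem_filter, Lit] at hk
    push Not at hk
    obtain ⟨hk1, j, hj, hk2⟩ := hk
    exact Finset.mem_biUnion.2 ⟨j, Finset.mem_range.2 hj, Finset.mem_filter.2 ⟨hk1, hk2⟩⟩
  have h2 : (((K n).filter (fun k => ¬ Lit n k)).card : ℝ) ≤
      ∑ j ∈ Finset.range n, ((Z n j).card : ℝ) := by
    exact_mod_cast (Finset.card_le_card h1).trans Finset.card_biUnion_le
  have h3 : ∑ j ∈ Finset.range n, ((Z n j).card : ℝ) ≤
      ∑ j ∈ Finset.range n, ((K n).card : ℝ) * (1 / (3 * q j)) := by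
    refine Finset.sum_le_sum fun j hj => ?_
    have h4 : ((Z n j).card : ℝ) * (3 * q j) ≤ (K n).card := by
      exact_mod_cast Z_card (Finset.mem_range.1 hj)
    have h5 : (0 : ℝ) < 3 * q j := by have := q_pos j; positivity
    rw [mul_one_div, le_div_iff₀ h5]
    exact h4
  rw [← Finset.mul_sum, sum_q] at h3
  have h6 : (((K n).filter (Lit n)).card : ℝ) + ((K n).filter (fun k => ¬ Lit n k)).card =
      (K n).card := by
    exact_mod_cast Finset.card_filter_add_card_filter_not (s := K n) (Lit n)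
  have h7 : (0 : ℝ) ≤ 4 / (9 * q n) := by positivity
  have h8 : (0 : ℝ) ≤ (K n).card := by positivity
  nlinarith

open Classical in
noncomputable def T (n : ℕ) (x : W) : Finset W := (K n).image (· * x)

lemma T_card (n : ℕ) (x : W) : (T n x).card = (K n).card := by
  classical
  exact Finset.card_image_of_injective _ (mul_left_injective x)

lemma T_ne (n : ℕ) (x : W) : (T n x).Nonempty := by
  classical
  exact Finset.Nonempty.image ⟨1, mem_K.2 (one_S n)⟩ _

lemma T_inv {n : ℕ} (x : W) {h : W} (hh : h ∈ S n) :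
    (fun k => h * k) '' (T n x : Set W) = T n x := by
  ext g
  simp only [T, Finset.coe_image, Set.mem_image, Finset.mem_coe, mem_K]
  constructor
  · rintro ⟨_, ⟨k, hk, rfl⟩, rfl⟩
    exact ⟨h * k, mul_S hh hk, by group⟩
  · rintro ⟨k, hk, rfl⟩
    exact ⟨_, ⟨h⁻¹ * k, mul_S (inv_S hh) hk, rfl⟩, by group⟩

lemma T_A (n : ℕ) : (1 / 2 : ℝ) * (T n (sh (q n))).card ≤
    (A ∩ (T n (sh (q n)) : Set W)).ncard := by
  classical
  rw [T_card]
  refine (lit_card n).trans ?_
  have h1 : (((K n).filter (Lit n)).image (· * sh (q n)) : Set W) ⊆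
      A ∩ (T n (sh (q n)) : Set W) := by
    intro g hg
    simp only [Finset.coe_image, Set.mem_image, Finset.mem_coe, Finset.mem_filter] at hg
    obtain ⟨k, ⟨hk, hl⟩, rfl⟩ := hg
    exact ⟨⟨n, k, mem_K.1 hk, hl, rfl⟩, Finset.mem_coe.2 (Finset.mem_image_of_mem _ hk)⟩
  have h2 := Set.ncard_le_ncard h1 ((T n (sh (q n))).finite_toSet.inter_of_right _)
  rw [Set.ncard_coe_finset, Finset.card_image_of_injective _ (mul_left_injective _)] at h2
  exact_mod_cast h2

lemma T_B (n : ℕ) : B ∩ (T n (sh (2 * q n)) : Set W) = T n (sh (2 * q n)) := by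
  refine Set.inter_eq_right.2 fun g hg => ?_
  simp only [T, Finset.coe_image, Set.mem_image, Finset.mem_coe, mem_K] at hg
  obtain ⟨k, hk, rfl⟩ := hg
  exact ⟨n, k, hk, rfl⟩

end Pool.Agent.Lib.helper26.Lamp
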