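import Mathlib
import Pool.Agent.Lib.helper26.BetaZ

set_option autoImplicit false

namespace Pool.Agent.Lib.helper26.OneTwo

open Filter Topology BetaZ

attribute [local instance] Ultrafilter.add Ultrafilter.addSemigroup

abbrev W := Fin 5 → B

def α : Fin 5 → ℤ := ![1, 1, 2, 1, 2]
def β : Fin 5 → ℤ := ![0, 1, 1, 2, 2]
def φ (a b : ℤ) : W := fun i => pure (α i * a + β i * b)
def dir (a b : ℤ) (p : B) : W := fun i => sc (α i * a + β i * b) p
def E : Set W := closure (Set.range fun x : ℤ × ℤ => φ x.1 x.2)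

lemma contW (r : W) : Continuous fun e : W => e + r :=
  continuous_pi fun i => (cont_add (r i)).comp (continuous_apply i)

lemma contφ (a b : ℤ) : Continuous fun e : W => φ a b + e :=
  continuous_pi fun i => (cont_pure_add _).comp (continuous_apply i)

lemma left_ideal {G : Set W} (hG : ∀ a b, ∀ g ∈ G, φ a b + g ∈ G) :
    ∀ e ∈ E, ∀ j ∈ closure G, e + j ∈ closure G := by
  intro e he j hj
  refine closure_minimal (t := {e | e + j ∈ closure G}) ?_
    (isClosed_closure.preimage (contW j)) he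
  rintro _ ⟨x, rfl⟩
  exact map_mem_closure (contφ _ _) hj (hG _ _)

lemma E_add : ∀ e ∈ E, ∀ j ∈ E, e + j ∈ E := by
  refine left_ideal ?_
  rintro a b _ ⟨x, rfl⟩
  refine ⟨(a + x.1, b + x.2), funext fun i => ?_⟩
  simp only [φ, Pi.add_apply, pure_pure]
  congr 1; ring

lemma dir_mem (a b : ℤ) (p : B) : dir a b p ∈ E := by
  refine denseRange_pure.induction_on p
    (isClosed_closure.preimage (continuous_pi fun i => cont_map _)) fun t => ?_
  refine subset_closure ⟨(a * t, b * t), funext fun i => ?_⟩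
  simp only [φ]
  change pure _ = pure _
  congr 1; ring

lemma dir_add (a b : ℤ) (p q : B) : dir a b (p + q) = dir a b p + dir a b q :=
  funext fun _ => sc_add _ _ _

lemma d10 (p : B) : dir 1 0 p = ![p, p, sc 2 p, p, sc 2 p] := by
  funext i; fin_cases i <;> simp [dir, α, β, sc_one]

lemma d01 (p : B) : dir 0 1 p = ![pure 0, p, p, sc 2 p, sc 2 p] := by
  funext i; fin_cases i <;> simp [dir, α, β, sc_one, sc_zero]

lemma d12 (p : B) : dir 1 (-2) p = ![p, sc (-1) p, pure 0, sc (-3) p, sc (-2) p] := by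
  funext i; fin_cases i <;> simp [dir, α, β, sc_one, sc_zero]

def gen (u : B) : Set W := {w | ∃ a : ℤ, ∃ V : B, V + u = V ∧ w = φ a 0 + dir 0 1 V}

lemma J_ideal (u : B) : ∀ e ∈ E, ∀ j ∈ closure (gen u), e + j ∈ closure (gen u) := by
  refine left_ideal ?_
  rintro a b _ ⟨a', V, hV, rfl⟩
  refine ⟨a + a', pure b + V, by rw [add_assoc, hV], funext fun i => ?_⟩
  simp only [φ, dir, Pi.add_apply, sc_add, sc_pure, ← add_assoc, pure_pure]
  congr 2; ring

lemma J_sub (u : B) : closure (gen u) ⊆ E := by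
  refine closure_minimal ?_ isClosed_closure
  rintro _ ⟨a, V, -, rfl⟩
  exact E_add _ (subset_closure ⟨(a, 0), rfl⟩) _ (dir_mem _ _ _)

lemma J_coord (u : B) {j : W} (hj : j ∈ closure (gen u)) :
    j 1 + u = j 1 ∧ j 2 + u = j 2 ∧ j 3 + sc 2 u = j 3 ∧ j 4 + sc 2 u = j 4 := by
  have c : ∀ (i : Fin 5) (v : B), IsClosed {j : W | j i + v = j i} := fun i v =>
    isClosed_eq ((cont_add v).comp (continuous_apply i)) (continuous_apply i)
  refine closure_minimal (t := {j : W | j 1 + u = j 1} ∩ ({j : W | j 2 + u = j 2} ∩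
    ({j : W | j 3 + sc 2 u = j 3} ∩ {j : W | j 4 + sc 2 u = j 4}))) ?_
    ((c _ _).inter ((c _ _).inter ((c _ _).inter (c _ _)))) hj
  rintro _ ⟨a, V, hV, rfl⟩
  have hV2 : sc 2 V + sc 2 u = sc 2 V := by rw [← sc_add, hV]
  rw [d01]
  refine ⟨?_, ?_, ?_, ?_⟩ <;> simp [add_assoc, hV, hV2]

/-- if `η` is idempotent with minimal coordinates then it lies in `L + η` for any closed left
ideal `L` of `E`. -/
lemma mem_ideal {L : Set W} (hLc : IsClosed L) (hLn : L.Nonempty) (hLE : L ⊆ E)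
    (hL : ∀ e ∈ E, ∀ j ∈ L, e + j ∈ L) {η : W} (hη : η ∈ E) (hηη : η + η = η)
    (hmin : ∀ i, Min (η i)) : ∃ l ∈ L, l + η = η := by
  obtain ⟨f, ⟨l, hl, rfl⟩, hf⟩ := exists_idempotent_in_compact_add_subsemigroup contW
    ((fun e => e + η) '' L) (hLn.image _) (hLc.isCompact.image (contW η)) (by
      rintro _ ⟨x, hx, rfl⟩ _ ⟨y, hy, rfl⟩
      exact ⟨x + η + y, hL _ (E_add _ (hLE hx) _ hη) _ hy, by simp only [add_assoc]⟩)
  refine ⟨η + l, hL _ hη _ hl, funext fun i => ?_⟩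
  have h1 : (l + η) i + η i = (l + η) i := by
    rw [← Pi.add_apply (l + η), add_assoc, hηη]
  have := (hmin i).absorb (congrFun hf i) h1
  rw [add_assoc]; exact this

theorem key (u : B) (huu : u + u = u) (hu : Min u) : ∃ j ∈ closure (gen u),
    j 0 + u = j 0 ∧ j + (fun _ => u) = ![u, u, sc 2 u + u, u, sc 2 u + u] := by
  have h2 : sc 2 u + sc 2 u = sc 2 u := by rw [← sc_add, huu]
  have m2 : Min (sc 2 u) := hu.sc (by norm_num)
  set L : Set W := closure (gen u) ∩ {j | j 0 + u = j 0} with hLdef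
  have hLc : IsClosed L := isClosed_closure.inter
    (isClosed_eq ((cont_add u).comp (continuous_apply 0)) (continuous_apply 0))
  have hL : ∀ e ∈ E, ∀ j ∈ L, e + j ∈ L := fun e he j hj =>
    ⟨J_ideal u e he j hj.1, by
      have : j 0 + u = j 0 := hj.2
      simp only [Set.mem_ofPred_eq, Pi.add_apply, add_assoc, this]⟩
  have hLE : L ⊆ E := fun j hj => J_sub u hj.1
  have hLn : L.Nonempty := by
    refine ⟨dir 1 0 u + (φ 0 0 + dir 0 1 u), J_ideal u _ (dir_mem _ _ _) _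
      (subset_closure ⟨0, u, huu, rfl⟩), ?_⟩
    simp only [Set.mem_ofPred_eq, Pi.add_apply]
    simp [d10, d01, φ, add_zero', huu]
  have hηη : dir 1 0 u + dir 1 0 u = dir 1 0 u := by rw [← dir_add, huu]
  obtain ⟨l, hl, hlη⟩ := mem_ideal hLc hLn hLE hL (dir_mem 1 0 u) hηη (by
    intro i; rw [d10]; fin_cases i <;> simp [hu, m2])
  obtain ⟨θ, ⟨hθL, hθη⟩, hθ⟩ := exists_idempotent_in_compact_add_subsemigroup contW
    (L ∩ {e | e + dir 1 0 u = dir 1 0 u}) ⟨l, hl, hlη⟩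
    (hLc.inter (isClosed_eq (contW _) continuous_const)).isCompact (by
      rintro x ⟨hx, hx'⟩ y ⟨hy, hy'⟩
      refine ⟨hL _ (hLE hx) _ hy, ?_⟩
      simp only [Set.mem_ofPred_eq] at hx' hy' ⊢
      rw [add_assoc, hy', hx'])
  have hθη : θ + dir 1 0 u = dir 1 0 u := hθη
  obtain ⟨t1, t2, t3, t4⟩ := J_coord u hθL.1
  have t0 : θ 0 + u = θ 0 := hθL.2
  have s0 : θ 0 + u = u := by simpa [d10] using congrFun hθη 0
  have s1 : θ 1 + u = u := by simpa [d10] using congrFun hθη 1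
  have s2 : θ 2 + sc 2 u = sc 2 u := by simpa [d10] using congrFun hθη 2
  have s3 : θ 3 + u = u := by simpa [d10] using congrFun hθη 3
  have s4 : θ 4 + sc 2 u = sc 2 u := by simpa [d10] using congrFun hθη 4
  have hθmin : ∀ i, Min (θ i) := by
    intro i
    fin_cases i
    exacts [hu.of_eq t0, hu.of_eq t1, hu.of_eq t2, m2.of_eq t3, m2.of_eq t4]
  have hζζ : dir 1 (-2) u + dir 1 (-2) u = dir 1 (-2) u := by rw [← dir_add, huu]
  obtain ⟨ε, ⟨hεE, hεζ, hε2⟩, hε⟩ := exists_idempotent_in_compact_add_subsemigroup contW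
    (E ∩ ({e | e + dir 1 (-2) u = e} ∩ {e | e 2 = u}))
    ⟨dir 0 1 u + dir 1 (-2) u, E_add _ (dir_mem _ _ _) _ (dir_mem _ _ _), by
      simp only [Set.mem_ofPred_eq]; rw [add_assoc, hζζ], by simp [d01, d12, add_zero']⟩
    (isClosed_closure.inter ((isClosed_eq (contW _) continuous_id).inter
      (isClosed_eq (continuous_apply 2) continuous_const))).isCompact (by
      rintro x ⟨hx, -, hx2⟩ y ⟨hy, hy1, hy2⟩
      refine ⟨E_add _ hx _ hy, ?_, ?_⟩
      · simp only [Set.mem_ofPred_eq] at hy1 ⊢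
        rw [add_assoc, hy1]
      · simp only [Set.mem_ofPred_eq] at hx2 hy2 ⊢
        rw [Pi.add_apply, hx2, hy2, huu])
  have hεζ : ε + dir 1 (-2) u = ε := hεζ
  have hε2 : ε 2 = u := hε2
  have hζε : ∀ i, i ≠ 2 → dir 1 (-2) u i + ε i = dir 1 (-2) u i := by
    intro i hi
    refine Min.absorb (hu.sc ?_) (congrFun hε i) (congrFun hεζ i)
    revert hi; fin_cases i <;> simp [α, β]
  have he1 : dir 1 0 u + dir 1 (-2) u ∈ E := E_add _ (dir_mem _ _ _) _ (dir_mem _ _ _)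
  obtain ⟨_, ⟨e', he', rfl⟩, hl'⟩ := mem_ideal
    (L := (fun e => e + (dir 1 0 u + dir 1 (-2) u)) '' E)
    (isClosed_closure.isCompact.image (contW _)).isClosed ⟨_, _, he1, rfl⟩
    (by rintro _ ⟨x, hx, rfl⟩; exact E_add _ hx _ he1)
    (by rintro e he _ ⟨x, hx, rfl⟩; exact ⟨e + x, E_add _ he _ hx, add_assoc _ _ _⟩)
    (hLE hθL) hθ hθmin
  simp only at hl'
  have hj := hL _ (E_add _ (E_add _ he' _ he1) _ hεE) _ hθL
  have hco : ∀ i, i ≠ 2 → (e' + (dir 1 0 u + dir 1 (-2) u) + ε + θ) i = θ i := by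
    intro i hi
    have := congrFun hl' i
    simp only [Pi.add_apply, add_assoc] at this ⊢
    rw [← add_assoc (dir 1 (-2) u i), hζε i hi, this]
  have h22 : e' 2 + sc 2 u = sc 2 u := by
    have := congrFun hl' 2
    simp only [Pi.add_apply] at this
    simp [d10, d12, add_zero'] at this
    have h3 : e' 2 + sc 2 u + θ 2 + sc 2 u = θ 2 + sc 2 u := by rw [this]
    rwa [add_assoc, s2, add_assoc, h2] at h3
  have h23 : u + θ 2 = u := hu.absorb (congrFun hθ 2) t2
  refine ⟨_, hj.1, hj.2, funext fun i => ?_⟩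
  fin_cases i
  · simp only [Pi.add_apply (_ + θ)]; rw [hco _ (by decide)]; simpa using s0
  · simp only [Pi.add_apply (_ + θ)]; rw [hco _ (by decide)]; simpa using s1
  · simp only [Pi.add_apply]
    simp [d10, d12, add_zero', hε2, add_assoc, h23, huu, ← add_assoc u]
    rw [← add_assoc, h22]
  · simp only [Pi.add_apply (_ + θ)]; rw [hco _ (by decide)]; simpa using s3
  · simp only [Pi.add_apply (_ + θ)]; rw [hco _ (by decide)]
    simp
    rw [← t4, s4]

theorem step (u : B) (huu : u + u = u) (hu : Min u) (V : B) (hV : V + u = V)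
    (C0 C1 C2 : Set ℤ) (h0 : C0 ∈ V) (h1 : C1 ∈ V) (h2 : C2 ∈ sc 2 V + u) :
    ∃ a ∈ C0, ∃ V' : B, V' + u = V' ∧ C1 ∈ pure a + V' ∧ C2 ∈ pure (2 * a) + V' ∧
      C1 ∈ pure a + (sc 2 V' + u) ∧ C2 ∈ pure (2 * a) + (sc 2 V' + u) := by
  obtain ⟨j, hj, hj0, hju⟩ := key u huu hu
  have hV2 : sc 2 V + sc 2 u = sc 2 V := by rw [← sc_add, hV]
  let r : W := ![pure 0, u, u, u, u]
  have hjr : j + r = j + fun _ => u := by
    funext i; fin_cases i <;> simp [r, add_zero', hj0]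
  have hj' := J_ideal u _ (dir_mem 1 0 V) _ hj
  have ht : dir 1 0 V + j + r = ![V, V, sc 2 V + u, V, sc 2 V + u] := by
    rw [add_assoc, hjr, hju, d10]
    funext i; fin_cases i <;> simp [hV, ← add_assoc, hV2]
  let C : Fin 5 → Set ℤ := ![C0, C1, C2, C1, C2]
  have hO : IsOpen {w : W | ∀ i, C i ∈ (w + r) i} := by
    simp only [Set.ofPred_forall]
    exact isOpen_iInter_of_finite fun i => (ultrafilter_isOpen_basic (C i)).preimage
      ((continuous_apply i).comp (contW r))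
  obtain ⟨_, hw, a, V', hV', rfl⟩ := mem_closure_iff.1 hj' _ hO (by
    intro i; rw [ht]; fin_cases i <;> simp [C, h0, h1, h2])
  simp only [Set.mem_ofPred_eq, Pi.add_apply, φ] at hw
  refine ⟨a, ?_, V', hV', ?_, ?_, ?_, ?_⟩
  · simpa [C, r, d01, α, β, add_zero'] using hw 0
  · simpa [C, r, d01, α, β, add_assoc, hV'] using hw 1
  · simpa [C, r, d01, α, β, add_assoc, hV'] using hw 2
  · simpa [C, r, d01, α, β, add_assoc, hV'] using hw 3
  · simpa [C, r, d01, α, β, add_assoc, hV'] using hw 4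

/-- the invariant -/
def Good (u : B) (C : Set ℤ) : Prop := ∃ V : B, V + u = V ∧ C ∈ V ∧ C ∈ sc 2 V + u

lemma shift_mem {a : ℤ} {p : B} {C : Set ℤ} (h : C ∈ (pure a : B) + p) : {x | a + x ∈ C} ∈ p := h

lemma pos_mem {u V : B} (hpos : ∀ n : ℤ, {m | n < m} ∈ u) (hV : V + u = V) : {m | 0 < m} ∈ V := by
  rw [← hV, mem_add]
  refine Filter.univ_mem' fun a => Filter.mem_of_superset (hpos (-a)) fun b hb => ?_
  simp only [Set.mem_ofPred_eq] at hb ⊢
  omega

theorem main {κ : Type*} [Finite κ] (c : ℤ → κ) : ∃ (col : κ) (y : ℕ → ℤ) (C : ℕ → Set ℤ),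
    (∀ n, 0 < y n) ∧ c (y 0) = col ∧ (∀ x ∈ C 0, c (y 0 + x) = col) ∧ (∀ n, y (n + 1) ∈ C n) ∧
    ∀ n, ∀ x ∈ C (n + 1), y (n + 1) + x ∈ C n ∧ 2 * y (n + 1) + x ∈ C n := by
  obtain ⟨u, huu, hu, hpos⟩ := exists_min
  obtain ⟨col, hcol⟩ := Ultrafilter.eq_pure_of_finite (u.map c)
  have hA : {x | c x = col} ∈ u := by
    have : {col} ∈ u.map c := by rw [hcol]; simp
    exact this
  obtain ⟨a, ⟨ha, ha0⟩, V, hV, h1, -, h2, -⟩ := step u huu hu u huu
    ({x | c x = col} ∩ {m | 0 < m}) {x | c x = col} Set.univ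
    (Filter.inter_mem hA (hpos 0)) hA Filter.univ_mem
  have st : ∀ p : {C // Good u C}, ∃ q : {C // Good u C}, ∃ y ∈ p.1, 0 < y ∧
      ∀ x ∈ q.1, y + x ∈ p.1 ∧ 2 * y + x ∈ p.1 := by
    rintro ⟨C, V, hV, h1, h2⟩
    obtain ⟨y, ⟨hy, hy0⟩, V', hV', g1, g2, g3, g4⟩ := step u huu hu V hV
      (C ∩ {m | 0 < m}) C C (Filter.inter_mem h1 (pos_mem hpos hV)) h1 h2
    exact ⟨⟨{x | y + x ∈ C} ∩ {x | 2 * y + x ∈ C}, V', hV',
      Filter.inter_mem (shift_mem g1) (shift_mem g2),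
      Filter.inter_mem (shift_mem g3) (shift_mem g4)⟩, y, hy, hy0, fun x hx => hx⟩
  choose nx yy h3 h4 h5 using st
  let p0 : {C // Good u C} := ⟨{x | c (a + x) = col}, V, hV, shift_mem h1, shift_mem h2⟩
  let sq : ℕ → {C // Good u C} := fun k => nx^[k] p0
  have hs : ∀ k, sq (k + 1) = nx (sq k) := fun k => Function.iterate_succ_apply' _ _ _
  let y : ℕ → ℤ := fun n => Nat.casesOn n a fun k => yy (sq k)
  refine ⟨col, y, fun n => (sq n).1, ?_, ha,
    fun x hx => hx, fun n => h3 _, fun n x hx => h5 _ x (by rw [← hs]; exact hx)⟩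
  intro n
  cases n with
  | zero => exact ha0
  | succ n => exact h4 _

end Pool.Agent.Lib.helper26.OneTwo
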