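import Mathlib
import Pool.Agent.Lib.helper26.Forms

set_option autoImplicit false

namespace Pool.Agent.Lib.helper26.OneTwoOne

open Filter Topology BetaZ Forms

attribute [local instance] Ultrafilter.add Ultrafilter.addSemigroup

def α : Fin 5 → ℤ := ![1, 0, 1, 2, 1]
def β : Fin 5 → ℤ := ![0, 1, 1, 1, 2]

lemma d10 (p : B) : dir α β 1 0 p = ![p, pure 0, p, sc 2 p, p] := by
  funext i; fin_cases i <;> simp [dir, α, β, sc_one, sc_zero]

lemma d01 (p : B) : dir α β 0 1 p = ![pure 0, p, p, p, sc 2 p] := by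
  funext i; fin_cases i <;> simp [dir, α, β, sc_one, sc_zero]

theorem key (u : B) (huu : u + u = u) (hu : Min u) (V : B) (hV : V + u = V) :
    ∃ j ∈ closure (gen α β u), j 0 = V ∧ j 1 + u = u ∧ j 2 + u = V ∧ j 3 + u = sc 2 V + u ∧
      j 4 + u = V := by
  have m2 : Min (sc 2 u) := hu.sc (by norm_num)
  have hV2 : sc 2 V + sc 2 u = sc 2 V := by rw [← sc_add, hV]
  set L : Set (Fin 5 → B) := closure (gen α β u) ∩ {j | j 0 + u = j 0} with hLdef
  have hLc : IsClosed L := isClosed_closure.inter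
    (isClosed_eq ((cont_add u).comp (continuous_apply 0)) (continuous_apply 0))
  have hL : ∀ e ∈ E α β, ∀ j ∈ L, e + j ∈ L := fun e he j hj =>
    ⟨J_ideal α β u e he j hj.1, by
      have : j 0 + u = j 0 := hj.2
      simp only [Set.mem_ofPred_eq, Pi.add_apply, add_assoc, this]⟩
  have hLE : L ⊆ E α β := fun j hj => J_sub α β u hj.1
  have hLn : L.Nonempty := by
    refine ⟨dir α β 1 0 u + (φ α β 0 0 + dir α β 0 1 u), J_ideal α β u _ (dir_mem α β _ _ _) _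
      (subset_closure ⟨0, u, huu, rfl⟩), ?_⟩
    simp only [Set.mem_ofPred_eq, Pi.add_apply]
    simp [d10, d01, φ, add_zero', huu]
  obtain ⟨η, hηE, hη0, hη1, hηη⟩ := exists_eps α β (dir_mem α β 1 0 u)
    (by rw [← dir_add, huu]) 1 (by simp [d10]) (dir_mem α β 0 1 u) (by simp [d01, huu])
  have e1 : η 1 = u := by simpa [d01] using hη1
  have e0 : η 0 + u = η 0 := by
    have := congrFun hη0 0; simp only [Pi.add_apply] at this; simpa [d10] using this
  have e2 : η 2 + u = η 2 := by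
    have := congrFun hη0 2; simp only [Pi.add_apply] at this; simpa [d10] using this
  have e3 : η 3 + sc 2 u = η 3 := by
    have := congrFun hη0 3; simp only [Pi.add_apply] at this; simpa [d10] using this
  have e4 : η 4 + u = η 4 := by
    have := congrFun hη0 4; simp only [Pi.add_apply] at this; simpa [d10] using this
  have f0 : u + η 0 = u := hu.absorb (congrFun hηη 0) e0
  have f2 : u + η 2 = u := hu.absorb (congrFun hηη 2) e2
  have f3 : sc 2 u + η 3 = sc 2 u := m2.absorb (congrFun hηη 3) e3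
  have f4 : u + η 4 = u := hu.absorb (congrFun hηη 4) e4
  obtain ⟨θ, hθL, hθη, hθ⟩ := exists_theta α β hLc hLn hLE hL hηE hηη (by
    intro i
    fin_cases i
    exacts [hu.of_eq e0, hu.of_eq (by simp [e1, huu]), hu.of_eq e2, m2.of_eq e3, hu.of_eq e4])
  have t0 : θ 0 + u = θ 0 := hθL.2
  have t1 : θ 1 + u = θ 1 := by simpa [β, sc_one] using J_coord α β u hθL.1 1
  have t2 : θ 2 + u = θ 2 := by simpa [β, sc_one] using J_coord α β u hθL.1 2
  have t3 : θ 3 + u = θ 3 := by simpa [β, sc_one] using J_coord α β u hθL.1 3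
  have t4 : θ 4 + sc 2 u = θ 4 := by simpa [β, sc_one] using J_coord α β u hθL.1 4
  have hθmin : ∀ i, Min (θ i) := by
    intro i
    fin_cases i
    exacts [hu.of_eq t0, hu.of_eq t1, hu.of_eq t2, hu.of_eq t3, m2.of_eq t4]
  have s0 : θ 0 = η 0 := by
    have : θ 0 + η 0 = η 0 := congrFun hθη 0
    rw [← this, ← t0, add_assoc, f0]
  have s1 : θ 1 = u := by
    have : θ 1 + η 1 = η 1 := congrFun hθη 1
    rw [← t1, ← e1, this]
  have s2 : θ 2 = η 2 := by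
    have : θ 2 + η 2 = η 2 := congrFun hθη 2
    rw [← this, ← t2, add_assoc, f2]
  obtain ⟨x, hx, hx1, hx2⟩ := fix α β huu hu hηE hηη (hLE hθL) hθη hθ hθmin 3 1 (-2)
    (by simp [α, β]) (by intro l; fin_cases l <;> simp [α, β]) 0 1 (by simp [α, β])
    (hLE hθL) hθ rfl
  have hj1 := hL _ hx _ hθL
  obtain ⟨z, hz, hz1, hz2⟩ := fix α β huu hu hηE hηη (hLE hθL) hθη hθ hθmin 4 2 (-1)
    (by simp [α, β]) (by intro l; fin_cases l <;> simp [α, β]) 1 0 (by simp [α, β])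
    (hLE hj1) (by rw [add_assoc, hθ]) (hx1 4 (by decide))
  have hj2 := hL _ hz _ hj1
  refine ⟨dir α β 1 0 V + (z + (x + θ)), (hL _ (dir_mem α β _ _ _) _ hj2).1, ?_, ?_, ?_, ?_, ?_⟩
  · rw [Pi.add_apply, hz1 0 (by decide), hx1 0 (by decide), s0]
    simp only [d10, Matrix.cons_val_zero]
    rw [← hV, add_assoc, f0]
  · rw [Pi.add_apply, hz1 1 (by decide), hx1 1 (by decide), s1]
    simp [d10, zero_add', huu]
  · rw [Pi.add_apply, hz1 2 (by decide), hx1 2 (by decide), s2, add_assoc, e2]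
    have : dir α β 1 0 V 2 = V := by simp [d10]
    rw [this, ← hV, add_assoc, f2]
  · rw [Pi.add_apply, hz1 3 (by decide), add_assoc, hx2]
    have : dir α β 1 0 V 3 = sc 2 V := by simp [d10]
    rw [this, ← hV2, add_assoc, ← add_assoc (sc 2 u), f3, ← add_assoc]
  · rw [Pi.add_apply, add_assoc, hz2, e4]
    have : dir α β 1 0 V 4 = V := by simp [d10]
    rw [this, ← hV, add_assoc, f4]

theorem step (u : B) (huu : u + u = u) (hu : Min u) (V : B) (hV : V + u = V)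
    (C0 C D : Set ℤ) (h0 : C0 ∈ V) (h1 : C ∈ u) (h2 : C ∈ V) (h3 : D ∈ sc 2 V + u) :
    ∃ a ∈ C0, ∃ V' : B, V' + u = V' ∧ C ∈ pure a + u ∧ C ∈ V' ∧ C ∈ pure a + V' ∧
      D ∈ pure (2 * a) + V' ∧ C ∈ pure a + (sc 2 V' + u) := by
  obtain ⟨j, hj, j0, j1, j2, j3, j4⟩ := key u huu hu V hV
  have o : ∀ (i : Fin 5) (S : Set ℤ), IsOpen {w : Fin 5 → B | S ∈ w i + u} := fun i S =>
    (ultrafilter_isOpen_basic S).preimage ((cont_add u).comp (continuous_apply i))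
  have o0 : IsOpen {w : Fin 5 → B | C0 ∈ w 0} :=
    (ultrafilter_isOpen_basic C0).preimage (continuous_apply (A := fun _ : Fin 5 => B) 0)
  obtain ⟨_, ⟨g0, g1, g2, g3, g4, g5⟩, a, V', hV', rfl⟩ := mem_closure_iff.1 hj _
    (o0.inter ((o 0 C).inter ((o 1 C).inter ((o 2 C).inter ((o 3 D).inter (o 4 C))))))
    (by simp [j0, j1, j2, j3, j4, h0, h1, h2, h3, hV])
  simp only [Set.mem_ofPred_eq, Pi.add_apply, φ, d01] at g0 g1 g2 g3 g4 g5
  refine ⟨a, ?_, V', hV', ?_, ?_, ?_, ?_, ?_⟩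
  · simpa [α, β, add_zero'] using g0
  · simpa [α, β, add_zero'] using g1
  · simpa [α, β, zero_add', hV'] using g2
  · simpa [α, β, add_assoc, hV'] using g3
  · simpa [α, β, add_assoc, hV'] using g4
  · simpa [α, β, add_assoc, hV'] using g5

/-- the invariant -/
def Good (u : B) (p : Set ℤ × Set ℤ × Set ℤ) : Prop :=
  ∃ V : B, V + u = V ∧ p.1 ∈ u ∧ p.1 ∈ V ∧ p.2.1 ∈ V ∧ p.2.2 ∈ sc 2 V + u

lemma shift_mem {a : ℤ} {p : B} {C : Set ℤ} (h : C ∈ (pure a : B) + p) : {x | a + x ∈ C} ∈ p := h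

lemma pos_mem {u V : B} (hpos : ∀ n : ℤ, {m | n < m} ∈ u) (hV : V + u = V) : {m | 0 < m} ∈ V := by
  rw [← hV, mem_add]
  refine Filter.univ_mem' fun a => Filter.mem_of_superset (hpos (-a)) fun b hb => ?_
  simp only [Set.mem_ofPred_eq] at hb ⊢
  omega

theorem main {κ : Type*} [Finite κ] (c : ℤ → κ) : ∃ (col : κ) (y : ℕ → ℤ) (C D F : ℕ → Set ℤ),
    (∀ n, 0 < y n) ∧ (∀ x ∈ C 0, c x = col) ∧ (∀ n, y n ∈ C n) ∧ (∀ n, y n ∈ D n) ∧
    (∀ n, ∀ x ∈ C (n + 1), x ∈ C n ∧ y n + x ∈ C n) ∧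
    (∀ n, ∀ x ∈ D (n + 1), 2 * y n + x ∈ F n) ∧ ∀ n, ∀ x ∈ F (n + 1), y n + x ∈ C n := by
  obtain ⟨u, huu, hu, hpos⟩ := exists_min
  obtain ⟨col, hcol⟩ := Ultrafilter.eq_pure_of_finite (u.map c)
  have hA : {x | c x = col} ∈ u := by
    have : {col} ∈ u.map c := by rw [hcol]; simp
    exact this
  have st : ∀ p : {p // Good u p}, ∃ q : {p // Good u p}, ∃ y, y ∈ p.1.1 ∧ y ∈ p.1.2.1 ∧ 0 < y ∧
      (∀ x ∈ q.1.1, x ∈ p.1.1 ∧ y + x ∈ p.1.1) ∧ (∀ x ∈ q.1.2.1, 2 * y + x ∈ p.1.2.2) ∧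
      ∀ x ∈ q.1.2.2, y + x ∈ p.1.1 := by
    rintro ⟨⟨C, D, F⟩, V, hV, h1, h2, h3, h4⟩
    obtain ⟨y, ⟨⟨hy, hy'⟩, hy0⟩, V', hV', g1, g2, g3, g4, g5⟩ := step u huu hu V hV
      (C ∩ D ∩ {m | 0 < m}) C F (Filter.inter_mem (Filter.inter_mem h2 h3) (pos_mem hpos hV))
      h1 h2 h4
    exact ⟨⟨(C ∩ {x | y + x ∈ C}, {x | 2 * y + x ∈ F}, {x | y + x ∈ C}), V', hV',
      Filter.inter_mem h1 (shift_mem g1), Filter.inter_mem g2 (shift_mem g3), shift_mem g4,
      shift_mem g5⟩, y, hy, hy', hy0, fun x hx => hx, fun x hx => hx, fun x hx => hx⟩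
  choose nx yy h3 h4 h5 h6 h7 h8 using st
  let p0 : {p // Good u p} := ⟨({x | c x = col}, Set.univ, Set.univ), u, huu, hA, hA,
    Filter.univ_mem, Filter.univ_mem⟩
  let sq : ℕ → {p // Good u p} := fun k => nx^[k] p0
  have hs : ∀ k, sq (k + 1) = nx (sq k) := fun k => Function.iterate_succ_apply' _ _ _
  exact ⟨col, fun n => yy (sq n), fun n => (sq n).1.1, fun n => (sq n).1.2.1,
    fun n => (sq n).1.2.2, fun n => h5 _, fun x hx => hx, fun n => h3 _, fun n => h4 _,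
    fun n x hx => h6 _ x (by rw [← hs]; exact hx), fun n x hx => h7 _ x (by rw [← hs]; exact hx),
    fun n x hx => h8 _ x (by rw [← hs]; exact hx)⟩

end Pool.Agent.Lib.helper26.OneTwoOne
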