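import Mathlib
import Pool.Agent.Lib.helper26.Forms

set_option autoImplicit false

namespace Pool.Agent.Lib.helper26.Owings

open Filter Topology BetaZ Forms

attribute [local instance] Ultrafilter.add Ultrafilter.addSemigroup

open Classical in
/-- the colour of an ultrafilter -/
noncomputable def col (ω : ℤ → Bool) (p : B) : Bool := decide ({n | ω n = true} ∈ p)

lemma col_mem (ω : ℤ → Bool) (p : B) : {n | ω n = col ω p} ∈ p := by
  by_cases h : {n | ω n = true} ∈ p
  · simp [col, h]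
  · have h' := Ultrafilter.compl_mem_iff_notMem.2 h
    have : col ω p = false := by simp [col, h]
    rw [this]
    refine Filter.mem_of_superset h' fun n hn => ?_
    simpa using hn

lemma col_eq {ω : ℤ → Bool} {p : B} {χ : Bool} (h : {n | ω n = χ} ∈ p) : col ω p = χ := by
  obtain ⟨n, h1, h2⟩ := Ultrafilter.nonempty_of_mem (Filter.inter_mem h (col_mem ω p))
  exact (show ω n = col ω p from h2).symm.trans h1

lemma col_pure (ω : ℤ → Bool) (n : ℤ) : col ω (pure n) = ω n := col_eq (by simp)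

lemma col_cont (ω : ℤ → Bool) : Continuous (col ω) := by
  refine continuous_discrete_rng.2 fun b => ?_
  have : col ω ⁻¹' {b} = {p : B | {n | ω n = b} ∈ p} := by
    ext p
    exact ⟨fun h => by rw [← show col ω p = b from h]; exact col_mem ω p, fun h => col_eq h⟩
  rw [this]
  exact ultrafilter_isOpen_basic _

lemma ev {X ι : Type*} [TopologicalSpace X] {l : Filter ι} {f : ι → X} {x : X}
    (h : Tendsto f l (𝓝 x)) {g : X → Bool} (hg : Continuous g) : ∀ᶠ a in l, g (f a) = g x := by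
  have := (hg.tendsto x).comp h
  rwa [nhds_discrete, tendsto_pure] at this

lemma exlim {X ι : Type*} [TopologicalSpace X] [CompactSpace X] (l : Ultrafilter ι) (f : ι → X) :
    ∃ x, Tendsto f l (𝓝 x) := by
  obtain ⟨x, -, hx⟩ := isCompact_univ.ultrafilter_le_nhds (l.map f) (by simp)
  exact ⟨x, hx⟩

def Pos (p : B) : Prop := ∀ n : ℤ, {m | n < m} ∈ p

lemma Pos.add {p : B} (hp : Pos p) (q : B) : Pos (q + p) := by
  intro n
  rw [mem_add]
  refine Filter.univ_mem' fun a => Filter.mem_of_superset (hp (n - a)) fun b hb => ?_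
  simp only [Set.mem_ofPred_eq] at hb ⊢
  omega

lemma Pos.two {p : B} (hp : Pos p) : Pos (sc 2 p) := by
  intro n
  change {b | n < 2 * b} ∈ p
  refine Filter.mem_of_superset (hp |n|) fun b hb => ?_
  simp only [Set.mem_ofPred_eq] at hb ⊢
  have := le_abs_self n
  have := abs_nonneg n
  omega

lemma seq (F : Set B) (hF : ∀ V ∈ F, Pos V) (hne : F.Nonempty) (A : Set ℤ) (t : ℤ)
    (hstep : ∀ V ∈ F, ∀ D ∈ V, ∃ a ∈ D, 2 * a + t ∈ A ∧ ∃ V' ∈ F, D ∈ V' ∧
      {x | a + x + t ∈ A} ∈ V') :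
    ∃ a : ℕ → ℤ, StrictMono a ∧ ∀ i j, i ≤ j → a i + a j + t ∈ A := by
  have st : ∀ D : {D : Set ℤ // ∃ V ∈ F, D ∈ V}, ∃ D' : {D : Set ℤ // ∃ V ∈ F, D ∈ V},
      ∃ a ∈ D.1, 2 * a + t ∈ A ∧ ∀ x ∈ D'.1, x ∈ D.1 ∧ a + x + t ∈ A ∧ a < x := by
    rintro ⟨D, V, hV, hD⟩
    obtain ⟨a, ha, h1, V', hV', h2, h3⟩ := hstep V hV D hD
    exact ⟨⟨D ∩ ({x | a + x + t ∈ A} ∩ {x | a < x}), V', hV',
      Filter.inter_mem h2 (Filter.inter_mem h3 (hF V' hV' a))⟩, a, ha, h1, fun x hx => hx⟩
  choose nx a ha h1 h2 using st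
  obtain ⟨V, hV⟩ := hne
  let D : ℕ → {D : Set ℤ // ∃ V ∈ F, D ∈ V} := fun k => nx^[k] ⟨Set.univ, V, hV, Filter.univ_mem⟩
  have hD : ∀ k, D (k + 1) = nx (D k) := fun k => Function.iterate_succ_apply' _ _ _
  have anti : ∀ i j, i ≤ j → (D j).1 ⊆ (D i).1 := by
    intro i j hij
    induction j, hij using Nat.le_induction with
    | base => exact subset_rfl
    | succ j _ ih => exact fun x hx => ih (h2 _ x (by rwa [hD] at hx)).1
  refine ⟨fun k => a (D k), strictMono_nat_of_lt_succ fun k => ?_, fun i j hij => ?_⟩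
  · exact (h2 (D k) _ (by rw [← hD]; exact ha _)).2.2
  · rcases hij.eq_or_lt with rfl | hij
    · rw [← two_mul]; exact h1 _
    · exact (h2 (D i) _ (by rw [← hD]; exact anti _ _ hij (ha _))).2.1

/-- the standing hypotheses -/
structure H (ω : ℤ → Bool) (u : B) : Prop where
  huu : u + u = u
  hu : Min u
  hpos : Pos u
  hno : ∀ (t : ℤ) (χ : Bool) (a : ℕ → ℤ), StrictMono a →
    (∀ i j, i ≤ j → ω (a i + a j + t) = χ) → False

def Eqv (ω : ℤ → Bool) (s s' : B) : Prop := ∀ q : B, col ω (q + s) = col ω (q + s')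

lemma eqv_of_pure {ω : ℤ → Bool} {s s' : B}
    (h : ∀ t : ℤ, col ω (pure t + s) = col ω (pure t + s')) : Eqv ω s s' := fun q =>
  denseRange_pure.induction_on q
    (isClosed_eq ((col_cont ω).comp (cont_add s)) ((col_cont ω).comp (cont_add s'))) h

lemma ne_of_pure {ω : ℤ → Bool} {s s' : B}
    (h : ∀ t : ℤ, col ω (pure t + s) = !col ω (pure t + s')) (q : B) :
    col ω (q + s) = !col ω (q + s') :=
  denseRange_pure.induction_on q
    (isClosed_eq ((col_cont ω).comp (cont_add s))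
      ((continuous_of_discreteTopology (f := fun b : Bool => !b)).comp
        ((col_cont ω).comp (cont_add s')))) h

variable {ω : ℤ → Bool} {u : B} (h : H ω u)
include h

lemma star {p : B} (hp : Pos p) (q : B) : col ω (q + sc 2 p) = !col ω (q + (p + p)) := by
  refine ne_of_pure (fun t => ?_) q
  by_contra hc
  have hc' : col ω (pure t + sc 2 p) = col ω (pure t + (p + p)) := by simpa using hc
  have h1 := col_mem ω (pure t + sc 2 p)
  have h2 := col_mem ω (pure t + (p + p))
  rw [← hc'] at h2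
  obtain ⟨a, ha, hb⟩ := seq {p} (by rintro _ rfl; exact hp) ⟨p, rfl⟩
    {n | ω n = col ω (pure t + sc 2 p)} t (by
      intro V hV D hD
      rw [show V = p from hV] at hD
      have h1' : {a | t + 2 * a ∈ {n | ω n = col ω (pure t + sc 2 p)}} ∈ p := h1
      have h2' : {a | {b | t + (a + b) ∈ {n | ω n = col ω (pure t + sc 2 p)}} ∈ p} ∈ p := h2
      obtain ⟨a, g1, g2, g3⟩ := Ultrafilter.nonempty_of_mem
        (Filter.inter_mem hD (Filter.inter_mem h1' h2'))
      refine ⟨a, g1, by rw [add_comm]; exact g2, p, rfl, hD, ?_⟩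
      simp only [add_comm _ t]
      exact g3)
  exact h.hno t _ a ha hb

def α : Fin 3 → ℤ := ![1, 0, 1]
def β : Fin 3 → ℤ := ![0, 1, 1]

omit h in
lemma d11 (p : B) : dir α β 1 1 p = ![p, p, sc 2 p] := by
  funext i; fin_cases i <;> simp [dir, α, β, sc_one]

omit h in
lemma d01 (p : B) : dir α β 0 1 p = ![pure 0, p, p] := by
  funext i; fin_cases i <;> simp [dir, α, β, sc_one, sc_zero]

omit h in
lemma d10 (p : B) : dir α β 1 0 p = ![p, pure 0, p] := by
  funext i; fin_cases i <;> simp [dir, α, β, sc_one, sc_zero]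

omit h in
lemma d1m (p : B) : dir α β 1 (-1) p = ![p, sc (-1) p, pure 0] := by
  funext i; fin_cases i <;> simp [dir, α, β, sc_one, sc_zero]

lemma posM {V : B} (hV : V + u = V) : Pos V := hV ▸ h.hpos.add V

lemma claimA {j : Fin 3 → B} (hj : j ∈ closure (gen α β u)) (j0 : j 0 = u) (j1 : j 1 = u)
    (j2 : sc 2 u + j 2 = j 2) : Eqv ω (j 2) u := by
  refine eqv_of_pure fun t => ?_
  by_contra hc
  have hs := star h h.hpos (pure t)
  rw [h.huu] at hs
  have hc' : col ω (pure t + j 2) = col ω (pure t + sc 2 u) := by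
    rw [hs]; exact Bool.eq_not.2 hc
  set A : Set ℤ := {n | ω n = col ω (pure t + sc 2 u)} with hA
  obtain ⟨a, ha, hb⟩ := seq {V | V + u = V ∧ A ∈ pure t + sc 2 V ∧ A ∈ pure t + (sc 2 V + j 2)}
    (fun V hV => posM h hV.1)
    ⟨u, h.huu, col_mem _ _, by rw [j2, hA, ← hc']; exact col_mem _ _⟩ A t (by
      rintro V ⟨hV, g1, g2⟩ D hD
      have hg := J_ideal α β u _ (dir_mem α β 1 1 V) _ hj
      have o : ∀ (i : Fin 3) (S : Set ℤ) (f : B → B), Continuous f →
          IsOpen {w : Fin 3 → B | S ∈ f (w i)} := fun i S f hf =>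
        (ultrafilter_isOpen_basic S).preimage (hf.comp (continuous_apply i))
      have c1 : Continuous fun p : B => pure t + sc 2 p := (cont_pure_add t).comp (cont_map _)
      have c2 : Continuous fun p : B => pure t + (sc 2 p + j 2) :=
        (cont_pure_add t).comp ((cont_add _).comp (cont_map _))
      have e0 : (dir α β 1 1 V + j) 0 = V := by rw [Pi.add_apply, j0, d11]; exact hV
      have e1 : (dir α β 1 1 V + j) 1 = V := by rw [Pi.add_apply, j1, d11]; exact hV
      have e2 : (dir α β 1 1 V + j) 2 = sc 2 V + j 2 := by rw [Pi.add_apply, d11]; rfl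
      obtain ⟨_, ⟨k0, k1, k2, k3, k4, k5⟩, a, V', hV', rfl⟩ := mem_closure_iff.1 hg _
        ((o 0 D id continuous_id).inter ((o 0 A _ c1).inter ((o 1 D id continuous_id).inter
          ((o 1 A _ c1).inter ((o 1 A _ c2).inter (o 2 A _ (cont_pure_add t)))))))
        (by
          simp only [Set.mem_inter_iff, Set.mem_ofPred_eq, e0, e1, e2, id]
          exact ⟨hD, g1, hD, g1, g2, g2⟩)
      have f0 : (φ α β a 0 + dir α β 0 1 V') 0 = pure a := by
        rw [Pi.add_apply, d01]; simp [φ, α, β, add_zero']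
      have f1 : (φ α β a 0 + dir α β 0 1 V') 1 = V' := by
        rw [Pi.add_apply, d01]; simp [φ, α, β, zero_add']
      have f2 : (φ α β a 0 + dir α β 0 1 V') 2 = pure a + V' := by
        rw [Pi.add_apply, d01]; simp [φ, α, β]
      simp only [Set.mem_ofPred_eq, f0, f1, f2, id] at k0 k1 k2 k3 k4 k5
      refine ⟨a, k0, ?_, V', ⟨hV', k3, k4⟩, k2, ?_⟩
      · rw [add_comm]; exact k1
      · simp only [add_comm _ t]; exact k5)
  exact h.hno t _ a ha hb

/-- the basic relation -/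
def Rel (ω : ℤ → Bool) (u s s' : B) : Prop := s + u = s ∧ s' + u = s' ∧ Eqv ω (u + s) (u + s')

def L (u : B) : Set (Fin 3 → B) := closure (gen α β u) ∩ {j | j 0 + u = j 0}

omit h in
lemma Lc : IsClosed (L u) := isClosed_closure.inter
  (isClosed_eq ((cont_add u).comp (continuous_apply 0)) (continuous_apply 0))

omit h in
lemma Li : ∀ e ∈ E α β, ∀ j ∈ L u, e + j ∈ L u := fun e he j hj =>
  ⟨J_ideal α β u e he j hj.1, by
    have : j 0 + u = j 0 := hj.2
    simp only [Set.mem_ofPred_eq, Pi.add_apply, add_assoc, this]⟩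

omit h in
lemma L1 {j : Fin 3 → B} (hj : j ∈ L u) : j 1 + u = j 1 := by
  simpa [β, sc_one] using J_coord α β u hj.1 1

omit h in
lemma L2 {j : Fin 3 → B} (hj : j ∈ L u) : j 2 + u = j 2 := by
  simpa [β, sc_one] using J_coord α β u hj.1 2

omit h in
lemma Eqv.left {s s' : B} (e : Eqv ω s s') (r : B) : Eqv ω (r + s) (r + s') := fun q => by
  rw [← add_assoc, ← add_assoc]; exact e _

lemma R_sub {w w' : Fin 3 → B} (hw : w ∈ L u) (hw' : w' ∈ L u) (h0 : w 0 = w' 0)
    (h1 : w 1 = w' 1) : Rel ω u (w 2) (w' 2) := by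
  have huu := h.huu
  have hu := h.hu
  have hηη : dir α β 1 1 u + dir α β 1 1 u = dir α β 1 1 u := by rw [← dir_add, huu]
  have hc : IsClosed (E α β ∩ {e | e 2 + u = e 2}) := isClosed_closure.inter
    (isClosed_eq ((cont_add u).comp (continuous_apply 2)) (continuous_apply 2))
  obtain ⟨_, ⟨e, ⟨he, he2⟩, rfl⟩, hl⟩ := mem_ideal α β
    (L := (fun e => e + w) '' (E α β ∩ {e | e 2 + u = e 2}))
    (hc.isCompact.image (contW _)).isClosed
    ⟨_, dir α β 0 1 u, ⟨dir_mem α β _ _ _, by simp [d01, huu]⟩, rfl⟩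
    (by rintro _ ⟨x, hx, rfl⟩; exact E_add α β _ hx.1 _ (J_sub α β u hw.1))
    (by
      rintro e he _ ⟨x, hx, rfl⟩
      refine ⟨e + x, ⟨E_add α β _ he _ hx.1, ?_⟩, add_assoc _ _ _⟩
      have : x 2 + u = x 2 := hx.2
      simp only [Set.mem_ofPred_eq, Pi.add_apply, add_assoc, this])
    (dir_mem α β 1 1 u) hηη (by
      intro i
      rw [d11]
      fin_cases i
      exacts [hu, hu, hu.sc (by norm_num)])
  have he2' : e 2 + u = e 2 := he2
  have a0 : e 0 + w 0 = u := by
    have := congrFun hl 0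
    simp only [Pi.add_apply, d11, Matrix.cons_val_zero, add_assoc] at this
    rwa [show w 0 + u = w 0 from hw.2] at this
  have a1 : e 1 + w 1 = u := by
    have := congrFun hl 1
    simp only [Pi.add_apply, d11, Matrix.cons_val_one, Matrix.cons_val_zero, add_assoc] at this
    rwa [L1 hw] at this
  have key : ∀ x ∈ L u, x 0 = w 0 → x 1 = w 1 → Eqv ω (sc 2 u + (e 2 + x 2)) u := by
    intro x hx x0 x1
    have := claimA h (Li _ (dir_mem α β 1 1 u) _ (Li _ he _ hx)).1
      (by simp only [Pi.add_apply, d11, x0, a0]; exact huu)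
      (by simp only [Pi.add_apply, d11, x1, a1]; exact huu)
      (by
        simp only [Pi.add_apply, d11]
        change sc 2 u + (sc 2 u + _) = sc 2 u + _
        rw [← add_assoc, ← sc_add, huu])
    simp only [Pi.add_apply, d11] at this
    exact this
  obtain ⟨t, ht⟩ := hu (sc 2 u + e 2)
  rw [add_assoc, add_assoc, he2'] at ht
  refine ⟨L2 hw, L2 hw', fun q => ?_⟩
  have k1 := key w hw rfl rfl (q + t)
  have k2 := key w' hw' h0.symm h1.symm (q + t)
  rw [add_assoc, ← add_assoc (sc 2 u), ← add_assoc t, ht] at k1 k2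
  rw [k1, k2]

lemma R_idem {s v : B} (hs : s + u = s) (hv : v + v = v) :
    ∃ w ∈ L u, ∃ w' ∈ L u, w 0 = w' 0 ∧ w 1 = w' 1 ∧ w 2 = s ∧ w' 2 = v + s := by
  have huu := h.huu
  have hu := h.hu
  obtain ⟨ε, hεE, hεζ, hε2, hε⟩ := exists_eps α β (dir_mem α β 1 (-1) u)
    (by rw [← dir_add, huu]) 2 (by simp [d1m]) (dir_mem α β 0 1 v) (by simp [d01, hv])
  have e2 : ε 2 = v := by simpa [d01] using hε2
  have e0 : u + ε 0 = u := hu.absorb (congrFun hε 0) (by
    have := congrFun hεζ 0; simp only [Pi.add_apply] at this; simpa [d1m] using this)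
  have e1 : sc (-1) u + ε 1 = sc (-1) u := (hu.sc (by norm_num)).absorb (congrFun hε 1) (by
    have := congrFun hεζ 1; simp only [Pi.add_apply] at this; simpa [d1m] using this)
  have hx : dir α β 1 0 s + (φ α β 0 0 + dir α β 0 1 u) ∈ L u := by
    refine ⟨J_ideal α β u _ (dir_mem α β _ _ _) _ (subset_closure ⟨0, u, huu, rfl⟩), ?_⟩
    simp only [Set.mem_ofPred_eq, Pi.add_apply]
    simp [d10, d01, φ, add_zero', hs]
  have hx2 : (dir α β 1 0 s + (φ α β 0 0 + dir α β 0 1 u)) 2 = s := by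
    simp only [Pi.add_apply]
    simp [d10, d01, φ, zero_add', hs]
  generalize dir α β 1 0 s + (φ α β 0 0 + dir α β 0 1 u) = x at hx hx2
  refine ⟨_, Li _ (dir_mem α β 1 (-1) u) _ hx, _, Li _ (dir_mem α β 1 (-1) u) _ (Li _ hεE _ hx),
    ?_, ?_, ?_, ?_⟩
  · simp only [Pi.add_apply, d1m]
    change u + _ = u + _
    rw [← add_assoc, e0]
  · simp only [Pi.add_apply, d1m]
    change sc (-1) u + _ = sc (-1) u + _
    rw [← add_assoc, e1]
  · simp only [Pi.add_apply, d1m, hx2]
    exact zero_add' _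
  · simp only [Pi.add_apply, d1m, hx2, e2]
    exact zero_add' _

lemma rel_idem {s v : B} (hs : s + u = s) (hv : v + v = v) : Rel ω u s (v + s) := by
  obtain ⟨w, hw, w', hw', h0, h1, h2, h3⟩ := R_idem h hs hv
  rw [← h3, ← h2]
  exact R_sub h hw hw' h0 h1

lemma exists_fix {s : B} (hs : s + u = s) : ∃ v : B, v + u = v ∧ v + s = s ∧ v + v = v := by
  obtain ⟨t, ht⟩ := h.hu.of_eq hs u
  obtain ⟨v, ⟨h2, h3⟩, h4⟩ := exists_idempotent_in_compact_add_subsemigroup cont_add
    ({p : B | p + u = p} ∩ {p | p + s = s})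
    ⟨t + u, by simp only [Set.mem_ofPred_eq, add_assoc, h.huu], ht⟩
    ((isClosed_eq (cont_add _) continuous_id).inter
      (isClosed_eq (cont_add _) continuous_const)).isCompact (by
      rintro x ⟨-, hx⟩ y ⟨hy, hy'⟩
      simp only [Set.mem_ofPred_eq, Set.mem_inter_iff] at *
      exact ⟨by rw [add_assoc, hy], by rw [add_assoc, hy', hx]⟩)
  exact ⟨v, h2, h3, h4⟩

omit h in
lemma Rel.eqv {s s' v : B} (r : Rel ω u s s') (hv : v + u = v) : Eqv ω (v + s) (v + s') := by
  have := r.2.2.left v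
  rwa [← add_assoc, ← add_assoc, hv] at this

omit h in
lemma Rel.symm {s s' : B} (r : Rel ω u s s') : Rel ω u s' s := ⟨r.2.1, r.1, fun q => (r.2.2 q).symm⟩

omit h in
lemma Rel.trans {s s' s'' : B} (r : Rel ω u s s') (r' : Rel ω u s' s'') : Rel ω u s s'' :=
  ⟨r.1, r'.2.1, fun q => (r.2.2 q).trans (r'.2.2 q)⟩

omit h in
lemma Rel.pure {s s' : B} (r : Rel ω u s s') (c : ℤ) : Rel ω u (pure c + s) (pure c + s') := by
  refine ⟨by rw [add_assoc, r.1], by rw [add_assoc, r.2.1], ?_⟩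
  rw [← add_assoc, ← add_assoc, ← pure_comm, add_assoc, add_assoc]
  exact r.2.2.left _

lemma rel_closed : IsClosed {x : B × B | Rel ω u x.1 x.2} := by
  let K : Set ((Fin 3 → B) × (Fin 3 → B) × B) := {y | y.1 ∈ L u} ∩ ({y | y.2.1 ∈ L u} ∩
    ({y | y.1 0 = y.2.1 0} ∩ ({y | y.1 1 = y.2.1 1} ∩ ({y | y.2.2 + u = y.2.2} ∩
      ⋂ t : ℤ, {y | col ω (pure t + y.2.1 2) = col ω (pure t + y.2.2)}))))
  have hK : IsClosed K := by
    refine (Lc.preimage continuous_fst).inter ((Lc.preimage (by fun_prop)).inter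
      ((isClosed_eq (by fun_prop) (by fun_prop)).inter
        ((isClosed_eq (by fun_prop) (by fun_prop)).inter
          ((isClosed_eq ((cont_add u).comp (by fun_prop)) (by fun_prop)).inter
            (isClosed_iInter fun t => isClosed_eq ?_ ?_)))))
    · exact (col_cont ω).comp ((cont_pure_add t).comp (by fun_prop))
    · exact (col_cont ω).comp ((cont_pure_add t).comp (by fun_prop))
  have : {x : B × B | Rel ω u x.1 x.2} = (fun y => (y.1 2, y.2.2)) '' K := by
    ext ⟨s, s'⟩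
    constructor
    · intro r
      obtain ⟨v, hv1, hv2, hv3⟩ := exists_fix h r.2.1
      obtain ⟨w, hw, w', hw', h0, h1, h2, h3⟩ := R_idem h r.1 hv3
      refine ⟨(w, w', s'), ⟨hw, hw', h0, h1, r.2.1, Set.mem_iInter.2 fun t => ?_⟩, by simp [h2]⟩
      have := Rel.eqv r hv1 (pure t)
      simp only at this
      rw [hv2] at this
      simpa only [Set.mem_ofPred_eq, h3] using this
    · rintro ⟨⟨w, w', s''⟩, ⟨hw, hw', h0, h1, h2, h3⟩, h4⟩
      obtain ⟨rfl, rfl⟩ := Prod.mk.inj h4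
      exact (R_sub h hw hw' h0 h1).trans
        ⟨L2 hw', h2, (eqv_of_pure (Set.mem_iInter.1 h3)).left u⟩
  rw [this]
  exact (hK.isCompact.image (by fun_prop)).isClosed

lemma Rel.left {s s' : B} (r : Rel ω u s s') (q : B) : Rel ω u (q + s) (q + s') :=
  denseRange_pure.induction_on q
    ((rel_closed h).preimage ((cont_add s).prodMk (cont_add s'))) r.pure

lemma rel_lim {ι : Type*} {l : Filter ι} [l.NeBot] {f g : ι → B} {s s' : B}
    (hf : Tendsto f l (𝓝 s)) (hg : Tendsto g l (𝓝 s')) (r : ∀ᶠ i in l, Rel ω u (f i) (g i)) :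
    Rel ω u s s' :=
  (rel_closed h).mem_of_tendsto (hf.prodMk_nhds hg) r

lemma rel_two {r : B} : Rel ω u (sc 2 r + u) (r + (r + u)) := by
  have hr : r + u + u = r + u := by rw [add_assoc, h.huu]
  refine Rel.trans (s' := r + (u + (r + u)))
    ⟨by rw [add_assoc, h.huu], by simp only [add_assoc, h.huu], fun q => ?_⟩
    (Rel.left h (rel_idem h hr h.huu).symm r)
  have a1 := star h (h.hpos.add r) (q + u)
  have a2 := star h h.hpos (q + u + sc 2 r)
  simp only [sc_add, add_assoc, h.huu] at a1 a2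
  rw [a1] at a2
  exact (Bool.not_inj a2).symm

end Pool.Agent.Lib.helper26.Owings
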