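import Mathlib
import Pool.Agent.Lib.helper26.OwA

set_option autoImplicit false

namespace Pool.Agent.Lib.helper26.Owings

open Filter Topology BetaZ Forms

attribute [local instance] Ultrafilter.add Ultrafilter.addSemigroup

lemma pp (a b : ℤ) (x : B) : (pure a : B) + (pure b + x) = pure (a + b) + x := by
  rw [← add_assoc, pure_pure]

lemma tp (p : B) : Tendsto (pure : ℤ → B) p (𝓝 p) := Ultrafilter.tendsto_pure_self p

def K (ω : ℤ → Bool) (u : B) (k : ℤ) (ε : Bool) : Set B :=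
  {q | ∃ s, Rel ω u s (q + u) ∧
    ∀ i ∈ Finset.Icc (-k) k, col ω (pure i + q) = xor ε (col ω (pure i + s))}

lemma cc (ω : ℤ → Bool) (i : ℤ) : Continuous fun x : B => col ω (pure i + x) :=
  (col_cont ω).comp (cont_pure_add i)

variable {ω : ℤ → Bool} {u : B} (h : H ω u)
include h

lemma K_closed (k : ℤ) (ε : Bool) : IsClosed (K ω u k ε) := by
  let S : Set (B × B) := {y | Rel ω u y.2 (y.1 + u)} ∩
    ⋂ i ∈ Finset.Icc (-k) k, {y | col ω (pure i + y.1) = xor ε (col ω (pure i + y.2))}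
  have hS : IsClosed S := by
    refine ((rel_closed h).preimage
      (continuous_snd.prodMk ((cont_add u).comp continuous_fst))).inter
      (isClosed_biInter fun i _ => isClosed_eq ((cc ω i).comp continuous_fst) ?_)
    exact (continuous_of_discreteTopology (f := fun b : Bool => xor ε b)).comp
      ((cc ω i).comp continuous_snd)
  have : K ω u k ε = Prod.fst '' S := by
    ext q
    constructor
    · rintro ⟨s, h1, h2⟩
      exact ⟨(q, s), ⟨h1, Set.mem_iInter₂.2 h2⟩, rfl⟩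
    · rintro ⟨⟨q, s⟩, ⟨h1, h2⟩, rfl⟩
      exact ⟨s, h1, Set.mem_iInter₂.1 h2⟩
  rw [this]
  exact (hS.isCompact.image continuous_fst).isClosed

lemma double {k : ℤ} {ε : Bool} {p : B} (hp : Pos p) (t : ℤ)
    (hK : ∀ a : ℤ, pure (a + t) + p ∈ K ω u k ε) :
    ∀ᶠ a in (p : Filter ℤ), pure (2 * a + t) ∈ K ω u k (!ε) := by
  choose s hs1 hs2 using hK
  choose v hv1 hv2 hv3 using fun a => exists_fix h (hs1 a).1
  obtain ⟨q, hq⟩ := exlim p fun a => pure a + v a
  have hvu : ∀ a, Rel ω u (v a) u := fun a => by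
    have := (rel_idem h h.huu (hv3 a)).symm
    rwa [hv1] at this
  have hqp : Rel ω u q (p + u) := rel_lim h hq (((cont_add u).tendsto p).comp (tp p))
    (Eventually.of_forall fun a => (hvu a).pure a)
  have key : ∀ i ∈ Finset.Icc (-k) k, ∀ᶠ a in (p : Filter ℤ),
      col ω (pure i + pure (2 * a + t)) =
        xor (!ε) (col ω (pure i + (pure (2 * a + t) + v a))) := by
    intro i hi
    have e1 : ∀ a, col ω (pure (i + t) + (pure a + p)) =
        xor ε (col ω (pure (i + t) + (pure a + v a + q))) := fun a => by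
      have r : Rel ω u (s a) (pure (a + t) + q) :=
        (hs1 a).trans (by rw [add_assoc]; exact hqp.symm.pure _)
      have a1 := r.eqv (hv1 a) (pure i)
      rw [hv2, ← add_assoc (v a), ← pure_comm, add_assoc, pp] at a1
      have a2 := hs2 a i hi
      rw [a1, pp] at a2
      rw [add_assoc (pure a), pp, pp, add_assoc i, add_comm t]
      exact a2
    obtain ⟨a, b1, b2⟩ := ((ev (tp p) ((cc ω (i + t)).comp (cont_add p))).and
      (ev hq ((cc ω (i + t)).comp (cont_add q)))).exists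
    simp only [Function.comp] at b1 b2
    have e2 := e1 a
    rw [b1, b2] at e2
    have s1 := star h hp (pure (i + t))
    have s2 := star h (posM h hqp.1) (pure (i + t))
    filter_upwards [ev (tp p) ((cc ω (i + t)).comp (cont_map (2 * ·))),
      ev hq ((cc ω (i + t)).comp (cont_map (2 * ·)))] with a c1 c2
    change col ω (pure (i + t) + sc 2 _) = col ω (pure (i + t) + sc 2 _) at c1 c2
    have s3 := star h (posM h (hv1 a)) (pure (i + t) + pure (2 * a))
    rw [hv3, add_assoc, pure_pure] at s3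
    rw [sc_add, sc_pure, s3, s2] at c2
    rw [sc_pure, s1, e2, ← Bool.not_inj c2, pure_pure] at c1
    rw [pp, pure_pure, show i + (2 * a + t) = i + t + 2 * a by ring, c1]
    cases ε <;> simp
  filter_upwards [(Filter.eventually_all_finset _).2 key] with a ha
  exact ⟨_, (hvu a).pure _, ha⟩

lemma disj : ∃ k : ℤ, ∀ q, q ∈ K ω u k false → q ∈ K ω u k true → False := by
  by_contra hc
  push Not at hc
  choose q h0 h1 _ using hc
  choose s a0 b0 using h0
  choose s' a1 b1 using h1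
  obtain ⟨σ, hσ⟩ := exlim u s
  obtain ⟨σ', hσ'⟩ := exlim u s'
  have r : Rel ω u σ σ' := rel_lim h hσ hσ' (Eventually.of_forall fun k => (a0 k).trans (a1 k).symm)
  have ne := ne_of_pure (ω := ω) (s := σ) (s' := σ') (fun i => by
    obtain ⟨k, c1, c2, c3⟩ := ((ev hσ (cc ω i)).and ((ev hσ' (cc ω i)).and
      (show ∀ᶠ k in (u : Filter ℤ), |i| < k from h.hpos _))).exists
    have hi : i ∈ Finset.Icc (-k) k := Finset.mem_Icc.2 (abs_le.1 c3.le)
    have d0 := b0 k i hi
    rw [b1 k i hi, c1, c2] at d0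
    simpa using d0.symm) (u + u)
  have := r.2.2 u
  rw [← add_assoc, ← add_assoc, ne] at this
  simp at this

lemma Cprop (k : ℤ) (ε : Bool) (t : ℤ) : ∀ᶠ C : ℤ in atTop, ∀ n : ℤ, C ≤ n →
    (∀ d : ℤ, |d| ≤ C → pure (n + d) ∈ K ω u k ε) → pure (2 * n + t) ∈ K ω u k (!ε) := by
  suffices ∃ C : ℤ, ∀ n : ℤ, C ≤ n →
      (∀ d : ℤ, |d| ≤ C → pure (n + d) ∈ K ω u k ε) → pure (2 * n + t) ∈ K ω u k (!ε) by
    obtain ⟨C, hC⟩ := this
    exact eventually_atTop.2 ⟨C, fun C' hC' n hn hd =>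
      hC n (hC'.trans hn) fun d hd' => hd d (hd'.trans hC')⟩
  by_contra hc
  push Not at hc
  choose n h1 h2 h3 using hc
  have hp : Pos (u.map n) := fun c => by
    change {C | c < n C} ∈ u
    exact Filter.mem_of_superset (h.hpos c) fun C hC => lt_of_lt_of_le hC (h1 C)
  have := double h hp t (k := k) (ε := ε) fun a => by
    refine (K_closed h k ε).mem_of_tendsto
      (((cont_pure_add (a + t)).tendsto _).comp (tp (u.map n))) ?_
    rw [Ultrafilter.coe_map, Filter.eventually_map]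
    filter_upwards [h.hpos |a + t|] with C hC
    rw [Function.comp_apply, pure_pure, add_comm]
    exact h2 C _ (le_of_lt hC)
  rw [Ultrafilter.coe_map, Filter.eventually_map] at this
  obtain ⟨C, hC⟩ := this.exists
  exact h3 C hC

omit h in
lemma thick {k : ℤ} {w : B} (hw : w + w = w) (hwu : w + u = u)
    (hK : ∀ t : ℤ, pure t + w ∈ K ω u k false) (t : ℤ) :
    ∀ᶠ n in (w : Filter ℤ), pure (n + t) ∈ K ω u k false := by
  have key : ∀ i ∈ Finset.Icc (-k) k, ∀ᶠ n in (w : Filter ℤ),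
      col ω (pure i + pure (n + t)) = col ω (pure i + (pure (n + t) + w)) := by
    intro i _
    filter_upwards [ev (tp w) (cc ω (i + t)), ev (tp w) ((cc ω (i + t)).comp (cont_add w))]
      with n c1 c2
    simp only [Function.comp] at c2
    rw [hw, ← c1, pp, pure_pure] at c2
    rw [pp, pure_pure, show i + (n + t) = i + t + n by ring, c2]
  filter_upwards [(Filter.eventually_all_finset _).2 key] with n hn
  obtain ⟨s, a1, a2⟩ := hK (n + t)
  rw [add_assoc, hwu] at a1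
  exact ⟨s, a1, fun i hi => (hn i hi).trans (a2 i hi)⟩

omit h in
lemma M_sub {k : ℤ} {s : B} (hs : s + u = s) : s ∈ K ω u k false :=
  ⟨s, by rw [hs]; exact ⟨hs, hs, fun _ => rfl⟩, fun i _ => by simp⟩

def Run (ω : ℤ → Bool) (u : B) (k : ℤ) (ε : Bool) (n L : ℤ) : Prop :=
  ∀ d ∈ Finset.Ico 0 L, pure (n + d) ∈ K ω u k ε

lemma exists_p {k : ℤ} (hk : ∀ q, q ∈ K ω u k false → q ∈ K ω u k true → False) (m : ℤ)
    (hm : 0 < m) : ∃ p : B, Pos p ∧ (∀ᶠ n in (p : Filter ℤ), Run ω u k false n m) ∧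
      ∀ s, 0 < s → ∀ᶠ n in (p : Filter ℤ), ¬ Run ω u k false (n + s) m := by
  have hM : ∀ t : ℤ, pure t + u ∈ K ω u k false := fun t => M_sub (by rw [add_assoc, h.huu])
  have r0 : ∀ᶠ n in (u : Filter ℤ), Run ω u k false n m :=
    (Filter.eventually_all_finset _).2 fun d _ => thick h.huu h.huu hM d
  have r1 : ∀ L, ∀ᶠ n in (u : Filter ℤ), Run ω u k true (2 * n) L := fun L =>
    (Filter.eventually_all_finset _).2 fun d _ => double h h.hpos d fun a => hM _
  have key : ∀ j : ℤ, ∃ b, j < b ∧ Run ω u k false b m ∧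
      ∀ s, 0 < s → s ≤ j → ¬ Run ω u k false (b + s) m := by
    intro j
    obtain ⟨b0, a1, a2⟩ := (r0.and (h.hpos j)).exists
    obtain ⟨n, a3, a4⟩ := ((r1 (j + 1)).and (h.hpos |b0|)).exists
    have a5 : b0 ≤ 2 * n := by
      have := le_abs_self b0
      have := abs_nonneg b0
      omega
    obtain ⟨b, ⟨b1, b2⟩, b3⟩ := Int.exists_greatest_of_bdd
      (P := fun b => b ≤ 2 * n ∧ Run ω u k false b m) ⟨2 * n, fun z hz => hz.1⟩ ⟨b0, a5, a1⟩
    refine ⟨b, lt_of_lt_of_le a2 (b3 _ ⟨a5, a1⟩), b2, fun s s1 s2 hr => ?_⟩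
    by_cases hs : b + s ≤ 2 * n
    · have := b3 _ ⟨hs, hr⟩
      omega
    · have c1 := hr 0 (Finset.mem_Ico.2 ⟨le_rfl, hm⟩)
      have c2 := a3 (b + s - 2 * n) (Finset.mem_Ico.2 ⟨by omega, by omega⟩)
      rw [add_zero] at c1
      rw [add_sub_cancel] at c2
      exact hk _ c1 c2
  choose b b1 b2 b3 using key
  refine ⟨u.map b, fun c => ?_, Eventually.of_forall (f := (u : Filter ℤ)) b2, fun s hs => ?_⟩
  · change {C | c < b C} ∈ u
    exact Filter.mem_of_superset (h.hpos c) fun C hC => lt_trans hC (b1 C)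
  · change ∀ᶠ j in (u : Filter ℤ), ¬ Run ω u k false (b j + s) m
    filter_upwards [h.hpos s] with j hj
    exact b3 j s hs (le_of_lt hj)

def St (ω : ℤ → Bool) (u : B) (k : ℤ) (r q : B) (ε : Bool) (L : ℤ) : Prop :=
  Pos r ∧ (∀ V : B, col ω (V + r) = xor ε (col ω (V + q))) ∧ Rel ω u (r + u) (q + u) ∧
    ∃ o : ℤ, ∀ᶠ n in (r : Filter ℤ), Run ω u k ε (n + o) L

lemma St.step {k C : ℤ} (hC : ∀ ε, ∀ t ∈ Finset.Ico (0 : ℤ) 2, ∀ n : ℤ, C ≤ n →
      (∀ d : ℤ, |d| ≤ C → pure (n + d) ∈ K ω u k ε) → pure (2 * n + t) ∈ K ω u k (!ε))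
    {r q : B} {ε : Bool} {L : ℤ} (hL : 4 * C + 1 ≤ L) (s : St ω u k r q ε L) :
    St ω u k (sc 2 r) (r + q) (!ε) (L + 1) := by
  obtain ⟨s1, s2, s3, o, s4⟩ := s
  refine ⟨s1.two, fun V => ?_, ?_, 2 * o + 2 * C, ?_⟩
  · rw [star h s1, ← add_assoc, s2, add_assoc]
    cases ε <;> simp
  · rw [add_assoc]
    exact (rel_two h).trans (Rel.left h s3 r)
  · change ∀ᶠ n in (r : Filter ℤ), Run ω u k (!ε) (2 * n + (2 * o + 2 * C)) (L + 1)
    filter_upwards [s4, s1 (-o)] with n h1 h2 d hd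
    rw [Finset.mem_Ico] at hd
    have := hC ε (d % 2) (Finset.mem_Ico.2 ⟨by omega, by omega⟩) (n + o + C + d / 2) (by omega)
      fun e he => by
        rw [abs_le] at he
        have := h1 (C + d / 2 + e) (Finset.mem_Ico.2 ⟨by omega, by omega⟩)
        rwa [show n + o + (C + d / 2 + e) = n + o + C + d / 2 + e by ring] at this
    rwa [show 2 * (n + o + C + d / 2) + d % 2 = 2 * n + (2 * o + 2 * C) + d by omega] at this

lemma St.out {k : ℤ} {r q : B} {ε : Bool} {L : ℤ} (s : St ω u k r q ε L) :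
    ∃ o : ℤ, ∀ d ∈ Finset.Ico 0 L, pure (o + d) + q ∈ K ω u k false := by
  obtain ⟨-, s2, s3, o, s4⟩ := s
  refine ⟨o, fun d hd => ?_⟩
  obtain ⟨s, a1, a2⟩ : pure (o + d) + r ∈ K ω u k ε := by
    refine (K_closed h k ε).mem_of_tendsto (b := (r : Filter ℤ))
      (((cont_pure_add (o + d)).tendsto _).comp (tp _)) ?_
    filter_upwards [s4] with n hn
    have := hn d hd
    rw [add_assoc, add_comm, ← pure_pure] at this
    exact this
  refine ⟨s, a1.trans (by rw [add_assoc, add_assoc]; exact s3.pure _), fun i hi => ?_⟩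
  have := a2 i hi
  rw [← add_assoc, s2, add_assoc] at this
  revert this
  cases ε <;> simp

theorem contra : False := by
  obtain ⟨k, hk⟩ := disj h
  obtain ⟨C, hC0, hC⟩ := ((eventually_ge_atTop (0 : ℤ)).and (eventually_all.2 fun ε : Bool =>
    (Filter.eventually_all_finset (Finset.Ico (0 : ℤ) 2)).2 fun t _ => Cprop h k ε t)).exists
  obtain ⟨p, p1, p2, p3⟩ := exists_p h hk (4 * C + 1) (by omega)
  let Z : Set B := {q | ∀ s : ℤ, {n | ¬ Run ω u k false (n + s) (4 * C + 1)} ∈ q}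
  have Zc : IsClosed Z := by
    simp only [Z, Set.ofPred_forall]
    exact isClosed_iInter fun n => ultrafilter_isClosed_basic _
  have Zi : ∀ r : B, ∀ q ∈ Z, r + q ∈ Z := fun r q hq s => by
    rw [mem_add]
    refine Filter.univ_mem' fun a => Filter.mem_of_superset (hq (a + s)) fun b hb => ?_
    simp only [Set.mem_ofPred_eq] at hb ⊢
    rwa [show a + b + s = b + (a + s) by ring]
  have Zp : p + p ∈ Z := fun s => by
    rw [mem_add]
    refine Filter.mem_of_superset (p1 (-s)) fun a ha =>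
      Filter.mem_of_superset (p3 (a + s) (by simp only [Set.mem_ofPred_eq] at ha; omega))
        fun b hb => ?_
    simp only [Set.mem_ofPred_eq] at hb ⊢
    rwa [show a + b + s = b + (a + s) by ring]
  have ind : ∀ j : ℕ, ∃ r q ε, q ∈ Z ∧ St ω u k r q ε (4 * C + 1 + j + 1) := by
    intro j
    induction j with
    | zero =>
      have hpu : p + u + u = p + u := by rw [add_assoc, h.huu]
      refine ⟨_, _, _, Zp, St.step h hC (ε := false) (by omega)
        ⟨p1, fun V => by simp, ⟨hpu, hpu, fun _ => rfl⟩, 0, ?_⟩⟩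
      simpa using p2
    | succ j ih =>
      obtain ⟨r, q, ε, a1, a2⟩ := ih
      refine ⟨sc 2 r, r + q, !ε, Zi r q a1, ?_⟩
      have := St.step h hC (by omega) a2
      rwa [show 4 * C + 1 + (j : ℤ) + 1 + 1 = 4 * C + 1 + ((j + 1 : ℕ) : ℤ) + 1 by push_cast; ring]
        at this
  have lng : ∀ j : ℤ, ∃ q ∈ Z, ∀ t : ℤ, |t| < j → pure t + q ∈ K ω u k false := by
    intro j
    obtain ⟨r, q, ε, a1, a2⟩ := ind (2 * j).toNat
    obtain ⟨o, ho⟩ := St.out h a2
    refine ⟨pure (o + j) + q, Zi _ _ a1, fun t ht => ?_⟩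
    rw [abs_lt] at ht
    have := ho (j + t) (Finset.mem_Ico.2 ⟨by omega, by omega⟩)
    rwa [pp, show t + (o + j) = o + (j + t) by ring]
  choose f f1 f2 using lng
  obtain ⟨q, hq⟩ := exlim u f
  obtain ⟨Z', hZ'⟩ : ∃ Z' : Set B, ∀ q, q ∈ Z' ↔ q ∈ Z ∧ ∀ t : ℤ, pure t + q ∈ K ω u k false :=
    ⟨{q | q ∈ Z ∧ ∀ t : ℤ, pure t + q ∈ K ω u k false}, fun _ => Iff.rfl⟩
  have Zc' : IsClosed Z' := by
    have : Z' = Z ∩ ⋂ t : ℤ, (fun q : B => pure t + q) ⁻¹' K ω u k false := by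
      ext q
      rw [hZ', Set.mem_inter_iff, Set.mem_iInter]
      rfl
    rw [this]
    exact Zc.inter (isClosed_iInter fun t => (K_closed h k false).preimage (cont_pure_add t))
  have Zi' : ∀ r : B, ∀ q ∈ Z', r + q ∈ Z' := fun r q hq =>
    denseRange_pure.induction_on (p := fun r => r + q ∈ Z') r (Zc'.preimage (cont_add q))
      fun a => (hZ' _).2 ⟨Zi _ _ ((hZ' _).1 hq).1, fun t => by
        rw [pp]
        exact ((hZ' _).1 hq).2 _⟩
  have hq' : q ∈ Z' := by
    refine (hZ' _).2 ⟨Zc.mem_of_tendsto hq (Eventually.of_forall f1), fun t => ?_⟩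
    refine (K_closed h k false).mem_of_tendsto (((cont_pure_add t).tendsto _).comp hq) ?_
    filter_upwards [h.hpos |t|] with j hj
    exact f2 j t hj
  obtain ⟨t, ht⟩ := h.hu q
  obtain ⟨w, ⟨w1, w2⟩, w3⟩ := exists_idempotent_in_compact_add_subsemigroup cont_add
    (Z' ∩ {p | p + u = u}) ⟨t + q, Zi' _ _ hq', ht⟩
    (Zc'.inter (isClosed_eq (cont_add _) continuous_const)).isCompact (by
      rintro x ⟨-, hx⟩ y ⟨hy, hy'⟩
      simp only [Set.mem_ofPred_eq] at hx hy'
      exact ⟨Zi' _ _ hy, by simp only [Set.mem_ofPred_eq]; rw [add_assoc, hy', hx]⟩)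
  have r0 : ∀ᶠ n in (w : Filter ℤ), Run ω u k false n (4 * C + 1) :=
    (Filter.eventually_all_finset _).2 fun d _ => thick w3 w2 ((hZ' _).1 w1).2 d
  obtain ⟨n, n1, n2⟩ := (r0.and (((hZ' _).1 w1).1 0)).exists
  rw [add_zero] at n2
  exact n2 n1

omit h in
theorem main (ω : ℤ → Bool) : ∃ (t : ℤ) (χ : Bool) (a : ℕ → ℤ), StrictMono a ∧
    ∀ i j, i ≤ j → ω (a i + a j + t) = χ := by
  by_contra hc
  obtain ⟨u, h1, h2, h3⟩ := exists_min
  exact contra (ω := ω) ⟨h1, h2, h3, fun t χ a ha hb => hc ⟨t, χ, a, ha, hb⟩⟩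

end Pool.Agent.Lib.helper26.Owings
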