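import Pool.Agent.Lib.helper26.Arr3

/-! The additive three-pencil arrangement of nine lines. -/

set_option linter.unusedSectionVars false
set_option linter.unusedSimpArgs false

namespace Pool.Agent.H26Arr.PogA

open MvPolynomial Pool.Agent.H26Arr

variable {K : Type*} [Field K] [CharZero K]

def aA : Fin 9 → Fin 3 → ℤ :=
  ![![1, 0, 0], ![1, 0, -1], ![0, 1, 0], ![0, 1, -1], ![0, 1, -2],
    ![1, 1, 0], ![1, 1, -1], ![1, 1, -2], ![1, 1, -3]]

theorem aA_ne : ∀ i, aA i ≠ 0 := by decide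

noncomputable def Px (K : Type*) [Field K] : MvPolynomial (Fin 3) K :=
  ([![1, 0, 0], ![1, 0, -1]].map (lin K)).prod
noncomputable def Py (K : Type*) [Field K] : MvPolynomial (Fin 3) K :=
  ([![0, 1, 0], ![0, 1, -1], ![0, 1, -2]].map (lin K)).prod
noncomputable def Pw (K : Type*) [Field K] : MvPolynomial (Fin 3) K :=
  ([![1, 1, 0], ![1, 1, -1], ![1, 1, -2], ![1, 1, -3]].map (lin K)).prod
noncomputable def Pxy (K : Type*) [Field K] : MvPolynomial (Fin 3) K :=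
  ([![1, 0, 0], ![1, 0, -1], ![0, 1, 0], ![0, 1, -1], ![0, 1, -2]].map (lin K)).prod
noncomputable def gg (K : Type*) [Field K] : MvPolynomial (Fin 3) K :=
  ([![1, 0, -1], ![0, 1, -1], ![0, 1, -2], ![1, 1, -1], ![1, 1, -2], ![1, 1, -3]].map (lin K)).prod
noncomputable def f1 (K : Type*) [Field K] : MvPolynomial (Fin 3) K :=
  ([![1, 0, -1], ![0, 1, -1], ![0, 1, -2]].map (lin K)).prod
noncomputable def f2 (K : Type*) [Field K] : MvPolynomial (Fin 3) K :=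
  mpoly K [(-1, 2, 0, 0), (-3, 1, 1, 0), (6, 1, 0, 1), (1, 0, 2, 0), (-3, 0, 0, 2)]
noncomputable def G1 (K : Type*) [Field K] : MvPolynomial (Fin 3) K :=
  ([![0, 1, 0], ![0, 1, -1], ![0, 1, -2], ![4, 1, -3]].map (lin K)).prod

theorem Px_eq : Px K = X 0 * (X 0 - X 2) := by
  simp [Px, lin]; ring
theorem Py_eq : Py K = X 1 * (X 1 - X 2) * (X 1 - 2 * X 2) := by
  simp [Py, lin]; ring
theorem Pw_eq : Pw K = (X 0 + X 1) * (X 0 + X 1 - X 2) * (X 0 + X 1 - 2 * X 2)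
    * (X 0 + X 1 - 3 * X 2) := by
  simp [Pw, lin]; ring
theorem Pxy_eq : Pxy K = X 0 * (X 0 - X 2) * (X 1 * (X 1 - X 2) * (X 1 - 2 * X 2)) := by
  simp [Pxy, lin]; ring
theorem gg_eq : gg K = (X 0 - X 2) * (X 1 - X 2) * (X 1 - 2 * X 2) * (X 0 + X 1 - X 2)
    * (X 0 + X 1 - 2 * X 2) * (X 0 + X 1 - 3 * X 2) := by
  simp [gg, lin]; ring
theorem f1_eq : f1 K = (X 0 - X 2) * (X 1 - X 2) * (X 1 - 2 * X 2) := by
  simp [f1, lin]; ring
theorem f2_eq : f2 K = -X 0 ^ 2 - 3 * X 0 * X 1 + 6 * X 0 * X 2 + X 1 ^ 2 - 3 * X 2 ^ 2 := by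
  simp [f2, mpoly]; ring
theorem G1_eq : G1 K = X 1 * (X 1 - X 2) * (X 1 - 2 * X 2) * (4 * X 0 + X 1 - 3 * X 2) := by
  simp [G1, lin]; ring

/-- the basis of the free arrangement obtained by adding the line `z = 0` -/
noncomputable def th (K : Type*) [Field K] : Fin 3 → Fin 3 → MvPolynomial (Fin 3) K :=
  ![![X 0, X 1, X 2], ![Pw K - G1 K, G1 K, 0], ![Pxy K, -Pxy K, 0]]

noncomputable def ph (K : Type*) [Field K] : Fin 3 → MvPolynomial (Fin 3) K := ![0, 0, gg K]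

noncomputable def ff (K : Type*) [Field K] : Fin 3 → MvPolynomial (Fin 3) K :=
  ![-gg K, f1 K, f2 K]

noncomputable abbrev A (K : Type*) [Field K] : Finset (Submodule K (Fin 3 → K)) :=
  arr fun i t => ((aA i t : ℤ) : K)

theorem memA (θ : Fin 3 → MvPolynomial (Fin 3) K) : θ ∈ logDer (A K) ↔
    lin K ![1, 0, 0] ∣ θ 0 ∧ lin K ![1, 0, -1] ∣ θ 0 - θ 2 ∧
    lin K ![0, 1, 0] ∣ θ 1 ∧ lin K ![0, 1, -1] ∣ θ 1 - θ 2 ∧ lin K ![0, 1, -2] ∣ θ 1 - 2 * θ 2 ∧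
    lin K ![1, 1, 0] ∣ θ 0 + θ 1 ∧ lin K ![1, 1, -1] ∣ θ 0 + θ 1 - θ 2 ∧
    lin K ![1, 1, -2] ∣ θ 0 + θ 1 - 2 * θ 2 ∧ lin K ![1, 1, -3] ∣ θ 0 + θ 1 - 3 * θ 2 := by
  rw [mem_logDer_int aA aA_ne]
  simp only [Fin.forall_fin_succ, IsEmpty.forall_iff, and_true]
  simp [aA, sub_eq_add_neg]

theorem l0 : lin K ![1, 0, 0] = X 0 := by simp [lin]
theorem l1 : lin K ![1, 0, -1] = X 0 - X 2 := by simp [lin]; ring
theorem l2 : lin K ![0, 1, 0] = X 1 := by simp [lin]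
theorem l3 : lin K ![0, 1, -1] = X 1 - X 2 := by simp [lin]; ring
theorem l4 : lin K ![0, 1, -2] = X 1 - 2 * X 2 := by simp [lin]; ring
theorem l5 : lin K ![1, 1, 0] = X 0 + X 1 := by simp [lin]
theorem l6 : lin K ![1, 1, -1] = X 0 + X 1 - X 2 := by simp [lin]; ring
theorem l7 : lin K ![1, 1, -2] = X 0 + X 1 - 2 * X 2 := by simp [lin]; ring
theorem l8 : lin K ![1, 1, -3] = X 0 + X 1 - 3 * X 2 := by simp [lin]; ring
theorem lz : lin K ![0, 0, 1] = X 2 := by simp [lin]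

theorem mem_of_flat (F G : MvPolynomial (Fin 3) K) (h1 : Px K ∣ F) (h2 : Py K ∣ G)
    (h3 : Pw K ∣ F + G) : ![F, G, 0] ∈ logDer (A K) := by
  rw [memA]
  simp only [l0, l1, l2, l3, l4, l5, l6, l7, l8, Matrix.cons_val_zero, Matrix.cons_val_one,
    Matrix.cons_val, mul_zero, sub_zero]
  rw [Px_eq] at h1; rw [Py_eq] at h2; rw [Pw_eq] at h3
  refine ⟨Dvd.dvd.trans ⟨_, rfl⟩ h1, Dvd.dvd.trans (Dvd.intro_left _ rfl) h1,
    Dvd.dvd.trans ⟨(X 1 - X 2) * (X 1 - 2 * X 2), by ring⟩ h2,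
    Dvd.dvd.trans ⟨X 1 * (X 1 - 2 * X 2), by ring⟩ h2,
    Dvd.dvd.trans (Dvd.intro_left _ rfl) h2,
    Dvd.dvd.trans ⟨(X 0 + X 1 - X 2) * (X 0 + X 1 - 2 * X 2) * (X 0 + X 1 - 3 * X 2), by ring⟩ h3,
    Dvd.dvd.trans ⟨(X 0 + X 1) * (X 0 + X 1 - 2 * X 2) * (X 0 + X 1 - 3 * X 2), by ring⟩ h3,
    Dvd.dvd.trans ⟨(X 0 + X 1) * (X 0 + X 1 - X 2) * (X 0 + X 1 - 3 * X 2), by ring⟩ h3,
    Dvd.dvd.trans (Dvd.intro_left _ rfl) h3⟩

theorem th_mem (i : Fin 3) : th K i ∈ logDer (A K) := by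
  fin_cases i
  · rw [memA]
    simp [th, l0, l1, l2, l3, l4, l5, l6, l7, l8]
  · refine mem_of_flat _ _ ⟨6 * X 1 * (X 1 - X 2) + 4 * (X 0 - 2 * X 2) * X 1
      + (X 0 - 2 * X 2) * (X 0 - 3 * X 2), ?_⟩ ⟨4 * X 0 + X 1 - 3 * X 2, ?_⟩ ⟨1, by ring⟩
    · rw [Pw_eq, G1_eq, Px_eq]; ring
    · rw [G1_eq, Py_eq]
  · refine mem_of_flat _ _ ⟨Py K, ?_⟩ ⟨-Px K, ?_⟩ ⟨0, by ring⟩
    · rw [Pxy_eq, Py_eq, Px_eq]
    · rw [Pxy_eq, Py_eq, Px_eq]; ring

theorem ph_mem : ph K ∈ logDer (A K) := by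
  rw [memA]
  simp only [ph, l0, l1, l2, l3, l4, l5, l6, l7, l8, Matrix.cons_val_zero, Matrix.cons_val_one,
    Matrix.cons_val, gg_eq, dvd_zero, add_zero, true_and]
  refine ⟨⟨-((X 1 - X 2) * (X 1 - 2 * X 2) * (X 0 + X 1 - X 2)
      * (X 0 + X 1 - 2 * X 2) * (X 0 + X 1 - 3 * X 2)), by ring⟩,
    ⟨-((X 0 - X 2) * (X 1 - 2 * X 2) * (X 0 + X 1 - X 2)
      * (X 0 + X 1 - 2 * X 2) * (X 0 + X 1 - 3 * X 2)), by ring⟩,
    ⟨-2 * ((X 0 - X 2) * (X 1 - X 2) * (X 0 + X 1 - X 2)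
      * (X 0 + X 1 - 2 * X 2) * (X 0 + X 1 - 3 * X 2)), by ring⟩,
    ⟨-((X 0 - X 2) * (X 1 - X 2) * (X 1 - 2 * X 2)
      * (X 0 + X 1 - 2 * X 2) * (X 0 + X 1 - 3 * X 2)), by ring⟩,
    ⟨-2 * ((X 0 - X 2) * (X 1 - X 2) * (X 1 - 2 * X 2) * (X 0 + X 1 - X 2)
      * (X 0 + X 1 - 3 * X 2)), by ring⟩,
    ⟨-3 * ((X 0 - X 2) * (X 1 - X 2) * (X 1 - 2 * X 2) * (X 0 + X 1 - X 2)
      * (X 0 + X 1 - 2 * X 2)), by ring⟩⟩

theorem prod_dvd (θ : Fin 3 → MvPolynomial (Fin 3) K) (h : θ ∈ logDer (A K)) :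
    Px K ∣ X 2 * θ 0 - X 0 * θ 2 ∧ Py K ∣ X 2 * θ 1 - X 1 * θ 2 ∧
    Pw K ∣ X 2 * (θ 0 + θ 1) - (X 0 + X 1) * θ 2 := by
  rw [memA] at h
  obtain ⟨⟨u0, h0⟩, ⟨u1, h1⟩, ⟨u2, h2⟩, ⟨u3, h3⟩, ⟨u4, h4⟩, ⟨u5, h5⟩, ⟨u6, h6⟩, ⟨u7, h7⟩,
    ⟨u8, h8⟩⟩ := h
  refine ⟨prod_lin_dvd _ (by decide) (by decide) _ ?_, prod_lin_dvd _ (by decide) (by decide) _ ?_,
    prod_lin_dvd _ (by decide) (by decide) _ ?_⟩
  · simp only [List.forall_mem_cons, List.not_mem_nil, IsEmpty.forall_iff, implies_true, and_true]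
    simp only [l0, l1] at *
    exact ⟨⟨X 2 * u0 - θ 2, by linear_combination X 2 * h0⟩,
      ⟨X 2 * u1 - θ 2, by linear_combination X 2 * h1⟩⟩
  · simp only [List.forall_mem_cons, List.not_mem_nil, IsEmpty.forall_iff, implies_true, and_true]
    simp only [l2, l3, l4] at *
    exact ⟨⟨X 2 * u2 - θ 2, by linear_combination X 2 * h2⟩,
      ⟨X 2 * u3 - θ 2, by linear_combination X 2 * h3⟩,
      ⟨X 2 * u4 - θ 2, by linear_combination X 2 * h4⟩⟩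
  · simp only [List.forall_mem_cons, List.not_mem_nil, IsEmpty.forall_iff, implies_true, and_true]
    simp only [l5, l6, l7, l8] at *
    exact ⟨⟨X 2 * u5 - θ 2, by linear_combination X 2 * h5⟩,
      ⟨X 2 * u6 - θ 2, by linear_combination X 2 * h6⟩,
      ⟨X 2 * u7 - θ 2, by linear_combination X 2 * h7⟩,
      ⟨X 2 * u8 - θ 2, by linear_combination X 2 * h8⟩⟩

theorem third_mem (θ : Fin 3 → MvPolynomial (Fin 3) K) (h : θ ∈ logDer (A K)) :
    ∃ p k, θ 2 = p * gg K + X 2 * k := by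
  obtain ⟨⟨a, ha⟩, ⟨b, hb⟩, ⟨c, hc⟩⟩ := prod_dvd θ h
  have ha' := congrArg (killVar K 2) ha
  have hb' := congrArg (killVar K 2) hb
  have hc' := congrArg (killVar K 2) hc
  rw [Px_eq] at ha'; rw [Py_eq] at hb'; rw [Pw_eq] at hc'
  simp only [map_sub, map_mul, map_add, killVar_X, map_ofNat] at ha' hb' hc'
  simp only [Fin.isValue, ↓reduceIte, Fin.reduceEq, zero_mul, zero_sub, sub_zero, mul_zero,
    OfNat.one_ne_ofNat, OfNat.zero_ne_ofNat] at ha' hb' hc'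
  have hx : Prime (X 0 : MvPolynomial (Fin 3) K) := by
    rw [← l0]; exact lin_prime (by decide)
  have hy : Prime (X 1 : MvPolynomial (Fin 3) K) := by
    rw [← l2]; exact lin_prime (by decide)
  have hw : Prime (X 0 + X 1 : MvPolynomial (Fin 3) K) := by
    rw [← l5]; exact lin_prime (by decide)
  have d1 : X 0 ∣ killVar K 2 (θ 2) :=
    ⟨-killVar K 2 a, mul_left_cancel₀ hx.ne_zero (by linear_combination -ha')⟩
  have d2 : X 1 ^ 2 ∣ killVar K 2 (θ 2) :=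
    ⟨-killVar K 2 b, mul_left_cancel₀ hy.ne_zero (by linear_combination -hb')⟩
  have d3 : (X 0 + X 1) ^ 3 ∣ killVar K 2 (θ 2) :=
    ⟨-killVar K 2 c, mul_left_cancel₀ hw.ne_zero (by linear_combination -hc')⟩
  have d12 := prime_pow_mul_dvd hy (not_dvd_of_eval ![1, 0, 0] (by simp) (by simp)) d2 d1
  have d123 := prime_pow_mul_dvd hw (not_dvd_of_eval ![1, -1, 0] (by simp) (by simp)) d3 d12
  obtain ⟨p, hp⟩ := d123
  have hg : killVar K 2 (gg K) = X 0 * X 1 ^ 2 * (X 0 + X 1) ^ 3 := by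
    rw [gg_eq]
    simp only [map_sub, map_mul, map_add, killVar_X, map_ofNat]
    simp
    ring
  have : X 2 ∣ θ 2 - p * gg K := by
    rw [X_dvd_iff, map_sub, map_mul, ← killVar_idem 2 (θ 2), hp, ← hg, map_mul, killVar_idem]
    ring
  obtain ⟨k, hk⟩ := this
  exact ⟨p, k, by linear_combination hk⟩

theorem flat_mem_span (θ : Fin 3 → MvPolynomial (Fin 3) K) (h : θ ∈ logDer (A K)) (h2 : θ 2 = 0) :
    ∃ g1 g2 : MvPolynomial (Fin 3) K, θ = g1 • th K 1 + g2 • th K 2 := by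
  rw [memA, h2] at h
  simp only [mul_zero, sub_zero] at h
  obtain ⟨h0, h1, h2', h3, h4, h5, h6, h7, h8⟩ := h
  have hw : Pw K ∣ θ 0 + θ 1 := prod_lin_dvd _ (by decide) (by decide) _ (by
    simp only [List.forall_mem_cons, List.not_mem_nil, IsEmpty.forall_iff, implies_true, and_true]
    exact ⟨h5, h6, h7, h8⟩)
  obtain ⟨g1, hg1⟩ := hw
  have e0 : Pw K - G1 K = Px K * (6 * X 1 * (X 1 - X 2) + 4 * (X 0 - 2 * X 2) * X 1
      + (X 0 - 2 * X 2) * (X 0 - 3 * X 2)) := by rw [Pw_eq, G1_eq, Px_eq]; ring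
  have hxy : Pxy K ∣ θ 0 - g1 * (Pw K - G1 K) := prod_lin_dvd _ (by decide) (by decide) _ (by
    simp only [List.forall_mem_cons, List.not_mem_nil, IsEmpty.forall_iff, implies_true, and_true]
    have e1 : θ 0 - g1 * (Pw K - G1 K) = g1 * G1 K - θ 1 := by linear_combination hg1
    refine ⟨dvd_sub h0 ?_, dvd_sub h1 ?_, ?_, ?_, ?_⟩
    · rw [e0, Px_eq, l0]; exact Dvd.dvd.mul_left (Dvd.dvd.mul_right ⟨_, rfl⟩ _) _
    · rw [e0, Px_eq, l1]; exact Dvd.dvd.mul_left (Dvd.dvd.mul_right (Dvd.intro_left _ rfl) _) _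
    · rw [e1]; refine dvd_sub (Dvd.dvd.mul_left ?_ _) h2'
      rw [G1_eq, l2]; exact ⟨(X 1 - X 2) * (X 1 - 2 * X 2) * (4 * X 0 + X 1 - 3 * X 2), by ring⟩
    · rw [e1]; refine dvd_sub (Dvd.dvd.mul_left ?_ _) h3
      rw [G1_eq, l3]; exact ⟨X 1 * (X 1 - 2 * X 2) * (4 * X 0 + X 1 - 3 * X 2), by ring⟩
    · rw [e1]; refine dvd_sub (Dvd.dvd.mul_left ?_ _) h4
      rw [G1_eq, l4]; exact ⟨X 1 * (X 1 - X 2) * (4 * X 0 + X 1 - 3 * X 2), by ring⟩)
  obtain ⟨g2, hg2⟩ := hxy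
  refine ⟨g1, g2, funext fun j => ?_⟩
  fin_cases j
  · simp [th]; linear_combination hg2
  · simp [th]; linear_combination hg1 - hg2
  · simp [th, h2]

theorem span_eq : Submodule.span (MvPolynomial (Fin 3) K) (insert (ph K) (Set.range (th K)))
    = logDer (A K) := by
  apply le_antisymm
  · rw [Submodule.span_le]
    rintro v (rfl | ⟨i, rfl⟩)
    · exact ph_mem
    · exact th_mem i
  · intro θ hθ
    obtain ⟨p, k, hk⟩ := third_mem θ hθ
    have hm : θ - p • ph K - k • th K 0 ∈ logDer (A K) :=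
      sub_mem (sub_mem hθ (Submodule.smul_mem _ _ ph_mem)) (Submodule.smul_mem _ _ (th_mem 0))
    obtain ⟨g1, g2, hg⟩ := flat_mem_span _ hm (by
      show θ 2 - p * gg K - k * X 2 = 0
      linear_combination hk)
    have : θ = p • ph K + k • th K 0 + (g1 • th K 1 + g2 • th K 2) := by rw [← hg]; abel
    rw [this]
    have s1 : ph K ∈ Submodule.span (MvPolynomial (Fin 3) K) (insert (ph K) (Set.range (th K))) :=
      Submodule.subset_span (Set.mem_insert _ _)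
    have s2 : ∀ i, th K i ∈
        Submodule.span (MvPolynomial (Fin 3) K) (insert (ph K) (Set.range (th K))) :=
      fun i => Submodule.subset_span (Set.mem_insert_of_mem _ ⟨i, rfl⟩)
    exact add_mem (add_mem (Submodule.smul_mem _ _ s1) (Submodule.smul_mem _ _ (s2 0)))
      (add_mem (Submodule.smul_mem _ _ (s2 1)) (Submodule.smul_mem _ _ (s2 2)))

theorem rel_iff (g : MvPolynomial (Fin 3) K) (c : Fin 3 → MvPolynomial (Fin 3) K) :
    g • ph K + ∑ i, c i • th K i = 0 ↔ ∃ h, g = h * X 2 ∧ ∀ i, c i = h * ff K i := by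
  have r1 : f1 K * (Pw K - G1 K) + f2 K * Pxy K = gg K * X 0 := by
    rw [f1_eq, f2_eq, Pw_eq, G1_eq, Pxy_eq, gg_eq]; ring
  have r2 : f1 K * G1 K - f2 K * Pxy K = gg K * X 1 := by
    rw [f1_eq, f2_eq, G1_eq, Pxy_eq, gg_eq]; ring
  have hz : Prime (X 2 : MvPolynomial (Fin 3) K) := by
    rw [← lz]; exact lin_prime (by decide)
  constructor
  · intro h
    have e0 := congrFun h 0
    have e1 := congrFun h 1
    have e2 := congrFun h 2
    simp [Fin.sum_univ_three, ph, th] at e0 e1 e2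
    have hd : X 2 ∣ g * gg K := ⟨-c 0, by linear_combination e2⟩
    have hn : ¬ (X 2 : MvPolynomial (Fin 3) K) ∣ gg K := by
      rw [← lz]; exact lin_not_dvd_prod (by decide) _ (by decide)
    obtain ⟨p, hp⟩ := (hz.dvd_or_dvd hd).resolve_right hn
    have c0 : c 0 = p * -gg K := mul_left_cancel₀ hz.ne_zero (by rw [hp] at e2; linear_combination e2)
    have hw : Pw K ≠ 0 := prod_lin_ne_zero _ (by decide)
    have hxy : Pxy K ≠ 0 := prod_lin_ne_zero _ (by decide)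
    have c1 : c 1 = p * f1 K := mul_left_cancel₀ hw (by
      rw [c0] at e0 e1; linear_combination e0 + e1 - p * r1 - p * r2)
    have c2 : c 2 = p * f2 K := mul_left_cancel₀ hxy (by
      rw [c0, c1] at e0; linear_combination e0 - p * r1)
    refine ⟨p, by rw [hp, mul_comm], fun i => ?_⟩
    fin_cases i
    · simpa [ff] using c0
    · simpa [ff] using c1
    · simpa [ff] using c2
  · rintro ⟨p, rfl, hc⟩
    have c0 := hc 0
    have c1 := hc 1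
    have c2 := hc 2
    simp only [ff, Matrix.cons_val_zero, Matrix.cons_val_one, Matrix.cons_val] at c0 c1 c2
    funext j
    fin_cases j
    · simp [Fin.sum_univ_three, ph, th, c0, c1, c2]; linear_combination p * r1
    · simp [Fin.sum_univ_three, ph, th, c0, c1, c2]; linear_combination p * r2
    · simp [Fin.sum_univ_three, ph, th, c0, c1, c2]; ring

theorem th_hom (i j : Fin 3) : (th K i j).IsHomogeneous (![1, 4, 5] i) := by
  have h1 : (Pw K).IsHomogeneous 4 := prod_lin_hom _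
  have h2 : (G1 K).IsHomogeneous 4 := prod_lin_hom _
  have h3 : (Pxy K).IsHomogeneous 5 := prod_lin_hom _
  fin_cases i <;> fin_cases j
  · exact isHomogeneous_X _ _
  · exact isHomogeneous_X _ _
  · exact isHomogeneous_X _ _
  · exact h1.sub h2
  · exact h2
  · exact isHomogeneous_zero _ _ _
  · exact h3
  · exact h3.neg
  · exact isHomogeneous_zero _ _ _

theorem ph_hom (j : Fin 3) : (ph K j).IsHomogeneous 6 := by
  have h1 : (gg K).IsHomogeneous 6 := prod_lin_hom _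
  fin_cases j
  · exact isHomogeneous_zero _ _ _
  · exact isHomogeneous_zero _ _ _
  · exact h1

theorem ff_hom (i : Fin 3) : (![1, 4, 5] : Fin 3 → ℕ) i ≤ 6 ∧
    (ff K i).IsHomogeneous (6 + 1 - ![1, 4, 5] i) := by
  have h1 : (gg K).IsHomogeneous 6 := prod_lin_hom _
  have h2 : (f1 K).IsHomogeneous 3 := prod_lin_hom _
  have h3 : (f2 K).IsHomogeneous 2 := mpoly_hom _ _ (by decide)
  fin_cases i
  · exact ⟨by decide, h1.neg⟩
  · exact ⟨by decide, h2⟩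
  · exact ⟨by decide, h3⟩

end Pool.Agent.H26Arr.PogA
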