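import Pool.Agent.Lib.helper26.Arr3

/-! The multiplicative three-pencil arrangement of nine lines. -/

set_option linter.unusedSectionVars false
set_option linter.unusedSimpArgs false

namespace Pool.Agent.H26Arr.PogB

open MvPolynomial Pool.Agent.H26Arr

variable {K : Type*} [Field K] [CharZero K]

def aB : Fin 9 → Fin 3 → ℤ :=
  ![![1, 0, -1], ![1, 0, -2], ![0, -1, 1], ![0, -2, 1], ![0, -4, 1],
    ![1, -1, 0], ![1, -2, 0], ![1, -4, 0], ![1, -8, 0]]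

theorem aB_ne : ∀ i, aB i ≠ 0 := by decide

noncomputable abbrev B (K : Type*) [Field K] : Finset (Submodule K (Fin 3 → K)) :=
  arr fun i t => ((aB i t : ℤ) : K)

noncomputable def P1 (K : Type*) [Field K] : MvPolynomial (Fin 3) K :=
  ([![1, 0, -1], ![1, 0, -2]].map (lin K)).prod
noncomputable def P2 (K : Type*) [Field K] : MvPolynomial (Fin 3) K :=
  ([![0, -1, 1], ![0, -2, 1], ![0, -4, 1]].map (lin K)).prod
noncomputable def P3 (K : Type*) [Field K] : MvPolynomial (Fin 3) K :=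
  ([![1, -1, 0], ![1, -2, 0], ![1, -4, 0], ![1, -8, 0]].map (lin K)).prod

theorem P1_eq : P1 K = (X 0 - X 2) * (X 0 - 2 * X 2) := by simp [P1, lin]; ring
theorem P2_eq : P2 K = (X 2 - X 1) * (X 2 - 2 * X 1) * (X 2 - 4 * X 1) := by simp [P2, lin]; ring
theorem P3_eq : P3 K = (X 0 - X 1) * (X 0 - 2 * X 1) * (X 0 - 4 * X 1) * (X 0 - 8 * X 1) := by
  simp [P3, lin]; ring

theorem aux1 (c : ℤ) (θ : Fin 3 → MvPolynomial (Fin 3) K) :
    lin K ![1, 0, c] ∣ θ 0 + (c : MvPolynomial (Fin 3) K) * θ 2 ↔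
      lin K ![1, 0, c] ∣ X 2 * θ 0 - X 0 * θ 2 := by
  have hp : Prime (lin K ![1, 0, c]) := lin_prime (fun h => by simpa using congrFun h 0)
  have hn : ¬ lin K ![1, 0, c] ∣ X 2 := by
    have : lin K ![0, 0, 1] = X 2 := by simp [lin]
    rw [← this]; exact lin_not_dvd (by simp [NP])
  have e : X 2 * θ 0 - X 0 * θ 2 = X 2 * (θ 0 + (c : MvPolynomial (Fin 3) K) * θ 2)
      - lin K ![1, 0, c] * θ 2 := by simp [lin]; ring
  rw [e]
  constructor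
  · intro h; exact dvd_sub (Dvd.dvd.mul_left h _) (Dvd.intro _ rfl)
  · intro h
    have := dvd_add h (Dvd.intro (θ 2) rfl)
    rw [sub_add_cancel] at this
    exact (hp.dvd_or_dvd this).resolve_left hn

theorem aux2 (c : ℤ) (θ : Fin 3 → MvPolynomial (Fin 3) K) :
    lin K ![0, c, 1] ∣ (c : MvPolynomial (Fin 3) K) * θ 1 + θ 2 ↔
      lin K ![0, c, 1] ∣ X 1 * θ 2 - X 2 * θ 1 := by
  have hp : Prime (lin K ![0, c, 1]) := lin_prime (fun h => by simpa using congrFun h 2)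
  have hn : ¬ lin K ![0, c, 1] ∣ X 1 := by
    have : lin K ![0, 1, 0] = X 1 := by simp [lin]
    rw [← this]; exact lin_not_dvd (by simp [NP])
  have e : X 1 * θ 2 - X 2 * θ 1 = X 1 * ((c : MvPolynomial (Fin 3) K) * θ 1 + θ 2)
      - lin K ![0, c, 1] * θ 1 := by simp [lin]; ring
  rw [e]
  constructor
  · intro h; exact dvd_sub (Dvd.dvd.mul_left h _) (Dvd.intro _ rfl)
  · intro h
    have := dvd_add h (Dvd.intro (θ 1) rfl)
    rw [sub_add_cancel] at this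
    exact (hp.dvd_or_dvd this).resolve_left hn

theorem aux3 (c : ℤ) (θ : Fin 3 → MvPolynomial (Fin 3) K) :
    lin K ![1, c, 0] ∣ θ 0 + (c : MvPolynomial (Fin 3) K) * θ 1 ↔
      lin K ![1, c, 0] ∣ X 0 * θ 1 - X 1 * θ 0 := by
  have hp : Prime (lin K ![1, c, 0]) := lin_prime (fun h => by simpa using congrFun h 0)
  have hn : ¬ lin K ![1, c, 0] ∣ X 1 := by
    have : lin K ![0, 1, 0] = X 1 := by simp [lin]
    rw [← this]; exact lin_not_dvd (by simp [NP])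
  have e : X 0 * θ 1 - X 1 * θ 0 = lin K ![1, c, 0] * θ 1
      - X 1 * (θ 0 + (c : MvPolynomial (Fin 3) K) * θ 1) := by simp [lin]; ring
  rw [e]
  constructor
  · intro h; exact dvd_sub (Dvd.intro _ rfl) (Dvd.dvd.mul_left h _)
  · intro h
    have := dvd_sub (Dvd.intro (θ 1) rfl) h
    rw [sub_sub_cancel] at this
    exact (hp.dvd_or_dvd this).resolve_left hn

theorem memB (θ : Fin 3 → MvPolynomial (Fin 3) K) : θ ∈ logDer (B K) ↔
    (∀ u ∈ ([![1, 0, -1], ![1, 0, -2]] : List (Fin 3 → ℤ)), lin K u ∣ X 2 * θ 0 - X 0 * θ 2) ∧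
    (∀ u ∈ ([![0, -1, 1], ![0, -2, 1], ![0, -4, 1]] : List (Fin 3 → ℤ)),
      lin K u ∣ X 1 * θ 2 - X 2 * θ 1) ∧
    (∀ u ∈ ([![1, -1, 0], ![1, -2, 0], ![1, -4, 0], ![1, -8, 0]] : List (Fin 3 → ℤ)),
      lin K u ∣ X 0 * θ 1 - X 1 * θ 0) := by
  rw [mem_logDer_int aB aB_ne]
  simp only [List.forall_mem_cons, List.not_mem_nil, IsEmpty.forall_iff, implies_true, and_true,
    ← aux1, ← aux2, ← aux3, Fin.forall_fin_succ]
  simp [aB, and_assoc]

theorem memB' (θ : Fin 3 → MvPolynomial (Fin 3) K) : θ ∈ logDer (B K) ↔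
    P1 K ∣ X 2 * θ 0 - X 0 * θ 2 ∧ P2 K ∣ X 1 * θ 2 - X 2 * θ 1 ∧ P3 K ∣ X 0 * θ 1 - X 1 * θ 0 := by
  rw [memB]
  constructor
  · rintro ⟨h1, h2, h3⟩
    exact ⟨prod_lin_dvd _ (by decide) (by decide) _ h1, prod_lin_dvd _ (by decide) (by decide) _ h2,
      prod_lin_dvd _ (by decide) (by decide) _ h3⟩
  · rintro ⟨h1, h2, h3⟩
    exact ⟨fun u hu => (List.dvd_prod (List.mem_map_of_mem hu)).trans h1,
      fun u hu => (List.dvd_prod (List.mem_map_of_mem hu)).trans h2,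
      fun u hu => (List.dvd_prod (List.mem_map_of_mem hu)).trans h3⟩

theorem low4 (θ : Fin 3 → MvPolynomial (Fin 3) K) (h : θ ∈ logDer (B K))
    (hh : ∀ j, (θ j).IsHomogeneous 4) :
    X 2 * θ 0 - X 0 * θ 2 = 0 ∧ X 0 * θ 1 - X 1 * θ 0 = 0 := by
  rw [memB'] at h
  obtain ⟨⟨a, ha⟩, h2, h3⟩ := h
  have hX : ∀ i : Fin 3, (X i : MvPolynomial (Fin 3) K).IsHomogeneous 1 := isHomogeneous_X K
  have hP2 : (P2 K).IsHomogeneous 3 := prod_lin_hom _
  have hP3 : (P3 K).IsHomogeneous 4 := prod_lin_hom _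
  have hP1 : (P1 K).IsHomogeneous 2 := prod_lin_hom _
  obtain ⟨b, hbh, hb⟩ := exists_hom_of_dvd (n := 2) hP2
    (((hX 1).mul (hh 2)).sub ((hX 2).mul (hh 1))) h2
  obtain ⟨c, hch, hc⟩ := exists_hom_of_dvd (n := 1) hP3
    (((hX 0).mul (hh 1)).sub ((hX 1).mul (hh 0))) h3
  have hx0 : (X 0 : MvPolynomial (Fin 3) K) ≠ 0 := X_ne_zero _
  have hx1 : (X 1 : MvPolynomial (Fin 3) K) ≠ 0 := X_ne_zero _
  have hx2 : (X 2 : MvPolynomial (Fin 3) K) ≠ 0 := X_ne_zero _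
  have hpx : Prime (X 0 : MvPolynomial (Fin 3) K) := by
    have : lin K ![1, 0, 0] = X 0 := by simp [lin]
    rw [← this]; exact lin_prime (by decide)
  have hpz : Prime (X 2 : MvPolynomial (Fin 3) K) := by
    have : lin K ![0, 0, 1] = X 2 := by simp [lin]
    rw [← this]; exact lin_prime (by decide)
  have rel : X 1 * (P1 K * a) + X 0 * (P2 K * b) + X 2 * (P3 K * c) = 0 := by
    rw [← ha, ← hb, ← hc]; ring
  -- set y = 0
  have r1 := congrArg (killVar K 1) rel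
  rw [P1_eq, P2_eq, P3_eq] at r1
  simp only [map_sub, map_mul, map_add, killVar_X, map_ofNat, map_zero] at r1
  simp only [Fin.isValue, ↓reduceIte, Fin.reduceEq, zero_mul, zero_sub, sub_zero, mul_zero,
    zero_add] at r1
  have r2 : X 2 ^ 2 * killVar K 1 b = X 0 ^ 3 * -killVar K 1 c :=
    mul_left_cancel₀ (mul_ne_zero hx0 hx2) (by linear_combination r1)
  have db : X 0 ^ 3 ∣ killVar K 1 b :=
    hpx.pow_dvd_of_dvd_mul_left 3 (not_dvd_of_eval ![0, 0, 1] (by simp) (by simp)) ⟨_, r2⟩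
  have kb : killVar K 1 b = 0 :=
    eq_zero_of_dvd_of_lt (isHomogeneous_X_pow (0 : Fin 3) 3) (killVar_hom 1 hbh) (by norm_num) db
  have kc : killVar K 1 c = 0 := by
    rw [kb, mul_zero] at r2
    have := (mul_eq_zero.mp r2.symm).resolve_left (pow_ne_zero _ hx0)
    exact neg_eq_zero.mp this
  obtain ⟨b', hbh', rfl⟩ := exists_hom_of_dvd (n := 1) (hX 1) hbh ((X_dvd_iff 1 b).mpr kb)
  obtain ⟨c', hch', rfl⟩ := exists_hom_of_dvd (n := 0) (hX 1) hch ((X_dvd_iff 1 c).mpr kc)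
  have rel2 : P1 K * a + X 0 * (P2 K * b') + X 2 * (P3 K * c') = 0 :=
    mul_left_cancel₀ hx1 (by linear_combination rel)
  -- set x = 0
  have r3 := congrArg (killVar K 0) rel2
  rw [P1_eq, P2_eq, P3_eq] at r3
  simp only [map_sub, map_mul, map_add, killVar_X, map_ofNat, map_zero] at r3
  simp only [Fin.isValue, ↓reduceIte, Fin.reduceEq, zero_mul, zero_sub, sub_zero, mul_zero,
    zero_add, add_zero] at r3
  have r4 : 64 * X 1 ^ 4 * killVar K 0 c' = X 2 * (-2 * killVar K 0 a) :=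
    mul_left_cancel₀ hx2 (by linear_combination r3)
  have dc : X 2 ∣ killVar K 0 c' :=
    (hpz.dvd_or_dvd ⟨_, r4⟩).resolve_left (not_dvd_of_eval ![0, 1, 0] (by simp) (by simp))
  have kc' : killVar K 0 c' = 0 :=
    eq_zero_of_dvd_of_lt (hX 2) (killVar_hom 0 hch') (by norm_num) dc
  have c0 : c' = 0 := eq_zero_of_dvd_of_lt (hX 0) hch' (by norm_num) ((X_dvd_iff 0 c').mpr kc')
  subst c0
  have db' : P1 K ∣ b' := prod_lin_dvd _ (by decide) (by decide) _ (by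
    intro u hu
    have hu0 : u ≠ 0 := by revert u; decide
    have h1 : lin K u ∣ P1 K := List.dvd_prod (List.mem_map_of_mem hu)
    have h2 : lin K u ∣ (X 0 * P2 K) * b' :=
      h1.trans ⟨-a, by linear_combination rel2⟩
    refine ((lin_prime hu0).dvd_or_dvd h2).resolve_left ?_
    have : X 0 * P2 K = ([![1, 0, 0], ![0, -1, 1], ![0, -2, 1], ![0, -4, 1]].map (lin K)).prod := by
      simp [P2, lin]
    rw [this]
    refine lin_not_dvd_prod hu0 _ ?_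
    clear h1 h2 hu0
    revert u; decide)
  have b0 : b' = 0 := eq_zero_of_dvd_of_lt hP1 hbh' (by norm_num) db'
  subst b0
  refine ⟨?_, by rw [hc]; ring⟩
  rw [ha]
  linear_combination rel2

theorem low (θ : Fin 3 → MvPolynomial (Fin 3) K) (h : θ ∈ logDer (B K)) (e : ℕ) (he : e ≤ 4)
    (hh : ∀ j, (θ j).IsHomogeneous e) :
    X 2 * θ 0 - X 0 * θ 2 = 0 ∧ X 0 * θ 1 - X 1 * θ 0 = 0 := by
  have hx : (X 0 ^ (4 - e) : MvPolynomial (Fin 3) K) ≠ 0 := pow_ne_zero _ (X_ne_zero _)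
  obtain ⟨h1, h2⟩ := low4 ((X 0 ^ (4 - e) : MvPolynomial (Fin 3) K) • θ)
    (Submodule.smul_mem _ _ h) (fun j => by
      have := (isHomogeneous_X_pow (R := K) (0 : Fin 3) (4 - e)).mul (hh j)
      rwa [Nat.sub_add_cancel he] at this)
  simp only [Pi.smul_apply, smul_eq_mul] at h1 h2
  exact ⟨mul_left_cancel₀ hx (by linear_combination h1), mul_left_cancel₀ hx (by linear_combination h2)⟩

def zl0 : Fin 3 → List (ℤ × ℕ × ℕ × ℕ) :=
  ![[],
    [],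
    [(-8, 2, 3, 0), (14, 2, 2, 1), (-7, 2, 1, 2), (1, 2, 0, 3), (24, 1, 3, 1), (-42, 1, 2, 2), (21, 1, 1, 3), (-3, 1, 0, 4), (-16, 0, 3, 2), (28, 0, 2, 3), (-14, 0, 1, 4), (2, 0, 0, 5)]]

def zl1 : Fin 3 → List (ℤ × ℕ × ℕ × ℕ) :=
  ![[(-1, 5, 0, 0), (15, 4, 1, 0), (28, 3, 2, 0), (-49, 3, 1, 1), (7, 3, 0, 2), (168, 2, 3, 0), (-84, 2, 2, 1), (42, 2, 1, 2), (-6, 2, 0, 3), (-112, 1, 3, 1), (56, 1, 2, 2), (-8, 1, 1, 3)],
    [(98, 2, 3, 0), (-49, 2, 2, 1), (7, 2, 1, 2), (48, 1, 4, 0), (-84, 1, 3, 1), (42, 1, 2, 2), (-6, 1, 1, 3), (64, 0, 5, 0), (-112, 0, 4, 1), (56, 0, 3, 2), (-8, 0, 2, 3)],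
    [(56, 2, 3, 0)]]

def zl2 : Fin 3 → List (ℤ × ℕ × ℕ × ℕ) :=
  ![[(-1, 4, 0, 1), (42, 3, 2, 0), (-6, 3, 1, 1), (3, 3, 0, 2), (72, 2, 3, 0), (-126, 2, 2, 1), (18, 2, 1, 2), (-2, 2, 0, 3), (96, 1, 4, 0), (-48, 1, 3, 1), (84, 1, 2, 2), (-12, 1, 1, 3), (-64, 0, 4, 1)],
    [(42, 2, 3, 0), (-21, 2, 2, 1), (3, 2, 1, 2), (72, 1, 4, 0), (-56, 1, 3, 1), (18, 1, 2, 2), (-2, 1, 1, 3), (96, 0, 5, 0), (-168, 0, 4, 1), (84, 0, 3, 2), (-12, 0, 2, 3)],
    [(24, 2, 3, 0), (32, 1, 4, 0)]]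

def zl3 : Fin 3 → List (ℤ × ℕ × ℕ × ℕ) :=
  ![[(14, 4, 1, 0), (-7, 4, 0, 1), (84, 3, 2, 0), (-42, 3, 1, 1), (21, 3, 0, 2), (112, 2, 3, 0), (-196, 2, 2, 1), (28, 2, 1, 2), (-14, 2, 0, 3), (120, 1, 2, 2), (-64, 0, 3, 2)],
    [(14, 3, 2, 0), (-7, 3, 1, 1), (1, 3, 0, 2), (84, 2, 3, 0), (-42, 2, 2, 1), (6, 2, 1, 2), (112, 1, 4, 0), (-196, 1, 3, 1), (98, 1, 2, 2), (-14, 1, 1, 3)],
    [(8, 3, 2, 0), (48, 2, 3, 0)]]

def zl : Fin 4 → Fin 3 → List (ℤ × ℕ × ℕ × ℕ) := ![zl0, zl1, zl2, zl3]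

noncomputable def zeta (K : Type*) [Field K] (i : Fin 4) : Fin 3 → MvPolynomial (Fin 3) K :=
  fun j => mpoly K (zl i j)

theorem zeta_hom (i : Fin 4) (j : Fin 3) : (zeta K i j).IsHomogeneous 5 :=
  mpoly_hom _ _ (by revert i j; decide)

theorem zF0 : X 2 * zeta K 0 0 - X 0 * zeta K 0 2 =
    P1 K * (8 * X 0 * X 1 ^ 3 - 14 * X 0 * X 1 ^ 2 * X 2 + 7 * X 0 * X 1 * X 2 ^ 2 - X 0 * X 2 ^ 3) := by
  rw [P1_eq]; simp [zeta, zl, zl0, mpoly]; ring

theorem zG0 : X 1 * zeta K 0 2 - X 2 * zeta K 0 1 =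
    P2 K * (X 0 ^ 2 * X 1 - 3 * X 0 * X 1 * X 2 + 2 * X 1 * X 2 ^ 2) := by
  rw [P2_eq]; simp [zeta, zl, zl0, mpoly]; ring

theorem zH0 : X 0 * zeta K 0 1 - X 1 * zeta K 0 0 =
    P3 K * (0) := by
  rw [P3_eq]; simp [zeta, zl, zl0, mpoly]

theorem zF1 : X 2 * zeta K 1 0 - X 0 * zeta K 1 2 =
    P1 K * (-X 0 ^ 3 * X 2 + 15 * X 0 ^ 2 * X 1 * X 2 - 3 * X 0 ^ 2 * X 2 ^ 2 - 56 * X 0 * X 1 ^ 3 + 28 * X 0 * X 1 ^ 2 * X 2 - 4 * X 0 * X 1 * X 2 ^ 2) := by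
  rw [P1_eq]; simp [zeta, zl, zl1, mpoly]; ring

theorem zG1 : X 1 * zeta K 1 2 - X 2 * zeta K 1 1 =
    P2 K * (-7 * X 0 ^ 2 * X 1 + 6 * X 0 * X 1 * X 2 + 8 * X 1 ^ 2 * X 2) := by
  rw [P2_eq]; simp [zeta, zl, zl1, mpoly]; ring

theorem zH1 : X 0 * zeta K 1 1 - X 1 * zeta K 1 0 =
    P3 K * (X 0 * X 1) := by
  rw [P3_eq]; simp [zeta, zl, zl1, mpoly]; ring

theorem zF2 : X 2 * zeta K 2 0 - X 0 * zeta K 2 2 =
    P1 K * (-X 0 ^ 2 * X 2 ^ 2 - 24 * X 0 * X 1 ^ 3 + 42 * X 0 * X 1 ^ 2 * X 2 - 6 * X 0 * X 1 * X 2 ^ 2 - 32 * X 1 ^ 4) := by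
  rw [P1_eq]; simp [zeta, zl, zl2, mpoly]; ring

theorem zG2 : X 1 * zeta K 2 2 - X 2 * zeta K 2 1 =
    P2 K * (-3 * X 0 ^ 2 * X 1 - 4 * X 0 * X 1 ^ 2 + 2 * X 0 * X 1 * X 2 + 12 * X 1 ^ 2 * X 2) := by
  rw [P2_eq]; simp [zeta, zl, zl2, mpoly]; ring

theorem zH2 : X 0 * zeta K 2 1 - X 1 * zeta K 2 0 =
    P3 K * (X 1 * X 2) := by
  rw [P3_eq]; simp [zeta, zl, zl2, mpoly]; ring

theorem zF3 : X 2 * zeta K 3 0 - X 0 * zeta K 3 2 =
    P1 K * (-8 * X 0 ^ 2 * X 1 ^ 2 + 14 * X 0 ^ 2 * X 1 * X 2 - 7 * X 0 ^ 2 * X 2 ^ 2 - 48 * X 0 * X 1 ^ 3 + 60 * X 0 * X 1 ^ 2 * X 2 - 32 * X 1 ^ 3 * X 2) := by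
  rw [P1_eq]; simp [zeta, zl, zl3, mpoly]; ring

theorem zG3 : X 1 * zeta K 3 2 - X 2 * zeta K 3 1 =
    P2 K * (-X 0 ^ 3 - 6 * X 0 ^ 2 * X 1 + 14 * X 0 * X 1 * X 2) := by
  rw [P2_eq]; simp [zeta, zl, zl3, mpoly]; ring

theorem zH3 : X 0 * zeta K 3 1 - X 1 * zeta K 3 0 =
    P3 K * (X 2 ^ 2) := by
  rw [P3_eq]; simp [zeta, zl, zl3, mpoly]; ring


theorem zeta_mem (i : Fin 4) : zeta K i ∈ logDer (B K) := by
  rw [memB']
  fin_cases i
  · exact ⟨⟨_, zF0⟩, ⟨_, zG0⟩, ⟨_, zH0⟩⟩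
  · exact ⟨⟨_, zF1⟩, ⟨_, zG1⟩, ⟨_, zH1⟩⟩
  · exact ⟨⟨_, zF2⟩, ⟨_, zG2⟩, ⟨_, zH2⟩⟩
  · exact ⟨⟨_, zF3⟩, ⟨_, zG3⟩, ⟨_, zH3⟩⟩

/-- The `K`-linear map killing exactly the multiples of the Euler derivation. -/
noncomputable def Psi (K : Type*) [Field K] :
    (Fin 3 → MvPolynomial (Fin 3) K) →ₗ[K] MvPolynomial (Fin 3) K × MvPolynomial (Fin 3) K where
  toFun θ := (X 2 * θ 0 - X 0 * θ 2, X 0 * θ 1 - X 1 * θ 0)
  map_add' u v := by
    simp only [Pi.add_apply, Prod.mk_add_mk, Prod.mk.injEq]; constructor <;> ring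
  map_smul' c v := by
    simp only [Pi.smul_apply, RingHom.id_apply, Prod.smul_mk, Prod.mk.injEq, smul_eq_C_mul]
    constructor <;> ring

theorem psi_indep : LinearIndependent K fun i => Psi K (zeta K i) := by
  rw [Fintype.linearIndependent_iff]
  intro t ht
  have h1 := congrArg Prod.fst ht
  have h2 := congrArg Prod.snd ht
  simp only [Fin.sum_univ_four, Psi, LinearMap.coe_mk, AddHom.coe_mk, Prod.smul_mk, Prod.mk_add_mk,
    Prod.fst_zero, Prod.snd_zero, zF0, zF1, zF2, zF3, zH0, zH1, zH2, zH3] at h1 h2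
  have e1 := congrArg (eval ![1, -1, 0]) h2
  have e2 := congrArg (eval ![1, 0, 1]) h2
  have e3 := congrArg (eval ![0, 1, 1]) h2
  have e0 := congrArg (eval ![-1, 0, 1]) h1
  simp [P3_eq, P1_eq] at e0 e1 e2 e3
  have t3 : t 3 = 0 := e2
  have t1 : t 1 = 0 := by
    rcases e1 with h | h
    · exact h
    · norm_num at h
  have t2 : t 2 = 0 := by
    rw [t3] at e3
    have : t 2 * 64 = 0 := by linear_combination e3
    simpa using this
  have t0 : t 0 = 0 := by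
    rw [t1, t2, t3] at e0
    have : t 0 * 6 = 0 := by linear_combination e0
    simpa using this
  intro i
  fin_cases i
  · exact t0
  · exact t1
  · exact t2
  · exact t3

theorem comp_eq {ι : Type*} [Fintype ι] (γ : ι → Fin 3 → MvPolynomial (Fin 3) K) (e : ι → ℕ)
    (hγ : ∀ i j, (γ i j).IsHomogeneous (e i)) (c : ι → MvPolynomial (Fin 3) K)
    (θ : Fin 3 → MvPolynomial (Fin 3) K) (n : ℕ) (hθ : ∀ j, (θ j).IsHomogeneous n)
    (h : ∑ i, c i • γ i = θ) :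
    θ = ∑ i, if e i ≤ n then homogeneousComponent (n - e i) (c i) • γ i else 0 := by
  funext j
  rw [← homogeneousComponent_eq_self (hθ j), ← h]
  simp only [Finset.sum_apply, Pi.smul_apply, smul_eq_mul, map_sum]
  refine Finset.sum_congr rfl fun i _ => ?_
  rw [hc_mul_right (hγ i j)]
  split_ifs <;> simp

theorem not_four_gens (γ : Option (Fin 3) → Fin 3 → MvPolynomial (Fin 3) K) (e : Option (Fin 3) → ℕ)
    (hγ : ∀ i j, (γ i j).IsHomogeneous (e i))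
    (hs : Submodule.span (MvPolynomial (Fin 3) K) (Set.range γ) = logDer (B K)) : False := by
  classical
  have hmem : ∀ i, γ i ∈ logDer (B K) := fun i => hs ▸ Submodule.subset_span ⟨i, rfl⟩
  have hE : (![X 0, X 1, X 2] : Fin 3 → MvPolynomial (Fin 3) K) ∈ logDer (B K) := by
    rw [memB']
    refine ⟨⟨0, ?_⟩, ⟨0, ?_⟩, ⟨0, ?_⟩⟩ <;> simp <;> ring
  obtain ⟨i0, hi0⟩ : ∃ i, e i ≤ 1 := by
    by_contra hcon
    push Not at hcon
    rw [← hs, Submodule.mem_span_range_iff_exists_fun] at hE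
    obtain ⟨c, hc⟩ := hE
    have := comp_eq γ e hγ c _ 1 (fun j => by fin_cases j <;> exact isHomogeneous_X _ _) hc
    rw [Finset.sum_eq_zero (fun i _ => if_neg (by have := hcon i; omega))] at this
    have h0 := congrFun this 0
    simp at h0
  let W : Submodule K (MvPolynomial (Fin 3) K × MvPolynomial (Fin 3) K) :=
    Submodule.span K (Set.range fun i : {i // i ≠ i0} => Psi K (γ i))
  have hW : ∀ k, Psi K (zeta K k) ∈ W := by
    intro k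
    have hz := zeta_mem (K := K) k
    rw [← hs, Submodule.mem_span_range_iff_exists_fun] at hz
    obtain ⟨c, hc⟩ := hz
    rw [comp_eq γ e hγ c _ 5 (zeta_hom k) hc, map_sum]
    refine Submodule.sum_mem _ fun i _ => ?_
    split_ifs with h5
    · by_cases h4 : e i ≤ 4
      · obtain ⟨l1, l2⟩ := low (γ i) (hmem i) (e i) h4 (hγ i)
        have : Psi K (homogeneousComponent (5 - e i) (c i) • γ i) = 0 := by
          simp only [Psi, LinearMap.coe_mk, AddHom.coe_mk, Pi.smul_apply, smul_eq_mul, Prod.mk_eq_zero]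
          constructor
          · linear_combination homogeneousComponent (5 - e i) (c i) * l1
          · linear_combination homogeneousComponent (5 - e i) (c i) * l2
        rw [this]; exact W.zero_mem
      · have h55 : 5 - e i = 0 := by omega
        rw [h55, homogeneousComponent_zero]
        have : (C (coeff 0 (c i)) : MvPolynomial (Fin 3) K) • γ i = coeff 0 (c i) • γ i := by
          funext j; simp [smul_eq_C_mul]
        rw [this, map_smul]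
        refine W.smul_mem _ (Submodule.subset_span ⟨⟨i, ?_⟩, rfl⟩)
        rintro rfl
        omega
    · rw [map_zero]; exact W.zero_mem
  have hli : LinearIndependent K fun k => (⟨Psi K (zeta K k), hW k⟩ : W) :=
    LinearIndependent.of_comp W.subtype psi_indep
  have : Module.Finite K W := Module.Finite.span_of_finite K (Set.finite_range _)
  have h1 := hli.fintype_card_le_finrank
  have h2 : Module.finrank K W ≤ Fintype.card {i // i ≠ i0} := finrank_range_le_card _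
  have h3 : Fintype.card {i // i ≠ i0} = 3 := by simp
  simp at h1
  omega

end Pool.Agent.H26Arr.PogB
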