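import Mathlib

set_option autoImplicit false

namespace Pool.Agent.Lib.H26Ppl

open Classical

theorem p4 {i j : ℕ} (h : i < j) : 4 * 4 ^ i ≤ 4 ^ j := by
  rw [← pow_succ']; exact Nat.pow_le_pow_right (by norm_num) h

theorem pp (j : ℕ) : 1 ≤ 4 ^ j := Nat.one_le_pow _ _ (by norm_num)

theorem ple {i j : ℕ} (h : i ≤ j) : 4 ^ i ≤ 4 ^ j := Nat.pow_le_pow_right (by norm_num) h

theorem ps (j : ℕ) : 4 ^ (j + 1) = 4 * 4 ^ j := pow_succ' _ _

/-- marks of parity `p` -/
def Mk (p m : ℕ) : Prop :=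
  ∃ E t, t ≤ E ∧ t % 2 = p ∧ (m = 4 ^ E + 4 ^ t ∨ m + 4 ^ t = 3 * 4 ^ E)

theorem Mk_loc {p E m : ℕ} (h1 : 3 * 4 ^ E ≤ 4 * m) (h2 : m ≤ 4 * 4 ^ E) (h : Mk p m) :
    ∃ t, t ≤ E ∧ t % 2 = p ∧ (m = 4 ^ E + 4 ^ t ∨ m + 4 ^ t = 3 * 4 ^ E) := by
  obtain ⟨E', t, ht, hp, h⟩ := h
  have := ple ht
  have := pp t
  have : E' = E := by
    rcases lt_trichotomy E' E with l | l | l
    · have := p4 l; omega
    · exact l
    · have := p4 l; omega
  subst this
  exact ⟨t, ht, hp, h⟩

theorem pow_tri (s t : ℕ) : 4 * 4 ^ s ≤ 4 ^ t ∨ s = t ∨ 4 * 4 ^ t ≤ 4 ^ s := by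
  rcases lt_trichotomy s t with l | l | l
  · exact Or.inl (p4 l)
  · exact Or.inr (Or.inl l)
  · exact Or.inr (Or.inr (p4 l))

theorem Mk_uniq {p q m : ℕ} (h : Mk p m) (h' : Mk q m) : p = q := by
  obtain ⟨E, t, ht, hp, h⟩ := h
  have := ple ht
  have := pp t
  obtain ⟨s, hs, hq, h'⟩ := Mk_loc (E := E) (by omega) (by omega) h'
  have := ple hs; have := pp s
  have := pp s
  rcases pow_tri s t with l | l | l
  · omega
  · subst l; omega
  · omega

noncomputable def u (m : ℕ) : Fin 3 := if Mk 0 m then 1 else if Mk 1 m then 2 else 0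

theorem u_congr {m m' : ℕ} (h : ∀ p, Mk p m ↔ Mk p m') : u m = u m' := by
  simp only [u, h]

theorem Mk_lt {p m : ℕ} (h : Mk p m) : p = 0 ∨ p = 1 := by
  obtain ⟨E, t, -, hp, -⟩ := h; omega

theorem Mk_of_u {p m m' : ℕ} (h : u m = u m') (hm : Mk p m) : Mk p m' := by
  unfold u at h
  rcases Mk_lt hm with rfl | rfl
  · rw [if_pos hm] at h
    split_ifs at h with h1 h2
    · exact h1
    · exact absurd h (by decide)
    · exact absurd h (by decide)
  · rw [if_neg (fun h0 => absurd (Mk_uniq h0 hm) (by decide)), if_pos hm] at h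
    split_ifs at h with h1 h2
    · exact absurd h (by decide)
    · exact h2
    · exact absurd h (by decide)

/-- the factor on positions `i+1, ..., j` is a palindrome -/
def Pal (i j : ℕ) : Prop := ∀ s s', i < s → i < s' → s + s' = i + j + 1 → u s = u s'

theorem symC (E i j : ℕ) (h1 : i + j + 1 = 16 * 4 ^ E) (h2 : 3 * 4 ^ E ≤ i + 1) : Pal i j := by
  have key : ∀ s s' p, i < s → i < s' → s + s' = i + j + 1 → Mk p s → Mk p s' := by
    intro s s' p a b c h
    have := ps E
    obtain ⟨t, ht, hp, h⟩ := Mk_loc (E := E + 1) (by omega) (by omega) h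
    exact ⟨E + 1, t, ht, hp, by omega⟩
  intro s s' a b c
  exact u_congr fun p => ⟨key s s' p a b c, key s' s p b a (by omega)⟩

theorem symZ (E i j : ℕ) (h1 : i + j + 1 = 28 * 4 ^ E) (h2 : 5 * 4 ^ E ≤ i) : Pal i j := by
  have key : ∀ s s' p, i < s → i < s' → s + s' = i + j + 1 → Mk p s → Mk p s' := by
    intro s s' p a b c h
    have := ps E
    have := ps (E + 1)
    by_cases hs : s ≤ 16 * 4 ^ E
    · obtain ⟨t, ht, hp, h⟩ := Mk_loc (E := E + 1) (by omega) (by omega) h
      refine ⟨E + 1 + 1, t, by omega, hp, ?_⟩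
      rcases pow_tri t (E + 1) with l | l | l
      · omega
      · subst l; omega
      · have := ple ht; omega
    · obtain ⟨t, ht, hp, h⟩ := Mk_loc (E := E + 1 + 1) (by omega) (by omega) h
      have := ple ht
      have ht' : t ≤ E + 1 := by
        by_contra hc
        have := ple (show E + 1 + 1 ≤ t by omega)
        omega
      exact ⟨E + 1, t, ht', hp, by omega⟩
  intro s s' a b c
  exact u_congr fun p => ⟨key s s' p a b c, key s' s p b a (by omega)⟩

theorem symM (i j c : ℕ) (hc : ∀ s p, i < s → s ≤ j → Mk p s → s = c)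
    (h : i + j + 1 = 2 * c ∨ j < c) : Pal i j := by
  have key : ∀ s s' p, i < s → i < s' → s + s' = i + j + 1 → Mk p s → Mk p s' := by
    intro s s' p a b e h1
    have := hc s p a (by omega) h1
    have : s' = s := by omega
    rwa [this]
  intro s s' a b c
  exact u_congr fun p => ⟨key s s' p a b c, key s' s p b a (by omega)⟩

/-! ### potential -/

def l (x : ℕ) : ℕ := Nat.clog 4 (x + 1)

theorem l_le (x d : ℕ) : l x ≤ d ↔ x < 4 ^ d := by
  rw [l, Nat.clog_le_iff_le_pow (by norm_num)]; omega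

theorem l_zero : l 0 = 0 := by simp [l]

theorem l_eq {x d : ℕ} (h1 : 4 ^ d ≤ x) (h2 : x < 4 * 4 ^ d) : l x = d + 1 := by
  have a := (l_le x (d + 1)).2 (by rw [ps]; exact h2)
  have b := mt (l_le x d).1 (by omega)
  omega

theorem l_succ (x : ℕ) : l (x + 1) = l x ∨ (l (x + 1) = l x + 1 ∧ x + 1 = 4 ^ l x) := by
  have h1 := (l_le x (l x)).1 le_rfl
  have h2 := (l_le (x + 1) (l (x + 1))).1 le_rfl
  have h3 := (l_le x (l (x + 1))).2 (by omega)
  by_cases h : x + 1 = 4 ^ l x
  · right
    exact ⟨l_eq (by omega) (by omega), h⟩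
  · left
    have := (l_le (x + 1) (l x)).2 (by omega)
    omega

def Φ (n : ℕ) : ℕ :=
  if n < 2 * 4 ^ Nat.log 4 n then
    min (Nat.log 4 n + l (n - 4 ^ Nat.log 4 n)) (2 * Nat.log 4 n - l (n - 4 ^ Nat.log 4 n))
  else min (Nat.log 4 n + 1 + l (3 * 4 ^ Nat.log 4 n - 1 - n))
    (2 * Nat.log 4 n + 1 - l (3 * 4 ^ Nat.log 4 n - 1 - n))

theorem Φ_R (E n x : ℕ) (h1 : n = 4 ^ E + x) (h2 : x < 4 ^ E) :
    Φ n = min (E + l x) (2 * E - l x) := by
  have : Nat.log 4 n = E := Nat.log_eq_of_pow_le_of_lt_pow (by omega) (by rw [ps]; omega)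
  rw [Φ, this, if_pos (by omega), show n - 4 ^ E = x by omega]

theorem Φ_L (E n x : ℕ) (h1 : 2 * 4 ^ E ≤ n) (h2 : n < 4 * 4 ^ E) (h3 : x = 3 * 4 ^ E - 1 - n) :
    Φ n = min (E + 1 + l x) (2 * E + 1 - l x) := by
  have : Nat.log 4 n = E := Nat.log_eq_of_pow_le_of_lt_pow (by omega) (by rw [ps]; omega)
  rw [Φ, this, if_neg (by omega), ← h3]

theorem Φ_zero : Φ 0 = 0 := by simp [Φ]

theorem loc (n : ℕ) (hn : n ≠ 0) : ∃ E, 4 ^ E ≤ n ∧ n < 4 * 4 ^ E :=
  ⟨Nat.log 4 n, Nat.pow_log_le_self 4 hn, by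
    have := Nat.lt_pow_succ_log_self (b := 4) (by norm_num) n
    rwa [pow_succ'] at this⟩

theorem Φ_step (n : ℕ) : Φ (n + 1) ≤ Φ n ∨ (Φ (n + 1) ≤ Φ n + 1 ∧ ∃ p, Mk p (n + 1)) := by
  rcases Nat.eq_zero_or_pos n with rfl | hn
  · left
    rw [Φ_R 0 (0 + 1) 0 (by simp) (by simp)]; simp
  obtain ⟨E, h1, h2⟩ := loc n (by omega)
  have := ps E
  have := pp E
  by_cases c1 : n + 1 = 4 * 4 ^ E
  · left
    rw [Φ_R (E + 1) (n + 1) 0 (by omega) (by omega), Φ_L E n 0 (by omega) h2 (by omega), l_zero]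
    omega
  by_cases c2 : n + 1 < 2 * 4 ^ E
  · rw [Φ_R E (n + 1) (n - 4 ^ E + 1) (by omega) (by omega),
      Φ_R E n (n - 4 ^ E) (by omega) (by omega)]
    rcases l_succ (n - 4 ^ E) with h | ⟨h, h'⟩
    · left; rw [h]
    · right
      have := (l_le (n - 4 ^ E) E).2 (by omega)
      exact ⟨by omega, _, E, l (n - 4 ^ E), this, rfl, by omega⟩
  by_cases c3 : n + 1 = 2 * 4 ^ E
  · right
    rw [Φ_L E (n + 1) (4 ^ E - 1) (by omega) (by omega) (by omega),
      Φ_R E n (4 ^ E - 1) (by omega) (by omega)]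
    exact ⟨by omega, _, E, E, le_rfl, rfl, by omega⟩
  by_cases c4 : 3 * 4 ^ E ≤ n + 1
  · left
    rw [Φ_L E (n + 1) 0 (by omega) (by omega) (by omega), Φ_L E n 0 (by omega) (by omega) (by omega)]
  · rw [Φ_L E (n + 1) (3 * 4 ^ E - 1 - (n + 1)) (by omega) (by omega) rfl,
      Φ_L E n (3 * 4 ^ E - 1 - (n + 1) + 1) (by omega) (by omega) (by omega)]
    rcases l_succ (3 * 4 ^ E - 1 - (n + 1)) with h | ⟨h, h'⟩
    · left; rw [h]
    · right
      have := (l_le (3 * 4 ^ E - 1 - (n + 1)) E).2 (by omega)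
      exact ⟨by omega, _, E, l (3 * 4 ^ E - 1 - (n + 1)), this, rfl, by omega⟩

theorem Φ_free (i j : ℕ) (hij : i ≤ j) (h : ∀ s p, i < s → s ≤ j → ¬ Mk p s) : Φ j ≤ Φ i := by
  induction j, hij using Nat.le_induction with
  | base => exact le_rfl
  | succ n hn ih =>
    have := ih fun s p a b => h s p a (by omega)
    rcases Φ_step n with h1 | ⟨-, p, h1⟩
    · omega
    · exact absurd h1 (h _ p (by omega) le_rfl)

theorem center {p m m' : ℕ} (hm : Mk p m) (hm' : Mk p m') (hlt : m < m')
    (hno : ∀ s q, m < s → s < m' → Mk q s → 2 * s = m + m') :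
    (∃ E, m + m' = 16 * 4 ^ E ∧ m + m' < 2 * m + 8 * 4 ^ E) ∨
      ∃ E, m + m' = 7 * 4 ^ E ∧ m + 1 = 3 * 4 ^ E := by
  obtain ⟨E, t, ht, hp, h⟩ := hm
  have := ple ht
  have := pp t
  have := ps t
  have := ps E
  by_cases c : t < E ∧ m = 4 ^ E + 4 ^ t
  · obtain ⟨c1, c2⟩ := c
    have := p4 c1
    have n1 : Mk ((t + 1) % 2) (4 ^ E + 4 ^ (t + 1)) := ⟨E, t + 1, c1, rfl, Or.inl rfl⟩
    rcases lt_trichotomy (4 ^ E + 4 ^ (t + 1)) m' with l | l | l
    · have := hno _ _ (by omega) l n1
      rcases Nat.lt_or_ge (t + 1) E with l2 | l2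
      · exfalso
        have := p4 l2
        obtain ⟨s, hs, -, h2⟩ := Mk_loc (E := E) (by omega) (by omega) hm'
        have := ple hs; have := pp s
        rcases pow_tri s (t + 1) with l3 | l3 | l3
        · omega
        · subst l3; omega
        · omega
      · have : E = t + 1 := by omega
        subst this
        exact Or.inl ⟨t, by omega, by omega⟩
    · have := Mk_uniq (l ▸ n1) hm'; omega
    · exfalso
      obtain ⟨s, hs, -, h2⟩ := Mk_loc (E := E) (by omega) (by omega) hm'
      have := ple hs; have := pp s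
      rcases pow_tri s t with l3 | l3 | l3
      · omega
      · subst l3; omega
      · omega
  · have h : m + 4 ^ t = 3 * 4 ^ E := by
      rcases Nat.lt_or_ge t E with l | l
      · omega
      · have : t = E := by omega
        subst this; omega
    rcases t with _ | t
    · have n1 : Mk 0 (4 ^ (E + 1) + 4 ^ 0) := ⟨E + 1, 0, by omega, rfl, Or.inl rfl⟩
      rcases lt_trichotomy (4 ^ (E + 1) + 4 ^ 0) m' with l | l | l
      · exfalso
        have := hno _ _ (by omega) l n1
        obtain ⟨s, hs, hq, h2⟩ := Mk_loc (E := E + 1) (by omega) (by omega) hm'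
        have := ple hs; have := pp s
        rcases pow_tri s (E + 1) with l3 | l3 | l3
        · rcases pow_tri s E with l4 | l4 | l4 <;> [omega; (subst l4; omega); omega]
        · subst l3
          rcases E with _ | E
          · omega
          · have := ps E; have := pp E; omega
        · omega
      · exact Or.inr ⟨E, by omega, by omega⟩
      · exfalso
        obtain ⟨s, hs, hq, h2⟩ := Mk_loc (E := E + 1) (by omega) (by omega) hm'
        have := ple hs; have := pp s
        have := pp s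
        omega
    · exfalso
      have := ps t
      have := pp t
      have n1 : Mk (t % 2) (3 * 4 ^ E - 4 ^ t) := ⟨E, t, by omega, rfl, Or.inr (by omega)⟩
      rcases lt_trichotomy (3 * 4 ^ E - 4 ^ t) m' with l | l | l
      · have := hno _ _ (by omega) l n1
        obtain ⟨s, hs, -, h2⟩ := Mk_loc (E := E) (by omega) (by omega) hm'
        have := ple hs; have := pp s
        omega
      · have := Mk_uniq (l ▸ n1) hm'; omega
      · obtain ⟨s, hs, -, h2⟩ := Mk_loc (E := E) (by omega) (by omega) hm'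
        have := ple hs; have := pp s
        rcases pow_tri s t with l3 | l3 | l3
        · omega
        · subst l3; omega
        · omega

theorem Φ_pal (i j : ℕ) (hij : i ≤ j) (h : Pal i j) : Φ j ≤ Φ i + 1 := by
  have refl : ∀ s p, i < s → s ≤ j → Mk p s → Mk p (i + j + 1 - s) := fun s p a b c =>
    Mk_of_u (h s _ a (by omega) (by omega)) c
  by_cases hex : ∃ m, (i < m ∧ 2 * m < i + j + 1 ∧ ∃ p, Mk p m)
  · obtain ⟨m, ⟨h1, h2, p, hp⟩, hmax⟩ : ∃ m, (i < m ∧ 2 * m < i + j + 1 ∧ ∃ p, Mk p m) ∧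
        ∀ m', (i < m' ∧ 2 * m' < i + j + 1 ∧ ∃ p, Mk p m') → m' ≤ m := by
      obtain ⟨m0, hm0⟩ := hex
      exact ⟨Nat.findGreatest (fun m => i < m ∧ 2 * m < i + j + 1 ∧ ∃ p, Mk p m) (i + j),
        Nat.findGreatest_spec (P := fun m => i < m ∧ 2 * m < i + j + 1 ∧ ∃ p, Mk p m)
          (m := m0) (by omega) hm0,
        fun m' hm' => Nat.le_findGreatest (by omega) hm'⟩
    have hc := center hp (refl m p h1 (by omega) hp) (by omega) (fun s q a b c => by
      by_contra hne
      by_cases hs : 2 * s < i + j + 1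
      · have := hmax s ⟨by omega, hs, q, c⟩; omega
      · have := hmax (i + j + 1 - s) ⟨by omega, by omega, q, refl s q (by omega) (by omega) c⟩
        omega)
    rw [show m + (i + j + 1 - m) = i + j + 1 by omega] at hc
    rcases hc with ⟨F, e1, e2⟩ | ⟨E, e1, e2⟩
    · have := pp F
      have := ps F
      have hi : 3 * 4 ^ F ≤ i + 1 := by
        by_contra hc
        have := refl (3 * 4 ^ F - 1) 0 (by omega) (by omega) ⟨F, 0, by omega, rfl, by omega⟩
        obtain ⟨s, hs, -, h2⟩ := Mk_loc (E := F + 1) (by omega) (by omega) this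
        have := ple hs; have := pp s
        omega
      by_cases c : 4 * 4 ^ F ≤ i
      · rw [Φ_R (F + 1) i (i - 4 * 4 ^ F) (by omega) (by omega),
          Φ_L (F + 1) j (i - 4 * 4 ^ F) (by omega) (by omega) (by omega)]
        omega
      · rw [Φ_L F i 0 (by omega) (by omega) (by omega),
          Φ_L (F + 1) j 0 (by omega) (by omega) (by omega), l_zero]
        omega
    · have := pp E
      have := ps E
      by_cases c : 2 * 4 ^ E ≤ i
      · rw [Φ_L E i (3 * 4 ^ E - 1 - i) (by omega) (by omega) rfl,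
          Φ_R (E + 1) j (3 * 4 ^ E - 1 - i) (by omega) (by omega)]
        omega
      · rw [Φ_R (E + 1) j (3 * 4 ^ E - 1 - i) (by omega) (by omega),
          l_eq (d := E) (by omega) (by omega)]
        rcases E with _ | F
        · omega
        · have := ps F
          have := pp F
          have := ps (F + 1)
          have hi : 5 * 4 ^ F ≤ i := by
            by_contra hc
            have := refl (5 * 4 ^ F) _ (by omega) (by omega) ⟨F + 1, F, by omega, rfl, by omega⟩
            obtain ⟨s, hs, -, h2⟩ := Mk_loc (E := F + 1 + 1) (by omega) (by omega) this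
            have := ple hs; have := pp s
            rcases pow_tri s (F + 1) with l3 | l3 | l3
            · omega
            · subst l3; omega
            · omega
          rw [Φ_R (F + 1) i (i - 4 * 4 ^ F) (by omega) (by omega),
            l_eq (d := F) (by omega) (by omega)]
          omega
  · push Not at hex
    by_cases hm : ∃ m p, i < m ∧ m ≤ j ∧ Mk p m
    · obtain ⟨m, p, a, b, c⟩ := hm
      have hcen : ∀ s q, i < s → s ≤ j → Mk q s → 2 * s = i + j + 1 := by
        intro s q a b c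
        by_contra hne
        by_cases hs : 2 * s < i + j + 1
        · exact hex s a hs q c
        · exact hex _ (by omega) (by omega) q (refl s q a b c)
      have e := hcen m p a b c
      have h1 := Φ_free m j b fun s q a' b' c' => by have := hcen s q (by omega) b' c'; omega
      have h2 := Φ_free i (m - 1) (by omega) fun s q a' b' c' => by
        have := hcen s q a' (by omega) c'; omega
      have h3 := Φ_step (m - 1)
      rw [show m - 1 + 1 = m by omega] at h3
      omega
    · push Not at hm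
      have := Φ_free i j hij fun s q a b => hm s q a b
      omega

end Pool.Agent.Lib.H26Ppl
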