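import Mathlib

namespace Pool.Agent.Lib.helper26.RSet
open MeasureTheory ProbabilityTheory Metric Finset
open scoped ENNReal BoundedContinuousFunction Pointwise RealInnerProductSpace Classical

section defs
variable {X : Type} [NormedAddCommGroup X] [NormedSpace ℝ X]

/-- `A` is a nonempty bounded convex set and `z = R(A)` is its support function on `S_{X*}` -/
def Rep (A : Set X) (z : sphere (0 : StrongDual ℝ X) 1 →ᵇ ℝ) : Prop :=
  A.Nonempty ∧ Convex ℝ A ∧ Bornology.IsBounded A ∧ ∀ φ, z φ = sSup (φ.1 '' A)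

/-- `Ψ n` are uniformly bounded independent random sets, all with expectation `U` -/
def RandomSets {Ω : Type} [MeasurableSpace Ω] (P : Measure Ω) (Ψ : ℕ → Ω → Set X) (U : Set X) :
    Prop :=
  ∃ (R : ℕ → Ω → sphere (0 : StrongDual ℝ X) 1 →ᵇ ℝ) (RU : sphere (0 : StrongDual ℝ X) 1 →ᵇ ℝ),
    (∀ n ω, Rep (Ψ n ω) (R n ω)) ∧ Rep U RU ∧ (∀ n, @Measurable _ _ _ (borel _) (R n)) ∧
    iIndepFun (m := fun _ => borel _) R P ∧ (∀ n, Integrable (R n) P ∧ ∫ ω, R n ω ∂P = RU) ∧
    ∃ r, ∀ n ω, Ψ n ω ⊆ closedBall 0 r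
end defs

section hilbert
variable {X : Type} [NormedAddCommGroup X] [InnerProductSpace ℝ X]

structure SL (C : ℝ) (h : X → ℝ) : Prop where
  hom : ∀ c : ℝ, ∀ x, h (c • x) = |c| * h x
  add : ∀ x y, h (x + y) ≤ h x + h y
  nn : ∀ x, 0 ≤ h x
  le : ∀ x, h x ≤ C * ‖x‖

variable {C D : ℝ} {h g : X → ℝ}

lemma SL.plus (a : SL C h) (b : SL D g) : SL (C + D) fun x => h x + g x :=
  ⟨fun c x => by rw [a.hom, b.hom, mul_add], fun x y => by linarith [a.add x y, b.add x y],
    fun x => add_nonneg (a.nn x) (b.nn x), fun x => by linarith [a.le x, b.le x]⟩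

lemma SL.summable {f : ℕ → X → ℝ} (a : ∀ j, SL ((1 / 2) ^ j) (f j)) (x : X) :
    Summable fun j => f j x :=
  .of_nonneg_of_le (fun j => (a j).nn x) (fun j => (a j).le x) (summable_geometric_two.mul_right _)

lemma SL.tsum {f : ℕ → X → ℝ} (a : ∀ j, SL ((1 / 2) ^ j) (f j)) : SL 2 fun x => ∑' j, f j x :=
  ⟨fun c x => by simp only [(a _).hom, tsum_mul_left], fun x y => by
    rw [← (SL.summable a x).tsum_add (SL.summable a y)]
    exact (SL.summable a _).tsum_le_tsum (fun j => (a j).add x y)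
      ((SL.summable a x).add (SL.summable a y)), fun x => tsum_nonneg fun j => (a j).nn x,
    fun x => hasSum_le (fun j => (a j).le x) (SL.summable a x).hasSum
      (hasSum_geometric_two.mul_right _)⟩

lemma SL.cont (a : SL C h) : Continuous h :=
  (LipschitzWith.of_le_add_mul' C fun x y => by
    have := a.add y (x - y)
    rw [add_sub_cancel] at this
    rw [dist_eq_norm]
    linarith [a.le (x - y)]).continuous

def K (h : X → ℝ) : Set X := {y | ∀ x, ⟪x, y⟫ ≤ h x}

lemma SL.sub (a : SL C h) (hC : 0 ≤ C) : K h ⊆ closedBall 0 C := fun y hy => by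
  have := (hy y).trans (a.le y)
  rw [real_inner_self_eq_norm_sq] at this
  rw [mem_closedBall_zero_iff]
  nlinarith [norm_nonneg y]

variable [CompleteSpace X]

lemma SL.attain (a : SL C h) (x : X) : ∃ y ∈ K h, ⟪x, y⟫ = h x := by
  have key : ∃ g : X →ₗ[ℝ] ℝ, g x = h x ∧ ∀ x, g x ≤ h x := by
    rcases eq_or_ne x 0 with rfl | hx
    · exact ⟨0, by simpa using (a.hom 0 0).symm, a.nn⟩
    obtain ⟨g, h1, h2⟩ := exists_extension_of_le_sublinear (LinearPMap.mkSpanSingleton x (h x) hx) h
      (fun c hc x => by rw [a.hom, abs_of_pos hc]) a.add fun ⟨z, hz⟩ => by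
        obtain ⟨c, rfl⟩ := Submodule.mem_span_singleton.1 hz
        rw [LinearPMap.mkSpanSingleton'_apply, a.hom]
        exact mul_le_mul_of_nonneg_right (le_abs_self c) (a.nn x)
    exact ⟨g, (h1 ⟨x, Submodule.mem_span_singleton_self x⟩).trans
      (LinearPMap.mkSpanSingleton_apply ℝ ℝ hx _), h2⟩
  obtain ⟨g, h1, h2⟩ := key
  let G : StrongDual ℝ X := g.mkContinuous C fun z => abs_le.2
    ⟨by have := (h2 (-z)).trans (a.le _); simp at this; linarith, (h2 z).trans (a.le z)⟩
  have e : ∀ z, ⟪z, (InnerProductSpace.toDual ℝ X).symm G⟫ = g z := fun z => by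
    rw [real_inner_comm, InnerProductSpace.toDual_symm_apply]; rfl
  exact ⟨_, fun z => (e z).trans_le (h2 z), (e x).trans h1⟩

noncomputable def SL.z (a : SL C h) : sphere (0 : StrongDual ℝ X) 1 →ᵇ ℝ :=
  .ofNormedAddCommGroup (fun φ => h ((InnerProductSpace.toDual ℝ X).symm φ))
    (a.cont.comp (by fun_prop)) C fun φ => (abs_of_nonneg (a.nn _)).trans_le
      ((a.le _).trans_eq (by simp))

lemma SL.rep (a : SL C h) (hC : 0 ≤ C) : Rep (K h) a.z := by
  refine ⟨(a.attain 0).imp fun _ h => h.1, fun y hy z hz s t hs ht hst x => ?_,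
    isBounded_closedBall.subset (a.sub hC), fun φ => (IsGreatest.csSup_eq ⟨?_, ?_⟩).symm⟩
  · rw [inner_add_right, inner_smul_right, inner_smul_right, ← one_mul (h x), ← hst, add_mul]
    gcongr
    exacts [hy x, hz x]
  · obtain ⟨y, h1, h2⟩ := a.attain ((InnerProductSpace.toDual ℝ X).symm φ)
    exact ⟨y, h1, InnerProductSpace.toDual_symm_apply.symm.trans h2⟩
  · rintro _ ⟨y, hy, rfl⟩
    exact InnerProductSpace.toDual_symm_apply.symm.trans_le (hy _)
end hilbert

abbrev ι := Σ N : ℕ, (i : Fin N) → Fin (4 ^ (i : ℕ))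
/-- the Hilbert space `ℓ²` over a countable index set -/
abbrev X := lp (fun _ : ι => ℝ) 2
abbrev Ω := (n : ℕ) → Fin (4 ^ n)
noncomputable def P : Measure Ω := Measure.infinitePi fun _ => uniformOn Set.univ
instance : IsProbabilityMeasure P := by unfold P; infer_instance

noncomputable def B (m : ℕ) : Finset ι := (range m).sigma fun _ => univ
noncomputable def S (n : ℕ) (v : Fin (4 ^ n)) : Finset ι :=
  {l ∈ B (2 * n + 2) | ∃ h : n < l.1, l.2 ⟨n, h⟩ = v}
noncomputable def pr (s : Finset ι) (x : X) : EuclideanSpace ℝ s := WithLp.toLp 2 fun l => x l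
noncomputable def q (n : ℕ) (v : Fin (4 ^ n)) (x : X) : ℝ := ‖pr (S n v) x‖
noncomputable def u (n : ℕ) (x : X) : ℝ := (∑ v, q n v x) / 4 ^ n

lemma q_sq (n : ℕ) (v : Fin (4 ^ n)) (x : X) : q n v x ^ 2 = ∑ l ∈ S n v, x l ^ 2 := by
  rw [q, EuclideanSpace.real_norm_sq_eq, ← sum_coe_sort (S n v) fun l => x l ^ 2]; rfl

lemma q_sum (n : ℕ) (x : X) : ∑ v, q n v x ^ 2 ≤ ‖x‖ ^ 2 := by
  simp only [q_sq]
  rw [← sum_biUnion fun v _ w _ h => disjoint_left.2 fun l a b => h (by
    obtain ⟨_, rfl⟩ := (mem_filter.1 a).2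
    exact (mem_filter.1 b).2.2)]
  simpa using lp.sum_rpow_le_norm_rpow (by norm_num) x _

lemma slq (n : ℕ) (v : Fin (4 ^ n)) : SL 1 (q n v) :=
  ⟨fun c x => by
      rw [q, show pr (S n v) (c • x) = c • pr (S n v) x by ext; simp [pr], norm_smul]; rfl,
    fun x y => by
      rw [q, show pr (S n v) (x + y) = pr (S n v) x + pr (S n v) y by ext; simp [pr]]
      exact norm_add_le _ _,
    fun _ => norm_nonneg _, fun x => by
      rw [one_mul]
      exact abs_le_of_sq_le_sq' ((single_le_sum (fun _ _ => sq_nonneg _) (mem_univ v)).trans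
        (q_sum n x)) (norm_nonneg _) |>.2⟩

lemma slu (n : ℕ) : SL ((1 / 2) ^ n) (u n) :=
  ⟨fun c x => by simp only [u, (slq n _).hom, ← mul_sum, mul_div_assoc], fun x y => by
    rw [u, u, u, ← add_div, ← sum_add_distrib]; gcongr; exact (slq n _).add x y,
    fun x => div_nonneg (sum_nonneg fun v _ => (slq n v).nn x) (by positivity), fun x => by
      refine (abs_le_of_sq_le_sq' ?_ (by positivity)).2
      have := (sq_sum_le_card_mul_sum_sq (s := univ) (f := fun v => q n v x)).trans
        (mul_le_mul_of_nonneg_left (q_sum n x) (by positivity))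
      rw [u, div_pow, div_le_iff₀ (by positivity)]
      refine this.trans_eq ?_
      have : (4 : ℝ) ^ n = (2 ^ n) ^ 2 := by rw [← pow_mul, mul_comm, pow_mul]; norm_num
      simp [mul_pow, this]; field_simp⟩

lemma slc (n j : ℕ) : SL ((1 / 2) ^ j) fun x => if j = n then 0 else u j x := by
  split_ifs
  exacts [⟨by simp, by simp, by simp, fun x => by positivity⟩, slu j]

lemma slh (n : ℕ) (v : Fin (4 ^ n)) :
    SL (1 + 2) fun x => q n v x + ∑' j, if j = n then 0 else u j x := (slq n v).plus (.tsum (slc n))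

noncomputable def Ψ (n : ℕ) (ω : Ω) : Set X :=
  K fun x => q n (ω n) x + ∑' j, if j = n then 0 else u j x
noncomputable def U : Set X := K fun x => ∑' j, u j x

lemma split (n : ℕ) (x : X) : ∑' j, u j x = u n x + ∑' j, if j = n then 0 else u j x :=
  (SL.summable slu x).tsum_eq_add_tsum_ite n

theorem random : RandomSets P Ψ U := by
  let : MeasurableSpace (sphere (0 : StrongDual ℝ X) 1 →ᵇ ℝ) := borel _
  refine ⟨fun n ω => (slh n (ω n)).z, (SL.tsum slu).z, fun n ω => SL.rep _ (by norm_num),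
    SL.rep _ two_pos.le, fun n => (measurable_of_finite fun v => (slh n v).z).comp
      (measurable_pi_apply n), iIndepFun_infinitePi (X := fun n v => (slh n v).z)
      fun n => measurable_of_finite _, fun n => ?_, _, fun n ω => (slh n _).sub (by norm_num)⟩
  have m := measurePreserving_eval_infinitePi (fun n : ℕ => uniformOn (Set.univ : Set (Fin (4 ^ n)))) n
  have i : Integrable (fun v => (slh n v).z) (uniformOn Set.univ) := .of_finite
  refine ⟨m.integrable_comp_of_integrable i, ?_⟩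
  refine (integral_map m.aemeasurable (m.map_eq.symm ▸ i.1)).symm.trans ?_
  rw [m.map_eq, integral_fintype i]
  ext φ
  simp only [BoundedContinuousFunction.coe_sum, Finset.sum_apply, BoundedContinuousFunction.coe_smul,
    SL.z, BoundedContinuousFunction.coe_ofNormedAddCommGroup, measureReal_def,
    uniformOn_univ, smul_eq_mul]
  rw [split n, u]
  simp [mul_add, sum_add_distrib, ← mul_sum, div_eq_inv_mul]

theorem compact : IsCompact U := by
  refine isCompact_iff_totallyBounded_isComplete.2 ⟨Metric.totallyBounded_iff.2 fun ε hε => ?_,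
    IsClosed.isComplete (by
      simp only [U, K, Set.ofPred_forall]
      exact isClosed_iInter fun x => isClosed_le (by fun_prop) continuous_const)⟩
  obtain ⟨n, hn⟩ := exists_pow_lt_of_lt_one (show 0 < ε / 4 by positivity)
    (show (1 / 2 : ℝ) < 1 by norm_num)
  let W : Submodule ℝ X := .span ℝ ↑((B (2 * n)).image fun l => (lp.single 2 l 1 : X))
  obtain ⟨t, h1, h2⟩ := Metric.totallyBounded_iff.1 ((isCompact_closedBall (0 : W) 2).image
    continuous_subtype_val).totallyBounded _ (half_pos hε)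
  refine ⟨t, h1, fun y hy => ?_⟩
  obtain ⟨z, hz, h3⟩ := Set.mem_iUnion₂.1 (h2 ⟨W.orthogonalProjectionOnto y, mem_closedBall_zero_iff.2
    ((W.norm_orthogonalProjectionOnto_apply_le y).trans
      (mem_closedBall_zero_iff.1 ((SL.tsum slu).sub two_pos.le hy))), rfl⟩)
  set w := y - W.starProjection y with hw
  have w1 : w ∈ Wᗮ := W.sub_starProjection_mem_orthogonal y
  have w2 : ∀ j < n, u j w = 0 := fun j hj => by
    refine div_eq_zero_iff.2 (.inl (sum_eq_zero fun v _ => (pow_eq_zero_iff two_ne_zero).1 ?_))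
    rw [q_sq]
    refine sum_eq_zero fun l hl => ?_
    have := w1 (lp.single 2 l 1) (Submodule.subset_span (mem_coe.2 (mem_image_of_mem _ (by
      have := (mem_filter.1 hl).1
      simp only [B, mem_sigma, mem_range, mem_univ, and_true] at this ⊢; omega))))
    simpa [lp.inner_single_left] using this
  have w3 : ∑' j, u j w ≤ 2 * (1 / 2) ^ n * ‖w‖ := by
    rw [← (SL.summable slu w).sum_add_tsum_nat_add n, sum_eq_zero fun j hj => w2 j (mem_range.1 hj),
      zero_add]
    exact hasSum_le (fun j => ((slu (j + n)).le w).trans_eq (by rw [pow_add]))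
      ((summable_nat_add_iff n).2 (SL.summable slu w)).hasSum
      ((hasSum_geometric_two.mul_right _).mul_right _)
  have w4 : ⟪w, y⟫ = ‖w‖ ^ 2 := by
    rw [← real_inner_self_eq_norm_sq, show ⟪w, w⟫ = ⟪w, y⟫ - ⟪w, W.starProjection y⟫ from
      inner_sub_right _ _ _, Submodule.inner_left_of_mem_orthogonal (W.starProjection_apply_mem y) w1,
      sub_zero]
  have w5 : ‖w‖ < ε / 2 := by
    have := w4 ▸ (hy w).trans w3
    nlinarith [norm_nonneg w]
  refine Set.mem_iUnion₂.2 ⟨z, hz, (dist_triangle y (W.starProjection y) z).trans_lt ?_⟩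
  rw [dist_eq_norm]
  linarith [show dist (W.starProjection y) z < ε / 2 from h3]

theorem far (ω : Ω) (N : ℕ) (hN : 8 ≤ N) :
    1 / 4 ≤ hausdorffEDist ((N : ℝ)⁻¹ • ∑ i ∈ range N, Ψ i ω) U := by
  let l : ι := ⟨N, fun i => ω i⟩
  let e : X := lp.single 2 l 1
  have he : ‖e‖ = 1 := by simp [e, lp.norm_single]
  have hN' : (8 : ℝ) ≤ N := by exact_mod_cast hN
  choose a h1 h2 using fun i => (slh i (ω i)).attain e
  refine le_trans (le_infEDist.2 fun y hy => ?_) (infEDist_le_hausdorffEDist_of_mem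
    (Set.smul_mem_smul_set (Set.finsetSum_mem_finsetSum _ _ a fun i _ => h1 i)))
  have b1 : ∑ i ∈ range N, u i e ≤ 2 :=
    ((SL.summable slu e).sum_le_tsum _ fun i _ => (slu i).nn e).trans
      (((SL.tsum slu).le e).trans_eq (by rw [he, mul_one]))
  have b2 : (N : ℝ) / 2 ≤ ∑ i ∈ range N, q i (ω i) e := by
    refine le_trans ?_ (sum_le_sum_of_subset_of_nonneg (s := Ico (N / 2) N)
      (fun i hi => mem_range.2 (mem_Ico.1 hi).2) fun i _ _ => (slq i _).nn e)
    refine le_trans ?_ (card_nsmul_le_sum _ _ 1 fun i hi => ?_)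
    · rw [Nat.card_Ico, nsmul_one, div_le_iff₀ two_pos]; norm_cast; omega
    · refine (abs_le_of_sq_le_sq' ?_ ((slq i _).nn e)).2
      rw [q_sq]
      rw [mem_Ico] at hi
      refine le_trans (by simp [e]) (single_le_sum (fun _ _ => sq_nonneg _) (a := l) ?_)
      simp only [S, B, mem_filter, mem_sigma, mem_range, mem_univ, and_true]
      exact ⟨by simp only [l]; omega, hi.2, rfl⟩
  have b3 : ⟪e, (N : ℝ)⁻¹ • ∑ i ∈ range N, a i⟫ =
      (∑ i ∈ range N, q i (ω i) e - ∑ i ∈ range N, u i e) / N + ∑' j, u j e := by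
    rw [inner_smul_right, inner_sum, sum_congr rfl fun i _ => (h2 i).trans
      (show _ = q i (ω i) e - u i e + ∑' j, u j e by rw [split i]; ring)]
    simp [sum_add_distrib]; field_simp
  have b4 := real_inner_le_norm e ((N : ℝ)⁻¹ • ∑ i ∈ range N, a i - y)
  rw [he, one_mul, inner_sub_right, b3] at b4
  have b5 : 1 / 4 ≤ (∑ i ∈ range N, q i (ω i) e - ∑ i ∈ range N, u i e) / N := by
    rw [le_div_iff₀ (by linarith)]; linarith
  rw [edist_dist, dist_eq_norm, show (1 / 4 : ℝ≥0∞) = ENNReal.ofReal (1 / 4) by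
    rw [ENNReal.ofReal_div_of_pos four_pos]; simp]
  exact ENNReal.ofReal_le_ofReal (by linarith [hy e])

end Pool.Agent.Lib.helper26.RSet
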