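import Mathlib

/-! A two-variable exponential inequality (proved by a Riccati comparison), used for the
concavity of Tsallis / Renyi entropies of Bernoulli sums. -/

namespace H26.Ren
open Real Set Filter Topology

noncomputable def eps (r s : ℝ) : ℝ :=
  r * exp (-(r * s)) - r + (1 - r) * (exp (r * s) - 2 + exp (-(r * s))) / (1 - exp (-((1 - r) * s)))

noncomputable def GG (r s e u : ℝ) : ℝ :=
  (exp (-(r * s)) + exp (r * u) - 2 + r * (exp (u - s) - 1) + (exp (u - s) - 1) * e) * eps r (-u)
    + e * (exp (-(r * s)) + exp (r * u) - 2 + r * (exp (u - s) - 1))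
    + r ^ 2 * (exp (u - s) - 1) ^ 2 / exp (u - s) - (exp (-(r * s)) + exp (r * u) - 2) ^ 2

lemma eps_zero (r : ℝ) : eps r 0 = 0 := by simp [eps]

lemma eps_neg_eq (r u : ℝ) : eps r (-u) =
    r * exp (r * u) - r + (1 - r) * (exp (-(r * u)) - 2 + exp (r * u)) / (1 - exp ((1 - r) * u)) := by
  simp [eps]

lemma eps_add_neg {r : ℝ} (h1 : r < 1) (s : ℝ) :
    eps r s + eps r (-s) = exp (r * s) + exp (-(r * s)) - 2 := by
  by_cases hs : s = 0
  · subst hs; simp [eps_zero]; norm_num
  rw [eps_neg_eq, eps]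
  have hY : exp ((1 - r) * s) ≠ 1 := by
    rw [Ne, exp_eq_one_iff]; exact mul_ne_zero (by linarith) hs
  have hY0 := exp_pos ((1 - r) * s)
  have hX0 := exp_pos (r * s)
  rw [exp_neg ((1 - r) * s), exp_neg (r * s)]
  generalize exp ((1 - r) * s) = Y at *
  generalize exp (r * s) = X at *
  have h1 : 1 - Y ≠ 0 := fun h => hY (by linarith)
  have h2 : Y - 1 ≠ 0 := fun h => hY (by linarith)
  have h3 : 1 - Y⁻¹ = (Y - 1) / Y := by field_simp
  rw [h3]
  field_simp
  ring

/-- the antisymmetry making the telescoping work -/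
lemma eps_anti {r : ℝ} (h1 : r < 1) (s : ℝ) :
    exp (-s) * (r + eps r s) + exp (-(r * s)) * (r + eps r (-s))
      = r * (exp (-(r * s)) * exp (-s) + 1) := by
  by_cases hs : s = 0
  · subst hs; simp [eps_zero]; ring
  rw [eps_neg_eq, eps]
  have hY : exp ((1 - r) * s) ≠ 1 := by
    rw [Ne, exp_eq_one_iff]; exact mul_ne_zero (by linarith) hs
  have hY0 := exp_pos ((1 - r) * s)
  have hX0 := exp_pos (r * s)
  have hs' : exp s = exp (r * s) * exp ((1 - r) * s) := by rw [← exp_add]; ring_nf
  rw [exp_neg ((1 - r) * s), exp_neg (r * s), exp_neg s, hs']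
  generalize exp ((1 - r) * s) = Y at *
  generalize exp (r * s) = X at *
  have h1 : 1 - Y ≠ 0 := fun h => hY (by linarith)
  have h2 : Y - 1 ≠ 0 := fun h => hY (by linarith)
  have h3 : 1 - Y⁻¹ = (Y - 1) / Y := by field_simp
  rw [h3]
  field_simp
  ring

lemma eps_nonneg {r : ℝ} (h0 : 0 < r) (h1 : r < 1) (s : ℝ) : 0 ≤ eps r s := by
  by_cases hs : s = 0
  · subst hs; simp [eps_zero]
  rw [eps]
  have hY : exp ((1 - r) * s) ≠ 1 := by
    rw [Ne, exp_eq_one_iff]; exact mul_ne_zero (by linarith) hs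
  have hY0 := exp_pos ((1 - r) * s)
  have hX0 := exp_pos (r * s)
  have a1 : r * s + 1 ≤ exp (r * s) := add_one_le_exp _
  have a2 : -((1 - r) * s) + 1 ≤ exp (-((1 - r) * s)) := add_one_le_exp _
  have a3 : 0 < s → 1 < exp (r * s) ∧ 1 < exp ((1 - r) * s) := fun h =>
    ⟨one_lt_exp_iff.2 (by positivity), one_lt_exp_iff.2 (mul_pos (by linarith) h)⟩
  have a4 : s < 0 → exp (r * s) < 1 ∧ exp ((1 - r) * s) < 1 := fun h =>
    ⟨exp_lt_one_iff.2 (by nlinarith), exp_lt_one_iff.2 (by nlinarith)⟩
  rw [exp_neg ((1 - r) * s)] at a2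
  rw [exp_neg ((1 - r) * s), exp_neg (r * s)]
  generalize exp ((1 - r) * s) = Y at *
  generalize exp (r * s) = X at *
  have h2 : Y - 1 ≠ 0 := fun h => hY (by linarith)
  have h3 : 1 - Y⁻¹ = (Y - 1) / Y := by field_simp
  have key : r * (1 - Y⁻¹) ≤ (1 - r) * (X - 1) := by nlinarith
  have e : r * X⁻¹ - r + (1 - r) * (X - 2 + X⁻¹) / (1 - Y⁻¹)
      = ((X - 1) / (1 - Y⁻¹)) * ((1 - r) * (X - 1) - r * (1 - Y⁻¹)) / X := by
    rw [h3]; field_simp; ring
  rw [e]
  have : 0 ≤ (X - 1) / (1 - Y⁻¹) := by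
    rcases lt_or_gt_of_ne hs with h | h
    · obtain ⟨b1, b2⟩ := a4 h
      apply div_nonneg_of_nonpos (by linarith)
      rw [h3]; exact div_nonpos_of_nonpos_of_nonneg (by linarith) hY0.le
    · obtain ⟨b1, b2⟩ := a3 h
      apply div_nonneg (by linarith)
      rw [h3]; exact div_nonneg (by linarith) hY0.le
  have h4 : 0 ≤ (1 - r) * (X - 1) - r * (1 - Y⁻¹) := by linarith
  positivity

lemma tendsto_eps {r : ℝ} (h0 : 0 < r) (h1 : r < 1) : ContinuousAt (eps r) 0 := by
  have hS : Tendsto (fun s : ℝ => exp (r * s) + exp (-(r * s)) - 2) (𝓝 0) (𝓝 0) := by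
    have : Continuous (fun s : ℝ => exp (r * s) + exp (-(r * s)) - 2) := by fun_prop
    have h := this.tendsto 0
    norm_num at h
    exact h
  rw [ContinuousAt, eps_zero]
  refine tendsto_of_tendsto_of_tendsto_of_le_of_le tendsto_const_nhds hS
    (fun s => eps_nonneg h0 h1 s) (fun s => ?_)
  have := eps_add_neg h1 s
  have := eps_nonneg h0 h1 (-s)
  simp only
  linarith

lemma hasDerivAt_eps {r : ℝ} (h0 : 0 < r) (h1 : r < 1) {u : ℝ} (hu : 0 < u) :
    HasDerivAt (fun u => eps r (-u))
      (r * (exp (r * u) - 1) - eps r (-u)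
        + eps r (-u) ^ 2 / (exp (r * u) + (exp (r * u))⁻¹ - 2)) u := by
  have hY : 1 < exp ((1 - r) * u) := one_lt_exp_iff.2 (mul_pos (by linarith) hu)
  have hZ : 1 < exp (r * u) := one_lt_exp_iff.2 (by positivity)
  simp only [eps_neg_eq]
  have dZ : HasDerivAt (fun u => exp (r * u)) (exp (r * u) * r) u := by
    simpa using ((hasDerivAt_id u).const_mul r).exp
  have dW : HasDerivAt (fun u => exp (-(r * u))) (exp (-(r * u)) * (-r)) u := by
    simpa using (((hasDerivAt_id u).const_mul r).neg).exp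
  have dY : HasDerivAt (fun u => exp ((1 - r) * u)) (exp ((1 - r) * u) * (1 - r)) u := by
    simpa using ((hasDerivAt_id u).const_mul (1 - r)).exp
  have h := (((dZ.const_mul r).sub_const r).add
    (((((dW.sub_const 2).add dZ).const_mul (1 - r)).div (dY.const_sub 1)) (by linarith)))
  refine HasDerivAt.congr_deriv h ?_
  simp only [Pi.add_apply, exp_neg]
  generalize exp ((1 - r) * u) = Y at *
  generalize exp (r * u) = Z at *
  have h2 : 1 - Y ≠ 0 := by linarith
  have h3 : Z - 1 ≠ 0 := by linarith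
  have h4 : Z + Z⁻¹ - 2 = (Z - 1) ^ 2 / Z := by field_simp; ring
  rw [h4]
  field_simp
  ring

lemma core {r : ℝ} (h0 : 0 < r) (h1 : r < 1) {s e a u : ℝ} (he : 0 ≤ e) (ha : 0 < a)
    (hsa : s ≤ a) (hau : a ≤ u) (hG : 0 < GG r s e a) : 0 ≤ GG r s e u := by
  have hd : ∀ x, 0 < x → ∃ G', HasDerivAt (GG r s e) G' x ∧ (s < x → GG r s e x = 0 → 0 < G') := by
    intro x hx
    have db := hasDerivAt_eps h0 h1 hx
    have dZ : HasDerivAt (fun u => exp (r * u)) (exp (r * x) * r) x := by
      simpa using ((hasDerivAt_id x).const_mul r).exp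
    have dF : HasDerivAt (fun u => exp (u - s)) (exp (x - s)) x := by
      simpa using ((hasDerivAt_id x).sub_const s).exp
    have dD : HasDerivAt (fun u => exp (-(r * s)) + exp (r * u) - 2) (exp (r * x) * r) x :=
      (dZ.const_add _).sub_const 2
    have dE := dF.sub_const 1
    have dT := dD.add (dE.const_mul r)
    have h := ((((dT.add (dE.mul_const e)).mul db).add (dT.const_mul e)).add
      (((dE.pow 2).const_mul (r ^ 2)).div dF (exp_pos _).ne')).sub (dD.pow 2)
    refine ⟨_, h, fun hsx hG0 => ?_⟩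
    simp only [GG] at hG0
    simp only [Pi.add_apply, Pi.pow_apply]
    have hb := eps_nonneg h0 h1 (-x)
    have hZ : 1 < exp (r * x) := one_lt_exp_iff.2 (by positivity)
    have hF : 1 < exp (x - s) := one_lt_exp_iff.2 (by linarith)
    have hV := exp_pos (-(r * s))
    have hVZ : r * (1 - (exp (x - s))⁻¹) < exp (-(r * s)) * exp (r * x) - 1 := by
      rw [← exp_add, ← exp_neg]
      have b1 : -(x - s) + 1 ≤ exp (-(x - s)) := add_one_le_exp _
      have b2 : (-(r * s) + r * x) + 1 < exp (-(r * s) + r * x) :=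
        add_one_lt_exp (by nlinarith)
      nlinarith
    generalize eps r (-x) = b at *
    generalize exp (x - s) = F at *
    generalize exp (r * x) = Z at *
    generalize exp (-(r * s)) = V at *
    set S := Z + Z⁻¹ - 2 with hS
    have hS0 : 0 < S := by
      have : S = (Z - 1) ^ 2 / Z := by rw [hS]; field_simp; ring
      rw [this]; have : 0 < Z - 1 := by linarith
      positivity
    set D := V + Z - 2 with hD
    set j := r * (1 - F⁻¹) with hj
    have hj0 : 0 < j := mul_pos h0 (by have := inv_lt_one_of_one_lt₀ hF; linarith)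
    have hh : (D - S) * Z = V * Z - 1 := by rw [hD, hS]; field_simp; ring
    have hh0 : 0 < D - S := by
      by_contra hc
      have : (D - S) * Z ≤ 0 := mul_nonpos_of_nonpos_of_nonneg (not_lt.1 hc) (by linarith)
      linarith
    have hE : 0 < F - 1 := by linarith
    have hm : 0 < D + r * (F - 1) + (F - 1) * e := by
      have : 0 < D := by linarith
      positivity
    have hu2 : 0 < r * (F - 1) + F * e := by
      have : 0 < F := by linarith
      positivity
    set m := D + r * (F - 1) + (F - 1) * e with hmdef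
    set u1 := D - e with hu1
    set u2 := r * (F - 1) + F * e with hu2def
    have hQ : 0 < (D * u1 - j * u2) ^ 2 + S * (Z * j * u2 ^ 2 - D * u1 ^ 2) := by
      have e1 : (D - S) * ((D * u1 - j * u2) ^ 2 + S * (Z * j * u2 ^ 2 - D * u1 ^ 2))
          = D * ((D - S) * u1 - j * u2) ^ 2 + S * j * ((D - S) * Z - j) * u2 ^ 2 := by ring
      have e2 : 0 < (D - S) * Z - j := by linarith
      have e3 : 0 < D := by linarith
      have e4 : 0 < D * ((D - S) * u1 - j * u2) ^ 2 + S * j * ((D - S) * Z - j) * u2 ^ 2 := by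
        positivity
      rw [← e1] at e4
      exact (mul_pos_iff_of_pos_left hh0).1 e4
    have hF0 : F ≠ 0 := by linarith
    have hZ0 : Z ≠ 0 := by linarith
    refine (mul_pos_iff_of_pos_left (mul_pos hm hS0)).1 ?_
    have hSZ : S * Z = (Z - 1) ^ 2 := by rw [hS]; field_simp; ring
    refine hQ.trans_eq (Eq.symm ?_)
    simp only [Nat.cast_ofNat]
    have hG1 : m * b = D * u1 - j * u2 := by
      rw [hu1, hu2def, hj]; field_simp; field_simp at hG0; linarith
    have hjF : j * F = r * (F - 1) := by rw [hj]; field_simp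
    have e5 : r ^ 2 * (↑2 * (F - 1) ^ (2 - 1) * F) * F - r ^ 2 * (F - 1) ^ 2 * F
        = F ^ 2 * (2 * r * j * F - j ^ 2 * F) := by
      rw [hj]; field_simp; ring
    rw [e5, mul_div_cancel_left₀ _ (pow_ne_zero 2 hF0)]
    have e6 : m * S * ((Z * r + r * F + F * e) * b + m * (r * (Z - 1) - b + b ^ 2 / S)
        + e * (Z * r + r * F) + (2 * r * j * F - j ^ 2 * F) - 2 * D ^ (2 - 1) * (Z * r))
        = (m * b) ^ 2 + S * ((Z * r + r * F + F * e - m) * (m * b) + m * (m * (r * (Z - 1))
        + e * (Z * r + r * F) + (2 * r * j * F - j ^ 2 * F) - 2 * D * (Z * r))) := by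
      field_simp; ring
    rw [e6, hG1]
    congr 2
    rw [hmdef, hu1, hu2def, hj]
    field_simp
    ring
  choose G' hG' using hd
  classical
  have := image_le_of_deriv_right_lt_deriv_boundary' (f := fun _ => (0 : ℝ)) (f' := fun _ => 0)
    (a := a) (b := u) continuousOn_const (fun x _ => hasDerivWithinAt_const _ _ _)
    (B := GG r s e) (B' := fun x => if h : 0 < x then G' x h else 0) hG.le
    (fun x hx => (hG' x (by linarith [hx.1])).1.continuousAt.continuousWithinAt)
    (fun x hx => by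
      have hx0 : 0 < x := by linarith [hx.1]
      simp only [dif_pos hx0]
      exact (hG' x hx0).1.hasDerivWithinAt)
    (fun x hx h => by
      have hx0 : 0 < x := by linarith [hx.1]
      simp only [dif_pos hx0]
      refine (hG' x hx0).2 ?_ h.symm
      rcases eq_or_lt_of_le (hsa.trans hx.1) with h' | h'
      · have : x = a := le_antisymm (h' ▸ hsa) hx.1
        rw [this] at h; linarith
      · exact h')
  exact this ⟨hau, le_rfl⟩

lemma GG_add (r s e τ u : ℝ) : GG r s (e + τ) u = GG r s e u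
    + τ * ((exp (u - s) - 1) * eps r (-u)
      + (exp (-(r * s)) + exp (r * u) - 2 + r * (exp (u - s) - 1))) := by
  simp only [GG]; ring

lemma GG_symm (r s u : ℝ) : GG r s (eps r s) u = GG r (-u) (eps r (-u)) (-s) := by
  simp only [GG, neg_neg, mul_neg, sub_neg_eq_add]
  rw [show -s + u = u - s by ring]
  ring

lemma nonneg_of_forall {A B : ℝ} (h : ∀ τ, 0 < τ → 0 ≤ A + τ * B) : 0 ≤ A := by
  have : Tendsto (fun τ : ℝ => A + τ * B) (𝓝[>] 0) (𝓝 (A + 0 * B)) :=
    (Continuous.tendsto (by fun_prop) 0).mono_left nhdsWithin_le_nhds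
  have h2 := ge_of_tendsto this (eventually_nhdsWithin_of_forall (fun τ hτ => h τ hτ))
  simpa using h2

lemma step1 {r : ℝ} (h0 : 0 < r) (h1 : r < 1) {s u : ℝ} (hs : 0 < s) (hsu : s ≤ u) :
    0 ≤ GG r s (eps r s) u := by
  refine nonneg_of_forall (B := (exp (u - s) - 1) * eps r (-u)
      + (exp (-(r * s)) + exp (r * u) - 2 + r * (exp (u - s) - 1))) fun τ hτ => ?_
  rw [← GG_add]
  have he := eps_nonneg h0 h1 s
  refine core h0 h1 (by linarith) hs le_rfl hsu ?_
  have h := eps_add_neg h1 s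
  have hZ : 1 < exp (r * s) := one_lt_exp_iff.2 (by positivity)
  have hD : 0 < exp (-(r * s)) + exp (r * s) - 2 := by
    rw [exp_neg]
    have : (exp (r * s))⁻¹ + exp (r * s) - 2 = (exp (r * s) - 1) ^ 2 / exp (r * s) := by
      field_simp; ring
    rw [this]; have : 0 < exp (r * s) - 1 := by linarith
    positivity
  have : GG r s (eps r s + τ) s = τ * (exp (-(r * s)) + exp (r * s) - 2) := by
    simp only [GG, sub_self, exp_zero]
    have : eps r (-s) = exp (r * s) + exp (-(r * s)) - 2 - eps r s := by linarith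
    rw [this]; ring
  rw [this]; positivity

lemma step2 {r : ℝ} (h0 : 0 < r) (h1 : r < 1) {u : ℝ} (hu : 0 ≤ u) :
    0 ≤ GG r 0 (eps r 0) u := by
  rcases eq_or_lt_of_le hu with h | h
  · subst h; simp [GG, eps_zero]; norm_num
  have hc : ContinuousAt (fun s => GG r s (eps r s) u) 0 := by
    have := tendsto_eps h0 h1
    simp only [GG]
    refine ContinuousAt.sub (ContinuousAt.add (by fun_prop) ?_) (by fun_prop)
    exact ContinuousAt.div (by fun_prop) (by fun_prop) (exp_pos _).ne'
  refine ge_of_tendsto (hc.tendsto.mono_left (nhdsWithin_le_nhds (s := Ioi 0))) ?_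
  filter_upwards [Ioo_mem_nhdsGT h] with s hs using step1 h0 h1 hs.1 hs.2.le

theorem GG_nonneg {r : ℝ} (h0 : 0 < r) (h1 : r < 1) {s u : ℝ} (hsu : s ≤ u) :
    0 ≤ GG r s (eps r s) u := by
  have H : ∀ s u : ℝ, 0 ≤ s → s ≤ u → 0 ≤ GG r s (eps r s) u := by
    intro s u hs hsu
    rcases eq_or_lt_of_le hs with h | h
    · subst h; exact step2 h0 h1 hsu
    · exact step1 h0 h1 h hsu
  by_cases hs : 0 ≤ s
  · exact H s u hs hsu
  by_cases hu : u ≤ 0
  · rw [GG_symm]; exact H _ _ (by linarith) (by linarith)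
  push Not at hs hu
  refine nonneg_of_forall (B := (exp (u - s) - 1) * eps r (-u)
      + (exp (-(r * s)) + exp (r * u) - 2 + r * (exp (u - s) - 1))) fun τ hτ => ?_
  rw [← GG_add]
  have he := eps_nonneg h0 h1 s
  have hc : ContinuousAt (fun x => GG r s (eps r s + τ) x) 0 := by
    have h2 : ContinuousAt (fun x => eps r (-x)) 0 :=
      ContinuousAt.comp (g := eps r) (by simpa using tendsto_eps h0 h1) (by fun_prop)
    simp only [GG]
    refine ContinuousAt.sub (ContinuousAt.add (by fun_prop) ?_) (by fun_prop)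
    exact ContinuousAt.div (by fun_prop) (by fun_prop) (exp_pos _).ne'
  have hp : 0 < GG r s (eps r s + τ) 0 := by
    rw [GG_add]
    have a1 : 0 ≤ GG r s (eps r s) 0 := by
      rw [GG_symm]; exact H _ _ (by simp) (by linarith)
    have a2 : 1 < exp (0 - s) := one_lt_exp_iff.2 (by linarith)
    have a3 : 1 < exp (-(r * s)) := one_lt_exp_iff.2 (by nlinarith)
    have a4 : 0 < (exp (0 - s) - 1) * eps r (-0)
      + (exp (-(r * s)) + exp (r * 0) - 2 + r * (exp (0 - s) - 1)) := by
      simp only [neg_zero, eps_zero, mul_zero, exp_zero]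
      nlinarith
    positivity
  have ev : ∀ᶠ x in 𝓝[>] (0 : ℝ), 0 < GG r s (eps r s + τ) x :=
    (hc.eventually (lt_mem_nhds hp)).filter_mono nhdsWithin_le_nhds
  obtain ⟨a, ha1, ha2⟩ := (ev.and (Ioo_mem_nhdsGT hu)).exists
  exact core h0 h1 (by linarith) ha2.1 (by linarith [ha2.1]) ha2.2.le ha1

noncomputable def psi (r x : ℝ) : ℝ := exp (-(r * log x))

noncomputable def AA (r x y : ℝ) : ℝ := psi r y * (r + eps r (log x - log y)) / x

lemma psi_pos (r x : ℝ) : 0 < psi r x := exp_pos _

lemma AA_nonneg {r x y : ℝ} (h0 : 0 < r) (h1 : r < 1) (hx : 0 < x) : 0 ≤ AA r x y := by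
  have := eps_nonneg h0 h1 (log x - log y)
  have := psi_pos r y
  unfold AA; positivity

lemma psi_eq (r x y : ℝ) : psi r x = psi r y * exp (-(r * (log x - log y))) := by
  unfold psi; rw [← exp_add]; ring_nf

lemma AA_add {r x y : ℝ} (h1 : r < 1) (hx : 0 < x) (hy : 0 < y) :
    AA r x y + AA r y x = r * psi r x / x + r * psi r y / y := by
  have h := eps_anti h1 (log x - log y)
  have e : exp (-(log x - log y)) = y / x := by
    rw [neg_sub, exp_sub, exp_log hx, exp_log hy]
  rw [e, neg_sub] at h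
  unfold AA
  rw [psi_eq r x y]
  generalize exp (-(r * (log x - log y))) = V at *
  generalize eps r (log x - log y) = e1 at *
  generalize eps r (log y - log x) = e2 at *
  generalize psi r y = P at *
  field_simp
  field_simp at h
  linear_combination P * h

theorem term_ineq {r x y z a b h : ℝ} (h0 : 0 < r) (h1 : r < 1) (hx : 0 < x) (hy : 0 < y)
    (hz : 0 < z) (hlc : x * z < y ^ 2)
    (hh : h * (y ^ 2 - x * z) ≤ 2 * y * a * b - z * a ^ 2 - x * b ^ 2) :
    h * (psi r x - 2 * psi r y + psi r z)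
      ≤ AA r x y * a ^ 2 + AA r z y * b ^ 2 - 2 * (r * psi r y / y) * a * b := by
  set s := log x - log y with hs
  set u := log y - log z with hu
  have hF : exp (u - s) = y ^ 2 / (x * z) := by
    rw [hs, hu, show log y - log z - (log x - log y) = log y + log y - (log x + log z) by ring,
      exp_sub, exp_add, exp_add, exp_log hx, exp_log hy, exp_log hz, sq]
  have hF1 : 1 < exp (u - s) := by rw [hF, one_lt_div (by positivity)]; exact hlc
  have hsu : s < u := by have := one_lt_exp_iff.1 hF1; linarith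
  have hG := GG_nonneg h0 h1 hsu.le
  have e1 := eps_nonneg h0 h1 s
  have e2 := eps_nonneg h0 h1 (-u)
  have hD : 0 ≤ exp (-(r * s)) + exp (r * u) - 2 := by
    have b1 := add_one_le_exp (-(r * s))
    have b2 := add_one_le_exp (r * u)
    nlinarith
  unfold AA
  rw [psi_eq r x y, psi_eq r z y, ← hs, show log z - log y = -u by rw [hu]; ring,
    mul_neg, neg_neg]
  have hP := psi_pos r y
  simp only [GG] at hG
  have hFy : exp (u - s) * (x * z) = y ^ 2 := by rw [hF]; field_simp
  generalize eps r s = c1 at *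
  generalize eps r (-u) = c2 at *
  generalize exp (u - s) = F at *
  generalize exp (r * u) = Z at *
  generalize exp (-(r * s)) = V at *
  generalize psi r y = P at *
  set D := V + Z - 2 with hDdef
  have hE : 0 < F - 1 := by linarith
  have hF0 : 0 < F := by linarith
  set m1 := (F - 1) * (r + c1) + D with hm1
  set m2 := (F - 1) * (r + c2) + D with hm2
  set L := F * D + r * (F - 1) with hL
  have hm1p : 0 < m1 := by positivity
  have hdet : L ^ 2 ≤ F * (m1 * m2) := by
    have : F * (m1 * m2) - L ^ 2 = F * (F - 1) * ((D + r * (F - 1) + (F - 1) * c1) * c2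
        + c1 * (D + r * (F - 1)) + r ^ 2 * (F - 1) ^ 2 / F - D ^ 2) := by
      rw [hm1, hm2, hL]; field_simp; ring
    have h3 : 0 ≤ F * (F - 1) * ((D + r * (F - 1) + (F - 1) * c1) * c2
        + c1 * (D + r * (F - 1)) + r ^ 2 * (F - 1) ^ 2 / F - D ^ 2) := by positivity
    linarith
  have hΔ : 0 < y ^ 2 - x * z := by linarith
  have hq : 0 ≤ z * a ^ 2 * m1 + x * b ^ 2 * m2 - 2 * a * b * L * (x * z) / y := by
    have e : (z * m1) * (z * a ^ 2 * m1 + x * b ^ 2 * m2 - 2 * a * b * L * (x * z) / y)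
        = (z * a * m1 - b * L * (x * z) / y) ^ 2
          + b ^ 2 * (x * z) * (F * (m1 * m2) - L ^ 2) / F := by
      have : x * z = y ^ 2 / F := by rw [← hFy]; field_simp
      have hx' : x = y ^ 2 / (F * z) := by rw [← hFy]; field_simp
      rw [hx']; field_simp; ring
    have h4 : 0 ≤ F * (m1 * m2) - L ^ 2 := by linarith
    have h5 : 0 ≤ (z * m1) * (z * a ^ 2 * m1 + x * b ^ 2 * m2 - 2 * a * b * L * (x * z) / y) := by
      rw [e]; positivity
    exact (mul_nonneg_iff_of_pos_left (by positivity)).1 h5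
  have key : h * D ≤ (r + c1) / x * a ^ 2 + (r + c2) / z * b ^ 2 - 2 * (r / y) * a * b := by
    refine le_of_mul_le_mul_left ?_ hΔ
    have e : (y ^ 2 - x * z) * ((r + c1) / x * a ^ 2 + (r + c2) / z * b ^ 2 - 2 * (r / y) * a * b)
        - D * (2 * y * a * b - z * a ^ 2 - x * b ^ 2)
        = z * a ^ 2 * m1 + x * b ^ 2 * m2 - 2 * a * b * L * (x * z) / y := by
      have hx' : x = y ^ 2 / (F * z) := by rw [← hFy]; field_simp
      rw [hm1, hm2, hL, hx']; field_simp; ring
    nlinarith [mul_le_mul_of_nonneg_left hh hD]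
  have := mul_le_mul_of_nonneg_left key hP.le
  calc h * (P * V - 2 * P + P * Z) = P * (h * D) := by rw [hDdef]; ring
    _ ≤ _ := this
    _ = _ := by ring

end H26.Ren
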