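import Mathlib

/-! Lorentzian-type inequality for coefficients of products of linear factors
(the key inequality for Bernoulli sums), via the Gauss-Lucas theorem. -/

namespace H26.Ren
open Polynomial Finset

variable {ι : Type*} [DecidableEq ι]

noncomputable def PP {R : Type*} [CommRing R] (S : Finset ι) (a w : ι → R) : R[X] :=
  ∏ i ∈ S, (C (a i) + C (w i) * X)

lemma coeff_PP {R : Type*} [CommRing R] (S : Finset ι) (a w : ι → R) (k : ℕ) :
    (PP S a w).coeff k = ∑ B ∈ S.powersetCard k, (∏ i ∈ B, w i) * ∏ i ∈ S \ B, a i := by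
  unfold PP
  simp_rw [add_comm (C (a _))]
  rw [Finset.prod_add, finsetSum_coeff, powersetCard_eq_filter, sum_filter]
  refine sum_congr rfl fun B _ => ?_
  rw [prod_mul_distrib, prod_const, ← map_prod C, ← map_prod C, mul_right_comm, ← C_mul,
    coeff_C_mul, coeff_X_pow]
  by_cases h : B.card = k
  · simp [h]
  · simp [h, Ne.symm h]

lemma coeff_PP_card {R : Type*} [CommRing R] (S : Finset ι) (a w : ι → R) :
    (PP S a w).coeff S.card = ∏ i ∈ S, w i := by
  rw [coeff_PP, powersetCard_self]; simp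

lemma coeff_PP_of_lt {R : Type*} [CommRing R] (S : Finset ι) (a w : ι → R) {k : ℕ}
    (h : S.card < k) : (PP S a w).coeff k = 0 := by
  rw [coeff_PP, powersetCard_eq_empty.2 h]; simp

lemma coeff_PP_pos (S : Finset ι) {a w : ι → ℝ} (ha : ∀ i, 0 < a i) (hw : ∀ i, 0 < w i) {k : ℕ}
    (h : k ≤ S.card) : 0 < (PP S a w).coeff k := by
  rw [coeff_PP]
  refine sum_pos (fun B _ => mul_pos (prod_pos fun i _ => hw i) (prod_pos fun i _ => ha i)) ?_
  exact powersetCard_nonempty.2 h

lemma PP_insert {R : Type*} [CommRing R] {S : Finset ι} {i : ι} (hi : i ∉ S) (a w : ι → R) :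
    PP (insert i S) a w = (C (a i) + C (w i) * X) * PP S a w := prod_insert hi

lemma mul_PP_erase {R : Type*} [CommRing R] {S : Finset ι} {i : ι} (hi : i ∈ S) (a w : ι → R) :
    (C (a i) + C (w i) * X) * PP (S.erase i) a w = PP S a w :=
  mul_prod_erase S (fun i => C (a i) + C (w i) * X) hi

section deriv
variable {𝕜 : Type*} [NontriviallyNormedField 𝕜]

def HCD (P : 𝕜 → 𝕜[X]) (P' : 𝕜[X]) (t : 𝕜) : Prop :=
  ∀ k, HasDerivAt (fun s => (P s).coeff k) (P'.coeff k) t

lemma HCD.mul {P Q : 𝕜 → 𝕜[X]} {P' Q' : 𝕜[X]} {t : 𝕜} (hP : HCD P P' t) (hQ : HCD Q Q' t) :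
    HCD (fun s => P s * Q s) (P' * Q t + P t * Q') t := by
  intro k
  simp only [coeff_mul, coeff_add, ← sum_add_distrib]
  exact HasDerivAt.fun_sum fun x _ => (hP x.1).mul (hQ x.2)

lemma HCD.const (P : 𝕜[X]) (t : 𝕜) : HCD (fun _ => P) 0 t := fun k => by
  simpa using hasDerivAt_const t (P.coeff k)

lemma HCD.const_mul {Q : 𝕜 → 𝕜[X]} {Q' : 𝕜[X]} {t : 𝕜} (P : 𝕜[X]) (hQ : HCD Q Q' t) :
    HCD (fun s => P * Q s) (P * Q') t := by
  simpa using (HCD.const P t).mul hQ

omit [DecidableEq ι] in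
lemma HCD.sum {S : Finset ι} {P : ι → 𝕜 → 𝕜[X]} {P' : ι → 𝕜[X]} {t : 𝕜}
    (h : ∀ i ∈ S, HCD (P i) (P' i) t) : HCD (fun s => ∑ i ∈ S, P i s) (∑ i ∈ S, P' i) t := by
  intro k
  simp only [finsetSum_coeff]
  exact HasDerivAt.fun_sum fun i hi => h i hi k

lemma HCD_lin (a w a' w' t : 𝕜) :
    HCD (fun s => C (a + s * a') + C (w + s * w') * X) (C a' + C w' * X) t := by
  intro k
  simp only [coeff_add, coeff_C_mul, coeff_C]
  refine HasDerivAt.add ?_ ?_
  · split_ifs
    · simpa using ((hasDerivAt_id t).mul_const a').const_add a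
    · exact hasDerivAt_const _ _
  · simpa using (((hasDerivAt_id t).mul_const w').const_add w).mul_const (X.coeff k : 𝕜)

lemma HCD_PP (S : Finset ι) (a w a' w' : ι → 𝕜) (t : 𝕜) :
    HCD (fun s => PP S (fun i => a i + s * a' i) (fun i => w i + s * w' i))
      (∑ i ∈ S, (C (a' i) + C (w' i) * X) *
        PP (S.erase i) (fun i => a i + t * a' i) (fun i => w i + t * w' i)) t := by
  induction S using Finset.induction_on with
  | empty => simpa [PP] using HCD.const (1 : 𝕜[X]) t
  | insert j S hj ih =>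
    simp only [PP_insert hj]
    have h := (HCD_lin (a j) (w j) (a' j) (w' j) t).mul ih
    convert h using 1
    rw [sum_insert hj, erase_insert hj, mul_sum]
    congr 1
    refine sum_congr rfl fun i hi => ?_
    have hij : j ≠ i := fun e => hj (e ▸ hi)
    rw [erase_insert_of_ne hij, PP_insert (fun h => hj (mem_of_mem_erase h))]
    ring

end deriv

lemma GL_step {K : Set ℂ} (hK : Convex ℝ K) {p : ℂ[X]} (hp : ∀ z, p.eval z = 0 → z ∈ K)
    (hd : 0 < p.natDegree) (z : ℂ) (hz : p.derivative.eval z = 0) : z ∈ K := by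
  have h0 : 0 < p.degree := natDegree_pos_iff_degree_pos.1 hd
  have h1 : p.derivative ≠ 0 := fun h => by
    have := derivative_eq_zero.1 h; omega
  have h2 : z ∈ p.derivative.rootSet ℂ := by
    rw [mem_rootSet]; exact ⟨h1, by simpa using hz⟩
  refine convexHull_min (fun x hx => hp x ?_) hK (rootSet_derivative_subset_convexHull_rootSet h0 h2)
  rw [mem_rootSet] at hx; simpa using hx.2

lemma GL_iter {K : Set ℂ} (hK : Convex ℝ K) (n : ℕ) : ∀ {p : ℂ[X]}, (∀ z, p.eval z = 0 → z ∈ K) →
    n ≤ p.natDegree → ∀ z, (derivative^[n] p).eval z = 0 → z ∈ K := by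
  induction n with
  | zero => intro p hp _; exact hp
  | succ n ih =>
    intro p hp hn
    rw [Function.iterate_succ_apply]
    exact ih (GL_step hK hp (by omega)) (by rw [natDegree_derivative]; omega)

lemma coeff_ne_zero_C (S : Finset ι) (a : ι → ℂ) {w : ι → ℝ} (hw : ∀ i, 0 < w i) (ω : ℂ)
    (ha : ∀ i, 0 < (ω * a i).im) {k : ℕ} (hk : k ≤ S.card) :
    (PP S a (fun i => (w i : ℂ))).coeff k ≠ 0 := by
  have hK : Convex ℝ {z : ℂ | (ω * z).im < 0} := by
    have : IsLinearMap ℝ (fun z : ℂ => (ω * z).im) :=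
      ⟨fun x y => by simp [mul_add], fun c x => by simp; ring⟩
    exact convex_halfSpace_lt this 0
  have hd : S.card ≤ (PP S a (fun i => (w i : ℂ))).natDegree := by
    apply le_natDegree_of_ne_zero
    rw [coeff_PP_card]
    exact prod_ne_zero_iff.2 fun i _ => by exact_mod_cast (hw i).ne'
  have hr : ∀ z, (PP S a (fun i => (w i : ℂ))).eval z = 0 → z ∈ {z : ℂ | (ω * z).im < 0} := by
    intro z hz
    simp only [PP, eval_prod, eval_add, eval_C, eval_mul, eval_X, prod_eq_zero_iff] at hz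
    obtain ⟨i, -, hi⟩ := hz
    have h1 : (ω * a i).im + w i * (ω * z).im = 0 := by
      have : ω * a i + w i * (ω * z) = 0 := by linear_combination ω * hi
      have := congrArg Complex.im this
      simpa using this
    have := ha i
    have := hw i
    simp only [Set.mem_ofPred_eq]
    by_contra hc
    have : 0 ≤ w i * (ω * z).im := mul_nonneg (hw i).le (not_lt.1 hc)
    linarith
  intro h
  have := GL_iter hK k hr (hk.trans hd) 0 (by
    rw [← coeff_zero_eq_eval_zero, coeff_iterate_derivative]; simp [h])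
  simp at this

lemma BC_ne_zero (S : Finset ι) {u w : ι → ℝ} (hu : ∀ i, 0 < u i) (hw : ∀ i, 0 < w i)
    {l : ι → ℂ} (hl : ∀ i, 0 < (l i).im) {k : ℕ} (hk : k + 2 ≤ S.card) :
    ∑ i ∈ S, l i * ∑ j ∈ S.erase i, l j *
      (PP ((S.erase i).erase j) (fun i => (u i : ℂ)) (fun i => (w i : ℂ))).coeff k ≠ 0 := by
  set Ψ : ℂ[X] := (PP S (fun i => C (u i : ℂ) + C (l i) * X) (fun i => C (w i : ℂ))).coeff k with hΨ
  have hev : ∀ γ, Ψ.eval γ = (PP S (fun i => (u i : ℂ) + γ * l i) (fun i => (w i : ℂ) + γ * 0)).coeff k := by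
    intro γ
    simp only [hΨ, coeff_PP, eval_finsetSum, eval_mul, eval_prod, eval_C, eval_add, eval_X,
      zero_mul, add_zero, mul_comm γ]
  have hK : Convex ℝ {z : ℂ | 0 < z.im} := convex_halfSpace_im_gt 0
  have hr : ∀ z, Ψ.eval z = 0 → z ∈ {z : ℂ | 0 < z.im} := by
    intro γ hγ
    by_contra hc
    simp only [Set.mem_ofPred_eq, not_lt] at hc
    rw [hev] at hγ
    simp only [mul_zero, add_zero] at hγ
    by_cases h0 : γ = 0
    · exact coeff_ne_zero_C S _ hw Complex.I (fun i => by simpa [h0] using hu i) (by omega) hγ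
    · refine coeff_ne_zero_C S _ hw γ⁻¹ (fun i => ?_) (by omega) hγ
      rw [mul_add, ← mul_assoc, inv_mul_cancel₀ h0, one_mul, Complex.add_im, Complex.mul_im,
        Complex.ofReal_im, Complex.ofReal_re, Complex.inv_im]
      have h1 : 0 ≤ -γ.im / Complex.normSq γ := div_nonneg (by linarith) (Complex.normSq_nonneg _)
      have := mul_nonneg h1 (hu i).le
      have := hl i
      linarith
  have hd : 2 ≤ Ψ.natDegree := by
    refine le_trans (show 2 ≤ S.card - k by omega) (le_natDegree_of_ne_zero ?_)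
    have : Ψ.coeff (S.card - k) = (PP S l (fun i => (w i : ℂ))).coeff k := by
      rw [hΨ, coeff_PP, coeff_PP, finsetSum_coeff]
      refine sum_congr rfl fun B hB => ?_
      rw [mem_powersetCard] at hB
      rw [← map_prod C, coeff_C_mul]
      congr 1
      have := coeff_PP_card (S \ B) (fun i => (u i : ℂ)) l
      rw [card_sdiff_of_subset hB.1, hB.2] at this
      exact this
    rw [this]
    exact coeff_ne_zero_C S l hw 1 (fun i => by simpa using hl i) (by omega)
  have h2 := GL_iter hK 2 hr hd 0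
  have d1 : ∀ γ, Ψ.derivative.eval γ = (∑ i ∈ S, (C (l i) + C 0 * X) * PP (S.erase i)
      (fun i => (u i : ℂ) + γ * l i) (fun i => (w i : ℂ) + γ * 0)).coeff k := by
    intro γ
    have a1 := Ψ.hasDerivAt γ
    simp only [hev] at a1
    exact a1.unique (HCD_PP S _ _ l (fun _ => 0) γ k)
  have d2 : Ψ.derivative.derivative.eval 0 = (∑ i ∈ S, (C (l i) + C 0 * X) *
      ∑ j ∈ S.erase i, (C (l j) + C 0 * X) * PP ((S.erase i).erase j)
      (fun i => (u i : ℂ) + 0 * l i) (fun i => (w i : ℂ) + 0 * 0)).coeff k := by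
    have a1 := Ψ.derivative.hasDerivAt 0
    simp only [d1] at a1
    exact a1.unique (HCD.sum (fun i _ => HCD.const_mul _
      (HCD_PP (S.erase i) _ _ l (fun _ => 0) 0)) k)
  intro h
  have : (derivative^[2] Ψ).eval 0 = 0 := by
    show Ψ.derivative.derivative.eval 0 = 0
    rw [d2]
    simpa [finsetSum_coeff, coeff_C_mul] using h
  simpa using h2 this

noncomputable def BB (S : Finset ι) (u w : ι → ℝ) (k : ℕ) (a b : ι → ℝ) : ℝ :=
  ∑ i ∈ S, a i * ∑ j ∈ S.erase i, b j * (PP ((S.erase i).erase j) u w).coeff k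

lemma BB_symm (S : Finset ι) (u w : ι → ℝ) (k : ℕ) (a b : ι → ℝ) :
    BB S u w k a b = BB S u w k b a := by
  unfold BB
  simp only [mul_sum]
  rw [sum_comm' (t' := S) (s' := fun j => S.erase j)]
  · refine sum_congr rfl fun i _ => sum_congr rfl fun j _ => ?_
    rw [erase_right_comm]; ring
  · intro i j; simp only [mem_erase]; tauto

lemma BB_lin_left (S : Finset ι) (u w : ι → ℝ) (k : ℕ) (x y : ℝ) (a a' b : ι → ℝ) :
    BB S u w k (fun i => x * a i + y * a' i) b = x * BB S u w k a b + y * BB S u w k a' b := by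
  unfold BB
  rw [mul_sum, mul_sum, ← sum_add_distrib]
  exact sum_congr rfl fun i _ => by ring

lemma coeff_PP_ofReal (S : Finset ι) (u w : ι → ℝ) (k : ℕ) :
    (PP S (fun i => (u i : ℂ)) (fun i => (w i : ℂ))).coeff k = ((PP S u w).coeff k : ℝ) := by
  simp [coeff_PP]

theorem BB_rev (S : Finset ι) {u w : ι → ℝ} (hu : ∀ i, 0 < u i) (hw : ∀ i, 0 < w i)
    {k : ℕ} (hk : k + 2 ≤ S.card) (hpos : 0 < BB S u w k u u) (l : ι → ℝ) :
    BB S u w k u u * BB S u w k l l ≤ BB S u w k u l ^ 2 := by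
  by_contra hc
  push Not at hc
  set A := BB S u w k u u with hA
  set B := BB S u w k u l with hB
  set C' := BB S u w k l l with hC
  set d := Real.sqrt (A * C' - B ^ 2) with hd
  have hd0 : 0 < d := Real.sqrt_pos.2 (by linarith)
  have hd2 : d ^ 2 = A * C' - B ^ 2 := Real.sq_sqrt (by linarith)
  set z : ℂ := ⟨-B / A, d / A⟩ with hz
  have hq : z ^ 2 * A + 2 * z * B + C' = 0 := by
    apply Complex.ext
    · simp [hz, sq]; field_simp; linarith
    · simp [hz, sq]; field_simp; ring
  refine BC_ne_zero S hu hw (l := fun i => z * u i + l i) (fun i => ?_) hk ?_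
  · simp [hz]; have := hu i; positivity
  · rw [← hq]
    have hB' : B = BB S u w k l u := by rw [hB, BB_symm]
    have : z ^ 2 * A + 2 * z * B + C' = z ^ 2 * A + z * B + z * (BB S u w k l u : ℝ) + C' := by
      rw [← hB']; ring
    rw [this, hA, hB, hC]
    simp only [BB, coeff_PP_ofReal]
    push_cast
    simp only [mul_sum, ← sum_add_distrib]
    exact sum_congr rfl fun i _ => sum_congr rfl fun j _ => by ring

lemma sum_w (S : Finset ι) (u w : ι → ℝ) (k : ℕ) :
    ∑ i ∈ S, w i * (PP (S.erase i) u w).coeff k = (k + 1) * (PP S u w).coeff (k + 1) := by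
  have : derivative (PP S u w) = ∑ i ∈ S, C (w i) * PP (S.erase i) u w := by
    unfold PP
    rw [derivative_prod_finset]
    exact sum_congr rfl fun i _ => by rw [mul_comm]; simp
  have h := congrArg (fun p => p.coeff k) this
  simp only [coeff_derivative, finsetSum_coeff, coeff_C_mul] at h
  rw [← h]; ring

lemma sum_u (S : Finset ι) (u w : ι → ℝ) (k : ℕ) :
    ∑ i ∈ S, u i * (PP (S.erase i) u w).coeff k = (S.card - k) * (PP S u w).coeff k := by
  have h1 : ∑ i ∈ S, (C (u i) + C (w i) * X) * PP (S.erase i) u w = S.card • PP S u w := by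
    rw [sum_congr rfl fun i hi => mul_PP_erase hi u w, sum_const]
  have h := congrArg (fun p => p.coeff k) h1
  simp only [finsetSum_coeff, add_mul, coeff_add, coeff_C_mul, mul_assoc, sum_add_distrib,
    nsmul_eq_mul] at h
  rcases k with _ | k
  · simpa using h
  · simp only [coeff_X_mul, sum_w] at h
    rw [coeff_natCast_mul] at h
    push_cast
    linarith

/-- first-order coefficient -/
noncomputable def gg (S : Finset ι) (u w d : ι → ℝ) (k : ℕ) : ℝ :=
  ∑ i ∈ S, d i * (PP (S.erase i) u w).coeff k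

lemma BB_u (S : Finset ι) (u w a : ι → ℝ) (k : ℕ) :
    BB S u w k a u = (S.card - 1 - k) * gg S u w a k := by
  unfold BB gg
  rw [mul_sum]
  refine sum_congr rfl fun i hi => ?_
  rw [sum_u, card_erase_of_mem hi, Nat.cast_sub (card_pos.2 ⟨i, hi⟩)]
  push_cast; ring

lemma BB_w (S : Finset ι) (u w a : ι → ℝ) (k : ℕ) :
    BB S u w k a w = (k + 1) * gg S u w a (k + 1) := by
  unfold BB gg
  rw [mul_sum]
  refine sum_congr rfl fun i hi => ?_
  rw [sum_w]; ring

theorem key (S : Finset ι) {u w : ι → ℝ} (hu : ∀ i, 0 < u i) (hw : ∀ i, 0 < w i) (d : ι → ℝ)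
    {k : ℕ} (hk : k + 2 ≤ S.card) :
    (PP S u w).coeff k * (PP S u w).coeff (k + 2) < (PP S u w).coeff (k + 1) ^ 2 ∧
    BB S u w k d d * ((PP S u w).coeff (k + 1) ^ 2 - (PP S u w).coeff k * (PP S u w).coeff (k + 2))
      ≤ 2 * (PP S u w).coeff (k + 1) * gg S u w d k * gg S u w d (k + 1)
        - (PP S u w).coeff (k + 2) * gg S u w d k ^ 2
        - (PP S u w).coeff k * gg S u w d (k + 1) ^ 2 := by
  have hx := coeff_PP_pos S hu hw (k := k) (by omega)
  have hy := coeff_PP_pos S hu hw (k := k + 1) (by omega)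
  have hz := coeff_PP_pos S hu hw (k := k + 2) (by omega)
  set N : ℝ := S.card - 1 - k with hN
  have hN1 : 1 ≤ N := by
    have : ((k + 2 : ℕ) : ℝ) ≤ S.card := by exact_mod_cast hk
    push_cast at this; linarith
  have uu : BB S u w k u u = N * ((N + 1) * (PP S u w).coeff k) := by
    rw [BB_u, gg, sum_u, hN]; ring
  have wu : BB S u w k w u = N * ((k + 1) * (PP S u w).coeff (k + 1)) := by
    rw [BB_u, gg, sum_w]
  have ww : BB S u w k w w = (k + 1) * ((k + 2) * (PP S u w).coeff (k + 2)) := by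
    rw [BB_w, gg, sum_w]; push_cast; ring
  have du : BB S u w k d u = N * gg S u w d k := BB_u _ _ _ _ _
  have dw : BB S u w k d w = (k + 1) * gg S u w d (k + 1) := BB_w _ _ _ _ _
  have H : ∀ b c : ℝ, (N + 1) * (PP S u w).coeff k * (((k + 2) / (k + 1)) * (PP S u w).coeff (k + 2)
      * b ^ 2 + 2 * gg S u w d (k + 1) * b * c + BB S u w k d d * c ^ 2)
      ≤ N * ((PP S u w).coeff (k + 1) * b + gg S u w d k * c) ^ 2 := by
    intro b c
    have h := BB_rev S hu hw hk (by rw [uu]; positivity) (fun i => b / (k + 1) * w i + c * d i)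
    rw [BB_lin_left, BB_symm S u w k w, BB_symm S u w k d, BB_symm S u w k u (fun i => b / (k + 1) * w i + c * d i),
      BB_lin_left, BB_lin_left, BB_lin_left, BB_symm S u w k w d, uu, wu, ww, du, dw] at h
    refine le_of_mul_le_mul_left ?_ (show 0 < N by linarith)
    refine le_of_eq_of_le ?_ (h.trans_eq ?_)
    · field_simp; ring
    · field_simp
  generalize (PP S u w).coeff k = x at *
  generalize (PP S u w).coeff (k + 1) = y at *
  generalize (PP S u w).coeff (k + 2) = z at *
  generalize gg S u w d k = α at *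
  generalize gg S u w d (k + 1) = β at *
  generalize BB S u w k d d = h at *
  have hκ : (1 : ℝ) ≤ (k + 2) / (k + 1) := by
    rw [le_div_iff₀ (by positivity)]; linarith
  generalize ((k : ℝ) + 2) / (k + 1) = κ at *
  have H2 : ∀ b c : ℝ, 0 < x * (z * b ^ 2 + 2 * β * b * c + h * c ^ 2) →
      x * (z * b ^ 2 + 2 * β * b * c + h * c ^ 2) < (y * b + α * c) ^ 2 := by
    intro b c hp
    have h1 := H b c
    have h2 : x * (z * b ^ 2 + 2 * β * b * c + h * c ^ 2)
        ≤ x * (κ * z * b ^ 2 + 2 * β * b * c + h * c ^ 2) := by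
      have : 0 ≤ x * ((κ - 1) * (z * b ^ 2)) := by
        have : 0 ≤ κ - 1 := by linarith
        positivity
      linarith
    refine lt_of_mul_lt_mul_left ?_ (show 0 ≤ N by linarith)
    nlinarith
  have hlc : x * z < y ^ 2 := by simpa using H2 1 0 (by simpa using mul_pos hx hz)
  refine ⟨hlc, ?_⟩
  have hΔ : 0 < y ^ 2 - x * z := by linarith
  have H3 : x * (z * (-(y * α - x * β)) ^ 2 + 2 * β * (-(y * α - x * β)) * (y ^ 2 - x * z)
      + h * (y ^ 2 - x * z) ^ 2) ≤ (y * (-(y * α - x * β)) + α * (y ^ 2 - x * z)) ^ 2 := by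
    by_contra hc
    push Not at hc
    exact lt_asymm hc (H2 _ _ (lt_of_le_of_lt (sq_nonneg _) hc))
  refine le_of_mul_le_mul_left ?_ (mul_pos hx hΔ)
  nlinarith

end H26.Ren
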