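import Pool.Agent.Lib.helper26.RenA
import Pool.Agent.Lib.helper26.RenB

/-! Concavity of Tsallis / Renyi entropies of order `q ≤ 1` of Bernoulli sums. -/

namespace H26.Ren
open Polynomial Finset Real Filter Topology

lemma sum_ineq {r : ℝ} (h0 : 0 < r) (h1 : r < 1) (m : ℕ) (f g h f1 f2 : ℕ → ℝ)
    (hf : ∀ k ≤ m + 1, 0 < f k) (a0 : f1 0 = -g 0) (a1 : ∀ k, f1 (k + 1) = g k - g (k + 1))
    (b0 : f2 0 = h 0) (b1 : f2 1 = h 1 - 2 * h 0)
    (b2 : ∀ k, f2 (k + 2) = h (k + 2) - 2 * h (k + 1) + h k)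
    (hg : g (m + 1) = 0) (hh : h m = 0) (hh' : h (m + 1) = 0)
    (key : ∀ k, k + 2 ≤ m + 1 → f k * f (k + 2) < f (k + 1) ^ 2 ∧
      h k * (f (k + 1) ^ 2 - f k * f (k + 2)) ≤ 2 * f (k + 1) * g k * g (k + 1)
        - f (k + 2) * g k ^ 2 - f k * g (k + 1) ^ 2) :
    ∑ k ∈ range (m + 2), (psi r (f k) * f2 k - r * psi r (f k) / f k * f1 k ^ 2) ≤ 0 := by
  have I : ∀ n ≤ m, ∑ k ∈ range (n + 2), (psi r (f k) * f2 k - r * psi r (f k) / f k * f1 k ^ 2)
      ≤ h n * (psi r (f n) - 2 * psi r (f (n + 1))) + h (n + 1) * psi r (f (n + 1))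
        - (g n ^ 2 * AA r (f n) (f (n + 1))
          - 2 * (r * psi r (f (n + 1)) / f (n + 1)) * g n * g (n + 1)
          + r * psi r (f (n + 1)) / f (n + 1) * g (n + 1) ^ 2) := by
    intro n
    induction n with
    | zero =>
      intro _
      have e := AA_add h1 (hf 0 (by omega)) (hf 1 (by omega))
      have e2 := mul_nonneg (sq_nonneg (g 0)) (AA_nonneg (y := f 0) h0 h1 (hf 1 (by omega)))
      simp only [sum_range_succ, range_zero, sum_empty, zero_add, a0, b0, b1]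
      rw [show f1 1 = g 0 - g 1 from a1 0]
      have e3 : AA r (f 0) (f 1) = r * psi r (f 0) / f 0 + r * psi r (f 1) / f 1
        - AA r (f 1) (f 0) := by linarith
      rw [e3]; nlinarith
    | succ n ih =>
      intro hn
      have e := AA_add h1 (hf (n + 1) (by omega)) (hf (n + 2) (by omega))
      obtain ⟨k1, k2⟩ := key n (by omega)
      have t := term_ineq h0 h1 (hf n (by omega)) (hf (n + 1) (by omega)) (hf (n + 2) (by omega))
        k1 k2
      have ih' := ih (by omega)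
      rw [show n + 1 + 2 = (n + 2) + 1 from rfl, sum_range_succ, b2, a1 (n + 1)]
      have e3 : AA r (f (n + 1)) (f (n + 1 + 1)) = r * psi r (f (n + 1)) / f (n + 1)
        + r * psi r (f (n + 2)) / f (n + 2) - AA r (f (n + 2)) (f (n + 1)) := by linarith
      rw [e3]
      simp only [show n + 1 + 1 = n + 2 from rfl]
      nlinarith
  have := I m le_rfl
  rw [hg, hh, hh'] at this
  have e2 := mul_nonneg (sq_nonneg (g m)) (AA_nonneg (y := f (m + 1)) h0 h1 (hf m (by omega)))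
  linarith

lemma hasDerivAt_psi (r : ℝ) {x : ℝ} (hx : 0 < x) : HasDerivAt (psi r) (-(r * psi r x / x)) x := by
  have h := (((hasDerivAt_log hx.ne').const_mul r).neg).exp
  refine HasDerivAt.congr_deriv h ?_
  simp only [psi, Pi.neg_apply]; field_simp

lemma mul_psi {q x : ℝ} (hx : 0 < x) : x * psi (1 - q) x = x ^ q := by
  rw [psi, rpow_def_of_pos hx]
  nth_rewrite 1 [← exp_log hx]
  rw [← exp_add]; ring_nf

variable {ι : Type*} [DecidableEq ι] [Fintype ι]

noncomputable def pm (p : ι → ℝ) (k : ℕ) : ℝ := (PP univ (fun i => 1 - p i) p).coeff k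

def path (p0 p1 : ι → ℝ) (t : ℝ) : ι → ℝ := fun i => (1 - t) * p0 i + t * p1 i

lemma tsallis_interior {q : ℝ} (h0 : 0 < q) (h1 : q < 1) (hι : 0 < Fintype.card ι)
    {p0 p1 : ι → ℝ} (hp0 : ∀ i, 0 < p0 i ∧ p0 i < 1) (hp1 : ∀ i, 0 < p1 i ∧ p1 i < 1) :
    ConcaveOn ℝ (Set.Icc 0 1)
      (fun t => ∑ k ∈ range (Fintype.card ι + 1), pm (path p0 p1 t) k ^ q) := by
  obtain ⟨m, hm⟩ : ∃ m, Fintype.card ι = m + 1 := ⟨_, (Nat.succ_pred_eq_of_pos hι).symm⟩
  have hc : (univ : Finset ι).card = m + 1 := by simpa using hm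
  set d : ι → ℝ := fun i => p1 i - p0 i with hd
  set u : ℝ → ι → ℝ := fun t i => (1 - p0 i) + t * (-d i) with hu
  set w : ℝ → ι → ℝ := fun t i => p0 i + t * d i with hw
  have hpos : ∀ t ∈ Set.Icc (0 : ℝ) 1, (∀ i, 0 < u t i) ∧ ∀ i, 0 < w t i := by
    intro t ht
    refine ⟨fun i => ?_, fun i => ?_⟩
    · have := hp0 i; have := hp1 i
      simp only [hu, hd]
      rcases eq_or_lt_of_le ht.1 with h | h
      · subst h; linarith
      · nlinarith [ht.2]
    · have := hp0 i; have := hp1 i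
      simp only [hw, hd]
      rcases eq_or_lt_of_le ht.1 with h | h
      · subst h; linarith
      · nlinarith [ht.2]
  set f : ℝ → ℕ → ℝ := fun t k => (PP univ (u t) (w t)).coeff k with hf
  set L : ι → ℝ[X] := fun i => C (-d i) + C (d i) * X with hL
  set f1 : ℝ → ℕ → ℝ := fun t k => (∑ i, L i * PP (univ.erase i) (u t) (w t)).coeff k with hf1
  set f2 : ℝ → ℕ → ℝ := fun t k => (∑ i, L i * ∑ j ∈ univ.erase i,
    L j * PP ((univ.erase i).erase j) (u t) (w t)).coeff k with hf2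
  have D1 : ∀ t k, HasDerivAt (fun t => f t k) (f1 t k) t := fun t k =>
    HCD_PP univ _ _ (fun i => -d i) d t k
  have D2 : ∀ t k, HasDerivAt (fun t => f1 t k) (f2 t k) t := fun t k =>
    HCD.sum (fun i _ => HCD.const_mul _ (HCD_PP (univ.erase i) _ _ (fun i => -d i) d t)) k
  have fpos : ∀ t ∈ Set.Icc (0 : ℝ) 1, ∀ k ≤ m + 1, 0 < f t k := fun t ht k hk =>
    coeff_PP_pos univ (hpos t ht).1 (hpos t ht).2 (by omega)
  have D3 : ∀ t ∈ Set.Icc (0 : ℝ) 1, ∀ k ≤ m + 1, HasDerivAt (fun t => psi (1 - q) (f t k))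
      (-((1 - q) * psi (1 - q) (f t k) / f t k) * f1 t k) t := fun t ht k hk =>
    HasDerivAt.comp (h₂ := psi (1 - q)) t (hasDerivAt_psi (1 - q) (fpos t ht k hk)) (D1 t k)
  have E1 : ∀ t ∈ Set.Icc (0 : ℝ) 1,
      HasDerivAt (fun t => ∑ k ∈ range (m + 2), f t k * psi (1 - q) (f t k))
        (∑ k ∈ range (m + 2), q * (psi (1 - q) (f t k) * f1 t k)) t := by
    intro t ht
    refine HasDerivAt.fun_sum fun k hk => ?_
    have hk' := fpos t ht k (by simp at hk; omega)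
    refine HasDerivAt.congr_deriv ((D1 t k).mul (D3 t ht k (by simp at hk; omega))) ?_
    field_simp; ring
  have E2 : ∀ t ∈ Set.Icc (0 : ℝ) 1,
      HasDerivAt (fun t => ∑ k ∈ range (m + 2), q * (psi (1 - q) (f t k) * f1 t k))
        (∑ k ∈ range (m + 2), q * (psi (1 - q) (f t k) * f2 t k
          - (1 - q) * psi (1 - q) (f t k) / f t k * f1 t k ^ 2)) t := by
    intro t ht
    refine HasDerivAt.fun_sum fun k hk => ?_
    refine HasDerivAt.congr_deriv
      (((D3 t ht k (by simp at hk; omega)).mul (D2 t k)).const_mul q) ?_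
    ring
  have main : ConcaveOn ℝ (Set.Icc 0 1)
      (fun t => ∑ k ∈ range (m + 2), f t k * psi (1 - q) (f t k)) := by
    refine concaveOn_of_hasDerivWithinAt2_nonpos (convex_Icc 0 1)
      (fun t ht => (E1 t ht).continuousAt.continuousWithinAt)
      (fun t ht => (E1 t (interior_subset ht)).hasDerivWithinAt)
      (fun t ht => (E2 t (interior_subset ht)).hasDerivWithinAt) (fun t ht => ?_)
    have ht' := interior_subset ht
    rw [← mul_sum]
    refine mul_nonpos_of_nonneg_of_nonpos h0.le ?_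
    have eG : (∑ i, L i * PP (univ.erase i) (u t) (w t))
        = X * (∑ i, C (d i) * PP (univ.erase i) (u t) (w t))
          - (∑ i, C (d i) * PP (univ.erase i) (u t) (w t)) := by
      rw [mul_sum, ← sum_sub_distrib]
      exact sum_congr rfl fun i _ => by simp only [hL, C_neg]; ring
    have eH : (∑ i, L i * ∑ j ∈ univ.erase i, L j * PP ((univ.erase i).erase j) (u t) (w t))
        = X * (X * (∑ i, C (d i) * ∑ j ∈ univ.erase i,
            C (d j) * PP ((univ.erase i).erase j) (u t) (w t)))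
          - C 2 * (X * (∑ i, C (d i) * ∑ j ∈ univ.erase i,
            C (d j) * PP ((univ.erase i).erase j) (u t) (w t)))
          + (∑ i, C (d i) * ∑ j ∈ univ.erase i,
            C (d j) * PP ((univ.erase i).erase j) (u t) (w t)) := by
      simp only [mul_sum, ← sum_sub_distrib, ← sum_add_distrib]
      refine sum_congr rfl fun i _ => sum_congr rfl fun j _ => ?_
      simp only [hL, C_neg, map_ofNat]; ring
    have cG : ∀ k, (∑ i, C (d i) * PP (univ.erase i) (u t) (w t)).coeff k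
        = gg univ (u t) (w t) d k := fun k => by simp [gg, finsetSum_coeff, coeff_C_mul]
    have cH : ∀ k, (∑ i, C (d i) * ∑ j ∈ univ.erase i,
        C (d j) * PP ((univ.erase i).erase j) (u t) (w t)).coeff k
        = BB univ (u t) (w t) k d d := fun k => by
      simp only [BB, finsetSum_coeff, coeff_C_mul]
    have hB0 : ∀ k, m ≤ k → BB univ (u t) (w t) k d d = 0 := by
      intro k hk
      refine sum_eq_zero fun i hi => mul_eq_zero_of_right _ (sum_eq_zero fun j hj => ?_)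
      rw [coeff_PP_of_lt, mul_zero]
      have := card_pos.2 ⟨j, hj⟩
      rw [card_erase_of_mem hj]
      rw [card_erase_of_mem hi, hc] at this ⊢
      omega
    refine sum_ineq (by linarith) (by linarith) m (f t) (gg univ (u t) (w t) d)
      (fun k => BB univ (u t) (w t) k d d) (f1 t) (f2 t) (fpos t ht') ?_ ?_ ?_ ?_ ?_ ?_
      (hB0 m le_rfl) (hB0 _ (by omega))
      (fun k hk => key univ (hpos t ht').1 (hpos t ht').2 d (by omega))
    · simp only [hf1, eG, coeff_sub, coeff_X_mul_zero, cG, zero_sub]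
    · intro k; simp only [hf1, eG, coeff_sub, coeff_X_mul, cG]
    · simp only [hf2, eH, coeff_sub, coeff_add, coeff_C_mul, coeff_X_mul_zero, cH]; ring
    · simp only [hf2, eH, coeff_sub, coeff_add, coeff_C_mul]
      rw [coeff_X_mul _ 0, coeff_X_mul _ 0, coeff_X_mul_zero, cH, cH]; ring
    · intro k
      simp only [hf2, eH, coeff_sub, coeff_add, coeff_C_mul]
      rw [show k + 2 = (k + 1) + 1 from rfl, coeff_X_mul, coeff_X_mul, coeff_X_mul, cH, cH, cH]
      ring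
    · refine sum_eq_zero fun i hi => ?_
      rw [coeff_PP_of_lt, mul_zero]
      rw [card_erase_of_mem hi, hc]; omega
  refine main.congr fun t ht => ?_
  rw [hm]
  refine sum_congr rfl fun k hk => ?_
  rw [mul_psi (fpos t ht k (by simp at hk; omega))]
  congr 1
  simp only [hf, pm]
  congr 2
  · funext i; simp only [hu, hd, path]; ring
  · funext i; simp only [hw, hd, path]; ring

lemma concaveOn_of_tendsto {α : Type*} {l : Filter α} [l.NeBot] {F : α → ℝ → ℝ} {f : ℝ → ℝ}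
    {s : Set ℝ} (hs : Convex ℝ s) (hF : ∀ᶠ a in l, ConcaveOn ℝ s (F a))
    (h : ∀ t ∈ s, Tendsto (fun a => F a t) l (𝓝 (f t))) : ConcaveOn ℝ s f := by
  refine ⟨hs, fun x hx y hy a b ha hb hab => ?_⟩
  refine le_of_tendsto_of_tendsto (((h x hx).const_smul a).add ((h y hy).const_smul b))
    (h _ (hs hx hy ha hb hab)) ?_
  filter_upwards [hF] with c hc using hc.2 hx hy ha hb hab

theorem tsallis_concave {q : ℝ} (h0 : 0 < q) (h1 : q < 1) (hι : 0 < Fintype.card ι)
    {p0 p1 : ι → ℝ} (hp0 : ∀ i, p0 i ∈ Set.Icc (0 : ℝ) 1) (hp1 : ∀ i, p1 i ∈ Set.Icc (0 : ℝ) 1) :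
    ConcaveOn ℝ (Set.Icc 0 1)
      (fun t => ∑ k ∈ range (Fintype.card ι + 1), pm (path p0 p1 t) k ^ q) := by
  refine concaveOn_of_tendsto (l := 𝓝[>] (0 : ℝ))
    (F := fun ε t => ∑ k ∈ range (Fintype.card ι + 1),
      pm (path (fun i => (1 - ε) * p0 i + ε / 2) (fun i => (1 - ε) * p1 i + ε / 2) t) k ^ q)
    (convex_Icc 0 1) ?_ (fun t _ => ?_)
  · filter_upwards [Ioo_mem_nhdsGT (show (0 : ℝ) < 1 by norm_num)] with ε hε
    refine tsallis_interior h0 h1 hι (fun i => ?_) (fun i => ?_)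
    · have := hp0 i; constructor <;> nlinarith [this.1, this.2, hε.1, hε.2]
    · have := hp1 i; constructor <;> nlinarith [this.1, this.2, hε.1, hε.2]
  · have : Continuous (fun ε : ℝ => ∑ k ∈ range (Fintype.card ι + 1),
      pm (path (fun i => (1 - ε) * p0 i + ε / 2) (fun i => (1 - ε) * p1 i + ε / 2) t) k ^ q) := by
      refine continuous_finsetSum _ fun k _ => Continuous.rpow_const ?_ (fun _ => Or.inr h0.le)
      simp only [pm, coeff_PP, path]
      fun_prop
    have h := (this.tendsto 0).mono_left (nhdsWithin_le_nhds (s := Set.Ioi 0))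
    simpa using h

lemma pm_nonneg {p : ι → ℝ} (hp : ∀ i, p i ∈ Set.Icc (0 : ℝ) 1) (k : ℕ) : 0 ≤ pm p k := by
  rw [pm, coeff_PP]
  exact sum_nonneg fun B _ => mul_nonneg (prod_nonneg fun i _ => (hp i).1)
    (prod_nonneg fun i _ => by linarith [(hp i).2])

lemma sum_pm (p : ι → ℝ) : ∑ k ∈ range (Fintype.card ι + 1), pm p k = 1 := by
  have hd : (PP univ (fun i => 1 - p i) p).natDegree < Fintype.card ι + 1 :=
    Nat.lt_succ_of_le (natDegree_le_iff_coeff_eq_zero.2 fun k hk => coeff_PP_of_lt _ _ _ hk)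
  have h := eval_eq_sum_range' hd (1 : ℝ)
  simp only [one_pow, mul_one] at h
  simp only [pm]
  rw [← h]
  simp [PP, eval_prod]

omit [DecidableEq ι] [Fintype ι] in
lemma path_mem {p0 p1 : ι → ℝ} (hp0 : ∀ i, p0 i ∈ Set.Icc (0 : ℝ) 1)
    (hp1 : ∀ i, p1 i ∈ Set.Icc (0 : ℝ) 1) {t : ℝ} (ht : t ∈ Set.Icc (0 : ℝ) 1) (i : ι) :
    path p0 p1 t i ∈ Set.Icc (0 : ℝ) 1 := by
  have := hp0 i; have := hp1 i
  simp only [path, Set.mem_Icc] at *
  constructor <;> nlinarith

lemma sum_rpow_pos {P : ℕ → ℝ} {s : Finset ℕ} (hP : ∀ k, 0 ≤ P k) (hs : ∑ k ∈ s, P k = 1) (q : ℝ) :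
    0 < ∑ k ∈ s, P k ^ q := by
  obtain ⟨k, hk, hk0⟩ := exists_ne_zero_of_sum_ne_zero (by rw [hs]; exact one_ne_zero)
  exact sum_pos' (fun j _ => rpow_nonneg (hP j) q)
    ⟨k, hk, rpow_pos_of_pos (lt_of_le_of_ne (hP k) (Ne.symm hk0)) q⟩

theorem renyi_concave {q : ℝ} (h0 : 0 < q) (h1 : q < 1) (hι : 0 < Fintype.card ι)
    {p0 p1 : ι → ℝ} (hp0 : ∀ i, p0 i ∈ Set.Icc (0 : ℝ) 1) (hp1 : ∀ i, p1 i ∈ Set.Icc (0 : ℝ) 1) :
    ConcaveOn ℝ (Set.Icc 0 1) (fun t => 1 / (1 - q) *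
      log (∑ k ∈ range (Fintype.card ι + 1), pm (path p0 p1 t) k ^ q)) := by
  have hT := tsallis_concave h0 h1 hι hp0 hp1
  have hpos : ∀ t ∈ Set.Icc (0 : ℝ) 1,
      0 < ∑ k ∈ range (Fintype.card ι + 1), pm (path p0 p1 t) k ^ q := fun t ht =>
    sum_rpow_pos (pm_nonneg (path_mem hp0 hp1 ht)) (sum_pm _) q
  have hl : ConcaveOn ℝ (Set.Icc 0 1) (fun t =>
      log (∑ k ∈ range (Fintype.card ι + 1), pm (path p0 p1 t) k ^ q)) := by
    refine ⟨convex_Icc 0 1, fun x hx y hy a b ha hb hab => ?_⟩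
    have e1 := strictConcaveOn_log_Ioi.concaveOn.2 (hpos x hx) (hpos y hy) ha hb hab
    have e2 := hT.2 hx hy ha hb hab
    refine e1.trans (log_le_log ?_ e2)
    exact (convex_Ioi (0 : ℝ)) (hpos x hx) (hpos y hy) ha hb hab
  exact hl.smul (c := 1 / (1 - q)) (by have : 0 < 1 - q := by linarith
                                       positivity)

lemma tendsto_renyi {P : ℕ → ℝ} {s : Finset ℕ} (hP : ∀ k, 0 ≤ P k) (hs : ∑ k ∈ s, P k = 1) :
    Tendsto (fun q : ℝ => 1 / (1 - q) * log (∑ k ∈ s, P k ^ q)) (𝓝[<] 1)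
      (𝓝 (-∑ k ∈ s, P k * log (P k))) := by
  have h1 : HasDerivAt (fun q : ℝ => ∑ k ∈ s, P k ^ q) (∑ k ∈ s, P k * log (P k)) 1 := by
    refine HasDerivAt.fun_sum fun k _ => ?_
    rcases eq_or_lt_of_le (hP k) with h | h
    · rw [← h, zero_mul]
      refine (hasDerivAt_const (1 : ℝ) (0 : ℝ)).congr_of_eventuallyEq ?_
      filter_upwards [lt_mem_nhds (show (0 : ℝ) < 1 by norm_num)] with q hq
      exact zero_rpow hq.ne'
    · simpa using (hasStrictDerivAt_const_rpow h 1).hasDerivAt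
  have e : ∑ k ∈ s, P k ^ (1 : ℝ) = 1 := by simpa using hs
  have h2 := h1.log (by rw [e]; exact one_ne_zero)
  rw [e, div_one, hasDerivAt_iff_tendsto_slope] at h2
  have h3 := (h2.mono_left (nhdsWithin_mono _ (fun x (hx : x ∈ Set.Iio (1 : ℝ)) => ne_of_lt hx))).neg
  refine h3.congr fun q => ?_
  rw [slope_def_field, e, log_one, sub_zero, ← neg_sub q 1, one_div, inv_neg]
  ring

theorem shannon_concave (hι : 0 < Fintype.card ι)
    {p0 p1 : ι → ℝ} (hp0 : ∀ i, p0 i ∈ Set.Icc (0 : ℝ) 1) (hp1 : ∀ i, p1 i ∈ Set.Icc (0 : ℝ) 1) :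
    ConcaveOn ℝ (Set.Icc 0 1) (fun t => -∑ k ∈ range (Fintype.card ι + 1),
      pm (path p0 p1 t) k * log (pm (path p0 p1 t) k)) := by
  refine concaveOn_of_tendsto (l := 𝓝[<] (1 : ℝ)) (F := fun q t => 1 / (1 - q) *
      log (∑ k ∈ range (Fintype.card ι + 1), pm (path p0 p1 t) k ^ q)) (convex_Icc 0 1) ?_
      (fun t ht => tendsto_renyi (pm_nonneg (path_mem hp0 hp1 ht)) (sum_pm _))
  filter_upwards [Ioo_mem_nhdsLT (show (0 : ℝ) < 1 by norm_num)] with q hq
  exact renyi_concave hq.1 hq.2 hι hp0 hp1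

end H26.Ren
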