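import Mathlib

namespace Pool.Agent.H26Skew
open Finset

variable {A : Type} [Ring A]

/-- skew polynomials with coefficients on the right -/
def Sk (_ρ : A →+* A) : Type := ℕ →₀ A

variable (ρ : A →+* A)

noncomputable instance : AddCommGroup (Sk ρ) := inferInstanceAs (AddCommGroup (ℕ →₀ A))

noncomputable def sng (n : ℕ) : A →+ Sk ρ := Finsupp.singleAddHom n

noncomputable def co (n : ℕ) : Sk ρ →+ A := Finsupp.applyAddHom n

lemma co_sng (n m : ℕ) (a : A) : co ρ n (sng ρ m a) = if m = n then a else 0 :=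
  Finsupp.single_apply

lemma co_ext {f g : Sk ρ} (h : ∀ n, co ρ n f = co ρ n g) : f = g := Finsupp.ext h

lemma ind {P : Sk ρ → Prop} (f : Sk ρ) (h0 : P 0) (ha : ∀ f g, P f → P g → P (f + g))
    (hs : ∀ n a, P (sng ρ n a)) : P f := Finsupp.induction_linear f h0 ha hs

lemma bdd (f : Sk ρ) : ∃ n, ∀ j, n < j → co ρ j f = 0 := by
  refine ⟨(Finsupp.support f).sup id, fun j hj => ?_⟩
  by_contra h
  have := Finset.le_sup (f := id) (Finsupp.mem_support_iff.2 h)
  simp only [id] at this
  omega

noncomputable def inner (m : ℕ) (a : A) : Sk ρ →+ Sk ρ :=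
  Finsupp.liftAddHom fun n => (sng ρ (m + n)).comp (AddMonoidHom.mulLeft ((ρ ^ n) a))

lemma inner_sng (m n : ℕ) (a b : A) :
    inner ρ m a (sng ρ n b) = sng ρ (m + n) ((ρ ^ n) a * b) :=
  Finsupp.liftAddHom_apply_single _ _ _

noncomputable def mulHom : Sk ρ →+ Sk ρ →+ Sk ρ :=
  Finsupp.liftAddHom fun m => AddMonoidHom.mk' (inner ρ m) (fun a a' => by
    apply AddMonoidHom.ext
    intro g
    induction g using ind with
    | h0 => simp
    | ha f g h1 h2 => rw [map_add, map_add, h1, h2]
    | hs n b => rw [AddMonoidHom.add_apply, inner_sng, inner_sng, inner_sng, map_add, add_mul, map_add])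

lemma mulHom_sng (m n : ℕ) (a b : A) :
    mulHom ρ (sng ρ m a) (sng ρ n b) = sng ρ (m + n) ((ρ ^ n) a * b) := by
  have : mulHom ρ (sng ρ m a) = inner ρ m a := Finsupp.liftAddHom_apply_single _ _ _
  rw [this, inner_sng]

noncomputable instance : Ring (Sk ρ) where
  __ : AddCommGroup (Sk ρ) := inferInstance
  mul f g := mulHom ρ f g
  one := sng ρ 0 1
  left_distrib f g h := map_add (mulHom ρ f) g h
  right_distrib f g h := by
    change mulHom ρ (f + g) h = mulHom ρ f h + mulHom ρ g h
    rw [map_add]; rfl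
  zero_mul f := by
    change mulHom ρ 0 f = 0
    rw [map_zero]; rfl
  mul_zero f := map_zero (mulHom ρ f)
  mul_assoc f g h := by
    change mulHom ρ (mulHom ρ f g) h = mulHom ρ f (mulHom ρ g h)
    induction f using ind with
    | h0 => simp
    | ha f f' h1 h2 => simp only [map_add, AddMonoidHom.add_apply, h1, h2]
    | hs m a =>
      induction g using ind with
      | h0 => simp
      | ha f f' h1 h2 => simp only [map_add, AddMonoidHom.add_apply, h1, h2]
      | hs n b =>
        induction h using ind with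
        | h0 => simp
        | ha f f' h1 h2 => simp only [map_add, h1, h2]
        | hs k c =>
          simp only [mulHom_sng, map_mul, add_assoc, mul_assoc]
          rw [add_comm n k, pow_add]
          rfl
  one_mul f := by
    change mulHom ρ (sng ρ 0 1) f = f
    induction f using ind with
    | h0 => simp
    | ha f f' h1 h2 => simp only [map_add, h1, h2]
    | hs m a => simp [mulHom_sng]
  mul_one f := by
    change mulHom ρ f (sng ρ 0 1) = f
    induction f using ind with
    | h0 => simp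
    | ha f f' h1 h2 => simp only [map_add, AddMonoidHom.add_apply, h1, h2]
    | hs m a => simp [mulHom_sng]

lemma sng_mul (m n : ℕ) (a b : A) :
    sng ρ m a * sng ρ n b = sng ρ (m + n) ((ρ ^ n) a * b) := mulHom_sng ρ m n a b

lemma one_eq : (1 : Sk ρ) = sng ρ 0 1 := rfl

lemma co_zero_mul (f g : Sk ρ) : co ρ 0 (f * g) = co ρ 0 f * co ρ 0 g := by
  induction f using ind with
  | h0 => simp
  | ha f f' h1 h2 => simp only [add_mul, map_add, h1, h2]
  | hs m a =>
    induction g using ind with
    | h0 => simp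
    | ha f f' h1 h2 => simp only [mul_add, map_add, h1, h2]
    | hs n b =>
      rw [sng_mul, co_sng, co_sng, co_sng]
      by_cases h1 : m = 0 <;> by_cases h2 : n = 0 <;> simp [h1, h2]

lemma co_mul_sng (f : Sk ρ) (n k : ℕ) (b : A) :
    co ρ (n + k) (f * sng ρ k b) = (ρ ^ k) (co ρ n f) * b := by
  induction f using ind with
  | h0 => simp
  | ha f f' h1 h2 => simp only [add_mul, map_add, h1, h2]
  | hs m a =>
    rw [sng_mul, co_sng, co_sng]
    by_cases h1 : m = n <;> simp [h1]

lemma co_y_mul (f : Sk ρ) (n : ℕ) : co ρ (n + 1) (sng ρ 1 1 * f) = co ρ n f := by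
  induction f using ind with
  | h0 => simp
  | ha f f' h1 h2 => simp only [mul_add, map_add, h1, h2]
  | hs m a =>
    rw [sng_mul, co_sng, co_sng, add_comm 1 m]
    simp

lemma y_cancel {f g : Sk ρ} (h : sng ρ 1 1 * f = sng ρ 1 1 * g) : f = g :=
  co_ext ρ fun n => by rw [← co_y_mul, h, co_y_mul]

lemma split (f : Sk ρ) : ∃ g, f = sng ρ 0 (co ρ 0 f) + sng ρ 1 1 * g := by
  induction f using ind with
  | h0 => exact ⟨0, by simp⟩
  | ha f f' h1 h2 =>
    obtain ⟨g, hg⟩ := h1
    obtain ⟨g', hg'⟩ := h2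
    refine ⟨g + g', ?_⟩
    rw [map_add, map_add, mul_add, add_add_add_comm, ← hg, ← hg']
  | hs m a =>
    rcases m with _ | m
    · exact ⟨0, by simp [co_sng]⟩
    · exact ⟨sng ρ m a, by simp [co_sng, sng_mul, add_comm]⟩

lemma split0 {f : Sk ρ} (h : co ρ 0 f = 0) : ∃ g, f = sng ρ 1 1 * g := by
  obtain ⟨g, hg⟩ := split ρ f
  exact ⟨g, by rw [hg, h, map_zero, zero_add]⟩

lemma exists_top {f : Sk ρ} (hf : f ≠ 0) : ∃ n, co ρ n f ≠ 0 ∧ ∀ j, n < j → co ρ j f = 0 := by
  classical
  have h := bdd ρ f
  refine ⟨Nat.find h, fun h0 => ?_, Nat.find_spec h⟩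
  rcases hn : Nat.find h with _ | n
  · apply hf
    refine co_ext ρ fun j => ?_
    rcases j with _ | j
    · rw [← hn, h0, map_zero]
    · rw [Nat.find_spec h _ (by omega), map_zero]
  · apply Nat.find_min h (m := n) (by omega)
    intro j hj
    by_cases e : j = n + 1
    · rw [e, ← hn, h0]
    · exact Nat.find_spec h j (by omega)

lemma mul_ne [IsDomain A] (hρ : Function.Injective ρ) {f g : Sk ρ} (hf : f ≠ 0) (hg : g ≠ 0) :
    f * g ≠ 0 := by
  obtain ⟨m, hm, hm'⟩ := exists_top ρ hf
  obtain ⟨n, hn, hn'⟩ := exists_top ρ hg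
  have e : g = ∑ k ∈ range (n + 1), sng ρ k (co ρ k g) := by
    refine co_ext ρ fun j => ?_
    simp only [map_sum, co_sng, sum_ite_eq', mem_range]
    split_ifs with h
    · rfl
    · exact hn' j (by omega)
  intro h
  have := congrArg (co ρ (m + n)) h
  rw [e, mul_sum, map_sum, sum_range_succ, co_mul_sng, sum_eq_zero, zero_add, map_zero] at this
  · refine mul_ne_zero ?_ hn this
    rw [RingHom.coe_pow]
    exact fun h => hm (hρ.iterate n (h.trans (Function.iterate_fixed (map_zero ρ) n).symm))
  · intro k hk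
    have := mem_range.1 hk
    rw [show m + n = (m + n - k) + k by omega, co_mul_sng, hm' _ (by omega), map_zero, zero_mul]

end Pool.Agent.H26Skew
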