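import Mathlib
import Pool.Agent.Lib.helper26.SkewA

namespace Pool.Agent.H26Skew
open Finset Polynomial

variable {D : Type} [DivisionRing D] (τ : D[X] →+* D)

noncomputable abbrev rho : D[X] →+* D[X] := (C : D →+* D[X]).comp τ

lemma rho_inv (hτ : Function.Injective τ) {a : D[X]} (ha : a ≠ 0) (b : D[X]) :
    rho τ a * (C (τ a)⁻¹ * b) = b := by
  have : τ a ≠ 0 := (map_ne_zero_iff τ hτ).2 ha
  change C (τ a) * _ = _
  rw [← mul_assoc, ← map_mul, mul_inv_cancel₀ this, map_one, one_mul]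

lemma rho_inj (hτ : Function.Injective τ) : Function.Injective (rho τ) :=
  C_injective.comp hτ

lemma divide (g : D[X]) {p : D[X]} (hp : p ≠ 0) :
    ∃ q, g - p * q = 0 ∨ (g - p * q).natDegree < p.natDegree := by
  have hl : p.leadingCoeff ≠ 0 := leadingCoeff_ne_zero.2 hp
  have hm : (p * C p.leadingCoeff⁻¹).Monic :=
    monic_mul_C_of_leadingCoeff_mul_eq_one (mul_inv_cancel₀ hl)
  refine ⟨C p.leadingCoeff⁻¹ * (g /ₘ (p * C p.leadingCoeff⁻¹)), ?_⟩
  rw [← mul_assoc, ← modByMonic_eq_sub_mul_div]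
  by_cases h : g %ₘ (p * C p.leadingCoeff⁻¹) = 0
  · exact Or.inl h
  · exact Or.inr (lt_of_lt_of_le (natDegree_lt_natDegree h (degree_modByMonic_lt g hm))
      (natDegree_mul_C_le _ _))

theorem prir (hτ : Function.Injective τ) (I : AddSubmonoid (Sk (rho τ)))
    (hI : ∀ x r, x ∈ I → x * r ∈ I) : ∃ a, ∀ x, x ∈ I ↔ ∃ r, x = a * r := by
  classical
  let ρ := rho τ
  have hsub : ∀ g f r, g ∈ I → f ∈ I → g - f * r ∈ I := fun g f r hg hf => by
    rw [sub_eq_add_neg, ← mul_neg]; exact I.add_mem hg (hI _ _ hf)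
  by_cases h0 : ∃ n, ∃ f ∈ I, f ≠ 0 ∧ ∀ j, n < j → co ρ j f = 0
  swap
  · refine ⟨0, fun x => ⟨fun hx => ⟨0, ?_⟩, fun ⟨r, hr⟩ => by rw [hr, zero_mul]; exact I.zero_mem⟩⟩
    by_contra hne
    obtain ⟨n, hn⟩ := bdd ρ x
    exact h0 ⟨n, x, hx, by simpa using hne, hn⟩
  set n := Nat.find h0 with hn
  have htop : ∀ f ∈ I, f ≠ 0 → (∀ j, n < j → co ρ j f = 0) → co ρ n f ≠ 0 := by
    intro f hf hf0 hb
    obtain ⟨m, hm, hm'⟩ := exists_top ρ hf0
    have h1 : n ≤ m := Nat.find_min' h0 ⟨f, hf, hf0, hm'⟩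
    have h2 : m ≤ n := by
      by_contra hc
      exact hm (hb m (by omega))
    rwa [le_antisymm h1 h2]
  have h1 : ∃ k, ∃ f ∈ I, f ≠ 0 ∧ (∀ j, n < j → co ρ j f = 0) ∧ (co ρ n f).natDegree = k := by
    obtain ⟨f, hf, hf0, hb⟩ := Nat.find_spec h0
    exact ⟨_, f, hf, hf0, hb, rfl⟩
  obtain ⟨f, hf, hf0, hb, hk⟩ := Nat.find_spec h1
  have hfn := htop f hf hf0 hb
  have key : ∀ m g, g ∈ I → (∀ j, n + m < j → co ρ j g = 0) → ∃ r, g = f * r := by
    intro m
    induction m with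
    | zero =>
      intro g hg hgb
      obtain ⟨q, hq⟩ := divide (co ρ n g) hfn
      refine ⟨sng ρ 0 q, ?_⟩
      by_contra hne
      have hne' := sub_ne_zero.2 hne
      have hc : ∀ j, co ρ j (g - f * sng ρ 0 q) = co ρ j g - co ρ j f * q := fun j => by
        have := co_mul_sng ρ f j 0 q
        rw [add_zero, pow_zero] at this
        rw [map_sub, this]
        rfl
      have hb' : ∀ j, n < j → co ρ j (g - f * sng ρ 0 q) = 0 := fun j hj => by
        rw [hc, hgb j hj, hb j hj, zero_mul, sub_zero]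
      rcases hq with hq | hq
      · exact htop _ (hsub _ _ _ hg hf) hne' hb' (by rw [hc, hq])
      · exact Nat.find_min h1 (hk ▸ hq) ⟨_, hsub _ _ _ hg hf, hne', hb', by rw [hc]⟩
    | succ m ih =>
      intro g hg hgb
      have hne : (ρ ^ m) (co ρ n f) ≠ 0 := by
        rw [RingHom.coe_pow]
        exact fun h => hfn ((rho_inj τ hτ).iterate m
          (h.trans (Function.iterate_fixed (map_zero ρ) m).symm))
      obtain ⟨r, hr⟩ := ih (g - f * sng ρ (m + 1)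
        (C (τ ((ρ ^ m) (co ρ n f)))⁻¹ * co ρ (n + (m + 1)) g)) (hsub _ _ _ hg hf) (fun j hj => by
          obtain ⟨i, rfl⟩ : ∃ i, j = i + (m + 1) := ⟨j - (m + 1), by omega⟩
          rw [map_sub, co_mul_sng]
          by_cases e : i = n
          · subst e
            rw [pow_succ', RingHom.coe_mul, Function.comp_apply, rho_inv τ hτ hne, sub_self]
          · rw [hgb _ (by omega), hb i (by omega), map_zero, zero_mul, sub_zero])
      exact ⟨r + _, (sub_eq_iff_eq_add.1 hr).trans (mul_add _ _ _).symm⟩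
  refine ⟨f, fun x => ⟨fun hx => ?_, fun ⟨r, hr⟩ => hr ▸ hI _ _ hf⟩⟩
  obtain ⟨m, hm⟩ := bdd ρ x
  exact key m x hx fun j hj => hm j (by omega)

theorem genB (hτ : Function.Injective τ) (i j : D) (hij : i * j ≠ j * i)
    (hc : ∀ p, τ p * i = i * τ p) :
    ¬ (∀ (R : Type) [Ring R], Nontrivial R →
      (∀ a b : R, (∀ r : R, a * r * b = 0) → a = 0 ∨ b = 0) →
      (∀ I : AddSubmonoid R, (∀ x r : R, x ∈ I → x * r ∈ I) →
          ∃ a : R, ∀ x : R, x ∈ I ↔ ∃ r : R, x = a * r) →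
      ∀ I : AddSubmonoid R, (∀ x r : R, x ∈ I → r * x ∈ I ∧ x * r ∈ I) →
        ∃ L : List (AddSubmonoid R),
          (∀ P ∈ L, (∀ x r : R, x ∈ P → r * x ∈ P ∧ x * r ∈ P) ∧ (1 : R) ∉ P ∧
              ∀ a b : R, (∀ r : R, a * r * b ∈ P) → a ∈ P ∨ b ∈ P) ∧
          L.foldr (fun P J => AddSubmonoid.closure {x : R | ∃ a ∈ P, ∃ b ∈ J, x = a * b}) ⊤ = I) := by
  intro h
  set ρ := rho τ with hρ
  set y : Sk ρ := sng ρ 1 1 with hy
  set w : D[X] := X - C i with hw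
  have hw0 : w ≠ 0 := X_sub_C_ne_zero i
  have cy : ∀ n, co ρ 0 (sng ρ (n + 1) 1) = 0 := fun n => by simp [co_sng]
  have ry : ∀ r : Sk ρ, ∃ s, r * y = y * s := fun r =>
    split0 ρ (by rw [co_zero_mul, cy 0, mul_zero])
  have absorb : ∀ a : D[X], a ≠ 0 → ∃ u : Sk ρ, sng ρ 0 a * (y * u) = y := by
    intro a ha
    refine ⟨sng ρ 0 (C (τ a)⁻¹ * 1), ?_⟩
    rw [hy, sng_mul, sng_mul, pow_zero, pow_one]
    change sng ρ 1 (ρ a * (1 * _)) = _
    rw [one_mul, rho_inv τ hτ ha]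
  let I : AddSubmonoid (Sk ρ) := AddSubmonoid.map (AddMonoidHom.mulLeft (y * sng ρ 0 w)) ⊤
  have hI : ∀ x, x ∈ I ↔ ∃ r, x = y * sng ρ 0 w * r := fun x =>
    ⟨fun ⟨r, _, hr⟩ => ⟨r, hr.symm⟩, fun ⟨r, hr⟩ => ⟨r, trivial, hr.symm⟩⟩
  have yy : ∀ s, y * (y * s) ∈ I := by
    intro s
    obtain ⟨u, hu⟩ := absorb w hw0
    refine (hI _).2 ⟨y * u * s, ?_⟩
    rw [mul_assoc, ← mul_assoc (sng ρ 0 w), hu]
  have hne : (1 : Sk ρ) ≠ 0 := fun e => by
    have := congrArg (co ρ 0) e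
    simp [one_eq, co_sng] at this
  obtain ⟨L, hL, hLI⟩ := h (Sk ρ) ⟨1, 0, hne⟩ (fun a b hab => by
    by_contra hcon
    push Not at hcon
    exact mul_ne ρ (rho_inj τ hτ) hcon.1 hcon.2 (by simpa using hab 1)) (prir τ hτ) I (by
      intro x r hx
      obtain ⟨s, rfl⟩ := (hI x).1 hx
      refine ⟨?_, (hI _).2 ⟨s * r, by rw [mul_assoc]⟩⟩
      obtain ⟨g, hg⟩ := split ρ r
      rw [hg, add_mul]
      apply I.add_mem
      · refine (hI _).2 ⟨sng ρ 0 (ρ (co ρ 0 r)) * s, ?_⟩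
        rw [← mul_assoc, ← mul_assoc _ _ s]
        congr 1
        simp only [hy, sng_mul, pow_zero, pow_one, RingHom.one_def, RingHom.id_apply, one_mul]
        congr 1
        change C _ * w = w * C _
        rw [hw, mul_sub, sub_mul, ← map_mul, ← map_mul, hc, X_mul_C]
      · obtain ⟨t, ht⟩ := ry g
        rw [mul_assoc, mul_assoc y, ← mul_assoc g, ht, mul_assoc]
        exact yy _)
  have TS : ∀ L : List (AddSubmonoid (Sk ρ)),
      (∀ P ∈ L, ∀ x r : Sk ρ, x ∈ P → r * x ∈ P ∧ x * r ∈ P) →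
      (∀ x r : Sk ρ, x ∈ L.foldr (fun P J => AddSubmonoid.closure
          {x | ∃ a ∈ P, ∃ b ∈ J, x = a * b}) ⊤ → r * x ∈ L.foldr (fun P J => AddSubmonoid.closure
          {x | ∃ a ∈ P, ∃ b ∈ J, x = a * b}) ⊤ ∧ x * r ∈ L.foldr (fun P J => AddSubmonoid.closure
          {x | ∃ a ∈ P, ∃ b ∈ J, x = a * b}) ⊤) ∧
      ∀ P ∈ L, L.foldr (fun P J => AddSubmonoid.closure
          {x | ∃ a ∈ P, ∃ b ∈ J, x = a * b}) ⊤ ≤ P := by
    intro L
    induction L with
    | nil => intro _; simp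
    | cons P L ih =>
      intro hP
      obtain ⟨ih1, ih2⟩ := ih (fun Q hQ => hP Q (List.mem_cons_of_mem _ hQ))
      have hP1 := hP P List.mem_cons_self
      simp only [List.foldr_cons]
      constructor
      · intro x r hx
        induction hx using AddSubmonoid.closure_induction with
        | mem x hx =>
          obtain ⟨a, ha, b, hb, rfl⟩ := hx
          exact ⟨AddSubmonoid.subset_closure ⟨r * a, (hP1 a r ha).1, b, hb, (mul_assoc _ _ _).symm⟩,
            AddSubmonoid.subset_closure ⟨a, ha, b * r, (ih1 b r hb).2, mul_assoc _ _ _⟩⟩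
        | zero => simp
        | add x z _ _ h1 h2 =>
          rw [mul_add, add_mul]
          exact ⟨AddSubmonoid.add_mem _ h1.1 h2.1, AddSubmonoid.add_mem _ h1.2 h2.2⟩
      · intro Q hQ
        rw [AddSubmonoid.closure_le]
        rintro _ ⟨a, ha, b, hb, rfl⟩
        rcases List.mem_cons.1 hQ with rfl | hQ
        · exact (hP1 a b ha).2
        · exact ih2 Q hQ (ih1 b a hb).1
  have hyP : ∀ P ∈ L, y ∈ P := by
    intro P hP
    have h1 := (TS L (fun Q hQ => (hL Q hQ).1)).2 P hP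
    rw [hLI] at h1
    refine or_self_iff.1 ((hL P hP).2.2 y y fun r => h1 ?_)
    obtain ⟨s, hs⟩ := ry r
    rw [mul_assoc, hs]
    exact yy s
  have main : ∀ L : List (AddSubmonoid (Sk ρ)),
      (∀ P ∈ L, ∀ x r : Sk ρ, x ∈ P → r * x ∈ P ∧ x * r ∈ P) → (∀ P ∈ L, y ∈ P) →
      (∃ x ∈ L.foldr (fun P J => AddSubmonoid.closure
          {x | ∃ a ∈ P, ∃ b ∈ J, x = a * b}) ⊤, co ρ 0 x ≠ 0) ∨
      ∃ B : AddSubmonoid (Sk ρ), (∀ x r : Sk ρ, x ∈ B → r * x ∈ B) ∧
        L.foldr (fun P J => AddSubmonoid.closure {x | ∃ a ∈ P, ∃ b ∈ J, x = a * b}) ⊤ =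
          B.map (AddMonoidHom.mulLeft y) := by
    intro L
    induction L with
    | nil => intro _ _; exact Or.inl ⟨1, trivial, by simp [one_eq, co_sng]⟩
    | cons P L ih =>
      intro hP hy'
      have hP1 := hP P List.mem_cons_self
      have hyP := hy' P List.mem_cons_self
      have hJ := (TS L (fun Q hQ => hP Q (List.mem_cons_of_mem _ hQ))).1
      simp only [List.foldr_cons]
      by_cases hp : ∃ p ∈ P, co ρ 0 p ≠ 0
      · obtain ⟨p, hp, hp0⟩ := hp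
        rcases ih (fun Q hQ => hP Q (List.mem_cons_of_mem _ hQ))
          (fun Q hQ => hy' Q (List.mem_cons_of_mem _ hQ)) with ⟨x, hx, hx0⟩ | ⟨B, hB, hBe⟩
        · exact Or.inl ⟨p * x, AddSubmonoid.subset_closure ⟨p, hp, x, hx, rfl⟩,
            by rw [co_zero_mul]; exact mul_ne_zero hp0 hx0⟩
        · refine Or.inr ⟨B, hB, le_antisymm ?_ ?_⟩
          · rw [AddSubmonoid.closure_le, ← hBe]
            rintro _ ⟨a, -, b, hb, rfl⟩
            exact (hJ b a hb).1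
          · rintro _ ⟨b, hb, rfl⟩
            obtain ⟨u, hu⟩ := absorb _ hp0
            obtain ⟨g, hg⟩ := split ρ p
            have h1 : sng ρ 0 (co ρ 0 p) ∈ P := by
              have := P.add_mem hp (hP1 y (-g) hyP).2
              rwa [mul_neg, ← sub_eq_add_neg, sub_eq_iff_eq_add.2 hg] at this
            refine AddSubmonoid.subset_closure ⟨_, h1, y * (u * b), ?_, ?_⟩
            · rw [hBe]; exact ⟨u * b, hB b u hb, rfl⟩
            · rw [← mul_assoc y, ← mul_assoc, hu]; rfl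
      · push Not at hp
        refine Or.inr ⟨_, fun x r hx => (hJ x r hx).1, le_antisymm ?_ ?_⟩
        · rw [AddSubmonoid.closure_le]
          rintro _ ⟨a, ha, b, hb, rfl⟩
          obtain ⟨g, rfl⟩ := split0 ρ (hp a ha)
          exact ⟨g * b, (hJ b g hb).1, (mul_assoc _ _ _).symm⟩
        · rintro _ ⟨b, hb, rfl⟩
          exact AddSubmonoid.subset_closure ⟨y, hyP, b, hb, rfl⟩
  rcases main L (fun Q hQ => (hL Q hQ).1) hyP with ⟨x, hx, hx0⟩ | ⟨B, hB, hBe⟩
  · rw [hLI] at hx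
    obtain ⟨r, rfl⟩ := (hI x).1 hx
    rw [mul_assoc, co_zero_mul, cy 0, zero_mul] at hx0
    exact hx0 rfl
  · rw [hLI] at hBe
    have h1 : y * sng ρ 0 w ∈ B.map (AddMonoidHom.mulLeft y) :=
      hBe ▸ (hI _).2 ⟨1, (mul_one _).symm⟩
    obtain ⟨b, hb, hbe⟩ := h1
    have h2 : b = sng ρ 0 w := y_cancel ρ hbe
    have h3 : y * (sng ρ 0 (C j) * b) ∈ I := hBe ▸ ⟨_, hB b _ hb, rfl⟩
    obtain ⟨r, hr⟩ := (hI _).1 h3
    rw [mul_assoc] at hr
    have h4 := congrArg (co ρ 0) (y_cancel ρ hr)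
    rw [h2, co_zero_mul, co_zero_mul] at h4
    simp only [co_sng, if_true] at h4
    have h5 : C (i * j - j * i) = w * (co ρ 0 r - C j) := by
      rw [mul_sub, ← h4, hw, mul_sub, sub_mul, X_mul_C, map_sub, map_mul, map_mul]
      abel
    by_cases h6 : co ρ 0 r - C j = 0
    · rw [h6, mul_zero, C_eq_zero, sub_eq_zero] at h5
      exact hij h5
    · have := congrArg natDegree h5
      rw [natDegree_C, hw, (monic_X_sub_C i).natDegree_mul' h6, natDegree_X_sub_C] at this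
      omega

end Pool.Agent.H26Skew
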