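import Mathlib

set_option autoImplicit false

namespace Pool.Agent.Lib.helper26.Thick

open Filter Topology

lemma dense_class {κ : Type} [Fintype κ] (c : ℕ → κ) : ∃ k : κ,
    0 < limsup (fun N : ℕ => (({x | 1 ≤ x ∧ c x = k} ∩ Set.Icc 1 N).ncard : ℝ) / N) atTop := by
  classical
  have key : ∀ N : ℕ, ∃ k : κ, 1 ≤ N → (1 : ℝ) / Fintype.card κ ≤
      (({x | 1 ≤ x ∧ c x = k} ∩ Set.Icc 1 N).ncard : ℝ) / N := by
    intro N
    have : Nonempty κ := ⟨c 0⟩
    obtain ⟨k, -, hk⟩ := Finset.exists_le_card_fiber_of_nsmul_le_card_of_maps_to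
      (s := Finset.Icc 1 N) (t := Finset.univ) (f := c) (b := (N : ℝ) / Fintype.card κ)
      (fun _ _ => Finset.mem_univ _) Finset.univ_nonempty (by
        have : (0 : ℝ) < Fintype.card κ := by exact_mod_cast Fintype.card_pos
        simp only [Finset.card_univ, nsmul_eq_mul, Nat.card_Icc, add_tsub_cancel_right]
        exact le_of_eq (by field_simp))
    refine ⟨k, fun hN => ?_⟩
    have e : {x | 1 ≤ x ∧ c x = k} ∩ Set.Icc 1 N =
        (((Finset.Icc 1 N).filter fun x => c x = k : Finset ℕ) : Set ℕ) := by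
      ext x
      simp only [Set.mem_inter_iff, Set.mem_ofPred_eq, Set.mem_Icc, Finset.coe_filter,
        Finset.mem_Icc]
      tauto
    rw [e, Set.ncard_coe_finset, le_div_iff₀ (by exact_mod_cast hN), one_div_mul_eq_div]
    exact hk
  choose f hf using key
  obtain ⟨k, hk⟩ := Finite.exists_infinite_fiber f
  refine ⟨k, lt_of_lt_of_le (by
    have : Nonempty κ := ⟨k⟩
    have : (0 : ℝ) < Fintype.card κ := by exact_mod_cast Fintype.card_pos
    positivity : (0 : ℝ) < 1 / Fintype.card κ) (le_limsup_of_frequently_le ?_ ?_)⟩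
  · have : ∃ᶠ N in atTop, f N = k :=
      Nat.frequently_atTop_iff_infinite.2 (Set.infinite_coe_iff.1 hk)
    refine (this.and_eventually (eventually_ge_atTop 1)).mono fun N ⟨h1, h2⟩ => ?_
    rw [← h1]
    exact hf N h2
  · refine isBoundedUnder_of ⟨1, fun N => div_le_one_of_le₀ ?_ (by positivity)⟩
    have := Set.ncard_le_ncard (Set.inter_subset_right (s := {x | 1 ≤ x ∧ c x = k})
      (t := Set.Icc 1 N)) (Set.finite_Icc _ _)
    rw [Set.ncard_eq_toFinset_card' (Set.Icc 1 N)] at this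
    simp only [Set.toFinset_Icc, Nat.card_Icc, add_tsub_cancel_right] at this
    exact_mod_cast this

theorem main (α : ℝ) : ∃ E : Set ℕ, (∀ x ∈ E, 1 ≤ x) ∧
    0 < limsup (fun N : ℕ => ((E ∩ Set.Icc 1 N).ncard : ℝ) / N) atTop ∧
    ∃ L : ℕ, ∀ a : ℕ, ∃ i ≤ L, ∀ y : ℝ,
      (∃ x ∈ E, ∃ x' ∈ E, (x' : ℤ) = x + ⌊y⌋) →
      (∃ x ∈ E, ∃ x' ∈ E, (x' : ℤ) = x + ⌊α * y + (a + i : ℕ)⌋) → False := by
  obtain ⟨h, hh⟩ := exists_nat_gt (2 * (1 + |α|))
  have h0 : (0 : ℝ) < h := lt_trans (by positivity) hh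
  have h1 : 0 < h := by exact_mod_cast h0
  have : NeZero (2 * h) := ⟨by omega⟩
  let b : ℕ → Fin 10 := fun x => ⟨⌊10 * Int.fract (x * α / (2 * h))⌋₊, by
    refine (Nat.floor_lt (by have := Int.fract_nonneg (x * α / (2 * h)); positivity)).2 ?_
    have := Int.fract_lt_one (x * α / (2 * h))
    push_cast
    linarith⟩
  obtain ⟨k, hk⟩ := dense_class fun x => ((x : ZMod (2 * h)), b x)
  refine ⟨_, fun x hx => hx.1, hk, 2 * h, fun a => ?_⟩
  obtain ⟨i, hi, t, ht⟩ : ∃ i ≤ 2 * h, ∃ t : ℕ, a + i = 2 * h * t + h := by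
    have := Nat.mod_lt (a + h) (show 0 < 2 * h by omega)
    have := Nat.div_add_mod (a + h) (2 * h)
    refine ⟨2 * h - (a + h) % (2 * h), by omega, (a + h) / (2 * h), by omega⟩
  refine ⟨i, hi, ?_⟩
  rintro y ⟨x, ⟨-, hx⟩, x', ⟨-, hx'⟩, e1⟩ ⟨z, ⟨-, hz⟩, z', ⟨-, hz'⟩, e2⟩
  have b1 : ⌊10 * Int.fract (x * α / (2 * h))⌋₊ = ⌊10 * Int.fract (x' * α / (2 * h))⌋₊ :=
    congrArg (fun p => (p.2 : ℕ)) (hx.trans hx'.symm)
  obtain ⟨s, hs⟩ : ((2 * h : ℕ) : ℤ) ∣ (z' : ℤ) - z :=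
    ((ZMod.natCast_eq_natCast_iff _ _ _).1 (congrArg Prod.fst (hz.trans hz'.symm))).dvd
  set u := Int.fract (x * α / (2 * h)) with hu
  set u' := Int.fract (x' * α / (2 * h)) with hu'
  have u0 : 0 ≤ 10 * u := by have := Int.fract_nonneg (x * α / (2 * h)); positivity
  have u0' : 0 ≤ 10 * u' := by have := Int.fract_nonneg (x' * α / (2 * h)); positivity
  have c1 := Nat.floor_le u0
  have c2 := Nat.floor_le u0'
  have c3 := Nat.lt_floor_add_one (10 * u)
  have c4 := Nat.lt_floor_add_one (10 * u')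
  rw [b1] at c1 c3
  have d1 : (x : ℝ) * α = 2 * h * (⌊x * α / (2 * h)⌋ + u) := by
    rw [hu, Int.floor_add_fract]; field_simp
  have d2 : (x' : ℝ) * α = 2 * h * (⌊x' * α / (2 * h)⌋ + u') := by
    rw [hu', Int.floor_add_fract]; field_simp
  have e1' : (x' : ℝ) = x + ⌊y⌋ := by exact_mod_cast e1
  have e2' : ((⌊α * y + (a + i : ℕ)⌋ : ℤ) : ℝ) = 2 * h * s := by
    have : ⌊α * y + (a + i : ℕ)⌋ = (2 * h : ℕ) * s := by omega
    rw [this]; push_cast; ring
  have f1 := Int.floor_le (α * y + (a + i : ℕ))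
  have f2 := Int.lt_floor_add_one (α * y + (a + i : ℕ))
  have f3 : |α * (y - ⌊y⌋)| ≤ |α| := by
    rw [abs_mul]
    refine mul_le_of_le_one_right (abs_nonneg _) (abs_le.2 ⟨?_, ?_⟩)
    · linarith [Int.floor_le y]
    · linarith [Int.lt_floor_add_one y]
  rw [e2', ht] at f1 f2
  push_cast at f1 f2
  rw [abs_le] at f3
  set w : ℤ := s - t - ⌊x' * α / (2 * h)⌋ + ⌊x * α / (2 * h)⌋ with hw
  have g : (2 * h : ℝ) * w = 2 * h * s - 2 * h * t - α * ⌊y⌋ + 2 * h * (u' - u) := by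
    rw [hw]
    push_cast
    linear_combination d2 - d1 - α * e1'
  have k1 : 2 * h * (u' - u) ≤ 2 * h * (1 / 10) :=
    mul_le_mul_of_nonneg_left (by linarith) (by positivity)
  have k2 : 2 * h * (-(1 / 10)) ≤ 2 * h * (u' - u) :=
    mul_le_mul_of_nonneg_left (by linarith) (by positivity)
  have g1 : (2 * h : ℝ) * 0 < 2 * h * w := by linarith
  have g2 : (2 * h : ℝ) * w < 2 * h * 1 := by linarith
  have g3 : (0 : ℤ) < w := by exact_mod_cast lt_of_mul_lt_mul_left g1 (by positivity)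
  have g4 : w < 1 := by exact_mod_cast lt_of_mul_lt_mul_left g2 (by positivity)
  omega

end Pool.Agent.Lib.helper26.Thick
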